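import Mathlib

/-! Cyclic distribution along a linear order (for module Block). -/

set_option autoImplicit false

namespace Pool.Agent.Lib.MP7ebef4

namespace Blk

open Finset

theorem card_modEq_Ico (a s N₀ b₀ : ℕ) (hN : 0 < N₀) :
    (((Ico a (a + s)).filter (fun m => m % N₀ = b₀)).card : ℝ) ≤ s / N₀ + 1 := by
  have h1 : ((Ico a (a + s)).filter (fun m => m % N₀ = b₀)) ⊆
      (Ico a (a + s)).filter (fun m => m ≡ b₀ [MOD N₀]) := by
    intro m hm
    rw [mem_filter] at hm ⊢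
    refine ⟨hm.1, ?_⟩
    have h2 : b₀ % N₀ = b₀ := by rw [← hm.2]; exact Nat.mod_mod _ _
    unfold Nat.ModEq
    rw [hm.2, h2]
  have h2 := Nat.Ico_filter_modEq_card a (a + s) hN b₀
  have h3 : (((Ico a (a + s)).filter (fun m => m ≡ b₀ [MOD N₀])).card : ℚ) ≤ s / N₀ + 1 := by
    have hNq : (0:ℚ) < N₀ := by exact_mod_cast hN
    have h4 : ((((Ico a (a + s)).filter (fun m => m ≡ b₀ [MOD N₀])).card : ℤ) : ℚ) =
        ((max (⌈(((a + s : ℕ) : ℚ) - b₀) / (N₀ : ℚ)⌉ - ⌈((a : ℚ) - b₀) / (N₀ : ℚ)⌉) 0 : ℤ) : ℚ) := by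
      exact_mod_cast congrArg (fun z : ℤ => (z : ℚ)) h2
    have h5 : (((Ico a (a + s)).filter (fun m => m ≡ b₀ [MOD N₀])).card : ℚ) =
        ((((Ico a (a + s)).filter (fun m => m ≡ b₀ [MOD N₀])).card : ℤ) : ℚ) := by push_cast; rfl
    rw [h5, h4]
    push_cast
    apply max_le
    · have h6 := Int.ceil_lt_add_one (((a : ℚ) + s - b₀) / (N₀ : ℚ))
      have h7 := Int.le_ceil (((a : ℚ) - b₀) / (N₀ : ℚ))
      have h8 : ((a : ℚ) + s - b₀) / (N₀ : ℚ) = ((a : ℚ) - b₀) / (N₀ : ℚ) + s / N₀ := by ring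
      linarith
    · positivity
  have h6 : (((Ico a (a + s)).filter (fun m => m % N₀ = b₀)).card : ℚ) ≤ s / N₀ + 1 :=
    le_trans (by exact_mod_cast card_le_card h1) h3
  have h7 : ((((Ico a (a + s)).filter (fun m => m % N₀ = b₀)).card : ℚ) : ℝ) ≤
      (((s : ℚ) / N₀ + 1 : ℚ) : ℝ) := by exact_mod_cast h6
  push_cast at h7
  exact h7

/-- position in a finite set for an injective `o` -/
def pos {ι : Type*} (P : Finset ι) (o : ι → ℕ) (v : ι) : ℕ := (P.filter (fun v' => o v' < o v)).card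

theorem card_class_le {ι : Type*} [DecidableEq ι] (P : Finset ι) (o : ι → ℕ)
    (ho : ∀ x ∈ P, ∀ y ∈ P, o x = o y → x = y) (S : Finset ι) (hS : S ⊆ P)
    (hconv : ∀ v₁ ∈ S, ∀ v₃ ∈ S, ∀ v₂ ∈ P, o v₁ ≤ o v₂ → o v₂ ≤ o v₃ → v₂ ∈ S)
    (N₀ b₀ : ℕ) (hN : 0 < N₀) :
    ((S.filter (fun v => pos P o v % N₀ = b₀)).card : ℝ) ≤ S.card / N₀ + 1 := by
  rcases S.eq_empty_or_nonempty with hSe | hSn
  · subst hSe
    simp
  obtain ⟨v₀, hv₀, hmin⟩ := S.exists_min_image o hSn
  have hpos : ∀ v ∈ S, pos P o v ∈ Ico (pos P o v₀) (pos P o v₀ + S.card) := by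
    intro v hv
    rw [mem_Ico]
    constructor
    · apply card_le_card
      intro v' hv'
      rw [mem_filter] at hv' ⊢
      exact ⟨hv'.1, lt_of_lt_of_le hv'.2 (hmin v hv)⟩
    · have h1 : P.filter (fun v' => o v' < o v) ⊆
          (P.filter (fun v' => o v' < o v₀)) ∪ (S.erase v) := by
        intro v' hv'
        rw [mem_filter] at hv'
        rw [mem_union]
        by_cases h : o v' < o v₀
        · exact Or.inl (mem_filter.2 ⟨hv'.1, h⟩)
        · right
          rw [mem_erase]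
          refine ⟨?_, hconv v₀ hv₀ v hv v' hv'.1 (not_lt.1 h) hv'.2.le⟩
          rintro rfl
          exact lt_irrefl _ hv'.2
      have h2 := (card_le_card h1).trans (card_union_le _ _)
      rw [card_erase_of_mem hv] at h2
      have h3 : 0 < S.card := card_pos.2 hSn
      unfold pos
      omega
  have hinj : Set.InjOn (pos P o) (S : Set ι) := by
    intro x hx y hy hxy
    by_contra hne
    have hlt : ∀ a ∈ S, ∀ b ∈ S, o a < o b → pos P o a < pos P o b := by
      intro a ha b hb hab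
      apply card_lt_card
      rw [ssubset_iff_of_subset]
      · exact ⟨a, mem_filter.2 ⟨hS ha, hab⟩, fun h => lt_irrefl _ (mem_filter.1 h).2⟩
      · intro v' hv'
        rw [mem_filter] at hv' ⊢
        exact ⟨hv'.1, hv'.2.trans hab⟩
    rcases Nat.lt_trichotomy (o x) (o y) with h | h | h
    · exact absurd hxy (hlt x hx y hy h).ne
    · exact hne (ho x (hS hx) y (hS hy) h)
    · exact absurd hxy (hlt y hy x hx h).ne'
  have h1 : (S.filter (fun v => pos P o v % N₀ = b₀)).card ≤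
      ((Ico (pos P o v₀) (pos P o v₀ + S.card)).filter (fun m => m % N₀ = b₀)).card := by
    apply card_le_card_of_injOn (pos P o)
    · intro v hv
      rw [mem_coe, mem_filter] at hv
      rw [mem_coe, mem_filter]
      exact ⟨hpos v hv.1, hv.2⟩
    · intro x hx y hy hxy
      rw [mem_coe, mem_filter] at hx hy
      exact hinj hx.1 hy.1 hxy
  calc ((S.filter (fun v => pos P o v % N₀ = b₀)).card : ℝ)
      ≤ (((Ico (pos P o v₀) (pos P o v₀ + S.card)).filter (fun m => m % N₀ = b₀)).card : ℝ) := by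
        exact_mod_cast h1
    _ ≤ _ := card_modEq_Ico _ _ _ _ hN

end Blk

end Pool.Agent.Lib.MP7ebef4
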