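import Pool.Agent.Lib.MP_7ebef4_an.BlockA
import Pool.Agent.Lib.MP_7ebef4_an.BlockB

/-! Module Block: blocks of pumps with a Carleson gap. -/

set_option autoImplicit false

open MeasureTheory Set

namespace Pool.Agent.Lib.MP7ebef4

noncomputable section

namespace Blk

theorem vol_le_of (n : ℕ) (hup : HUp n) (cT : ℝ) : ∃ C : ℝ, 0 < C ∧
    ∀ (T : Tree n cT) (x : T.ι), T.vol x ≤ C * T.h x ^ n := by
  obtain ⟨C, hC, hup⟩ := hup
  refine ⟨C * 36 ^ n, by positivity, ?_⟩
  intro T x
  have hr := T.r_pos x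
  have h1 : T.cell x ⊆ {ζ | ‖ζ‖ = 1 ∧ d ζ (T.pt x) ≤ (3 * T.r x) ^ 2} := by
    intro ζ hζ
    have hn1 : ‖ζ‖ = 1 := by
      have := T.cell_sub _ hζ
      simpa [Sph] using this
    refine ⟨hn1, ?_⟩
    rw [← rho_sq]
    have h2 : rho ζ (T.pt x) ≤ 3 * T.r x := T.cell_near x ζ hζ
    have := rho_nonneg ζ (T.pt x)
    gcongr
  unfold Tree.vol
  apply ENNReal.toReal_le_of_le_ofReal
  · have := pow_pos (T.h_pos x) n; positivity
  · refine (measure_mono h1).trans ((hup (T.pt x) _ (T.norm_pt_le x) (by positivity)).trans ?_)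
    apply ENNReal.ofReal_le_ofReal
    have h2 : (3 * T.r x) ^ 2 = 36 * T.h x := by
      rw [mul_pow, show T.r x ^ 2 = 4 * T.h x from rr_sq _]; ring
    rw [h2, mul_pow, mul_assoc]

theorem sum_hh_le (n : ℕ) (hn : 0 < n) (A : Finset ℕ) (t : ℝ) (ht : 0 ≤ t) (hA : ∀ i ∈ A, hh i ≤ t) :
    ∑ i ∈ A, hh i ^ n ≤ 2 * t ^ n := by
  rcases A.eq_empty_or_nonempty with he | hne
  · subst he
    simp only [Finset.sum_empty]
    positivity
  obtain ⟨i₁, hi₁, hmin⟩ := A.exists_min_image id hne
  obtain ⟨i₂, hi₂, hmax⟩ := A.exists_max_image id hne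
  set x : ℝ := (1/64 : ℝ) ^ n with hx
  have hx0 : 0 ≤ x := by positivity
  have hx1 : x ≤ 1/2 := by
    calc x ≤ (1/64:ℝ) ^ 1 := pow_le_pow_of_le_one (by norm_num) (by norm_num) hn
      _ ≤ 1/2 := by norm_num
  have e : ∀ i, hh i ^ n = x ^ i := by
    intro i
    unfold hh
    rw [hx, ← pow_mul, ← pow_mul, mul_comm]
  calc ∑ i ∈ A, hh i ^ n ≤ ∑ i ∈ Finset.Ico i₁ (i₂ + 1), x ^ i := by
        rw [Finset.sum_congr rfl (fun i _ => e i)]
        apply Finset.sum_le_sum_of_subset_of_nonneg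
        · intro i hi
          have h1 := hmin i hi
          have h2 := hmax i hi
          simp only [id] at h1 h2
          exact Finset.mem_Ico.2 ⟨h1, by omega⟩
        · intro i _ _; positivity
    _ ≤ x ^ i₁ / (1 - x) := geom_sum_Ico_le_of_lt_one hx0 (by linarith)
    _ ≤ 2 * x ^ i₁ := by
        rw [div_le_iff₀ (by linarith)]
        have : 0 ≤ x ^ i₁ := by positivity
        nlinarith
    _ = 2 * hh i₁ ^ n := by rw [e]
    _ ≤ 2 * t ^ n := by
        have := hA i₁ hi₁
        have := hh_pos i₁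
        gcongr

/-- pumps of level `i` -/
def PL {n : ℕ} {cT : ℝ} (T : Tree n cT) (resp : T.ι → T.ι) (i : ℕ) : Finset T.ι :=
  Finset.univ.filter (fun v => resp v = v ∧ T.lev v = i)

end Blk

open Blk in
theorem exists_blocks_of (n : ℕ) (hn : 0 < n) (hup : HUp n) (cT : ℝ) (hc : 0 < cT) :
    ∃ C : ℝ, 0 < C ∧
    ∀ (L N₀ : ℕ), 0 < N₀ → ∀ (T : Tree n cT) (resp : T.ι → T.ι),
    (∀ (x : T.ι) (V : Finset T.ι), (∀ v ∈ V, resp v = v ∧ T.le v x) → ∑ v ∈ V, T.vol v ≤ 2 * T.vol x) →
    ∃ b : T.ι → Fin N₀, IsBlock T resp L N₀ (C * (1 / N₀ + ((1/64 : ℝ) ^ L) ^ n)) b := by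
  classical
  obtain ⟨Cc, hCc, hcard⟩ := card_level_near_of n hup cT hc
  obtain ⟨Cv, hCv, hvol⟩ := vol_le_of n hup cT
  refine ⟨Cc * 2 ^ (2 * n) * (Cv / cT * (2 * (Cv * 64 ^ n)) + 2 * Cv), by positivity, ?_⟩
  intro L N₀ hN₀ T resp hcarl
  have hN0r : (0:ℝ) < N₀ := by exact_mod_cast hN₀
  refine ⟨fun v => ⟨pos (PL T resp (T.lev v)) (ord T) v % N₀, Nat.mod_lt _ hN₀⟩, ⟨?_⟩⟩
  intro b₀ y R V hy hR hV
  set eps : ℝ := 1 / N₀ + ((1/64 : ℝ) ^ L) ^ n with heps
  have heps0 : 0 ≤ eps := by positivity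
  rcases V.eq_empty_or_nonempty with hVe | hVn
  · subst hVe
    simp only [Finset.sum_empty]
    positivity
  -- heights
  have hL1 : (1:ℝ) ≤ 64 ^ L := one_le_pow₀ (by norm_num)
  have hhR : ∀ v ∈ V, T.h v ≤ R := by
    intro v hv
    have h1 := (hV v hv).2.2.1
    have h2 := T.h_pos v
    nlinarith
  -- choice of the grouping level
  obtain ⟨j, hj1, hj2, hj3⟩ : ∃ j : ℕ, (∀ v ∈ V, j ≤ T.lev v) ∧ hh j ≤ 64 * R ∧
      (∀ v ∈ V, rho (T.pt (T.anc j v)) y ≤ 2 * rr j) := by
    by_cases hR1 : 1 ≤ R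
    · refine ⟨0, fun v _ => Nat.zero_le _, by rw [hh_zero]; linarith, ?_⟩
      intro v _
      have h1 : rho (T.pt (T.anc 0 v)) y ≤ Real.sqrt 2 :=
        Real.sqrt_le_sqrt (d_le_two _ _ (T.norm_pt_le _) hy)
      have h2 : Real.sqrt 2 ≤ 2 := by
        rw [Real.sqrt_le_left (by norm_num)]; norm_num
      rw [rr_zero]; linarith
    · rw [not_le] at hR1
      obtain ⟨k, hk⟩ := exists_pow_lt_of_lt_one hR (show (1/64:ℝ) < 1 by norm_num)
      set j := Nat.findGreatest (fun j => R ≤ hh j) k with hj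
      have hjP : R ≤ hh j := Nat.findGreatest_spec (P := fun j => R ≤ hh j) (Nat.zero_le k)
        (by rw [hh_zero]; exact hR1.le)
      have hjk : j < k := by
        rcases Nat.lt_or_ge j k with h | h
        · exact h
        · exfalso
          have h1 : hh j ≤ hh k := hh_anti h
          have h2 : hh k < R := hk
          linarith
      have hnj : hh (j+1) < R := by
        have := Nat.findGreatest_is_greatest (P := fun j => R ≤ hh j) (n := k) (k := j+1)
          (by rw [← hj]; exact Nat.lt_succ_self j) hjk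
        exact not_le.1 this
      have hjl : ∀ v ∈ V, j ≤ T.lev v := by
        intro v hv
        by_contra hcon
        rw [not_le] at hcon
        have h1 : hh j ≤ hh (T.lev v + 1) := hh_anti hcon
        rw [hh_succ] at h1
        have h2 := hhR v hv
        have h3 := T.h_pos v
        unfold Tree.h at h2 h3
        linarith
      refine ⟨j, hjl, ?_, ?_⟩
      · rw [hh_succ] at hnj; linarith
      · intro v hv
        have h1 := T.rho_anc (hjl v hv)
        rw [rho_comm] at h1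
        have h2 : rho (T.pt v) y ≤ rr j / 2 := by
          rw [← sqrt_hh, rho_comm]
          apply Real.sqrt_le_sqrt
          exact ((hV v hv).2.2.2).trans hjP
        have h3 := rho_tri (T.pt (T.anc j v)) (T.pt v) y (T.norm_pt_le _) (T.norm_pt_le _) hy
        have := rr_pos j
        linarith
  set X := V.image (fun v => T.anc j v) with hX
  have hlevX : ∀ x ∈ X, T.lev x = j := by
    intro x hx
    obtain ⟨v, hv, rfl⟩ := Finset.mem_image.1 hx
    exact T.lev_anc (hj1 v hv)
  have hXcard : (X.card : ℝ) ≤ Cc * 2 ^ (2 * n) := by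
    have h1 := hcard T j y (2 * rr j) hy (by have := rr_pos j; linarith) X (by
      intro x hx
      refine ⟨hlevX x hx, ?_⟩
      obtain ⟨v, hv, rfl⟩ := Finset.mem_image.1 hx
      exact hj3 v hv)
    rwa [mul_div_cancel_right₀ _ (rr_pos j).ne'] at h1
  -- estimate below one node
  have hone : ∀ x ∈ X, ∑ v ∈ V.filter (fun v => T.anc j v = x), T.vol v ≤
      (Cv / cT * (2 * (Cv * 64 ^ n)) + 2 * Cv) * (eps * R ^ n) := by
    intro x hx
    set Vx := V.filter (fun v => T.anc j v = x) with hVx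
    have hVxV : ∀ v ∈ Vx, v ∈ V := fun v hv => Finset.mem_of_mem_filter v hv
    have hlex : ∀ v ∈ Vx, T.le v x := by
      intro v hv
      rw [← (Finset.mem_filter.1 hv).2]; exact T.le_anc _ _
    set A := Vx.image T.lev with hA
    have h1 : ∑ v ∈ Vx, T.vol v = ∑ i ∈ A, ∑ v ∈ Vx.filter (fun v => T.lev v = i), T.vol v :=
      (Finset.sum_fiberwise_of_maps_to (fun v hv => Finset.mem_image_of_mem _ hv) _).symm
    have hAR : ∀ i ∈ A, hh i ≤ (1/64 : ℝ) ^ L * R := by
      intro i hi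
      obtain ⟨v, hv, rfl⟩ := Finset.mem_image.1 hi
      have h2 := (hV v (hVxV v hv)).2.2.1
      have h3 : (1/64 : ℝ) ^ L * (64 ^ L * T.h v) = T.h v := by
        rw [← mul_assoc, ← mul_pow]; norm_num
      have h4 : (0:ℝ) ≤ (1/64 : ℝ) ^ L := by positivity
      calc hh (T.lev v) = (1/64 : ℝ) ^ L * (64 ^ L * T.h v) := h3.symm
        _ ≤ _ := by gcongr
    -- one level
    have hlevel : ∀ i ∈ A, ∑ v ∈ Vx.filter (fun v => T.lev v = i), T.vol v ≤
        Cv / cT / N₀ * ∑ v ∈ (PL T resp i).filter (fun v => T.le v x), T.vol v + Cv * hh i ^ n := by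
      intro i _
      set S := (PL T resp i).filter (fun v => T.le v x) with hS
      have hSP : S ⊆ PL T resp i := Finset.filter_subset _ _
      have hclass := card_class_le (PL T resp i) (ord T) (by
          intro a ha b hb hab
          have h2 := (Finset.mem_filter.1 ha).2.2
          have h3 := (Finset.mem_filter.1 hb).2.2
          exact ord_inj T (by rw [h2, h3]) hab) S hSP (by
          intro v₁ h₁ v₃ h₃ v₂ h₂ h12 h23
          have a1 := (Finset.mem_filter.1 (hSP h₁)).2.2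
          have a2 := (Finset.mem_filter.1 h₂).2.2
          have a3 := (Finset.mem_filter.1 (hSP h₃)).2.2
          exact Finset.mem_filter.2 ⟨h₂, ord_convex T (by rw [a1, a2]) (by rw [a2, a3])
            (Finset.mem_filter.1 h₁).2 (Finset.mem_filter.1 h₃).2 h12 h23⟩) N₀ (b₀ : ℕ) hN₀
      have hsub : Vx.filter (fun v => T.lev v = i) ⊆
          S.filter (fun v => pos (PL T resp i) (ord T) v % N₀ = (b₀ : ℕ)) := by
        intro v hv
        have h2 := (Finset.mem_filter.1 hv).2
        have h3 := (Finset.mem_filter.1 hv).1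
        have h4 := hV v (hVxV v h3)
        refine Finset.mem_filter.2 ⟨Finset.mem_filter.2 ⟨Finset.mem_filter.2
          ⟨Finset.mem_univ _, h4.1, h2⟩, hlex v h3⟩, ?_⟩
        have h5 := congrArg Fin.val h4.2.1
        simp only at h5
        rw [h2] at h5
        exact h5
      have hsumle : ∑ v ∈ Vx.filter (fun v => T.lev v = i), T.vol v ≤
          (Vx.filter (fun v => T.lev v = i)).card * (Cv * hh i ^ n) := by
        rw [← nsmul_eq_mul]
        apply Finset.sum_le_card_nsmul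
        intro v hv
        have h2 := (Finset.mem_filter.1 hv).2
        have h3 := hvol T v
        unfold Tree.h at h3
        rw [h2] at h3
        exact h3
      have hScard : (S.card : ℝ) * (cT * hh i ^ n) ≤ ∑ v ∈ S, T.vol v := by
        rw [← nsmul_eq_mul]
        apply Finset.card_nsmul_le_sum
        intro v hv
        have h2 := (Finset.mem_filter.1 (hSP hv)).2.2
        have h3 := T.vol_ge v hc
        unfold Tree.h at h3
        rw [h2] at h3
        exact h3
      have hhi := pow_pos (hh_pos i) n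
      have hcard2 : ((Vx.filter (fun v => T.lev v = i)).card : ℝ) ≤ S.card / N₀ + 1 :=
        le_trans (by exact_mod_cast Finset.card_le_card hsub) hclass
      calc ∑ v ∈ Vx.filter (fun v => T.lev v = i), T.vol v
          ≤ (Vx.filter (fun v => T.lev v = i)).card * (Cv * hh i ^ n) := hsumle
        _ ≤ (S.card / N₀ + 1) * (Cv * hh i ^ n) := by gcongr
        _ = Cv / cT / N₀ * (S.card * (cT * hh i ^ n)) + Cv * hh i ^ n := by
            field_simp
        _ ≤ _ := by gcongr
    have h2 : ∑ i ∈ A, ∑ v ∈ (PL T resp i).filter (fun v => T.le v x), T.vol v ≤ 2 * T.vol x := by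
      have h3 : ∑ i ∈ A, ∑ v ∈ (PL T resp i).filter (fun v => T.le v x), T.vol v =
          ∑ v ∈ A.biUnion (fun i => (PL T resp i).filter (fun v => T.le v x)), T.vol v := by
        rw [Finset.sum_biUnion]
        intro i _ i' _ hne
        rw [Function.onFun, Finset.disjoint_left]
        intro v hv hv'
        apply hne
        have a1 := (Finset.mem_filter.1 (Finset.mem_filter.1 hv).1).2.2
        have a2 := (Finset.mem_filter.1 (Finset.mem_filter.1 hv').1).2.2
        rw [← a1, ← a2]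
      rw [h3]
      apply hcarl
      intro v hv
      obtain ⟨i, _, hvi⟩ := Finset.mem_biUnion.1 hv
      exact ⟨(Finset.mem_filter.1 (Finset.mem_filter.1 hvi).1).2.1, (Finset.mem_filter.1 hvi).2⟩
    have h3 : T.vol x ≤ Cv * (64 * R) ^ n := by
      refine (hvol T x).trans ?_
      have h4 : T.h x ≤ 64 * R := by unfold Tree.h; rw [hlevX x hx]; exact hj2
      have := T.h_pos x
      gcongr
    have h4 := sum_hh_le n hn A ((1/64 : ℝ) ^ L * R) (by positivity) hAR
    rw [h1]
    calc ∑ i ∈ A, ∑ v ∈ Vx.filter (fun v => T.lev v = i), T.vol v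
        ≤ ∑ i ∈ A, (Cv / cT / N₀ * ∑ v ∈ (PL T resp i).filter (fun v => T.le v x), T.vol v +
            Cv * hh i ^ n) := Finset.sum_le_sum hlevel
      _ = Cv / cT / N₀ * ∑ i ∈ A, ∑ v ∈ (PL T resp i).filter (fun v => T.le v x), T.vol v +
            Cv * ∑ i ∈ A, hh i ^ n := by
          rw [Finset.sum_add_distrib, Finset.mul_sum, Finset.mul_sum]
      _ ≤ Cv / cT / N₀ * (2 * (Cv * (64 * R) ^ n)) + Cv * (2 * ((1/64 : ℝ) ^ L * R) ^ n) := by
          gcongr
          exact h2.trans (by linarith)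
      _ = Cv / cT * (2 * (Cv * 64 ^ n)) * (1 / N₀ * R ^ n) +
            2 * Cv * (((1/64 : ℝ) ^ L) ^ n * R ^ n) := by
          rw [mul_pow, mul_pow]; ring
      _ ≤ Cv / cT * (2 * (Cv * 64 ^ n)) * (eps * R ^ n) + 2 * Cv * (eps * R ^ n) := by
          have e1 : (1:ℝ) / N₀ ≤ eps := by
            rw [heps]; have : (0:ℝ) ≤ ((1/64 : ℝ) ^ L) ^ n := by positivity
            linarith
          have e2 : ((1/64 : ℝ) ^ L) ^ n ≤ eps := by
            rw [heps]; have : (0:ℝ) ≤ 1 / N₀ := by positivity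
            linarith
          gcongr
      _ = _ := by ring
  have hsplit : ∑ v ∈ V, T.vol v = ∑ x ∈ X, ∑ v ∈ V.filter (fun v => T.anc j v = x), T.vol v :=
    (Finset.sum_fiberwise_of_maps_to (fun v hv => Finset.mem_image_of_mem _ hv) _).symm
  rw [hsplit]
  calc ∑ x ∈ X, ∑ v ∈ V.filter (fun v => T.anc j v = x), T.vol v
      ≤ ∑ _x ∈ X, (Cv / cT * (2 * (Cv * 64 ^ n)) + 2 * Cv) * (eps * R ^ n) :=
        Finset.sum_le_sum hone
    _ = X.card * ((Cv / cT * (2 * (Cv * 64 ^ n)) + 2 * Cv) * (eps * R ^ n)) := by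
        rw [Finset.sum_const, nsmul_eq_mul]
    _ ≤ (Cc * 2 ^ (2 * n)) * ((Cv / cT * (2 * (Cv * 64 ^ n)) + 2 * Cv) * (eps * R ^ n)) := by
        gcongr
    _ = _ := by ring

end

end Pool.Agent.Lib.MP7ebef4
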