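import Pool.Agent.Lib.MP_7ebef4_an.Card

/-! Tree-compatible order of the nodes of a level (for module Block). -/

set_option autoImplicit false

open MeasureTheory Set

namespace Pool.Agent.Lib.MP7ebef4

namespace Blk

noncomputable section

variable {n : ℕ} {cT : ℝ} (T : Tree n cT)

/-- an arbitrary enumeration of the nodes -/
def idx (x : T.ι) : ℕ := (Fintype.equivFin T.ι x : ℕ)

theorem idx_lt (x : T.ι) : idx T x < Fintype.card T.ι := (Fintype.equivFin T.ι x).2

theorem idx_inj {x y : T.ι} (h : idx T x = idx T y) : x = y :=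
  (Fintype.equivFin T.ι).injective (Fin.ext h)

def ordAux : ℕ → T.ι → ℕ
  | 0, _ => 0
  | k+1, x => ordAux k (T.par x) * Fintype.card T.ι + idx T x

/-- tree-compatible position of a node among the nodes of its level -/
def ord (x : T.ι) : ℕ := ordAux T (T.lev x) x

theorem ord_succ {x : T.ι} (h : T.lev x ≠ 0) :
    ord T x = ord T (T.par x) * Fintype.card T.ι + idx T x := by
  obtain ⟨k, hk⟩ := Nat.exists_eq_succ_of_ne_zero h
  unfold ord
  have h2 : T.lev (T.par x) = k := by rw [T.lev_par', hk]; rfl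
  rw [hk, h2]; rfl

theorem ord_inj {x y : T.ι} (hl : T.lev x = T.lev y) (h : ord T x = ord T y) : x = y := by
  by_cases h0 : T.lev x = 0
  · rw [T.eq_root x h0, T.eq_root y (by omega)]
  · have hy0 : T.lev y ≠ 0 := by omega
    rw [ord_succ T h0, ord_succ T hy0] at h
    have h1 := congrArg (· % Fintype.card T.ι) h
    simp only [Nat.mul_add_mod_of_lt (idx_lt T x), Nat.mul_add_mod_of_lt (idx_lt T y)] at h1
    exact idx_inj T h1

theorem ord_par_le {x y : T.ι} (hl : T.lev x = T.lev y) (h : ord T x ≤ ord T y) :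
    ord T (T.par x) ≤ ord T (T.par y) := by
  by_cases h0 : T.lev x = 0
  · rw [T.eq_root x h0, T.eq_root y (by omega)]
  · have hy0 : T.lev y ≠ 0 := by omega
    rw [ord_succ T h0, ord_succ T hy0] at h
    have hN : 0 < Fintype.card T.ι := Fintype.card_pos_iff.2 ⟨x⟩
    have hx := idx_lt T x
    have hy := idx_lt T y
    by_contra hcon
    rw [not_le] at hcon
    have h2 : (ord T (T.par y) + 1) * Fintype.card T.ι ≤ ord T (T.par x) * Fintype.card T.ι :=
      Nat.mul_le_mul_right _ hcon
    have h3 : (ord T (T.par y) + 1) * Fintype.card T.ι =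
      ord T (T.par y) * Fintype.card T.ι + Fintype.card T.ι := by ring
    omega

theorem ord_iter_le (k : ℕ) {x y : T.ι} (hl : T.lev x = T.lev y) (h : ord T x ≤ ord T y) :
    ord T (T.par^[k] x) ≤ ord T (T.par^[k] y) := by
  induction k with
  | zero => exact h
  | succ k ih =>
    rw [Function.iterate_succ_apply', Function.iterate_succ_apply']
    exact ord_par_le T (by rw [T.lev_iter, T.lev_iter, hl]) ih

/-- descendants of a node are convex for `ord` -/
theorem ord_convex {v₁ v₂ v₃ x : T.ι} (h12 : T.lev v₁ = T.lev v₂) (h23 : T.lev v₂ = T.lev v₃)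
    (h1 : T.le v₁ x) (h3 : T.le v₃ x) (ho1 : ord T v₁ ≤ ord T v₂) (ho2 : ord T v₂ ≤ ord T v₃) :
    T.le v₂ x := by
  have e1 := T.eq_anc_of_le h1
  have e3 := T.eq_anc_of_le h3
  have hl1 := T.lev_le_of_le h1
  have a1 := ord_iter_le T (T.lev v₁ - T.lev x) h12 ho1
  have a2 := ord_iter_le T (T.lev v₂ - T.lev x) h23 ho2
  have b1 : T.par^[T.lev v₁ - T.lev x] v₁ = x := e1.symm
  have b3 : T.par^[T.lev v₃ - T.lev x] v₃ = x := e3.symm
  rw [b1, h12] at a1
  rw [h23, b3, ← h23] at a2
  have hl : T.lev (T.par^[T.lev v₂ - T.lev x] v₂) = T.lev x := by rw [T.lev_iter]; omega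
  have h4 := ord_inj T hl (le_antisymm a2 a1)
  exact ⟨_, h4⟩

end

end Blk

end Pool.Agent.Lib.MP7ebef4
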