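import Pool.Agent.Lib.MP_7ebef4_an.TreeBasic

/-! Number of nodes of a level near a point (conditional on the ball estimate for `sig`). -/

set_option autoImplicit false

open MeasureTheory Set

namespace Pool.Agent.Lib.MP7ebef4

noncomputable section

/-- the statement of `sig_ball_upper` -/
def HUp (n : ℕ) : Prop := ∃ C : ℝ, 0 < C ∧ ∀ (η : E n) (t : ℝ), ‖η‖ ≤ 1 → 0 < t →
    sig n {ζ | ‖ζ‖ = 1 ∧ d ζ η ≤ t} ≤ ENNReal.ofReal (C * t ^ n)

/-- number of nodes of level `i` near a point of the closed ball -/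
theorem card_level_near_of (n : ℕ) (hup : HUp n) (cT : ℝ) (hc : 0 < cT) : ∃ C : ℝ, 0 < C ∧
    ∀ (T : Tree n cT) (i : ℕ) (η : E n) (R : ℝ), ‖η‖ ≤ 1 → rr i ≤ R → ∀ V : Finset T.ι,
    (∀ v ∈ V, T.lev v = i ∧ rho (T.pt v) η ≤ R) → (V.card : ℝ) ≤ C * (R / rr i) ^ (2 * n) := by
  obtain ⟨C, hC, hup⟩ := hup
  refine ⟨C * 64 ^ n / cT, by positivity, ?_⟩
  intro T i η R hη hR V hV
  have hri := rr_pos i
  have hR0 : 0 < R := lt_of_lt_of_le hri hR
  have h1 : ∑ v ∈ V, T.vol v ≤ (sig n {ζ | ‖ζ‖ = 1 ∧ d ζ η ≤ 16 * R ^ 2}).toReal := by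
    apply T.sum_vol_le
    · intro v hv v' hv' hle
      exact T.le_of_lev_eq hle (by rw [(hV v hv).1, (hV v' hv').1])
    · intro v hv ζ hζ
      have h2 := T.cell_near v ζ hζ
      have h3 : ‖ζ‖ = 1 := by
        have := T.cell_sub v hζ
        simpa [Sph] using this
      refine ⟨h3, ?_⟩
      have h4 := rho_tri ζ (T.pt v) η h3.le (T.norm_pt_le v) hη
      rw [(hV v hv).1] at h2
      have h5 := (hV v hv).2
      have h6 : rho ζ η ≤ 4 * R := by linarith
      rw [← rho_sq]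
      have := rho_nonneg ζ η
      nlinarith
  have h2 : (sig n {ζ | ‖ζ‖ = 1 ∧ d ζ η ≤ 16 * R ^ 2}).toReal ≤ C * (16 * R ^ 2) ^ n := by
    apply ENNReal.toReal_le_of_le_ofReal (by positivity)
    exact hup η _ hη (by positivity)
  have h3 : (V.card : ℝ) * (cT * hh i ^ n) ≤ ∑ v ∈ V, T.vol v := by
    rw [← nsmul_eq_mul]
    apply Finset.card_nsmul_le_sum
    intro v hv
    have := T.vol_ge v hc
    rw [Tree.h, (hV v hv).1] at this
    exact this
  have h4 : (V.card : ℝ) * (cT * hh i ^ n) ≤ C * (16 * R ^ 2) ^ n := h3.trans (h1.trans h2)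
  have h5 : 0 < cT * hh i ^ n := mul_pos hc (pow_pos (hh_pos i) n)
  have h6 : C * (16 * R ^ 2) ^ n = (C * 64 ^ n / cT * (R / rr i) ^ (2 * n)) * (cT * hh i ^ n) := by
    have h7 : rr i ^ 2 = 4 * hh i := rr_sq i
    have h8 : (R / rr i) ^ (2 * n) * hh i ^ n = (R ^ 2 / 4) ^ n := by
      rw [pow_mul, ← mul_pow]
      congr 1
      rw [div_pow, h7]
      have := hh_pos i
      field_simp
    calc C * (16 * R ^ 2) ^ n = C * (64 ^ n * (R ^ 2 / 4) ^ n) := by
          rw [← mul_pow]; congr 2; ring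
      _ = C * (64 ^ n * ((R / rr i) ^ (2 * n) * hh i ^ n)) := by rw [h8]
      _ = _ := by field_simp
  rw [h6] at h4
  exact le_of_mul_le_mul_right h4 h5

end

end Pool.Agent.Lib.MP7ebef4
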