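import Pool.Agent.Lib.MP_7ebef4_an.HLC
import Pool.Agent.Lib.MP_7ebef4_an.Card

/-! Module CFun: the function `c` on the tree (conditional on the analytic inputs `CF.Inp`). -/

set_option autoImplicit false

open MeasureTheory Set

namespace Pool.Agent.Lib.MP7ebef4

namespace CF

noncomputable section

/-- the analytic inputs: `sig_ball_upper`, `sig_sph`, `polar`, `rmax_L1`, `submean` (p = 1/2),
`hardy_stein` -/
structure Inp (n : ℕ) : Prop where
  up : HUp n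
  sph : sig n (Sph n)ᶜ = 0
  polar : ∀ φ : E n → ENNReal, Measurable φ →
    ∫⁻ z in B n, φ z = ∫⁻ r in Ioo (0:ℝ) 1, ENNReal.ofReal (2 * n * r ^ (2 * n - 1)) *
      ∫⁻ ζ, φ (r • ζ) ∂(sig n)
  rm : ∃ C : ℝ, 0 < C ∧ ∀ (f : E n → ℂ) (ρ : ℝ), 1 < ρ →
    DifferentiableOn ℂ f (Metric.ball 0 ρ) →
    ∫⁻ ζ, rmax f ζ ∂(sig n) ≤ ENNReal.ofReal C * ∫⁻ ζ, ‖f ζ‖ₑ ∂(sig n)
  sub : ∃ C : ℝ, 0 < C ∧
    ∀ h : E n → ℂ, DifferentiableOn ℂ h (B n) → ∀ w ∈ B n,
    ‖h w‖ₑ ^ (1/2:ℝ) ≤ ENNReal.ofReal (C * (dl w ^ n)⁻¹) *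
      ∫⁻ ζ in {ζ | rho ζ w ≤ C * Real.sqrt (dl w)}, (rmax h ζ) ^ (1/2:ℝ) ∂(sig n)
  hs : ∃ C : ℝ, 0 < C ∧ ∀ (f : E n → ℂ) (ρ ε : ℝ), 1 < ρ → 0 < ε →
    DifferentiableOn ℂ f (Metric.ball 0 ρ) →
    ∫⁻ z in B n, ENNReal.ofReal (‖fderiv ℂ f z z‖ ^ 2 / Real.sqrt (‖f z‖ ^ 2 + ε ^ 2) * dl z) ≤
      ENNReal.ofReal C * (∫⁻ ζ, ‖f ζ‖ₑ ∂(sig n) + ENNReal.ofReal ε)

variable {n : ℕ} {cT : ℝ}


theorem continuous_rho (η : E n) : Continuous (fun ζ : E n => rho ζ η) := by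
  unfold rho d q
  fun_prop

/-- nonisotropic ball of the sphere attached to a node -/
def Bk (T : Tree n cT) (κ : ℝ) (x : T.ι) : Set (E n) := {ζ | ‖ζ‖ = 1 ∧ rho ζ (T.pt x) ≤ κ * T.r x}

theorem meas_Bk (T : Tree n cT) (κ : ℝ) (x : T.ι) : MeasurableSet (Bk T κ x) := by
  apply MeasurableSet.inter
  · exact (isClosed_eq continuous_norm continuous_const).measurableSet
  · exact (isClosed_le (continuous_rho _) continuous_const).measurableSet

theorem Bk_sub (T : Tree n cT) (κ : ℝ) (x y : T.ι)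
    (h : rho (T.pt x) (T.pt y) + κ * T.r x ≤ κ * T.r y) : Bk T κ x ⊆ Bk T κ y := by
  intro ζ hζ
  refine ⟨hζ.1, ?_⟩
  have h1 := rho_tri ζ (T.pt x) (T.pt y) hζ.1.le (T.norm_pt_le _) (T.norm_pt_le _)
  have := hζ.2
  linarith

theorem rho_le_sqrt_two (z w : E n) (hz : ‖z‖ ≤ 1) (hw : ‖w‖ ≤ 1) : rho z w ≤ Real.sqrt 2 :=
  Real.sqrt_le_sqrt (d_le_two z w hz hw)

theorem rho_le_two (z w : E n) (hz : ‖z‖ ≤ 1) (hw : ‖w‖ ≤ 1) : rho z w ≤ 2 := by
  refine (rho_le_sqrt_two z w hz hw).trans ?_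
  rw [Real.sqrt_le_left (by norm_num)]; norm_num

theorem Bk_root (T : Tree n cT) (κ : ℝ) (hκ : 4 ≤ κ) (S : Set (E n)) (hS : ∀ ζ ∈ S, ‖ζ‖ = 1) :
    S ⊆ Bk T κ T.root := by
  intro ζ hζ
  refine ⟨hS ζ hζ, ?_⟩
  have h1 := rho_le_two ζ (T.pt T.root) (hS ζ hζ).le (T.norm_pt_le _)
  have h2 : T.r T.root = 2 := by unfold Tree.r; rw [T.lev_root, rr_zero]
  rw [h2]; linarith

/-- strict descendants have smaller balls -/
theorem Bk_mono (T : Tree n cT) (κ : ℝ) (hκ : 4 ≤ κ) {x y : T.ι} (h : T.le x y) (hne : x ≠ y) :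
    Bk T κ x ⊆ Bk T κ y := by
  apply Bk_sub
  have h1 := T.rho_le_of_le h
  have h2 : T.lev y + 1 ≤ T.lev x := by
    have h3 := T.lev_le_of_le h
    rcases Nat.lt_or_ge (T.lev y) (T.lev x) with h4 | h4
    · exact h4
    · exact absurd (T.le_of_lev_eq h (by omega)) hne
  have h3 : T.r x ≤ T.r y / 8 := by
    have := rr_anti h2
    rw [rr_succ] at this
    exact this
  have := T.r_pos y
  nlinarith

/-- transfer of a ball to an ancestor of another node -/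
theorem transfer (T : Tree n cT) (κ : ℝ) (hκ : 4 ≤ κ) (x y u : T.ι) (hu : T.le x u) :
    ∃ y', T.le y y' ∧ Bk T κ u ⊆ Bk T κ y' ∧
      T.h y' ≤ 500 * ((T.h x + T.h y + d (T.pt x) (T.pt y)) / T.h x) * T.h u := by
  classical
  set D := T.h x + T.h y + d (T.pt x) (T.pt y) with hD
  have hx := T.h_pos x
  have hy := T.h_pos y
  have hup := T.h_pos u
  have hdn := d_nonneg (T.pt x) (T.pt y)
  have hDpos : 0 < D := by rw [hD]; linarith
  have hxu : T.h x ≤ T.h u := hh_anti (T.lev_le_of_le hu)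
  set Q := D / T.h x with hQ
  have hQ1 : 1 ≤ Q := by
    rw [hQ, le_div_iff₀ hx, hD]; linarith
  have hDQ : D ≤ Q * T.h u := by
    rw [hQ, div_mul_eq_mul_div, le_div_iff₀ hx]
    exact mul_le_mul_of_nonneg_left hxu hDpos.le
  have huQ : T.h u ≤ Q * T.h u := by nlinarith
  set s := Real.sqrt D with hs
  have hs0 : 0 ≤ s := Real.sqrt_nonneg _
  have hs2 : s ^ 2 = D := Real.sq_sqrt hDpos.le
  have hru := T.r_pos u
  have hru2 : T.r u ^ 2 = 4 * T.h u := rr_sq _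
  have hrxy : rho (T.pt x) (T.pt y) ≤ s := by
    unfold rho; apply Real.sqrt_le_sqrt; rw [hD]; linarith
  have hux : rho (T.pt u) (T.pt x) ≤ 8/7 * T.r u := by
    rw [rho_comm]; exact T.rho_le_of_le hu
  -- the ball of `u` is contained in the ball of an ancestor `y'` of `y` when `P` holds
  have hsub : ∀ j ≤ T.lev y, (κ + 8/7) * T.r u + s ≤ (κ - 8/7) * rr j →
      Bk T κ u ⊆ Bk T κ (T.anc j y) := by
    intro j hj hP
    apply Bk_sub
    have h1 := T.rho_anc hj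
    have h2 : T.r (T.anc j y) = rr j := by unfold Tree.r; rw [T.lev_anc hj]
    rw [h2]
    have h3 := rho_tri (T.pt u) (T.pt x) (T.pt (T.anc j y)) (T.norm_pt_le _) (T.norm_pt_le _)
      (T.norm_pt_le _)
    have h4 := rho_tri (T.pt x) (T.pt y) (T.pt (T.anc j y)) (T.norm_pt_le _) (T.norm_pt_le _)
      (T.norm_pt_le _)
    linarith
  by_cases h0 : (κ + 8/7) * T.r u + s ≤ (κ - 8/7) * rr 0
  · set j := Nat.findGreatest (fun j => (κ + 8/7) * T.r u + s ≤ (κ - 8/7) * rr j) (T.lev y) with hj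
    have hjP : (κ + 8/7) * T.r u + s ≤ (κ - 8/7) * rr j :=
      Nat.findGreatest_spec (P := fun j => (κ + 8/7) * T.r u + s ≤ (κ - 8/7) * rr j)
        (Nat.zero_le _) h0
    have hjle : j ≤ T.lev y := Nat.findGreatest_le _
    refine ⟨T.anc j y, T.le_anc _ _, hsub j hjle hjP, ?_⟩
    have hhj : T.h (T.anc j y) = hh j := by unfold Tree.h; rw [T.lev_anc hjle]
    rw [hhj]
    rcases Nat.lt_or_ge j (T.lev y) with hlt | hge
    · have hnP : ¬ ((κ + 8/7) * T.r u + s ≤ (κ - 8/7) * rr (j+1)) :=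
        Nat.findGreatest_is_greatest (P := fun j => (κ + 8/7) * T.r u + s ≤ (κ - 8/7) * rr j)
          (by rw [← hj]; exact Nat.lt_succ_self j) hlt
      rw [not_le, rr_succ] at hnP
      have hrj := rr_pos j
      have hrj2 : rr j ^ 2 = 4 * hh j := rr_sq j
      -- rr j ≤ 14.4 r_u + 2.8 s
      have h5 : rr j ≤ 14.4 * T.r u + 2.8 * s := by
        have hk : (0:ℝ) < κ - 8/7 := by linarith
        have h6 : (κ - 8/7) * rr j < 8 * ((κ + 8/7) * T.r u + s) := by linarith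
        have h7 : κ + 8/7 ≤ 1.8 * (κ - 8/7) := by linarith
        have h8 : 1 ≤ 0.35 * (κ - 8/7) := by linarith
        have h9 : 8 * ((κ + 8/7) * T.r u + s) ≤ (κ - 8/7) * (14.4 * T.r u + 2.8 * s) := by
          nlinarith
        exact le_of_mul_le_mul_left (h6.le.trans h9) hk
      have h10 : rr j ^ 2 ≤ 2 * ((14.4 * T.r u) ^ 2 + (2.8 * s) ^ 2) := by
        have : 0 ≤ 14.4 * T.r u + 2.8 * s := by positivity
        nlinarith [sq_nonneg (14.4 * T.r u - 2.8 * s)]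
      nlinarith
    · have : j = T.lev y := le_antisymm hjle hge
      rw [this]
      have h1 : T.h y ≤ D := by rw [hD]; linarith
      change T.h y ≤ _
      nlinarith
  · refine ⟨T.root, T.le_root y, Bk_root T κ hκ _ (fun ζ hζ => hζ.1), ?_⟩
    have hr : T.h T.root = 1 := by unfold Tree.h; rw [T.lev_root, hh_zero]
    rw [hr]
    rw [not_le, rr_zero] at h0
    have h5 : 2 ≤ 1.8 * T.r u + 0.35 * s := by
      have hk : (0:ℝ) < κ - 8/7 := by linarith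
      have h7 : κ + 8/7 ≤ 1.8 * (κ - 8/7) := by linarith
      have h8 : 1 ≤ 0.35 * (κ - 8/7) := by linarith
      have h9 : (κ + 8/7) * T.r u + s ≤ (κ - 8/7) * (1.8 * T.r u + 0.35 * s) := by
        nlinarith
      exact le_of_mul_le_mul_left (h0.le.trans h9) hk
    have h10 : (4:ℝ) ≤ 2 * ((1.8 * T.r u) ^ 2 + (0.35 * s) ^ 2) := by
      have : 0 ≤ 1.8 * T.r u + 0.35 * s := by positivity
      nlinarith [sq_nonneg (1.8 * T.r u - 0.35 * s)]
    nlinarith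


/-- integral of `g` over the ball of the node -/
def Ig (T : Tree n cT) (κ : ℝ) (g : E n → ENNReal) (x : T.ι) : ℝ :=
  (∫⁻ ζ in Bk T κ x, g ζ ∂(sig n)).toReal

/-- average of `g` -/
def ag (T : Tree n cT) (κ : ℝ) (g : E n → ENNReal) (x : T.ι) : ℝ := Ig T κ g x / T.h x ^ n

theorem Ig_nonneg (T : Tree n cT) (κ : ℝ) (g : E n → ENNReal) (x : T.ι) : 0 ≤ Ig T κ g x :=
  ENNReal.toReal_nonneg

theorem ag_nonneg (T : Tree n cT) (κ : ℝ) (g : E n → ENNReal) (x : T.ι) : 0 ≤ ag T κ g x :=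
  div_nonneg (Ig_nonneg _ _ _ _) (pow_nonneg (T.h_nonneg x) n)

theorem Ig_mono (T : Tree n cT) (κ : ℝ) (g : E n → ENNReal) (hg : ∫⁻ ζ, g ζ ∂(sig n) ≠ ⊤)
    (x y : T.ι) (h : Bk T κ x ⊆ Bk T κ y) : Ig T κ g x ≤ Ig T κ g y := by
  apply ENNReal.toReal_mono
  · exact ne_top_of_le_ne_top hg (lintegral_mono' Measure.restrict_le_self le_rfl)
  · exact lintegral_mono' (Measure.restrict_mono h le_rfl) le_rfl

theorem ofReal_Ig (T : Tree n cT) (κ : ℝ) (g : E n → ENNReal) (hg : ∫⁻ ζ, g ζ ∂(sig n) ≠ ⊤)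
    (x : T.ι) : ENNReal.ofReal (Ig T κ g x) = ∫⁻ ζ in Bk T κ x, g ζ ∂(sig n) := by
  apply ENNReal.ofReal_toReal
  exact ne_top_of_le_ne_top hg (lintegral_mono' Measure.restrict_le_self le_rfl)

theorem ofReal_ag (T : Tree n cT) (κ : ℝ) (g : E n → ENNReal) (hg : ∫⁻ ζ, g ζ ∂(sig n) ≠ ⊤)
    (x : T.ι) : ENNReal.ofReal (ag T κ g x) =
      (∫⁻ ζ in Bk T κ x, g ζ ∂(sig n)) / ENNReal.ofReal (T.h x ^ n) := by
  unfold ag
  rw [ENNReal.ofReal_div_of_pos (pow_pos (T.h_pos x) n), ofReal_Ig T κ g hg]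

open Classical in
/-- maximum of the averages over the ancestors -/
def maxA (T : Tree n cT) (κ : ℝ) (g : E n → ENNReal) (x : T.ι) : ℝ :=
  (Finset.univ.filter (fun u => T.le x u)).sup'
    ⟨x, Finset.mem_filter.2 ⟨Finset.mem_univ _, T.le_refl x⟩⟩ (ag T κ g)

theorem ag_le_maxA (T : Tree n cT) (κ : ℝ) (g : E n → ENNReal) {x u : T.ι} (h : T.le x u) :
    ag T κ g u ≤ maxA T κ g x := by
  classical
  exact Finset.le_sup' (ag T κ g) (Finset.mem_filter.2 ⟨Finset.mem_univ _, h⟩)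

theorem exists_maxA (T : Tree n cT) (κ : ℝ) (g : E n → ENNReal) (x : T.ι) :
    ∃ u, T.le x u ∧ maxA T κ g x = ag T κ g u := by
  classical
  obtain ⟨u, hu, he⟩ := Finset.exists_mem_eq_sup' (s := Finset.univ.filter (fun u => T.le x u))
    ⟨x, Finset.mem_filter.2 ⟨Finset.mem_univ _, T.le_refl x⟩⟩ (ag T κ g)
  exact ⟨u, (Finset.mem_filter.1 hu).2, he⟩

/-- the majorant -/
def cF (T : Tree n cT) (κ Cg m : ℝ) (g : E n → ENNReal) (x : T.ι) : ℝ :=
  max (Real.sqrt m) (Cg * maxA T κ g x)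

/-- volume of the sphere balls -/
theorem sig_S (n : ℕ) (I : Inp n) (K : ℝ) (hK : 0 < K) : ∃ C : ℝ, 0 < C ∧
    ∀ (T : Tree n cT) (u : T.ι), (sig n {ζ | ‖ζ‖ = 1 ∧ rho ζ (T.pt u) ≤ K * T.r u}) ≤
      ENNReal.ofReal (C * T.h u ^ n) := by
  obtain ⟨C, hC, hup⟩ := I.up
  refine ⟨C * (4 * K ^ 2) ^ n, by positivity, ?_⟩
  intro T u
  have hr := T.r_pos u
  have h1 : {ζ : E n | ‖ζ‖ = 1 ∧ rho ζ (T.pt u) ≤ K * T.r u} ⊆
      {ζ | ‖ζ‖ = 1 ∧ d ζ (T.pt u) ≤ (K * T.r u) ^ 2} := by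
    intro ζ hζ
    refine ⟨hζ.1, ?_⟩
    rw [← rho_sq]
    have := rho_nonneg ζ (T.pt u)
    have := hζ.2
    gcongr
  refine (measure_mono h1).trans ((hup (T.pt u) _ (T.norm_pt_le u) (by positivity)).trans ?_)
  apply ENNReal.ofReal_le_ofReal
  have h2 : (K * T.r u) ^ 2 = (4 * K ^ 2) * T.h u := by
    rw [mul_pow, show T.r u ^ 2 = 4 * T.h u from rr_sq _]; ring
  rw [h2, mul_pow (4 * K ^ 2), mul_assoc]

theorem reg_cF (T : Tree n cT) (κ Cg m : ℝ) (hκ : 4 ≤ κ) (hCg : 0 < Cg)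
    (g : E n → ENNReal) (hg : ∫⁻ ζ, g ζ ∂(sig n) ≠ ⊤) (x y : T.ι) :
    cF T κ Cg m g x ≤ 500 ^ n * ((T.h x + T.h y + d (T.pt x) (T.pt y)) / T.h x) ^ n *
      cF T κ Cg m g y := by
  set Q := (T.h x + T.h y + d (T.pt x) (T.pt y)) / T.h x with hQ
  have hx := T.h_pos x
  have hy := T.h_pos y
  have hdn := d_nonneg (T.pt x) (T.pt y)
  have hQ1 : 1 ≤ Q := by rw [hQ, le_div_iff₀ hx]; linarith
  have hfac : (1:ℝ) ≤ 500 ^ n * Q ^ n := by
    rw [← mul_pow]; apply one_le_pow₀; linarith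
  have hcy : 0 ≤ cF T κ Cg m g y := (Real.sqrt_nonneg m).trans (le_max_left _ _)
  apply max_le
  · calc Real.sqrt m ≤ cF T κ Cg m g y := le_max_left _ _
      _ ≤ _ := le_mul_of_one_le_left hcy hfac
  · obtain ⟨u, hu, hue⟩ := exists_maxA T κ g x
    obtain ⟨y', hy', hsub, hh'⟩ := transfer T κ hκ x y u hu
    rw [hue]
    have hup := T.h_pos u
    have h1 : ag T κ g u ≤ (500 * Q) ^ n * ag T κ g y' := by
      unfold ag
      have h2 := Ig_mono T κ g hg u y' hsub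
      have h3 : T.h y' ^ n ≤ (500 * Q * T.h u) ^ n :=
        pow_le_pow_left₀ (T.h_nonneg y') hh' n
      rw [mul_pow] at h3
      have h4 := T.h_pos y'
      rw [div_le_iff₀ (pow_pos hup n), mul_comm ((500 * Q) ^ n), div_mul_eq_mul_div,
        div_mul_eq_mul_div, le_div_iff₀ (pow_pos h4 n)]
      have h5 := Ig_nonneg T κ g u
      have h6 := Ig_nonneg T κ g y'
      calc Ig T κ g u * T.h y' ^ n ≤ Ig T κ g y' * ((500 * Q) ^ n * T.h u ^ n) := by
            apply mul_le_mul h2 h3 (by positivity) h6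
        _ = _ := by ring
    have h7 : Cg * ag T κ g y' ≤ cF T κ Cg m g y :=
      (mul_le_mul_of_nonneg_left (ag_le_maxA T κ g hy') hCg.le).trans (le_max_right _ _)
    calc Cg * ag T κ g u ≤ Cg * ((500 * Q) ^ n * ag T κ g y') := by gcongr
      _ = (500 * Q) ^ n * (Cg * ag T κ g y') := by ring
      _ ≤ (500 * Q) ^ n * cF T κ Cg m g y := by
          apply mul_le_mul_of_nonneg_left h7; positivity
      _ = _ := by rw [mul_pow]

theorem pack_cF (n : ℕ) (I : Inp n) (cT : ℝ) (hc : 0 < cT) (κ : ℝ) (hκ : 4 ≤ κ) :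
    ∃ C : ℝ, 0 < C ∧ ∀ (Cg : ℝ), 0 < Cg →
    ∀ (T : Tree n cT) (m : ℝ), 0 < m → ∀ (g : E n → ENNReal),
      ∫⁻ ζ, g ζ ∂(sig n) ≠ ⊤ → ∀ (x₀ : T.ι) (Λ : ℝ) (V : Finset T.ι), 1 ≤ Λ →
    (∀ v ∈ V, T.le v x₀ ∧ Λ * cF T κ Cg m g x₀ < cF T κ Cg m g v) →
    (∀ v ∈ V, ∀ v' ∈ V, T.le v v' → v = v') →
    ∑ v ∈ V, T.vol v ≤ C / Λ * T.vol x₀ := by
  classical
  obtain ⟨C2, hC2, hS⟩ := sig_S (cT := cT) n I (2 * κ + 5) (by linarith)
  refine ⟨C2 / cT, by positivity, ?_⟩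
  intro Cg hCg T m hm g hgfin x₀ Λ V hΛ hV hanti
  set c := cF T κ Cg m g with hcdef
  have hsq : 0 < Real.sqrt m := Real.sqrt_pos.2 hm
  have hc0 : 0 < c x₀ := lt_of_lt_of_le hsq (le_max_left _ _)
  have hex : ∀ v ∈ V, ∃ u, T.le v u ∧ c v = Cg * ag T κ g u ∧ T.le u x₀ ∧ u ≠ x₀ := by
    intro v hv
    obtain ⟨u, hu, hue⟩ := exists_maxA T κ g v
    have h1 : Real.sqrt m < c v := by
      have h2 := (hV v hv).2
      have h3 : Real.sqrt m ≤ c x₀ := le_max_left _ _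
      nlinarith
    have h2 : c v = Cg * ag T κ g u := by
      rw [hcdef]
      unfold cF
      rw [hue]
      apply max_eq_right
      by_contra hcon
      rw [not_le] at hcon
      have : c v = Real.sqrt m := by
        rw [hcdef]; unfold cF; rw [hue]; exact max_eq_left hcon.le
      linarith
    have h3 : ¬ T.le x₀ u := by
      intro hle
      have h4 : Cg * ag T κ g u ≤ c x₀ :=
        (mul_le_mul_of_nonneg_left (ag_le_maxA T κ g hle) hCg.le).trans (le_max_right _ _)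
      have h5 := (hV v hv).2
      nlinarith
    have h4 : T.lev x₀ ≤ T.lev u := by
      by_contra hcon
      exact h3 (T.le_of_le_of_le (hV v hv).1 hu (by omega))
    refine ⟨u, hu, h2, T.le_of_le_of_le hu (hV v hv).1 h4, ?_⟩
    rintro rfl
    exact h3 (T.le_refl _)
  choose! u hu1 hu2 hu3 hu4 using hex
  set t := Λ * c x₀ / Cg with ht
  have htpos : 0 < t := by positivity
  have hweak := HLC.weak (sig n) V (fun v => Bk T κ (u v)) (fun v _ => meas_Bk T κ (u v))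
    (fun v => T.r (u v)) (fun v => ENNReal.ofReal (T.h (u v) ^ n))
    (fun v => ENNReal.ofReal (T.vol v)) (ENNReal.ofReal C2)
    (fun v _ => by
      have := pow_pos (T.h_pos (u v)) n
      simpa using this) (fun v _ => ENNReal.ofReal_ne_top) (by
      intro v hv W hW hWm
      rw [← ENNReal.ofReal_mul hC2.le, ← ENNReal.ofReal_sum_of_nonneg (fun v _ => T.vol_nonneg v)]
      apply ENNReal.ofReal_le_ofReal
      have h1 : ∑ v' ∈ W, T.vol v' ≤
          (sig n {ζ | ‖ζ‖ = 1 ∧ rho ζ (T.pt (u v)) ≤ (2 * κ + 5) * T.r (u v)}).toReal := by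
        apply T.sum_vol_le
        · intro a ha b hb hab
          exact hanti a (hW ha) b (hW hb) hab
        · intro v' hv' ζ hζ
          obtain ⟨hr, ξ, hξ1, hξ2⟩ := hWm v' hv'
          have hn1 : ‖ζ‖ = 1 := by
            have := T.cell_sub v' hζ
            simpa [Sph] using this
          refine ⟨hn1, ?_⟩
          have e1 : rho ζ (T.pt v') ≤ 3 * T.r v' := T.cell_near v' ζ hζ
          have e2 := T.rho_le_of_le (hu1 v' (hW hv'))
          have e3 : T.r v' ≤ T.r (u v') := rr_anti (T.lev_le_of_le (hu1 v' (hW hv')))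
          have e4 := rho_tri ζ (T.pt v') (T.pt (u v)) hn1.le (T.norm_pt_le _) (T.norm_pt_le _)
          have e5 := rho_tri (T.pt v') (T.pt (u v')) (T.pt (u v)) (T.norm_pt_le _)
            (T.norm_pt_le _) (T.norm_pt_le _)
          have e6 := rho_tri (T.pt (u v')) ξ (T.pt (u v)) (T.norm_pt_le _) hξ1.1.le
            (T.norm_pt_le _)
          have e7 : rho (T.pt (u v')) ξ ≤ κ * T.r (u v') := by rw [rho_comm]; exact hξ1.2
          have e8 : rho ξ (T.pt (u v)) ≤ κ * T.r (u v) := hξ2.2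
          have e9 : κ * T.r (u v') ≤ κ * T.r (u v) := by
            apply mul_le_mul_of_nonneg_left hr; linarith
          have := T.r_pos (u v')
          linarith
      refine h1.trans ?_
      apply ENNReal.toReal_le_of_le_ofReal
      · have := pow_pos (T.h_pos (u v)) n; positivity
      · exact hS T (u v)) g (ENNReal.ofReal t) V (Finset.Subset.refl _) (by
      intro v hv
      rw [← ofReal_ag T κ g hgfin, ENNReal.ofReal_lt_ofReal_iff']
      have h1 := (hV v hv).2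
      rw [hu2 v hv] at h1
      have h2 : t < ag T κ g (u v) := by
        rw [ht, div_lt_iff₀ hCg]; linarith
      exact ⟨h2, lt_trans htpos h2⟩)
  have h1 : ∫⁻ ζ in ⋃ v ∈ V, Bk T κ (u v), g ζ ∂(sig n) ≤ ENNReal.ofReal (Ig T κ g x₀) := by
    rw [ofReal_Ig T κ g hgfin]
    exact lintegral_mono' (Measure.restrict_mono
      (iUnion₂_subset (fun v hv => Bk_mono T κ hκ (hu3 v hv) (hu4 v hv))) le_rfl) le_rfl
  have h2 : (∑ v ∈ V, T.vol v) * t ≤ C2 * Ig T κ g x₀ := by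
    have h3 := hweak.trans (mul_le_mul_right h1 _)
    rw [← ENNReal.ofReal_mul hC2.le, ← ENNReal.ofReal_sum_of_nonneg (fun v _ => T.vol_nonneg v),
      ← ENNReal.ofReal_mul (Finset.sum_nonneg (fun v _ => T.vol_nonneg v))] at h3
    exact (ENNReal.ofReal_le_ofReal_iff (mul_nonneg hC2.le (Ig_nonneg _ _ _ _))).1 h3
  have hx0 := pow_pos (T.h_pos x₀) n
  have h3 : Cg * ag T κ g x₀ ≤ c x₀ :=
    (mul_le_mul_of_nonneg_left (ag_le_maxA T κ g (T.le_refl x₀)) hCg.le).trans (le_max_right _ _)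
  have h4 : Cg * Ig T κ g x₀ ≤ c x₀ * T.h x₀ ^ n := by
    have : Ig T κ g x₀ = ag T κ g x₀ * T.h x₀ ^ n := by
      unfold ag; rw [div_mul_cancel₀ _ hx0.ne']
    rw [this]
    nlinarith
  have h5 : (∑ v ∈ V, T.vol v) * (Λ * c x₀) ≤ C2 * T.h x₀ ^ n * c x₀ := by
    have e : (∑ v ∈ V, T.vol v) * (Λ * c x₀) = Cg * ((∑ v ∈ V, T.vol v) * t) := by
      rw [ht]; field_simp
    rw [e]
    calc Cg * ((∑ v ∈ V, T.vol v) * t) ≤ Cg * (C2 * Ig T κ g x₀) := by gcongr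
      _ = C2 * (Cg * Ig T κ g x₀) := by ring
      _ ≤ C2 * (c x₀ * T.h x₀ ^ n) := by gcongr
      _ = _ := by ring
  have h6 : (∑ v ∈ V, T.vol v) * Λ ≤ C2 * T.h x₀ ^ n := by
    have : (∑ v ∈ V, T.vol v) * Λ * c x₀ ≤ C2 * T.h x₀ ^ n * c x₀ := by linarith
    exact le_of_mul_le_mul_right this hc0
  have h7 := T.vol_ge x₀ hc
  have hΛ0 : 0 < Λ := by linarith
  have e1 : C2 / cT / Λ * T.vol x₀ = (C2 / cT * T.vol x₀) / Λ := by ring
  rw [e1, le_div_iff₀ hΛ0]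
  calc (∑ v ∈ V, T.vol v) * Λ ≤ C2 * T.h x₀ ^ n := h6
    _ = C2 / cT * (cT * T.h x₀ ^ n) := by field_simp
    _ ≤ C2 / cT * T.vol x₀ := by gcongr


theorem carl_cF (n : ℕ) (I : Inp n) (cT : ℝ) (κ : ℝ) (hκ : 4 ≤ κ) :
    ∃ C : ℝ, 0 < C ∧ ∀ (Cg C1 : ℝ), 0 < Cg → 0 < C1 →
    ∀ (T : Tree n cT) (m : ℝ), 0 < m → ∀ (g : E n → ENNReal), Measurable g →
      ∫⁻ ζ, g ζ ∂(sig n) ≠ ⊤ → ∫⁻ ζ, g ζ ^ (2:ℕ) ∂(sig n) ≤ ENNReal.ofReal (C1 * m) →
    ∀ (μ : T.ι → ℝ) (K₁ : ℝ), (∀ v, 0 ≤ μ v) → 0 ≤ K₁ →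
    (∀ (x : T.ι) (V : Finset T.ι), (∀ v ∈ V, T.le v x) → ∑ v ∈ V, μ v ≤ K₁ * T.vol x) →
    ∑ v, μ v * cF T κ Cg m g v ^ 2 ≤ C * (1 + Cg ^ 2 * C1) * K₁ * m := by
  classical
  obtain ⟨C2, hC2, hS⟩ := sig_S (cT := cT) n I (2 * κ + 5) (by linarith)
  obtain ⟨C3, hC3, hS3⟩ := sig_S (cT := cT) n I κ (by linarith)
  set V0 : ℝ := (sig n univ).toReal with hV0
  have hV00 : 0 ≤ V0 := ENNReal.toReal_nonneg
  refine ⟨V0 + 8 * C3 * C2 + 1, by positivity, ?_⟩
  intro Cg C1 hCg hC1 T m hm g hgm hgfin hg2 μ K₁ hμ hK hcarl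
  set c := cF T κ Cg m g with hcdef
  choose u hu1 hu2 using exists_maxA T κ g
  have hstrong := hlc_strong (sig n) (fun v => Bk T κ (u v)) (fun v => meas_Bk T κ (u v))
    (fun v => T.h (u v) ^ n) (fun v => T.r (u v)) (fun v => pow_pos (T.h_pos (u v)) n)
    (fun v => ENNReal.ofReal (μ v)) (ENNReal.ofReal C3) (ENNReal.ofReal (C2 * K₁)) (by
      intro v
      rw [← ENNReal.ofReal_mul hC3.le]
      exact hS3 T (u v)) (by
      intro v
      rw [← Finset.sum_filter, ← ENNReal.ofReal_mul (by positivity),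
        ← ENNReal.ofReal_sum_of_nonneg (fun v _ => hμ v)]
      apply ENNReal.ofReal_le_ofReal
      set W := Finset.univ.filter (fun v' => (Bk T κ (u v') ∩ Bk T κ (u v)).Nonempty ∧
        T.r (u v') ≤ T.r (u v)) with hW
      set i := T.lev (u v) with hi
      have hlev : ∀ v' ∈ W, i ≤ T.lev (u v') := by
        intro v' hv'
        have h1 := (Finset.mem_filter.1 hv').2.2
        by_contra hcon
        rw [not_le] at hcon
        have h2 : T.r (u v) ≤ T.r (u v') / 8 := by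
          have := rr_anti (show T.lev (u v') + 1 ≤ T.lev (u v) from hcon)
          rw [rr_succ] at this
          exact this
        have := T.r_pos (u v')
        linarith
      set X := W.image (fun v' => T.anc i v') with hX
      have h1 : ∑ v' ∈ W, μ v' = ∑ x ∈ X, ∑ v' ∈ W.filter (fun v' => T.anc i v' = x), μ v' :=
        (Finset.sum_fiberwise_of_maps_to (fun v' hv' => Finset.mem_image_of_mem _ hv') _).symm
      have h2 : ∑ x ∈ X, ∑ v' ∈ W.filter (fun v' => T.anc i v' = x), μ v' ≤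
          ∑ x ∈ X, K₁ * T.vol x := by
        apply Finset.sum_le_sum
        intro x _
        apply hcarl
        intro v' hv'
        rw [← (Finset.mem_filter.1 hv').2]
        exact T.le_anc _ _
      have hlevX : ∀ x ∈ X, T.lev x = i := by
        intro x hx
        obtain ⟨v', hv', rfl⟩ := Finset.mem_image.1 hx
        exact T.lev_anc ((hlev v' hv').trans (T.lev_le_of_le (hu1 v')))
      have h3 : ∑ x ∈ X, T.vol x ≤
          (sig n {ζ | ‖ζ‖ = 1 ∧ rho ζ (T.pt (u v)) ≤ (2 * κ + 5) * T.r (u v)}).toReal := by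
        apply T.sum_vol_le
        · intro a ha b hb hab
          exact T.le_of_lev_eq hab (by rw [hlevX a ha, hlevX b hb])
        · intro x hx ζ hζ
          have hxl := hlevX x hx
          obtain ⟨v', hv', rfl⟩ := Finset.mem_image.1 hx
          have hn1 : ‖ζ‖ = 1 := by
            have := T.cell_sub _ hζ
            simpa [Sph] using this
          obtain ⟨⟨ξ, hξ1, hξ2⟩, hr⟩ := (Finset.mem_filter.1 hv').2
          refine ⟨hn1, ?_⟩
          have hle : T.le (u v') (T.anc i v') := by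
            apply T.le_of_le_of_le (hu1 v') (T.le_anc _ _)
            rw [hxl]; exact hlev v' hv'
          have hrx : T.r (T.anc i v') = T.r (u v) := by unfold Tree.r; rw [hxl]
          have e1 : rho ζ (T.pt (T.anc i v')) ≤ 3 * T.r (T.anc i v') := T.cell_near _ ζ hζ
          have e2 := T.rho_le_of_le hle
          rw [rho_comm] at e2
          have e4 := rho_tri ζ (T.pt (T.anc i v')) (T.pt (u v)) hn1.le (T.norm_pt_le _)
            (T.norm_pt_le _)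
          have e5 := rho_tri (T.pt (T.anc i v')) (T.pt (u v')) (T.pt (u v)) (T.norm_pt_le _)
            (T.norm_pt_le _) (T.norm_pt_le _)
          have e6 := rho_tri (T.pt (u v')) ξ (T.pt (u v)) (T.norm_pt_le _) hξ1.1.le
            (T.norm_pt_le _)
          have e7 : rho (T.pt (u v')) ξ ≤ κ * T.r (u v') := by rw [rho_comm]; exact hξ1.2
          have e8 : rho ξ (T.pt (u v)) ≤ κ * T.r (u v) := hξ2.2
          have e9 : κ * T.r (u v') ≤ κ * T.r (u v) := by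
            apply mul_le_mul_of_nonneg_left hr; linarith
          have := T.r_pos (u v)
          rw [hrx] at e1 e2
          linarith
      have h4 : (sig n {ζ | ‖ζ‖ = 1 ∧ rho ζ (T.pt (u v)) ≤ (2 * κ + 5) * T.r (u v)}).toReal ≤
          C2 * T.h (u v) ^ n := by
        apply ENNReal.toReal_le_of_le_ofReal
        · have := pow_pos (T.h_pos (u v)) n; positivity
        · exact hS T (u v)
      calc ∑ v' ∈ W, μ v' ≤ ∑ x ∈ X, K₁ * T.vol x := h1.le.trans h2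
        _ = K₁ * ∑ x ∈ X, T.vol x := by rw [Finset.mul_sum]
        _ ≤ K₁ * (C2 * T.h (u v) ^ n) := by
            apply mul_le_mul_of_nonneg_left (h3.trans h4) hK
        _ = C2 * K₁ * T.h (u v) ^ n := by ring) g hgm
  have h1 : ∑ v, μ v * (ag T κ g (u v)) ^ 2 ≤ 8 * C3 * (C2 * K₁) * (C1 * m) := by
    have h2 : ENNReal.ofReal (∑ v, μ v * (ag T κ g (u v)) ^ 2) ≤
        ENNReal.ofReal (8 * C3 * (C2 * K₁) * (C1 * m)) := by
      rw [ENNReal.ofReal_sum_of_nonneg (fun v _ => mul_nonneg (hμ v) (sq_nonneg _))]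
      calc ∑ v, ENNReal.ofReal (μ v * (ag T κ g (u v)) ^ 2)
          = ∑ v, ENNReal.ofReal (μ v) * ((∫⁻ x in Bk T κ (u v), g x ∂(sig n)) /
              ENNReal.ofReal (T.h (u v) ^ n)) ^ (2:ℕ) := by
            apply Finset.sum_congr rfl
            intro v _
            rw [ENNReal.ofReal_mul (hμ v), ENNReal.ofReal_pow (ag_nonneg _ _ _ _),
              ofReal_ag T κ g hgfin]
        _ ≤ _ := hstrong
        _ ≤ 8 * ENNReal.ofReal C3 * ENNReal.ofReal (C2 * K₁) * ENNReal.ofReal (C1 * m) :=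
            mul_le_mul_right hg2 _
        _ = ENNReal.ofReal (8 * C3 * (C2 * K₁) * (C1 * m)) := by
            have e8 : (8:ENNReal) = ENNReal.ofReal 8 := by simp
            rw [e8, ← ENNReal.ofReal_mul (by norm_num), ← ENNReal.ofReal_mul (by positivity),
              ← ENNReal.ofReal_mul (by positivity)]
    exact (ENNReal.ofReal_le_ofReal_iff (by positivity)).1 h2
  have h2 : ∑ v, μ v ≤ K₁ * V0 := by
    refine (hcarl T.root Finset.univ (fun v _ => T.le_root v)).trans ?_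
    apply mul_le_mul_of_nonneg_left _ hK
    exact ENNReal.toReal_mono (measure_ne_top _ _) (measure_mono (subset_univ _))
  have h3 : ∀ v, c v ^ 2 ≤ m + Cg ^ 2 * (ag T κ g (u v)) ^ 2 := by
    intro v
    have h4 : c v = max (Real.sqrt m) (Cg * ag T κ g (u v)) := by
      rw [hcdef]; unfold cF; rw [hu2]
    rw [h4]
    rcases le_total (Real.sqrt m) (Cg * ag T κ g (u v)) with h | h
    · rw [max_eq_right h, mul_pow]; linarith
    · rw [max_eq_left h, Real.sq_sqrt hm.le]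
      have : 0 ≤ Cg ^ 2 * (ag T κ g (u v)) ^ 2 := by positivity
      linarith
  calc ∑ v, μ v * c v ^ 2 ≤ ∑ v, μ v * (m + Cg ^ 2 * (ag T κ g (u v)) ^ 2) := by
        apply Finset.sum_le_sum
        intro v _
        exact mul_le_mul_of_nonneg_left (h3 v) (hμ v)
    _ = m * ∑ v, μ v + Cg ^ 2 * ∑ v, μ v * (ag T κ g (u v)) ^ 2 := by
        rw [Finset.mul_sum, Finset.mul_sum, ← Finset.sum_add_distrib]
        apply Finset.sum_congr rfl
        intro v _; ring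
    _ ≤ m * (K₁ * V0) + Cg ^ 2 * (8 * C3 * (C2 * K₁) * (C1 * m)) := by gcongr
    _ ≤ _ := by
        have e1 : 0 ≤ K₁ * m := by positivity
        have e2 : 0 ≤ Cg ^ 2 * C1 := by positivity
        have e3 : (V0 + 8 * C3 * C2 + 1) * (1 + Cg ^ 2 * C1) * K₁ * m -
          (m * (K₁ * V0) + Cg ^ 2 * (8 * C3 * (C2 * K₁) * (C1 * m))) =
          (K₁ * m) * (8 * C3 * C2 + 1 + (Cg ^ 2 * C1) * (V0 + 1)) := by ring
        have e4 : 0 ≤ (K₁ * m) * (8 * C3 * C2 + 1 + (Cg ^ 2 * C1) * (V0 + 1)) := by positivity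
        linarith

theorem isC_cF (n : ℕ) (I : Inp n) (cT : ℝ) (hc : 0 < cT) (κ : ℝ) (hκ : 4 ≤ κ) (Cg C1 : ℝ)
    (hCg : 0 < Cg) (hC1 : 0 < C1) :
    ∃ C : ℝ, 0 < C ∧ ∀ (T : Tree n cT) (m : ℝ), 0 < m → ∀ (g : E n → ENNReal), Measurable g →
      ∫⁻ ζ, g ζ ∂(sig n) ≠ ⊤ → ∫⁻ ζ, g ζ ^ (2:ℕ) ∂(sig n) ≤ ENNReal.ofReal (C1 * m) →
      IsC T C m (cF T κ Cg m g) := by
  obtain ⟨Cp, hCp, hp⟩ := pack_cF n I cT hc κ hκ
  obtain ⟨Cc, hCc, hcl⟩ := carl_cF n I cT κ hκ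
  refine ⟨500 ^ n + Cp + Cc * (1 + Cg ^ 2 * C1), by positivity, ?_⟩
  intro T m hm g hgm hgfin hg2
  have hcpos : ∀ x, 0 < cF T κ Cg m g x := fun x =>
    lt_of_lt_of_le (Real.sqrt_pos.2 hm) (le_max_left _ _)
  have hD : ∀ x y, 0 ≤ (T.h x + T.h y + d (T.pt x) (T.pt y)) / T.h x := by
    intro x y
    have := T.h_pos x; have := T.h_pos y; have := d_nonneg (T.pt x) (T.pt y)
    positivity
  refine ⟨hm, fun x => le_max_left _ _, ?_, ?_, ?_, ?_⟩
  · intro x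
    apply max_le (le_max_left _ _)
    obtain ⟨u, hu, hue⟩ := exists_maxA T κ g (T.par x)
    rw [hue]
    exact (mul_le_mul_of_nonneg_left (ag_le_maxA T κ g (T.le_trans (T.le_par x) hu)) hCg.le).trans
      (le_max_right _ _)
  · intro x y
    refine (reg_cF T κ Cg m hκ hCg g hgfin x y).trans ?_
    have := hD x y
    have := (hcpos y).le
    gcongr
    have : 0 ≤ Cc * (1 + Cg ^ 2 * C1) := by positivity
    linarith
  · intro x₀ Λ V hΛ hV hanti
    refine (hp Cg hCg T m hm g hgfin x₀ Λ V hΛ hV hanti).trans ?_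
    have := T.vol_nonneg x₀
    have : 0 ≤ Cc * (1 + Cg ^ 2 * C1) := by positivity
    have : (0:ℝ) ≤ 500 ^ n := by positivity
    gcongr
    linarith
  · intro μ K₁ hμ hK h
    refine (hcl Cg C1 hCg hC1 T m hm g hgm hgfin hg2 μ K₁ hμ hK h).trans ?_
    have : (0:ℝ) ≤ 500 ^ n := by positivity
    gcongr
    linarith


theorem smul_mem_B {ζ : E n} (hζ : ‖ζ‖ = 1) {r : ℝ} (hr : r ∈ Ico (0:ℝ) 1) : r • ζ ∈ B n := by
  rw [mem_B, norm_smul, hζ, mul_one, Real.norm_of_nonneg hr.1]; exact hr.2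

theorem norm_of_mem_Sph {ζ : E n} (hζ : ζ ∈ Sph n) : ‖ζ‖ = 1 := by simpa [Sph] using hζ

theorem isOpen_B (n : ℕ) : IsOpen (B n) := Metric.isOpen_ball

/-- on the sphere the radial maximal function is a supremum over rational radii -/
theorem rmax_eq_rat (h : E n → ℂ) (hh : ContinuousOn h (B n)) (ζ : E n) (hζ : ‖ζ‖ = 1) :
    rmax h ζ = ⨆ p : {p : ℚ // 0 ≤ p ∧ p < 1}, ‖h (((p : ℚ) : ℝ) • ζ)‖ₑ := by
  apply le_antisymm
  · unfold rmax
    refine iSup₂_le (fun r hr => ?_)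
    apply le_of_forall_lt
    intro a ha
    -- continuity in r
    have hcont : ContinuousWithinAt (fun s : ℝ => ‖h (s • ζ)‖ₑ) (Ico 0 1) r := by
      have h1 : ContinuousOn (fun s : ℝ => ‖h (s • ζ)‖ₑ) (Ico 0 1) := by
        apply continuous_enorm.comp_continuousOn
        apply hh.comp (by fun_prop)
        intro s hs
        exact smul_mem_B hζ hs
      exact h1 r hr
    have hev : ∀ᶠ s in nhdsWithin r (Ico 0 1), a < ‖h (s • ζ)‖ₑ :=
      hcont.eventually (lt_mem_nhds ha)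
    obtain ⟨ε, hε, hball⟩ := Metric.mem_nhdsWithin_iff.1 hev
    obtain ⟨p, hp1, hp2⟩ := exists_rat_btwn (show r < min 1 (r + ε) from lt_min hr.2 (by linarith))
    have hp0 : (0:ℝ) ≤ p := hr.1.trans hp1.le
    have hp1' : (p:ℝ) < 1 := lt_of_lt_of_le hp2 (min_le_left _ _)
    have hmem : (p:ℝ) ∈ Metric.ball r ε ∩ Ico 0 1 := by
      refine ⟨?_, hp0, hp1'⟩
      rw [Metric.mem_ball, Real.dist_eq, abs_of_pos (by linarith)]
      have := lt_of_lt_of_le hp2 (min_le_right _ _)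
      linarith
    have h2 : a < ‖h ((p:ℝ) • ζ)‖ₑ := hball hmem
    exact lt_of_lt_of_le h2 (le_iSup (fun p : {p : ℚ // 0 ≤ p ∧ p < 1} =>
      ‖h (((p : ℚ) : ℝ) • ζ)‖ₑ) ⟨p, by exact_mod_cast hp0, by exact_mod_cast hp1'⟩)
  · refine iSup_le (fun p => ?_)
    unfold rmax
    have h1 : ((p : ℚ) : ℝ) ∈ Ico (0:ℝ) 1 :=
      ⟨by exact_mod_cast p.2.1, by exact_mod_cast p.2.2⟩
    exact le_iSup₂ (f := fun (r : ℝ) (_ : r ∈ Ico (0:ℝ) 1) => ‖h (r • ζ)‖ₑ) _ h1

theorem measurable_indicator_of_continuousOn {s : Set (E n)} (hs : MeasurableSet s)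
    (φ : E n → ENNReal) (hφ : ContinuousOn φ s) : Measurable (s.indicator φ) := by
  classical
  have h1 : Measurable (s.piecewise φ (fun _ => 0)) :=
    ContinuousOn.measurable_piecewise hφ continuousOn_const hs
  have h2 : s.piecewise φ (fun _ => 0) = s.indicator φ := by
    ext x
    by_cases hx : x ∈ s <;> simp [hx]
  rwa [h2] at h1

theorem measurableSet_Sph (n : ℕ) : MeasurableSet (Sph n) := Metric.isClosed_sphere.measurableSet

theorem measurable_rmax (h : E n → ℂ) (hh : ContinuousOn h (B n)) :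
    Measurable ((Sph n).indicator (rmax h)) := by
  have h1 : (Sph n).indicator (rmax h) = fun ζ => ⨆ p : {p : ℚ // 0 ≤ p ∧ p < 1},
      (Sph n).indicator (fun ζ => ‖h (((p : ℚ) : ℝ) • ζ)‖ₑ) ζ := by
    ext ζ
    by_cases hζ : ζ ∈ Sph n
    · simp only [indicator_of_mem hζ]
      exact rmax_eq_rat h hh ζ (norm_of_mem_Sph hζ)
    · simp only [indicator_of_notMem hζ]
      simp
  rw [h1]
  apply Measurable.iSup
  intro p
  apply measurable_indicator_of_continuousOn (measurableSet_Sph n)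
  apply continuous_enorm.comp_continuousOn
  apply hh.comp (by fun_prop)
  intro ζ hζ
  exact smul_mem_B (norm_of_mem_Sph hζ) ⟨by exact_mod_cast p.2.1, by exact_mod_cast p.2.2⟩

/-- the function `g = (rmax f)^{1/2}` on the sphere -/
def gf (f : E n → ℂ) (ζ : E n) : ENNReal := ((Sph n).indicator (rmax f) ζ) ^ (1/2 : ℝ)

theorem measurable_gf (f : E n → ℂ) (hf : ContinuousOn f (B n)) : Measurable (gf f) :=
  (measurable_rmax f hf).pow_const _

theorem gf_sq (f : E n → ℂ) (ζ : E n) : gf f ζ ^ (2:ℕ) = (Sph n).indicator (rmax f) ζ := by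
  unfold gf
  rw [← ENNReal.rpow_natCast, ← ENNReal.rpow_mul]
  norm_num

theorem lintegral_gf_sq (f : E n → ℂ) : ∫⁻ ζ, gf f ζ ^ (2:ℕ) ∂(sig n) ≤ ∫⁻ ζ, rmax f ζ ∂(sig n) := by
  apply lintegral_mono
  intro ζ
  change gf f ζ ^ (2:ℕ) ≤ rmax f ζ
  rw [gf_sq]
  exact indicator_le_self _ _ _

theorem lintegral_gf_ne_top (f : E n → ℂ) (h : ∫⁻ ζ, rmax f ζ ∂(sig n) ≠ ⊤) :
    ∫⁻ ζ, gf f ζ ∂(sig n) ≠ ⊤ := by
  have h1 : ∫⁻ ζ, gf f ζ ∂(sig n) ≤ ∫⁻ ζ, (1 + gf f ζ ^ (2:ℕ)) ∂(sig n) := by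
    apply lintegral_mono
    intro x
    change gf f x ≤ 1 + gf f x ^ (2:ℕ)
    by_cases hx : gf f x ≤ 1
    · exact hx.trans le_self_add
    · have hx' : 1 ≤ gf f x := (not_le.1 hx).le
      calc gf f x ≤ gf f x * gf f x := le_mul_of_one_le_right' hx'
        _ = gf f x ^ 2 := by ring
        _ ≤ 1 + gf f x ^ 2 := le_add_self
  rw [lintegral_add_left measurable_const] at h1
  refine ne_top_of_le_ne_top ?_ h1
  apply ENNReal.add_ne_top.2
  constructor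
  · rw [lintegral_const, one_mul]; exact measure_ne_top _ _
  · exact ne_top_of_le_ne_top h (lintegral_gf_sq f)

/-- restricting to the sphere -/
theorem setLIntegral_sph_le (I : Inp n) (f : E n → ℂ) (S S' : Set (E n))
    (h : ∀ ζ ∈ S, ‖ζ‖ = 1 → ζ ∈ S') :
    ∫⁻ ζ in S, (rmax f ζ) ^ (1/2:ℝ) ∂(sig n) ≤ ∫⁻ ζ in S', gf f ζ ∂(sig n) := by
  have h1 : (sig n).restrict S = (sig n).restrict (S ∩ Sph n) := by
    apply Measure.restrict_congr_set
    have h2 : ∀ᵐ ζ ∂(sig n), ζ ∈ Sph n := by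
      rw [ae_iff]; exact I.sph
    filter_upwards [h2] with ζ hζ
    apply propext
    exact ⟨fun hS => ⟨hS, hζ⟩, fun hS => hS.1⟩
  rw [h1]
  calc ∫⁻ ζ in S ∩ Sph n, (rmax f ζ) ^ (1/2:ℝ) ∂(sig n)
      ≤ ∫⁻ ζ in S ∩ Sph n, gf f ζ ∂(sig n) := by
        -- on `S ∩ Sph` the integrands agree
        have h3 : ∀ᵐ ζ ∂((sig n).restrict (S ∩ Sph n)), ζ ∈ Sph n := by
          have h2 : ∀ᵐ ζ ∂(sig n), ζ ∈ Sph n := by
            rw [ae_iff]; exact I.sph
          exact ae_restrict_of_ae h2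
        apply lintegral_mono_ae
        filter_upwards [h3] with ζ hζ
        unfold gf
        rw [indicator_of_mem hζ]
    _ ≤ ∫⁻ ζ in S', gf f ζ ∂(sig n) := by
        refine lintegral_mono' (Measure.restrict_mono ?_ le_rfl) le_rfl
        intro ζ hζ
        exact h ζ hζ.1 (norm_of_mem_Sph hζ.2)

/-- basic pointwise estimate -/
theorem point_est (n : ℕ) (I : Inp n) (cT : ℝ) : ∃ Cs : ℝ, 0 < Cs ∧
    ∀ (T : Tree n cT) (f : E n → ℂ) (m : ℝ), 0 < m → DifferentiableOn ℂ f (B n) →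
    ∫⁻ ζ, rmax f ζ ∂(sig n) ≠ ⊤ → ∀ (w : E n) (x : T.ι), w ∈ B n →
    rho w (T.pt x) ≤ 5/2 * T.r x → T.h x / 64 ≤ dl w → dl w ≤ T.h x →
    ‖f w‖ ≤ cF T (Cs + 5) (Cs * 64 ^ n) m (gf f) x ^ 2 := by
  obtain ⟨Cs, hCs, hsub⟩ := I.sub
  refine ⟨Cs, hCs, ?_⟩
  intro T f m hm hf hfin w x hw hwx hlow hup
  have hgfin := lintegral_gf_ne_top f hfin
  have h1 := hsub f hf w hw
  have hhx := T.h_pos x
  have hdlpos := dl_pos hw
  have h2 : ∫⁻ ζ in {ζ | rho ζ w ≤ Cs * Real.sqrt (dl w)}, (rmax f ζ) ^ (1/2:ℝ) ∂(sig n) ≤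
      ENNReal.ofReal (Ig T (Cs + 5) (gf f) x) := by
    rw [ofReal_Ig T _ _ hgfin]
    apply setLIntegral_sph_le I
    intro ζ hζ hn1
    refine ⟨hn1, ?_⟩
    have h3 := rho_tri ζ w (T.pt x) hn1.le (mem_B.1 hw).le (T.norm_pt_le x)
    have h4 : rho ζ w ≤ Cs * Real.sqrt (dl w) := hζ
    have h5 : Real.sqrt (dl w) ≤ T.r x / 2 := by
      rw [show T.r x / 2 = Real.sqrt (T.h x) from (sqrt_hh _).symm]
      exact Real.sqrt_le_sqrt hup
    have h6 : Cs * Real.sqrt (dl w) ≤ Cs * (T.r x / 2) := by gcongr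
    have := T.r_pos x
    nlinarith
  have h3 : ‖f w‖ₑ ^ (1/2:ℝ) ≤ ENNReal.ofReal (Cs * (dl w ^ n)⁻¹ * Ig T (Cs + 5) (gf f) x) := by
    rw [ENNReal.ofReal_mul (by positivity)]
    exact h1.trans (mul_le_mul_right h2 _)
  have h4 : Cs * (dl w ^ n)⁻¹ * Ig T (Cs + 5) (gf f) x ≤
      cF T (Cs + 5) (Cs * 64 ^ n) m (gf f) x := by
    have h5 : Cs * 64 ^ n * ag T (Cs + 5) (gf f) x ≤ cF T (Cs + 5) (Cs * 64 ^ n) m (gf f) x :=
      (mul_le_mul_of_nonneg_left (ag_le_maxA T _ _ (T.le_refl x)) (by positivity)).trans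
        (le_max_right _ _)
    refine le_trans ?_ h5
    have h6 : (dl w ^ n)⁻¹ ≤ 64 ^ n / T.h x ^ n := by
      rw [← div_pow, ← inv_pow]
      apply pow_le_pow_left₀ (by positivity)
      rw [inv_le_comm₀ hdlpos (by positivity), inv_div]
      exact hlow
    unfold ag
    have h7 := Ig_nonneg T (Cs + 5) (gf f) x
    calc Cs * (dl w ^ n)⁻¹ * Ig T (Cs + 5) (gf f) x
        ≤ Cs * (64 ^ n / T.h x ^ n) * Ig T (Cs + 5) (gf f) x := by gcongr
      _ = _ := by ring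
  have hc0 : 0 ≤ cF T (Cs + 5) (Cs * 64 ^ n) m (gf f) x :=
    (Real.sqrt_nonneg _).trans (le_max_left _ _)
  have h5 : ‖f w‖ₑ ≤ ENNReal.ofReal (cF T (Cs + 5) (Cs * 64 ^ n) m (gf f) x ^ 2) := by
    have h6 : ‖f w‖ₑ = (‖f w‖ₑ ^ (1/2:ℝ)) ^ (2:ℕ) := by
      rw [← ENNReal.rpow_natCast, ← ENNReal.rpow_mul]; norm_num
    rw [h6, ENNReal.ofReal_pow hc0]
    gcongr
    exact h3.trans (ENNReal.ofReal_le_ofReal h4)
  rw [← ofReal_norm] at h5
  exact (ENNReal.ofReal_le_ofReal_iff (by positivity)).1 h5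


/-- `|f| ≤ 2 c²` on the whole ball, for deep trees -/
theorem c3_est (n : ℕ) (I : Inp n) (cT : ℝ) : ∃ Cs : ℝ, 0 < Cs ∧
    ∀ (f : E n → ℂ) (ρ m : ℝ), 0 < m → 1 < ρ → DifferentiableOn ℂ f (Metric.ball 0 ρ) →
    ∫⁻ ζ, rmax f ζ ∂(sig n) ≠ ⊤ →
    ∃ I₀ : ℕ, ∀ T : Tree n cT, I₀ ≤ T.I → ∀ w ∈ B n,
      ‖f w‖ ≤ 2 * cF T (Cs + 5) (Cs * 64 ^ n) m (gf f) (T.loc w) ^ 2 := by
  obtain ⟨Cs, hCs, hpt⟩ := point_est n I cT
  refine ⟨Cs, hCs, ?_⟩
  intro f ρ m hm hρ hf hfin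
  have hBsub : B n ⊆ Metric.ball 0 ρ := Metric.ball_subset_ball hρ.le
  have hfB : DifferentiableOn ℂ f (B n) := hf.mono hBsub
  -- uniform continuity
  have hcomp : IsCompact (Metric.closedBall (0 : E n) 1) := isCompact_closedBall 0 1
  have hcb : Metric.closedBall (0 : E n) 1 ⊆ Metric.ball 0 ρ := by
    intro z hz
    rw [Metric.mem_closedBall, dist_zero_right] at hz
    rw [mem_ball_zero_iff]; linarith
  have huc := hcomp.uniformContinuousOn_of_continuous (hf.continuousOn.mono hcb)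
  rw [Metric.uniformContinuousOn_iff] at huc
  obtain ⟨δ, hδ, huc⟩ := huc m hm
  obtain ⟨I₀, hI₀⟩ := exists_pow_lt_of_lt_one hδ (show (1/64:ℝ) < 1 by norm_num)
  refine ⟨I₀ + 1, ?_⟩
  intro T hT w hw
  set x := T.loc w with hx
  have hsq : Real.sqrt m ≤ cF T (Cs + 5) (Cs * 64 ^ n) m (gf f) x := le_max_left _ _
  have hmc : m ≤ cF T (Cs + 5) (Cs * 64 ^ n) m (gf f) x ^ 2 := by
    have h0 := Real.sqrt_nonneg m
    calc m = Real.sqrt m ^ 2 := (Real.sq_sqrt hm.le).symm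
      _ ≤ _ := by gcongr
  have hwx : rho w (T.pt x) ≤ 2 * T.r x := T.loc_near w hw
  have hup : dl w ≤ T.h x := T.loc_upper w hw
  have hr := T.r_pos x
  have hhx := T.h_pos x
  by_cases hlow : T.h x / 64 ≤ dl w
  · have h1 := hpt T f m hm hfB hfin w x hw (by linarith) hlow hup
    have : 0 ≤ cF T (Cs + 5) (Cs * 64 ^ n) m (gf f) x ^ 2 := sq_nonneg _
    linarith
  · -- bottom level
    rw [not_le] at hlow
    have hlevI : T.lev x = T.I := by
      by_contra hne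
      have h1 := T.loc_lower w hw (lt_of_le_of_ne (T.lev_le _) hne)
      rw [hh_succ] at h1
      have : T.h x / 64 < dl w := h1
      linarith
    have hwn := mem_B.1 hw
    have hh1 : T.h x ≤ 1/64 := by
      unfold Tree.h
      rw [hlevI]
      have h2 : hh T.I ≤ hh 1 := hh_anti (by omega)
      have h3 : hh 1 = 1/64 := by unfold hh; norm_num
      linarith
    have hhδ : T.h x < δ := by
      unfold Tree.h
      rw [hlevI]
      have h2 : hh T.I ≤ hh I₀ := hh_anti (by omega)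
      exact lt_of_le_of_lt h2 hI₀
    have hw2 : ‖w‖ ^ 2 = 1 - dl w := by unfold dl; ring
    have hwpos : 0 < ‖w‖ := by
      have : 0 < ‖w‖ ^ 2 := by rw [hw2]; linarith
      rcases (norm_nonneg w).eq_or_lt with h | h
      · rw [← h] at this
        norm_num at this
      · exact h
    set s := Real.sqrt (1 - T.h x) with hs
    have hs2 : s ^ 2 = 1 - T.h x := Real.sq_sqrt (by linarith)
    have hs0 : 0 ≤ s := Real.sqrt_nonneg _
    have hs1 : s ≤ 1 := by nlinarith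
    have hsw : s ≤ ‖w‖ := by
      apply Real.sqrt_le_left (norm_nonneg w) |>.2
      rw [hw2]; linarith
    set w' : E n := (s / ‖w‖) • w with hw'
    have hw'n : ‖w'‖ = s := by
      rw [hw', norm_smul, Real.norm_of_nonneg (by positivity)]
      field_simp
    have hslt : s < 1 := by nlinarith
    have hw'B : w' ∈ B n := by rw [mem_B, hw'n]; exact hslt
    have hdlw' : dl w' = T.h x := by unfold dl; rw [hw'n, hs2]; ring
    have hdist : ‖w - w'‖ ≤ T.h x := by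
      have h1 : w - w' = (1 - s / ‖w‖) • w := by rw [hw', sub_smul, one_smul]
      rw [h1, norm_smul, Real.norm_of_nonneg (by
        rw [sub_nonneg, div_le_one hwpos]; exact hsw)]
      have h2 : (1 - s / ‖w‖) * ‖w‖ = ‖w‖ - s := by field_simp
      rw [h2]
      nlinarith
    have hrhoww : rho w' w ≤ T.r x / 2 := by
      rw [show T.r x / 2 = Real.sqrt (T.h x) from (sqrt_hh _).symm]
      unfold rho
      apply Real.sqrt_le_sqrt
      -- d w' w = 1 - s ‖w‖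
      have h1 : q w' w = ((1 - s * ‖w‖ : ℝ) : ℂ) := by
        unfold q
        have e : w' = ((s / ‖w‖ : ℝ) : ℂ) • w := by rw [hw']; exact (Complex.coe_smul _ _).symm
        rw [e, inner_smul_right, inner_self_eq_norm_sq_to_K]
        have hne : (‖w‖:ℂ) ≠ 0 := by exact_mod_cast hwpos.ne'
        push_cast
        field_simp
        simp
        ring
      unfold d
      rw [h1, Complex.norm_real, Real.norm_of_nonneg (by nlinarith)]
      nlinarith
    have h1 := hpt T f m hm hfB hfin w' x hw'B (by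
      have h2 := rho_tri w' w (T.pt x) (mem_B.1 hw'B).le hwn.le (T.norm_pt_le x)
      linarith) (by rw [hdlw']; linarith) (by rw [hdlw'])
    have h2 : ‖f w - f w'‖ < m := by
      have := huc w (by rw [Metric.mem_closedBall, dist_zero_right]; exact hwn.le) w'
        (by rw [Metric.mem_closedBall, dist_zero_right]; exact (mem_B.1 hw'B).le)
        (by rw [dist_eq_norm]; exact lt_of_le_of_lt hdist hhδ)
      rwa [dist_eq_norm] at this
    have h3 : ‖f w‖ ≤ ‖f w'‖ + ‖f w - f w'‖ := by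
      have := norm_add_le (f w') (f w - f w')
      rwa [add_sub_cancel] at this
    linarith

/-- `∫_B |f| dv ≤ 2n ∫ rmax f dσ` -/
theorem lintegral_B_le (I : Inp n) (f : E n → ℂ) (hf : ContinuousOn f (B n)) :
    ∫⁻ z in B n, ‖f z‖ₑ ≤ ENNReal.ofReal (2 * n) * ∫⁻ ζ, rmax f ζ ∂(sig n) := by
  have hmeas : Measurable ((B n).indicator (fun z => ‖f z‖ₑ)) :=
    measurable_indicator_of_continuousOn (isOpen_B n).measurableSet _
      (continuous_enorm.comp_continuousOn hf)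
  have h1 : ∫⁻ z in B n, ‖f z‖ₑ = ∫⁻ z in B n, (B n).indicator (fun z => ‖f z‖ₑ) z := by
    apply setLIntegral_congr_fun (isOpen_B n).measurableSet
    intro z hz
    simp only [indicator_of_mem hz]
  rw [h1, I.polar _ hmeas]
  have h2 : ∀ r ∈ Ioo (0:ℝ) 1, ENNReal.ofReal (2 * n * r ^ (2 * n - 1)) *
      ∫⁻ ζ, (B n).indicator (fun z => ‖f z‖ₑ) (r • ζ) ∂(sig n) ≤
      ENNReal.ofReal (2 * n) * ∫⁻ ζ, rmax f ζ ∂(sig n) := by
    intro r hr
    apply mul_le_mul'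
    · apply ENNReal.ofReal_le_ofReal
      have : r ^ (2 * n - 1) ≤ 1 := pow_le_one₀ hr.1.le hr.2.le
      have hn' : (0:ℝ) ≤ 2 * n := by positivity
      nlinarith
    · apply lintegral_mono
      intro ζ
      refine (indicator_le_self _ _ _).trans ?_
      exact le_iSup₂ (f := fun (r : ℝ) (_ : r ∈ Ico (0:ℝ) 1) => ‖f (r • ζ)‖ₑ) r ⟨hr.1.le, hr.2⟩
  refine (setLIntegral_mono' measurableSet_Ioo h2).trans ?_
  rw [lintegral_const, Measure.restrict_apply_univ, Real.volume_Ioo]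
  simp

end

end CF

open CF in
/-- the majorant `c` exists (conditional on the analytic inputs) -/
theorem exists_c_of (n : ℕ) (I : CF.Inp n) (cT : ℝ) (hc : 0 < cT) : ∃ C : ℝ, 0 < C ∧
    ∀ (f : E n → ℂ) (ρ m : ℝ), 1 < ρ → DifferentiableOn ℂ f (Metric.ball 0 ρ) →
      0 < m → ∫⁻ ζ, ‖f ζ‖ₑ ∂(sig n) = ENNReal.ofReal m →
    ∃ I₀ : ℕ, ∀ T : Tree n cT, I₀ ≤ T.I → ∃ c : T.ι → ℝ, IsC T C m c ∧
      ∫⁻ w, ‖Aop f w‖ₑ ^ (2:ℕ) * ENNReal.ofReal (c (T.loc w) ^ 2)⁻¹ ∂(lam n) ≤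
        ENNReal.ofReal (C * m) := by
  obtain ⟨Cs, hCs, hc3⟩ := c3_est n I cT
  obtain ⟨Cr, hCr, hrm⟩ := I.rm
  obtain ⟨Ch, hCh, hhs⟩ := I.hs
  obtain ⟨Ci, hCi, hisC⟩ := isC_cF n I cT hc (Cs + 5 + 0) (by linarith) (Cs * 64 ^ n) Cr
    (by positivity) hCr
  rw [add_zero] at hisC
  set N : ℝ := (NE n : ℝ) with hN
  have hN0 : 0 ≤ N := Nat.cast_nonneg _
  refine ⟨Ci + (12 * Ch + 4 * N ^ 2 * (2 * n) * Cr), by positivity, ?_⟩
  intro f ρ m hρ hf hm hfm
  have hBsub : B n ⊆ Metric.ball 0 ρ := Metric.ball_subset_ball hρ.le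
  have hfB : DifferentiableOn ℂ f (B n) := hf.mono hBsub
  have hr1 := hrm f ρ hρ hf
  rw [hfm, ← ENNReal.ofReal_mul hCr.le] at hr1
  have hrfin : ∫⁻ ζ, rmax f ζ ∂(sig n) ≠ ⊤ := ne_top_of_le_ne_top ENNReal.ofReal_ne_top hr1
  obtain ⟨I₀, hI₀⟩ := hc3 f ρ m hm hρ hf hrfin
  refine ⟨I₀, fun T hT => ⟨cF T (Cs + 5) (Cs * 64 ^ n) m (gf f), ?_, ?_⟩⟩
  · have h1 := hisC T m hm (gf f) (measurable_gf f hfB.continuousOn)
      (lintegral_gf_ne_top f hrfin) ((lintegral_gf_sq f).trans hr1)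
    have hle : Ci ≤ Ci + (12 * Ch + 4 * N ^ 2 * (2 * n) * Cr) := by
      have : 0 ≤ 12 * Ch + 4 * N ^ 2 * (2 * n) * Cr := by positivity
      linarith
    refine ⟨h1.m_pos, h1.low, h1.mono, ?_, ?_, ?_⟩
    · intro x y
      refine (h1.reg x y).trans ?_
      have e1 := T.h_pos x; have e2 := T.h_pos y; have e3 := d_nonneg (T.pt x) (T.pt y)
      have e4 : 0 ≤ cF T (Cs + 5) (Cs * 64 ^ n) m (gf f) y :=
        (Real.sqrt_nonneg _).trans (le_max_left _ _)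
      gcongr
    · intro x₀ Λ V hΛ hV hanti
      refine (h1.pack x₀ Λ V hΛ hV hanti).trans ?_
      have := T.vol_nonneg x₀
      gcongr
    · intro μ K₁ hμ hK h
      refine (h1.carl μ K₁ hμ hK h).trans ?_
      gcongr
  · have hc3' := hI₀ T hT
    set c : E n → ℝ := fun w => cF T (Cs + 5) (Cs * 64 ^ n) m (gf f) (T.loc w) with hcdef
    have hsq : ∀ w, Real.sqrt m ≤ c w := fun w => le_max_left _ _
    have hcpos : ∀ w, 0 < c w := fun w => lt_of_lt_of_le (Real.sqrt_pos.2 hm) (hsq w)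
    have hmc : ∀ w, m ≤ c w ^ 2 := by
      intro w
      have h0 := Real.sqrt_nonneg m
      calc m = Real.sqrt m ^ 2 := (Real.sq_sqrt hm.le).symm
        _ ≤ _ := by have := hsq w; gcongr
    have hpt : ∀ w ∈ B n, ENNReal.ofReal (dl w)⁻¹ * (‖Aop f w‖ₑ ^ (2:ℕ) *
        ENNReal.ofReal (c w ^ 2)⁻¹) ≤
        ENNReal.ofReal 6 * ENNReal.ofReal (‖fderiv ℂ f w w‖ ^ 2 /
          Real.sqrt (‖f w‖ ^ 2 + m ^ 2) * dl w) +
        ENNReal.ofReal (4 * N ^ 2) * ‖f w‖ₑ := by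
      intro w hw
      have hdl := dl_pos hw
      have hdl1 := dl_le_one w
      have hcw := hcpos w
      have hfw : ‖f w‖ ≤ 2 * c w ^ 2 := hc3' w hw
      have hA : ‖Aop f w‖ ^ 2 ≤ dl w ^ 2 * (2 * ‖fderiv ℂ f w w‖ ^ 2 + 2 * N ^ 2 * ‖f w‖ ^ 2) := by
        unfold Aop Dop
        rw [norm_smul, Complex.norm_real, Real.norm_of_nonneg hdl.le, mul_pow]
        have h1 : ‖fderiv ℂ f w w + ((NE n : ℕ) : ℂ) • f w‖ ≤ ‖fderiv ℂ f w w‖ + N * ‖f w‖ := by
          refine (norm_add_le _ _).trans ?_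
          rw [norm_smul, Complex.norm_natCast]
        have h2 : ‖fderiv ℂ f w w + ((NE n : ℕ) : ℂ) • f w‖ ^ 2 ≤
            (‖fderiv ℂ f w w‖ + N * ‖f w‖) ^ 2 := by gcongr
        have h3 : (‖fderiv ℂ f w w‖ + N * ‖f w‖) ^ 2 ≤
            2 * ‖fderiv ℂ f w w‖ ^ 2 + 2 * N ^ 2 * ‖f w‖ ^ 2 := by
          nlinarith [sq_nonneg (‖fderiv ℂ f w w‖ - N * ‖f w‖)]
        exact mul_le_mul_of_nonneg_left (h2.trans h3) (by positivity)
      have hS : Real.sqrt (‖f w‖ ^ 2 + m ^ 2) ≤ 3 * c w ^ 2 := by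
        rw [Real.sqrt_le_left (by positivity)]
        have h1 := hmc w
        have h2 := norm_nonneg (f w)
        nlinarith
      have hSpos : 0 < Real.sqrt (‖f w‖ ^ 2 + m ^ 2) := Real.sqrt_pos.2 (by positivity)
      have e1 : ‖Aop f w‖ₑ ^ (2:ℕ) = ENNReal.ofReal (‖Aop f w‖ ^ 2) := by
        rw [← ofReal_norm, ENNReal.ofReal_pow (norm_nonneg _)]
      rw [e1, ← ENNReal.ofReal_mul (by positivity), ← ENNReal.ofReal_mul (by positivity),
        ← ENNReal.ofReal_mul (by norm_num), ← ofReal_norm (f w),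
        ← ENNReal.ofReal_mul (by positivity), ← ENNReal.ofReal_add (by positivity) (by positivity)]
      apply ENNReal.ofReal_le_ofReal
      have h1 : (dl w)⁻¹ * (‖Aop f w‖ ^ 2 * (c w ^ 2)⁻¹) ≤
          (dl w)⁻¹ * (dl w ^ 2 * (2 * ‖fderiv ℂ f w w‖ ^ 2 + 2 * N ^ 2 * ‖f w‖ ^ 2) *
            (c w ^ 2)⁻¹) := by gcongr
      have h2 : (dl w)⁻¹ * (dl w ^ 2 * (2 * ‖fderiv ℂ f w w‖ ^ 2 + 2 * N ^ 2 * ‖f w‖ ^ 2) *
            (c w ^ 2)⁻¹) = 2 * (‖fderiv ℂ f w w‖ ^ 2 * (c w ^ 2)⁻¹) * dl w +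
            2 * N ^ 2 * (‖f w‖ ^ 2 * (c w ^ 2)⁻¹) * dl w := by
        field_simp
      have h3 : (c w ^ 2)⁻¹ ≤ 3 * (Real.sqrt (‖f w‖ ^ 2 + m ^ 2))⁻¹ := by
        rw [inv_le_iff_one_le_mul₀ (by positivity)]
        rw [mul_comm, ← mul_assoc, ← div_eq_mul_inv, le_div_iff₀ hSpos, one_mul]
        linarith
      have h4 : ‖f w‖ ^ 2 * (c w ^ 2)⁻¹ ≤ 2 * ‖f w‖ := by
        rw [mul_inv_le_iff₀ (by positivity)]
        have := norm_nonneg (f w)
        nlinarith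
      calc (dl w)⁻¹ * (‖Aop f w‖ ^ 2 * (c w ^ 2)⁻¹)
          ≤ 2 * (‖fderiv ℂ f w w‖ ^ 2 * (c w ^ 2)⁻¹) * dl w +
            2 * N ^ 2 * (‖f w‖ ^ 2 * (c w ^ 2)⁻¹) * dl w := h1.trans h2.le
        _ ≤ 2 * (‖fderiv ℂ f w w‖ ^ 2 * (3 * (Real.sqrt (‖f w‖ ^ 2 + m ^ 2))⁻¹)) * dl w +
            2 * N ^ 2 * (2 * ‖f w‖) * 1 := by gcongr
        _ = 6 * (‖fderiv ℂ f w w‖ ^ 2 / Real.sqrt (‖f w‖ ^ 2 + m ^ 2) * dl w) +
            4 * N ^ 2 * ‖f w‖ := by
            rw [div_eq_mul_inv]; ring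
    -- integrate
    have hmeasdl : Measurable (fun z : E n => ENNReal.ofReal (dl z)⁻¹) := by
      unfold dl; fun_prop
    have hint1 : ∫⁻ w, ‖Aop f w‖ₑ ^ (2:ℕ) * ENNReal.ofReal (c w ^ 2)⁻¹ ∂(lam n) ≤
        ∫⁻ w in B n, ENNReal.ofReal (dl w)⁻¹ * (‖Aop f w‖ₑ ^ (2:ℕ) *
          ENNReal.ofReal (c w ^ 2)⁻¹) := by
      unfold lam
      exact lintegral_withDensity_le_lintegral_mul _ hmeasdl _
    have hmeasf : AEMeasurable (fun w => ‖f w‖ₑ) (volume.restrict (B n)) := by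
      have h1 := hfB.continuousOn.aestronglyMeasurable (μ := volume) (isOpen_B n).measurableSet
      exact h1.enorm
    calc ∫⁻ w, ‖Aop f w‖ₑ ^ (2:ℕ) * ENNReal.ofReal (c w ^ 2)⁻¹ ∂(lam n)
        ≤ _ := hint1
      _ ≤ ∫⁻ w in B n, (ENNReal.ofReal 6 * ENNReal.ofReal (‖fderiv ℂ f w w‖ ^ 2 /
          Real.sqrt (‖f w‖ ^ 2 + m ^ 2) * dl w) + ENNReal.ofReal (4 * N ^ 2) * ‖f w‖ₑ) :=
          setLIntegral_mono' (isOpen_B n).measurableSet hpt
      _ = ENNReal.ofReal 6 * (∫⁻ w in B n, ENNReal.ofReal (‖fderiv ℂ f w w‖ ^ 2 /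
          Real.sqrt (‖f w‖ ^ 2 + m ^ 2) * dl w)) +
          ENNReal.ofReal (4 * N ^ 2) * ∫⁻ w in B n, ‖f w‖ₑ := by
          rw [lintegral_add_right' _ (hmeasf.const_mul _),
            lintegral_const_mul' _ _ ENNReal.ofReal_ne_top,
            lintegral_const_mul' _ _ ENNReal.ofReal_ne_top]
      _ ≤ ENNReal.ofReal 6 * (ENNReal.ofReal Ch * (ENNReal.ofReal m + ENNReal.ofReal m)) +
          ENNReal.ofReal (4 * N ^ 2) * (ENNReal.ofReal (2 * n) * ENNReal.ofReal (Cr * m)) := by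
          have h1 := hhs f ρ m hρ hm hf
          rw [hfm] at h1
          have h2 := (lintegral_B_le I f hfB.continuousOn).trans (mul_le_mul_right hr1 _)
          gcongr
      _ = ENNReal.ofReal ((12 * Ch + 4 * N ^ 2 * (2 * n) * Cr) * m) := by
          rw [← ENNReal.ofReal_add hm.le hm.le, ← ENNReal.ofReal_mul hCh.le,
            ← ENNReal.ofReal_mul (by norm_num), ← ENNReal.ofReal_mul (by positivity),
            ← ENNReal.ofReal_mul (by positivity), ← ENNReal.ofReal_add (by positivity)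
            (by positivity)]
          congr 1; ring
      _ ≤ _ := by
          apply ENNReal.ofReal_le_ofReal
          apply mul_le_mul_of_nonneg_right _ hm.le
          linarith

end Pool.Agent.Lib.MP7ebef4
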