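import Mathlib

/-!
# MP_7ebef4_an : shared definitions (blueprint: notes id 264)

`E n = EuclideanSpace ℂ (Fin n)`, `q z w = 1 - ⟨z,w⟩`, `d = |q|`, `rho = √d`, `dl z = 1 - |z|²`,
`sig` = cone measure on the sphere, `lam` = `dv / dl` on the ball.
-/

set_option autoImplicit false

open MeasureTheory Set

namespace Pool.Agent.Lib.MP7ebef4

noncomputable section

/-- the ambient space `ℂ^n` -/
abbrev E (n : ℕ) := EuclideanSpace ℂ (Fin n)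

variable {n : ℕ}

/-- `1 - ⟨z, w⟩` (holomorphic in `z`) -/
def q (z w : E n) : ℂ := 1 - inner ℂ w z

/-- `|1 - ⟨z, w⟩|` -/
def d (z w : E n) : ℝ := ‖q z w‖

/-- `|1 - ⟨z, w⟩|^{1/2}`; satisfies the triangle inequality on the closed ball -/
def rho (z w : E n) : ℝ := Real.sqrt (d z w)

/-- `1 - |z|²` -/
def dl (z : E n) : ℝ := 1 - ‖z‖ ^ 2

/-- open unit ball -/
def B (n : ℕ) : Set (E n) := Metric.ball 0 1

/-- unit sphere -/
def Sph (n : ℕ) : Set (E n) := Metric.sphere 0 1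

/-- cone measure on the unit sphere (total mass = volume of the ball) -/
def sig (n : ℕ) : Measure (E n) :=
  (volume.restrict (B n)).map (fun z => (‖z‖⁻¹ : ℝ) • z)

/-- `dv / (1-|z|²)` on the ball -/
def lam (n : ℕ) : Measure (E n) :=
  (volume.restrict (B n)).withDensity (fun z => ENNReal.ofReal (dl z)⁻¹)

/-- exponent `s` of the pumps -/
def sE (n : ℕ) : ℕ := 4 * n + 8

/-- exponent `M` of the reproducing kernel -/
def ME (n : ℕ) : ℕ := 4 * sE n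

/-- `n + M` -/
def NE (n : ℕ) : ℕ := n + ME n

/-- `c₁⁻¹ = ∫_B (1-|z|²)^M dv` -/
def c1 (n : ℕ) : ℝ := (∫ z in B n, (dl z) ^ (ME n))⁻¹

/-- constant of the kernel `kap` -/
def c0 (n : ℕ) : ℝ := c1 n / (NE n)

/-- `κ(z,w) = c₀ (1-|w|²)^M (1-⟨z,w⟩)^{-(n+M)}` -/
def kap (z w : E n) : ℂ := ((c0 n * (dl w) ^ (ME n) : ℝ) : ℂ) / (q z w) ^ (NE n)

/-- `D g = (R + n + M) g`, where `R g (z) = fderiv g z z` -/
def Dop {V : Type*} [NormedAddCommGroup V] [NormedSpace ℂ V] (g : E n → V) (z : E n) : V :=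
  fderiv ℂ g z z + ((NE n : ℕ) : ℂ) • g z

/-- `A g = (1-|z|²) D g` -/
def Aop {V : Type*} [NormedAddCommGroup V] [NormedSpace ℂ V] (g : E n → V) (z : E n) : V :=
  ((dl z : ℝ) : ℂ) • Dop g z

/-- `Σ F (z) = ∫ F(w) κ(z,w) dλ(w)` -/
def Sg (F : E n → ℂ) (z : E n) : ℂ := ∫ w, F w * kap z w ∂(lam n)

/-- square of the `H²` norm (w.r.t. `sig`) -/
def H2 {V : Type*} [NormedAddCommGroup V] (g : E n → V) : ENNReal :=
  ⨆ r ∈ Ioo (0:ℝ) 1, ∫⁻ ζ, ‖g (r • ζ)‖ₑ ^ (2:ℕ) ∂(sig n)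

/-- `∫ |A g|² dλ` -/
def AN {V : Type*} [NormedAddCommGroup V] [NormedSpace ℂ V] (g : E n → V) : ENNReal :=
  ∫⁻ z, ‖Aop g z‖ₑ ^ (2:ℕ) ∂(lam n)

/-- radial maximal function on `[0,1)` -/
def rmax {V : Type*} [NormedAddCommGroup V] (g : E n → V) (ζ : E n) : ENNReal :=
  ⨆ r ∈ Ico (0:ℝ) 1, ‖g (r • ζ)‖ₑ

/-- Schur kernel `Q_η(z,w) = (δ_z/d)^η (δ_w/d)^2 d^{-n}` -/
def Qk (η : ℝ) (z w : E n) : ℝ :=
  (dl z / d z w) ^ η * (dl w / d z w) ^ (2:ℕ) * ((d z w) ^ n)⁻¹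

/-- radii of the tree -/
def rr (i : ℕ) : ℝ := 2 * (1/8 : ℝ) ^ i

/-- heights of the tree, `hh i = (rr i)²/4` -/
def hh (i : ℕ) : ℝ := (1/64 : ℝ) ^ i

/-- A finite tree of nonisotropic cells on the sphere, with levels `0..I`, and a localisation map
`loc` which attaches to `w ∈ B` a node at the scale of `w`. `cT` = lower volume constant. -/
structure Tree (n : ℕ) (cT : ℝ) where
  ι : Type
  [fin : Fintype ι]
  [dec : DecidableEq ι]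
  I : ℕ
  lev : ι → ℕ
  lev_le : ∀ x, lev x ≤ I
  pt : ι → E n
  norm_pt : ∀ x, ‖pt x‖ = 1
  root : ι
  lev_root : lev root = 0
  eq_root : ∀ x, lev x = 0 → x = root
  par : ι → ι
  par_root : par root = root
  lev_par : ∀ x, lev x ≠ 0 → lev (par x) + 1 = lev x
  rho_par : ∀ x, lev x ≠ 0 → rho (pt x) (pt (par x)) ≤ rr (lev (par x))
  cell : ι → Set (E n)
  meas_cell : ∀ x, MeasurableSet (cell x)
  cell_sub : ∀ x, cell x ⊆ Sph n
  cell_disj : ∀ x y, lev x = lev y → x ≠ y → Disjoint (cell x) (cell y)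
  cell_cover : ∀ i ≤ I, ∀ ζ ∈ Sph n, ∃ x, lev x = i ∧ ζ ∈ cell x
  cell_par : ∀ x, cell x ⊆ cell (par x)
  cell_near : ∀ x, ∀ ζ ∈ cell x, rho ζ (pt x) ≤ 3 * rr (lev x)
  cell_vol : ∀ x, ENNReal.ofReal (cT * (hh (lev x)) ^ n) ≤ sig n (cell x)
  loc : E n → ι
  meas_loc : ∀ x, MeasurableSet (loc ⁻¹' {x})
  loc_near : ∀ w ∈ B n, rho w (pt (loc w)) ≤ 2 * rr (lev (loc w))
  loc_upper : ∀ w ∈ B n, dl w ≤ hh (lev (loc w))
  loc_lower : ∀ w ∈ B n, lev (loc w) < I → hh (lev (loc w) + 1) < dl w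

attribute [instance] Tree.fin Tree.dec

namespace Tree

variable {cT : ℝ} (T : Tree n cT)

/-- height of a node -/
def h (x : T.ι) : ℝ := hh (T.lev x)

/-- radius of a node -/
def r (x : T.ι) : ℝ := rr (T.lev x)

/-- `y` is an ancestor of `x` (or `x` itself) -/
def le (x y : T.ι) : Prop := ∃ k : ℕ, T.par^[k] x = y

/-- mass of a node -/
def vol (x : T.ι) : ℝ := (sig n (T.cell x)).toReal

/-- the point `a_x = (1-h_x) ζ_x` of the ball -/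
def a (x : T.ι) : E n := ((1 - T.h x : ℝ)) • T.pt x

end Tree

/-- Regular majorant on the tree; `m = ‖f‖₁`. -/
structure IsC {cT : ℝ} (T : Tree n cT) (C m : ℝ) (c : T.ι → ℝ) : Prop where
  m_pos : 0 < m
  low : ∀ x, Real.sqrt m ≤ c x
  mono : ∀ x, c (T.par x) ≤ c x
  reg : ∀ x y, c x ≤ C * ((T.h x + T.h y + d (T.pt x) (T.pt y)) / T.h x) ^ n * c y
  pack : ∀ (x₀ : T.ι) (Λ : ℝ) (V : Finset T.ι), 1 ≤ Λ →
    (∀ v ∈ V, T.le v x₀ ∧ Λ * c x₀ < c v) → (∀ v ∈ V, ∀ v' ∈ V, T.le v v' → v = v') →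
    ∑ v ∈ V, T.vol v ≤ C / Λ * T.vol x₀
  carl : ∀ (μ : T.ι → ℝ) (K₁ : ℝ), (∀ v, 0 ≤ μ v) → 0 ≤ K₁ →
    (∀ (x : T.ι) (V : Finset T.ι), (∀ v ∈ V, T.le v x) → ∑ v ∈ V, μ v ≤ K₁ * T.vol x) →
    ∑ v, μ v * c v ^ 2 ≤ C * K₁ * m

open Classical in
/-- the pollution sum `Θ` at the node `x` for the responsible pump `v'` -/
def Theta {cT : ℝ} (T : Tree n cT) (resp : T.ι → T.ι) (p' : ℝ) (v' x : T.ι) : ℝ :=
  ∑ v ∈ Finset.univ.filter (fun v => resp v = v ∧ T.lev v' < T.lev v ∧ T.lev v < T.lev x ∧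
      p' * T.r v < rho (T.pt v) (T.pt x)),
    (T.r v / rho (T.pt v) (T.pt x)) ^ (2 * (sE n - n))

/-- Pump system: `resp x` is the lowest pump above `x`; pumps are the fixed points of `resp`. -/
structure IsPump {cT : ℝ} (T : Tree n cT) (c : T.ι → ℝ) (K ε p' : ℝ) (resp : T.ι → T.ι) : Prop where
  root : resp T.root = T.root
  step : ∀ x, resp x = x ∨ resp x = resp (T.par x)
  prim : ∀ x, c x ≤ K * c (resp x)
  theta : ∀ x, resp x ≠ x → Theta T resp p' (resp x) x ≤ ε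
  carl : ∀ (x : T.ι) (V : Finset T.ι), (∀ v ∈ V, resp v = v ∧ T.le v x) → ∑ v ∈ V, T.vol v ≤ 2 * T.vol x

/-- `k_v(z) = (h_v / (1-⟨z,a_v⟩))^s` -/
def kk {cT : ℝ} (T : Tree n cT) (v : T.ι) (z : E n) : ℂ := ((T.h v : ℂ) / q z (T.a v)) ^ (sE n)

/-- the set `N(v)` of responsible pumps of the near nodes -/
def NearPump {cT : ℝ} (T : Tree n cT) (resp : T.ι → T.ι) (L : ℕ) (p'' : ℝ) (v v' : T.ι) : Prop :=
  v' ≠ v ∧ ∃ y, resp y = v' ∧ T.lev v ≤ T.lev y + L ∧ T.lev y ≤ T.lev v ∧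
    rho (T.pt y) (T.pt v) ≤ p'' * T.r v

/-- blocks -/
structure IsBlock {cT : ℝ} (T : Tree n cT) (resp : T.ι → T.ι) (L N₀ : ℕ) (eb : ℝ)
    (b : T.ι → Fin N₀) : Prop where
  gap : ∀ (b₀ : Fin N₀) (y : E n) (R : ℝ) (V : Finset T.ι), ‖y‖ ≤ 1 → 0 < R →
    (∀ v ∈ V, resp v = v ∧ b v = b₀ ∧ (64:ℝ) ^ L * T.h v ≤ R ∧ d y (T.pt v) ≤ R) →
    ∑ v ∈ V, T.vol v ≤ eb * R ^ n

open Classical in
/-- directions -/
structure IsDir {cT : ℝ} (T : Tree n cT) (c : T.ι → ℝ) (resp : T.ι → T.ι) (L N₀ : ℕ) (p'' : ℝ)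
    (b : T.ι → Fin N₀) {N : ℕ} (u : T.ι → E N) : Prop where
  unit : ∀ v, ‖u v‖ = 1
  block : ∀ v v', b v ≠ b v' → inner ℂ (u v) (u v') = 0
  near : ∀ v v', resp v = v → resp v' = v' → NearPump T resp L p'' v v' → inner ℂ (u v) (u v') = 0
  coarse : ∀ v, resp v = v →
    ∑ v' ∈ Finset.univ.filter (fun v' => resp v' = v' ∧ T.lev v' + L < T.lev v),
      ((c v' : ℂ) * kk T v' (T.a v)) * inner ℂ (u v) (u v') = 0

end

end Pool.Agent.Lib.MP7ebef4
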