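import Pool.Agent.Lib.MP_7ebef4_an.Card

/-! Choice of directions (module Dir). -/

set_option autoImplicit false

open MeasureTheory Set

namespace Pool.Agent.Lib.MP7ebef4

noncomputable section

/-- Sequential choice along a rank function. -/
theorem seq_choice {ι X : Type*} [Inhabited X] (rk : ι → ℕ) (P : ι → (ι → X) → X → Prop)
    (hP : ∀ i (u : ι → X), ∃ x, P i u x)
    (hloc : ∀ i (u u' : ι → X) x, (∀ j, rk j < rk i → u j = u' j) → P i u x → P i u' x) :
    ∃ u : ι → X, ∀ i, P i u (u i) := by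
  classical
  let F : (i : ι) → ((j : ι) → rk j < rk i → X) → X := fun i IH =>
    Classical.choose (hP i (fun j => if h : rk j < rk i then IH j h else default))
  have wf : WellFounded (fun a b : ι => rk a < rk b) := InvImage.wf rk Nat.lt_wfRel.wf
  refine ⟨wf.fix F, fun i => ?_⟩
  have h1 : wf.fix F i = F i (fun j _ => wf.fix F j) := wf.fix_eq F i
  have h2 := Classical.choose_spec
    (hP i (fun j => if h : rk j < rk i then (fun j (_ : rk j < rk i) => wf.fix F j) j h else default))
  rw [h1]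
  refine hloc i _ _ _ ?_ h2
  intro j hj
  simp only [hj, dif_pos]

/-- A unit vector in the block `b₀` orthogonal to fewer than `J` given vectors. -/
theorem exists_unit_block (N₀ J : ℕ) (b₀ : Fin N₀) (S : Finset (E (N₀ * J))) (hS : S.card < J) :
    ∃ x : E (N₀ * J), ‖x‖ = 1 ∧ (∀ k : Fin (N₀ * J), (finProdFinEquiv.symm k).1 ≠ b₀ → x k = 0) ∧
      ∀ w ∈ S, inner ℂ x w = 0 := by
  classical
  let emb : (Fin J → ℂ) →ₗ[ℂ] E (N₀ * J) :=
    { toFun := fun y => WithLp.toLp 2 (fun k =>
        if (finProdFinEquiv.symm k).1 = b₀ then y (finProdFinEquiv.symm k).2 else 0)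
      map_add' := by
        intro y z
        ext k
        simp only [PiLp.add_apply, Pi.add_apply]
        split_ifs <;> simp
      map_smul' := by
        intro a y
        ext k
        simp only [PiLp.smul_apply, Pi.smul_apply, RingHom.id_apply]
        split_ifs <;> simp }
  let Φ : (Fin J → ℂ) →ₗ[ℂ] (S → ℂ) :=
    LinearMap.pi (fun w : S => ((innerSL ℂ (w : E (N₀ * J))).toLinearMap).comp emb)
  have hlt : Module.finrank ℂ (S → ℂ) < Module.finrank ℂ (Fin J → ℂ) := by
    simp [hS]
  have hker := LinearMap.ker_ne_bot_of_finrank_lt (f := Φ) hlt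
  obtain ⟨y, hy, hy0⟩ := (Submodule.ne_bot_iff _).1 hker
  have hembne : emb y ≠ 0 := by
    intro hcon
    apply hy0
    ext j
    have h1 : emb y (finProdFinEquiv (b₀, j)) = 0 := by rw [hcon]; rfl
    have h2 : emb y (finProdFinEquiv (b₀, j)) = y j := by
      change (if (finProdFinEquiv.symm (finProdFinEquiv (b₀, j))).1 = b₀ then
        y (finProdFinEquiv.symm (finProdFinEquiv (b₀, j))).2 else 0) = y j
      rw [Equiv.symm_apply_apply]
      simp
    rw [← h2, h1]; rfl
  have hnpos : 0 < ‖emb y‖ := norm_pos_iff.2 hembne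
  refine ⟨((‖emb y‖⁻¹ : ℝ) : ℂ) • emb y, ?_, ?_, ?_⟩
  · rw [norm_smul, Complex.norm_real, Real.norm_of_nonneg (by positivity)]
    exact inv_mul_cancel₀ hnpos.ne'
  · intro k hk
    have : emb y k = 0 := by
      change (if (finProdFinEquiv.symm k).1 = b₀ then y (finProdFinEquiv.symm k).2 else 0) = 0
      rw [if_neg hk]
    rw [PiLp.smul_apply, this, smul_zero]
  · intro w hw
    have h1 : Φ y ⟨w, hw⟩ = 0 := by
      rw [LinearMap.mem_ker.1 hy]; rfl
    have h2 : inner ℂ w (emb y) = 0 := h1
    rw [inner_smul_left]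
    have h3 : inner ℂ (emb y) w = 0 := by
      rw [← inner_conj_symm, h2, map_zero]
    rw [h3, mul_zero]

open Classical in
theorem card_nearPump (n : ℕ) (hup : HUp n) (cT : ℝ) (hc : 0 < cT) (L : ℕ) (p'' : ℝ) :
    ∃ J : ℕ, ∀ (T : Tree n cT) (resp : T.ι → T.ι) (v : T.ι),
      (Finset.univ.filter (fun v' => NearPump T resp L p'' v v')).card ≤ J := by
  obtain ⟨C, hC, hcard⟩ := card_level_near_of n hup cT hc
  refine ⟨(L + 1) * ⌈C * (max p'' 1) ^ (2 * n)⌉₊, ?_⟩
  intro T resp v
  set Y : Finset T.ι := Finset.univ.filter (fun y => T.lev v ≤ T.lev y + L ∧ T.lev y ≤ T.lev v ∧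
    rho (T.pt y) (T.pt v) ≤ p'' * T.r v) with hY
  have h1 : (Finset.univ.filter (fun v' => NearPump T resp L p'' v v')) ⊆ Y.image resp := by
    intro v' hv'
    obtain ⟨_, y, hy1, hy2⟩ := (Finset.mem_filter.1 hv').2
    exact Finset.mem_image.2 ⟨y, Finset.mem_filter.2 ⟨Finset.mem_univ _, hy2⟩, hy1⟩
  refine (Finset.card_le_card h1).trans (Finset.card_image_le.trans ?_)
  have h2 : Y ⊆ (Finset.Icc (T.lev v - L) (T.lev v)).biUnion
      (fun j => Y.filter (fun y => T.lev y = j)) := by
    intro y hy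
    have := (Finset.mem_filter.1 hy).2
    refine Finset.mem_biUnion.2 ⟨T.lev y, Finset.mem_Icc.2 ⟨by omega, this.2.1⟩, ?_⟩
    exact Finset.mem_filter.2 ⟨hy, rfl⟩
  refine (Finset.card_le_card h2).trans ?_
  refine (Finset.card_biUnion_le_card_mul _ _ ⌈C * (max p'' 1) ^ (2 * n)⌉₊ ?_).trans ?_
  · intro j hj
    have hj' := (Finset.mem_Icc.1 hj).2
    have hpos : (0:ℝ) < max p'' 1 := lt_of_lt_of_le one_pos (le_max_right _ _)
    have h3 := hcard T j (T.pt v) (max p'' 1 * rr j) (T.norm_pt_le v)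
      (by have := rr_pos j; have := le_max_right p'' 1; nlinarith)
      (Y.filter (fun y => T.lev y = j)) (by
        intro y hy
        have h4 := Finset.mem_filter.1 hy
        have h5 := (Finset.mem_filter.1 h4.1).2
        refine ⟨h4.2, h5.2.2.trans ?_⟩
        have h6 : T.r v ≤ rr j := rr_anti hj'
        have h7 := T.r_pos v
        calc p'' * T.r v ≤ max p'' 1 * T.r v := by gcongr; exact le_max_left _ _
          _ ≤ max p'' 1 * rr j := by gcongr)
    rw [mul_div_cancel_right₀ _ (rr_pos j).ne'] at h3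
    have h8 := h3.trans (Nat.le_ceil _)
    exact_mod_cast h8
  · have : (Finset.Icc (T.lev v - L) (T.lev v)).card ≤ L + 1 := by
      rw [Nat.card_Icc]; omega
    exact Nat.mul_le_mul_right _ this

theorem exists_dir_of (n : ℕ) (hup : HUp n) (cT : ℝ) (hc : 0 < cT) (L : ℕ) (p'' : ℝ) :
    ∃ J : ℕ, ∀ N₀ : ℕ, 0 < N₀ → ∀ (T : Tree n cT) (c : T.ι → ℝ) (resp : T.ι → T.ι)
      (b : T.ι → Fin N₀), (∀ x, resp x = x ∨ resp x = resp (T.par x)) → resp T.root = T.root →
      ∃ u : T.ι → E (N₀ * J), IsDir T c resp L N₀ p'' b u := by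
  classical
  obtain ⟨Jn, hJn⟩ := card_nearPump n hup cT hc L p''
  refine ⟨Jn + 2, ?_⟩
  intro N₀ _ T c resp b hstep hroot
  set J := Jn + 2 with hJ
  let e := Fintype.equivFin T.ι
  set N := Fintype.card T.ι with hN
  let rk : T.ι → ℕ := fun v => T.lev v * N + (e v : ℕ)
  have hrk_lt : ∀ v v', T.lev v' < T.lev v → rk v' < rk v := by
    intro v v' h
    have h1 : (e v' : ℕ) < N := (e v').2
    calc rk v' < T.lev v' * N + N := Nat.add_lt_add_left h1 _
      _ = (T.lev v' + 1) * N := by ring
      _ ≤ T.lev v * N := Nat.mul_le_mul_right _ h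
      _ ≤ rk v := Nat.le_add_right _ _
  have hrk_inj : ∀ v v', T.lev v = T.lev v' → rk v = rk v' → v = v' := by
    intro v v' hl h
    have : (e v : ℕ) = (e v' : ℕ) := by
      simp only [rk, hl] at h
      exact Nat.add_left_cancel h
    exact e.injective (Fin.ext this)
  let Near : T.ι → Finset T.ι := fun v => Finset.univ.filter (fun v' => NearPump T resp L p'' v v')
  let Co : T.ι → Finset T.ι := fun v => Finset.univ.filter
    (fun v' => resp v' = v' ∧ T.lev v' + L < T.lev v)
  let P : T.ι → (T.ι → E (N₀ * J)) → E (N₀ * J) → Prop := fun v u x =>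
    ‖x‖ = 1 ∧ (∀ k : Fin (N₀ * J), (finProdFinEquiv.symm k).1 ≠ b v → x k = 0) ∧
      (∀ v', NearPump T resp L p'' v v' → rk v' < rk v → inner ℂ x (u v') = 0) ∧
      ∑ v' ∈ Co v, ((c v' : ℂ) * kk T v' (T.a v)) * inner ℂ x (u v') = 0
  obtain ⟨u, hu⟩ := seq_choice rk P (by
    intro v u
    obtain ⟨x, hx1, hx2, hx3⟩ := exists_unit_block N₀ J (b v)
      ((Near v).image u ∪ {∑ v' ∈ Co v, ((c v' : ℂ) * kk T v' (T.a v)) • u v'}) (by
        have h1 : ((Near v).image u).card ≤ Jn := Finset.card_image_le.trans (hJn T resp v)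
        have h2 := Finset.card_union_le ((Near v).image u)
          {∑ v' ∈ Co v, ((c v' : ℂ) * kk T v' (T.a v)) • u v'}
        rw [Finset.card_singleton] at h2
        omega)
    refine ⟨x, hx1, hx2, ?_, ?_⟩
    · intro v' hv' _
      exact hx3 _ (Finset.mem_union_left _ (Finset.mem_image_of_mem _
        (Finset.mem_filter.2 ⟨Finset.mem_univ _, hv'⟩)))
    · have h1 := hx3 _ (Finset.mem_union_right _ (Finset.mem_singleton_self _))
      rw [inner_sum] at h1
      rw [← h1]
      apply Finset.sum_congr rfl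
      intro v' _
      rw [inner_smul_right]) (by
    intro v u u' x huu' hx
    refine ⟨hx.1, hx.2.1, ?_, ?_⟩
    · intro v' hv' hlt
      rw [← huu' v' hlt]
      exact hx.2.2.1 v' hv' hlt
    · rw [← hx.2.2.2]
      apply Finset.sum_congr rfl
      intro v' hv'
      have h1 := (Finset.mem_filter.1 hv').2.2
      rw [huu' v' (hrk_lt v v' (by omega))])
  refine ⟨u, ⟨fun v => (hu v).1, ?_, ?_, ?_⟩⟩
  · intro v v' hne
    rw [PiLp.inner_apply]
    apply Finset.sum_eq_zero
    intro k _
    by_cases hk : (finProdFinEquiv.symm k).1 = b v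
    · have h1 : u v' k = 0 := (hu v').2.1 k (by rw [hk]; exact hne)
      rw [h1, inner_zero_right]
    · have h1 : u v k = 0 := (hu v).2.1 k hk
      rw [h1, inner_zero_left]
  · intro v v' hv hv' hnear
    by_cases hlt : rk v' < rk v
    · exact (hu v).2.2.1 v' hnear hlt
    · obtain ⟨hne, y, hy1, hy2, hy3, hy4⟩ := hnear
      have h1 : T.lev v' ≤ T.lev y := by
        rw [← hy1]; exact Tree.lev_resp_le hstep hroot y
      have h2 : T.lev v' = T.lev v := by
        by_contra hcon
        exact hlt (hrk_lt v v' (by omega))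
      have h3 : y = v' := by
        have := Tree.resp_eq_of_lev_eq hstep hroot (x := y) (by rw [hy1]; omega)
        rw [← hy1, this]
      have hlt' : rk v < rk v' := by
        rcases Nat.lt_or_ge (rk v) (rk v') with h | h
        · exact h
        · exfalso
          exact hne (hrk_inj v' v h2 (by omega))
      have hnear' : NearPump T resp L p'' v' v := by
        refine ⟨hne.symm, v, hv, by omega, by omega, ?_⟩
        rw [rho_comm]
        rw [h3] at hy4
        have : T.r v' = T.r v := by unfold Tree.r; rw [h2]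
        rw [this]; exact hy4
      have h4 := (hu v').2.2.1 v hnear' hlt'
      rw [← inner_conj_symm, h4, map_zero]
  · intro v _
    exact (hu v).2.2.2

end

end Pool.Agent.Lib.MP7ebef4
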