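import Mathlib

set_option autoImplicit false

open MeasureTheory Set
open scoped ENNReal NNReal

namespace Pool.Agent.Lib.MP7ebef4.HLC

theorem sum_biUnion_le' {ι κ : Type*} [DecidableEq ι] (U : Finset κ) (T : κ → Finset ι)
    (μ : ι → ℝ≥0∞) : ∑ v ∈ U.biUnion T, μ v ≤ ∑ u ∈ U, ∑ v ∈ T u, μ v := by
  classical
  induction U using Finset.induction_on with
  | empty => simp
  | insert a U ha ih =>
    rw [Finset.biUnion_insert, Finset.sum_insert ha]
    calc ∑ v ∈ T a ∪ U.biUnion T, μ v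
        ≤ ∑ v ∈ T a ∪ U.biUnion T, μ v + ∑ v ∈ T a ∩ U.biUnion T, μ v := le_self_add
      _ = ∑ v ∈ T a, μ v + ∑ v ∈ U.biUnion T, μ v := Finset.sum_union_inter
      _ ≤ _ := by gcongr

/-- Greedy selection in a finite family. -/
theorem greedy {ι : Type*} [DecidableEq ι] (meet : ι → ι → Prop) [DecidableRel meet]
    (hsymm : ∀ a b, meet a b → meet b a) (s : ι → ℝ) (W : Finset ι)
    (hrefl : ∀ v ∈ W, meet v v) :
    ∃ U ⊆ W, (∀ a ∈ U, ∀ b ∈ U, a ≠ b → ¬ meet a b) ∧
      ∀ v' ∈ W, ∃ v ∈ U, s v' ≤ s v ∧ meet v' v := by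
  induction W using Finset.strongInduction with
  | H W ih =>
    rcases W.eq_empty_or_nonempty with hW | hW
    · subst hW
      exact ⟨∅, Finset.Subset.refl _, by simp, by simp⟩
    · obtain ⟨v, hvW, hvmax⟩ := W.exists_max_image s hW
      set W' := W.filter (fun w => ¬ meet w v) with hW'
      have hsub : W' ⊂ W := by
        refine Finset.filter_ssubset.2 ⟨v, hvW, ?_⟩
        simpa using hrefl v hvW
      obtain ⟨U', hU'sub, hU'dis, hU'cov⟩ := ih W' hsub
        (fun w hw => hrefl w (Finset.mem_of_mem_filter w hw))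
      refine ⟨insert v U', ?_, ?_, ?_⟩
      · intro w hw
        rcases Finset.mem_insert.1 hw with rfl | hw
        · exact hvW
        · exact Finset.mem_of_mem_filter w (hU'sub hw)
      · intro a ha b hb hab
        rcases Finset.mem_insert.1 ha with ha | ha
        · rcases Finset.mem_insert.1 hb with hb | hb
          · exact absurd (ha.trans hb.symm) hab
          · intro hm
            rw [ha] at hm
            exact (Finset.mem_filter.1 (hU'sub hb)).2 (hsymm _ _ hm)
        · rcases Finset.mem_insert.1 hb with hb | hb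
          · rw [hb]
            exact (Finset.mem_filter.1 (hU'sub ha)).2
          · exact hU'dis a ha b hb hab
      · intro w hw
        by_cases hm : meet w v
        · exact ⟨v, Finset.mem_insert_self _ _, hvmax w hw, hm⟩
        · obtain ⟨u, hu, hsu, hmu⟩ := hU'cov w (Finset.mem_filter.2 ⟨hw, hm⟩)
          exact ⟨u, Finset.mem_insert_of_mem hu, hsu, hmu⟩

variable {ι Ω : Type*} [MeasurableSpace Ω]

/-- weak type estimate -/
theorem weak (σ : Measure Ω) (V : Finset ι) (B : ι → Set Ω)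
    (hB : ∀ v ∈ V, MeasurableSet (B v)) (R : ι → ℝ) (s μ : ι → ℝ≥0∞) (Cμ : ℝ≥0∞)
    (hs0 : ∀ v ∈ V, s v ≠ 0) (hs : ∀ v ∈ V, s v ≠ ⊤)
    (pack : ∀ v ∈ V, ∀ T ⊆ V, (∀ v' ∈ T, R v' ≤ R v ∧ (B v' ∩ B v).Nonempty) →
      ∑ v' ∈ T, μ v' ≤ Cμ * s v)
    (g : Ω → ℝ≥0∞) (t : ℝ≥0∞) (W : Finset ι) (hW : W ⊆ V)
    (ht : ∀ v ∈ W, t < (∫⁻ x in B v, g x ∂σ) / s v) :
    (∑ v ∈ W, μ v) * t ≤ Cμ * ∫⁻ x in ⋃ v ∈ W, B v, g x ∂σ := by
  classical
  have hne : ∀ v ∈ W, (B v).Nonempty := by
    intro v hv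
    by_contra hcon
    rw [Set.not_nonempty_iff_eq_empty] at hcon
    have := ht v hv
    rw [hcon] at this
    simp at this
  obtain ⟨U, hUW, hUdis, hUcov⟩ := greedy (fun a b => (B a ∩ B b).Nonempty)
    (fun a b h => by rwa [Set.inter_comm]) R W
    (fun v hv => by simpa using hne v hv)
  have h1 : ∑ v ∈ W, μ v ≤ ∑ v ∈ U, Cμ * s v := by
    calc ∑ v ∈ W, μ v ≤ ∑ v ∈ U.biUnion (fun u => W.filter
          (fun w => R w ≤ R u ∧ (B w ∩ B u).Nonempty)), μ v := by
          apply Finset.sum_le_sum_of_subset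
          intro w hw
          obtain ⟨u, hu, hsu, hmu⟩ := hUcov w hw
          exact Finset.mem_biUnion.2 ⟨u, hu, Finset.mem_filter.2 ⟨hw, hsu, hmu⟩⟩
      _ ≤ ∑ u ∈ U, ∑ w ∈ W.filter (fun w => R w ≤ R u ∧ (B w ∩ B u).Nonempty), μ w :=
          sum_biUnion_le' _ _ _
      _ ≤ ∑ u ∈ U, Cμ * s u := by
          apply Finset.sum_le_sum
          intro u hu
          apply pack u (hW (hUW hu))
          · intro w hw
            exact hW (Finset.mem_of_mem_filter w hw)
          · intro w hw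
            exact (Finset.mem_filter.1 hw).2
  have h2 : ∀ v ∈ U, t * s v ≤ ∫⁻ x in B v, g x ∂σ := by
    intro v hv
    have := (ht v (hUW hv)).le
    rwa [ENNReal.le_div_iff_mul_le (Or.inl (hs0 v (hW (hUW hv))))
      (Or.inl (hs v (hW (hUW hv))))] at this
  calc (∑ v ∈ W, μ v) * t ≤ (∑ v ∈ U, Cμ * s v) * t := by gcongr
    _ = Cμ * ∑ v ∈ U, t * s v := by
        rw [Finset.sum_mul, Finset.mul_sum]
        exact Finset.sum_congr rfl (fun v _ => by ring)
    _ ≤ Cμ * ∑ v ∈ U, ∫⁻ x in B v, g x ∂σ := by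
        gcongr with v hv
        exact h2 v hv
    _ = Cμ * ∫⁻ x in ⋃ v ∈ U, B v, g x ∂σ := by
        rw [lintegral_biUnion_finset]
        · intro a ha b hb hab
          exact Set.disjoint_iff_inter_eq_empty.2
            (Set.not_nonempty_iff_eq_empty.1 (hUdis a ha b hb hab))
        · intro v hv
          exact hB v (hW (hUW hv))
    _ ≤ Cμ * ∫⁻ x in ⋃ v ∈ W, B v, g x ∂σ := by
        gcongr
        exact Set.iUnion_subset (fun h => Set.subset_iUnion_of_subset (hUW h) Set.Subset.rfl)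

theorem sq_layer (a : ℝ≥0∞) (ha : a ≠ ⊤) :
    a ^ 2 ≤ ∫⁻ t in Ioi (0 : ℝ), if ENNReal.ofReal t < a then ENNReal.ofReal (2 * t) else 0 := by
  obtain ⟨b, hb⟩ : ∃ b : ℝ, b = a.toReal := ⟨_, rfl⟩
  have hb0 : 0 ≤ b := by rw [hb]; exact ENNReal.toReal_nonneg
  have hab : a = ENNReal.ofReal b := by rw [hb, ENNReal.ofReal_toReal ha]
  have hint : ∫ t in (0:ℝ)..b, 2 * t = b ^ 2 := by
    rw [intervalIntegral.integral_const_mul, integral_id]
    ring
  have h1 : ∫⁻ t in Ioc (0:ℝ) b, ENNReal.ofReal (2 * t) = ENNReal.ofReal (b ^ 2) := by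
    rw [← ofReal_integral_eq_lintegral_ofReal]
    · rw [← intervalIntegral.integral_of_le hb0, hint]
    · have : Continuous (fun t : ℝ => 2 * t) := by fun_prop
      exact (this.integrableOn_Icc).mono_set Ioc_subset_Icc_self
    · filter_upwards [ae_restrict_mem measurableSet_Ioc] with t ht
      have := ht.1
      positivity
  have h2 : ∫⁻ t in Ioo (0:ℝ) b, ENNReal.ofReal (2 * t) = ENNReal.ofReal (b ^ 2) := by
    rw [← h1]
    exact setLIntegral_congr Ioo_ae_eq_Ioc
  calc a ^ 2 = ENNReal.ofReal (b ^ 2) := by rw [hab, ENNReal.ofReal_pow hb0]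
    _ = ∫⁻ t in Ioo (0:ℝ) b, ENNReal.ofReal (2 * t) := h2.symm
    _ = ∫⁻ t in Ioo (0:ℝ) b,
          if ENNReal.ofReal t < a then ENNReal.ofReal (2 * t) else 0 := by
        apply setLIntegral_congr_fun measurableSet_Ioo
        intro t ht
        have : ENNReal.ofReal t < a := by
          rw [hab]
          exact (ENNReal.ofReal_lt_ofReal_iff (lt_trans ht.1 ht.2)).2 ht.2
        simp only [this, if_true]
    _ ≤ _ := lintegral_mono_set Ioo_subset_Ioi_self

theorem layer_le (b : ℝ≥0∞) :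
    ∫⁻ t in Ioi (0 : ℝ), (if ENNReal.ofReal t < b then 1 else 0 : ℝ≥0∞) ≤ b := by
  by_cases hb : b = ⊤
  · rw [hb]; exact le_top
  have hsub : ∀ t : ℝ, t ∈ Ioi (0 : ℝ) →
      (if ENNReal.ofReal t < b then 1 else 0 : ℝ≥0∞) ≤ (Ioo (0:ℝ) b.toReal).indicator 1 t := by
    intro t ht
    split_ifs with h
    · rw [indicator_of_mem]
      · simp
      · exact ⟨ht, by rwa [ENNReal.ofReal_lt_iff_lt_toReal (le_of_lt ht) hb] at h⟩
    · exact zero_le
  calc _ ≤ ∫⁻ t in Ioi (0 : ℝ), (Ioo (0:ℝ) b.toReal).indicator 1 t :=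
        setLIntegral_mono' measurableSet_Ioi hsub
    _ ≤ ∫⁻ t, (Ioo (0:ℝ) b.toReal).indicator 1 t := setLIntegral_le_lintegral _ _
    _ = b := by
        rw [lintegral_indicator_one measurableSet_Ioo, Real.volume_Ioo, sub_zero,
          ENNReal.ofReal_toReal hb]

/-- strong type estimate -/
theorem strong (σ : Measure Ω) [SFinite σ] (V : Finset ι) (B : ι → Set Ω)
    (hB : ∀ v ∈ V, MeasurableSet (B v)) (R : ι → ℝ) (s μ : ι → ℝ≥0∞) (Cμ C0 : ℝ≥0∞)
    (hC0 : C0 ≠ 0) (hC0' : C0 ≠ ⊤) (hCμ : Cμ ≠ 0)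
    (hs0 : ∀ v ∈ V, s v ≠ 0) (hs : ∀ v ∈ V, s v ≠ ⊤)
    (hsize : ∀ v ∈ V, σ (B v) ≤ C0 * s v)
    (pack : ∀ v ∈ V, ∀ T ⊆ V, (∀ v' ∈ T, R v' ≤ R v ∧ (B v' ∩ B v).Nonempty) →
      ∑ v' ∈ T, μ v' ≤ Cμ * s v)
    (g : Ω → ℝ≥0∞) (hg : Measurable g) :
    ∑ v ∈ V, μ v * ((∫⁻ x in B v, g x ∂σ) / s v) ^ 2 ≤
      8 * C0 * Cμ * ∫⁻ x, g x ^ 2 ∂σ := by
  classical
  by_cases hfin : ∫⁻ x, g x ^ 2 ∂σ = ⊤
  · rw [hfin, ENNReal.mul_top]
    · exact le_top
    · exact mul_ne_zero (mul_ne_zero (by norm_num) hC0) hCμ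
  set A : ι → ℝ≥0∞ := fun v => (∫⁻ x in B v, g x ∂σ) / s v with hA
  have hAfin : ∀ v ∈ V, A v ≠ ⊤ := by
    intro v hv
    have h1 : ∫⁻ x in B v, g x ∂σ ≤ σ (B v) + ∫⁻ x, g x ^ 2 ∂σ := by
      calc ∫⁻ x in B v, g x ∂σ ≤ ∫⁻ x in B v, (1 + g x ^ 2) ∂σ := by
            apply lintegral_mono
            intro x
            by_cases hx : g x ≤ 1
            · exact hx.trans le_self_add
            · have hx' : 1 ≤ g x := (not_le.1 hx).le
              calc g x ≤ g x * g x := le_mul_of_one_le_right' hx'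
                _ = g x ^ 2 := by ring
                _ ≤ 1 + g x ^ 2 := le_add_self
        _ = σ (B v) + ∫⁻ x in B v, g x ^ 2 ∂σ := by
            rw [lintegral_add_left measurable_const]
            simp
        _ ≤ σ (B v) + ∫⁻ x, g x ^ 2 ∂σ := by
            gcongr
            exact Measure.restrict_le_self
    have h2 : σ (B v) ≠ ⊤ := ne_top_of_le_ne_top (ENNReal.mul_ne_top hC0' (hs v hv)) (hsize v hv)
    have h3 : ∫⁻ x in B v, g x ∂σ ≠ ⊤ :=
      ne_top_of_le_ne_top (ENNReal.add_ne_top.2 ⟨h2, hfin⟩) h1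
    exact ENNReal.div_ne_top h3 (hs0 v hv)
  -- the truncated function at level `t`
  set gt : ℝ → Ω → ℝ≥0∞ := fun t x =>
    g x * (if ENNReal.ofReal t < 2 * C0 * g x then 1 else 0) with hgt
  have hweak : ∀ t : ℝ, 0 < t →
      (∑ v ∈ V, μ v * (if ENNReal.ofReal t < A v then ENNReal.ofReal (2 * t) else 0)) ≤
        4 * Cμ * ∫⁻ x, gt t x ∂σ := by
    intro t ht
    set W := V.filter (fun v => ENNReal.ofReal t < A v) with hW
    have ht2 : ENNReal.ofReal t = ENNReal.ofReal (t/2) + ENNReal.ofReal (t/2) := by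
      rw [← ENNReal.ofReal_add (by positivity) (by positivity)]
      congr 1; ring
    have hlow : ∀ v ∈ V, (∫⁻ x in B v, g x ∂σ) / s v ≤
        (∫⁻ x in B v, gt t x ∂σ) / s v + ENNReal.ofReal (t/2) := by
      intro v hv
      have hsv0 := hs0 v hv
      have hsv := hs v hv
      have hpt : ∀ x, g x ≤ gt t x + ENNReal.ofReal (t/2) / C0 := by
        intro x
        by_cases hx : ENNReal.ofReal t < 2 * C0 * g x
        · simp only [hgt, hx, if_true, mul_one]
          exact le_self_add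
        · simp only [hgt, hx, if_false, mul_zero, zero_add]
          rw [not_lt] at hx
          rw [ENNReal.le_div_iff_mul_le (Or.inl hC0) (Or.inl hC0')]
          have h2 : 2 * (g x * C0) ≤ 2 * ENNReal.ofReal (t/2) := by
            calc 2 * (g x * C0) = 2 * C0 * g x := by ring
              _ ≤ ENNReal.ofReal t := hx
              _ = 2 * ENNReal.ofReal (t/2) := by rw [ht2]; ring
          exact (ENNReal.mul_le_mul_iff_right (by norm_num) (by norm_num)).1 h2
      have hint : ∫⁻ x in B v, g x ∂σ ≤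
          ∫⁻ x in B v, gt t x ∂σ + ENNReal.ofReal (t/2) / C0 * σ (B v) := by
        calc ∫⁻ x in B v, g x ∂σ ≤ ∫⁻ x in B v, (gt t x + ENNReal.ofReal (t/2) / C0) ∂σ :=
              lintegral_mono hpt
          _ = _ := by
              rw [lintegral_add_right _ measurable_const, lintegral_const]
              simp
      calc (∫⁻ x in B v, g x ∂σ) / s v
          ≤ (∫⁻ x in B v, gt t x ∂σ + ENNReal.ofReal (t/2) / C0 * σ (B v)) / s v := by
            gcongr
        _ = (∫⁻ x in B v, gt t x ∂σ) / s v + ENNReal.ofReal (t/2) / C0 * σ (B v) / s v :=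
            ENNReal.add_div
        _ ≤ (∫⁻ x in B v, gt t x ∂σ) / s v +
              ENNReal.ofReal (t/2) / C0 * (C0 * s v) / s v := by
            gcongr
            exact hsize v hv
        _ = (∫⁻ x in B v, gt t x ∂σ) / s v + ENNReal.ofReal (t/2) := by
            congr 1
            rw [← mul_assoc, ENNReal.div_mul_cancel hC0 hC0',
              ENNReal.mul_div_cancel_right hsv0 hsv]
    have hWt : ∀ v ∈ W, ENNReal.ofReal (t/2) < (∫⁻ x in B v, gt t x ∂σ) / s v := by
      intro v hv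
      have hvV := Finset.mem_of_mem_filter v hv
      have h1 : ENNReal.ofReal t < A v := (Finset.mem_filter.1 hv).2
      have h2 := lt_of_lt_of_le h1 (hlow v hvV)
      rw [ht2] at h2
      exact (ENNReal.add_lt_add_iff_right ENNReal.ofReal_ne_top).1 h2
    have hw := weak σ V B hB R s μ Cμ hs0 hs pack (gt t) (ENNReal.ofReal (t/2)) W
      (Finset.filter_subset _ _) hWt
    calc (∑ v ∈ V, μ v * (if ENNReal.ofReal t < A v then ENNReal.ofReal (2 * t) else 0))
        = ∑ v ∈ W, μ v * ENNReal.ofReal (2 * t) := by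
          rw [hW, Finset.sum_filter]
          apply Finset.sum_congr rfl
          intro v _
          split_ifs <;> simp
      _ = 4 * ((∑ v ∈ W, μ v) * ENNReal.ofReal (t/2)) := by
          rw [← Finset.sum_mul]
          have : ENNReal.ofReal (2 * t) = 4 * ENNReal.ofReal (t/2) := by
            rw [show (4 : ℝ≥0∞) = ENNReal.ofReal 4 by simp,
              ← ENNReal.ofReal_mul (by norm_num)]
            congr 1; ring
          rw [this]; ring
      _ ≤ 4 * (Cμ * ∫⁻ x in ⋃ v ∈ W, B v, gt t x ∂σ) := by gcongr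
      _ ≤ 4 * (Cμ * ∫⁻ x, gt t x ∂σ) := by
          gcongr
          exact Measure.restrict_le_self
      _ = _ := by ring
  -- integrate over `t`
  have hmeas2 : Measurable (Function.uncurry gt) := by
    have hset : MeasurableSet {p : ℝ × Ω | ENNReal.ofReal p.1 < 2 * C0 * g p.2} := by
      apply measurableSet_lt
      · exact ENNReal.measurable_ofReal.comp measurable_fst
      · exact (hg.comp measurable_snd).const_mul _
    exact (hg.comp measurable_snd).mul (Measurable.ite hset measurable_const measurable_const)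
  calc ∑ v ∈ V, μ v * A v ^ 2
      ≤ ∑ v ∈ V, μ v * ∫⁻ t in Ioi (0 : ℝ),
          (if ENNReal.ofReal t < A v then ENNReal.ofReal (2 * t) else 0) := by
        gcongr with v hv
        exact sq_layer _ (hAfin v hv)
    _ ≤ ∫⁻ t in Ioi (0 : ℝ), ∑ v ∈ V, μ v *
          (if ENNReal.ofReal t < A v then ENNReal.ofReal (2 * t) else 0) := by
        rw [lintegral_finsetSum]
        · apply Finset.sum_le_sum
          intro v _
          rw [lintegral_const_mul]
          exact Measurable.ite (measurableSet_lt ENNReal.measurable_ofReal measurable_const)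
            (by fun_prop) measurable_const
        · intro v _
          apply Measurable.const_mul
          exact Measurable.ite (measurableSet_lt ENNReal.measurable_ofReal measurable_const)
            (by fun_prop) measurable_const
    _ ≤ ∫⁻ t in Ioi (0 : ℝ), 4 * Cμ * ∫⁻ x, gt t x ∂σ := by
        apply setLIntegral_mono' measurableSet_Ioi
        intro t ht
        exact hweak t ht
    _ = 4 * Cμ * ∫⁻ t in Ioi (0 : ℝ), ∫⁻ x, gt t x ∂σ := by
        rw [lintegral_const_mul]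
        exact hmeas2.lintegral_prod_right'
    _ = 4 * Cμ * ∫⁻ x, (∫⁻ t in Ioi (0 : ℝ), gt t x) ∂σ := by
        congr 1
        exact lintegral_lintegral_swap hmeas2.aemeasurable
    _ ≤ 4 * Cμ * ∫⁻ x, (2 * C0) * g x ^ 2 ∂σ := by
        gcongr with x
        simp only [hgt]
        rw [lintegral_const_mul]
        · calc g x * ∫⁻ t in Ioi (0:ℝ), (if ENNReal.ofReal t < 2 * C0 * g x then 1 else 0 : ℝ≥0∞)
              ≤ g x * (2 * C0 * g x) := by
                gcongr
                exact layer_le _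
            _ = 2 * C0 * g x ^ 2 := by ring
        · exact Measurable.ite (measurableSet_lt ENNReal.measurable_ofReal measurable_const)
            measurable_const measurable_const
    _ = 8 * C0 * Cμ * ∫⁻ x, g x ^ 2 ∂σ := by
        rw [lintegral_const_mul _ (hg.pow_const 2)]
        ring

end Pool.Agent.Lib.MP7ebef4.HLC

namespace Pool.Agent.Lib.MP7ebef4

open Classical in
/-- weak type -/
theorem hlc_weak {X V : Type*} [MeasurableSpace X] (σ : Measure X) [Fintype V] (Bs : V → Set X)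
    (hB : ∀ v, MeasurableSet (Bs v)) (W R : V → ℝ) (hW : ∀ v, 0 < W v) (μ : V → ENNReal) (Cμ : ENNReal)
    (hμ : ∀ v, ∑ v' ∈ Finset.univ.filter (fun v' => (Bs v' ∩ Bs v).Nonempty ∧ R v' ≤ R v), μ v' ≤
      Cμ * ENNReal.ofReal (W v))
    (g : X → ENNReal) (hg : Measurable g) (t : ENNReal) (ht : t ≠ 0) (ht' : t ≠ ⊤) :
    ∑ v ∈ Finset.univ.filter (fun v => t * ENNReal.ofReal (W v) < ∫⁻ x in Bs v, g x ∂σ), μ v ≤
      Cμ / t * ∫⁻ x, g x ∂σ := by
  have hs0 : ∀ v : V, ENNReal.ofReal (W v) ≠ 0 := fun v => by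
    simpa using hW v
  have key := HLC.weak σ Finset.univ Bs (fun v _ => hB v) R (fun v => ENNReal.ofReal (W v)) μ Cμ
    (fun v _ => hs0 v) (fun v _ => ENNReal.ofReal_ne_top) (by
      intro v _ T _ hT
      refine le_trans (Finset.sum_le_sum_of_subset ?_) (hμ v)
      intro v' hv'
      exact Finset.mem_filter.2 ⟨Finset.mem_univ _, (hT v' hv').2, (hT v' hv').1⟩) g t
    (Finset.univ.filter (fun v => t * ENNReal.ofReal (W v) < ∫⁻ x in Bs v, g x ∂σ))
    (Finset.filter_subset _ _) (by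
      intro v hv
      have := (Finset.mem_filter.1 hv).2
      rwa [ENNReal.lt_div_iff_mul_lt (Or.inl (hs0 v)) (Or.inl ENNReal.ofReal_ne_top)])
  calc _ = (∑ v ∈ Finset.univ.filter
          (fun v => t * ENNReal.ofReal (W v) < ∫⁻ x in Bs v, g x ∂σ), μ v) * t / t := by
        rw [ENNReal.mul_div_cancel_right ht ht']
    _ ≤ (Cμ * ∫⁻ x, g x ∂σ) / t := by
        refine ENNReal.div_le_div_right (key.trans ?_) t
        exact mul_le_mul_right (lintegral_mono' Measure.restrict_le_self le_rfl) Cμ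
    _ = Cμ / t * ∫⁻ x, g x ∂σ := by
        rw [ENNReal.mul_div_right_comm]

/-- strong type (2,2): `∑ μ_v (A_v g)² ≤ 8 C₀ Cμ ∫ g²`, `A_v g = W_v^{-1} ∫_{B_v} g` -/
theorem hlc_strong {X V : Type*} [MeasurableSpace X] (σ : Measure X) [SFinite σ] [Fintype V] (Bs : V → Set X)
    (hB : ∀ v, MeasurableSet (Bs v)) (W R : V → ℝ) (hW : ∀ v, 0 < W v) (μ : V → ENNReal) (C₀ Cμ : ENNReal)
    (hC : ∀ v, σ (Bs v) ≤ C₀ * ENNReal.ofReal (W v))
    (hμ : ∀ v, ∑ v' : V, (open Classical in if (Bs v' ∩ Bs v).Nonempty ∧ R v' ≤ R v then μ v' else 0) ≤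
      Cμ * ENNReal.ofReal (W v))
    (g : X → ENNReal) (hg : Measurable g) :
    ∑ v, μ v * ((∫⁻ x in Bs v, g x ∂σ) / ENNReal.ofReal (W v)) ^ (2:ℕ) ≤
      8 * C₀ * Cμ * ∫⁻ x, g x ^ (2:ℕ) ∂σ := by
  classical
  have hs0 : ∀ v : V, ENNReal.ofReal (W v) ≠ 0 := fun v => by
    simpa using hW v
  by_cases h1 : C₀ = 0
  · have : ∀ v : V, μ v * ((∫⁻ x in Bs v, g x ∂σ) / ENNReal.ofReal (W v)) ^ (2:ℕ) = 0 := by
      intro v
      have h2 : σ (Bs v) = 0 := by
        have := hC v
        rw [h1, zero_mul] at this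
        exact le_antisymm this zero_le
      rw [setLIntegral_measure_zero _ _ h2]
      simp
    rw [Finset.sum_congr rfl (fun v _ => this v)]
    simp
  by_cases h2 : Cμ = 0
  · have : ∀ v : V, μ v * ((∫⁻ x in Bs v, g x ∂σ) / ENNReal.ofReal (W v)) ^ (2:ℕ) = 0 := by
      intro v
      by_cases hne : (Bs v).Nonempty
      · have h3 := hμ v
        rw [h2, zero_mul] at h3
        have h4 : (if (Bs v ∩ Bs v).Nonempty ∧ R v ≤ R v then μ v else 0) = 0 := by
          have h5 := le_antisymm h3 zero_le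
          rw [Finset.sum_eq_zero_iff] at h5
          have := h5 v (Finset.mem_univ _)
          simpa using this
        rw [Set.inter_self, if_pos ⟨hne, le_rfl⟩] at h4
        rw [h4, zero_mul]
      · rw [Set.not_nonempty_iff_eq_empty.1 hne]
        simp
    rw [Finset.sum_congr rfl (fun v _ => this v)]
    simp
  by_cases h3 : ∫⁻ x, g x ^ (2:ℕ) ∂σ = 0
  · have h4 : ∀ᵐ x ∂σ, g x = 0 := by
      rw [lintegral_eq_zero_iff (hg.pow_const 2)] at h3
      filter_upwards [h3] with x hx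
      simpa using hx
    have : ∀ v : V, μ v * ((∫⁻ x in Bs v, g x ∂σ) / ENNReal.ofReal (W v)) ^ (2:ℕ) = 0 := by
      intro v
      have h5 : ∫⁻ x in Bs v, g x ∂σ = 0 := by
        rw [lintegral_congr_ae (ae_restrict_of_ae h4)]
        simp
      rw [h5]
      simp
    rw [Finset.sum_congr rfl (fun v _ => this v)]
    simp
  by_cases h4 : C₀ = ⊤
  · rw [h4, ENNReal.mul_top (by norm_num), ENNReal.top_mul h2, ENNReal.top_mul h3]
    exact le_top
  have key := HLC.strong σ Finset.univ Bs (fun v _ => hB v) R (fun v => ENNReal.ofReal (W v)) μ Cμ C₀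
    h1 h4 h2 (fun v _ => hs0 v) (fun v _ => ENNReal.ofReal_ne_top) (fun v _ => hC v) (by
      intro v _ T _ hT
      refine le_trans ?_ (hμ v)
      rw [← Finset.sum_filter]
      apply Finset.sum_le_sum_of_subset
      intro v' hv'
      exact Finset.mem_filter.2 ⟨Finset.mem_univ _, (hT v' hv').2, (hT v' hv').1⟩) g hg
  exact key

end Pool.Agent.Lib.MP7ebef4
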