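import Pool.Agent.Lib.MP_7ebef4_an.TreeBasic
import Pool.Agent.Lib.MP_7ebef4_an.HLC

/-! Carleson embedding for `H²` functions at the points of a block. -/

set_option autoImplicit false

open MeasureTheory Set

namespace Pool.Agent.Lib.MP7ebef4

noncomputable section

variable {n : ℕ}

/-- on the closed ball the radial maximal function agrees with a measurable function -/
theorem exists_measurable_rmax (h : E n → ℂ) (hd : DifferentiableOn ℂ h (B n)) :
    ∃ g : E n → ENNReal, Measurable g ∧ ∀ ζ : E n, ‖ζ‖ ≤ 1 → g ζ = rmax h ζ := by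
  have hBo : IsOpen (B n) := Metric.isOpen_ball
  set F : E n → ENNReal := (B n).indicator (fun z => ‖h z‖ₑ) with hF
  have hlsc : LowerSemicontinuous F := by
    intro z y hy
    by_cases hz : z ∈ B n
    · rw [hF, indicator_of_mem hz] at hy
      have hc : ContinuousAt (fun z => ‖h z‖ₑ) z :=
        ((hd.continuousOn.continuousAt (hBo.mem_nhds hz))).enorm
      filter_upwards [hc.eventually (lt_mem_nhds hy), hBo.mem_nhds hz] with x hx1 hx2
      rw [hF, indicator_of_mem hx2]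
      exact hx1
    · rw [hF, indicator_of_notMem hz] at hy
      exact absurd hy not_lt_bot
  refine ⟨fun ζ => ⨆ r ∈ Ico (0:ℝ) 1, F (r • ζ), ?_, ?_⟩
  · refine LowerSemicontinuous.measurable ?_
    refine lowerSemicontinuous_biSup (fun r _ => ?_)
    exact LowerSemicontinuous.comp hlsc (continuous_const_smul r)
  · intro ζ hζ
    unfold rmax
    refine biSup_congr (fun r hr => ?_)
    rw [hF, indicator_of_mem]
    rw [mem_B, norm_smul, Real.norm_of_nonneg hr.1]
    have := norm_nonneg ζ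
    nlinarith [hr.1, hr.2]

/-- Carleson embedding; the facts about the cone measure and the maximal function are
hypotheses. -/
theorem carleson_embed_of (n : ℕ) (_hn : 0 < n) (cT : ℝ) (hc : 0 < cT)
    (hsph : sig n (Sph n)ᶜ = 0)
    (hball : ∃ C : ℝ, 0 < C ∧ ∀ (η : E n) (t : ℝ), ‖η‖ ≤ 1 → 0 < t →
      sig n {ζ | ‖ζ‖ = 1 ∧ d ζ η ≤ t} ≤ ENNReal.ofReal (C * t ^ n))
    (hsub : ∃ C : ℝ, 0 < C ∧
      ∀ h : E n → ℂ, DifferentiableOn ℂ h (B n) → ∀ w ∈ B n,
      ‖h w‖ₑ ^ (1:ℝ) ≤ ENNReal.ofReal (C * (dl w ^ n)⁻¹) *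
        ∫⁻ ζ in {ζ | rho ζ w ≤ C * Real.sqrt (dl w)}, (rmax h ζ) ^ (1:ℝ) ∂(sig n))
    (hL2 : ∃ C : ℝ, 0 < C ∧ ∀ h : E n → ℂ, DifferentiableOn ℂ h (B n) →
      ∫⁻ ζ, (rmax h ζ) ^ (2:ℕ) ∂(sig n) ≤ ENNReal.ofReal C * H2 h) :
    ∃ C : ℝ, 0 < C ∧
    ∀ (L N₀ : ℕ) (T : Tree n cT) (resp : T.ι → T.ι) (eb : ℝ) (b : T.ι → Fin N₀),
      IsBlock T resp L N₀ eb b → ∀ (b₀ : Fin N₀) (V : Finset T.ι),
      (∀ v ∈ V, resp v = v ∧ b v = b₀ ∧ L < T.lev v) →
      ∀ h : E n → ℂ, DifferentiableOn ℂ h (B n) →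
      ∑ v ∈ V, ENNReal.ofReal (T.vol v) *
        ‖h (((1 - 64 ^ L * T.h v : ℝ)) • T.pt v)‖ₑ ^ (2:ℕ) ≤
      ENNReal.ofReal (C * eb) * H2 h := by
  classical
  obtain ⟨C1, hC1, hsub⟩ := hsub
  obtain ⟨C2, hC2, hball⟩ := hball
  obtain ⟨C3, hC3, hL2⟩ := hL2
  set Kd : ℝ := 2 * C1 ^ 2 with hKd
  set C0 : ℝ := C2 * Kd ^ n with hC0
  set K2 : ℝ := (2 + 3 * C1) ^ 2 with hK2
  have hK2pos : 1 ≤ K2 := by rw [hK2]; nlinarith
  refine ⟨C1 ^ 2 * (8 * C0 * (K2 ^ n)) * C3, by positivity, ?_⟩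
  intro L N₀ T resp eb b hblock b₀ V hV g hg
  have hsph' : ∀ᵐ ζ ∂(sig n), ζ ∈ Sph n := by
    rw [ae_iff]; exact hsph
  -- heights
  set hp : T.ι → ℝ := fun v => 64 ^ L * T.h v with hhp
  have hp_pos : ∀ v, 0 < hp v := fun v => mul_pos (by positivity) (T.h_pos v)
  have hp_le : ∀ v ∈ V, hp v ≤ 1 := by
    intro v hv
    have h1 := (hV v hv).2.2
    have h2 : T.h v ≤ hh L := hh_anti h1.le
    have h3 : hh L = (64 ^ L)⁻¹ := by unfold hh; rw [one_div, inv_pow]
    have h4 : (64:ℝ) ^ L * hh L = 1 := by rw [h3]; exact mul_inv_cancel₀ (by positivity)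
    calc hp v ≤ 64 ^ L * hh L := mul_le_mul_of_nonneg_left h2 (by positivity)
      _ = 1 := h4
  set a' : T.ι → E n := fun v => ((1 - hp v : ℝ)) • T.pt v with ha'
  have ha'B : ∀ v ∈ V, a' v ∈ B n := fun v hv => rad_mem_B (T.norm_pt v) (hp_pos v) (hp_le v hv)
  have hdl1 : ∀ v ∈ V, hp v ≤ dl (a' v) := by
    intro v hv
    have h1 := norm_rad (T.norm_pt v) (hp_pos v).le (hp_le v hv)
    have : dl (a' v) = 1 - (1 - hp v) ^ 2 := by unfold dl; rw [ha', h1]
    rw [this]
    nlinarith [hp_pos v, hp_le v hv]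
  have hdl2 : ∀ v ∈ V, dl (a' v) ≤ 2 * hp v := by
    intro v hv
    have h1 := norm_rad (T.norm_pt v) (hp_pos v).le (hp_le v hv)
    have : dl (a' v) = 1 - (1 - hp v) ^ 2 := by unfold dl; rw [ha', h1]
    rw [this]
    nlinarith [hp_pos v, hp_le v hv]
  set Bs : T.ι → Set (E n) := fun v => {ζ | ‖ζ‖ = 1 ∧ d ζ (a' v) ≤ Kd * hp v} with hBs
  have hdc : ∀ v, Continuous (fun z : E n => d z (a' v)) := by
    intro v; unfold d q; fun_prop
  have hBm : ∀ v, MeasurableSet (Bs v) := fun v =>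
    ((isClosed_eq continuous_norm continuous_const).inter
      (isClosed_le (hdc v) continuous_const)).measurableSet
  obtain ⟨gm, hgm, hgm2⟩ := exists_measurable_rmax g hg
  -- pointwise estimate
  have hpt : ∀ v ∈ V, ‖g (a' v)‖ₑ ≤ ENNReal.ofReal C1 *
      ((∫⁻ ζ in Bs v, gm ζ ∂(sig n)) / ENNReal.ofReal (hp v ^ n)) := by
    intro v hv
    have h1 := hsub g hg (a' v) (ha'B v hv)
    rw [ENNReal.rpow_one] at h1
    refine h1.trans ?_
    have h2 : ENNReal.ofReal (C1 * (dl (a' v) ^ n)⁻¹) ≤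
        ENNReal.ofReal C1 * (ENNReal.ofReal (hp v ^ n))⁻¹ := by
      rw [← ENNReal.ofReal_inv_of_pos (pow_pos (hp_pos v) n), ← ENNReal.ofReal_mul hC1.le]
      refine ENNReal.ofReal_le_ofReal (mul_le_mul_of_nonneg_left ?_ hC1.le)
      exact inv_anti₀ (pow_pos (hp_pos v) n) (pow_le_pow_left₀ (hp_pos v).le (hdl1 v hv) n)
    have h3 : ∫⁻ ζ in {ζ | rho ζ (a' v) ≤ C1 * Real.sqrt (dl (a' v))}, (rmax g ζ) ^ (1:ℝ) ∂(sig n)
        ≤ ∫⁻ ζ in Bs v, gm ζ ∂(sig n) := by
      have hrm : MeasurableSet {ζ : E n | rho ζ (a' v) ≤ C1 * Real.sqrt (dl (a' v))} := by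
        refine (isClosed_le ?_ continuous_const).measurableSet
        unfold rho; exact (hdc v).sqrt
      rw [← lintegral_indicator hrm, ← lintegral_indicator (hBm v)]
      refine lintegral_mono_ae ?_
      filter_upwards [hsph'] with ζ hζ
      have hζ1 : ‖ζ‖ = 1 := by simpa [Sph] using hζ
      by_cases hm : ζ ∈ {ζ : E n | rho ζ (a' v) ≤ C1 * Real.sqrt (dl (a' v))}
      · have hm2 : ζ ∈ Bs v := by
          refine ⟨hζ1, ?_⟩
          rw [← rho_sq]
          have h4 : rho ζ (a' v) ≤ C1 * Real.sqrt (dl (a' v)) := hm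
          have h5 : rho ζ (a' v) ^ 2 ≤ (C1 * Real.sqrt (dl (a' v))) ^ 2 :=
            pow_le_pow_left₀ (rho_nonneg _ _) h4 2
          rw [mul_pow, Real.sq_sqrt (dl_pos (ha'B v hv)).le] at h5
          have h6 := hdl2 v hv
          have h7 : C1 ^ 2 * dl (a' v) ≤ C1 ^ 2 * (2 * hp v) :=
            mul_le_mul_of_nonneg_left h6 (by positivity)
          rw [hKd]; linarith
        rw [indicator_of_mem hm, indicator_of_mem hm2, ENNReal.rpow_one, hgm2 ζ hζ1.le]
      · rw [indicator_of_notMem hm]; exact bot_le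
    calc ENNReal.ofReal (C1 * (dl (a' v) ^ n)⁻¹) *
        ∫⁻ ζ in {ζ | rho ζ (a' v) ≤ C1 * Real.sqrt (dl (a' v))}, (rmax g ζ) ^ (1:ℝ) ∂(sig n)
        ≤ (ENNReal.ofReal C1 * (ENNReal.ofReal (hp v ^ n))⁻¹) * ∫⁻ ζ in Bs v, gm ζ ∂(sig n) :=
          mul_le_mul' h2 h3
      _ = _ := by rw [div_eq_mul_inv]; ring
  rcases V.eq_empty_or_nonempty with hVe | ⟨v0, hv0⟩
  · subst hVe; simp
  -- positivity of `eb`
  have hebpos : 0 < eb := by
    have h1 := hblock.gap b₀ (T.pt v0) (hp v0) {v0} (T.norm_pt v0).le (hp_pos v0) (by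
      intro v hv
      rw [Finset.mem_singleton] at hv
      subst hv
      refine ⟨(hV v hv0).1, (hV v hv0).2.1, le_rfl, ?_⟩
      have : d (T.pt v) (T.pt v) = 0 := by
        unfold d; rw [q_self]; unfold dl; rw [T.norm_pt]; simp
      rw [this]; exact (hp_pos v).le)
    rw [Finset.sum_singleton] at h1
    have h2 := T.vol_pos v0 hc
    by_contra hcon
    have h3 : eb * hp v0 ^ n ≤ 0 := mul_nonpos_of_nonpos_of_nonneg (not_lt.mp hcon)
      (pow_nonneg (hp_pos v0).le n)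
    linarith
  have hC0pos : 0 < C0 := by positivity
  have hK2n : 0 < K2 ^ n := by positivity
  have hstrong := HLC.strong (sig n) V Bs (fun v _ => hBm v) hp (fun v => ENNReal.ofReal (hp v ^ n))
    (fun v => ENNReal.ofReal (T.vol v)) (ENNReal.ofReal (eb * K2 ^ n)) (ENNReal.ofReal C0)
    (by simpa using hC0pos) ENNReal.ofReal_ne_top (by simpa using mul_pos hebpos hK2n)
    (fun v _ => by simpa using pow_pos (hp_pos v) n) (fun v _ => ENNReal.ofReal_ne_top)
    (by
      intro v hv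
      have h1 := hball (a' v) (Kd * hp v) (mem_B.mp (ha'B v hv)).le
        (mul_pos (by positivity) (hp_pos v))
      refine h1.trans (le_of_eq ?_)
      rw [← ENNReal.ofReal_mul hC0pos.le]
      congr 1
      rw [hC0, mul_pow]; ring)
    (by
      intro v hv S hS hS2
      rw [← ENNReal.ofReal_sum_of_nonneg (fun _ _ => T.vol_nonneg _),
        ← ENNReal.ofReal_mul (by positivity)]
      refine ENNReal.ofReal_le_ofReal ?_
      have h1 := hblock.gap b₀ (T.pt v) (K2 * hp v) S (T.norm_pt v).le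
        (mul_pos (by positivity) (hp_pos v)) (by
          intro v' hv'
          have hv'V := hS hv'
          obtain ⟨hR, ζ, hζ1, hζ2⟩ := hS2 v' hv'
          have hle : hp v' ≤ hp v := hR
          refine ⟨(hV v' hv'V).1, (hV v' hv'V).2.1, ?_, ?_⟩
          · have h2 : hp v ≤ K2 * hp v := le_mul_of_one_le_left (hp_pos v).le hK2pos
            exact hle.trans h2
          · -- triangle inequalities
            have hζn : ‖ζ‖ ≤ 1 := hζ1.1.le
            have e1 : rho ζ (a' v') ≤ 3 / 2 * C1 * Real.sqrt (hp v) := by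
              have h2 : d ζ (a' v') ≤ Kd * hp v := hζ1.2.trans
                (mul_le_mul_of_nonneg_left hle (by positivity))
              unfold rho
              refine Real.sqrt_le_iff.mpr ⟨by positivity, h2.trans ?_⟩
              rw [mul_pow, Real.sq_sqrt (hp_pos v).le, hKd]
              nlinarith [hp_pos v, sq_nonneg C1, mul_pos (pow_pos hC1 2) (hp_pos v)]
            have e2 : rho ζ (a' v) ≤ 3 / 2 * C1 * Real.sqrt (hp v) := by
              have h2 : d ζ (a' v) ≤ Kd * hp v := hζ2.2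
              unfold rho
              refine Real.sqrt_le_iff.mpr ⟨by positivity, h2.trans ?_⟩
              rw [mul_pow, Real.sq_sqrt (hp_pos v).le, hKd]
              nlinarith [hp_pos v, sq_nonneg C1, mul_pos (pow_pos hC1 2) (hp_pos v)]
            have e3 : rho (T.pt v) (a' v) ≤ Real.sqrt (hp v) := by
              rw [rho_comm]
              unfold rho
              rw [ha', d_rad_self (T.norm_pt v) (hp_pos v).le]
            have e4 : rho (a' v') (T.pt v') ≤ Real.sqrt (hp v) := by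
              unfold rho
              rw [ha', d_rad_self (T.norm_pt v') (hp_pos v').le]
              exact Real.sqrt_le_sqrt hle
            have hav := (mem_B.mp (ha'B v hv)).le
            have hav' := (mem_B.mp (ha'B v' hv'V)).le
            have t1 := rho_tri (T.pt v) (a' v) ζ (T.norm_pt v).le hav hζn
            have t2 := rho_tri (T.pt v) ζ (a' v') (T.norm_pt v).le hζn hav'
            have t3 := rho_tri (T.pt v) (a' v') (T.pt v') (T.norm_pt v).le hav' (T.norm_pt v').le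
            rw [rho_comm (a' v) ζ] at t1
            have t4 : rho (T.pt v) (T.pt v') ≤ (2 + 3 * C1) * Real.sqrt (hp v) := by linarith
            rw [← rho_sq, hK2]
            have t5 := pow_le_pow_left₀ (rho_nonneg _ _) t4 2
            rwa [mul_pow, Real.sq_sqrt (hp_pos v).le] at t5)
      refine h1.trans (le_of_eq ?_)
      rw [mul_pow]; ring)
    gm hgm
  have hL2' : ∫⁻ ζ, gm ζ ^ 2 ∂(sig n) ≤ ENNReal.ofReal C3 * H2 g := by
    refine le_trans (le_of_eq ?_) (hL2 g hg)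
    refine lintegral_congr_ae ?_
    filter_upwards [hsph'] with ζ hζ
    have hζ1 : ‖ζ‖ = 1 := by simpa [Sph] using hζ
    rw [hgm2 ζ hζ1.le]
  calc ∑ v ∈ V, ENNReal.ofReal (T.vol v) * ‖g (a' v)‖ₑ ^ (2:ℕ)
      ≤ ∑ v ∈ V, ENNReal.ofReal (C1 ^ 2) * (ENNReal.ofReal (T.vol v) *
          ((∫⁻ ζ in Bs v, gm ζ ∂(sig n)) / ENNReal.ofReal (hp v ^ n)) ^ 2) := by
        refine Finset.sum_le_sum (fun v hv => ?_)
        have h1 := pow_le_pow_left₀ (bot_le) (hpt v hv) 2
        rw [mul_pow, ← ENNReal.ofReal_pow hC1.le] at h1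
        calc ENNReal.ofReal (T.vol v) * ‖g (a' v)‖ₑ ^ (2:ℕ)
            ≤ ENNReal.ofReal (T.vol v) * (ENNReal.ofReal (C1 ^ 2) *
              ((∫⁻ ζ in Bs v, gm ζ ∂(sig n)) / ENNReal.ofReal (hp v ^ n)) ^ 2) :=
              mul_le_mul_right h1 _
          _ = _ := by ring
    _ = ENNReal.ofReal (C1 ^ 2) * ∑ v ∈ V, ENNReal.ofReal (T.vol v) *
          ((∫⁻ ζ in Bs v, gm ζ ∂(sig n)) / ENNReal.ofReal (hp v ^ n)) ^ 2 := by
        rw [Finset.mul_sum]
    _ ≤ ENNReal.ofReal (C1 ^ 2) * (8 * ENNReal.ofReal C0 * ENNReal.ofReal (eb * K2 ^ n) *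
          (ENNReal.ofReal C3 * H2 g)) := by
        refine mul_le_mul_right (hstrong.trans (mul_le_mul_right hL2' _)) _
    _ = ENNReal.ofReal (C1 ^ 2 * (8 * C0 * (K2 ^ n)) * C3 * eb) * H2 g := by
        have h8 : (8 : ENNReal) = ENNReal.ofReal 8 := by norm_num
        rw [h8, ← ENNReal.ofReal_mul (by norm_num), ← ENNReal.ofReal_mul (by positivity),
          ← mul_assoc, ← mul_assoc, ← ENNReal.ofReal_mul (by positivity),
          ← ENNReal.ofReal_mul (by positivity)]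
        congr 2
        ring

end

end Pool.Agent.Lib.MP7ebef4
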