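import Pool.Agent.Lib.MP_7ebef4_an.ErrBC2

/-! Error class (A): pumps much coarser than the responsible one. -/

set_option autoImplicit false

open MeasureTheory Set

namespace Pool.Agent.Lib.MP7ebef4

noncomputable section

variable {n : ℕ}

namespace Sys

variable {cT C K : ℝ} (S : Sys n cT C K)

open Classical in
def clA (w : E n) : Finset S.T.ι :=
  Finset.univ.filter (fun v => S.resp v = v ∧ S.T.lev v + S.L < S.T.lev (S.vw w))

def ErrA (w z : E n) : ℂ := ∑ v ∈ S.clA w, S.term w z v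

/-- smallness factor `64^{-L/4}` -/
def kL : ℝ := ((1/64 : ℝ) ^ S.L) ^ (1/4 : ℝ)

theorem kL_nonneg : 0 ≤ S.kL := by unfold kL; positivity

theorem d_pt_le_d_a (x y : S.T.ι) : d (S.T.pt x) (S.T.pt y) ≤ 16 * d (S.T.a x) (S.T.a y) := by
  have h1 := S.T.rho_pt_le y (S.T.pt x) (S.T.norm_pt x).le
  have h2 := S.T.rho_pt_le x (S.T.a y) (S.T.norm_a_le y)
  rw [rho_comm (S.T.pt x) (S.T.a y)] at h1
  rw [rho_comm (S.T.a y) (S.T.a x)] at h2
  rw [← rho_sq, ← rho_sq (S.T.a x)]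
  have := rho_nonneg (S.T.pt x) (S.T.pt y)
  have := rho_nonneg (S.T.a x) (S.T.a y)
  nlinarith

theorem c_kk_le {v v' : S.T.ι} (hl : S.T.lev v ≤ S.T.lev v') :
    S.c v * ‖kk S.T v (S.T.a v')‖ ≤ C * 18 ^ n * S.c v' * (S.T.h v / d (S.T.a v') (S.T.a v)) ^ (sE n - n) := by
  have h1 := S.hc.reg v v'
  have hh := S.T.h_pos v
  have hd := S.T.d_a_pos v (S.T.norm_a_le v')
  have hhd := S.T.h_le_d v (S.T.a v') (S.T.norm_a_le v')
  have h2 := S.d_pt_le_d_a v v'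
  rw [d_comm (S.T.a v) (S.T.a v')] at h2
  have hh' : S.T.h v' ≤ S.T.h v := hh_anti hl
  set Δ := d (S.T.a v') (S.T.a v) with hΔ
  set ρ := S.T.h v / Δ with hρ
  have hρ0 : 0 < ρ := div_pos hh hd
  have h3 : ((S.T.h v + S.T.h v' + d (S.T.pt v) (S.T.pt v')) / S.T.h v) ^ n ≤ (18 * ρ⁻¹) ^ n := by
    apply pow_le_pow_left₀
    · apply div_nonneg _ hh.le
      have := S.T.h_pos v'
      have := d_nonneg (S.T.pt v) (S.T.pt v')
      linarith
    · rw [hρ, inv_div, ← mul_div_assoc]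
      apply div_le_div_of_nonneg_right _ hh.le
      linarith
  have hC := S.hC
  have hcv' := (S.c_pos v').le
  have h4 : S.c v ≤ C * (18 * ρ⁻¹) ^ n * S.c v' := by
    refine h1.trans ?_
    gcongr
  rw [S.T.norm_kk, ← hΔ, ← hρ]
  have g3 : ρ⁻¹ ^ n * ρ ^ (sE n) = ρ ^ (sE n - n) := by
    have : sE n = n + (sE n - n) := by unfold sE; omega
    conv_lhs => rw [this, pow_add]
    rw [inv_pow]
    have : ρ ^ n ≠ 0 := pow_ne_zero _ hρ0.ne'
    field_simp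
  calc S.c v * ρ ^ (sE n) ≤ (C * (18 * ρ⁻¹) ^ n * S.c v') * ρ ^ (sE n) :=
        mul_le_mul_of_nonneg_right h4 (pow_nonneg hρ0.le _)
    _ = C * 18 ^ n * S.c v' * (ρ⁻¹ ^ n * ρ ^ (sE n)) := by rw [mul_pow]; ring
    _ = _ := by rw [g3]

theorem sum_A (A : ℝ) (hNS : NodeSum n cT ((sE n - n : ℕ) - 1/4) ((sE n - n : ℕ)) A) (v' : S.T.ι)
    (V : Finset S.T.ι) (hV : ∀ v ∈ V, S.T.lev v + S.L < S.T.lev v') :
    ∑ v ∈ V, Real.sqrt (S.T.h v' / S.T.h v) * (S.T.h v / d (S.T.a v') (S.T.a v)) ^ (sE n - n) ≤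
      A * S.kL := by
  have h1 := hNS S.T (S.T.a v') (S.T.a_mem v')
  have hhv' := S.T.h_pos v'
  have hdl := S.T.dl_a_lower v'
  have hdlp := dl_pos (S.T.a_mem v')
  have key : ∀ v ∈ V, Real.sqrt (S.T.h v' / S.T.h v) * (S.T.h v / d (S.T.a v') (S.T.a v)) ^ (sE n - n) ≤
      S.kL * S.T.h v' ^ (1/4:ℝ) *
        (S.T.h v ^ ((sE n - n : ℕ) - 1/4 : ℝ) * d (S.T.a v') (S.T.a v) ^ (-((sE n - n : ℕ) : ℝ))) := by
    intro v hv
    have hhv := S.T.h_pos v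
    have hd := S.T.d_a_pos v (S.T.norm_a_le v')
    have hl := hV v hv
    have h2 : S.T.h v' / S.T.h v ≤ (1/64:ℝ) ^ S.L := by
      rw [div_le_iff₀ hhv]
      have h3 : S.T.h v' ≤ hh (S.T.lev v + S.L) := hh_anti (by omega)
      rw [hh_add] at h3
      rw [mul_comm]; exact h3
    have h0 : 0 < S.T.h v' / S.T.h v := div_pos hhv' hhv
    have h3 : Real.sqrt (S.T.h v' / S.T.h v) ≤ S.kL * (S.T.h v' / S.T.h v) ^ (1/4:ℝ) := by
      rw [Real.sqrt_eq_rpow, show (1/2:ℝ) = 1/4 + 1/4 by norm_num, Real.rpow_add h0]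
      apply mul_le_mul_of_nonneg_right _ (by positivity)
      exact Real.rpow_le_rpow h0.le h2 (by norm_num)
    have e1 : (S.T.h v / d (S.T.a v') (S.T.a v)) ^ (sE n - n) =
        S.T.h v ^ ((sE n - n : ℕ) : ℝ) * d (S.T.a v') (S.T.a v) ^ (-((sE n - n : ℕ) : ℝ)) := by
      rw [div_pow, Real.rpow_neg hd.le, Real.rpow_natCast, Real.rpow_natCast, div_eq_mul_inv]
    have e2 : (S.T.h v' / S.T.h v) ^ (1/4:ℝ) * S.T.h v ^ ((sE n - n : ℕ) : ℝ) =
        S.T.h v' ^ (1/4:ℝ) * S.T.h v ^ ((sE n - n : ℕ) - 1/4 : ℝ) := by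
      rw [Real.div_rpow hhv'.le hhv.le, Real.rpow_sub hhv]
      field_simp
    calc Real.sqrt (S.T.h v' / S.T.h v) * (S.T.h v / d (S.T.a v') (S.T.a v)) ^ (sE n - n)
        ≤ (S.kL * (S.T.h v' / S.T.h v) ^ (1/4:ℝ)) * (S.T.h v / d (S.T.a v') (S.T.a v)) ^ (sE n - n) := by
          apply mul_le_mul_of_nonneg_right h3
          exact pow_nonneg (div_nonneg hhv.le hd.le) _
      _ = S.kL * ((S.T.h v' / S.T.h v) ^ (1/4:ℝ) * S.T.h v ^ ((sE n - n : ℕ) : ℝ)) *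
          d (S.T.a v') (S.T.a v) ^ (-((sE n - n : ℕ) : ℝ)) := by rw [e1]; ring
      _ = _ := by rw [e2]; ring
  have hnn : ∀ v : S.T.ι, 0 ≤ (S.T.h v ^ ((sE n - n : ℕ) - 1/4 : ℝ) *
      d (S.T.a v') (S.T.a v) ^ (-((sE n - n : ℕ) : ℝ))) := by
    intro v
    have hh := S.T.h_pos v
    have hd := S.T.d_a_pos v (S.T.norm_a_le v')
    positivity
  have hk := S.kL_nonneg
  calc ∑ v ∈ V, Real.sqrt (S.T.h v' / S.T.h v) * (S.T.h v / d (S.T.a v') (S.T.a v)) ^ (sE n - n)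
      ≤ ∑ v ∈ V, S.kL * S.T.h v' ^ (1/4:ℝ) *
        (S.T.h v ^ ((sE n - n : ℕ) - 1/4 : ℝ) * d (S.T.a v') (S.T.a v) ^ (-((sE n - n : ℕ) : ℝ))) :=
        Finset.sum_le_sum key
    _ = S.kL * S.T.h v' ^ (1/4:ℝ) * ∑ v ∈ V,
        (S.T.h v ^ ((sE n - n : ℕ) - 1/4 : ℝ) * d (S.T.a v') (S.T.a v) ^ (-((sE n - n : ℕ) : ℝ))) := by
        rw [Finset.mul_sum]
    _ ≤ S.kL * S.T.h v' ^ (1/4:ℝ) * (A * dl (S.T.a v') ^ ((((sE n - n : ℕ) : ℝ) - 1/4) - ((sE n - n : ℕ) : ℝ))) := by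
        apply mul_le_mul_of_nonneg_left _ (by positivity)
        exact (Finset.sum_le_sum_of_subset_of_nonneg (Finset.subset_univ V) (fun v _ _ => hnn v)).trans h1
    _ ≤ A * S.kL := by
        have hA : 0 ≤ A := by
          have h5 : 0 ≤ A * dl (S.T.a v') ^ ((((sE n - n : ℕ) : ℝ) - 1/4) - ((sE n - n : ℕ) : ℝ)) :=
            (Finset.sum_nonneg (fun v _ => hnn v)).trans h1
          have h6 : 0 < dl (S.T.a v') ^ ((((sE n - n : ℕ) : ℝ) - 1/4) - ((sE n - n : ℕ) : ℝ)) := by positivity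
          exact nonneg_of_mul_nonneg_left h5 h6
        have e3 : ((((sE n - n : ℕ) : ℝ) - 1/4) - ((sE n - n : ℕ) : ℝ)) = -(1/4) := by ring
        rw [e3]
        have h7 : S.T.h v' ^ (1/4:ℝ) * dl (S.T.a v') ^ (-(1/4) : ℝ) ≤ 1 := by
          rw [Real.rpow_neg hdlp.le, ← div_eq_mul_inv, div_le_one (by positivity)]
          exact Real.rpow_le_rpow hhv'.le hdl (by norm_num)
        calc S.kL * S.T.h v' ^ (1/4:ℝ) * (A * dl (S.T.a v') ^ (-(1/4):ℝ))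
            = A * S.kL * (S.T.h v' ^ (1/4:ℝ) * dl (S.T.a v') ^ (-(1/4):ℝ)) := by ring
          _ ≤ A * S.kL * 1 := mul_le_mul_of_nonneg_left h7 (mul_nonneg hA hk)
          _ = _ := by ring

/-- constant of (A) -/
def CA (n : ℕ) (C K : ℝ) : ℝ :=
  C0 n * C6 n C K * (C * 18 ^ n) * (((NE n + 164 * sE n) * (12 * (sE n + 1) * 2 ^ (sE n)) * 326 * 328 ^ (sE n)) +
    sE n * 656 ^ (sE n)) * 2 ^ (3 * sE n)

theorem ErrA_eq (w z : E n) : S.ErrA w z = (dl z : ℂ) * S.Phi w z *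
    (((NE n : ℂ) / q z w - (sE n : ℂ) / q z (S.T.a (S.vw w))) *
      (∑ v ∈ S.clA w, (S.c v : ℂ) * S.inn w v * (kk S.T v z - kk S.T v (S.T.a (S.vw w)))) +
      ∑ v ∈ S.clA w, (S.c v : ℂ) * S.inn w v * kk S.T v z * ((sE n : ℂ) / q z (S.T.a v))) := by
  have h0 : ∑ v ∈ S.clA w, (S.c v : ℂ) * S.inn w v * kk S.T v (S.T.a (S.vw w)) = 0 := by
    have := S.hu.coarse (S.vw w) (S.resp_vw w)
    rw [← this]
    unfold clA
    apply Finset.sum_congr _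
    · intro v _; unfold inn; ring
    · rfl
  have h1 : ∑ v ∈ S.clA w, (S.c v : ℂ) * S.inn w v * (kk S.T v z - kk S.T v (S.T.a (S.vw w))) =
      ∑ v ∈ S.clA w, (S.c v : ℂ) * S.inn w v * kk S.T v z := by
    simp only [mul_sub]
    rw [Finset.sum_sub_distrib, h0, sub_zero]
  rw [h1, Finset.mul_sum, ← Finset.sum_add_distrib, Finset.mul_sum]
  unfold ErrA
  apply Finset.sum_congr rfl
  intro v _
  unfold term fac
  ring

theorem ErrA_le (A : ℝ) (hNS : NodeSum n cT ((sE n - n : ℕ) - 1/4) ((sE n - n : ℕ)) A) {w z : E n}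
    (hw : w ∈ B n) (hz : z ∈ B n) :
    S.c (S.vw w) * ‖S.ErrA w z‖ ≤ CA n C K * (A * S.kL) * S.c (S.vw z) * Qk 1 z w := by
  have hz1 := (mem_B.1 hz).le
  have hw1 := (mem_B.1 hw).le
  have hD := d_pos hz hw1
  have hdw := dl_pos hw
  have hdz := dl_pos hz
  set v' := S.vw w with hv'
  have hcw := S.c_pos v'
  have hcz := S.c_pos (S.vw z)
  have hanc : S.T.le (S.T.loc w) v' := S.vw_anc w
  have hhv' := S.T.h_pos v'
  have hta' := S.T.d_a_pos v' hz1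
  set D := d z w with hDdef
  set y := dl w / D with hy
  have hy0 : 0 < y := div_pos hdw hD
  have hy2 : y ≤ 2 := ratio_le_two hz hw1
  have hyinv : D / dl w = y⁻¹ := by rw [hy, inv_div]
  have hyi : 1/2 ≤ y⁻¹ := by rw [one_div]; exact inv_anti₀ hy0 hy2
  have hdlw : dl w ≤ S.T.h v' := S.T.dl_le_h_anc hw hanc
  have ht : d z (S.T.a v') / S.T.h v' ≤ 326 * y⁻¹ := by
    rw [← hyinv]; exact S.T.d_anc_ratio hw hz hanc
  have hC := S.hC
  have hC6 := S.C6_nonneg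
  -- per pump estimates
  have P : ∀ v ∈ S.clA w,
      S.c v * ‖kk S.T v z - kk S.T v (S.T.a v')‖ ≤
        (12 * (sE n + 1) * 2 ^ (sE n)) * 326 * 328 ^ (sE n) * y⁻¹ ^ (sE n + 1) * (C * 18 ^ n) * S.c v' *
        (Real.sqrt (S.T.h v' / S.T.h v) * (S.T.h v / d (S.T.a v') (S.T.a v)) ^ (sE n - n)) ∧
      S.c v * (‖kk S.T v z‖ * (sE n / d z (S.T.a v))) ≤
        sE n * 656 ^ (sE n) * (D⁻¹ * y⁻¹ ^ (sE n + 1)) * (C * 18 ^ n) * S.c v' *
        (Real.sqrt (S.T.h v' / S.T.h v) * (S.T.h v / d (S.T.a v') (S.T.a v)) ^ (sE n - n)) := by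
    intro v hv
    unfold clA at hv
    rw [Finset.mem_filter] at hv
    obtain ⟨_, hrv, hl⟩ := hv
    rw [← hv'] at hl
    have hh := S.T.h_pos v
    have hhle : S.T.h v' ≤ S.T.h v := hh_anti (by omega)
    have hck := S.c_kk_le (v := v) (v' := v') (by omega)
    set θ := Real.sqrt (S.T.h v' / S.T.h v) with hθ
    set X := (S.T.h v / d (S.T.a v') (S.T.a v)) ^ (sE n - n) with hX
    have hX0 : 0 ≤ X := pow_nonneg (S.T.ratio_a_pos v (S.T.norm_a_le v')).le _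
    have hθ0 : 0 ≤ θ := Real.sqrt_nonneg _
    have hq0 : 0 ≤ S.T.h v' / S.T.h v := div_nonneg hhv'.le hh.le
    have hq1 : S.T.h v' / S.T.h v ≤ 1 := by rw [div_le_one hh]; exact hhle
    have hθ1 : θ ≤ 1 := by rw [hθ]; exact Real.sqrt_le_one.2 hq1
    have hθsq : θ ^ 2 = S.T.h v' / S.T.h v := Real.sq_sqrt hq0
    set t := d z (S.T.a v') with htdef
    have ht0 : 0 ≤ t := d_nonneg _ _
    have e1 : t / S.T.h v = (t / S.T.h v') * (S.T.h v' / S.T.h v) := by field_simp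
    have h326 : 1 ≤ 326 * y⁻¹ := by linarith
    have b1 : t / S.T.h v ≤ 326 * y⁻¹ := by
      rw [e1]
      calc (t / S.T.h v') * (S.T.h v' / S.T.h v) ≤ (326 * y⁻¹) * 1 :=
            mul_le_mul ht hq1 hq0 (by positivity)
        _ = _ := by ring
    have b2 : Real.sqrt (t / S.T.h v) ≤ 326 * y⁻¹ * θ := by
      rw [e1, Real.sqrt_mul (div_nonneg ht0 hhv'.le)]
      apply mul_le_mul_of_nonneg_right _ hθ0
      have h5 : Real.sqrt (t / S.T.h v') ≤ Real.sqrt ((326 * y⁻¹)^2) :=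
        Real.sqrt_le_sqrt (ht.trans (by nlinarith))
      rwa [Real.sqrt_sq (by positivity)] at h5
    have b3 : 1 + t / S.T.h v ≤ 328 * y⁻¹ := by linarith
    have b0 : 0 ≤ t / S.T.h v := div_nonneg ht0 hh.le
    have hcv := (S.c_pos v).le
    constructor
    · have h1 := S.T.kk_variation v (z := z) (a := S.T.a v') hz1 (S.T.norm_a_le v')
      calc S.c v * ‖kk S.T v z - kk S.T v (S.T.a v')‖
          ≤ S.c v * ((12 * (sE n + 1) * 2 ^ (sE n)) * Real.sqrt (t / S.T.h v) *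
            (1 + t / S.T.h v) ^ (sE n) * ‖kk S.T v (S.T.a v')‖) := mul_le_mul_of_nonneg_left h1 hcv
        _ = (12 * (sE n + 1) * 2 ^ (sE n)) * Real.sqrt (t / S.T.h v) *
            (1 + t / S.T.h v) ^ (sE n) * (S.c v * ‖kk S.T v (S.T.a v')‖) := by ring
        _ ≤ (12 * (sE n + 1) * 2 ^ (sE n)) * (326 * y⁻¹ * θ) * (328 * y⁻¹) ^ (sE n) *
            (C * 18 ^ n * S.c v' * X) := by
            gcongr
        _ = _ := by rw [mul_pow, pow_succ]; ring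
    · have h1 := S.T.kk_growth v (z := z) (a := S.T.a v') hz1 (S.T.norm_a_le v')
      have h2 : (2 * (1 + t / S.T.h v)) ^ (sE n) ≤ (656 * y⁻¹) ^ (sE n) := by
        apply pow_le_pow_left₀ (by positivity); linarith
      have h3 : (sE n : ℝ) / d z (S.T.a v) ≤ sE n * (θ * (D⁻¹ * y⁻¹)) := by
        have h4 : S.T.h v ≤ d z (S.T.a v) := S.T.h_le_d v z hz1
        have h5 : D⁻¹ * y⁻¹ = (dl w)⁻¹ := by rw [hy]; field_simp
        rw [h5, div_eq_mul_inv]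
        apply mul_le_mul_of_nonneg_left _ (Nat.cast_nonneg _)
        calc (d z (S.T.a v))⁻¹ ≤ (S.T.h v)⁻¹ := inv_anti₀ hh h4
          _ = (S.T.h v' / S.T.h v) * (S.T.h v')⁻¹ := by field_simp
          _ = θ ^ 2 * (S.T.h v')⁻¹ := by rw [hθsq]
          _ ≤ θ * (dl w)⁻¹ := by
              apply mul_le_mul _ (inv_anti₀ hdw hdlw) (inv_nonneg.2 hhv'.le) hθ0
              nlinarith
      calc S.c v * (‖kk S.T v z‖ * (sE n / d z (S.T.a v)))
          ≤ S.c v * (((656 * y⁻¹) ^ (sE n) * ‖kk S.T v (S.T.a v')‖) * (sE n * (θ * (D⁻¹ * y⁻¹)))) := by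
            apply mul_le_mul_of_nonneg_left _ hcv
            apply mul_le_mul _ h3 (div_nonneg (Nat.cast_nonneg _) (d_nonneg _ _)) (by positivity)
            exact h1.trans (mul_le_mul_of_nonneg_right h2 (norm_nonneg _))
        _ = (656 * y⁻¹) ^ (sE n) * (sE n * (θ * (D⁻¹ * y⁻¹))) * (S.c v * ‖kk S.T v (S.T.a v')‖) := by ring
        _ ≤ (656 * y⁻¹) ^ (sE n) * (sE n * (θ * (D⁻¹ * y⁻¹))) * (C * 18 ^ n * S.c v' * X) := by
            gcongr
        _ = _ := by rw [mul_pow, pow_succ]; ring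
  have hsum := S.sum_A A hNS v' (S.clA w) (by
    intro v hv; unfold clA at hv; rw [Finset.mem_filter] at hv; exact hv.2.2)
  set Sm := ∑ v ∈ S.clA w, Real.sqrt (S.T.h v' / S.T.h v) * (S.T.h v / d (S.T.a v') (S.T.a v)) ^ (sE n - n)
    with hSm
  -- the two sums
  have s1 : ‖∑ v ∈ S.clA w, (S.c v : ℂ) * S.inn w v * (kk S.T v z - kk S.T v (S.T.a v'))‖ ≤
      (12 * (sE n + 1) * 2 ^ (sE n)) * 326 * 328 ^ (sE n) * y⁻¹ ^ (sE n + 1) * (C * 18 ^ n) * S.c v' * Sm := by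
    refine (norm_sum_le _ _).trans ?_
    rw [hSm, Finset.mul_sum]
    apply Finset.sum_le_sum
    intro v hv
    rw [norm_mul, norm_mul, Complex.norm_real, Real.norm_of_nonneg (S.c_pos v).le]
    refine le_trans ?_ (P v hv).1
    have h1 := S.norm_inn_le w v
    have h2 := (S.c_pos v).le
    have h3 := norm_nonneg (kk S.T v z - kk S.T v (S.T.a v'))
    calc S.c v * ‖S.inn w v‖ * ‖kk S.T v z - kk S.T v (S.T.a v')‖
        ≤ S.c v * 1 * ‖kk S.T v z - kk S.T v (S.T.a v')‖ := by gcongr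
      _ = _ := by ring
  have s2 : ‖∑ v ∈ S.clA w, (S.c v : ℂ) * S.inn w v * kk S.T v z * ((sE n : ℂ) / q z (S.T.a v))‖ ≤
      sE n * 656 ^ (sE n) * (D⁻¹ * y⁻¹ ^ (sE n + 1)) * (C * 18 ^ n) * S.c v' * Sm := by
    refine (norm_sum_le _ _).trans ?_
    rw [hSm, Finset.mul_sum]
    apply Finset.sum_le_sum
    intro v hv
    rw [norm_mul, norm_mul, norm_mul, Complex.norm_real, Real.norm_of_nonneg (S.c_pos v).le,
      norm_div, Complex.norm_natCast]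
    refine le_trans ?_ (P v hv).2
    have h1 := S.norm_inn_le w v
    have h2 := (S.c_pos v).le
    have h3 : 0 ≤ ‖kk S.T v z‖ * (sE n / d z (S.T.a v)) :=
      mul_nonneg (norm_nonneg _) (div_nonneg (Nat.cast_nonneg _) (d_nonneg _ _))
    calc S.c v * ‖S.inn w v‖ * ‖kk S.T v z‖ * (sE n / ‖q z (S.T.a v)‖)
        = ‖S.inn w v‖ * (S.c v * (‖kk S.T v z‖ * (sE n / d z (S.T.a v)))) := by unfold d; ring
      _ ≤ 1 * (S.c v * (‖kk S.T v z‖ * (sE n / d z (S.T.a v)))) :=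
          mul_le_mul_of_nonneg_right h1 (mul_nonneg h2 h3)
      _ = _ := by ring
  have s3 : ‖(NE n : ℂ) / q z w - (sE n : ℂ) / q z (S.T.a v')‖ ≤ (NE n + 164 * sE n) * D⁻¹ := by
    have h1 := S.T.d_le_anc hw hz1 hanc
    refine (norm_sub_le _ _).trans ?_
    rw [norm_div, norm_div, Complex.norm_natCast, Complex.norm_natCast]
    change (NE n : ℝ) / D + sE n / d z (S.T.a v') ≤ _
    have h2 : (sE n : ℝ) / d z (S.T.a v') ≤ 164 * sE n / D := by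
      rw [div_le_div_iff₀ hta' hD]
      have : (0:ℝ) ≤ sE n := Nat.cast_nonneg _
      nlinarith
    rw [← div_eq_mul_inv, add_div]
    linarith
  rw [S.ErrA_eq w z, ← hv', norm_mul, norm_mul, Complex.norm_real, Real.norm_of_nonneg hdz.le]
  have f1 : S.c v' * ‖S.Phi w z‖ ≤ C0 n * (y ^ (3 * sE n) * (D ^ n)⁻¹) := S.norm_Phi_le hw hz
  have f3 : S.c v' ≤ C6 n C K * y⁻¹ ^ n * S.c (S.vw z) := by
    have h2 := S.c_weight_le hz hw
    rw [← hDdef, hyinv] at h2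
    exact h2
  have hQ : Qk 1 z w = dl z * D⁻¹ * y ^ 2 * (D ^ n)⁻¹ := by
    rw [Qk_one, ← hDdef, ← hy, div_eq_mul_inv]
  have hSm0 : 0 ≤ Sm := Finset.sum_nonneg (fun v _ => mul_nonneg (Real.sqrt_nonneg _)
    (pow_nonneg (S.T.ratio_a_pos v (S.T.norm_a_le v')).le _))
  set G1 : ℝ := (NE n + 164 * sE n) * (12 * (sE n + 1) * 2 ^ (sE n)) * 326 * 328 ^ (sE n) with hG1
  set G2 : ℝ := sE n * 656 ^ (sE n) with hG2
  have hin : ‖((NE n : ℂ) / q z w - (sE n : ℂ) / q z (S.T.a v')) *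
      (∑ v ∈ S.clA w, (S.c v : ℂ) * S.inn w v * (kk S.T v z - kk S.T v (S.T.a v'))) +
      ∑ v ∈ S.clA w, (S.c v : ℂ) * S.inn w v * kk S.T v z * ((sE n : ℂ) / q z (S.T.a v))‖ ≤
      (G1 + G2) * (D⁻¹ * y⁻¹ ^ (sE n + 1)) * (C * 18 ^ n) * S.c v' * Sm := by
    refine (norm_add_le _ _).trans ?_
    rw [norm_mul]
    have h1 := mul_le_mul s3 s1 (norm_nonneg _) (by positivity)
    refine (add_le_add h1 s2).trans (le_of_eq ?_)
    rw [hG1, hG2]; ring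
  have hC0 := C0_nonneg n
  have g4 : y ^ (3 * sE n) * (y⁻¹) ^ (n + sE n + 1) ≤ 2 ^ (3 * sE n) * y ^ 2 :=
    pow_trade hy0 hy2 (by unfold sE; omega)
  have hG : 0 ≤ G1 + G2 := by rw [hG1, hG2]; positivity
  calc S.c v' * (dl z * ‖S.Phi w z‖ * _) = dl z * (S.c v' * ‖S.Phi w z‖) * _ := by
        rw [← mul_assoc, ← mul_assoc, mul_comm (S.c v') (dl z), mul_assoc (dl z)]
    _ ≤ dl z * (C0 n * (y ^ (3 * sE n) * (D ^ n)⁻¹)) *
        ((G1 + G2) * (D⁻¹ * y⁻¹ ^ (sE n + 1)) * (C * 18 ^ n) * (C6 n C K * y⁻¹ ^ n * S.c (S.vw z)) * Sm) := by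
        apply mul_le_mul
        · exact mul_le_mul_of_nonneg_left f1 hdz.le
        · refine hin.trans ?_
          gcongr
        · exact norm_nonneg _
        · positivity
    _ = (C0 n * C6 n C K * (C * 18 ^ n) * (G1 + G2)) * S.c (S.vw z) * Sm * (dl z * D⁻¹ * (D ^ n)⁻¹) *
        (y ^ (3 * sE n) * (y⁻¹) ^ (n + sE n + 1)) := by
        rw [pow_add _ (n + sE n) 1, pow_add _ n (sE n), pow_add _ (sE n) 1]; ring
    _ ≤ (C0 n * C6 n C K * (C * 18 ^ n) * (G1 + G2)) * S.c (S.vw z) * (A * S.kL) * (dl z * D⁻¹ * (D ^ n)⁻¹) *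
        (2 ^ (3 * sE n) * y ^ 2) := by
        apply mul_le_mul _ g4 (by positivity)
        · have : 0 ≤ A * S.kL := hSm0.trans hsum
          positivity
        · apply mul_le_mul_of_nonneg_right _ (by positivity)
          exact mul_le_mul_of_nonneg_left hsum (by positivity)
    _ = _ := by rw [hQ]; unfold CA; rw [hG1, hG2]; ring

end Sys

end

end Pool.Agent.Lib.MP7ebef4
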