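import Pool.Agent.Lib.MP_7ebef4_an.Ker2

/-! Error terms (B), (C): pumps at levels `≤ lev (loc w)`. -/

set_option autoImplicit false

open MeasureTheory Set

namespace Pool.Agent.Lib.MP7ebef4

noncomputable section

variable {n : ℕ}

/-- (NS) as a proposition -/
def NodeSum (n : ℕ) (cT α β A : ℝ) : Prop :=
  ∀ (T : Tree n cT), ∀ z ∈ B n, ∑ v, T.h v ^ α * d z (T.a v) ^ (-β) ≤ A * dl z ^ (α - β)

open Classical in
/-- (LS) as a proposition -/
def LevelSum (n : ℕ) (cT m A : ℝ) : Prop :=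
  ∀ (T : Tree n cT) (i : ℕ), ∀ z : E n, ‖z‖ ≤ 1 →
    ∑ v ∈ Finset.univ.filter (fun v => T.lev v = i), (T.h v / d z (T.a v)) ^ m ≤ A

theorem pow_trade {y : ℝ} (h0 : 0 < y) (h2 : y ≤ 2) {m k : ℕ} (h : k + 2 ≤ m) :
    y ^ m * (y⁻¹) ^ k ≤ 2 ^ m * y ^ 2 := by
  obtain ⟨j, rfl⟩ := Nat.exists_eq_add_of_le h
  have e : y ^ (k + 2 + j) * (y⁻¹) ^ k = y ^ 2 * y ^ j := by
    rw [pow_add, pow_add, inv_pow]
    have : y ^ k ≠ 0 := pow_ne_zero _ h0.ne'
    field_simp
  rw [e]
  have h3 : y ^ j ≤ 2 ^ j := pow_le_pow_left₀ h0.le h2 _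
  have h4 : (2:ℝ) ^ j ≤ 2 ^ (k + 2 + j) := pow_le_pow_right₀ (by norm_num) (by omega)
  have h5 : 0 ≤ y ^ 2 := sq_nonneg y
  calc y ^ 2 * y ^ j ≤ y ^ 2 * 2 ^ (k + 2 + j) := mul_le_mul_of_nonneg_left (h3.trans h4) h5
    _ = _ := by ring

namespace Sys

variable {cT C K : ℝ} (S : Sys n cT C K)

/-- coefficient `⟨u_{v(w)}, u_v⟩` -/
def inn (w : E n) (v : S.T.ι) : ℂ := inner ℂ (S.u (S.vw w)) (S.u v)

theorem norm_inn_le (w : E n) (v : S.T.ι) : ‖S.inn w v‖ ≤ 1 := by
  have := norm_inner_le_norm (𝕜 := ℂ) (S.u (S.vw w)) (S.u v)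
  rw [S.hu.unit, S.hu.unit, one_mul] at this
  exact this

theorem inn_eq_zero {w : E n} {v : S.T.ι} (hv : S.resp v = v)
    (h : NearPump S.T S.resp S.L S.p'' (S.vw w) v ∨ NearPump S.T S.resp S.L S.p'' v (S.vw w)) :
    S.inn w v = 0 := by
  unfold inn
  rcases h with h | h
  · exact S.hu.near _ _ (S.resp_vw w) hv h
  · rw [← inner_conj_symm, S.hu.near _ _ hv (S.resp_vw w) h, map_zero]

/-- the logarithmic-derivative factor -/
def fac (w z : E n) (v : S.T.ι) : ℂ :=
  (NE n : ℂ) / q z w + (sE n : ℂ) / q z (S.T.a v) - (sE n : ℂ) / q z (S.T.a (S.vw w))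

theorem norm_fac_le {w z : E n} (hw : w ∈ B n) (hz : z ∈ B n) (v : S.T.ι) :
    ‖S.fac w z v‖ ≤ (NE n + 164 * sE n) / d z w + sE n / d z (S.T.a v) := by
  unfold fac
  have hz1 := (mem_B.1 hz).le
  have hD := d_pos hz (mem_B.1 hw).le
  have h1 := S.T.d_le_anc hw hz1 (S.vw_anc w)
  have h2 := S.T.d_a_pos (S.vw w) hz1
  have n1 : ‖(NE n : ℂ) / q z w‖ = NE n / d z w := by
    rw [norm_div, Complex.norm_natCast]; rfl
  have n2 : ‖(sE n : ℂ) / q z (S.T.a v)‖ = sE n / d z (S.T.a v) := by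
    rw [norm_div, Complex.norm_natCast]; rfl
  have n3 : ‖(sE n : ℂ) / q z (S.T.a (S.vw w))‖ ≤ 164 * sE n / d z w := by
    rw [norm_div, Complex.norm_natCast]
    change (sE n : ℝ) / d z (S.T.a (S.vw w)) ≤ _
    rw [div_le_div_iff₀ h2 hD]
    have : (0:ℝ) ≤ sE n := Nat.cast_nonneg _
    nlinarith
  refine (norm_sub_le _ _).trans ?_
  refine (add_le_add (norm_add_le _ _) n3).trans ?_
  rw [n1, n2, add_div]
  linarith

/-- far pumps: comparison of `h/d` with `r/rho` -/
theorem far_ratio {w : E n} (hw : w ∈ B n) (v : S.T.ι) {y : S.T.ι} (hy : S.T.le (S.T.loc w) y)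
    (hfar : 8 * S.T.r y ≤ rho (S.T.pt v) (S.T.pt y)) :
    S.T.h v / d w (S.T.a v) ≤ 4 * (S.T.r v / rho (S.T.pt v) (S.T.pt y)) ^ 2 := by
  have hw1 := (mem_B.1 hw).le
  have h1 := rho_tri (S.T.pt v) w (S.T.pt y) (S.T.norm_pt _).le hw1 (S.T.norm_pt _).le
  have h2 := S.T.rho_pt_le v w hw1
  rw [rho_comm (S.T.pt v) w] at h1
  have h3 := S.T.loc_rho_anc hw hy
  have h4 := S.T.r_eq y
  have h5 := S.T.r_pos y
  have h6 : rho (S.T.pt v) (S.T.pt y) ≤ 4 * rho w (S.T.a v) := by linarith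
  have hρ : 0 < rho (S.T.pt v) (S.T.pt y) := by linarith
  have hρ2 : 0 < rho w (S.T.a v) := by linarith
  have h7 : S.T.h v = S.T.r v ^ 2 / 4 := by
    rw [S.T.r_eq, mul_pow, Real.sq_sqrt (S.T.h_pos v).le]; ring
  rw [← rho_sq w, h7, div_pow, div_le_iff₀ (by positivity)]
  have h8 : rho (S.T.pt v) (S.T.pt y) ^ 2 ≤ 16 * rho w (S.T.a v) ^ 2 := by nlinarith
  have h9 := sq_nonneg (S.T.r v)
  rw [← mul_div_assoc, div_mul_eq_mul_div, le_div_iff₀ (by positivity)]
  nlinarith

open Classical in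
/-- the (BC) class -/
def clBC (w : E n) : Finset S.T.ι :=
  Finset.univ.filter (fun v => S.resp v = v ∧ v ≠ S.vw w ∧ S.T.lev (S.vw w) ≤ S.T.lev v + S.L ∧
    S.T.lev v ≤ S.T.lev (S.T.loc w))

open Classical in
theorem sum_BC (A : ℝ) (hA : 0 ≤ A) (hLS : LevelSum n cT ((sE n - n - 1 : ℕ) : ℝ) A) {w : E n}
    (hw : w ∈ B n) :
    ∑ v ∈ S.clBC w, ‖S.inn w v‖ * (S.T.h v / d w (S.T.a v)) ^ (sE n - n) ≤
      4 ^ (sE n) * S.ε + (4 * A) * ((S.L + 2) / S.p' ^ 2) := by
  have hw1 := (mem_B.1 hw).le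
  have hp' := S.hp'
  have h8L : (1:ℝ) ≤ 8 ^ S.L := one_le_pow₀ (by norm_num)
  have hp'' : S.p' + 2 ≤ S.p'' := by
    have := S.hp''; nlinarith
  set x := S.T.loc w with hx
  set v' := S.vw w with hv'
  have hxv' : S.T.le x v' := S.vw_anc w
  have hlv'x := S.T.lev_le_of_le hxv'
  have hsn : sE n - n = (sE n - n - 1) + 1 := by unfold sE; omega
  -- the two majorants
  set F1 : S.T.ι → ℝ := fun v => if (S.resp v = v ∧ S.T.lev v' < S.T.lev v ∧ S.T.lev v < S.T.lev x ∧
      S.p' * S.T.r v < rho (S.T.pt v) (S.T.pt x)) then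
      4 ^ (sE n) * (S.T.r v / rho (S.T.pt v) (S.T.pt x)) ^ (2 * (sE n - n)) else 0 with hF1
  set Lv : Finset ℕ := insert (S.T.lev x) (Finset.Icc (S.T.lev v' - S.L) (S.T.lev v')) with hLv
  set F2 : S.T.ι → ℝ := fun v => if S.T.lev v ∈ Lv then
      4 / S.p' ^ 2 * (S.T.h v / d w (S.T.a v)) ^ (sE n - n - 1) else 0 with hF2
  have hF1n : ∀ v, 0 ≤ F1 v := by
    intro v; rw [hF1]; simp only
    split_ifs
    · have := S.T.r_pos v; have := rho_nonneg (S.T.pt v) (S.T.pt x); positivity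
    · exact le_refl _
  have hrat : ∀ v, 0 ≤ S.T.h v / d w (S.T.a v) := fun v => (S.T.ratio_a_pos v hw1).le
  have hF2n : ∀ v, 0 ≤ F2 v := by
    intro v; rw [hF2]; simp only
    split_ifs
    · have := hrat v; positivity
    · exact le_refl _
  -- smallness of far terms
  have hfar : ∀ (v y : S.T.ι), S.T.le x y → 8 * S.T.r y ≤ rho (S.T.pt v) (S.T.pt y) →
      S.p' * S.T.r v ≤ rho (S.T.pt v) (S.T.pt y) →
      (S.T.h v / d w (S.T.a v)) ^ (sE n - n) ≤
        4 / S.p' ^ 2 * (S.T.h v / d w (S.T.a v)) ^ (sE n - n - 1) := by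
    intro v y hxy h1 h2
    have h3 := S.far_ratio hw v hxy h1
    have h4 : S.T.r v / rho (S.T.pt v) (S.T.pt y) ≤ 1 / S.p' := by
      have hry := S.T.r_pos y
      rw [div_le_div_iff₀ (by linarith) (by linarith)]; linarith
    have h5 : 0 ≤ S.T.r v / rho (S.T.pt v) (S.T.pt y) :=
      div_nonneg (S.T.r_pos v).le (rho_nonneg _ _)
    have h6 : S.T.h v / d w (S.T.a v) ≤ 4 / S.p' ^ 2 := by
      calc _ ≤ 4 * (S.T.r v / rho (S.T.pt v) (S.T.pt y)) ^ 2 := h3
        _ ≤ 4 * (1 / S.p') ^ 2 := by gcongr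
        _ = 4 / S.p' ^ 2 := by rw [div_pow, one_pow]; ring
    rw [hsn, pow_succ, mul_comm, Nat.add_sub_cancel]
    exact mul_le_mul_of_nonneg_right h6 (pow_nonneg (hrat v) _)
  have key : ∀ v ∈ S.clBC w, ‖S.inn w v‖ * (S.T.h v / d w (S.T.a v)) ^ (sE n - n) ≤ F1 v + F2 v := by
    intro v hv
    unfold clBC at hv
    rw [Finset.mem_filter] at hv
    obtain ⟨_, hrv, hne, hl1, hl2⟩ := hv
    rw [← hv'] at hne hl1
    rw [← hx] at hl2
    have hb : ‖S.inn w v‖ * (S.T.h v / d w (S.T.a v)) ^ (sE n - n) ≤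
        (S.T.h v / d w (S.T.a v)) ^ (sE n - n) := by
      have := S.norm_inn_le w v
      have h2 := pow_nonneg (hrat v) (sE n - n)
      nlinarith
    by_cases hB : S.T.lev v ≤ S.T.lev v'
    · -- class (B)
      by_cases hnear : rho (S.T.pt v) (S.T.pt v') ≤ S.p'' * S.T.r v'
      · rw [S.inn_eq_zero hrv (Or.inl ⟨hne, v, hrv, hl1, hB, hnear⟩), norm_zero, zero_mul]
        exact add_nonneg (hF1n v) (hF2n v)
      · push Not at hnear
        have hr : S.T.r v ≤ 8 ^ S.L * S.T.r v' := by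
          unfold Tree.r
          rw [rr_add' (S.T.lev v) S.L]
          exact mul_le_mul_of_nonneg_left (rr_anti hl1) (by positivity)
        have hrv' := S.T.r_pos v'
        have h1 : 8 * S.T.r v' ≤ rho (S.T.pt v) (S.T.pt v') := by nlinarith
        have h2 : S.p' * S.T.r v ≤ rho (S.T.pt v) (S.T.pt v') := by
          have h3 := S.hp''
          calc S.p' * S.T.r v ≤ S.p' * (8 ^ S.L * S.T.r v') :=
                mul_le_mul_of_nonneg_left hr (by linarith)
            _ ≤ S.p'' * S.T.r v' := by nlinarith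
            _ ≤ _ := hnear.le
        have h4 := hfar v v' hxv' h1 h2
        have h5 : F2 v = 4 / S.p' ^ 2 * (S.T.h v / d w (S.T.a v)) ^ (sE n - n - 1) := by
          rw [hF2]; simp only
          rw [if_pos]
          rw [hLv, Finset.mem_insert, Finset.mem_Icc]
          right; omega
        have := hF1n v
        rw [h5]; linarith
    · -- class (C)
      push Not at hB
      by_cases hnear : rho (S.T.pt v) (S.T.pt x) ≤ S.p' * S.T.r v
      · -- killed
        have hy1 := S.T.le_ancAt x (S.T.lev v)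
        have hy2 := S.T.lev_ancAt x hl2
        set y := S.T.ancAt x (S.T.lev v) with hy
        have hresp : S.resp y = v' := by
          have : S.resp y = S.resp x := S.resp_between hy1 (by
            have : S.resp x = v' := rfl
            rw [this]; omega)
          rw [this]; rfl
        have hrho : rho (S.T.pt y) (S.T.pt v) ≤ S.p'' * S.T.r v := by
          have t1 := rho_tri (S.T.pt y) (S.T.pt x) (S.T.pt v) (S.T.norm_pt _).le (S.T.norm_pt _).le
            (S.T.norm_pt _).le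
          have t2 := S.T.rho_le_of_le hy1
          rw [rho_comm] at t2
          rw [rho_comm (S.T.pt x) (S.T.pt v)] at t1
          have t3 : S.T.r y = S.T.r v := by unfold Tree.r; rw [hy2]
          rw [t3] at t2
          have := S.T.r_pos v
          nlinarith
        have hz : S.inn w v = 0 := S.inn_eq_zero hrv
          (Or.inr ⟨hne.symm, y, hresp, by rw [hy2]; omega, by rw [hy2], hrho⟩)
        rw [hz, norm_zero, zero_mul]
        exact add_nonneg (hF1n v) (hF2n v)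
      · push Not at hnear
        have hrx : S.T.r x ≤ S.T.r v := rr_anti hl2
        have hrv0 := S.T.r_pos v
        have h1 : 8 * S.T.r x ≤ rho (S.T.pt v) (S.T.pt x) := by nlinarith
        by_cases hlt : S.T.lev v < S.T.lev x
        · have h3 := S.far_ratio hw v (S.T.le_refl x) h1
          have h5 : F1 v = 4 ^ (sE n) * (S.T.r v / rho (S.T.pt v) (S.T.pt x)) ^ (2 * (sE n - n)) := by
            rw [hF1]; simp only
            rw [if_pos ⟨hrv, hB, hlt, hnear⟩]
          have h6 : (S.T.h v / d w (S.T.a v)) ^ (sE n - n) ≤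
              4 ^ (sE n) * (S.T.r v / rho (S.T.pt v) (S.T.pt x)) ^ (2 * (sE n - n)) := by
            calc (S.T.h v / d w (S.T.a v)) ^ (sE n - n)
                ≤ (4 * (S.T.r v / rho (S.T.pt v) (S.T.pt x)) ^ 2) ^ (sE n - n) :=
                  pow_le_pow_left₀ (hrat v) h3 _
              _ = 4 ^ (sE n - n) * (S.T.r v / rho (S.T.pt v) (S.T.pt x)) ^ (2 * (sE n - n)) := by
                  rw [mul_pow, ← pow_mul]
              _ ≤ _ := by
                  have h7 : (4:ℝ) ^ (sE n - n) ≤ 4 ^ (sE n) := pow_le_pow_right₀ (by norm_num) (by omega)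
                  have h8 : 0 ≤ (S.T.r v / rho (S.T.pt v) (S.T.pt x)) ^ (2 * (sE n - n)) :=
                    pow_nonneg (div_nonneg hrv0.le (rho_nonneg _ _)) _
                  exact mul_le_mul_of_nonneg_right h7 h8
          have := hF2n v
          rw [h5]; linarith
        · have hl3 : S.T.lev v = S.T.lev x := by omega
          have h4 := hfar v x (S.T.le_refl x) h1 hnear.le
          have h5 : F2 v = 4 / S.p' ^ 2 * (S.T.h v / d w (S.T.a v)) ^ (sE n - n - 1) := by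
            rw [hF2]; simp only
            rw [if_pos]
            rw [hLv, Finset.mem_insert]
            left; exact hl3
          have := hF1n v
          rw [h5]; linarith
  -- sum of F1
  have hS1 : ∑ v, F1 v ≤ 4 ^ (sE n) * S.ε := by
    by_cases hxx : S.resp x = x
    · have : ∀ v, F1 v = 0 := by
        intro v; rw [hF1]; simp only
        rw [if_neg]
        rintro ⟨_, h1, h2, _⟩
        have h3 : v' = x := hxx
        rw [h3] at h1; omega
      rw [Finset.sum_eq_zero (fun v _ => this v)]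
      have := S.hε; positivity
    · have h1 := S.hp.theta x hxx
      have h2 : ∑ v, F1 v = 4 ^ (sE n) * Theta S.T S.resp S.p' (S.resp x) x := by
        rw [hF1]; simp only
        rw [← Finset.sum_filter, ← Finset.mul_sum]
        rfl
      rw [h2]
      exact mul_le_mul_of_nonneg_left h1 (by positivity)
  have hS2 : ∑ v, F2 v ≤ (4 * A) * ((S.L + 2) / S.p' ^ 2) := by
    have h1 : ∑ v, F2 v = ∑ j ∈ Lv, ∑ v ∈ Finset.univ.filter (fun v => S.T.lev v = j),
        4 / S.p' ^ 2 * (S.T.h v / d w (S.T.a v)) ^ (sE n - n - 1) := by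
      rw [hF2]; simp only
      rw [← Finset.sum_filter]
      rw [← Finset.sum_fiberwise_of_maps_to (t := Lv) (g := fun v => S.T.lev v)
        (by intro v hv; exact (Finset.mem_filter.1 hv).2)]
      apply Finset.sum_congr rfl
      intro j hj
      apply Finset.sum_congr _ (fun _ _ => rfl)
      ext v
      simp only [Finset.mem_filter, Finset.mem_univ, true_and]
      constructor
      · rintro ⟨_, h⟩; exact h
      · intro h; exact ⟨by rw [h]; exact hj, h⟩
    rw [h1]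
    have h2 : ∀ j ∈ Lv, ∑ v ∈ Finset.univ.filter (fun v => S.T.lev v = j),
        4 / S.p' ^ 2 * (S.T.h v / d w (S.T.a v)) ^ (sE n - n - 1) ≤ 4 / S.p' ^ 2 * A := by
      intro j _
      rw [← Finset.mul_sum]
      apply mul_le_mul_of_nonneg_left _ (by positivity)
      have h3 := hLS S.T j w hw1
      have h4 : ∀ v, (S.T.h v / d w (S.T.a v)) ^ (((sE n - n - 1 : ℕ)) : ℝ) =
          (S.T.h v / d w (S.T.a v)) ^ (sE n - n - 1) := fun v => Real.rpow_natCast _ _
      simp only [h4] at h3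
      exact h3
    refine (Finset.sum_le_sum h2).trans ?_
    rw [Finset.sum_const, nsmul_eq_mul]
    have hcard : (Lv.card : ℝ) ≤ S.L + 2 := by
      have h5 : Lv.card ≤ S.L + 2 := by
        rw [hLv]
        refine (Finset.card_insert_le _ _).trans ?_
        rw [Nat.card_Icc]; omega
      exact_mod_cast h5
    have h6 : 0 ≤ 4 / S.p' ^ 2 * A := by positivity
    calc (Lv.card : ℝ) * (4 / S.p' ^ 2 * A) ≤ (S.L + 2) * (4 / S.p' ^ 2 * A) :=
          mul_le_mul_of_nonneg_right hcard h6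
      _ = _ := by ring
  calc ∑ v ∈ S.clBC w, ‖S.inn w v‖ * (S.T.h v / d w (S.T.a v)) ^ (sE n - n)
      ≤ ∑ v ∈ S.clBC w, (F1 v + F2 v) := Finset.sum_le_sum key
    _ ≤ ∑ v, (F1 v + F2 v) := Finset.sum_le_sum_of_subset_of_nonneg (Finset.subset_univ _)
        (fun v _ _ => add_nonneg (hF1n v) (hF2n v))
    _ = ∑ v, F1 v + ∑ v, F2 v := Finset.sum_add_distrib
    _ ≤ _ := add_le_add hS1 hS2

end Sys

end

end Pool.Agent.Lib.MP7ebef4
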