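import Pool.Agent.Lib.MP_7ebef4_an.ErrBC

/-! Pointwise kernel bound for the classes (B), (C). -/

set_option autoImplicit false

open MeasureTheory Set

namespace Pool.Agent.Lib.MP7ebef4

noncomputable section

variable {n : ℕ}

theorem Qk_nonneg (η : ℝ) {z w : E n} (hz : ‖z‖ ≤ 1) (hw : ‖w‖ ≤ 1) : 0 ≤ Qk η z w := by
  unfold Qk
  have h1 := ratio_nonneg hz hw
  have h2 : 0 ≤ dl z / d z w := div_nonneg (dl_nonneg hz) (d_nonneg _ _)
  have h3 := d_nonneg z w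
  positivity

theorem Qk_one (z w : E n) : Qk 1 z w = dl z / d z w * (dl w / d z w) ^ 2 * ((d z w) ^ n)⁻¹ := by
  unfold Qk; rw [Real.rpow_one]

namespace Sys

variable {cT C K : ℝ} (S : Sys n cT C K)

/-- constants -/
def C0 (n : ℕ) : ℝ := |c0 n| * 326 ^ (sE n)
def C5 (n : ℕ) (C K : ℝ) : ℝ := C * 2500 ^ n * K
def C6 (n : ℕ) (C K : ℝ) : ℝ := C * 20000 ^ n * K
def CN (n : ℕ) : ℝ := 2 * (NE n + 164 * sE n) + sE n

theorem C0_nonneg (n : ℕ) : 0 ≤ C0 n := by unfold C0; positivity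
theorem CN_nonneg (n : ℕ) : 0 ≤ CN n := by unfold CN; positivity

include S in
theorem C5_nonneg : 0 ≤ C5 n C K := by
  unfold C5; have := S.hC; have := S.hK; positivity
include S in
theorem C6_nonneg : 0 ≤ C6 n C K := by
  unfold C6; have := S.hC; have := S.hK; positivity

/-- the term of the error kernel belonging to the pump `v` -/
def term (w z : E n) (v : S.T.ι) : ℂ :=
  (dl z : ℂ) * ((S.c v : ℂ) * S.inn w v * kk S.T v z * S.Phi w z * S.fac w z v)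

theorem norm_term (w z : E n) (hz : ‖z‖ ≤ 1) (v : S.T.ι) :
    ‖S.term w z v‖ = dl z * (S.c v * ‖S.inn w v‖ * ‖kk S.T v z‖ * ‖S.Phi w z‖ * ‖S.fac w z v‖) := by
  unfold term
  rw [norm_mul, norm_mul, norm_mul, norm_mul, norm_mul, Complex.norm_real, Complex.norm_real,
    Real.norm_of_nonneg (dl_nonneg hz), Real.norm_of_nonneg (S.c_pos v).le]

theorem term_BC_le {w z : E n} (hw : w ∈ B n) (hz : z ∈ B n) {v : S.T.ι} (hv : dl w ≤ S.T.h v) :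
    S.c (S.vw w) * ‖S.term w z v‖ ≤
      (C0 n * C5 n C K * C6 n C K * 6 ^ (sE n) * CN n * 2 ^ (3 * sE n)) * S.c (S.vw z) * Qk 1 z w *
        (‖S.inn w v‖ * (S.T.h v / d w (S.T.a v)) ^ (sE n - n)) := by
  have hz1 := (mem_B.1 hz).le
  have hw1 := (mem_B.1 hw).le
  have hD := d_pos hz hw1
  have hdw := dl_pos hw
  have hdz := dl_pos hz
  have hcw := S.c_pos (S.vw w)
  have hcz := S.c_pos (S.vw z)
  have hh := S.T.h_pos v
  have hta := S.T.d_a_pos v hz1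
  have hwa := S.T.d_a_pos v hw1
  set D := d z w with hDdef
  set y := dl w / D with hy
  have hy0 : 0 < y := div_pos hdw hD
  have hy2 : y ≤ 2 := ratio_le_two hz hw1
  have hyinv : D / dl w = y⁻¹ := by rw [hy, inv_div]
  have hyi : 1/2 ≤ y⁻¹ := by
    rw [one_div]; exact inv_anti₀ hy0 hy2
  -- factors
  have f1 : S.c (S.vw w) * ‖S.Phi w z‖ ≤ C0 n * (y ^ (3 * sE n) * (D ^ n)⁻¹) := S.norm_Phi_le hw hz
  have f2 : ‖kk S.T v z‖ ≤ (6 * y⁻¹) ^ (sE n) * (S.T.h v / d w (S.T.a v)) ^ (sE n) := by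
    have h1 := S.T.kk_growth v hz1 hw1
    rw [S.T.norm_kk v w] at h1
    refine h1.trans ?_
    apply mul_le_mul_of_nonneg_right _ (pow_nonneg (div_nonneg hh.le hwa.le) _)
    apply pow_le_pow_left₀
    · have : 0 ≤ d z w / S.T.h v := div_nonneg hD.le hh.le
      linarith
    · have h2 : d z w / S.T.h v ≤ y⁻¹ := by
        rw [← hyinv]; exact div_le_div_of_nonneg_left hD.le hdw hv
      linarith
  have f3 : S.c v ≤ C5 n C K * (d w (S.T.a v) / S.T.h v) ^ n * (C6 n C K * y⁻¹ ^ n * S.c (S.vw z)) := by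
    have h1 := S.c_node_le v hw
    have h2 := S.c_weight_le hz hw
    rw [← hDdef, hyinv] at h2
    have h3 : 0 ≤ C5 n C K * (d w (S.T.a v) / S.T.h v) ^ n :=
      mul_nonneg S.C5_nonneg (pow_nonneg (div_nonneg hwa.le hh.le) _)
    exact h1.trans (mul_le_mul_of_nonneg_left h2 h3)
  have f4 : ‖S.fac w z v‖ ≤ CN n * (D⁻¹ * y⁻¹) := by
    have h1 := S.norm_fac_le hw hz v
    rw [← hDdef] at h1
    refine h1.trans ?_
    have h2 : (sE n : ℝ) / d z (S.T.a v) ≤ sE n * (D⁻¹ * y⁻¹) := by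
      have h3 : dl w ≤ d z (S.T.a v) := hv.trans (S.T.h_le_d v z hz1)
      have h4 : D⁻¹ * y⁻¹ = (dl w)⁻¹ := by
        rw [hy]; field_simp
      rw [h4, div_eq_mul_inv]
      exact mul_le_mul_of_nonneg_left (inv_anti₀ hdw h3) (Nat.cast_nonneg _)
    have h5 : ((NE n : ℝ) + 164 * sE n) / D ≤ 2 * (NE n + 164 * sE n) * (D⁻¹ * y⁻¹) := by
      rw [div_eq_mul_inv]
      have h6 : 0 ≤ ((NE n : ℝ) + 164 * sE n) * D⁻¹ := by positivity
      nlinarith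
    unfold CN
    calc _ ≤ 2 * (NE n + 164 * sE n) * (D⁻¹ * y⁻¹) + sE n * (D⁻¹ * y⁻¹) := add_le_add h5 h2
      _ = _ := by ring
  rw [S.norm_term w z hz1]
  set In := ‖S.inn w v‖ with hIn
  have hIn0 : 0 ≤ In := norm_nonneg _
  set ρ := S.T.h v / d w (S.T.a v) with hρ
  have hρ0 : 0 < ρ := S.T.ratio_a_pos v hw1
  have hρi : d w (S.T.a v) / S.T.h v = ρ⁻¹ := by rw [hρ, inv_div]
  rw [hρi] at f3
  have hQ : Qk 1 z w = dl z * D⁻¹ * y ^ 2 * (D ^ n)⁻¹ := by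
    rw [Qk_one, ← hDdef, ← hy, div_eq_mul_inv]
  rw [hQ]
  have hC0 := C0_nonneg n
  have hCN := CN_nonneg n
  have hC5 := S.C5_nonneg
  have hC6 := S.C6_nonneg
  -- combine
  have g1 : S.c (S.vw w) * (dl z * (S.c v * In * ‖kk S.T v z‖ * ‖S.Phi w z‖ * ‖S.fac w z v‖)) =
      dl z * In * ((S.c (S.vw w) * ‖S.Phi w z‖) * (S.c v * (‖kk S.T v z‖ * ‖S.fac w z v‖))) := by ring
  rw [g1]
  have g2 : (S.c (S.vw w) * ‖S.Phi w z‖) * (S.c v * (‖kk S.T v z‖ * ‖S.fac w z v‖)) ≤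
      (C0 n * (y ^ (3 * sE n) * (D ^ n)⁻¹)) * ((C5 n C K * ρ⁻¹ ^ n * (C6 n C K * y⁻¹ ^ n * S.c (S.vw z))) *
        (((6 * y⁻¹) ^ (sE n) * ρ ^ (sE n)) * (CN n * (D⁻¹ * y⁻¹)))) := by
    have p1 : 0 ≤ S.c (S.vw w) * ‖S.Phi w z‖ := mul_nonneg hcw.le (norm_nonneg _)
    have p2 : 0 ≤ S.c v := (S.c_pos v).le
    gcongr
  have g3 : ρ⁻¹ ^ n * ρ ^ (sE n) = ρ ^ (sE n - n) := by
    have : sE n = n + (sE n - n) := by unfold sE; omega
    conv_lhs => rw [this, pow_add]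
    rw [inv_pow]
    have : ρ ^ n ≠ 0 := pow_ne_zero _ hρ0.ne'
    field_simp
  have g4 : y ^ (3 * sE n) * (y⁻¹) ^ (n + sE n + 1) ≤ 2 ^ (3 * sE n) * y ^ 2 :=
    pow_trade hy0 hy2 (by unfold sE; omega)
  calc dl z * In * ((S.c (S.vw w) * ‖S.Phi w z‖) * (S.c v * (‖kk S.T v z‖ * ‖S.fac w z v‖)))
      ≤ dl z * In * ((C0 n * (y ^ (3 * sE n) * (D ^ n)⁻¹)) *
        ((C5 n C K * ρ⁻¹ ^ n * (C6 n C K * y⁻¹ ^ n * S.c (S.vw z))) *
        (((6 * y⁻¹) ^ (sE n) * ρ ^ (sE n)) * (CN n * (D⁻¹ * y⁻¹))))) := by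
        apply mul_le_mul_of_nonneg_left g2 (by positivity)
    _ = (C0 n * C5 n C K * C6 n C K * 6 ^ (sE n) * CN n) * S.c (S.vw z) * (dl z * D⁻¹ * (D ^ n)⁻¹) *
        (In * (ρ⁻¹ ^ n * ρ ^ (sE n))) * (y ^ (3 * sE n) * (y⁻¹) ^ (n + sE n + 1)) := by
        rw [mul_pow, pow_add, pow_add, pow_one]; ring
    _ ≤ (C0 n * C5 n C K * C6 n C K * 6 ^ (sE n) * CN n) * S.c (S.vw z) * (dl z * D⁻¹ * (D ^ n)⁻¹) *
        (In * (ρ⁻¹ ^ n * ρ ^ (sE n))) * (2 ^ (3 * sE n) * y ^ 2) := by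
        apply mul_le_mul_of_nonneg_left g4
        positivity
    _ = _ := by rw [g3]; ring

open Classical in
/-- total (BC) error kernel -/
def ErrBC (w z : E n) : ℂ := ∑ v ∈ S.clBC w, S.term w z v

theorem ErrBC_le (A : ℝ) (hA : 0 ≤ A) (hLS : LevelSum n cT ((sE n - n - 1 : ℕ) : ℝ) A) {w z : E n}
    (hw : w ∈ B n) (hz : z ∈ B n) :
    S.c (S.vw w) * ‖S.ErrBC w z‖ ≤
      (C0 n * C5 n C K * C6 n C K * 6 ^ (sE n) * CN n * 2 ^ (3 * sE n)) *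
        (4 ^ (sE n) * S.ε + (4 * A) * ((S.L + 2) / S.p' ^ 2)) * S.c (S.vw z) * Qk 1 z w := by
  set Cs := (C0 n * C5 n C K * C6 n C K * 6 ^ (sE n) * CN n * 2 ^ (3 * sE n)) with hCs
  have hCs0 : 0 ≤ Cs := by
    have hC0 := C0_nonneg n
    have hCN := CN_nonneg n
    have hC5 := S.C5_nonneg
    have hC6 := S.C6_nonneg
    positivity
  have hcw := S.c_pos (S.vw w)
  have hcz := S.c_pos (S.vw z)
  have hQ := Qk_nonneg 1 (mem_B.1 hz).le (mem_B.1 hw).le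
  have h1 : ∀ v ∈ S.clBC w, S.c (S.vw w) * ‖S.term w z v‖ ≤ Cs * S.c (S.vw z) * Qk 1 z w *
        (‖S.inn w v‖ * (S.T.h v / d w (S.T.a v)) ^ (sE n - n)) := by
    intro v hv
    apply S.term_BC_le hw hz
    unfold clBC at hv
    rw [Finset.mem_filter] at hv
    exact (S.T.loc_upper w hw).trans (hh_anti hv.2.2.2.2)
  calc S.c (S.vw w) * ‖S.ErrBC w z‖ ≤ S.c (S.vw w) * ∑ v ∈ S.clBC w, ‖S.term w z v‖ :=
        mul_le_mul_of_nonneg_left (norm_sum_le _ _) hcw.le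
    _ = ∑ v ∈ S.clBC w, S.c (S.vw w) * ‖S.term w z v‖ := Finset.mul_sum _ _ _
    _ ≤ ∑ v ∈ S.clBC w, Cs * S.c (S.vw z) * Qk 1 z w *
        (‖S.inn w v‖ * (S.T.h v / d w (S.T.a v)) ^ (sE n - n)) := Finset.sum_le_sum h1
    _ = Cs * S.c (S.vw z) * Qk 1 z w * ∑ v ∈ S.clBC w,
        (‖S.inn w v‖ * (S.T.h v / d w (S.T.a v)) ^ (sE n - n)) := by rw [Finset.mul_sum]
    _ ≤ Cs * S.c (S.vw z) * Qk 1 z w *
        (4 ^ (sE n) * S.ε + (4 * A) * ((S.L + 2) / S.p' ^ 2)) := by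
        apply mul_le_mul_of_nonneg_left (S.sum_BC A hA hLS hw)
        positivity
    _ = _ := by ring

end Sys

end

end Pool.Agent.Lib.MP7ebef4
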