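import Pool.Agent.Lib.MP_7ebef4_an.ErrBC2

/-! Error class (D): pumps at most `L` levels finer than `loc w`. -/

set_option autoImplicit false

open MeasureTheory Set

namespace Pool.Agent.Lib.MP7ebef4

noncomputable section

variable {n : ℕ}

namespace Sys

variable {cT C K : ℝ} (S : Sys n cT C K)

open Classical in
def clD (w : E n) : Finset S.T.ι :=
  Finset.univ.filter (fun v => S.resp v = v ∧ S.T.lev (S.T.loc w) < S.T.lev v ∧
    S.T.lev v ≤ S.T.lev (S.T.loc w) + S.L)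

def ErrD (w z : E n) : ℂ := ∑ v ∈ S.clD w, S.term w z v

/-- general bound of a term by quantities at `z` -/
theorem term_z_le {w z : E n} (hw : w ∈ B n) (hz : z ∈ B n) (v : S.T.ι) :
    S.c (S.vw w) * ‖S.term w z v‖ ≤ (C0 n * C5 n C K) * S.c (S.vw z) *
      (dl z * PB z w * (S.T.h v / d z (S.T.a v)) ^ (sE n - n) * ‖S.fac w z v‖) * ‖S.inn w v‖ := by
  have hz1 := (mem_B.1 hz).le
  have hw1 := (mem_B.1 hw).le
  have hdz := dl_pos hz
  have hh := S.T.h_pos v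
  have hta := S.T.d_a_pos v hz1
  have hcw := S.c_pos (S.vw w)
  have hcz := S.c_pos (S.vw z)
  have f1 := S.norm_Phi_le hw hz
  have f3 := S.c_node_le v hz
  set τ := S.T.h v / d z (S.T.a v) with hτ
  have hτ0 : 0 < τ := S.T.ratio_a_pos v hz1
  have hτi : d z (S.T.a v) / S.T.h v = τ⁻¹ := by rw [hτ, inv_div]
  rw [hτi] at f3
  have g3 : τ⁻¹ ^ n * τ ^ (sE n) = τ ^ (sE n - n) := by
    have : sE n = n + (sE n - n) := by unfold sE; omega
    conv_lhs => rw [this, pow_add]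
    rw [inv_pow]
    have : τ ^ n ≠ 0 := pow_ne_zero _ hτ0.ne'
    field_simp
  rw [S.norm_term w z hz1, S.T.norm_kk, ← hτ]
  have hPB := PB_nonneg hz1 hw1
  have hC0 := C0_nonneg n
  have hC5 := S.C5_nonneg
  have h1 : (S.c (S.vw w) * ‖S.Phi w z‖) * S.c v ≤ (C0 n * PB z w) * (C5 n C K * τ⁻¹ ^ n * S.c (S.vw z)) :=
    mul_le_mul f1 f3 (S.c_pos v).le (by positivity)
  have hfn := norm_nonneg (S.fac w z v)
  have hin := norm_nonneg (S.inn w v)
  calc S.c (S.vw w) * (dl z * (S.c v * ‖S.inn w v‖ * τ ^ (sE n) * ‖S.Phi w z‖ * ‖S.fac w z v‖))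
      = ((S.c (S.vw w) * ‖S.Phi w z‖) * S.c v) * (dl z * ‖S.inn w v‖ * τ ^ (sE n) * ‖S.fac w z v‖) := by ring
    _ ≤ ((C0 n * PB z w) * (C5 n C K * τ⁻¹ ^ n * S.c (S.vw z))) *
        (dl z * ‖S.inn w v‖ * τ ^ (sE n) * ‖S.fac w z v‖) :=
        mul_le_mul_of_nonneg_right h1 (by positivity)
    _ = (C0 n * C5 n C K) * S.c (S.vw z) *
      (dl z * PB z w * (τ⁻¹ ^ n * τ ^ (sE n)) * ‖S.fac w z v‖) * ‖S.inn w v‖ := by ring
    _ = _ := by rw [g3]

def CD (n : ℕ) (C K : ℝ) : ℝ := C0 n * C5 n C K * CN n * 4 * 2 ^ (3 * sE n)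

theorem scale_D {w : E n} (hw : w ∈ B n) {v : S.T.ι}
    (hl2 : S.T.lev v ≤ S.T.lev (S.T.loc w) + S.L) :
    dl w ≤ 64 ^ S.L * S.T.h v ∧ S.T.r (S.T.loc w) ≤ 8 ^ S.L * S.T.r v := by
  constructor
  · have h1 := hh_add' (S.T.lev (S.T.loc w)) S.L
    have h2 : hh (S.T.lev (S.T.loc w) + S.L) ≤ S.T.h v := hh_anti hl2
    have hwx := S.T.loc_upper w hw
    rw [h1] at hwx
    exact hwx.trans (mul_le_mul_of_nonneg_left h2 (by positivity))
  · have h1 := rr_add' (S.T.lev (S.T.loc w)) S.L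
    have h2 : rr (S.T.lev (S.T.loc w) + S.L) ≤ S.T.r v := rr_anti hl2
    change rr (S.T.lev (S.T.loc w)) ≤ _
    rw [h1]; exact mul_le_mul_of_nonneg_left h2 (by positivity)

theorem sqrt64 (L : ℕ) : Real.sqrt (64 ^ L) = 8 ^ L := by
  rw [show (64:ℝ) ^ L = (8 ^ L)^2 by rw [← pow_mul, mul_comm, pow_mul]; norm_num,
    Real.sqrt_sq (by positivity)]

theorem far_D_aux {p' sD st R c1 c2 : ℝ} (hR : 0 < R) (h : 2 * p' * R < sD + 2 * st)
    (h1 : sD ≤ c1 * R) (h2 : st ≤ c2 * R) : 2 * p' < c1 + 2 * c2 := by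
  have : 2 * p' * R < (c1 + 2 * c2) * R := by linarith
  exact lt_of_mul_lt_mul_right this hR.le

theorem far_D {w z : E n} (hw : w ∈ B n) (hz : z ∈ B n) {v : S.T.ι}
    (hl2 : S.T.lev v ≤ S.T.lev (S.T.loc w) + S.L)
    (hnear : S.p'' * S.T.r v < rho (S.T.pt (S.T.loc w)) (S.T.pt v)) :
    S.p' ≤ 4 * ((dl w / d z w)⁻¹ * (S.T.h v / d z (S.T.a v))⁻¹) := by
  have hz1 := (mem_B.1 hz).le
  have hw1 := (mem_B.1 hw).le
  have hD := d_pos hz hw1
  have hdw := dl_pos hw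
  have hhv := S.T.h_pos v
  have hta := S.T.d_a_pos v hz1
  obtain ⟨hwx, hrx⟩ := S.scale_D hw hl2
  have t1 := rho_tri (S.T.pt (S.T.loc w)) w (S.T.pt v) (S.T.norm_pt _).le hw1 (S.T.norm_pt _).le
  have t2 := rho_tri w z (S.T.pt v) hw1 hz1 (S.T.norm_pt _).le
  have t3 := S.T.loc_near w hw
  have t4 := S.T.rho_pt_le v z hz1
  rw [rho_comm (S.T.pt (S.T.loc w)) w] at t1
  rw [rho_comm w z] at t2
  have t5 : 8 ^ S.L * (S.p' + 2) * S.T.r v < 2 * (8 ^ S.L * S.T.r v) + rho z w + 2 * rho z (S.T.a v) := by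
    have h1 := S.hp''
    have h2 := S.T.r_pos v
    have h3 : 8 ^ S.L * (S.p' + 2) * S.T.r v ≤ S.p'' * S.T.r v := mul_le_mul_of_nonneg_right h1 h2.le
    have h4 : rr (S.T.lev (S.T.loc w)) = S.T.r (S.T.loc w) := rfl
    rw [h4] at t3
    linarith
  have e0 : S.T.r v = 2 * Real.sqrt (S.T.h v) := S.T.r_eq v
  have hsv : 0 < Real.sqrt (S.T.h v) := Real.sqrt_pos.2 hhv
  have h8 : (1:ℝ) ≤ 8 ^ S.L := one_le_pow₀ (by norm_num)
  have hy0 : 0 < dl w / d z w := div_pos hdw hD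
  have hτ0 : 0 < S.T.h v / d z (S.T.a v) := div_pos hhv hta
  have hy2 : dl w / d z w ≤ 2 := ratio_le_two hz hw1
  have hτ1 : S.T.h v / d z (S.T.a v) ≤ 1 := S.T.ratio_a_le_one v hz1
  have e1 : rho z w = Real.sqrt ((dl w / d z w)⁻¹) * Real.sqrt (dl w) := by
    rw [← Real.sqrt_mul (inv_nonneg.2 hy0.le)]
    unfold rho; rw [inv_div, div_mul_cancel₀ _ hdw.ne']
  have e2 : rho z (S.T.a v) = Real.sqrt ((S.T.h v / d z (S.T.a v))⁻¹) * Real.sqrt (S.T.h v) := by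
    rw [← Real.sqrt_mul (inv_nonneg.2 hτ0.le)]
    unfold rho; rw [inv_div, div_mul_cancel₀ _ hhv.ne']
  have e3 : Real.sqrt (dl w) ≤ 8 ^ S.L * Real.sqrt (S.T.h v) := by
    have h1 : Real.sqrt (dl w) ≤ Real.sqrt (64 ^ S.L * S.T.h v) := Real.sqrt_le_sqrt hwx
    rwa [Real.sqrt_mul (by positivity), sqrt64] at h1
  generalize hyg : (dl w / d z w)⁻¹ = Y at *
  generalize hτg : (S.T.h v / d z (S.T.a v))⁻¹ = X at *
  have hY : 1/2 ≤ Y := by rw [← hyg, one_div]; exact inv_anti₀ hy0 hy2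
  have hX : 1 ≤ X := by rw [← hτg]; exact (one_le_inv₀ hτ0).2 hτ1
  have s1 : Real.sqrt Y ≤ 2 * Y := by
    rw [Real.sqrt_le_left (by linarith)]; nlinarith
  have s2 : Real.sqrt X ≤ X := by
    rw [Real.sqrt_le_left (by linarith)]; nlinarith
  have hR0 : 0 < 8 ^ S.L * Real.sqrt (S.T.h v) := by positivity
  have hRv : Real.sqrt (S.T.h v) ≤ 8 ^ S.L * Real.sqrt (S.T.h v) := by nlinarith
  have t6 : 2 * S.p' * (8 ^ S.L * Real.sqrt (S.T.h v)) < rho z w + 2 * rho z (S.T.a v) := by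
    rw [e0] at t5; linarith
  have t7 := far_D_aux hR0 t6 (c1 := Real.sqrt Y) (c2 := Real.sqrt X)
    (by rw [e1]; exact mul_le_mul_of_nonneg_left e3 (Real.sqrt_nonneg _))
    (by rw [e2]; exact mul_le_mul_of_nonneg_left hRv (Real.sqrt_nonneg _))
  have t8 : S.p' ≤ Y + X := by linarith
  have t9 : Y ≤ Y * X := by nlinarith
  have t10 : X ≤ 2 * (Y * X) := by nlinarith
  have t11 : 0 ≤ Y * X := by positivity
  linarith

theorem fac_D {w z : E n} (hw : w ∈ B n) (hz : z ∈ B n) {v : S.T.ι}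
    (hl2 : S.T.lev v ≤ S.T.lev (S.T.loc w) + S.L) :
    ‖S.fac w z v‖ ≤ CN n * 64 ^ S.L * ((d z w)⁻¹ * (dl w / d z w)⁻¹) := by
  have hz1 := (mem_B.1 hz).le
  have hw1 := (mem_B.1 hw).le
  have hD := d_pos hz hw1
  have hdw := dl_pos hw
  have hta := S.T.d_a_pos v hz1
  obtain ⟨hwx, _⟩ := S.scale_D hw hl2
  have h1 := S.norm_fac_le hw hz v
  have hy0 : 0 < dl w / d z w := div_pos hdw hD
  have hy2 : dl w / d z w ≤ 2 := ratio_le_two hz hw1
  have h64 : (1:ℝ) ≤ 64 ^ S.L := one_le_pow₀ (by norm_num)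
  have hDy : (d z w)⁻¹ * (dl w / d z w)⁻¹ = (dl w)⁻¹ := by field_simp
  have hyi : 1/2 ≤ (dl w / d z w)⁻¹ := by rw [one_div]; exact inv_anti₀ hy0 hy2
  have h3 : S.T.h v ≤ d z (S.T.a v) := S.T.h_le_d v z hz1
  have h2 : (sE n : ℝ) / d z (S.T.a v) ≤ sE n * 64 ^ S.L * (dl w)⁻¹ := by
    rw [div_eq_mul_inv, mul_assoc]
    apply mul_le_mul_of_nonneg_left _ (Nat.cast_nonneg _)
    rw [← div_eq_mul_inv, inv_eq_one_div, div_le_div_iff₀ hta hdw, one_mul]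
    calc dl w ≤ 64 ^ S.L * S.T.h v := hwx
      _ ≤ 64 ^ S.L * d z (S.T.a v) := mul_le_mul_of_nonneg_left h3 (by positivity)
  have h5 : ((NE n : ℝ) + 164 * sE n) / d z w ≤
      2 * (NE n + 164 * sE n) * 64 ^ S.L * ((d z w)⁻¹ * (dl w / d z w)⁻¹) := by
    rw [div_eq_mul_inv]
    have h6 : 0 ≤ ((NE n : ℝ) + 164 * sE n) * (d z w)⁻¹ := by positivity
    have h7 : 1 ≤ 2 * 64 ^ S.L * (dl w / d z w)⁻¹ := by nlinarith
    calc ((NE n : ℝ) + 164 * sE n) * (d z w)⁻¹ = ((NE n : ℝ) + 164 * sE n) * (d z w)⁻¹ * 1 := by ring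
      _ ≤ ((NE n : ℝ) + 164 * sE n) * (d z w)⁻¹ * (2 * 64 ^ S.L * (dl w / d z w)⁻¹) :=
        mul_le_mul_of_nonneg_left h7 h6
      _ = _ := by ring
  rw [hDy] at h5 ⊢
  unfold CN
  refine h1.trans ?_
  calc _ ≤ 2 * (NE n + 164 * sE n) * 64 ^ S.L * (dl w)⁻¹ + sE n * 64 ^ S.L * (dl w)⁻¹ :=
        add_le_add h5 h2
    _ = _ := by ring

theorem term_D_le {w z : E n} (hw : w ∈ B n) (hz : z ∈ B n) {v : S.T.ι} (hv : v ∈ S.clD w) :
    S.c (S.vw w) * ‖S.term w z v‖ ≤ CD n C K * (64 ^ S.L / S.p') * S.c (S.vw z) * Qk 1 z w *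
        (S.T.h v / d z (S.T.a v)) ^ (sE n - n - 1) := by
  have hz1 := (mem_B.1 hz).le
  have hw1 := (mem_B.1 hw).le
  have hD := d_pos hz hw1
  have hdw := dl_pos hw
  have hdz := dl_pos hz
  have hcz := S.c_pos (S.vw z)
  have hp' : 0 < S.p' := by have := S.hp'; linarith
  have hC0 := C0_nonneg n
  have hCN := CN_nonneg n
  have hC5 := S.C5_nonneg
  have hQ0 := Qk_nonneg 1 hz1 hw1
  unfold clD at hv
  rw [Finset.mem_filter] at hv
  obtain ⟨_, hrv, hl1, hl2⟩ := hv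
  have hτ0 : 0 < S.T.h v / d z (S.T.a v) := S.T.ratio_a_pos v hz1
  by_cases hnear : rho (S.T.pt (S.T.loc w)) (S.T.pt v) ≤ S.p'' * S.T.r v
  · have hne : S.vw w ≠ v := by
      intro h
      have h1 := S.T.lev_le_of_le (S.vw_anc w)
      rw [h] at h1; omega
    have hin : S.inn w v = 0 := S.inn_eq_zero hrv (Or.inr ⟨hne, S.T.loc w, rfl, hl2, hl1.le, hnear⟩)
    have h0 : S.term w z v = 0 := by unfold term; rw [hin]; ring
    rw [h0, norm_zero, mul_zero]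
    unfold CD
    positivity
  · push Not at hnear
    have hT := S.term_z_le hw hz v
    have hfar := S.far_D hw hz hl2 hnear
    have hfac := S.fac_D hw hz hl2
    have hin := S.norm_inn_le w v
    have hPB : PB z w = (dl w / d z w) ^ (3 * sE n) * ((d z w) ^ n)⁻¹ := rfl
    have hQ : Qk 1 z w = dl z * (d z w)⁻¹ * (dl w / d z w) ^ 2 * ((d z w) ^ n)⁻¹ := by
      rw [Qk_one, div_eq_mul_inv (dl z)]
    have hy0 : 0 < dl w / d z w := div_pos hdw hD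
    have hy2 : dl w / d z w ≤ 2 := ratio_le_two hz hw1
    rw [hPB] at hT
    rw [hQ]
    have hfn := norm_nonneg (S.fac w z v)
    generalize dl w / d z w = y at *
    generalize S.T.h v / d z (S.T.a v) = τ at *
    generalize d z w = D at *
    have hsmall : 1 ≤ (4 / S.p') * (y⁻¹ * τ⁻¹) := by
      rw [div_mul_eq_mul_div, le_div_iff₀ hp']; linarith
    have g4 : y ^ (3 * sE n) * (y⁻¹) ^ 2 ≤ 2 ^ (3 * sE n) * y ^ 2 :=
      pow_trade hy0 hy2 (by unfold sE; omega)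
    have hsn : sE n - n = (sE n - n - 1) + 1 := by unfold sE; omega
    have g5 : τ ^ (sE n - n) * τ⁻¹ = τ ^ (sE n - n - 1) := by
      rw [hsn, pow_succ, Nat.add_sub_cancel, mul_assoc, mul_inv_cancel₀ hτ0.ne', mul_one]
    have hτs : 0 ≤ τ ^ (sE n - n) := pow_nonneg hτ0.le _
    calc S.c (S.vw w) * ‖S.term w z v‖ ≤ (C0 n * C5 n C K) * S.c (S.vw z) *
        (dl z * (y ^ (3 * sE n) * (D ^ n)⁻¹) * τ ^ (sE n - n) * ‖S.fac w z v‖) * ‖S.inn w v‖ := hT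
      _ ≤ (C0 n * C5 n C K) * S.c (S.vw z) *
        (dl z * (y ^ (3 * sE n) * (D ^ n)⁻¹) * τ ^ (sE n - n) * (CN n * 64 ^ S.L * (D⁻¹ * y⁻¹))) *
          ((4 / S.p') * (y⁻¹ * τ⁻¹)) := by
          apply mul_le_mul _ (hin.trans hsmall) (norm_nonneg _) (by positivity)
          gcongr
      _ = (C0 n * C5 n C K * CN n * 4) * (64 ^ S.L / S.p') * S.c (S.vw z) * (dl z * D⁻¹ * (D ^ n)⁻¹) *
          (τ ^ (sE n - n) * τ⁻¹) * (y ^ (3 * sE n) * (y⁻¹) ^ 2) := by ring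
      _ ≤ (C0 n * C5 n C K * CN n * 4) * (64 ^ S.L / S.p') * S.c (S.vw z) * (dl z * D⁻¹ * (D ^ n)⁻¹) *
          (τ ^ (sE n - n) * τ⁻¹) * (2 ^ (3 * sE n) * y ^ 2) := by
          apply mul_le_mul_of_nonneg_left g4
          positivity
      _ = _ := by rw [g5]; unfold CD; ring

open Classical in
theorem ErrD_le (A : ℝ) (hLS : LevelSum n cT ((sE n - n - 1 : ℕ) : ℝ) A) {w z : E n}
    (hw : w ∈ B n) (hz : z ∈ B n) :
    S.c (S.vw w) * ‖S.ErrD w z‖ ≤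
      CD n C K * (A * (S.L * 64 ^ S.L / S.p')) * S.c (S.vw z) * Qk 1 z w := by
  have hz1 := (mem_B.1 hz).le
  have hw1 := (mem_B.1 hw).le
  have hcw := S.c_pos (S.vw w)
  have hcz := S.c_pos (S.vw z)
  have hp' := S.hp'
  have hQ := Qk_nonneg 1 hz1 hw1
  have hCD : 0 ≤ CD n C K := by
    unfold CD
    have hC0 := C0_nonneg n
    have hCN := CN_nonneg n
    have hC5 := S.C5_nonneg
    positivity
  set i := S.T.lev (S.T.loc w) with hi
  have hsum : ∑ v ∈ S.clD w, (S.T.h v / d z (S.T.a v)) ^ (sE n - n - 1) ≤ S.L * A := by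
    have h1 : ∑ v ∈ S.clD w, (S.T.h v / d z (S.T.a v)) ^ (sE n - n - 1) ≤
        ∑ j ∈ Finset.Ioc i (i + S.L), ∑ v ∈ Finset.univ.filter (fun v => S.T.lev v = j),
          (S.T.h v / d z (S.T.a v)) ^ (sE n - n - 1) := by
      rw [← Finset.sum_fiberwise_of_maps_to (s := S.clD w) (t := Finset.Ioc i (i + S.L))
        (g := fun v => S.T.lev v)
        (by
          intro v hv
          unfold clD at hv
          rw [Finset.mem_filter] at hv
          rw [Finset.mem_Ioc]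
          exact hv.2.2)]
      apply Finset.sum_le_sum
      intro j _
      apply Finset.sum_le_sum_of_subset_of_nonneg
      · intro v hv
        rw [Finset.mem_filter] at hv ⊢
        exact ⟨Finset.mem_univ _, hv.2⟩
      · intro v _ _
        exact pow_nonneg (S.T.ratio_a_pos v hz1).le _
    refine h1.trans ?_
    have h2 : ∀ j ∈ Finset.Ioc i (i + S.L), ∑ v ∈ Finset.univ.filter (fun v => S.T.lev v = j),
        (S.T.h v / d z (S.T.a v)) ^ (sE n - n - 1) ≤ A := by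
      intro j _
      have h3 := hLS S.T j z hz1
      have h4 : ∀ v, (S.T.h v / d z (S.T.a v)) ^ (((sE n - n - 1 : ℕ)) : ℝ) =
          (S.T.h v / d z (S.T.a v)) ^ (sE n - n - 1) := fun v => Real.rpow_natCast _ _
      simp only [h4] at h3
      exact h3
    refine (Finset.sum_le_sum h2).trans ?_
    rw [Finset.sum_const, nsmul_eq_mul, Nat.card_Ioc]
    simp
  calc S.c (S.vw w) * ‖S.ErrD w z‖ ≤ S.c (S.vw w) * ∑ v ∈ S.clD w, ‖S.term w z v‖ :=
        mul_le_mul_of_nonneg_left (norm_sum_le _ _) hcw.le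
    _ = ∑ v ∈ S.clD w, S.c (S.vw w) * ‖S.term w z v‖ := Finset.mul_sum _ _ _
    _ ≤ ∑ v ∈ S.clD w, CD n C K * (64 ^ S.L / S.p') * S.c (S.vw z) * Qk 1 z w *
        (S.T.h v / d z (S.T.a v)) ^ (sE n - n - 1) :=
        Finset.sum_le_sum (fun v hv => S.term_D_le hw hz hv)
    _ = CD n C K * (64 ^ S.L / S.p') * S.c (S.vw z) * Qk 1 z w *
        ∑ v ∈ S.clD w, (S.T.h v / d z (S.T.a v)) ^ (sE n - n - 1) := by rw [Finset.mul_sum]
    _ ≤ CD n C K * (64 ^ S.L / S.p') * S.c (S.vw z) * Qk 1 z w * (S.L * A) := by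
        apply mul_le_mul_of_nonneg_left hsum
        have : 0 ≤ S.p' := by linarith
        positivity
    _ = _ := by ring

end Sys

end

end Pool.Agent.Lib.MP7ebef4
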