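import Pool.Agent.Lib.MP_7ebef4_an.ErrBC2

/-! Definitions for the class (E) of the error: `term = termE1 + termE2`. -/

set_option autoImplicit false

open MeasureTheory Set

namespace Pool.Agent.Lib.MP7ebef4

noncomputable section

variable {n : ℕ}

namespace Sys

variable {cT C K : ℝ} (S : Sys n cT C K)

/-- `D k_v (z) = k_v(z) (N - s + s/q(z,a_v))` -/
def Dk (v : S.T.ι) (z : E n) : ℂ :=
  kk S.T v z * ((NE n : ℂ) - (sE n : ℂ) + (sE n : ℂ) / q z (S.T.a v))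

/-- `R Φ_w (z)` -/
def RPhi (w z : E n) : ℂ :=
  S.Phi w z * ((NE n : ℂ) / q z w - (sE n : ℂ) / q z (S.T.a (S.vw w)) - (NE n : ℂ) + (sE n : ℂ))

open Classical in
/-- the pumps -/
def pumps : Finset S.T.ι := Finset.univ.filter (fun v => S.resp v = v)

open Classical in
/-- class (E) -/
def clE (w : E n) : Finset S.T.ι :=
  Finset.univ.filter (fun v => S.resp v = v ∧ S.T.lev (S.T.loc w) + S.L < S.T.lev v)

def termE1 (w z : E n) (v : S.T.ι) : ℂ :=
  (dl z : ℂ) * ((S.c v : ℂ) * S.inn w v) *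
    (S.Dk v z * (S.Phi w z - S.Phi w (S.T.a v)) + kk S.T v z * S.RPhi w z)

def termE2 (w z : E n) (v : S.T.ι) : ℂ :=
  (dl z : ℂ) * ((S.c v : ℂ) * S.inn w v) * (S.Dk v z * S.Phi w (S.T.a v))

theorem term_eq (w z : E n) (v : S.T.ι) : S.term w z v = S.termE1 w z v + S.termE2 w z v := by
  unfold term termE1 termE2 Dk RPhi fac
  ring

def ErrE1 (w z : E n) : ℂ := ∑ v ∈ S.clE w, S.termE1 w z v

def ErrE2 (w z : E n) : ℂ := ∑ v ∈ S.clE w, S.termE2 w z v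

/-- square of the `X` norm -/
def XN (F : E n → ℂ) : ENNReal :=
  ∫⁻ w, (‖F w‖ₑ / ENNReal.ofReal (S.c (S.vw w))) ^ (2:ℕ) ∂(lam n)

/-- the numbers `ψ_v` -/
def psi (F : E n → ℂ) (v : S.T.ι) : ℂ :=
  ∫ w in {w | S.T.lev (S.T.loc w) + S.L < S.T.lev v}, F w * (S.Phi w (S.T.a v) * S.inn w v) ∂(lam n)

end Sys

end

end Pool.Agent.Lib.MP7ebef4
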