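import Pool.Agent.Lib.MP_7ebef4_an.ErrDefs
import Pool.Agent.Lib.MP_7ebef4_an.ErrA

/-! Error class (E1). -/

set_option autoImplicit false

open MeasureTheory Set

namespace Pool.Agent.Lib.MP7ebef4

noncomputable section

variable {n : ℕ}

theorem PB_le_sq {z w : E n} (hz : z ∈ B n) (hw : w ∈ B n) :
    PB z w ≤ 2 ^ (3 * sE n) * ((dl w / d z w) ^ 2 * ((d z w) ^ n)⁻¹) := by
  have hz1 := (mem_B.1 hz).le
  have hw1 := (mem_B.1 hw).le
  have hD := d_pos hz hw1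
  have hy0 : 0 < dl w / d z w := div_pos (dl_pos hw) hD
  have h := pow_trade hy0 (ratio_le_two hz hw1) (m := 3 * sE n) (k := 0) (by unfold sE; omega)
  rw [pow_zero, mul_one] at h
  unfold PB
  have h2 : 0 ≤ ((d z w) ^ n)⁻¹ := by positivity
  calc _ ≤ (2 ^ (3 * sE n) * (dl w / d z w) ^ 2) * ((d z w) ^ n)⁻¹ := mul_le_mul_of_nonneg_right h h2
    _ = _ := by ring

namespace Sys

variable {cT C K : ℝ} (S : Sys n cT C K)

def CPhi (n : ℕ) : ℝ :=
  (100 * (sE n) * 2 ^ (sE n) * 2 ^ (NE n) + 5 * (NE n) * 2 ^ (NE n)) * (|c0 n| * 326 ^ (sE n))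

theorem CPhi_nonneg (n : ℕ) : 0 ≤ CPhi n := by unfold CPhi; positivity

/-- constant of `Phi_diff_le` -/
def CV (n : ℕ) : ℝ :=
  CPhi n * 2 * (16 * 2 ^ (3 * sE n)) * 4 ^ n + 109 * C0 n * 2 ^ (3 * sE n) +
    109 * C0 n * 2 ^ (3 * sE n + n) * 11810 ^ (n + 2)

theorem CV_nonneg (n : ℕ) : 0 ≤ CV n := by
  have := CPhi_nonneg n; have := C0_nonneg n
  unfold CV; positivity

theorem Phi_diff_le {w z : E n} (hw : w ∈ B n) (hz : z ∈ B n) {v : S.T.ι} (hv : S.T.h v ≤ dl w) :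
    S.c (S.vw w) * ‖S.Phi w z - S.Phi w (S.T.a v)‖ ≤
      CV n * Real.sqrt (d z (S.T.a v) / d z w) * ((dl w / d z w) ^ 2 * ((d z w) ^ n)⁻¹) *
        ((S.T.h v / d z (S.T.a v))⁻¹) ^ (n + 2) := by
  have hz1 := (mem_B.1 hz).le
  have hw1 := (mem_B.1 hw).le
  have ha := S.T.a_mem v
  have ha1 := S.T.norm_a_le v
  have hD := d_pos hz hw1
  have hp := d_pos ha hw1
  have hdw := dl_pos hw
  have hhv := S.T.h_pos v
  have hta := S.T.d_a_pos v hz1
  have hht := S.T.h_le_d v z hz1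
  have htri := d_tri z (S.T.a v) w hz1 ha1 hw1
  have htri2 := d_tri (S.T.a v) z w ha1 hz1 hw1
  rw [d_comm (S.T.a v) z] at htri2
  have hpd := dl_le_right (S.T.a v) w ha1
  have hcw := S.c_pos (S.vw w)
  have hC0 := C0_nonneg n
  have hCP := CPhi_nonneg n
  set t := d z (S.T.a v) with ht
  set p := d (S.T.a v) w with hpdef
  set D := d z w with hDdef
  have hτ1 : 1 ≤ (S.T.h v / t)⁻¹ := by rw [inv_div, one_le_div hhv]; exact hht
  have hτn : 1 ≤ ((S.T.h v / t)⁻¹) ^ (n + 2) := one_le_pow₀ hτ1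
  have hx0 : 0 ≤ Real.sqrt (t / D) := Real.sqrt_nonneg _
  have hY : 0 ≤ (dl w / D) ^ 2 * (D ^ n)⁻¹ := by positivity
  by_cases hc : 36 * 164 * t ≤ p
  · -- close
    have h1 := S.Phi_variation hw hz ha hc
    rw [← ht, ← hpdef] at h1
    have hpD : p ≤ 4 * D := by linarith
    have hDp : D ≤ 4 * p := by linarith
    have h2 : Real.sqrt (t / p) ≤ 2 * Real.sqrt (t / D) := by
      rw [show (2:ℝ) * Real.sqrt (t / D) = Real.sqrt (2^2 * (t / D)) by
        rw [Real.sqrt_mul (by norm_num), Real.sqrt_sq (by norm_num)]]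
      apply Real.sqrt_le_sqrt
      rw [div_le_iff₀ hp, mul_assoc, div_mul_eq_mul_div, ← mul_div_assoc, le_div_iff₀ hD]
      nlinarith
    have h3 : PB (S.T.a v) w ≤ (16 * 2 ^ (3 * sE n)) * 4 ^ n * ((dl w / D) ^ 2 * (D ^ n)⁻¹) := by
      refine (PB_le_sq ha hw).trans ?_
      rw [← hpdef]
      have e1 : dl w / p ≤ 4 * (dl w / D) := by
        rw [div_le_iff₀ hp, mul_assoc, div_mul_eq_mul_div, ← mul_div_assoc, le_div_iff₀ hD]
        nlinarith
      have e2 : (dl w / p) ^ 2 ≤ 16 * (dl w / D) ^ 2 := by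
        have : (dl w / p) ^ 2 ≤ (4 * (dl w / D)) ^ 2 := pow_le_pow_left₀ (by positivity) e1 _
        rw [mul_pow] at this; linarith
      have e3 : (p ^ n)⁻¹ ≤ 4 ^ n * (D ^ n)⁻¹ := by
        rw [← div_eq_mul_inv, inv_eq_one_div, div_le_div_iff₀ (by positivity) (by positivity), one_mul,
          ← mul_pow]
        exact pow_le_pow_left₀ hD.le hDp _
      calc 2 ^ (3 * sE n) * ((dl w / p) ^ 2 * (p ^ n)⁻¹)
          ≤ 2 ^ (3 * sE n) * ((16 * (dl w / D) ^ 2) * (4 ^ n * (D ^ n)⁻¹)) := by gcongr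
        _ = _ := by ring
    have hPB := PB_nonneg ha1 hw1
    calc S.c (S.vw w) * ‖S.Phi w z - S.Phi w (S.T.a v)‖ ≤ CPhi n * Real.sqrt (t / p) * PB (S.T.a v) w := h1
      _ ≤ CPhi n * (2 * Real.sqrt (t / D)) *
          ((16 * 2 ^ (3 * sE n)) * 4 ^ n * ((dl w / D) ^ 2 * (D ^ n)⁻¹)) := by gcongr
      _ = (CPhi n * 2 * (16 * 2 ^ (3 * sE n)) * 4 ^ n) * Real.sqrt (t / D) *
          ((dl w / D) ^ 2 * (D ^ n)⁻¹) * 1 := by ring
      _ ≤ CV n * Real.sqrt (t / D) * ((dl w / D) ^ 2 * (D ^ n)⁻¹) * ((S.T.h v / t)⁻¹) ^ (n + 2) := by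
          have h5 : CPhi n * 2 * (16 * 2 ^ (3 * sE n)) * 4 ^ n ≤ CV n := by
            unfold CV
            have : 0 ≤ 109 * C0 n * 2 ^ (3 * sE n) := by positivity
            have : 0 ≤ 109 * C0 n * 2 ^ (3 * sE n + n) * 11810 ^ (n + 2) := by positivity
            linarith
          have := CV_nonneg n
          gcongr
  · push Not at hc
    have hDt : D ≤ 11810 * t := by linarith
    have hone : 1 ≤ 109 * Real.sqrt (t / D) := by
      have h6 : (1:ℝ) ≤ 109 ^ 2 * (t / D) := by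
        rw [← mul_div_assoc, one_le_div hD]; linarith
      have h7 : Real.sqrt 1 ≤ Real.sqrt (109 ^ 2 * (t / D)) := Real.sqrt_le_sqrt h6
      rwa [Real.sqrt_one, Real.sqrt_mul (by norm_num), Real.sqrt_sq (by norm_num)] at h7
    have hz' : S.c (S.vw w) * ‖S.Phi w z‖ ≤ C0 n * (2 ^ (3 * sE n) * ((dl w / D) ^ 2 * (D ^ n)⁻¹)) :=
      (S.norm_Phi_le hw hz).trans (mul_le_mul_of_nonneg_left (PB_le_sq hz hw) hC0)
    have ha' : S.c (S.vw w) * ‖S.Phi w (S.T.a v)‖ ≤ C0 n * (2 ^ (3 * sE n + n) *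
        (11810 ^ (n + 2) * ((S.T.h v / t)⁻¹) ^ (n + 2) * ((dl w / D) ^ 2 * (D ^ n)⁻¹))) := by
      refine (S.norm_Phi_le hw ha).trans (mul_le_mul_of_nonneg_left ?_ hC0)
      unfold PB
      rw [← hpdef]
      have e1 : (dl w / p) ^ (3 * sE n) ≤ 2 ^ (3 * sE n) := by
        apply pow_le_pow_left₀ (by positivity)
        rw [div_le_iff₀ hp]; exact hpd
      have e2 : (p ^ n)⁻¹ ≤ 2 ^ n * (dl w ^ n)⁻¹ := by
        rw [← div_eq_mul_inv, inv_eq_one_div, div_le_div_iff₀ (by positivity) (by positivity), one_mul,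
          ← mul_pow]
        exact pow_le_pow_left₀ hdw.le hpd _
      have e3 : (dl w ^ n)⁻¹ = (D / dl w) ^ (n + 2) * ((dl w / D) ^ 2 * (D ^ n)⁻¹) := by
        rw [pow_add, div_pow, div_pow, div_pow]
        field_simp
      have e4 : (D / dl w) ^ (n + 2) ≤ 11810 ^ (n + 2) * ((S.T.h v / t)⁻¹) ^ (n + 2) := by
        rw [← mul_pow]
        apply pow_le_pow_left₀ (by positivity)
        rw [inv_div, ← mul_div_assoc, div_le_div_iff₀ hdw hhv]
        calc D * S.T.h v ≤ (11810 * t) * S.T.h v := mul_le_mul_of_nonneg_right hDt hhv.le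
          _ ≤ (11810 * t) * dl w := mul_le_mul_of_nonneg_left hv (by positivity)
      calc (dl w / p) ^ (3 * sE n) * (p ^ n)⁻¹ ≤ 2 ^ (3 * sE n) * (2 ^ n * (dl w ^ n)⁻¹) := by gcongr
        _ = 2 ^ (3 * sE n + n) * ((D / dl w) ^ (n + 2) * ((dl w / D) ^ 2 * (D ^ n)⁻¹)) := by
            rw [← e3, pow_add]; ring
        _ ≤ 2 ^ (3 * sE n + n) * ((11810 ^ (n + 2) * ((S.T.h v / t)⁻¹) ^ (n + 2)) *
            ((dl w / D) ^ 2 * (D ^ n)⁻¹)) := by gcongr
    set τi := ((S.T.h v / t)⁻¹) ^ (n + 2) with hτi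
    set Y := (dl w / D) ^ 2 * (D ^ n)⁻¹ with hYdef
    have hsum : S.c (S.vw w) * ‖S.Phi w z - S.Phi w (S.T.a v)‖ ≤
        (C0 n * 2 ^ (3 * sE n) + C0 n * 2 ^ (3 * sE n + n) * 11810 ^ (n + 2)) * (Y * τi) := by
      have h8 : S.c (S.vw w) * ‖S.Phi w z - S.Phi w (S.T.a v)‖ ≤
          S.c (S.vw w) * ‖S.Phi w z‖ + S.c (S.vw w) * ‖S.Phi w (S.T.a v)‖ := by
        rw [← mul_add]; exact mul_le_mul_of_nonneg_left (norm_sub_le _ _) hcw.le
      refine h8.trans ((add_le_add hz' ha').trans ?_)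
      have h9 : C0 n * (2 ^ (3 * sE n) * Y) ≤ C0 n * (2 ^ (3 * sE n) * Y) * τi := by
        have : 0 ≤ C0 n * (2 ^ (3 * sE n) * Y) := by positivity
        nlinarith
      calc _ ≤ C0 n * (2 ^ (3 * sE n) * Y) * τi + C0 n * (2 ^ (3 * sE n + n) * (11810 ^ (n + 2) * τi * Y)) := by
            linarith
        _ = _ := by ring
    have hτi0 : 0 ≤ τi := by linarith
    calc S.c (S.vw w) * ‖S.Phi w z - S.Phi w (S.T.a v)‖
        ≤ (C0 n * 2 ^ (3 * sE n) + C0 n * 2 ^ (3 * sE n + n) * 11810 ^ (n + 2)) * (Y * τi) * 1 := by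
          rw [mul_one]; exact hsum
      _ ≤ (C0 n * 2 ^ (3 * sE n) + C0 n * 2 ^ (3 * sE n + n) * 11810 ^ (n + 2)) * (Y * τi) *
          (109 * Real.sqrt (t / D)) := by
          apply mul_le_mul_of_nonneg_left hone
          positivity
      _ = (109 * C0 n * 2 ^ (3 * sE n) + 109 * C0 n * 2 ^ (3 * sE n + n) * 11810 ^ (n + 2)) *
          Real.sqrt (t / D) * Y * τi := by ring
      _ ≤ CV n * Real.sqrt (t / D) * Y * τi := by
          have h5 : 109 * C0 n * 2 ^ (3 * sE n) + 109 * C0 n * 2 ^ (3 * sE n + n) * 11810 ^ (n + 2) ≤ CV n := by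
            unfold CV
            have : 0 ≤ CPhi n * 2 * (16 * 2 ^ (3 * sE n)) * 4 ^ n := by positivity
            linarith
          gcongr

theorem norm_Dk_le (v : S.T.ι) {z : E n} (hz : z ∈ B n) :
    ‖S.Dk v z‖ ≤ ‖kk S.T v z‖ * ((2 * NE n + 3 * sE n) / d z (S.T.a v)) := by
  have hz1 := (mem_B.1 hz).le
  have hta := S.T.d_a_pos v hz1
  have ht2 := d_le_two z (S.T.a v) hz1 (S.T.norm_a_le v)
  unfold Dk
  rw [norm_mul]
  apply mul_le_mul_of_nonneg_left _ (norm_nonneg _)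
  refine (norm_add_le _ _).trans ?_
  have h1 : ‖(NE n : ℂ) - (sE n : ℂ)‖ ≤ NE n + sE n := by
    refine (norm_sub_le _ _).trans ?_
    rw [Complex.norm_natCast, Complex.norm_natCast]
  have h2 : ‖(sE n : ℂ) / q z (S.T.a v)‖ = sE n / d z (S.T.a v) := by
    rw [norm_div, Complex.norm_natCast]; rfl
  rw [h2]
  have h3 : (NE n : ℝ) + sE n ≤ (2 * NE n + 2 * sE n) / d z (S.T.a v) := by
    rw [le_div_iff₀ hta]
    have : (0:ℝ) ≤ NE n := Nat.cast_nonneg _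
    have : (0:ℝ) ≤ sE n := Nat.cast_nonneg _
    nlinarith
  calc _ ≤ (2 * NE n + 2 * sE n) / d z (S.T.a v) + sE n / d z (S.T.a v) := by linarith
    _ = _ := by rw [← add_div]; ring_nf

theorem norm_RPhi_le {w z : E n} (hw : w ∈ B n) (hz : z ∈ B n) :
    ‖S.RPhi w z‖ ≤ ‖S.Phi w z‖ * ((3 * NE n + 166 * sE n) / d z w) := by
  have hz1 := (mem_B.1 hz).le
  have hw1 := (mem_B.1 hw).le
  have hD := d_pos hz hw1
  have hD2 := d_le_two z w hz1 hw1
  have hta' := S.T.d_a_pos (S.vw w) hz1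
  have h1 := S.T.d_le_anc hw hz1 (S.vw_anc w)
  unfold RPhi
  rw [norm_mul]
  apply mul_le_mul_of_nonneg_left _ (norm_nonneg _)
  have n1 : ‖(NE n : ℂ) / q z w‖ = NE n / d z w := by
    rw [norm_div, Complex.norm_natCast]; rfl
  have n3 : ‖(sE n : ℂ) / q z (S.T.a (S.vw w))‖ ≤ 164 * sE n / d z w := by
    rw [norm_div, Complex.norm_natCast]
    change (sE n : ℝ) / d z (S.T.a (S.vw w)) ≤ _
    rw [div_le_div_iff₀ hta' hD]
    have : (0:ℝ) ≤ sE n := Nat.cast_nonneg _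
    nlinarith
  have n4 : ‖(NE n : ℂ)‖ = NE n := Complex.norm_natCast _
  have n5 : ‖(sE n : ℂ)‖ = sE n := Complex.norm_natCast _
  have h2 : ‖(NE n : ℂ) / q z w - (sE n : ℂ) / q z (S.T.a (S.vw w)) - (NE n : ℂ) + (sE n : ℂ)‖ ≤
      NE n / d z w + 164 * sE n / d z w + NE n + sE n := by
    refine (norm_add_le _ _).trans ?_
    rw [n5]
    apply add_le_add_left
    refine (norm_sub_le _ _).trans ?_
    rw [n4]
    apply add_le_add_left
    refine (norm_sub_le _ _).trans ?_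
    rw [n1]
    exact add_le_add_right n3 _
  refine h2.trans ?_
  have h3 : (NE n : ℝ) + sE n ≤ (2 * NE n + 2 * sE n) / d z w := by
    rw [le_div_iff₀ hD]
    have : (0:ℝ) ≤ NE n := Nat.cast_nonneg _
    have : (0:ℝ) ≤ sE n := Nat.cast_nonneg _
    nlinarith
  calc _ ≤ NE n / d z w + 164 * sE n / d z w + (2 * NE n + 2 * sE n) / d z w := by linarith
    _ = _ := by rw [← add_div, ← add_div]; ring_nf

def CE (n : ℕ) (C K : ℝ) : ℝ :=
  C5 n C K * ((2 * NE n + 3 * sE n) * CV n + (3 * NE n + 166 * sE n) * (C0 n * 2 ^ (3 * sE n)))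

include S in
theorem CE_nonneg : 0 ≤ CE n C K := by
  unfold CE
  have := CV_nonneg n; have := C0_nonneg n; have := S.C5_nonneg
  positivity

theorem termE1_le {w z : E n} (hw : w ∈ B n) (hz : z ∈ B n) {v : S.T.ι} (hv : S.T.h v ≤ dl w) :
    S.c (S.vw w) * ‖S.termE1 w z v‖ ≤ CE n C K * S.c (S.vw z) *
      ((dl w / d z w) ^ 2 * ((d z w) ^ n)⁻¹) *
      ((S.T.h v / d z (S.T.a v)) ^ (sE n - 2 * n - 2) *
        (dl z / d z (S.T.a v) * Real.sqrt (d z (S.T.a v) / d z w) + dl z / d z w)) := by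
  have hz1 := (mem_B.1 hz).le
  have hw1 := (mem_B.1 hw).le
  have hD := d_pos hz hw1
  have hdz := dl_pos hz
  have hhv := S.T.h_pos v
  have hta := S.T.d_a_pos v hz1
  have hcw := S.c_pos (S.vw w)
  have hcz := S.c_pos (S.vw z)
  have hC0 := C0_nonneg n
  have hCV := CV_nonneg n
  have hC5 := S.C5_nonneg
  have hin := S.norm_inn_le w v
  have h1 := S.Phi_diff_le hw hz hv
  have h2 := S.norm_Dk_le v hz
  have h3 := S.norm_RPhi_le hw hz
  have h4 : S.c (S.vw w) * ‖S.Phi w z‖ ≤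
      C0 n * (2 ^ (3 * sE n) * ((dl w / d z w) ^ 2 * ((d z w) ^ n)⁻¹)) :=
    (S.norm_Phi_le hw hz).trans (mul_le_mul_of_nonneg_left (PB_le_sq hz hw) hC0)
  have h5 := S.c_node_le v hz
  have hkk := S.T.norm_kk v z
  have hτ0 : 0 < S.T.h v / d z (S.T.a v) := S.T.ratio_a_pos v hz1
  have hτ1 : S.T.h v / d z (S.T.a v) ≤ 1 := S.T.ratio_a_le_one v hz1
  have hτi : d z (S.T.a v) / S.T.h v = (S.T.h v / d z (S.T.a v))⁻¹ := by rw [inv_div]
  rw [hτi] at h5
  have e0 : ‖S.termE1 w z v‖ = dl z * (S.c v * ‖S.inn w v‖) *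
      ‖S.Dk v z * (S.Phi w z - S.Phi w (S.T.a v)) + kk S.T v z * S.RPhi w z‖ := by
    unfold termE1
    rw [norm_mul, norm_mul, norm_mul, Complex.norm_real, Complex.norm_real,
      Real.norm_of_nonneg hdz.le, Real.norm_of_nonneg (S.c_pos v).le]
  have hsqrt := Real.sqrt_nonneg (d z (S.T.a v) / d z w)
  have hY : 0 ≤ (dl w / d z w) ^ 2 * ((d z w) ^ n)⁻¹ := by
    have := dl_pos hw
    positivity
  rw [e0]
  generalize hYg : (dl w / d z w) ^ 2 * ((d z w) ^ n)⁻¹ = Y at *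
  generalize hXg : Real.sqrt (d z (S.T.a v) / d z w) = X at *
  generalize hτg : S.T.h v / d z (S.T.a v) = τ at *
  generalize htg : d z (S.T.a v) = t at *
  generalize hDg : d z w = D at *
  -- inner bound
  have hkkn := norm_nonneg (kk S.T v z)
  have b1 : S.c (S.vw w) * ‖S.Dk v z * (S.Phi w z - S.Phi w (S.T.a v)) + kk S.T v z * S.RPhi w z‖ ≤
      ‖kk S.T v z‖ * (((2 * NE n + 3 * sE n) / t) * (CV n * X * Y * τ⁻¹ ^ (n + 2)) +
        ((3 * NE n + 166 * sE n) / D) * (C0 n * (2 ^ (3 * sE n) * Y))) := by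
    have n1 : ‖S.Dk v z * (S.Phi w z - S.Phi w (S.T.a v)) + kk S.T v z * S.RPhi w z‖ ≤
        ‖S.Dk v z‖ * ‖S.Phi w z - S.Phi w (S.T.a v)‖ + ‖kk S.T v z‖ * ‖S.RPhi w z‖ := by
      refine (norm_add_le _ _).trans ?_
      rw [norm_mul, norm_mul]
    calc S.c (S.vw w) * ‖S.Dk v z * (S.Phi w z - S.Phi w (S.T.a v)) + kk S.T v z * S.RPhi w z‖
        ≤ S.c (S.vw w) * (‖S.Dk v z‖ * ‖S.Phi w z - S.Phi w (S.T.a v)‖ + ‖kk S.T v z‖ * ‖S.RPhi w z‖) :=
          mul_le_mul_of_nonneg_left n1 hcw.le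
      _ = ‖S.Dk v z‖ * (S.c (S.vw w) * ‖S.Phi w z - S.Phi w (S.T.a v)‖) +
          ‖kk S.T v z‖ * (S.c (S.vw w) * ‖S.RPhi w z‖) := by ring
      _ ≤ (‖kk S.T v z‖ * ((2 * NE n + 3 * sE n) / t)) * (CV n * X * Y * τ⁻¹ ^ (n + 2)) +
          ‖kk S.T v z‖ * (((3 * NE n + 166 * sE n) / D) * (C0 n * (2 ^ (3 * sE n) * Y))) := by
          apply add_le_add
          · apply mul_le_mul h2 h1 (mul_nonneg hcw.le (norm_nonneg _)) (by positivity)
          · apply mul_le_mul_of_nonneg_left _ hkkn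
            calc S.c (S.vw w) * ‖S.RPhi w z‖ ≤ S.c (S.vw w) * (‖S.Phi w z‖ * ((3 * NE n + 166 * sE n) / D)) :=
                  mul_le_mul_of_nonneg_left h3 hcw.le
              _ = ((3 * NE n + 166 * sE n) / D) * (S.c (S.vw w) * ‖S.Phi w z‖) := by ring
              _ ≤ _ := mul_le_mul_of_nonneg_left h4 (by positivity)
      _ = _ := by ring
  have hck : S.c v * ‖kk S.T v z‖ ≤ C5 n C K * S.c (S.vw z) * τ ^ (sE n - n) := by
    rw [hkk]
    have g3 : τ⁻¹ ^ n * τ ^ (sE n) = τ ^ (sE n - n) := by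
      have : sE n = n + (sE n - n) := by unfold sE; omega
      conv_lhs => rw [this, pow_add]
      rw [inv_pow]
      have : τ ^ n ≠ 0 := pow_ne_zero _ hτ0.ne'
      field_simp
    calc S.c v * τ ^ (sE n) ≤ (C5 n C K * τ⁻¹ ^ n * S.c (S.vw z)) * τ ^ (sE n) :=
          mul_le_mul_of_nonneg_right h5 (pow_nonneg hτ0.le _)
      _ = C5 n C K * S.c (S.vw z) * (τ⁻¹ ^ n * τ ^ (sE n)) := by ring
      _ = _ := by rw [g3]
  have hτa : τ ^ (sE n - n) * τ⁻¹ ^ (n + 2) = τ ^ (sE n - 2 * n - 2) := by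
    have : sE n - n = (sE n - 2 * n - 2) + (n + 2) := by unfold sE; omega
    rw [this, pow_add, inv_pow]
    have : τ ^ (n + 2) ≠ 0 := pow_ne_zero _ hτ0.ne'
    field_simp
  have hτb : τ ^ (sE n - n) ≤ τ ^ (sE n - 2 * n - 2) :=
    pow_le_pow_of_le_one hτ0.le hτ1 (by unfold sE; omega)
  have hcv := (S.c_pos v).le
  have hτm : 0 ≤ τ ^ (sE n - 2 * n - 2) := pow_nonneg hτ0.le _
  have hτm2 : 0 ≤ τ ^ (sE n - n) := pow_nonneg hτ0.le _
  have hInn := norm_nonneg (S.inn w v)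
  set Br := ((2 * NE n + 3 * sE n) / t) * (CV n * X * Y * τ⁻¹ ^ (n + 2)) +
        ((3 * NE n + 166 * sE n) / D) * (C0 n * (2 ^ (3 * sE n) * Y)) with hBr
  have hBr0 : 0 ≤ Br := by rw [hBr]; positivity
  calc S.c (S.vw w) * (dl z * (S.c v * ‖S.inn w v‖) *
        ‖S.Dk v z * (S.Phi w z - S.Phi w (S.T.a v)) + kk S.T v z * S.RPhi w z‖)
      = dl z * ‖S.inn w v‖ * S.c v *
        (S.c (S.vw w) * ‖S.Dk v z * (S.Phi w z - S.Phi w (S.T.a v)) + kk S.T v z * S.RPhi w z‖) := by ring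
    _ ≤ dl z * ‖S.inn w v‖ * S.c v * (‖kk S.T v z‖ * Br) :=
        mul_le_mul_of_nonneg_left b1 (by positivity)
    _ = dl z * ‖S.inn w v‖ * (S.c v * ‖kk S.T v z‖) * Br := by ring
    _ ≤ dl z * 1 * (C5 n C K * S.c (S.vw z) * τ ^ (sE n - n)) * Br := by gcongr
    _ = C5 n C K * S.c (S.vw z) * (
          (2 * NE n + 3 * sE n) * CV n * (dl z / t * X) * Y * (τ ^ (sE n - n) * τ⁻¹ ^ (n + 2)) +
          (3 * NE n + 166 * sE n) * (C0 n * 2 ^ (3 * sE n)) * (dl z / D) * Y * τ ^ (sE n - n)) := by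
        rw [hBr]; ring
    _ ≤ C5 n C K * S.c (S.vw z) * (
          (2 * NE n + 3 * sE n) * CV n * (dl z / t * X) * Y * τ ^ (sE n - 2 * n - 2) +
          (3 * NE n + 166 * sE n) * (C0 n * 2 ^ (3 * sE n)) * (dl z / D) * Y * τ ^ (sE n - 2 * n - 2)) := by
        rw [hτa]; gcongr
    _ ≤ CE n C K * S.c (S.vw z) * Y * (τ ^ (sE n - 2 * n - 2) * (dl z / t * X + dl z / D)) := by
        unfold CE
        have a1 : 0 ≤ (2 * NE n + 3 * sE n) * CV n := by positivity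
        have a2 : 0 ≤ (3 * NE n + 166 * sE n) * (C0 n * 2 ^ (3 * sE n)) := by positivity
        generalize (2 * NE n + 3 * sE n) * CV n = α at *
        generalize (3 * NE n + 166 * sE n) * (C0 n * 2 ^ (3 * sE n)) = β at *
        have a3 : 0 ≤ (dl z / t * X) * Y * τ ^ (sE n - 2 * n - 2) := by positivity
        have a4 : 0 ≤ (dl z / D) * Y * τ ^ (sE n - 2 * n - 2) := by positivity
        have a5 : α * (dl z / t * X) * Y * τ ^ (sE n - 2 * n - 2) +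
            β * (dl z / D) * Y * τ ^ (sE n - 2 * n - 2) ≤
            (α + β) * (Y * (τ ^ (sE n - 2 * n - 2) * (dl z / t * X + dl z / D))) := by
          nlinarith [mul_nonneg a2 a3, mul_nonneg a1 a4]
        calc _ ≤ C5 n C K * S.c (S.vw z) * ((α + β) * (Y * (τ ^ (sE n - 2 * n - 2) * (dl z / t * X + dl z / D)))) := by
              apply mul_le_mul_of_nonneg_left a5 (by positivity)
          _ = _ := by ring

end Sys

end

end Pool.Agent.Lib.MP7ebef4
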