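import Pool.Agent.Lib.MP_7ebef4_an.ErrE1

/-! Error class (E1): summation. -/

set_option autoImplicit false

open MeasureTheory Set

namespace Pool.Agent.Lib.MP7ebef4

noncomputable section

variable {n : ℕ}

namespace Sys

variable {cT C K : ℝ} (S : Sys n cT C K)

/-- exponent `s - 2n - 2` -/
def mE (n : ℕ) : ℕ := sE n - 2 * n - 2

theorem clE_scale {w : E n} (hw : w ∈ B n) {v : S.T.ι} (hv : v ∈ S.clE w) :
    S.T.h v ≤ (1/64 : ℝ) ^ S.L * dl w ∧ S.T.h v ≤ dl w := by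
  unfold clE at hv
  rw [Finset.mem_filter] at hv
  obtain ⟨_, _, hl⟩ := hv
  have hI := S.T.lev_le v
  have h1 := S.T.loc_lower w hw (by omega)
  have h2 : S.T.h v ≤ hh (S.T.lev (S.T.loc w) + 1 + S.L) := hh_anti (by omega)
  rw [hh_add] at h2
  have h3 : (0:ℝ) ≤ (1/64 : ℝ) ^ S.L := by positivity
  have h4 : (1/64 : ℝ) ^ S.L ≤ 1 := pow_le_one₀ (by norm_num) (by norm_num)
  have h5 := hh_pos (S.T.lev (S.T.loc w) + 1)
  constructor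
  · nlinarith
  · nlinarith

theorem sum_E (A₁ A₂ : ℝ) (hN1 : NodeSum n cT ((mE n : ℕ) - 1/4) ((mE n : ℕ) + 1/2) A₁)
    (hN2 : NodeSum n cT ((mE n : ℕ) - 1/4) ((mE n : ℕ)) A₂) {w z : E n}
    (hw : w ∈ B n) (hz : z ∈ B n) :
    ∑ v ∈ S.clE w, ((S.T.h v / d z (S.T.a v)) ^ (mE n) *
        (dl z / d z (S.T.a v) * Real.sqrt (d z (S.T.a v) / d z w) + dl z / d z w)) ≤
      (4 * (A₁ + A₂) * S.kL) * (dl z / d z w) ^ (1/4 : ℝ) := by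
  have hz1 := (mem_B.1 hz).le
  have hw1 := (mem_B.1 hw).le
  have hD := d_pos hz hw1
  have hdz := dl_pos hz
  have hdw := dl_pos hw
  have hzD := dl_le_left z w hw1
  have hwD := dl_le_right z w hz1
  have hk := S.kL_nonneg
  have h1 := hN1 S.T z hz
  have h2 := hN2 S.T z hz
  set D := d z w with hDdef
  set q4 : ℝ := (dl z / D) ^ (1/4 : ℝ) with hq4
  have hq40 : 0 < q4 := Real.rpow_pos_of_pos (div_pos hdz hD) _
  have key : ∀ v ∈ S.clE w, ((S.T.h v / d z (S.T.a v)) ^ (mE n) *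
        (dl z / d z (S.T.a v) * Real.sqrt (d z (S.T.a v) / D) + dl z / D)) ≤
      (4 * S.kL * q4) * (dl z ^ (3/4 : ℝ) *
        (S.T.h v ^ ((mE n : ℕ) - 1/4 : ℝ) * d z (S.T.a v) ^ (-((mE n : ℕ) + 1/2 : ℝ)))) +
      (4 * S.kL * q4) * (dl z ^ (1/4 : ℝ) *
        (S.T.h v ^ ((mE n : ℕ) - 1/4 : ℝ) * d z (S.T.a v) ^ (-((mE n : ℕ) : ℝ)))) := by
    intro v hv
    obtain ⟨hs1, _⟩ := S.clE_scale hw hv
    have hhv := S.T.h_pos v
    have ht := S.T.d_a_pos v hz1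
    set t := d z (S.T.a v) with htdef
    set h := S.T.h v with hhdef
    have hsm : (h / D) ^ (1/4:ℝ) ≤ 2 * S.kL := by
      have h3 : h / D ≤ 2 * (1/64 : ℝ) ^ S.L := by
        rw [div_le_iff₀ hD]
        have : (0:ℝ) ≤ (1/64 : ℝ) ^ S.L := by positivity
        nlinarith
      calc (h / D) ^ (1/4:ℝ) ≤ (2 * (1/64 : ℝ) ^ S.L) ^ (1/4:ℝ) :=
            Real.rpow_le_rpow (by positivity) h3 (by norm_num)
        _ = 2 ^ (1/4:ℝ) * S.kL := by rw [Real.mul_rpow (by norm_num) (by positivity)]; rfl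
        _ ≤ 2 * S.kL := by
            apply mul_le_mul_of_nonneg_right _ hk
            calc (2:ℝ) ^ (1/4:ℝ) ≤ 2 ^ (1:ℝ) := Real.rpow_le_rpow_of_exponent_le (by norm_num) (by norm_num)
              _ = 2 := Real.rpow_one _
    -- rewrite in rpow
    have e1 : (h / t) ^ (mE n) * (dl z / t * Real.sqrt (t / D)) =
        ((h / D) ^ (1/4:ℝ) * q4) * (dl z ^ (3/4 : ℝ) *
          (h ^ ((mE n : ℕ) - 1/4 : ℝ) * t ^ (-((mE n : ℕ) + 1/2 : ℝ)))) := by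
      rw [hq4, Real.sqrt_eq_rpow, ← Real.rpow_natCast, Real.div_rpow hhv.le ht.le, Real.div_rpow ht.le hD.le,
        Real.div_rpow hhv.le hD.le, Real.div_rpow hdz.le hD.le, Real.rpow_sub hhv, Real.rpow_neg ht.le,
        Real.rpow_add ht]
      have g1 : dl z = dl z ^ (1/4:ℝ) * dl z ^ (3/4:ℝ) := by
        rw [← Real.rpow_add hdz]; norm_num
      have g2 : D ^ (1/2:ℝ) = D ^ (1/4:ℝ) * D ^ (1/4:ℝ) := by
        rw [← Real.rpow_add hD]; norm_num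
      have g3 : t = t ^ (1/2:ℝ) * t ^ (1/2:ℝ) := by
        rw [← Real.rpow_add ht]; norm_num
      rw [g2]
      have p1 : 0 < D ^ (1/4:ℝ) := by positivity
      have p2 : 0 < h ^ (1/4:ℝ) := by positivity
      have p3 : 0 < t ^ (1/2:ℝ) := by positivity
      have p4 : 0 < t ^ ((mE n : ℕ) : ℝ) := by positivity
      field_simp
      nth_rewrite 1 [g1]
      rw [show dl z ^ (1/4:ℝ) * dl z ^ (3/4:ℝ) * (t ^ (1/2:ℝ)) ^ 2 = dl z ^ (1/4:ℝ) * dl z ^ (3/4:ℝ) * (t ^ (1/2:ℝ) * t ^ (1/2:ℝ)) by ring, ← g3]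
      ring
    have e2 : (h / t) ^ (mE n) * (dl z / D) =
        ((h / D) ^ (1/4:ℝ) * q4) * ((dl z / D) ^ (1/2 : ℝ) * (dl z ^ (1/4 : ℝ) *
          (h ^ ((mE n : ℕ) - 1/4 : ℝ) * t ^ (-((mE n : ℕ) : ℝ))))) := by
      rw [hq4, ← Real.rpow_natCast, Real.div_rpow hhv.le ht.le,
        Real.div_rpow hhv.le hD.le, Real.div_rpow hdz.le hD.le, Real.div_rpow hdz.le hD.le,
        Real.rpow_sub hhv, Real.rpow_neg ht.le]
      have g1 : dl z = dl z ^ (1/4:ℝ) * (dl z ^ (1/2:ℝ) * dl z ^ (1/4:ℝ)) := by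
        rw [← Real.rpow_add hdz, ← Real.rpow_add hdz]; norm_num
      have g2 : D = D ^ (1/4:ℝ) * D ^ (1/4:ℝ) * D ^ (1/2:ℝ) := by
        rw [← Real.rpow_add hD, ← Real.rpow_add hD]; norm_num
      nth_rewrite 1 [g1]
      nth_rewrite 1 [g2]
      have p1 : 0 < D ^ (1/4:ℝ) := by positivity
      have p2 : 0 < h ^ (1/4:ℝ) := by positivity
      have p3 : 0 < D ^ (1/2:ℝ) := by positivity
      have p4 : 0 < t ^ ((mE n : ℕ) : ℝ) := by positivity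
      field_simp
    have hr2 : (dl z / D) ^ (1/2 : ℝ) ≤ 2 := by
      calc (dl z / D) ^ (1/2 : ℝ) ≤ 2 ^ (1/2:ℝ) := by
            apply Real.rpow_le_rpow (by positivity) _ (by norm_num)
            rw [div_le_iff₀ hD]; exact hzD
        _ ≤ 2 ^ (1:ℝ) := Real.rpow_le_rpow_of_exponent_le (by norm_num) (by norm_num)
        _ = 2 := Real.rpow_one _
    rw [mul_add, e1, e2]
    have X1 : 0 ≤ dl z ^ (3/4 : ℝ) * (h ^ ((mE n : ℕ) - 1/4 : ℝ) * t ^ (-((mE n : ℕ) + 1/2 : ℝ))) := by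
      positivity
    have X2 : 0 ≤ dl z ^ (1/4 : ℝ) * (h ^ ((mE n : ℕ) - 1/4 : ℝ) * t ^ (-((mE n : ℕ) : ℝ))) := by
      positivity
    generalize dl z ^ (3/4 : ℝ) * (h ^ ((mE n : ℕ) - 1/4 : ℝ) * t ^ (-((mE n : ℕ) + 1/2 : ℝ))) = x1 at *
    generalize dl z ^ (1/4 : ℝ) * (h ^ ((mE n : ℕ) - 1/4 : ℝ) * t ^ (-((mE n : ℕ) : ℝ))) = x2 at *
    have hsm0 : 0 ≤ (h / D) ^ (1/4:ℝ) := by positivity
    have hr0 : 0 ≤ (dl z / D) ^ (1/2 : ℝ) := by positivity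
    have c1 : (h / D) ^ (1/4:ℝ) * q4 ≤ 2 * S.kL * q4 := mul_le_mul_of_nonneg_right hsm hq40.le
    have c2 : 0 ≤ S.kL * q4 := mul_nonneg hk hq40.le
    apply add_le_add
    · calc (h / D) ^ (1/4:ℝ) * q4 * x1 ≤ (2 * S.kL * q4) * x1 := mul_le_mul_of_nonneg_right c1 X1
        _ ≤ (4 * S.kL * q4) * x1 := by
            apply mul_le_mul_of_nonneg_right _ X1; linarith
    · calc (h / D) ^ (1/4:ℝ) * q4 * ((dl z / D) ^ (1/2 : ℝ) * x2) ≤ (2 * S.kL * q4) * (2 * x2) := by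
            apply mul_le_mul c1 _ (mul_nonneg hr0 X2) (by linarith)
            exact mul_le_mul_of_nonneg_right hr2 X2
        _ = (4 * S.kL * q4) * x2 := by ring
  have hnn1 : ∀ v : S.T.ι, 0 ≤ S.T.h v ^ ((mE n : ℕ) - 1/4 : ℝ) * d z (S.T.a v) ^ (-((mE n : ℕ) + 1/2 : ℝ)) := by
    intro v; have := S.T.h_pos v; have := S.T.d_a_pos v hz1; positivity
  have hnn2 : ∀ v : S.T.ι, 0 ≤ S.T.h v ^ ((mE n : ℕ) - 1/4 : ℝ) * d z (S.T.a v) ^ (-((mE n : ℕ) : ℝ)) := by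
    intro v; have := S.T.h_pos v; have := S.T.d_a_pos v hz1; positivity
  have hsub1 := (Finset.sum_le_sum_of_subset_of_nonneg (Finset.subset_univ (S.clE w)) (fun v _ _ => hnn1 v)).trans h1
  have hsub2 := (Finset.sum_le_sum_of_subset_of_nonneg (Finset.subset_univ (S.clE w)) (fun v _ _ => hnn2 v)).trans h2
  have e3 : (((mE n : ℕ) : ℝ) - 1/4) - (((mE n : ℕ) : ℝ) + 1/2) = -(3/4) := by ring
  have e4 : (((mE n : ℕ) : ℝ) - 1/4) - ((mE n : ℕ) : ℝ) = -(1/4) := by ring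
  rw [e3] at hsub1
  rw [e4] at hsub2
  have f1 : dl z ^ (3/4:ℝ) * (A₁ * dl z ^ (-(3/4) : ℝ)) = A₁ := by
    rw [Real.rpow_neg hdz.le]
    have : dl z ^ (3/4:ℝ) ≠ 0 := (Real.rpow_pos_of_pos hdz _).ne'
    field_simp
  have f2 : dl z ^ (1/4:ℝ) * (A₂ * dl z ^ (-(1/4) : ℝ)) = A₂ := by
    rw [Real.rpow_neg hdz.le]
    have : dl z ^ (1/4:ℝ) ≠ 0 := (Real.rpow_pos_of_pos hdz _).ne'
    field_simp
  have c2 : 0 ≤ 4 * S.kL * q4 := by positivity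
  calc _ ≤ ∑ v ∈ S.clE w, ((4 * S.kL * q4) * (dl z ^ (3/4 : ℝ) *
        (S.T.h v ^ ((mE n : ℕ) - 1/4 : ℝ) * d z (S.T.a v) ^ (-((mE n : ℕ) + 1/2 : ℝ)))) +
      (4 * S.kL * q4) * (dl z ^ (1/4 : ℝ) *
        (S.T.h v ^ ((mE n : ℕ) - 1/4 : ℝ) * d z (S.T.a v) ^ (-((mE n : ℕ) : ℝ))))) := Finset.sum_le_sum key
    _ = (4 * S.kL * q4) * (dl z ^ (3/4 : ℝ) * ∑ v ∈ S.clE w,
        (S.T.h v ^ ((mE n : ℕ) - 1/4 : ℝ) * d z (S.T.a v) ^ (-((mE n : ℕ) + 1/2 : ℝ)))) +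
      (4 * S.kL * q4) * (dl z ^ (1/4 : ℝ) * ∑ v ∈ S.clE w,
        (S.T.h v ^ ((mE n : ℕ) - 1/4 : ℝ) * d z (S.T.a v) ^ (-((mE n : ℕ) : ℝ)))) := by
        rw [Finset.sum_add_distrib, ← Finset.mul_sum, ← Finset.mul_sum, ← Finset.mul_sum, ← Finset.mul_sum]
    _ ≤ (4 * S.kL * q4) * (dl z ^ (3/4 : ℝ) * (A₁ * dl z ^ (-(3/4) : ℝ))) +
      (4 * S.kL * q4) * (dl z ^ (1/4 : ℝ) * (A₂ * dl z ^ (-(1/4) : ℝ))) := by
        gcongr
    _ = (4 * S.kL * q4) * A₁ + (4 * S.kL * q4) * A₂ := by rw [f1, f2]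
    _ = _ := by ring

theorem ErrE1_le (A₁ A₂ : ℝ) (hN1 : NodeSum n cT ((mE n : ℕ) - 1/4) ((mE n : ℕ) + 1/2) A₁)
    (hN2 : NodeSum n cT ((mE n : ℕ) - 1/4) ((mE n : ℕ)) A₂) {w z : E n}
    (hw : w ∈ B n) (hz : z ∈ B n) :
    S.c (S.vw w) * ‖S.ErrE1 w z‖ ≤ CE n C K * (4 * (A₁ + A₂) * S.kL) * S.c (S.vw z) * Qk (1/4) z w := by
  have hz1 := (mem_B.1 hz).le
  have hw1 := (mem_B.1 hw).le
  have hD := d_pos hz hw1
  have hdw := dl_pos hw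
  have hcw := S.c_pos (S.vw w)
  have hcz := S.c_pos (S.vw z)
  have hCE := S.CE_nonneg
  have hY : 0 ≤ (dl w / d z w) ^ 2 * ((d z w) ^ n)⁻¹ := by positivity
  calc S.c (S.vw w) * ‖S.ErrE1 w z‖ ≤ S.c (S.vw w) * ∑ v ∈ S.clE w, ‖S.termE1 w z v‖ :=
        mul_le_mul_of_nonneg_left (norm_sum_le _ _) hcw.le
    _ = ∑ v ∈ S.clE w, S.c (S.vw w) * ‖S.termE1 w z v‖ := Finset.mul_sum _ _ _
    _ ≤ ∑ v ∈ S.clE w, CE n C K * S.c (S.vw z) * ((dl w / d z w) ^ 2 * ((d z w) ^ n)⁻¹) *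
      ((S.T.h v / d z (S.T.a v)) ^ (mE n) *
        (dl z / d z (S.T.a v) * Real.sqrt (d z (S.T.a v) / d z w) + dl z / d z w)) :=
        Finset.sum_le_sum (fun v hv => S.termE1_le hw hz (S.clE_scale hw hv).2)
    _ = CE n C K * S.c (S.vw z) * ((dl w / d z w) ^ 2 * ((d z w) ^ n)⁻¹) *
      ∑ v ∈ S.clE w, ((S.T.h v / d z (S.T.a v)) ^ (mE n) *
        (dl z / d z (S.T.a v) * Real.sqrt (d z (S.T.a v) / d z w) + dl z / d z w)) := by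
        rw [Finset.mul_sum]
    _ ≤ CE n C K * S.c (S.vw z) * ((dl w / d z w) ^ 2 * ((d z w) ^ n)⁻¹) *
        ((4 * (A₁ + A₂) * S.kL) * (dl z / d z w) ^ (1/4 : ℝ)) := by
        apply mul_le_mul_of_nonneg_left (S.sum_E A₁ A₂ hN1 hN2 hw hz)
        positivity
    _ = _ := by unfold Qk; ring

end Sys

end

end Pool.Agent.Lib.MP7ebef4
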