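import Pool.Agent.Lib.MP_7ebef4_an.ErrDefs

/-! Class (E2), part a: the Schur bound for node sums. -/

set_option autoImplicit false

open MeasureTheory Set

namespace Pool.Agent.Lib.MP7ebef4

noncomputable section

variable {n : ℕ}

namespace E2

theorem measurable_dl : Measurable (dl : E n → ℝ) := by
  unfold dl; fun_prop

theorem continuous_q (a : E n) : Continuous (fun z : E n => q z a) := by
  unfold q; fun_prop

theorem continuous_d (a : E n) : Continuous (fun z : E n => d z a) := by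
  unfold d; exact (continuous_q a).norm

theorem lam_le (f : E n → ENNReal) :
    ∫⁻ z, f z ∂(lam n) ≤ ∫⁻ z in B n, ENNReal.ofReal (dl z)⁻¹ * f z := by
  unfold lam
  exact lintegral_withDensity_le_lintegral_mul _ measurable_dl.inv.ennreal_ofReal f

theorem measurableSet_B : MeasurableSet (B n) := Metric.isOpen_ball.measurableSet

theorem lam_ae_B : ∀ᵐ z ∂(lam n), z ∈ B n := by
  unfold lam
  have h1 : (volume.restrict (B n)).withDensity (fun z => ENNReal.ofReal (dl z)⁻¹) ≪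
      volume.restrict (B n) := withDensity_absolutelyContinuous _ _
  exact h1.ae_le (ae_restrict_mem measurableSet_B)

theorem hasFDerivAt_kk {cT : ℝ} (T : Tree n cT) (v : T.ι) {z : E n} (hz : ‖z‖ ≤ 1) :
    HasFDerivAt (kk T v) ((-(sE n : ℂ) * kk T v z / q z (T.a v)) • (-(innerSL ℂ (T.a v)))) z := by
  have hq := T.q_a_ne v hz
  have h1 : HasFDerivAt (fun z => q z (T.a v)) (-(innerSL ℂ (T.a v))) z := by
    unfold q
    have := ((innerSL ℂ (T.a v)).hasFDerivAt (x := z)).const_sub (1:ℂ)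
    exact this
  have h2 : HasDerivAt (fun t : ℂ => ((T.h v : ℂ) / t) ^ (sE n))
      (-(sE n : ℂ) * ((T.h v : ℂ) / q z (T.a v)) ^ (sE n) / q z (T.a v)) (q z (T.a v)) := by
    have h3 : HasDerivAt (fun t : ℂ => (T.h v : ℂ) / t) (-(T.h v : ℂ) / (q z (T.a v)) ^ 2)
        (q z (T.a v)) := by
      have := (hasDerivAt_inv hq).const_mul (T.h v : ℂ)
      refine (this.congr_deriv ?_)
      ring
    have h4 := h3.pow (sE n)
    refine h4.congr_deriv ?_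
    have hs : sE n = (sE n - 1) + 1 := by unfold sE; omega
    have hs' : ((T.h v : ℂ) / q z (T.a v)) ^ (sE n) =
        ((T.h v : ℂ) / q z (T.a v)) ^ (sE n - 1) * ((T.h v : ℂ) / q z (T.a v)) := by
      conv_lhs => rw [hs, pow_succ]
    rw [hs']
    field_simp
  exact h2.comp_hasFDerivAt z h1

theorem Aop_kk {cT : ℝ} (T : Tree n cT) (v : T.ι) {z : E n} (hz : ‖z‖ ≤ 1) :
    Aop (kk T v) z = (dl z : ℂ) * (kk T v z * ((NE n : ℂ) - sE n + sE n / q z (T.a v))) := by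
  have hq := T.q_a_ne v hz
  unfold Aop Dop
  rw [(hasFDerivAt_kk T v hz).fderiv]
  simp only [_root_.smul_apply, _root_.neg_apply, innerSL_apply_apply,
    smul_eq_mul]
  have e : inner ℂ (T.a v) z = 1 - q z (T.a v) := by unfold q; ring
  rw [e]
  field_simp
  ring

/-- the node kernel -/
def PN {cT : ℝ} (T : Tree n cT) (z : E n) (v : T.ι) : ℝ :=
  (T.h v / d z (T.a v)) ^ (sE n - n) * (dl z / d z (T.a v))

theorem PN_nonneg {cT : ℝ} (T : Tree n cT) {z : E n} (hz : ‖z‖ ≤ 1) (v : T.ι) : 0 ≤ PN T z v := by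
  unfold PN
  exact mul_nonneg (pow_nonneg (T.ratio_a_pos v hz).le _) (div_nonneg (dl_nonneg hz) (d_nonneg _ _))

/-- constant -/
def CA (n : ℕ) : ℝ := 2 * (NE n + sE n) + sE n

theorem CA_nonneg (n : ℕ) : 0 ≤ CA n := by unfold CA; positivity

theorem norm_Aop_kk_le {cT : ℝ} (T : Tree n cT) (v : T.ι) {z : E n} (hz : z ∈ B n) :
    ‖Aop (kk T v) z‖ ≤ CA n * ((T.h v / d z (T.a v)) ^ (sE n) * (dl z / d z (T.a v))) := by
  have hz1 := (mem_B.1 hz).le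
  have hD := T.d_a_pos v hz1
  have hd2 := d_le_two z (T.a v) hz1 (T.norm_a_le v)
  have hdl := dl_nonneg hz1
  rw [Aop_kk T v hz1, norm_mul, norm_mul, Complex.norm_real, Real.norm_of_nonneg hdl, T.norm_kk]
  have h1 : ‖(NE n : ℂ) - sE n + sE n / q z (T.a v)‖ ≤ CA n / d z (T.a v) := by
    refine (norm_add_le _ _).trans ?_
    have h2 : ‖(sE n : ℂ) / q z (T.a v)‖ = sE n / d z (T.a v) := by
      rw [norm_div, Complex.norm_natCast]; rfl
    have h3 : ‖(NE n : ℂ) - sE n‖ ≤ NE n + sE n := by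
      refine (norm_sub_le _ _).trans ?_
      rw [Complex.norm_natCast, Complex.norm_natCast]
    have h4 : (NE n : ℝ) + sE n ≤ 2 * (NE n + sE n) / d z (T.a v) := by
      rw [le_div_iff₀ hD]
      have : (0:ℝ) ≤ NE n + sE n := by positivity
      nlinarith
    rw [h2]
    unfold CA
    rw [add_div]
    linarith
  have h5 : 0 ≤ (T.h v / d z (T.a v)) ^ (sE n) := pow_nonneg (T.ratio_a_pos v hz1).le _
  calc dl z * ((T.h v / d z (T.a v)) ^ (sE n) * ‖(NE n : ℂ) - sE n + sE n / q z (T.a v)‖)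
      ≤ dl z * ((T.h v / d z (T.a v)) ^ (sE n) * (CA n / d z (T.a v))) := by gcongr
    _ = _ := by ring

end E2

namespace Sys

variable {cT C K : ℝ} (S : Sys n cT C K)

theorem Aop_kk_eq (v : S.T.ι) {z : E n} (hz : ‖z‖ ≤ 1) : Aop (kk S.T v) z = (dl z : ℂ) * S.Dk v z :=
  E2.Aop_kk S.T v hz

theorem XN_term_eq (F : E n → ℂ) (z : E n) :
    (‖F z‖ₑ / ENNReal.ofReal (S.c (S.vw z))) ^ (2:ℕ) =
      ENNReal.ofReal (‖F z‖ ^ 2 * (S.c (S.vw z) ^ 2)⁻¹) := by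
  have hc := S.c_pos (S.vw z)
  rw [← ofReal_norm, ← ENNReal.ofReal_div_of_pos hc, ← ENNReal.ofReal_pow (by positivity)]
  congr 1
  field_simp

theorem c_Aop_kk_le (v : S.T.ι) {z : E n} (hz : z ∈ B n) :
    S.c v * ‖Aop (kk S.T v) z‖ ≤ (C5 n C K * E2.CA n) * S.c (S.vw z) * E2.PN S.T z v := by
  have hz1 := (mem_B.1 hz).le
  have h1 := S.c_node_le v hz
  have h2 := E2.norm_Aop_kk_le S.T v hz
  have hD := S.T.d_a_pos v hz1
  have hh := S.T.h_pos v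
  set ρ := S.T.h v / d z (S.T.a v) with hρ
  have hρ0 : 0 < ρ := S.T.ratio_a_pos v hz1
  have hρi : d z (S.T.a v) / S.T.h v = ρ⁻¹ := by rw [hρ, inv_div]
  rw [hρi] at h1
  have g3 : ρ⁻¹ ^ n * ρ ^ (sE n) = ρ ^ (sE n - n) := by
    have : sE n = n + (sE n - n) := by unfold sE; omega
    conv_lhs => rw [this, pow_add]
    rw [inv_pow]
    have : ρ ^ n ≠ 0 := pow_ne_zero _ hρ0.ne'
    field_simp
  have hc := S.c_pos (S.vw z)
  have hC5 := S.C5_nonneg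
  have hCA := E2.CA_nonneg n
  have hdl := dl_nonneg hz1
  calc S.c v * ‖Aop (kk S.T v) z‖ ≤ (C5 n C K * ρ⁻¹ ^ n * S.c (S.vw z)) *
        (E2.CA n * (ρ ^ (sE n) * (dl z / d z (S.T.a v)))) := by
        apply mul_le_mul h1 h2 (norm_nonneg _)
        positivity
    _ = (C5 n C K * E2.CA n) * S.c (S.vw z) * ((ρ⁻¹ ^ n * ρ ^ (sE n)) * (dl z / d z (S.T.a v))) := by
        ring
    _ = _ := by rw [g3]; rfl

/-- sum over the nodes of the kernel -/
theorem sum_PN_le (A : ℝ) (hNS : NodeSum n cT ((sE n - n : ℕ) : ℝ) ((sE n - n + 1 : ℕ) : ℝ) A)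
    {z : E n} (hz : z ∈ B n) : ∑ v, E2.PN S.T z v ≤ A := by
  have h1 := hNS S.T z hz
  have hdl := dl_pos hz
  have hz1 := (mem_B.1 hz).le
  have e1 : ∀ v, S.T.h v ^ ((sE n - n : ℕ) : ℝ) * d z (S.T.a v) ^ (-((sE n - n + 1 : ℕ) : ℝ)) =
      (dl z)⁻¹ * E2.PN S.T z v := by
    intro v
    have hD := S.T.d_a_pos v hz1
    rw [Real.rpow_natCast, Real.rpow_neg hD.le, Real.rpow_natCast]
    unfold E2.PN
    rw [div_pow, pow_succ]
    field_simp
  have e2 : dl z ^ (((sE n - n : ℕ) : ℝ) - ((sE n - n + 1 : ℕ) : ℝ)) = (dl z)⁻¹ := by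
    rw [show ((sE n - n : ℕ) : ℝ) - ((sE n - n + 1 : ℕ) : ℝ) = -1 by push_cast; ring,
      Real.rpow_neg_one]
  simp only [e1] at h1
  rw [e2, ← Finset.mul_sum] at h1
  have h2 : (dl z)⁻¹ * ∑ v, E2.PN S.T z v ≤ (dl z)⁻¹ * A := by linarith
  exact le_of_mul_le_mul_left h2 (inv_pos.2 hdl)

/-- integral of the kernel against `λ` -/
theorem lintegral_PN_le (A : ℝ) (hA : 0 ≤ A)
    (hFR : ∀ z ∈ B n, ∫⁻ w in B n, ENNReal.ofReal (d z w ^ (-((sE n - n + 1 : ℕ) : ℝ))) ≤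
      ENNReal.ofReal (A * dl z ^ (-((sE n - 2 * n : ℕ) : ℝ)))) (v : S.T.ι) :
    ∫⁻ z, ENNReal.ofReal (E2.PN S.T z v) ∂(lam n) ≤ ENNReal.ofReal (A / cT * S.T.vol v) := by
  have hh := S.T.h_pos v
  have hcT := S.hcT
  refine (E2.lam_le _).trans ?_
  have h1 : ∫⁻ z in B n, ENNReal.ofReal (dl z)⁻¹ * ENNReal.ofReal (E2.PN S.T z v) ≤
      ∫⁻ z in B n, ENNReal.ofReal (S.T.h v ^ (sE n - n)) *
        ENNReal.ofReal (d (S.T.a v) z ^ (-((sE n - n + 1 : ℕ) : ℝ))) := by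
    apply setLIntegral_mono' E2.measurableSet_B
    intro z hz
    have hdl := dl_pos hz
    have hz1 := (mem_B.1 hz).le
    have hD := S.T.d_a_pos v hz1
    rw [← ENNReal.ofReal_mul (inv_nonneg.2 hdl.le), ← ENNReal.ofReal_mul (by positivity)]
    apply ENNReal.ofReal_le_ofReal
    rw [d_comm (S.T.a v) z, Real.rpow_neg hD.le, Real.rpow_natCast]
    unfold E2.PN
    rw [div_pow, pow_succ]
    apply le_of_eq
    field_simp
  refine h1.trans ?_
  have h2 : Measurable (fun z => ENNReal.ofReal (d (S.T.a v) z ^ (-((sE n - n + 1 : ℕ) : ℝ)))) := by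
    have : Measurable (fun z => d (S.T.a v) z) := by
      have := (E2.continuous_d (S.T.a v)).measurable
      simp only [d_comm _ (S.T.a v)] at this
      exact this
    exact (this.pow_const _).ennreal_ofReal
  rw [lintegral_const_mul _ h2]
  have h3 := hFR (S.T.a v) (S.T.a_mem v)
  refine (mul_le_mul_right h3 _).trans ?_
  rw [← ENNReal.ofReal_mul (by positivity)]
  apply ENNReal.ofReal_le_ofReal
  have h4 := S.T.dl_a_lower v
  have h5 : dl (S.T.a v) ^ (-((sE n - 2 * n : ℕ) : ℝ)) ≤ (S.T.h v ^ (sE n - 2 * n))⁻¹ := by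
    rw [Real.rpow_neg (le_trans hh.le h4), Real.rpow_natCast]
    exact inv_anti₀ (by positivity) (pow_le_pow_left₀ hh.le h4 _)
  have h6 : S.T.h v ^ (sE n - n) * (S.T.h v ^ (sE n - 2 * n))⁻¹ = S.T.h v ^ n := by
    have : sE n - n = n + (sE n - 2 * n) := by unfold sE; omega
    rw [this, pow_add]
    field_simp
  have h7 := S.T.vol_ge v hcT
  calc S.T.h v ^ (sE n - n) * (A * dl (S.T.a v) ^ (-((sE n - 2 * n : ℕ) : ℝ)))
      ≤ S.T.h v ^ (sE n - n) * (A * (S.T.h v ^ (sE n - 2 * n))⁻¹) := by gcongr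
    _ = A * (S.T.h v ^ (sE n - n) * (S.T.h v ^ (sE n - 2 * n))⁻¹) := by ring
    _ = A * S.T.h v ^ n := by rw [h6]
    _ = A / cT * (cT * S.T.h v ^ n) := by field_simp
    _ ≤ A / cT * S.T.vol v := mul_le_mul_of_nonneg_left h7 (by positivity)

/-- **(E2a)** Schur bound: node coefficients to the `X` norm. -/
theorem XN_sum_le (A₁ A₂ : ℝ) (hA₁ : 0 ≤ A₁) (hA₂ : 0 ≤ A₂)
    (hNS : NodeSum n cT ((sE n - n : ℕ) : ℝ) ((sE n - n + 1 : ℕ) : ℝ) A₁)
    (hFR : ∀ z ∈ B n, ∫⁻ w in B n, ENNReal.ofReal (d z w ^ (-((sE n - n + 1 : ℕ) : ℝ))) ≤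
      ENNReal.ofReal (A₂ * dl z ^ (-((sE n - 2 * n : ℕ) : ℝ))))
    (ψ : S.T.ι → ℂ) (F : E n → ℂ)
    (hF : ∀ z ∈ B n, ‖F z‖ ≤ ∑ v, S.c v * ‖Aop (kk S.T v) z‖ * ‖ψ v‖) :
    S.XN F ≤ ENNReal.ofReal ((C5 n C K * E2.CA n) ^ 2 * A₁ * A₂ / cT) *
      ∑ v, ENNReal.ofReal (S.T.vol v) * ‖ψ v‖ₑ ^ (2:ℕ) := by
  set Q := C5 n C K * E2.CA n with hQ
  have hQ0 : 0 ≤ Q := mul_nonneg S.C5_nonneg (E2.CA_nonneg n)
  have hcT := S.hcT
  have hpt : ∀ z ∈ B n, (‖F z‖ₑ / ENNReal.ofReal (S.c (S.vw z))) ^ (2:ℕ) ≤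
      ENNReal.ofReal (Q ^ 2 * A₁) * ∑ v, ENNReal.ofReal (E2.PN S.T z v) * ‖ψ v‖ₑ ^ (2:ℕ) := by
    intro z hz
    have hz1 := (mem_B.1 hz).le
    have hc := S.c_pos (S.vw z)
    have h1 : ‖F z‖ ≤ S.c (S.vw z) * (Q * ∑ v, E2.PN S.T z v * ‖ψ v‖) := by
      refine (hF z hz).trans ?_
      rw [Finset.mul_sum, Finset.mul_sum]
      apply Finset.sum_le_sum
      intro v _
      have := S.c_Aop_kk_le v hz
      calc S.c v * ‖Aop (kk S.T v) z‖ * ‖ψ v‖ ≤ (Q * S.c (S.vw z) * E2.PN S.T z v) * ‖ψ v‖ :=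
            mul_le_mul_of_nonneg_right this (norm_nonneg _)
        _ = _ := by ring
    have h2 : (∑ v, E2.PN S.T z v * ‖ψ v‖) ^ 2 ≤ A₁ * ∑ v, E2.PN S.T z v * ‖ψ v‖ ^ 2 := by
      have h3 := Finset.sum_mul_sq_le_sq_mul_sq Finset.univ (fun v => Real.sqrt (E2.PN S.T z v))
        (fun v => Real.sqrt (E2.PN S.T z v) * ‖ψ v‖)
      have e1 : ∀ v, Real.sqrt (E2.PN S.T z v) * (Real.sqrt (E2.PN S.T z v) * ‖ψ v‖) =
          E2.PN S.T z v * ‖ψ v‖ := by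
        intro v
        rw [← mul_assoc, Real.mul_self_sqrt (E2.PN_nonneg S.T hz1 v)]
      have e2 : ∀ v, Real.sqrt (E2.PN S.T z v) ^ 2 = E2.PN S.T z v := fun v =>
        Real.sq_sqrt (E2.PN_nonneg S.T hz1 v)
      have e3 : ∀ v, (Real.sqrt (E2.PN S.T z v) * ‖ψ v‖) ^ 2 = E2.PN S.T z v * ‖ψ v‖ ^ 2 := by
        intro v; rw [mul_pow, e2]
      simp only [e1, e2, e3] at h3
      refine h3.trans ?_
      apply mul_le_mul_of_nonneg_right (S.sum_PN_le A₁ hNS hz)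
      exact Finset.sum_nonneg (fun v _ => mul_nonneg (E2.PN_nonneg S.T hz1 v) (sq_nonneg _))
    have h4 : ‖F z‖ ^ 2 * (S.c (S.vw z) ^ 2)⁻¹ ≤ Q ^ 2 * A₁ * ∑ v, E2.PN S.T z v * ‖ψ v‖ ^ 2 := by
      have h5 : ‖F z‖ ^ 2 ≤ (S.c (S.vw z) * (Q * ∑ v, E2.PN S.T z v * ‖ψ v‖)) ^ 2 :=
        pow_le_pow_left₀ (norm_nonneg _) h1 2
      rw [← div_eq_mul_inv, div_le_iff₀ (by positivity)]
      calc ‖F z‖ ^ 2 ≤ (S.c (S.vw z) * (Q * ∑ v, E2.PN S.T z v * ‖ψ v‖)) ^ 2 := h5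
        _ = S.c (S.vw z) ^ 2 * Q ^ 2 * (∑ v, E2.PN S.T z v * ‖ψ v‖) ^ 2 := by ring
        _ ≤ S.c (S.vw z) ^ 2 * Q ^ 2 * (A₁ * ∑ v, E2.PN S.T z v * ‖ψ v‖ ^ 2) :=
            mul_le_mul_of_nonneg_left h2 (by positivity)
        _ = _ := by ring
    have e4 := S.XN_term_eq F z
    have e5 : ∑ v, ENNReal.ofReal (E2.PN S.T z v) * ‖ψ v‖ₑ ^ (2:ℕ) =
        ENNReal.ofReal (∑ v, E2.PN S.T z v * ‖ψ v‖ ^ 2) := by
      rw [ENNReal.ofReal_sum_of_nonneg (fun v _ => mul_nonneg (E2.PN_nonneg S.T hz1 v) (sq_nonneg _))]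
      apply Finset.sum_congr rfl
      intro v _
      rw [ENNReal.ofReal_mul (E2.PN_nonneg S.T hz1 v), ENNReal.ofReal_pow (norm_nonneg _),
        ofReal_norm]
    rw [e4, e5, ← ENNReal.ofReal_mul (by positivity)]
    exact ENNReal.ofReal_le_ofReal h4
  have hmeas : ∀ v, Measurable (fun z => ENNReal.ofReal (E2.PN S.T z v)) := by
    intro v
    unfold E2.PN
    have h1 := (E2.continuous_d (S.T.a v)).measurable
    have h2 := E2.measurable_dl (n := n)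
    exact (((h1.const_div _).pow_const _).mul (h2.div h1)).ennreal_ofReal
  calc S.XN F ≤ ∫⁻ z, ENNReal.ofReal (Q ^ 2 * A₁) *
        ∑ v, ENNReal.ofReal (E2.PN S.T z v) * ‖ψ v‖ₑ ^ (2:ℕ) ∂(lam n) := by
        unfold XN
        apply lintegral_mono_ae
        filter_upwards [E2.lam_ae_B] with z hz
        exact hpt z hz
    _ = ENNReal.ofReal (Q ^ 2 * A₁) *
        ∑ v, (∫⁻ z, ENNReal.ofReal (E2.PN S.T z v) ∂(lam n)) * ‖ψ v‖ₑ ^ (2:ℕ) := by
        rw [lintegral_const_mul _ (Finset.measurable_fun_sum _ (fun v _ => (hmeas v).mul_const _)),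
          lintegral_finsetSum _ (fun v _ => (hmeas v).mul_const _)]
        congr 1
        apply Finset.sum_congr rfl
        intro v _
        rw [lintegral_mul_const _ (hmeas v)]
    _ ≤ ENNReal.ofReal (Q ^ 2 * A₁) *
        ∑ v, (ENNReal.ofReal (A₂ / cT * S.T.vol v)) * ‖ψ v‖ₑ ^ (2:ℕ) := by
        gcongr with v _
        exact S.lintegral_PN_le A₂ hA₂ hFR v
    _ = _ := by
        rw [show Q ^ 2 * A₁ * A₂ / cT = (Q ^ 2 * A₁) * (A₂ / cT) by ring,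
          ENNReal.ofReal_mul (by positivity : 0 ≤ Q ^ 2 * A₁), mul_assoc]
        congr 1
        rw [Finset.mul_sum]
        apply Finset.sum_congr rfl
        intro v _
        rw [ENNReal.ofReal_mul (by positivity)]
        ring

theorem norm_Dk_eq (v : S.T.ι) {z : E n} (hz : z ∈ B n) :
    ‖(dl z : ℂ) * (S.c v : ℂ) * S.Dk v z‖ = S.c v * ‖Aop (kk S.T v) z‖ := by
  rw [S.Aop_kk_eq v (mem_B.1 hz).le, norm_mul, norm_mul, norm_mul, Complex.norm_real,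
    Complex.norm_real, Real.norm_of_nonneg (S.c_pos v).le]
  ring

end Sys

/-- the statement of module `FR` -/
def FRstmt (n : ℕ) : Prop := ∀ t e : ℝ, -1 < t → 0 < e → ∃ C : ℝ, 0 < C ∧ ∀ z ∈ B n,
    ∫⁻ w in B n, ENNReal.ofReal (dl w ^ t * d z w ^ (-((n:ℝ) + 1 + t + e))) ≤
      ENNReal.ofReal (C * dl z ^ (-e))

/-- **(E2a)** -/
theorem E2a_of (n : ℕ) (cT C K : ℝ) (hFR : FRstmt n)
    (hNS : ∃ A : ℝ, 0 < A ∧ NodeSum n cT ((sE n - n : ℕ) : ℝ) ((sE n - n + 1 : ℕ) : ℝ) A) :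
    ∃ A : ℝ, 0 < A ∧ ∀ (S : Sys n cT C K) (ψ : S.T.ι → ℂ),
      ∫⁻ z, (‖∑ v ∈ S.pumps, (dl z : ℂ) * (S.c v : ℂ) * S.Dk v z * ψ v‖ₑ /
        ENNReal.ofReal (S.c (S.vw z))) ^ (2:ℕ) ∂(lam n) ≤
      ENNReal.ofReal A * ∑ v ∈ S.pumps, ENNReal.ofReal (S.T.vol v) * ‖ψ v‖ₑ ^ (2:ℕ) := by
  classical
  obtain ⟨A₁, hA₁, hNS⟩ := hNS
  obtain ⟨A₂, hA₂, hFR⟩ := hFR 0 ((sE n - 2 * n : ℕ) : ℝ) (by norm_num) (by
    have : 0 < sE n - 2 * n := by unfold sE; omega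
    exact_mod_cast this)
  refine ⟨|(Sys.C5 n C K * E2.CA n) ^ 2 * A₁ * A₂ / cT| + 1, by positivity, ?_⟩
  intro S ψ
  set ψ' : S.T.ι → ℂ := fun v => if v ∈ S.pumps then ψ v else 0 with hψ'
  have hFR' : ∀ z ∈ B n, ∫⁻ w in B n, ENNReal.ofReal (d z w ^ (-((sE n - n + 1 : ℕ) : ℝ))) ≤
      ENNReal.ofReal (A₂ * dl z ^ (-((sE n - 2 * n : ℕ) : ℝ))) := by
    intro z hz
    have h1 := hFR z hz
    have e1 : (n:ℝ) + 1 + 0 + ((sE n - 2 * n : ℕ) : ℝ) = ((sE n - n + 1 : ℕ) : ℝ) := by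
      have : n + 1 + (sE n - 2 * n) = sE n - n + 1 := by unfold sE; omega
      rw [← this]; push_cast; ring
    rw [e1] at h1
    simpa only [Real.rpow_zero, one_mul] using h1
  have h1 := S.XN_sum_le A₁ A₂ hA₁.le hA₂.le hNS hFR' ψ'
    (fun z => ∑ v ∈ S.pumps, (dl z : ℂ) * (S.c v : ℂ) * S.Dk v z * ψ v)
    (by
      intro z hz
      refine (norm_sum_le _ _).trans ?_
      rw [← Finset.sum_subset (Finset.subset_univ S.pumps)]
      · apply Finset.sum_le_sum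
        intro v hv
        rw [norm_mul, S.norm_Dk_eq v hz]
        simp only [hψ', if_pos hv]
        exact le_refl _
      · intro v _ hv
        simp only [hψ', if_neg hv, norm_zero, mul_zero])
  have e2 : ∑ v, ENNReal.ofReal (S.T.vol v) * ‖ψ' v‖ₑ ^ (2:ℕ) =
      ∑ v ∈ S.pumps, ENNReal.ofReal (S.T.vol v) * ‖ψ v‖ₑ ^ (2:ℕ) := by
    rw [← Finset.sum_subset (Finset.subset_univ S.pumps)]
    · apply Finset.sum_congr rfl
      intro v hv
      simp only [hψ', if_pos hv]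
    · intro v _ hv
      simp only [hψ', if_neg hv]
      simp
  rw [e2] at h1
  refine h1.trans ?_
  gcongr
  exact (le_abs_self _).trans (by linarith)

end

end Pool.Agent.Lib.MP7ebef4
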