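import Pool.Agent.Lib.MP_7ebef4_an.HN2

/-! Class (E2), part b: kernel estimates at the points `a'_v`. -/

set_option autoImplicit false

open MeasureTheory Set

namespace Pool.Agent.Lib.MP7ebef4

noncomputable section

variable {n : ℕ}

namespace E2

theorem Qk_half (z w : E n) : Qk (1/2) z w =
    Real.sqrt (dl z / d z w) * ((dl w / d z w) ^ 2 * ((d z w) ^ n)⁻¹) := by
  unfold Qk
  rw [← Real.sqrt_eq_rpow]
  ring

theorem PB_le_sq {z w : E n} (hz : z ∈ B n) (hw : w ∈ B n) :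
    PB z w ≤ 2 ^ (3 * sE n) * ((dl w / d z w) ^ 2 * ((d z w) ^ n)⁻¹) := by
  have hz1 := (mem_B.1 hz).le
  have hw1 := (mem_B.1 hw).le
  have hD := d_pos hz hw1
  have h2 := ratio_le_two hz hw1
  have h0 := ratio_nonneg hz1 hw1
  unfold PB
  have hs : 3 * sE n = (3 * sE n - 2) + 2 := by unfold sE; omega
  have h3 : (dl w / d z w) ^ (3 * sE n) ≤ 2 ^ (3 * sE n) * (dl w / d z w) ^ 2 := by
    rw [hs, pow_add]
    have h4 : (dl w / d z w) ^ (3 * sE n - 2) ≤ 2 ^ (3 * sE n - 2) := pow_le_pow_left₀ h0 h2 _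
    have h5 : (2:ℝ) ^ (3 * sE n - 2) ≤ 2 ^ ((3 * sE n - 2) + 2) :=
      pow_le_pow_right₀ (by norm_num) (by omega)
    exact mul_le_mul_of_nonneg_right (h4.trans h5) (sq_nonneg _)
  calc (dl w / d z w) ^ (3 * sE n) * ((d z w) ^ n)⁻¹
      ≤ (2 ^ (3 * sE n) * (dl w / d z w) ^ 2) * ((d z w) ^ n)⁻¹ :=
        mul_le_mul_of_nonneg_right h3 (by positivity)
    _ = _ := by ring

/-- if `1 ≤ M √(δ_z/d)` then `PB ≤ 2^{3s} M Q_{1/2}` -/
theorem PB_le_half {z w : E n} (hz : z ∈ B n) (hw : w ∈ B n) {M X : ℝ} (hX0 : 0 ≤ X)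
    (hM : X ≤ M * Real.sqrt (dl z / d z w)) :
    X * PB z w ≤ (2 ^ (3 * sE n) * M) * Qk (1/2) z w := by
  have hz1 := (mem_B.1 hz).le
  have hw1 := (mem_B.1 hw).le
  have hD := d_pos hz hw1
  have h0 := ratio_nonneg hz1 hw1
  have h1 := PB_le_sq hz hw
  rw [Qk_half]
  set Y := (dl w / d z w) ^ 2 * ((d z w) ^ n)⁻¹ with hY
  have hY0 : 0 ≤ Y := by positivity
  calc X * PB z w ≤ (M * Real.sqrt (dl z / d z w)) * (2 ^ (3 * sE n) * Y) := by
        apply mul_le_mul hM h1 (PB_nonneg hz1 hw1)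
        exact hX0.trans hM
    _ = _ := by ring

/-- Case 2: `δ_w ≤ δ_z` -/
theorem PB_le_half' {z w : E n} (hz : z ∈ B n) (hw : w ∈ B n) (h : dl w ≤ dl z) :
    PB z w ≤ 2 ^ (3 * sE n) * Qk (1/2) z w := by
  have hz1 := (mem_B.1 hz).le
  have hw1 := (mem_B.1 hw).le
  have hD := d_pos hz hw1
  have hdw := dl_pos hw
  have h2 := ratio_le_two hz hw1
  have h0 := ratio_nonneg hz1 hw1
  rw [Qk_half]
  set y := dl w / d z w with hy
  have hyx : y ≤ dl z / d z w := div_le_div_of_nonneg_right h hD.le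
  have h1 : y ≤ 2 * Real.sqrt (dl z / d z w) := by
    have h3 : y ≤ 2 * Real.sqrt y := by
      have h4 := Real.sq_sqrt h0
      have h5 := Real.sqrt_nonneg y
      have h6 : Real.sqrt y ≤ 2 := by
        rw [Real.sqrt_le_left (by norm_num)]
        linarith
      nlinarith
    exact h3.trans (mul_le_mul_of_nonneg_left (Real.sqrt_le_sqrt hyx) (by norm_num))
  unfold PB
  rw [← hy]
  have hs : 3 * sE n = 1 + 2 + (3 * sE n - 3) := by unfold sE; omega
  have h3 : y ^ (3 * sE n) ≤ 2 ^ (3 * sE n) * (Real.sqrt (dl z / d z w) * y ^ 2) := by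
    have h4 : y ^ (3 * sE n - 3) ≤ 2 ^ (3 * sE n - 3) := pow_le_pow_left₀ h0 h2 _
    calc y ^ (3 * sE n) = y * y ^ 2 * y ^ (3 * sE n - 3) := by
          conv_lhs => rw [hs, pow_add, pow_add, pow_one]
      _ ≤ (2 * Real.sqrt (dl z / d z w)) * y ^ 2 * 2 ^ (3 * sE n - 3) := by gcongr
      _ = 2 ^ (1 + (3 * sE n - 3)) * (Real.sqrt (dl z / d z w) * y ^ 2) := by
          rw [pow_add, pow_one]; ring
      _ ≤ 2 ^ (3 * sE n) * (Real.sqrt (dl z / d z w) * y ^ 2) := by
          apply mul_le_mul_of_nonneg_right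
          · apply pow_le_pow_right₀ (by norm_num); unfold sE; omega
          · positivity
  calc y ^ (3 * sE n) * ((d z w) ^ n)⁻¹
      ≤ (2 ^ (3 * sE n) * (Real.sqrt (dl z / d z w) * y ^ 2)) * ((d z w) ^ n)⁻¹ :=
        mul_le_mul_of_nonneg_right h3 (by positivity)
    _ = _ := by ring

end E2

namespace Sys

variable {cT C K : ℝ} (S : Sys n cT C K)

/-- height of `a'_v` -/
def hP (v : S.T.ι) : ℝ := 64 ^ S.L * S.T.h v

/-- the point `a'_v = (1 - 64^L h_v) ζ_v` -/
def aP (v : S.T.ι) : E n := ((1 - S.hP v : ℝ)) • S.T.pt v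

theorem hP_pos (v : S.T.ι) : 0 < S.hP v := mul_pos (by positivity) (S.T.h_pos v)

theorem hP_eq {v : S.T.ι} (hv : S.L ≤ S.T.lev v) : S.hP v = hh (S.T.lev v - S.L) := by
  unfold hP Tree.h
  have h1 := hh_add' (S.T.lev v - S.L) S.L
  rw [h1]
  congr 2
  omega

theorem hP_le_one {v : S.T.ι} (hv : S.L ≤ S.T.lev v) : S.hP v ≤ 1 := by
  rw [S.hP_eq hv]; exact hh_le_one _

theorem h_le_hP (v : S.T.ι) : S.T.h v ≤ S.hP v := by
  unfold hP
  have h1 := S.T.h_pos v
  have h2 : (1:ℝ) ≤ 64 ^ S.L := one_le_pow₀ (by norm_num)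
  nlinarith

theorem aP_mem {v : S.T.ι} (hv : S.L ≤ S.T.lev v) : S.aP v ∈ B n :=
  rad_mem_B (S.T.norm_pt v) (S.hP_pos v) (S.hP_le_one hv)

theorem dl_aP_lower {v : S.T.ι} (hv : S.L ≤ S.T.lev v) : S.hP v ≤ dl (S.aP v) := by
  unfold aP
  rw [dl_rad (S.T.norm_pt v) (S.hP_pos v).le (S.hP_le_one hv)]
  have h1 := S.hP_pos v; have h2 := S.hP_le_one hv
  nlinarith

theorem d_aP_pt {v : S.T.ι} : d (S.aP v) (S.T.pt v) = S.hP v :=
  d_rad_self (S.T.norm_pt v) (S.hP_pos v).le

theorem d_a_aP {v : S.T.ι} (hv : S.L ≤ S.T.lev v) : d (S.T.a v) (S.aP v) ≤ 2 * S.hP v := by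
  have h1 := S.T.h_pos v
  have h2 := S.h_le_hP v
  have h3 := S.hP_le_one hv
  have h4 := S.T.h_le_one v
  have h5 := S.hP_pos v
  have e : q (S.T.a v) (S.aP v) = ((S.T.h v + S.hP v - S.T.h v * S.hP v : ℝ) : ℂ) := by
    unfold q aP Tree.a
    rw [inner_smul_left_eq_star_smul, inner_smul_right_eq_smul, inner_self_eq_norm_sq_to_K,
      S.T.norm_pt]
    simp only [conj_trivial, Complex.real_smul, Complex.coe_algebraMap,
      Complex.ofReal_one]
    push_cast
    ring
  unfold d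
  rw [e, Complex.norm_real, Real.norm_of_nonneg (by nlinarith)]
  nlinarith

/-- constant of the variation lemma -/
def CVb (n : ℕ) : ℝ := 100 * (sE n) * 2 ^ (sE n) * 2 ^ (NE n) + 5 * (NE n) * 2 ^ (NE n)

theorem CVb_nonneg (n : ℕ) : 0 ≤ CVb n := by unfold CVb; positivity

/-- constant of the correction kernel -/
def CM (n : ℕ) : ℝ := C0 n * 2 ^ (3 * sE n) * (2 * CVb n + 109 * (10 ^ (3 * sE n + n) + 1) + 1)

theorem CM_nonneg (n : ℕ) : 0 ≤ CM n := by
  unfold CM; have := C0_nonneg n; have := CVb_nonneg n; positivity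

/-- correction kernel -/
def Mk (v : S.T.ι) (w : E n) : ℂ :=
  (if S.T.lev (S.T.loc w) + S.L < S.T.lev v then S.Phi w (S.T.a v) else 0) - S.Phi w (S.aP v)

theorem Mk_le {v : S.T.ι} (hv : S.L < S.T.lev v) {w : E n} (hw : w ∈ B n) :
    S.c (S.vw w) * ‖S.Mk v w‖ ≤ CM n * Qk (1/2) (S.aP v) w := by
  have hz := S.aP_mem hv.le
  have hz1 := (mem_B.1 hz).le
  have hw1 := (mem_B.1 hw).le
  have hD := d_pos hz hw1
  have hC0 := C0_nonneg n
  have hCV := CVb_nonneg n
  have hQ := Qk_nonneg' (1/2) hz hw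
  have hdl := S.dl_aP_lower hv.le
  have hhP := S.hP_pos v
  have hcw := (S.c_pos (S.vw w)).le
  have hPB := PB_nonneg hz1 hw1
  set D := d (S.aP v) w with hDdef
  unfold Mk
  by_cases hc : S.T.lev (S.T.loc w) + S.L < S.T.lev v
  · rw [if_pos hc]
    -- hP v < dl w
    have hlow : S.hP v < dl w := by
      have h1 := S.T.lev_le v
      have h2 := S.T.loc_lower w hw (by omega)
      refine lt_of_le_of_lt ?_ h2
      rw [S.hP_eq hv.le]
      exact hh_anti (by omega)
    have haB := S.T.a_mem v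
    have ha1 := S.T.norm_a_le v
    have hda := S.d_a_aP hv.le
    by_cases hfar : 36 * 164 * d (S.T.a v) (S.aP v) ≤ D
    · have h1 := S.Phi_variation hw haB hz hfar
      have h2 : Real.sqrt (d (S.T.a v) (S.aP v) / d (S.aP v) w) ≤
          2 * Real.sqrt (dl (S.aP v) / d (S.aP v) w) := by
        rw [show 2 * Real.sqrt (dl (S.aP v) / d (S.aP v) w) =
          Real.sqrt (2 ^ 2 * (dl (S.aP v) / d (S.aP v) w)) by
            rw [Real.sqrt_mul (by norm_num), Real.sqrt_sq (by norm_num)]]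
        apply Real.sqrt_le_sqrt
        rw [← mul_div_assoc]
        apply div_le_div_of_nonneg_right _ hD.le
        linarith
      have h3 := E2.PB_le_half hz hw (Real.sqrt_nonneg _) h2
      calc S.c (S.vw w) * ‖S.Phi w (S.T.a v) - S.Phi w (S.aP v)‖
          ≤ CVb n * C0 n * Real.sqrt (d (S.T.a v) (S.aP v) / d (S.aP v) w) * PB (S.aP v) w := h1
        _ = CVb n * C0 n * (Real.sqrt (d (S.T.a v) (S.aP v) / d (S.aP v) w) * PB (S.aP v) w) := by
            ring
        _ ≤ CVb n * C0 n * ((2 ^ (3 * sE n) * 2) * Qk (1/2) (S.aP v) w) :=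
            mul_le_mul_of_nonneg_left h3 (by positivity)
        _ = C0 n * 2 ^ (3 * sE n) * (2 * CVb n) * Qk (1/2) (S.aP v) w := by ring
        _ ≤ CM n * Qk (1/2) (S.aP v) w := by
            apply mul_le_mul_of_nonneg_right _ hQ
            unfold CM
            apply mul_le_mul_of_nonneg_left _ (by positivity)
            have : (0:ℝ) ≤ 10 ^ (3 * sE n + n) := by positivity
            linarith
    · push Not at hfar
      have h1 := S.norm_Phi_le hw haB
      have h2 := S.norm_Phi_le hw hz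
      -- compare PB a w with PB a' w
      have hDa := d_pos haB hw1
      have h3 : D ≤ 10 * d (S.T.a v) w := by
        have t1 := d_tri (S.aP v) (S.T.a v) w hz1 ha1 hw1
        have t2 := dl_le_right (S.T.a v) w ha1
        rw [d_comm (S.aP v) (S.T.a v)] at t1
        linarith
      have h4 : PB (S.T.a v) w ≤ 10 ^ (3 * sE n + n) * PB (S.aP v) w := by
        unfold PB
        have hdw := dl_pos hw
        have h5 : dl w / d (S.T.a v) w ≤ 10 * (dl w / D) := by
          rw [← mul_div_assoc, div_le_div_iff₀ hDa hD]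
          nlinarith
        have h6 : ((d (S.T.a v) w) ^ n)⁻¹ ≤ 10 ^ n * (D ^ n)⁻¹ := by
          rw [← inv_pow, ← inv_pow, ← mul_pow]
          apply pow_le_pow_left₀ (inv_nonneg.2 hDa.le)
          rw [← div_eq_mul_inv, inv_eq_one_div, div_le_div_iff₀ hDa hD]
          linarith
        have h7 : 0 ≤ dl w / d (S.T.a v) w := ratio_nonneg ha1 hw1
        have h8 : 0 ≤ dl w / D := ratio_nonneg hz1 hw1
        calc (dl w / d (S.T.a v) w) ^ (3 * sE n) * ((d (S.T.a v) w) ^ n)⁻¹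
            ≤ (10 * (dl w / D)) ^ (3 * sE n) * (10 ^ n * (D ^ n)⁻¹) := by
              apply mul_le_mul (pow_le_pow_left₀ h7 h5 _) h6 (by positivity) (by positivity)
          _ = _ := by rw [mul_pow, pow_add]; ring
      have h9 : (1:ℝ) ≤ 109 * Real.sqrt (dl (S.aP v) / D) := by
        have h10 : 1 ≤ (109:ℝ) ^ 2 * (dl (S.aP v) / D) := by
          rw [← mul_div_assoc, le_div_iff₀ hD]
          linarith
        have h11 : (109:ℝ) * Real.sqrt (dl (S.aP v) / D) = Real.sqrt (109 ^ 2 * (dl (S.aP v) / D)) := by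
          rw [Real.sqrt_mul (by norm_num), Real.sqrt_sq (by norm_num)]
        rw [h11]
        rw [show (1:ℝ) = Real.sqrt 1 from Real.sqrt_one.symm]
        exact Real.sqrt_le_sqrt h10
      have h12 := E2.PB_le_half hz hw zero_le_one h9
      rw [one_mul] at h12
      calc S.c (S.vw w) * ‖S.Phi w (S.T.a v) - S.Phi w (S.aP v)‖
          ≤ S.c (S.vw w) * (‖S.Phi w (S.T.a v)‖ + ‖S.Phi w (S.aP v)‖) :=
            mul_le_mul_of_nonneg_left (norm_sub_le _ _) hcw
        _ = S.c (S.vw w) * ‖S.Phi w (S.T.a v)‖ + S.c (S.vw w) * ‖S.Phi w (S.aP v)‖ := by ring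
        _ ≤ C0 n * PB (S.T.a v) w + C0 n * PB (S.aP v) w := add_le_add h1 h2
        _ ≤ C0 n * (10 ^ (3 * sE n + n) * PB (S.aP v) w) + C0 n * PB (S.aP v) w := by gcongr
        _ = C0 n * (10 ^ (3 * sE n + n) + 1) * PB (S.aP v) w := by ring
        _ ≤ C0 n * (10 ^ (3 * sE n + n) + 1) * ((2 ^ (3 * sE n) * 109) * Qk (1/2) (S.aP v) w) :=
            mul_le_mul_of_nonneg_left h12 (by positivity)
        _ = C0 n * 2 ^ (3 * sE n) * (109 * (10 ^ (3 * sE n + n) + 1)) * Qk (1/2) (S.aP v) w := by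
            ring
        _ ≤ CM n * Qk (1/2) (S.aP v) w := by
            apply mul_le_mul_of_nonneg_right _ hQ
            unfold CM
            apply mul_le_mul_of_nonneg_left _ (by positivity)
            linarith
  · rw [if_neg hc, zero_sub, norm_neg]
    have hle : dl w ≤ dl (S.aP v) := by
      refine (S.T.loc_upper w hw).trans (le_trans ?_ hdl)
      rw [S.hP_eq hv.le]
      exact hh_anti (by omega)
    have h1 := S.norm_Phi_le hw hz
    have h2 := E2.PB_le_half' hz hw hle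
    calc S.c (S.vw w) * ‖S.Phi w (S.aP v)‖ ≤ C0 n * PB (S.aP v) w := h1
      _ ≤ C0 n * (2 ^ (3 * sE n) * Qk (1/2) (S.aP v) w) := mul_le_mul_of_nonneg_left h2 hC0
      _ = C0 n * 2 ^ (3 * sE n) * 1 * Qk (1/2) (S.aP v) w := by ring
      _ ≤ CM n * Qk (1/2) (S.aP v) w := by
            apply mul_le_mul_of_nonneg_right _ hQ
            unfold CM
            apply mul_le_mul_of_nonneg_left _ (by positivity)
            have : (0:ℝ) ≤ 10 ^ (3 * sE n + n) := by positivity
            linarith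

/-- column sums over a block -/
theorem col_sum {w : E n} (hw : w ∈ B n) (b₀ : Fin S.N₀) (V : Finset S.T.ι)
    (hV : ∀ v ∈ V, S.resp v = v ∧ S.b v = b₀ ∧ S.L < S.T.lev v) :
    ∑ v ∈ V, S.T.vol v * Qk (1/2) (S.aP v) w ≤ 8 * 16 ^ n * S.eb := by
  classical
  have hw1 := (mem_B.1 hw).le
  have hdw := dl_pos hw
  have heb := S.heb
  -- shells
  have hex : ∀ v ∈ V, ∃ k : ℕ, (2:ℝ) ^ k ≤ 2 * d (S.aP v) w / dl w ∧
      2 * d (S.aP v) w / dl w < 2 ^ (k+1) := by
    intro v hv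
    apply exists_nat_pow_near _ (by norm_num)
    rw [le_div_iff₀ hdw, one_mul]
    exact dl_le_right _ _ (mem_B.1 (S.aP_mem (hV v hv).2.2.le)).le
  choose! k hk1 hk2 using hex
  have hterm : ∀ j : ℕ, ∑ v ∈ V.filter (fun v => k v = j), S.T.vol v * Qk (1/2) (S.aP v) w ≤
      6 * 16 ^ n * S.eb * (1/4) ^ j := by
    intro j
    set R : ℝ := 2 ^ (j+3) * dl w with hR
    have hRp : 0 < R := by positivity
    have hgap := S.hb.gap b₀ w R (V.filter (fun v => k v = j)) hw1 hRp (by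
      intro v hv
      rw [Finset.mem_filter] at hv
      obtain ⟨hvV, hkv⟩ := hv
      obtain ⟨h1, h2, h3⟩ := hV v hvV
      have hz := S.aP_mem h3.le
      have hz1 := (mem_B.1 hz).le
      have hb2 := hk2 v hvV
      rw [hkv, div_lt_iff₀ hdw, pow_succ] at hb2
      have hdl := S.dl_aP_lower h3.le
      have h4 := dl_le_left (S.aP v) w hw1
      have hpow : (0:ℝ) < 2 ^ j * dl w := by positivity
      have hR' : R = 8 * (2 ^ j * dl w) := by rw [hR, pow_add]; ring
      have hb2' : d (S.aP v) w < 2 ^ j * dl w := by nlinarith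
      refine ⟨h1, h2, ?_, ?_⟩
      · change S.hP v ≤ R
        rw [hR']
        linarith
      · have t1 := d_tri w (S.aP v) (S.T.pt v) hw1 hz1 (S.T.norm_pt_le v)
        rw [S.d_aP_pt, d_comm w (S.aP v)] at t1
        rw [hR']
        linarith)
    have hQ : ∀ v ∈ V.filter (fun v => k v = j), Qk (1/2) (S.aP v) w ≤
        6 * 16 ^ n * (1/4) ^ j * (R ^ n)⁻¹ := by
      intro v hv
      rw [Finset.mem_filter] at hv
      obtain ⟨hvV, hkv⟩ := hv
      obtain ⟨h1, h2, h3⟩ := hV v hvV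
      have hz := S.aP_mem h3.le
      have hz1 := (mem_B.1 hz).le
      have hD := d_pos hz hw1
      have hb1 := hk1 v hvV
      rw [hkv, le_div_iff₀ hdw] at hb1
      rw [E2.Qk_half]
      set D := d (S.aP v) w with hDdef
      have hpow : (0:ℝ) < 2 ^ j := by positivity
      have s1 : Real.sqrt (dl (S.aP v) / D) ≤ 3/2 := by
        rw [Real.sqrt_le_left (by norm_num)]
        rw [div_le_iff₀ hD]
        have := dl_le_left (S.aP v) w hw1
        rw [← hDdef] at this
        linarith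
      have s2 : dl w / D ≤ 2 * (1/2) ^ j := by
        rw [div_le_iff₀ hD, one_div, inv_pow]
        have : 2 * (2 ^ j)⁻¹ * D = (2 * D) / 2 ^ j := by field_simp
        rw [this, le_div_iff₀ hpow]
        linarith
      have s3 : (D ^ n)⁻¹ ≤ 16 ^ n * (R ^ n)⁻¹ := by
        rw [← inv_pow, ← inv_pow, ← mul_pow]
        apply pow_le_pow_left₀ (inv_nonneg.2 hD.le)
        rw [← div_eq_mul_inv, inv_eq_one_div, div_le_div_iff₀ hD hRp]
        have hR' : R = 8 * (2 ^ j * dl w) := by rw [hR, pow_add]; ring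
        rw [hR']
        linarith
      have s0 : 0 ≤ dl w / D := ratio_nonneg hz1 hw1
      calc Real.sqrt (dl (S.aP v) / D) * ((dl w / D) ^ 2 * (D ^ n)⁻¹)
          ≤ 3/2 * ((2 * (1/2) ^ j) ^ 2 * (16 ^ n * (R ^ n)⁻¹)) := by
            gcongr
        _ = 6 * 16 ^ n * ((1/2) ^ j) ^ 2 * (R ^ n)⁻¹ := by ring
        _ = _ := by
            rw [← pow_mul, mul_comm j 2, pow_mul]
            norm_num
    calc ∑ v ∈ V.filter (fun v => k v = j), S.T.vol v * Qk (1/2) (S.aP v) w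
        ≤ ∑ v ∈ V.filter (fun v => k v = j), S.T.vol v * (6 * 16 ^ n * (1/4) ^ j * (R ^ n)⁻¹) :=
          Finset.sum_le_sum (fun v hv => mul_le_mul_of_nonneg_left (hQ v hv) (S.T.vol_nonneg v))
      _ = (∑ v ∈ V.filter (fun v => k v = j), S.T.vol v) * (6 * 16 ^ n * (1/4) ^ j * (R ^ n)⁻¹) :=
          (Finset.sum_mul _ _ _).symm
      _ ≤ (S.eb * R ^ n) * (6 * 16 ^ n * (1/4) ^ j * (R ^ n)⁻¹) :=
          mul_le_mul_of_nonneg_right hgap (by positivity)
      _ = _ := by
          have : R ^ n ≠ 0 := by positivity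
          field_simp
  calc ∑ v ∈ V, S.T.vol v * Qk (1/2) (S.aP v) w
      = ∑ j ∈ V.image k, ∑ v ∈ V.filter (fun v => k v = j), S.T.vol v * Qk (1/2) (S.aP v) w := by
        rw [Finset.sum_fiberwise_of_maps_to (fun v hv => Finset.mem_image_of_mem k hv)]
    _ ≤ ∑ j ∈ V.image k, 6 * 16 ^ n * S.eb * (1/4) ^ j := Finset.sum_le_sum (fun j _ => hterm j)
    _ = 6 * 16 ^ n * S.eb * ∑ j ∈ V.image k, (1/4 : ℝ) ^ j := by rw [Finset.mul_sum]
    _ ≤ 6 * 16 ^ n * S.eb * (4/3) := by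
        apply mul_le_mul_of_nonneg_left _ (by positivity)
        have hs : Summable (fun j : ℕ => (1/4 : ℝ) ^ j) :=
          summable_geometric_of_lt_one (by norm_num) (by norm_num)
        refine (hs.sum_le_tsum _ (fun j _ => by positivity)).trans ?_
        rw [tsum_geometric_of_lt_one (by norm_num) (by norm_num)]
        norm_num
    _ = 8 * 16 ^ n * S.eb := by ring

end Sys

end

end Pool.Agent.Lib.MP7ebef4
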