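import Pool.Agent.Lib.MP_7ebef4_an.ErrE2b

/-! Class (E2), part c: the bound `∑ |v| |ψ_v|² ≤ A e_b ‖F‖_X²`. -/

set_option autoImplicit false

open MeasureTheory Set

namespace Pool.Agent.Lib.MP7ebef4

noncomputable section

variable {n : ℕ}

/-- the statement of `carleson_embed` -/
def EmbStmt (n : ℕ) (cT : ℝ) : Prop := ∃ C : ℝ, 0 < C ∧
    ∀ (L N₀ : ℕ) (T : Tree n cT) (resp : T.ι → T.ι) (eb : ℝ) (b : T.ι → Fin N₀),
      IsBlock T resp L N₀ eb b → ∀ (b₀ : Fin N₀) (V : Finset T.ι),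
      (∀ v ∈ V, resp v = v ∧ b v = b₀ ∧ L < T.lev v) →
      ∀ h : E n → ℂ, DifferentiableOn ℂ h (B n) →
      ∑ v ∈ V, ENNReal.ofReal (T.vol v) *
        ‖h (((1 - 64 ^ L * T.h v : ℝ)) • T.pt v)‖ₑ ^ (2:ℕ) ≤
      ENNReal.ofReal (C * eb) * H2 h

/-- the statement of `lp` -/
def LPStmt (n : ℕ) : Prop := ∃ C : ℝ, 0 < C ∧ ∀ g : E n → ℂ, DifferentiableOn ℂ g (B n) →
    H2 g ≤ ENNReal.ofReal C * AN g

/-- the statement of `Qk_row` -/
def RowQ (n : ℕ) (η : ℝ) : Prop := ∃ C : ℝ, 0 < C ∧ ∀ z ∈ B n,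
    ∫⁻ w, ENNReal.ofReal (Qk η z w) ∂(lam n) ≤ ENNReal.ofReal C

namespace E2

theorem measurable_Qk_right (η : ℝ) (z : E n) : Measurable (fun w : E n => Qk η z w) := by
  unfold Qk
  have h1 : Measurable (fun w : E n => d z w) := by
    have : Continuous (fun w : E n => d z w) := by
      unfold d q; fun_prop
    exact this.measurable
  have h3 : Measurable (fun w : E n => dl w) := measurable_dl
  exact (((h1.const_div _).pow_const _).mul ((h3.div h1).pow_const _)).mul (h1.pow_const _).inv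

/-- Cauchy–Schwarz with weight -/
theorem lintegral_cs {α : Type*} [MeasurableSpace α] (μ : Measure α) {Q f : α → ENNReal}
    (hQ : AEMeasurable Q μ) (hf : AEMeasurable f μ) :
    (∫⁻ x, Q x * f x ∂μ) ^ (2:ℕ) ≤ (∫⁻ x, Q x ∂μ) * ∫⁻ x, Q x * f x ^ (2:ℕ) ∂μ := by
  have h1 := ENNReal.lintegral_mul_le_Lp_mul_Lq μ Real.HolderConjugate.two_two
    (f := fun x => Q x ^ (1/2 : ℝ)) (g := fun x => Q x ^ (1/2 : ℝ) * f x)
    (hQ.pow_const _) ((hQ.pow_const _).mul hf)
  have e0 : ∀ x : ENNReal, x ^ (1/2 : ℝ) * x ^ (1/2 : ℝ) = x := by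
    intro x
    rw [← ENNReal.rpow_add_of_nonneg _ _ (by norm_num) (by norm_num)]
    norm_num
  have e1 : ∀ x, ((fun x => Q x ^ (1/2 : ℝ)) * fun x => Q x ^ (1/2 : ℝ) * f x) x = Q x * f x := by
    intro x
    simp only [Pi.mul_apply]
    rw [← mul_assoc, e0]
  have e2 : ∀ x, (Q x ^ (1/2 : ℝ)) ^ (2:ℝ) = Q x := by
    intro x
    rw [← ENNReal.rpow_mul]; norm_num
  have e3 : ∀ x, (Q x ^ (1/2 : ℝ) * f x) ^ (2:ℝ) = Q x * f x ^ (2:ℕ) := by
    intro x
    rw [ENNReal.mul_rpow_of_nonneg _ _ (by norm_num), e2]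
    congr 1
    rw [show (2:ℝ) = ((2:ℕ) : ℝ) by norm_num, ENNReal.rpow_natCast]
  simp only [e1, e2, e3] at h1
  have h2 := pow_le_pow_left₀ zero_le h1 2
  refine h2.trans (le_of_eq ?_)
  rw [mul_pow]
  have e4 : ∀ x : ENNReal, (x ^ (1/2 : ℝ)) ^ (2:ℕ) = x := by
    intro x; rw [pow_two, e0]
  rw [e4, e4]

end E2

namespace Sys

variable {cT C K : ℝ} (S : Sys n cT C K)

/-- restriction of `F` to a block -/
def Fb (F : E n → ℂ) (b₀ : Fin S.N₀) : E n → ℂ := {w | S.b (S.vw w) = b₀}.indicator F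

theorem measurableSet_block (b₀ : Fin S.N₀) : MeasurableSet {w | S.b (S.vw w) = b₀} := by
  classical
  have h1 : Measurable (fun w => if S.b (S.vw w) = b₀ then (1:ℝ) else 0) :=
    S.measurable_vw (fun x => if S.b x = b₀ then (1:ℝ) else 0)
  have h2 : {w | S.b (S.vw w) = b₀} = (fun w => if S.b (S.vw w) = b₀ then (1:ℝ) else 0) ⁻¹' {1} := by
    ext w
    simp only [Set.mem_ofPred_eq, mem_preimage, mem_singleton_iff]
    by_cases h : S.b (S.vw w) = b₀
    · simp [h]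
    · simp [h]
  rw [h2]
  exact h1 (measurableSet_singleton 1)

theorem Fb_aesm {F : E n → ℂ} (hF : AEStronglyMeasurable F (lam n)) (b₀ : Fin S.N₀) :
    AEStronglyMeasurable (S.Fb F b₀) (lam n) := hF.indicator (S.measurableSet_block b₀)

theorem XN_Fb_le (F : E n → ℂ) (b₀ : Fin S.N₀) : S.XN (S.Fb F b₀) ≤ S.XN F := by
  unfold XN
  apply lintegral_mono
  intro w
  apply pow_le_pow_left₀ zero_le
  apply ENNReal.div_le_div_right
  unfold Fb
  by_cases h : S.b (S.vw w) = b₀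
  · rw [indicator_of_mem (by exact h)]
  · rw [indicator_of_notMem (by exact h)]; simp

theorem sum_XN_Fb_le (F : E n → ℂ) : ∑ b₀, S.XN (S.Fb F b₀) ≤ S.XN F := by
  unfold XN
  refine (E2.sum_lintegral_le _ _ _).trans ?_
  apply lintegral_mono
  intro w
  simp only
  rw [Finset.sum_eq_single (S.b (S.vw w))]
  · unfold Fb
    rw [indicator_of_mem (by rfl)]
  · intro b₀ _ hb
    unfold Fb
    rw [indicator_of_notMem (by exact fun h => hb h.symm)]
    simp
  · intro h; exact absurd (Finset.mem_univ _) h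

theorem measurable_inn_b (v : S.T.ι) : Measurable (fun w => S.inn w v) :=
  S.measurable_vw (fun v' => inner ℂ (S.u v') (S.u v))

theorem inn_eq_sum (w : E n) (v : S.T.ι) :
    S.inn w v = ∑ j, S.u v j * (starRingEnd ℂ) (S.u (S.vw w) j) := by
  unfold inn
  rw [PiLp.inner_apply]
  apply Finset.sum_congr rfl
  intro j _
  rw [RCLike.inner_apply]

theorem measurableSet_lev (v : S.T.ι) :
    MeasurableSet {w | S.T.lev (S.T.loc w) + S.L < S.T.lev v} := by
  classical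
  have h1 : Measurable (fun w => if S.T.lev (S.T.loc w) + S.L < S.T.lev v then (1:ℝ) else 0) :=
    E2.measurable_loc S.T (fun x => if S.T.lev x + S.L < S.T.lev v then (1:ℝ) else 0)
  have h2 : {w | S.T.lev (S.T.loc w) + S.L < S.T.lev v} =
      (fun w => if S.T.lev (S.T.loc w) + S.L < S.T.lev v then (1:ℝ) else 0) ⁻¹' {1} := by
    ext w
    simp only [Set.mem_ofPred_eq, mem_preimage, mem_singleton_iff]
    by_cases h : S.T.lev (S.T.loc w) + S.L < S.T.lev v
    · simp [h]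
    · simp [h]
  rw [h2]
  exact h1 (measurableSet_singleton 1)

theorem measurable_Mk (v : S.T.ι) : Measurable (fun w => S.Mk v w) := by
  unfold Mk
  exact (Measurable.ite (S.measurableSet_lev v) (S.measurable_Phi _) measurable_const).sub
    (S.measurable_Phi _)

/-- decomposition of `ψ_v` -/
theorem psi_eq {F : E n → ℂ} (hF : AEStronglyMeasurable F (lam n)) (hX : S.XN F < ⊤)
    {v : S.T.ι} (hv : S.L < S.T.lev v) :
    S.psi F v = ∑ j, S.u v j * S.HFj (S.Fb F (S.b v)) j (S.aP v) +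
      ∫ w, S.Fb F (S.b v) w * (S.Mk v w * S.inn w v) ∂(lam n) := by
  classical
  have hFb := S.Fb_aesm hF (S.b v)
  have hXb := lt_of_le_of_lt (S.XN_Fb_le F (S.b v)) hX
  have hz := S.aP_mem hv.le
  have hinn : ∀ w ∈ B n, ‖S.inn w v‖ ≤ 1 := fun w _ => S.norm_inn_le w v
  have hI1 : Integrable (fun w => S.Fb F (S.b v) w * (S.Phi w (S.T.a v) * S.inn w v)) (lam n) :=
    S.integrable_Phi hFb hXb (S.T.a_mem v) _ (S.measurable_inn_b v) zero_le_one hinn
  have hI2 : Integrable (fun w => S.Fb F (S.b v) w * (S.Phi w (S.aP v) * S.inn w v)) (lam n) :=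
    S.integrable_Phi hFb hXb hz _ (S.measurable_inn_b v) zero_le_one hinn
  -- first term
  have e1 : ∑ j, S.u v j * S.HFj (S.Fb F (S.b v)) j (S.aP v) =
      ∫ w, S.Fb F (S.b v) w * (S.Phi w (S.aP v) * S.inn w v) ∂(lam n) := by
    unfold HFj
    simp only [← integral_const_mul]
    rw [← integral_finsetSum]
    · apply integral_congr_ae
      apply Filter.Eventually.of_forall
      intro w
      simp only
      rw [S.inn_eq_sum, Finset.mul_sum, Finset.mul_sum]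
      apply Finset.sum_congr rfl
      intro j _
      ring
    · intro j _
      exact (S.integrable_Phi hFb hXb hz _ (S.measurable_ubj j) zero_le_one
        (fun w _ => S.norm_ubj j w)).const_mul _
  -- psi
  have e2 : S.psi F v = ∫ w, {w | S.T.lev (S.T.loc w) + S.L < S.T.lev v}.indicator
      (fun w => S.Fb F (S.b v) w * (S.Phi w (S.T.a v) * S.inn w v)) w ∂(lam n) := by
    unfold psi
    rw [← integral_indicator (S.measurableSet_lev v)]
    apply integral_congr_ae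
    apply Filter.Eventually.of_forall
    intro w
    by_cases h : S.T.lev (S.T.loc w) + S.L < S.T.lev v
    · rw [indicator_of_mem (by exact h), indicator_of_mem (by exact h)]
      by_cases hb : S.b (S.vw w) = S.b v
      · unfold Fb
        rw [indicator_of_mem (by exact hb)]
      · have h0 : S.inn w v = 0 := S.hu.block _ _ hb
        rw [h0]; simp
    · rw [indicator_of_notMem (by exact h), indicator_of_notMem (by exact h)]
  rw [e1, e2, ← integral_add hI2]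
  · apply integral_congr_ae
    apply Filter.Eventually.of_forall
    intro w
    simp only
    unfold Mk
    by_cases h : S.T.lev (S.T.loc w) + S.L < S.T.lev v
    · rw [indicator_of_mem (by exact h), if_pos h]
      ring
    · rw [indicator_of_notMem (by exact h), if_neg h]
      ring
  · have h3 := (hI1.indicator (S.measurableSet_lev v)).sub hI2
    refine h3.congr (Filter.Eventually.of_forall ?_)
    intro w
    simp only [Pi.sub_apply]
    unfold Mk
    by_cases h : S.T.lev (S.T.loc w) + S.L < S.T.lev v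
    · rw [indicator_of_mem (by exact h), if_pos h]
      ring
    · rw [indicator_of_notMem (by exact h), if_neg h]
      ring

theorem psi_eq_zero (F : E n → ℂ) {v : S.T.ι} (hv : ¬ S.L < S.T.lev v) : S.psi F v = 0 := by
  unfold psi
  have : {w | S.T.lev (S.T.loc w) + S.L < S.T.lev v} = (∅ : Set (E n)) := by
    ext w
    simp only [Set.mem_ofPred_eq, mem_empty_iff_false, iff_false]
    omega
  rw [this]
  simp

/-- bound of the correction -/
theorem corr_sum {A : ℝ} (hA : 0 ≤ A)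
    (hrow : ∀ z ∈ B n, ∫⁻ w, ENNReal.ofReal (Qk (1/2) z w) ∂(lam n) ≤ ENNReal.ofReal A)
    {F : E n → ℂ} (hF : AEStronglyMeasurable F (lam n)) (b₀ : Fin S.N₀) (V : Finset S.T.ι)
    (hV : ∀ v ∈ V, S.resp v = v ∧ S.b v = b₀ ∧ S.L < S.T.lev v) :
    ∑ v ∈ V, ENNReal.ofReal (S.T.vol v) *
      ‖∫ w, F w * (S.Mk v w * S.inn w v) ∂(lam n)‖ₑ ^ (2:ℕ) ≤
      ENNReal.ofReal (CM n ^ 2 * A * (8 * 16 ^ n) * S.eb) * S.XN F := by
  have heb := S.heb
  have hCM := CM_nonneg n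
  set f : E n → ENNReal := fun w => ‖F w‖ₑ / ENNReal.ofReal (S.c (S.vw w)) with hf
  have hfm : AEMeasurable f (lam n) := S.enorm_div_aemeasurable hF
  set Q : S.T.ι → E n → ENNReal := fun v w => ENNReal.ofReal (Qk (1/2) (S.aP v) w) with hQ
  have hQm : ∀ v, Measurable (Q v) := by
    intro v
    exact (E2.measurable_Qk_right (1/2) (S.aP v)).ennreal_ofReal
  have h1 : ∀ v ∈ V, ‖∫ w, F w * (S.Mk v w * S.inn w v) ∂(lam n)‖ₑ ^ (2:ℕ) ≤
      ENNReal.ofReal (CM n ^ 2 * A) * ∫⁻ w, Q v w * f w ^ (2:ℕ) ∂(lam n) := by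
    intro v hv
    obtain ⟨h1, h2, h3⟩ := hV v hv
    have hz := S.aP_mem h3.le
    have h4 : ‖∫ w, F w * (S.Mk v w * S.inn w v) ∂(lam n)‖ₑ ≤
        ENNReal.ofReal (CM n) * ∫⁻ w, Q v w * f w ∂(lam n) := by
      refine (enorm_integral_le_lintegral_enorm _).trans ?_
      rw [← lintegral_const_mul' _ _ ENNReal.ofReal_ne_top]
      apply lintegral_mono_ae
      filter_upwards [E2.lam_ae_B] with w hw
      have hc := S.c_pos (S.vw w)
      have h5 := S.Mk_le h3 hw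
      have hQk := Qk_nonneg' (1/2) hz hw
      simp only [hQ, hf]
      rw [← ofReal_norm, ← ofReal_norm, ← ENNReal.ofReal_div_of_pos hc,
        ← ENNReal.ofReal_mul hQk, ← ENNReal.ofReal_mul hCM]
      apply ENNReal.ofReal_le_ofReal
      rw [norm_mul, norm_mul]
      have h6 : ‖S.Mk v w‖ ≤ CM n * Qk (1/2) (S.aP v) w / S.c (S.vw w) := by
        rw [le_div_iff₀ hc, mul_comm]; exact h5
      have h7 := S.norm_inn_le w v
      calc ‖F w‖ * (‖S.Mk v w‖ * ‖S.inn w v‖)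
          ≤ ‖F w‖ * ((CM n * Qk (1/2) (S.aP v) w / S.c (S.vw w)) * 1) := by
            gcongr
        _ = _ := by ring
    have h5 := pow_le_pow_left₀ zero_le h4 2
    refine h5.trans ?_
    rw [mul_pow, ENNReal.ofReal_mul (sq_nonneg _), ENNReal.ofReal_pow hCM, mul_assoc]
    apply mul_le_mul_right
    refine (E2.lintegral_cs (lam n) (hQm v).aemeasurable hfm).trans ?_
    apply mul_le_mul_left
    exact hrow _ hz
  calc ∑ v ∈ V, ENNReal.ofReal (S.T.vol v) *
        ‖∫ w, F w * (S.Mk v w * S.inn w v) ∂(lam n)‖ₑ ^ (2:ℕ)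
      ≤ ∑ v ∈ V, ENNReal.ofReal (S.T.vol v) *
        (ENNReal.ofReal (CM n ^ 2 * A) * ∫⁻ w, Q v w * f w ^ (2:ℕ) ∂(lam n)) := by
        apply Finset.sum_le_sum
        intro v hv
        exact mul_le_mul_right (h1 v hv) _
    _ = ENNReal.ofReal (CM n ^ 2 * A) * ∑ v ∈ V,
        ∫⁻ w, ENNReal.ofReal (S.T.vol v) * (Q v w * f w ^ (2:ℕ)) ∂(lam n) := by
        rw [Finset.mul_sum]
        apply Finset.sum_congr rfl
        intro v _
        rw [lintegral_const_mul' _ _ ENNReal.ofReal_ne_top]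
        ring
    _ ≤ ENNReal.ofReal (CM n ^ 2 * A) *
        ∫⁻ w, ∑ v ∈ V, ENNReal.ofReal (S.T.vol v) * (Q v w * f w ^ (2:ℕ)) ∂(lam n) :=
        mul_le_mul_right (E2.sum_lintegral_le _ _ _) _
    _ ≤ ENNReal.ofReal (CM n ^ 2 * A) *
        ∫⁻ w, ENNReal.ofReal (8 * 16 ^ n * S.eb) * f w ^ (2:ℕ) ∂(lam n) := by
        apply mul_le_mul_right
        apply lintegral_mono_ae
        filter_upwards [E2.lam_ae_B] with w hw
        have h2 := S.col_sum hw b₀ V hV
        have h3 : ∑ v ∈ V, ENNReal.ofReal (S.T.vol v) * (Q v w * f w ^ (2:ℕ)) =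
            ENNReal.ofReal (∑ v ∈ V, S.T.vol v * Qk (1/2) (S.aP v) w) * f w ^ (2:ℕ) := by
          rw [ENNReal.ofReal_sum_of_nonneg, Finset.sum_mul]
          · apply Finset.sum_congr rfl
            intro v _
            rw [ENNReal.ofReal_mul (S.T.vol_nonneg v), mul_assoc]
          · intro v hv
            exact mul_nonneg (S.T.vol_nonneg v)
              (Qk_nonneg' (1/2) (S.aP_mem (hV v hv).2.2.le) hw)
        rw [h3]
        exact mul_le_mul_left (ENNReal.ofReal_le_ofReal h2) _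
    _ = ENNReal.ofReal (CM n ^ 2 * A) * (ENNReal.ofReal (8 * 16 ^ n * S.eb) * S.XN F) := by
        rw [lintegral_const_mul' _ _ ENNReal.ofReal_ne_top]
        rfl
    _ = _ := by
        rw [← mul_assoc, ← ENNReal.ofReal_mul (by positivity)]
        congr 2
        ring

end Sys

/-- **(E2b)** -/
theorem E2b_of (n : ℕ) (cT : ℝ) (hSg : SgHol n) (hQ : SchurQ n 1) (hrow : RowQ n (1/2))
    (hlp : LPStmt n) (hemb : EmbStmt n cT) : ∃ A : ℝ, 0 < A ∧
    ∀ (C K : ℝ) (S : Sys n cT C K) (F : E n → ℂ), AEStronglyMeasurable F (lam n) → S.XN F < ⊤ →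
      ∑ v ∈ S.pumps, ENNReal.ofReal (S.T.vol v) * ‖S.psi F v‖ₑ ^ (2:ℕ) ≤
        ENNReal.ofReal (A * S.eb) * S.XN F := by
  classical
  obtain ⟨A₁, hA₁, hHN⟩ := HN_of n hSg hQ
  obtain ⟨A₂, hA₂, hrow⟩ := hrow
  obtain ⟨A₃, hA₃, hlp⟩ := hlp
  obtain ⟨A₄, hA₄, hemb⟩ := hemb
  have hCM := Sys.CM_nonneg n
  refine ⟨2 * (A₄ * A₃ * A₁ + Sys.CM n ^ 2 * A₂ * (8 * 16 ^ n)), by positivity, ?_⟩
  intro C K S F hF hX
  have heb := S.heb
  -- one block
  have hblock : ∀ b₀ : Fin S.N₀,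
      ∑ v ∈ S.pumps.filter (fun v => S.b v = b₀ ∧ S.L < S.T.lev v),
        ENNReal.ofReal (S.T.vol v) * ‖S.psi F v‖ₑ ^ (2:ℕ) ≤
      ENNReal.ofReal (2 * (A₄ * A₃ * A₁ + Sys.CM n ^ 2 * A₂ * (8 * 16 ^ n)) * S.eb) *
        S.XN (S.Fb F b₀) := by
    intro b₀
    set V := S.pumps.filter (fun v => S.b v = b₀ ∧ S.L < S.T.lev v) with hVdef
    have hV : ∀ v ∈ V, S.resp v = v ∧ S.b v = b₀ ∧ S.L < S.T.lev v := by
      intro v hv
      rw [hVdef, Finset.mem_filter, S.mem_pumps] at hv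
      exact ⟨hv.1, hv.2.1, hv.2.2⟩
    have hFb := S.Fb_aesm hF b₀
    have hXb := lt_of_le_of_lt (S.XN_Fb_le F b₀) hX
    obtain ⟨hd, _, hAN⟩ := hHN cT C K S (S.Fb F b₀) hFb hXb
    have hcorr := S.corr_sum hA₂.le hrow hFb b₀ V hV
    -- main part
    have hmain : ∑ v ∈ V, ENNReal.ofReal (S.T.vol v) *
        ‖∑ j, S.u v j * S.HFj (S.Fb F b₀) j (S.aP v)‖ₑ ^ (2:ℕ) ≤
        ENNReal.ofReal (A₄ * A₃ * A₁ * S.eb) * S.XN (S.Fb F b₀) := by
      have hcs : ∀ v, ‖∑ j, S.u v j * S.HFj (S.Fb F b₀) j (S.aP v)‖ₑ ^ (2:ℕ) ≤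
          ∑ j, ‖S.HFj (S.Fb F b₀) j (S.aP v)‖ₑ ^ (2:ℕ) := by
        intro v
        have h1 : ‖∑ j, S.u v j * S.HFj (S.Fb F b₀) j (S.aP v)‖ ^ 2 ≤
            ∑ j, ‖S.HFj (S.Fb F b₀) j (S.aP v)‖ ^ 2 := by
          have h2 := norm_sum_le Finset.univ
            (fun j => S.u v j * S.HFj (S.Fb F b₀) j (S.aP v))
          simp only [norm_mul] at h2
          have h3 := Finset.sum_mul_sq_le_sq_mul_sq Finset.univ (fun j => ‖S.u v j‖)
            (fun j => ‖S.HFj (S.Fb F b₀) j (S.aP v)‖)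
          have h4 : ∑ j, ‖S.u v j‖ ^ 2 = 1 := by
            rw [← EuclideanSpace.norm_sq_eq, S.hu.unit]; norm_num
          rw [h4, one_mul] at h3
          exact (pow_le_pow_left₀ (norm_nonneg _) h2 2).trans h3
        rw [← ofReal_norm, ← ENNReal.ofReal_pow (norm_nonneg _)]
        refine (ENNReal.ofReal_le_ofReal h1).trans ?_
        rw [ENNReal.ofReal_sum_of_nonneg (fun _ _ => sq_nonneg _)]
        apply Finset.sum_le_sum
        intro j _
        rw [ENNReal.ofReal_pow (norm_nonneg _), ofReal_norm]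
      calc ∑ v ∈ V, ENNReal.ofReal (S.T.vol v) *
            ‖∑ j, S.u v j * S.HFj (S.Fb F b₀) j (S.aP v)‖ₑ ^ (2:ℕ)
          ≤ ∑ v ∈ V, ENNReal.ofReal (S.T.vol v) *
            ∑ j, ‖S.HFj (S.Fb F b₀) j (S.aP v)‖ₑ ^ (2:ℕ) :=
            Finset.sum_le_sum (fun v _ => mul_le_mul_right (hcs v) _)
        _ = ∑ j, ∑ v ∈ V, ENNReal.ofReal (S.T.vol v) *
            ‖S.HFj (S.Fb F b₀) j (S.aP v)‖ₑ ^ (2:ℕ) := by
            simp only [Finset.mul_sum]
            rw [Finset.sum_comm]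
        _ ≤ ∑ j, ENNReal.ofReal (A₄ * S.eb) * (ENNReal.ofReal A₃ * AN (S.HFj (S.Fb F b₀) j)) := by
            apply Finset.sum_le_sum
            intro j _
            refine (hemb S.L S.N₀ S.T S.resp S.eb S.b S.hb b₀ V hV _ (hd j)).trans ?_
            exact mul_le_mul_right (hlp _ (hd j)) _
        _ = ENNReal.ofReal (A₄ * S.eb) * (ENNReal.ofReal A₃ * ∑ j, AN (S.HFj (S.Fb F b₀) j)) := by
            rw [Finset.mul_sum, Finset.mul_sum]
        _ ≤ ENNReal.ofReal (A₄ * S.eb) * (ENNReal.ofReal A₃ *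
            (ENNReal.ofReal A₁ * S.XN (S.Fb F b₀))) := by
            gcongr
        _ = _ := by
            rw [← mul_assoc, ← mul_assoc, ← ENNReal.ofReal_mul (by positivity),
              ← ENNReal.ofReal_mul (by positivity)]
            congr 2
            ring
    have hsq : ∀ v ∈ V, ‖S.psi F v‖ₑ ^ (2:ℕ) ≤
        2 * ‖∑ j, S.u v j * S.HFj (S.Fb F b₀) j (S.aP v)‖ₑ ^ (2:ℕ) +
        2 * ‖∫ w, S.Fb F b₀ w * (S.Mk v w * S.inn w v) ∂(lam n)‖ₑ ^ (2:ℕ) := by
      intro v hv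
      obtain ⟨h1, h2, h3⟩ := hV v hv
      have h4 := S.psi_eq hF hX h3
      rw [h2] at h4
      rw [h4]
      set x := ∑ j, S.u v j * S.HFj (S.Fb F b₀) j (S.aP v)
      set y := ∫ w, S.Fb F b₀ w * (S.Mk v w * S.inn w v) ∂(lam n)
      have h5 : ‖x + y‖ ^ 2 ≤ 2 * ‖x‖ ^ 2 + 2 * ‖y‖ ^ 2 := by
        have h6 := norm_add_le x y
        have h7 := pow_le_pow_left₀ (norm_nonneg _) h6 2
        nlinarith [sq_nonneg (‖x‖ - ‖y‖)]
      have h8 := ENNReal.ofReal_le_ofReal h5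
      rw [ENNReal.ofReal_add (by positivity) (by positivity),
        ENNReal.ofReal_mul (by norm_num), ENNReal.ofReal_mul (by norm_num),
        ENNReal.ofReal_pow (norm_nonneg _), ENNReal.ofReal_pow (norm_nonneg _),
        ENNReal.ofReal_pow (norm_nonneg _), ofReal_norm, ofReal_norm, ofReal_norm] at h8
      simpa using h8
    calc ∑ v ∈ V, ENNReal.ofReal (S.T.vol v) * ‖S.psi F v‖ₑ ^ (2:ℕ)
        ≤ ∑ v ∈ V, ENNReal.ofReal (S.T.vol v) *
          (2 * ‖∑ j, S.u v j * S.HFj (S.Fb F b₀) j (S.aP v)‖ₑ ^ (2:ℕ) +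
          2 * ‖∫ w, S.Fb F b₀ w * (S.Mk v w * S.inn w v) ∂(lam n)‖ₑ ^ (2:ℕ)) :=
          Finset.sum_le_sum (fun v hv => mul_le_mul_right (hsq v hv) _)
      _ = 2 * ∑ v ∈ V, ENNReal.ofReal (S.T.vol v) *
            ‖∑ j, S.u v j * S.HFj (S.Fb F b₀) j (S.aP v)‖ₑ ^ (2:ℕ) +
          2 * ∑ v ∈ V, ENNReal.ofReal (S.T.vol v) *
            ‖∫ w, S.Fb F b₀ w * (S.Mk v w * S.inn w v) ∂(lam n)‖ₑ ^ (2:ℕ) := by
          rw [Finset.mul_sum, Finset.mul_sum, ← Finset.sum_add_distrib]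
          apply Finset.sum_congr rfl
          intro v _
          ring
      _ ≤ 2 * (ENNReal.ofReal (A₄ * A₃ * A₁ * S.eb) * S.XN (S.Fb F b₀)) +
          2 * (ENNReal.ofReal (Sys.CM n ^ 2 * A₂ * (8 * 16 ^ n) * S.eb) * S.XN (S.Fb F b₀)) := by
          gcongr
      _ = _ := by
          have h2 : (2:ENNReal) = ENNReal.ofReal 2 := by norm_num
          rw [h2, ← mul_assoc, ← mul_assoc, ← ENNReal.ofReal_mul (by norm_num),
            ← ENNReal.ofReal_mul (by norm_num), ← add_mul,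
            ← ENNReal.ofReal_add (by positivity) (by positivity)]
          congr 2
          ring
  -- all blocks
  have hsplit : ∑ v ∈ S.pumps, ENNReal.ofReal (S.T.vol v) * ‖S.psi F v‖ₑ ^ (2:ℕ) =
      ∑ b₀, ∑ v ∈ S.pumps.filter (fun v => S.b v = b₀ ∧ S.L < S.T.lev v),
        ENNReal.ofReal (S.T.vol v) * ‖S.psi F v‖ₑ ^ (2:ℕ) := by
    rw [← Finset.sum_fiberwise S.pumps S.b]
    apply Finset.sum_congr rfl
    intro b₀ _
    symm
    apply Finset.sum_subset
    · intro v hv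
      rw [Finset.mem_filter] at hv ⊢
      exact ⟨hv.1, hv.2.1⟩
    · intro v hv hv'
      rw [Finset.mem_filter] at hv hv'
      have : ¬ S.L < S.T.lev v := fun h => hv' ⟨hv.1, hv.2, h⟩
      rw [S.psi_eq_zero F this]
      simp
  rw [hsplit]
  refine (Finset.sum_le_sum (fun b₀ _ => hblock b₀)).trans ?_
  rw [← Finset.mul_sum]
  exact mul_le_mul_right (S.sum_XN_Fb_le F) _

end

end Pool.Agent.Lib.MP7ebef4
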