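import Pool.Agent.Lib.MP_7ebef4_an.ErrE1b
import Pool.Agent.Lib.MP_7ebef4_an.ErrD
import Pool.Agent.Lib.MP_7ebef4_an.ErrE2a

/-! The operator bound for the pointwise part `Err1` of the error kernel. -/

set_option autoImplicit false

open MeasureTheory Set

namespace Pool.Agent.Lib.MP7ebef4

noncomputable section

variable {n : ℕ}

theorem Qk_one_le {z w : E n} (hz : z ∈ B n) (hw : w ∈ B n) : Qk 1 z w ≤ 2 * Qk (1/4) z w := by
  have hz1 := (mem_B.1 hz).le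
  have hw1 := (mem_B.1 hw).le
  have hD := d_pos hz hw1
  have hdz := dl_pos hz
  have hdw := dl_pos hw
  have hx0 : 0 < dl z / d z w := div_pos hdz hD
  have hx2 : dl z / d z w ≤ 2 := by rw [div_le_iff₀ hD]; exact dl_le_left z w hw1
  have h1 : dl z / d z w ≤ 2 * (dl z / d z w) ^ (1/4:ℝ) := by
    have e : dl z / d z w = (dl z / d z w) ^ (3/4:ℝ) * (dl z / d z w) ^ (1/4:ℝ) := by
      rw [← Real.rpow_add hx0]; norm_num
    have h2 : (dl z / d z w) ^ (3/4:ℝ) ≤ 2 := by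
      calc (dl z / d z w) ^ (3/4:ℝ) ≤ 2 ^ (3/4:ℝ) := Real.rpow_le_rpow hx0.le hx2 (by norm_num)
        _ ≤ 2 ^ (1:ℝ) := Real.rpow_le_rpow_of_exponent_le (by norm_num) (by norm_num)
        _ = 2 := Real.rpow_one _
    have h3 : 0 ≤ (dl z / d z w) ^ (1/4:ℝ) := by positivity
    calc dl z / d z w = (dl z / d z w) ^ (3/4:ℝ) * (dl z / d z w) ^ (1/4:ℝ) := e
      _ ≤ _ := mul_le_mul_of_nonneg_right h2 h3
  unfold Qk
  rw [Real.rpow_one]
  have h4 : 0 ≤ (dl w / d z w) ^ 2 * ((d z w) ^ n)⁻¹ := by positivity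
  calc dl z / d z w * (dl w / d z w) ^ 2 * ((d z w) ^ n)⁻¹ =
        dl z / d z w * ((dl w / d z w) ^ 2 * ((d z w) ^ n)⁻¹) := by ring
    _ ≤ 2 * (dl z / d z w) ^ (1/4:ℝ) * ((dl w / d z w) ^ 2 * ((d z w) ^ n)⁻¹) :=
        mul_le_mul_of_nonneg_right h1 h4
    _ = _ := by ring

theorem kap_sum_le {X1 Y2 X3 X4 ka kb kd : ℝ} (h1 : 0 ≤ X1) (h2 : 0 ≤ Y2) (h3 : 0 ≤ X3) (h4 : 0 ≤ X4)
    (ha : 0 ≤ ka) (hb : 0 ≤ kb) (hd : 0 ≤ kd) :
    2 * X1 * ka + 2 * Y2 * kb + 2 * X3 * kd + X4 * ka ≤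
      (2 * X1 + 2 * Y2 + 2 * X3 + X4 + 1) * (ka + kb + kd) := by
  have e : (2 * X1 + 2 * Y2 + 2 * X3 + X4 + 1) * (ka + kb + kd) -
      (2 * X1 * ka + 2 * Y2 * kb + 2 * X3 * kd + X4 * ka) =
      2 * X1 * (kb + kd) + 2 * Y2 * (ka + kd) + 2 * X3 * (ka + kb) + X4 * (kb + kd) + (ka + kb + kd) := by
    ring
  have : 0 ≤ 2 * X1 * (kb + kd) + 2 * Y2 * (ka + kd) + 2 * X3 * (ka + kb) + X4 * (kb + kd) +
      (ka + kb + kd) := by positivity
  linarith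

namespace Sys

variable {cT C K : ℝ} (S : Sys n cT C K)

def Err1 (w z : E n) : ℂ := S.ErrA w z + S.ErrBC w z + S.ErrD w z + S.ErrE1 w z

open Classical in
def ErrT (w z : E n) : ℂ := ∑ v ∈ S.pumps.erase (S.vw w), S.term w z v

/-- the error operator -/
def EF (F : E n → ℂ) (z : E n) : ℂ := ∫ w, F w * S.ErrT w z ∂(lam n)

open Classical in
theorem ErrT_eq (w z : E n) : S.ErrT w z = S.Err1 w z + S.ErrE2 w z := by
  have h1 : S.Err1 w z + S.ErrE2 w z = ∑ v ∈ S.clA w, S.term w z v + ∑ v ∈ S.clBC w, S.term w z v +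
      ∑ v ∈ S.clD w, S.term w z v + ∑ v ∈ S.clE w, S.term w z v := by
    unfold Err1 ErrE2 ErrE1 ErrA ErrBC ErrD
    have : ∑ v ∈ S.clE w, S.term w z v = ∑ v ∈ S.clE w, S.termE1 w z v + ∑ v ∈ S.clE w, S.termE2 w z v := by
      rw [← Finset.sum_add_distrib]
      exact Finset.sum_congr rfl (fun v _ => S.term_eq w z v)
    rw [this]; ring
  rw [h1]
  unfold ErrT clA clBC clD clE pumps
  have hl : S.T.lev (S.vw w) ≤ S.T.lev (S.T.loc w) := S.T.lev_le_of_le (S.vw_anc w)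
  have e0 : (Finset.univ.filter (fun v => S.resp v = v)).erase (S.vw w) =
      Finset.univ.filter (fun v => S.resp v = v ∧ v ≠ S.vw w) := by
    ext v
    simp only [Finset.mem_erase, Finset.mem_filter, Finset.mem_univ, true_and]
    tauto
  rw [e0]
  simp only [Finset.sum_filter]
  rw [← Finset.sum_add_distrib, ← Finset.sum_add_distrib, ← Finset.sum_add_distrib]
  apply Finset.sum_congr rfl
  intro v _
  by_cases hr : S.resp v = v
  · by_cases hne : v = S.vw w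
    · have a1 : ¬ (S.T.lev v + S.L < S.T.lev (S.vw w)) := by rw [hne]; omega
      have a2 : ¬ (S.T.lev (S.T.loc w) < S.T.lev v ∧ S.T.lev v ≤ S.T.lev (S.T.loc w) + S.L) := by
        rw [hne]; omega
      have a3 : ¬ (S.T.lev (S.T.loc w) + S.L < S.T.lev v) := by rw [hne]; omega
      simp only [a1, a2, a3, and_false, if_false, add_zero]
      have b1 : ¬ (S.resp v = v ∧ v ≠ S.vw w) := fun h => h.2 hne
      rw [if_neg b1, if_neg (fun h => h.2.1 hne), add_zero]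
    · simp only [hr, true_and, ne_eq, hne, not_false_eq_true, and_true, if_true]
      by_cases c1 : S.T.lev v + S.L < S.T.lev (S.vw w)
      · have a1 : ¬ (S.T.lev (S.vw w) ≤ S.T.lev v + S.L ∧ S.T.lev v ≤ S.T.lev (S.T.loc w)) := by omega
        have a2 : ¬ (S.T.lev (S.T.loc w) < S.T.lev v ∧ S.T.lev v ≤ S.T.lev (S.T.loc w) + S.L) := by omega
        have a3 : ¬ (S.T.lev (S.T.loc w) + S.L < S.T.lev v) := by omega
        rw [if_pos c1, if_neg a1, if_neg a2, if_neg a3]; ring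
      · by_cases c2 : S.T.lev v ≤ S.T.lev (S.T.loc w)
        · have a1 : (S.T.lev (S.vw w) ≤ S.T.lev v + S.L ∧ S.T.lev v ≤ S.T.lev (S.T.loc w)) := by omega
          have a2 : ¬ (S.T.lev (S.T.loc w) < S.T.lev v ∧ S.T.lev v ≤ S.T.lev (S.T.loc w) + S.L) := by omega
          have a3 : ¬ (S.T.lev (S.T.loc w) + S.L < S.T.lev v) := by omega
          rw [if_neg c1, if_pos a1, if_neg a2, if_neg a3]; ring
        · have a1 : ¬ (S.T.lev (S.vw w) ≤ S.T.lev v + S.L ∧ S.T.lev v ≤ S.T.lev (S.T.loc w)) := by omega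
          by_cases c3 : S.T.lev v ≤ S.T.lev (S.T.loc w) + S.L
          · have a2 : (S.T.lev (S.T.loc w) < S.T.lev v ∧ S.T.lev v ≤ S.T.lev (S.T.loc w) + S.L) := by omega
            have a3 : ¬ (S.T.lev (S.T.loc w) + S.L < S.T.lev v) := by omega
            rw [if_neg c1, if_neg a1, if_pos a2, if_neg a3]; ring
          · have a2 : ¬ (S.T.lev (S.T.loc w) < S.T.lev v ∧ S.T.lev v ≤ S.T.lev (S.T.loc w) + S.L) := by omega
            have a3 : (S.T.lev (S.T.loc w) + S.L < S.T.lev v) := by omega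
            rw [if_neg c1, if_neg a1, if_neg a2, if_pos a3]; ring
  · simp only [hr, false_and, if_false, add_zero]

/-- the smallness parameter of `Err1` -/
def kap1 : ℝ := S.kL + S.ε + (S.L + 2) / S.p' ^ 2 + S.L * 64 ^ S.L / S.p'

theorem kap1_nonneg : 0 ≤ S.kap1 := by
  unfold kap1
  have := S.kL_nonneg; have := S.hε; have := S.hp'
  positivity

end Sys

theorem Err1_le (n : ℕ) (cT C K : ℝ)
    (hLS : ∃ A > 0, LevelSum n cT ((sE n - n - 1 : ℕ) : ℝ) A)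
    (hNS : ∃ A > 0, NodeSum n cT ((sE n - n : ℕ) - 1/4) ((sE n - n : ℕ)) A)
    (hN1 : ∃ A > 0, NodeSum n cT ((Sys.mE n : ℕ) - 1/4) ((Sys.mE n : ℕ) + 1/2) A)
    (hN2 : ∃ A > 0, NodeSum n cT ((Sys.mE n : ℕ) - 1/4) ((Sys.mE n : ℕ)) A) :
    ∃ A : ℝ, 0 < A ∧ ∀ (S : Sys n cT C K) (w z : E n), w ∈ B n → z ∈ B n →
      S.c (S.vw w) * ‖S.Err1 w z‖ ≤ A * S.kap1 * S.c (S.vw z) * Qk (1/4) z w := by
  obtain ⟨A1, hA1, hLS⟩ := hLS
  obtain ⟨A2, hA2, hNS⟩ := hNS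
  obtain ⟨A3, hA3, hN1⟩ := hN1
  obtain ⟨A4, hA4, hN2⟩ := hN2
  set X1 := |Sys.CA n C K * A2| with hX1
  set X2 := |Sys.C0 n * Sys.C5 n C K * Sys.C6 n C K * 6 ^ (sE n) * Sys.CN n * 2 ^ (3 * sE n)| with hX2
  set X3 := |Sys.CD n C K * A1| with hX3
  set X4 := |Sys.CE n C K * (4 * (A3 + A4))| with hX4
  refine ⟨2 * X1 + 2 * X2 * (4 ^ (sE n) + 4 * A1) + 2 * X3 + X4 + 1, by positivity, ?_⟩
  intro S w z hw hz
  have hz1 := (mem_B.1 hz).le
  have hw1 := (mem_B.1 hw).le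
  have hcw := S.c_pos (S.vw w)
  have hcz := S.c_pos (S.vw z)
  have hQ4 := Qk_nonneg (1/4) hz1 hw1
  have hQ1 := Qk_nonneg 1 hz1 hw1
  have hQ := Qk_one_le hz hw
  have hk := S.kL_nonneg
  have hε := S.hε
  have hp' := S.hp'
  have h1 := S.ErrA_le A2 hNS hw hz
  have h2 := S.ErrBC_le A1 hA1.le hLS hw hz
  have h3 := S.ErrD_le A1 hLS hw hz
  have h4 := S.ErrE1_le A3 A4 hN1 hN2 hw hz
  set ka := S.kL with hka
  set kb := S.ε + (S.L + 2) / S.p' ^ 2 with hkb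
  set kd := S.L * 64 ^ S.L / S.p' with hkd
  have hkb0 : 0 ≤ kb := by rw [hkb]; positivity
  have hkd0 : 0 ≤ kd := by rw [hkd]; positivity
  have hkap : S.kap1 = ka + kb + kd := by unfold Sys.kap1; rw [hka, hkb, hkd]; ring
  set W := S.c (S.vw z) * Qk (1/4) z w with hW
  have hW0 : 0 ≤ W := mul_nonneg hcz.le hQ4
  have b1 : S.c (S.vw w) * ‖S.ErrA w z‖ ≤ 2 * X1 * ka * W := by
    have e1 : Sys.CA n C K * (A2 * ka) ≤ X1 * ka := by
      rw [← mul_assoc]; exact mul_le_mul_of_nonneg_right (le_abs_self _) hk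
    have hX1k : 0 ≤ X1 * ka := by positivity
    calc _ ≤ Sys.CA n C K * (A2 * ka) * S.c (S.vw z) * Qk 1 z w := h1
      _ ≤ X1 * ka * S.c (S.vw z) * (2 * Qk (1/4) z w) := by
          apply mul_le_mul _ hQ hQ1 (by positivity)
          exact mul_le_mul_of_nonneg_right e1 hcz.le
      _ = _ := by rw [hW]; ring
  have b2 : S.c (S.vw w) * ‖S.ErrBC w z‖ ≤ 2 * X2 * (4 ^ (sE n) + 4 * A1) * kb * W := by
    have e0 : 4 ^ (sE n) * S.ε + (4 * A1) * ((S.L + 2) / S.p' ^ 2) ≤ (4 ^ (sE n) + 4 * A1) * kb := by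
      rw [hkb]
      have t1 : 0 ≤ (4:ℝ) ^ (sE n) * ((S.L + 2) / S.p' ^ 2) := by positivity
      have t2 : 0 ≤ 4 * A1 * S.ε := by positivity
      nlinarith
    have e00 : 0 ≤ 4 ^ (sE n) * S.ε + (4 * A1) * ((S.L + 2) / S.p' ^ 2) := by positivity
    have e1 : (Sys.C0 n * Sys.C5 n C K * Sys.C6 n C K * 6 ^ (sE n) * Sys.CN n * 2 ^ (3 * sE n)) *
        (4 ^ (sE n) * S.ε + (4 * A1) * ((S.L + 2) / S.p' ^ 2)) ≤ X2 * ((4 ^ (sE n) + 4 * A1) * kb) := by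
      apply mul_le_mul (le_abs_self _) e0 e00 (by positivity)
    have hX2k : 0 ≤ X2 * ((4 ^ (sE n) + 4 * A1) * kb) := by positivity
    calc _ ≤ _ := h2
      _ ≤ X2 * ((4 ^ (sE n) + 4 * A1) * kb) * S.c (S.vw z) * (2 * Qk (1/4) z w) := by
          apply mul_le_mul _ hQ hQ1 (by positivity)
          exact mul_le_mul_of_nonneg_right e1 hcz.le
      _ = _ := by rw [hW]; ring
  have b3 : S.c (S.vw w) * ‖S.ErrD w z‖ ≤ 2 * X3 * kd * W := by
    have e1 : Sys.CD n C K * (A1 * (S.L * 64 ^ S.L / S.p')) ≤ X3 * kd := by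
      rw [← mul_assoc]; exact mul_le_mul_of_nonneg_right (le_abs_self _) hkd0
    have hX3k : 0 ≤ X3 * kd := by positivity
    calc _ ≤ _ := h3
      _ ≤ X3 * kd * S.c (S.vw z) * (2 * Qk (1/4) z w) := by
          apply mul_le_mul _ hQ hQ1 (by positivity)
          exact mul_le_mul_of_nonneg_right e1 hcz.le
      _ = _ := by rw [hW]; ring
  have b4 : S.c (S.vw w) * ‖S.ErrE1 w z‖ ≤ X4 * ka * W := by
    have e1 : Sys.CE n C K * (4 * (A3 + A4) * ka) ≤ X4 * ka := by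
      rw [← mul_assoc]; exact mul_le_mul_of_nonneg_right (le_abs_self _) hk
    calc _ ≤ _ := h4
      _ ≤ X4 * ka * S.c (S.vw z) * Qk (1/4) z w := by
          apply mul_le_mul_of_nonneg_right _ hQ4
          exact mul_le_mul_of_nonneg_right e1 hcz.le
      _ = _ := by rw [hW]; ring
  have htri : ‖S.Err1 w z‖ ≤ ‖S.ErrA w z‖ + ‖S.ErrBC w z‖ + ‖S.ErrD w z‖ + ‖S.ErrE1 w z‖ := by
    unfold Sys.Err1
    refine (norm_add_le _ _).trans ?_
    have := norm_add₃_le (a := S.ErrA w z) (b := S.ErrBC w z) (c := S.ErrD w z)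
    linarith
  have hX1n : 0 ≤ X1 := abs_nonneg _
  have hX2n : 0 ≤ X2 := abs_nonneg _
  have hX3n : 0 ≤ X3 := abs_nonneg _
  have hX4n : 0 ≤ X4 := abs_nonneg _
  set Y2 := X2 * (4 ^ (sE n) + 4 * A1) with hY2
  have hY2n : 0 ≤ Y2 := by rw [hY2]; positivity
  calc S.c (S.vw w) * ‖S.Err1 w z‖ ≤
        S.c (S.vw w) * (‖S.ErrA w z‖ + ‖S.ErrBC w z‖ + ‖S.ErrD w z‖ + ‖S.ErrE1 w z‖) :=
        mul_le_mul_of_nonneg_left htri hcw.le
    _ = S.c (S.vw w) * ‖S.ErrA w z‖ + S.c (S.vw w) * ‖S.ErrBC w z‖ + S.c (S.vw w) * ‖S.ErrD w z‖ +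
        S.c (S.vw w) * ‖S.ErrE1 w z‖ := by ring
    _ ≤ 2 * X1 * ka * W + 2 * X2 * (4 ^ (sE n) + 4 * A1) * kb * W + 2 * X3 * kd * W + X4 * ka * W := by
        linarith
    _ ≤ (2 * X1 + 2 * X2 * (4 ^ (sE n) + 4 * A1) + 2 * X3 + X4 + 1) * (ka + kb + kd) * W := by
        have t0 := kap_sum_le hX1n hY2n hX3n hX4n hk hkb0 hkd0
        have t1 := mul_le_mul_of_nonneg_right t0 hW0
        calc _ = (2 * X1 * ka + 2 * Y2 * kb + 2 * X3 * kd + X4 * ka) * W := by rw [hY2]; ring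
          _ ≤ _ := t1
          _ = _ := by rw [hY2]; ring
    _ = _ := by rw [hkap, hW]; ring

end

end Pool.Agent.Lib.MP7ebef4
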