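import Pool.Agent.Lib.MP_7ebef4_an.ErrE2a

/-! The functions `G_j` and their norm. -/

set_option autoImplicit false

open MeasureTheory Set

namespace Pool.Agent.Lib.MP7ebef4

noncomputable section

variable {n : ℕ}

namespace Sys

variable {cT C K : ℝ} (S : Sys n cT C K)

/-- the function `G_j` -/
def G (j : Fin S.N) (z : E n) : ℂ := ∑ v ∈ S.pumps, (S.c v : ℂ) * kk S.T v z * S.u v j

theorem Dop_kk (v : S.T.ι) {z : E n} (hz : z ∈ B n) : Dop (kk S.T v) z = S.Dk v z := by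
  have h := S.Aop_kk_eq v (mem_B.1 hz).le
  unfold Aop at h
  rw [smul_eq_mul] at h
  have hd : ((dl z : ℝ) : ℂ) ≠ 0 := by exact_mod_cast (dl_pos hz).ne'
  exact mul_left_cancel₀ hd h

theorem G_hasFDerivAt (j : Fin S.N) {z : E n} (hz : z ∈ B n) :
    HasFDerivAt (S.G j) (∑ v ∈ S.pumps, (S.u v j) • ((S.c v : ℂ) • fderiv ℂ (kk S.T v) z)) z := by
  have h1 : ∀ v ∈ S.pumps, HasFDerivAt (fun z => (S.c v : ℂ) * kk S.T v z * S.u v j)
      ((S.u v j) • ((S.c v : ℂ) • fderiv ℂ (kk S.T v) z)) z := by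
    intro v _
    have h2 := (E2.hasFDerivAt_kk S.T v (mem_B.1 hz).le).differentiableAt.hasFDerivAt
    exact (h2.const_mul (S.c v : ℂ)).mul_const (S.u v j)
  have h3 := HasFDerivAt.fun_sum h1
  exact h3

theorem G_diff (j : Fin S.N) : DifferentiableOn ℂ (S.G j) (B n) := fun _z hz =>
  (S.G_hasFDerivAt j hz).differentiableAt.differentiableWithinAt

theorem Dop_G (j : Fin S.N) {z : E n} (hz : z ∈ B n) :
    Dop (S.G j) z = ∑ v ∈ S.pumps, (S.c v : ℂ) * S.Dk v z * S.u v j := by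
  unfold Dop
  rw [(S.G_hasFDerivAt j hz).fderiv]
  unfold G
  rw [smul_eq_mul, Finset.mul_sum, _root_.sum_apply, ← Finset.sum_add_distrib]
  apply Finset.sum_congr rfl
  intro v _
  rw [← S.Dop_kk v hz]
  unfold Dop
  simp only [_root_.smul_apply, smul_eq_mul]
  ring

theorem Aop_G (j : Fin S.N) {z : E n} (hz : z ∈ B n) :
    Aop (S.G j) z = ∑ v ∈ S.pumps, ((S.c v : ℂ) * Aop (kk S.T v) z) * S.u v j := by
  unfold Aop
  rw [S.Dop_G j hz, smul_eq_mul, Finset.mul_sum]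
  apply Finset.sum_congr rfl
  intro v _
  rw [S.Dop_kk v hz, smul_eq_mul]
  ring

theorem norm_Aop_kk_le_PN (v : S.T.ι) {z : E n} (hz : z ∈ B n) :
    ‖Aop (kk S.T v) z‖ ≤ E2.CA n * E2.PN S.T z v := by
  have hz1 := (mem_B.1 hz).le
  refine (E2.norm_Aop_kk_le S.T v hz).trans ?_
  apply mul_le_mul_of_nonneg_left _ (E2.CA_nonneg n)
  unfold E2.PN
  apply mul_le_mul_of_nonneg_right _ (div_nonneg (dl_nonneg hz1) (d_nonneg _ _))
  exact pow_le_pow_of_le_one (S.T.ratio_a_pos v hz1).le (S.T.ratio_a_le_one v hz1) (Nat.sub_le _ _)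

/-- pointwise bound -/
theorem sum_Aop_G_le (A₁ : ℝ)
    (hNS : NodeSum n cT ((sE n - n : ℕ) : ℝ) ((sE n - n + 1 : ℕ) : ℝ) A₁)
    {z : E n} (hz : z ∈ B n) :
    ∑ j, ‖Aop (S.G j) z‖ ^ 2 ≤ E2.CA n ^ 2 * A₁ * ∑ v ∈ S.pumps, E2.PN S.T z v * S.c v ^ 2 := by
  have hz1 := (mem_B.1 hz).le
  -- vector valued
  have h1 : ∑ j, ‖Aop (S.G j) z‖ ^ 2 =
      ‖∑ v ∈ S.pumps, ((S.c v : ℂ) * Aop (kk S.T v) z) • S.u v‖ ^ 2 := by
    rw [EuclideanSpace.norm_sq_eq]
    apply Finset.sum_congr rfl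
    intro j _
    rw [S.Aop_G j hz]
    congr 2
    simp [Finset.sum_apply]
  have h2 : ‖∑ v ∈ S.pumps, ((S.c v : ℂ) * Aop (kk S.T v) z) • S.u v‖ ≤
      E2.CA n * ∑ v ∈ S.pumps, E2.PN S.T z v * S.c v := by
    refine (norm_sum_le _ _).trans ?_
    rw [Finset.mul_sum]
    apply Finset.sum_le_sum
    intro v _
    rw [norm_smul, S.hu.unit v, mul_one, norm_mul, Complex.norm_real, Real.norm_of_nonneg (S.c_pos v).le]
    have := S.norm_Aop_kk_le_PN v hz
    calc S.c v * ‖Aop (kk S.T v) z‖ ≤ S.c v * (E2.CA n * E2.PN S.T z v) :=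
          mul_le_mul_of_nonneg_left this (S.c_pos v).le
      _ = _ := by ring
  have h3 : (∑ v ∈ S.pumps, E2.PN S.T z v * S.c v) ^ 2 ≤
      A₁ * ∑ v ∈ S.pumps, E2.PN S.T z v * S.c v ^ 2 := by
    have h4 := Finset.sum_mul_sq_le_sq_mul_sq S.pumps (fun v => Real.sqrt (E2.PN S.T z v))
      (fun v => Real.sqrt (E2.PN S.T z v) * S.c v)
    have e1 : ∀ v, Real.sqrt (E2.PN S.T z v) * (Real.sqrt (E2.PN S.T z v) * S.c v) =
        E2.PN S.T z v * S.c v := by
      intro v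
      rw [← mul_assoc, Real.mul_self_sqrt (E2.PN_nonneg S.T hz1 v)]
    have e2 : ∀ v, Real.sqrt (E2.PN S.T z v) ^ 2 = E2.PN S.T z v := fun v =>
      Real.sq_sqrt (E2.PN_nonneg S.T hz1 v)
    have e3 : ∀ v, (Real.sqrt (E2.PN S.T z v) * S.c v) ^ 2 = E2.PN S.T z v * S.c v ^ 2 := by
      intro v; rw [mul_pow, e2]
    simp only [e1, e2, e3] at h4
    refine h4.trans ?_
    apply mul_le_mul_of_nonneg_right
    · refine le_trans ?_ (S.sum_PN_le A₁ hNS hz)
      exact Finset.sum_le_sum_of_subset_of_nonneg (Finset.subset_univ _)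
        (fun v _ _ => E2.PN_nonneg S.T hz1 v)
    · exact Finset.sum_nonneg (fun v _ => mul_nonneg (E2.PN_nonneg S.T hz1 v) (sq_nonneg _))
  rw [h1]
  calc ‖∑ v ∈ S.pumps, ((S.c v : ℂ) * Aop (kk S.T v) z) • S.u v‖ ^ 2
      ≤ (E2.CA n * ∑ v ∈ S.pumps, E2.PN S.T z v * S.c v) ^ 2 := pow_le_pow_left₀ (norm_nonneg _) h2 2
    _ = E2.CA n ^ 2 * (∑ v ∈ S.pumps, E2.PN S.T z v * S.c v) ^ 2 := by ring
    _ ≤ E2.CA n ^ 2 * (A₁ * ∑ v ∈ S.pumps, E2.PN S.T z v * S.c v ^ 2) :=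
        mul_le_mul_of_nonneg_left h3 (sq_nonneg _)
    _ = _ := by ring

/-- Carleson sum of the pumps -/
theorem sum_vol_c_sq : ∑ v ∈ S.pumps, S.T.vol v * S.c v ^ 2 ≤ 2 * C * S.m := by
  classical
  have h := S.hc.carl (fun v => if v ∈ S.pumps then S.T.vol v else 0) 2
    (fun v => by
      split_ifs
      · exact (S.T.vol_pos v S.hcT).le
      · exact le_refl _) (by norm_num)
    (by
      intro x V hV
      have h1 : ∑ v ∈ V, (if v ∈ S.pumps then S.T.vol v else 0) =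
          ∑ v ∈ V.filter (fun v => v ∈ S.pumps), S.T.vol v := by
        rw [Finset.sum_filter]
      rw [h1]
      apply S.hp.carl x
      intro v hv
      rw [Finset.mem_filter] at hv
      refine ⟨?_, hV v hv.1⟩
      have := hv.2
      unfold pumps at this
      rw [Finset.mem_filter] at this
      exact this.2)
  have h2 : ∑ v, (if v ∈ S.pumps then S.T.vol v else 0) * S.c v ^ 2 =
      ∑ v ∈ S.pumps, S.T.vol v * S.c v ^ 2 := by
    rw [← Finset.sum_subset (Finset.subset_univ S.pumps)]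
    · apply Finset.sum_congr rfl
      intro v hv
      rw [if_pos hv]
    · intro v _ hv
      rw [if_neg hv, zero_mul]
  rw [h2] at h
  linarith

/-- norm of `G` -/
theorem G_norm_le (A₁ A₂ : ℝ) (hA₁ : 0 ≤ A₁) (hA₂ : 0 ≤ A₂)
    (hNS : NodeSum n cT ((sE n - n : ℕ) : ℝ) ((sE n - n + 1 : ℕ) : ℝ) A₁)
    (hFR : ∀ z ∈ B n, ∫⁻ w in B n, ENNReal.ofReal (d z w ^ (-((sE n - n + 1 : ℕ) : ℝ))) ≤
      ENNReal.ofReal (A₂ * dl z ^ (-((sE n - 2 * n : ℕ) : ℝ)))) :
    ∑ j, AN (S.G j) ≤ ENNReal.ofReal (E2.CA n ^ 2 * A₁ * (A₂ / cT) * (2 * C) * S.m) := by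
  have hcT := S.hcT
  have hmeas : ∀ v, Measurable (fun z => ENNReal.ofReal (E2.PN S.T z v)) := by
    intro v
    unfold E2.PN
    have h1 := (E2.continuous_d (S.T.a v)).measurable
    have h2 := E2.measurable_dl (n := n)
    exact (((h1.const_div _).pow_const _).mul (h2.div h1)).ennreal_ofReal
  have hAm : ∀ j, AEMeasurable (fun z => ‖Aop (S.G j) z‖ₑ ^ (2:ℕ)) (lam n) := by
    intro j
    have h1 : (fun z => ‖∑ v ∈ S.pumps, ((S.c v : ℂ) * ((dl z : ℂ) * S.Dk v z)) * S.u v j‖ₑ ^ (2:ℕ)) =ᵐ[lam n]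
        (fun z => ‖Aop (S.G j) z‖ₑ ^ (2:ℕ)) := by
      filter_upwards [E2.lam_ae_B] with z hz
      rw [S.Aop_G j hz]
      have : ∀ v, (dl z : ℂ) * S.Dk v z = Aop (kk S.T v) z := fun v =>
        (S.Aop_kk_eq v (mem_B.1 hz).le).symm
      simp only [this]
    refine AEMeasurable.congr ?_ h1
    apply Measurable.aemeasurable
    apply Measurable.pow_const
    apply Measurable.enorm
    apply Finset.measurable_fun_sum
    intro v _
    unfold Dk kk
    have h2 := (E2.continuous_q (S.T.a v)).measurable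
    have h3 := E2.measurable_dl (n := n)
    fun_prop
  calc ∑ j, AN (S.G j) = ∫⁻ z, ∑ j, ‖Aop (S.G j) z‖ₑ ^ (2:ℕ) ∂(lam n) := by
        unfold AN
        rw [lintegral_finsetSum' _ (fun j _ => hAm j)]
    _ ≤ ∫⁻ z, ENNReal.ofReal (E2.CA n ^ 2 * A₁) *
          ∑ v ∈ S.pumps, ENNReal.ofReal (E2.PN S.T z v) * ENNReal.ofReal (S.c v ^ 2) ∂(lam n) := by
        apply lintegral_mono_ae
        filter_upwards [E2.lam_ae_B] with z hz
        have hz1 := (mem_B.1 hz).le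
        have h1 := S.sum_Aop_G_le A₁ hNS hz
        have e1 : ∑ j, ‖Aop (S.G j) z‖ₑ ^ (2:ℕ) = ENNReal.ofReal (∑ j, ‖Aop (S.G j) z‖ ^ 2) := by
          rw [ENNReal.ofReal_sum_of_nonneg (fun j _ => sq_nonneg _)]
          apply Finset.sum_congr rfl
          intro j _
          rw [ENNReal.ofReal_pow (norm_nonneg _), ofReal_norm]
        have e2 : ∑ v ∈ S.pumps, ENNReal.ofReal (E2.PN S.T z v) * ENNReal.ofReal (S.c v ^ 2) =
            ENNReal.ofReal (∑ v ∈ S.pumps, E2.PN S.T z v * S.c v ^ 2) := by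
          rw [ENNReal.ofReal_sum_of_nonneg
            (fun v _ => mul_nonneg (E2.PN_nonneg S.T hz1 v) (sq_nonneg _))]
          apply Finset.sum_congr rfl
          intro v _
          rw [ENNReal.ofReal_mul (E2.PN_nonneg S.T hz1 v)]
        rw [e1, e2, ← ENNReal.ofReal_mul (by positivity)]
        exact ENNReal.ofReal_le_ofReal h1
    _ = ENNReal.ofReal (E2.CA n ^ 2 * A₁) *
          ∑ v ∈ S.pumps, (∫⁻ z, ENNReal.ofReal (E2.PN S.T z v) ∂(lam n)) * ENNReal.ofReal (S.c v ^ 2) := by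
        rw [lintegral_const_mul _ (Finset.measurable_fun_sum _ (fun v _ => (hmeas v).mul_const _)),
          lintegral_finsetSum _ (fun v _ => (hmeas v).mul_const _)]
        congr 1
        apply Finset.sum_congr rfl
        intro v _
        rw [lintegral_mul_const _ (hmeas v)]
    _ ≤ ENNReal.ofReal (E2.CA n ^ 2 * A₁) *
          ∑ v ∈ S.pumps, (ENNReal.ofReal (A₂ / cT * S.T.vol v)) * ENNReal.ofReal (S.c v ^ 2) := by
        gcongr with v _
        exact S.lintegral_PN_le A₂ hA₂ hFR v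
    _ = ENNReal.ofReal (E2.CA n ^ 2 * A₁) *
          ENNReal.ofReal (A₂ / cT * ∑ v ∈ S.pumps, S.T.vol v * S.c v ^ 2) := by
        congr 1
        rw [Finset.mul_sum, ENNReal.ofReal_sum_of_nonneg]
        · apply Finset.sum_congr rfl
          intro v _
          have := (S.T.vol_pos v hcT).le
          rw [← ENNReal.ofReal_mul (by positivity)]
          congr 1
          ring
        · intro v _
          have := (S.T.vol_pos v hcT).le
          positivity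
    _ ≤ ENNReal.ofReal (E2.CA n ^ 2 * A₁ * (A₂ / cT) * (2 * C) * S.m) := by
        rw [← ENNReal.ofReal_mul (by positivity)]
        apply ENNReal.ofReal_le_ofReal
        have h1 := S.sum_vol_c_sq
        calc E2.CA n ^ 2 * A₁ * (A₂ / cT * ∑ v ∈ S.pumps, S.T.vol v * S.c v ^ 2)
            ≤ E2.CA n ^ 2 * A₁ * (A₂ / cT * (2 * C * S.m)) := by gcongr
          _ = _ := by ring

end Sys

/-- **(GNorm)** -/
theorem G_norm_of (n : ℕ) (cT C K : ℝ) (hFR : FRstmt n)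
    (hNS : ∃ A : ℝ, 0 < A ∧ NodeSum n cT ((sE n - n : ℕ) : ℝ) ((sE n - n + 1 : ℕ) : ℝ) A) :
    ∃ A : ℝ, 0 < A ∧ ∀ S : Sys n cT C K, ∑ j, AN (S.G j) ≤ ENNReal.ofReal (A * S.m) := by
  obtain ⟨A₁, hA₁, hNS⟩ := hNS
  obtain ⟨A₂, hA₂, hFR⟩ := hFR 0 ((sE n - 2 * n : ℕ) : ℝ) (by norm_num) (by
    have : 0 < sE n - 2 * n := by unfold sE; omega
    exact_mod_cast this)
  have hFR' : ∀ z ∈ B n, ∫⁻ w in B n, ENNReal.ofReal (d z w ^ (-((sE n - n + 1 : ℕ) : ℝ))) ≤
      ENNReal.ofReal (A₂ * dl z ^ (-((sE n - 2 * n : ℕ) : ℝ))) := by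
    intro z hz
    have h1 := hFR z hz
    have e1 : (n:ℝ) + 1 + 0 + ((sE n - 2 * n : ℕ) : ℝ) = ((sE n - n + 1 : ℕ) : ℝ) := by
      have : n + 1 + (sE n - 2 * n) = sE n - n + 1 := by unfold sE; omega
      rw [← this]; push_cast; ring
    rw [e1] at h1
    simpa only [Real.rpow_zero, one_mul] using h1
  refine ⟨|E2.CA n ^ 2 * A₁ * (A₂ / cT) * (2 * C)| + 1, by positivity, fun S => ?_⟩
  refine (S.G_norm_le A₁ A₂ hA₁.le hA₂.le hNS hFR').trans ?_
  apply ENNReal.ofReal_le_ofReal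
  apply mul_le_mul_of_nonneg_right _ S.hc.m_pos.le
  exact (le_abs_self _).trans (by linarith)

end

end Pool.Agent.Lib.MP7ebef4
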