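import Pool.Agent.Lib.MP_7ebef4_an.KerInt

/-! Linearity and boundedness of `Sg`. -/

set_option autoImplicit false

open MeasureTheory Set Metric

namespace Pool.Agent.Lib.MP7ebef4

noncomputable section

variable {n : ℕ}

/-- the integrand of `Sg` is integrable -/
theorem Sg_integrable {F : E n → ℂ} (hF : AEStronglyMeasurable F (lam n))
    (hF2 : ∫⁻ w, ‖F w‖ₑ ^ (2:ℕ) ∂(lam n) < ⊤) {z : E n} (hz : z ∈ B n) :
    Integrable (fun w => F w * kap z w) (lam n) :=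
  KI.integrable_mul hF hF2 (KI.measurable_kap z).aestronglyMeasurable _
    (fun _w hw => KI.norm_kap_le (mem_B.1 hz) le_rfl hw)

theorem Sg_add {F G : E n → ℂ} (hF : AEStronglyMeasurable F (lam n))
    (hF2 : ∫⁻ w, ‖F w‖ₑ ^ (2:ℕ) ∂(lam n) < ⊤) (hG : AEStronglyMeasurable G (lam n))
    (hG2 : ∫⁻ w, ‖G w‖ₑ ^ (2:ℕ) ∂(lam n) < ⊤) {z : E n} (hz : z ∈ B n) :
    Sg (fun w => F w + G w) z = Sg F z + Sg G z := by
  unfold Sg
  rw [← integral_add (Sg_integrable hF hF2 hz) (Sg_integrable hG hG2 hz)]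
  simp only [add_mul]

theorem Sg_sub {F G : E n → ℂ} (hF : AEStronglyMeasurable F (lam n))
    (hF2 : ∫⁻ w, ‖F w‖ₑ ^ (2:ℕ) ∂(lam n) < ⊤) (hG : AEStronglyMeasurable G (lam n))
    (hG2 : ∫⁻ w, ‖G w‖ₑ ^ (2:ℕ) ∂(lam n) < ⊤) {z : E n} (hz : z ∈ B n) :
    Sg (fun w => F w - G w) z = Sg F z - Sg G z := by
  unfold Sg
  rw [← integral_sub (Sg_integrable hF hF2 hz) (Sg_integrable hG hG2 hz)]
  simp only [sub_mul]

theorem Sg_neg (F : E n → ℂ) (z : E n) : Sg (fun w => - F w) z = - Sg F z := by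
  unfold Sg
  simp only [neg_mul, integral_neg]

theorem Sg_const_mul (c : ℂ) (F : E n → ℂ) (z : E n) : Sg (fun w => c * F w) z = c * Sg F z := by
  unfold Sg
  simp only [mul_assoc, integral_const_mul]

theorem Sg_zero (z : E n) : Sg (fun _ => (0:ℂ)) z = 0 := by
  unfold Sg
  simp

theorem Sg_sum {ι : Type*} (s : Finset ι) {F : ι → E n → ℂ}
    (hF : ∀ i ∈ s, AEStronglyMeasurable (F i) (lam n))
    (hF2 : ∀ i ∈ s, ∫⁻ w, ‖F i w‖ₑ ^ (2:ℕ) ∂(lam n) < ⊤) {z : E n} (hz : z ∈ B n) :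
    Sg (fun w => ∑ i ∈ s, F i w) z = ∑ i ∈ s, Sg (F i) z := by
  unfold Sg
  rw [← integral_finsetSum s (fun i hi => Sg_integrable (hF i hi) (hF2 i hi) hz)]
  simp only [Finset.sum_mul]

theorem Sg_congr {F G : E n → ℂ} (h : ∀ᵐ w ∂(lam n), F w = G w) (z : E n) : Sg F z = Sg G z := by
  unfold Sg
  apply integral_congr_ae
  filter_upwards [h] with w hw
  rw [hw]

/-- Cauchy–Schwarz bound for `Sg` -/
theorem Sg_bound (n : ℕ) (η : ℝ) (hη : 0 < η) : ∃ C : ℝ, 0 < C ∧ ∀ F : E n → ℂ,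
    AEStronglyMeasurable F (lam n) → ∀ z : E n, ‖z‖ ≤ 1 - η →
    ‖Sg F z‖ₑ ^ (2:ℕ) ≤ ENNReal.ofReal C * ∫⁻ w, ‖F w‖ₑ ^ (2:ℕ) ∂(lam n) := by
  set D : ℝ := |c0 n| / (1 - (1 - η)) ^ (NE n) with hD
  have hD0 : 0 ≤ D := by
    rw [hD]
    have : 0 < 1 - (1 - η) := by linarith
    positivity
  set I := ∫⁻ w, ENNReal.ofReal (dl w ^ 2) ∂(lam n) with hI
  have hItop : I ≠ ⊤ := (KI.lintegral_dl_sq_lt_top n).ne
  refine ⟨D ^ 2 * I.toReal + 1, by positivity, fun F hF z hz => ?_⟩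
  have h1 : ‖Sg F z‖ₑ ≤ ∫⁻ w, ‖F w‖ₑ * ENNReal.ofReal (D * dl w) ∂(lam n) := by
    unfold Sg
    refine (enorm_integral_le_lintegral_enorm _).trans ?_
    apply lintegral_mono_ae
    filter_upwards [KI.lam_ae_mem n] with w hw
    rw [enorm_mul]
    apply mul_le_mul_right
    rw [← ofReal_norm]
    exact ENNReal.ofReal_le_ofReal (KI.norm_kap_le (by linarith) hz hw)
  have hm : Measurable (fun w : E n => ENNReal.ofReal (D * dl w)) :=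
    ((KI.measurable_dl).const_mul D).ennreal_ofReal
  have h2 : (∫⁻ w, ‖F w‖ₑ * ENNReal.ofReal (D * dl w) ∂(lam n)) ^ (2:ℕ) ≤
      (∫⁻ w, ‖F w‖ₑ ^ (2:ℕ) ∂(lam n)) * ∫⁻ w, ENNReal.ofReal (D * dl w) ^ (2:ℕ) ∂(lam n) := by
    have h3 := ENNReal.lintegral_mul_le_Lp_mul_Lq (lam n) (Real.HolderConjugate.two_two)
      hF.enorm hm.aemeasurable
    have h4 : ∀ x : ENNReal, x ^ (2:ℝ) = x ^ (2:ℕ) := fun x => by
      rw [← ENNReal.rpow_natCast]; norm_num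
    simp only [h4, Pi.mul_apply] at h3
    calc (∫⁻ w, ‖F w‖ₑ * ENNReal.ofReal (D * dl w) ∂(lam n)) ^ (2:ℕ)
        ≤ ((∫⁻ w, ‖F w‖ₑ ^ (2:ℕ) ∂(lam n)) ^ (1 / (2:ℝ)) *
          (∫⁻ w, ENNReal.ofReal (D * dl w) ^ (2:ℕ) ∂(lam n)) ^ (1 / (2:ℝ))) ^ (2:ℕ) :=
          pow_le_pow_left₀ zero_le h3 2
      _ = _ := by
          rw [mul_pow, ← h4, ← h4, ← ENNReal.rpow_mul, ← ENNReal.rpow_mul]
          norm_num
  have h5 : ∫⁻ w, ENNReal.ofReal (D * dl w) ^ (2:ℕ) ∂(lam n) = ENNReal.ofReal (D ^ 2) * I := by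
    rw [hI, ← lintegral_const_mul _ (by have := (KI.measurable_dl (n := n)).pow_const 2; exact this.ennreal_ofReal)]
    apply lintegral_congr_ae
    filter_upwards [KI.lam_ae_mem n] with w hw
    have hd := dl_pos hw
    rw [← ENNReal.ofReal_pow (by positivity), ← ENNReal.ofReal_mul (by positivity)]
    congr 1
    ring
  calc ‖Sg F z‖ₑ ^ (2:ℕ) ≤ (∫⁻ w, ‖F w‖ₑ * ENNReal.ofReal (D * dl w) ∂(lam n)) ^ (2:ℕ) :=
        pow_le_pow_left₀ zero_le h1 2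
    _ ≤ _ := h2
    _ = (ENNReal.ofReal (D ^ 2) * I) * ∫⁻ w, ‖F w‖ₑ ^ (2:ℕ) ∂(lam n) := by rw [h5, mul_comm]
    _ ≤ ENNReal.ofReal (D ^ 2 * I.toReal + 1) * ∫⁻ w, ‖F w‖ₑ ^ (2:ℕ) ∂(lam n) := by
        apply mul_le_mul_left
        rw [← ENNReal.ofReal_toReal hItop, ← ENNReal.ofReal_mul (by positivity),
          ENNReal.toReal_ofReal ENNReal.toReal_nonneg]
        exact ENNReal.ofReal_le_ofReal (by linarith)

end

end Pool.Agent.Lib.MP7ebef4
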