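import Pool.Agent.Lib.MP_7ebef4_an.HN2
import Pool.Agent.Lib.MP_7ebef4_an.ErrOp
import Pool.Agent.Lib.MP_7ebef4_an.GNorm
import Pool.Agent.Lib.MP_7ebef4_an.SgLin

/-! The error operator and the identity `G · H_F = Sg F + Sg (EF F)`. -/

set_option autoImplicit false

open MeasureTheory Set

namespace Pool.Agent.Lib.MP7ebef4

noncomputable section

variable {n : ℕ}

theorem aesm_Aop {V : Type*} [NormedAddCommGroup V] [NormedSpace ℂ V]
    [CompleteSpace V] [SecondCountableTopology V] {f : E n → V} (hf : DifferentiableOn ℂ f (B n)) :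
    AEStronglyMeasurable (Aop f) (lam n) := by
  have hBo : IsOpen (B n) := Metric.isOpen_ball
  have h1 : AEStronglyMeasurable (Aop f) (volume.restrict (B n)) := by
    apply ContinuousOn.aestronglyMeasurable _ hBo.measurableSet
    have hcd : ContinuousOn (fun z : E n => ((dl z : ℝ) : ℂ)) (B n) := by
      unfold dl
      fun_prop
    exact hcd.smul (differentiableOn_Dop hBo hf).continuousOn
  exact h1.mono_ac (withDensity_absolutelyContinuous _ _)

theorem Dop_sub_of {f g : E n → ℂ} {z : E n} (hf : DifferentiableAt ℂ f z) (hg : DifferentiableAt ℂ g z) :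
    Dop (fun z => f z - g z) z = Dop f z - Dop g z := by
  unfold Dop
  rw [fderiv_fun_sub hf hg]
  simp only [_root_.sub_apply, smul_eq_mul]
  ring

theorem Dop_mul_of {f g : E n → ℂ} {z : E n} (hf : DifferentiableAt ℂ f z) (hg : DifferentiableAt ℂ g z) :
    Dop (fun z => f z * g z) z = Dop f z * g z + f z * Dop g z - (NE n : ℂ) * (f z * g z) := by
  unfold Dop
  rw [fderiv_fun_mul hf hg]
  simp only [_root_.add_apply, _root_.smul_apply, smul_eq_mul]
  ring

theorem Dop_sum_of {ι : Type*} (s : Finset ι) {f : ι → E n → ℂ} {z : E n}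
    (hf : ∀ i ∈ s, DifferentiableAt ℂ (f i) z) :
    Dop (fun z => ∑ i ∈ s, f i z) z = ∑ i ∈ s, Dop (f i) z := by
  unfold Dop
  rw [fderiv_fun_sum hf, _root_.sum_apply]
  simp only [smul_eq_mul]
  rw [Finset.mul_sum, ← Finset.sum_add_distrib]

theorem SgHol_of (hn : 0 < n) : SgHol n := fun F hF hF2 => Sg_hol hn F hF hF2

namespace Sys

variable {cT C K : ℝ} (S : Sys n cT C K)

/-- `L²` norm against the `X` norm -/
theorem lintegral_sq_le_XN (F : E n → ℂ) :
    ∫⁻ w, ‖F w‖ₑ ^ (2:ℕ) ∂(lam n) ≤ ENNReal.ofReal ((∑ v, S.c v) ^ 2) * S.XN F := by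
  unfold XN
  rw [← lintegral_const_mul' _ _ ENNReal.ofReal_ne_top]
  apply lintegral_mono
  intro w
  have hc := S.c_pos (S.vw w)
  have hle : S.c (S.vw w) ≤ ∑ v, S.c v :=
    Finset.single_le_sum (f := S.c) (fun v _ => (S.c_pos v).le) (Finset.mem_univ _)
  simp only
  rw [S.XN_term_eq F w, ← ofReal_norm, ← ENNReal.ofReal_pow (norm_nonneg _),
    ← ENNReal.ofReal_mul (sq_nonneg _)]
  apply ENNReal.ofReal_le_ofReal
  have h1 : (1:ℝ) ≤ (∑ v, S.c v) ^ 2 * (S.c (S.vw w) ^ 2)⁻¹ := by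
    rw [← div_eq_mul_inv, one_le_div (by positivity)]
    exact pow_le_pow_left₀ hc.le hle 2
  nlinarith [sq_nonneg ‖F w‖]

theorem L2_of_XN {F : E n → ℂ} (hX : S.XN F < ⊤) : ∫⁻ w, ‖F w‖ₑ ^ (2:ℕ) ∂(lam n) < ⊤ :=
  lt_of_le_of_lt (S.lintegral_sq_le_XN F) (ENNReal.mul_lt_top ENNReal.ofReal_lt_top hX)

/-- the difference `G · H_F - Sg F` -/
def Dif (F : E n → ℂ) (z : E n) : ℂ := (∑ j, S.G j z * S.HFj F j z) - Sg F z

theorem sum_u_coord (w : E n) (v : S.T.ι) :
    ∑ j, S.u v j * (starRingEnd ℂ) (S.u (S.vw w) j) = S.inn w v := by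
  unfold inn
  rw [PiLp.inner_apply]
  apply Finset.sum_congr rfl
  intro j _
  rw [RCLike.inner_apply]

theorem Dif_diff {F : E n → ℂ} (hF : AEStronglyMeasurable F (lam n)) (hX : S.XN F < ⊤) :
    DifferentiableOn ℂ (S.Dif F) (B n) := by
  unfold Dif
  apply DifferentiableOn.sub
  · apply DifferentiableOn.fun_sum
    intro j _
    exact (S.G_diff j).mul (S.HFj_hol (SgHol_of S.hn) hF hX j).1
  · exact (Sg_hol S.hn F hF (S.L2_of_XN hX)).1

/-- the pointwise identity for the kernels -/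
theorem kernel_identity (w : E n) {z : E n} (hz : z ∈ B n) :
    (dl z : ℂ) * (∑ j, (Dop (S.G j) z * (S.Phi w z * (starRingEnd ℂ) (S.u (S.vw w) j)) +
      S.G j z * (S.DPhi w z * (starRingEnd ℂ) (S.u (S.vw w) j)) -
      (NE n : ℂ) * (S.G j z * (S.Phi w z * (starRingEnd ℂ) (S.u (S.vw w) j)))) -
      ((NE n : ℕ) : ℂ) / q z w * kap z w) = S.ErrT w z := by
  classical
  have hz1 := (mem_B.1 hz).le
  have e1 : ∑ j, Dop (S.G j) z * (S.Phi w z * (starRingEnd ℂ) (S.u (S.vw w) j)) =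
      ∑ v ∈ S.pumps, (S.c v : ℂ) * S.Dk v z * S.Phi w z * S.inn w v := by
    have : ∀ j, Dop (S.G j) z * (S.Phi w z * (starRingEnd ℂ) (S.u (S.vw w) j)) =
        ∑ v ∈ S.pumps, (S.c v : ℂ) * S.Dk v z * S.Phi w z *
          (S.u v j * (starRingEnd ℂ) (S.u (S.vw w) j)) := by
      intro j
      rw [S.Dop_G j hz, Finset.sum_mul]
      apply Finset.sum_congr rfl
      intro v _
      ring
    simp only [this]
    rw [Finset.sum_comm]
    apply Finset.sum_congr rfl
    intro v _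
    rw [← Finset.mul_sum, S.sum_u_coord]
  have e2 : ∀ X : ℂ, ∑ j, S.G j z * (X * (starRingEnd ℂ) (S.u (S.vw w) j)) =
      ∑ v ∈ S.pumps, (S.c v : ℂ) * kk S.T v z * X * S.inn w v := by
    intro X
    have : ∀ j, S.G j z * (X * (starRingEnd ℂ) (S.u (S.vw w) j)) =
        ∑ v ∈ S.pumps, (S.c v : ℂ) * kk S.T v z * X *
          (S.u v j * (starRingEnd ℂ) (S.u (S.vw w) j)) := by
      intro j
      unfold G
      rw [Finset.sum_mul]
      apply Finset.sum_congr rfl
      intro v _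
      ring
    simp only [this]
    rw [Finset.sum_comm]
    apply Finset.sum_congr rfl
    intro v _
    rw [← Finset.mul_sum, S.sum_u_coord]
  rw [Finset.sum_sub_distrib, Finset.sum_add_distrib, ← Finset.mul_sum, e1, e2, e2, Finset.mul_sum,
    ← Finset.sum_add_distrib, ← Finset.sum_sub_distrib]
  have e3 : ∀ v, (S.c v : ℂ) * S.Dk v z * S.Phi w z * S.inn w v +
      (S.c v : ℂ) * kk S.T v z * S.DPhi w z * S.inn w v -
      (NE n : ℂ) * ((S.c v : ℂ) * kk S.T v z * S.Phi w z * S.inn w v) =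
      (S.c v : ℂ) * S.inn w v * kk S.T v z * S.Phi w z * S.fac w z v := by
    intro v
    unfold Dk DPhi fac
    ring
  simp only [e3]
  have e4 : (S.c (S.vw w) : ℂ) * S.inn w (S.vw w) * kk S.T (S.vw w) z * S.Phi w z *
      S.fac w z (S.vw w) = ((NE n : ℕ) : ℂ) / q z w * kap z w := by
    have hinn : S.inn w (S.vw w) = 1 := by
      unfold inn
      rw [inner_self_eq_norm_sq_to_K, S.hu.unit]
      simp
    have hk := S.T.kk_ne (S.vw w) hz1
    have hc : (S.c (S.vw w) : ℂ) ≠ 0 := by exact_mod_cast (S.c_pos (S.vw w)).ne'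
    rw [hinn]
    unfold Phi fac
    field_simp
    ring
  rw [← Finset.add_sum_erase S.pumps _ (S.vw_mem_pumps w), e4, add_sub_cancel_left]
  unfold ErrT term
  rw [Finset.mul_sum]

/-- (i) -/
theorem Aop_Dif {F : E n → ℂ} (hF : AEStronglyMeasurable F (lam n)) (hX : S.XN F < ⊤)
    {z : E n} (hz : z ∈ B n) : Aop (S.Dif F) z = S.EF F z := by
  have hBo : IsOpen (B n) := Metric.isOpen_ball
  have hG : ∀ j, DifferentiableAt ℂ (S.G j) z := fun j =>
    (S.G_diff j).differentiableAt (hBo.mem_nhds hz)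
  have hH : ∀ j, DifferentiableAt ℂ (S.HFj F j) z := fun j =>
    (S.HFj_hol (SgHol_of S.hn) hF hX j).1.differentiableAt (hBo.mem_nhds hz)
  have hSg := Sg_hol S.hn F hF (S.L2_of_XN hX)
  have hSd : DifferentiableAt ℂ (Sg F) z := hSg.1.differentiableAt (hBo.mem_nhds hz)
  have h1 : Dop (S.Dif F) z = ∑ j, (Dop (S.G j) z * S.HFj F j z + S.G j z * Dop (S.HFj F j) z -
      (NE n : ℂ) * (S.G j z * S.HFj F j z)) - Dop (Sg F) z := by
    have hGH : ∀ j, DifferentiableAt ℂ (fun z => S.G j z * S.HFj F j z) z := fun j => (hG j).mul (hH j)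
    have hs : DifferentiableAt ℂ (fun z => ∑ j, S.G j z * S.HFj F j z) z :=
      DifferentiableAt.fun_sum (fun j _ => hGH j)
    unfold Dif
    rw [Dop_sub_of hs hSd, Dop_sum_of Finset.univ (fun j _ => hGH j)]
    congr 1
    apply Finset.sum_congr rfl
    intro j _
    exact Dop_mul_of (hG j) (hH j)
  have hI1 : ∀ j : Fin S.N, Integrable (fun w => F w * (S.Phi w z * (starRingEnd ℂ) (S.u (S.vw w) j))) (lam n) :=
    fun j => S.integrable_Phi hF hX hz _ (S.measurable_ubj j) zero_le_one (fun w _ => S.norm_ubj j w)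
  have hI2 : ∀ j : Fin S.N, Integrable (fun w => F w * (S.DPhi w z * (starRingEnd ℂ) (S.u (S.vw w) j))) (lam n) :=
    fun j => S.integrable_DPhi hF hX hz _ (S.measurable_ubj j) zero_le_one (fun w _ => S.norm_ubj j w)
  have hI3 : Integrable (fun w => F w * (((NE n : ℕ) : ℂ) / q z w * kap z w)) (lam n) := by
    have hz1 := mem_B.1 hz
    have hzn : 0 < 1 - ‖z‖ := by linarith
    apply KI.integrable_mul hF (S.L2_of_XN hX) _ ((NE n : ℝ) / (1 - ‖z‖) * (|c0 n| / (1 - ‖z‖) ^ (NE n)))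
    · intro w hw
      have h2 := KI.norm_kap_le hz1 le_rfl hw
      have h3 := KI.le_norm_q (le_refl ‖z‖) hw
      rw [norm_mul, norm_div, Complex.norm_natCast]
      have hdw := dl_pos hw
      calc (NE n : ℝ) / ‖q z w‖ * ‖kap z w‖ ≤ (NE n : ℝ) / (1 - ‖z‖) * (|c0 n| / (1 - ‖z‖) ^ (NE n) * dl w) := by
            gcongr
        _ = _ := by ring
    · have h4 := KI.measurable_kap z
      have h5 := (KI.continuous_q_right z).measurable
      exact ((h5.const_div _).mul h4).aestronglyMeasurable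
  have h6 : Dop (S.Dif F) z = ∫ w, F w * (∑ j, (Dop (S.G j) z * (S.Phi w z * (starRingEnd ℂ) (S.u (S.vw w) j)) +
      S.G j z * (S.DPhi w z * (starRingEnd ℂ) (S.u (S.vw w) j)) -
      (NE n : ℂ) * (S.G j z * (S.Phi w z * (starRingEnd ℂ) (S.u (S.vw w) j)))) -
      ((NE n : ℕ) : ℂ) / q z w * kap z w) ∂(lam n) := by
    rw [h1, hSg.2 z hz]
    have i1 : ∀ j, Integrable (fun w => Dop (S.G j) z *
        (F w * (S.Phi w z * (starRingEnd ℂ) (S.u (S.vw w) j)))) (lam n) := fun j => (hI1 j).const_mul _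
    have i2 : ∀ j, Integrable (fun w => S.G j z *
        (F w * (S.DPhi w z * (starRingEnd ℂ) (S.u (S.vw w) j)))) (lam n) := fun j => (hI2 j).const_mul _
    have i3 : ∀ j, Integrable (fun w => ((NE n : ℂ) * S.G j z) *
        (F w * (S.Phi w z * (starRingEnd ℂ) (S.u (S.vw w) j)))) (lam n) := fun j => (hI1 j).const_mul _
    have i12 : ∀ j, Integrable (fun w => Dop (S.G j) z *
        (F w * (S.Phi w z * (starRingEnd ℂ) (S.u (S.vw w) j))) + S.G j z *
        (F w * (S.DPhi w z * (starRingEnd ℂ) (S.u (S.vw w) j)))) (lam n) := fun j => (i1 j).add (i2 j)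
    have i123 : ∀ j, Integrable (fun w => Dop (S.G j) z *
        (F w * (S.Phi w z * (starRingEnd ℂ) (S.u (S.vw w) j))) + S.G j z *
        (F w * (S.DPhi w z * (starRingEnd ℂ) (S.u (S.vw w) j))) - ((NE n : ℂ) * S.G j z) *
        (F w * (S.Phi w z * (starRingEnd ℂ) (S.u (S.vw w) j)))) (lam n) := fun j => (i12 j).sub (i3 j)
    have h7 : ∀ j, Dop (S.G j) z * S.HFj F j z + S.G j z * Dop (S.HFj F j) z -
        (NE n : ℂ) * (S.G j z * S.HFj F j z) =
        ∫ w, (Dop (S.G j) z * (F w * (S.Phi w z * (starRingEnd ℂ) (S.u (S.vw w) j))) +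
          S.G j z * (F w * (S.DPhi w z * (starRingEnd ℂ) (S.u (S.vw w) j))) -
          ((NE n : ℂ) * S.G j z) * (F w * (S.Phi w z * (starRingEnd ℂ) (S.u (S.vw w) j)))) ∂(lam n) := by
      intro j
      rw [integral_sub (i12 j) (i3 j), integral_add (i1 j) (i2 j), integral_const_mul,
        integral_const_mul, integral_const_mul, (S.HFj_hol (SgHol_of S.hn) hF hX j).2 z hz]
      unfold HFj
      ring
    simp only [h7]
    rw [← integral_finsetSum _ (fun j _ => i123 j),
      ← integral_sub (integrable_finsetSum _ (fun j _ => i123 j)) hI3]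
    apply integral_congr_ae
    apply Filter.Eventually.of_forall
    intro w
    simp only
    rw [mul_sub, Finset.mul_sum]
    congr 1
    apply Finset.sum_congr rfl
    intro j _
    ring
  unfold Aop EF
  rw [h6, smul_eq_mul, ← integral_const_mul]
  apply integral_congr_ae
  filter_upwards with w
  rw [← S.kernel_identity w hz]
  ring

/-- (ii) -/
theorem EF_aesm {F : E n → ℂ} (hF : AEStronglyMeasurable F (lam n)) (hX : S.XN F < ⊤) :
    AEStronglyMeasurable (S.EF F) (lam n) := by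
  refine (aesm_Aop (S.Dif_diff hF hX)).congr ?_
  filter_upwards [E2.lam_ae_B] with z hz
  exact S.Aop_Dif hF hX hz

/-- (iii) -/
theorem G_mul_H {F : E n → ℂ} (hF : AEStronglyMeasurable F (lam n)) (hX : S.XN F < ⊤)
    (hX' : S.XN (S.EF F) < ⊤) {z : E n} (hz : z ∈ B n) :
    ∑ j, S.G j z * S.HFj F j z = Sg F z + Sg (S.EF F) z := by
  have h1 : AN (S.Dif F) < ⊤ := by
    unfold AN
    refine lt_of_le_of_lt (le_of_eq ?_) (S.L2_of_XN hX')
    apply lintegral_congr_ae
    filter_upwards [E2.lam_ae_B] with w hw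
    rw [S.Aop_Dif hF hX hw]
  have h2 := reproducing S.hn (S.Dif F) (S.Dif_diff hF hX) h1 z hz
  have h3 : Sg (Aop (S.Dif F)) z = Sg (S.EF F) z := by
    apply Sg_congr
    filter_upwards [E2.lam_ae_B] with w hw
    exact S.Aop_Dif hF hX hw
  rw [h3] at h2
  unfold Dif at h2
  rw [h2]
  ring

end Sys

end

end Pool.Agent.Lib.MP7ebef4
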