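import Pool.Agent.Lib.MP_7ebef4_an.HN

/-! Module HN, part 2: `∑_j AN (H_F)_j ≤ A ‖F‖_X²`. -/

set_option autoImplicit false

open MeasureTheory Set

namespace Pool.Agent.Lib.MP7ebef4

noncomputable section

variable {n : ℕ}

/-- Schur bound for the kernel `Q_η` -/
def SchurQ (n : ℕ) (η : ℝ) : Prop := ∃ A : ℝ, 0 < A ∧ ∀ f : E n → ENNReal, AEMeasurable f (lam n) →
  ∫⁻ z, (∫⁻ w, ENNReal.ofReal (Qk η z w) * f w ∂(lam n)) ^ (2:ℕ) ∂(lam n) ≤
    ENNReal.ofReal A * ∫⁻ w, f w ^ (2:ℕ) ∂(lam n)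

theorem Qk_nonneg' (η : ℝ) {z w : E n} (hz : z ∈ B n) (hw : w ∈ B n) : 0 ≤ Qk η z w :=
  Qk_nonneg η (mem_B.1 hz).le (mem_B.1 hw).le

namespace E2

theorem sum_lintegral_le {α ι : Type*} [MeasurableSpace α] (μ : Measure α) (s : Finset ι)
    (f : ι → α → ENNReal) : ∑ i ∈ s, ∫⁻ x, f i x ∂μ ≤ ∫⁻ x, ∑ i ∈ s, f i x ∂μ := by
  classical
  induction s using Finset.induction_on with
  | empty => simp
  | insert a s ha ih =>
    rw [Finset.sum_insert ha]
    have h1 := le_lintegral_add (μ := μ) (f a) (fun x => ∑ i ∈ s, f i x)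
    have e : ∀ x, ∑ i ∈ insert a s, f i x = f a x + ∑ i ∈ s, f i x := fun x => Finset.sum_insert ha
    simp only [e]
    exact (add_le_add_right ih _).trans h1

theorem measurable_Qk (η : ℝ) : Measurable (fun p : E n × E n => Qk η p.1 p.2) := by
  unfold Qk
  have h1 : Measurable (fun p : E n × E n => d p.1 p.2) := by
    have : Continuous (fun p : E n × E n => d p.1 p.2) := by
      unfold d q; fun_prop
    exact this.measurable
  have h2 : Measurable (fun p : E n × E n => dl p.1) := measurable_dl.comp measurable_fst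
  have h3 : Measurable (fun p : E n × E n => dl p.2) := measurable_dl.comp measurable_snd
  exact (((h2.div h1).pow_const _).mul ((h3.div h1).pow_const _)).mul (h1.pow_const _).inv

end E2

namespace Sys

variable {cT C K : ℝ} (S : Sys n cT C K)

/-- conjugate direction -/
def ub (v : S.T.ι) : E S.N := WithLp.toLp 2 (fun j => (starRingEnd ℂ) (S.u v j))

theorem norm_ub (v : S.T.ι) : ‖S.ub v‖ = 1 := by
  rw [← S.hu.unit v, EuclideanSpace.norm_eq, EuclideanSpace.norm_eq]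
  congr 1
  apply Finset.sum_congr rfl
  intro j _
  unfold ub
  simp

theorem measurable_DPhi (z : E n) : Measurable (fun w => S.DPhi w z) := by
  unfold DPhi
  have h1 : Measurable (fun w : E n => (NE n : ℂ) / q z w) := (E2.measurable_q z).const_div _
  have h2 := S.measurable_vw (fun v => (sE n : ℂ) / q z (S.T.a v))
  exact (S.measurable_Phi z).mul ((h1.sub h2).add_const _)

theorem integrable_DPhi {F : E n → ℂ} (hF : AEStronglyMeasurable F (lam n)) (hX : S.XN F < ⊤)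
    {z : E n} (hz : z ∈ B n) (g : E n → ℂ) (hg : Measurable g) {A : ℝ} (hA : 0 ≤ A)
    (hb : ∀ w ∈ B n, ‖g w‖ ≤ A) :
    Integrable (fun w => F w * (S.DPhi w z * g w)) (lam n) := by
  have hdz := dl_pos hz
  apply S.integrable_of_PB hF hX (A := (C0 n * (NE n + 166 * sE n)) * (dl z / 2)⁻¹ * A) _ _ hz
  · intro w hw
    have h1 := S.norm_DPhi_le hw hz
    have h2 := hb w hw
    have h3 := PB_nonneg (mem_B.1 hz).le (mem_B.1 hw).le
    have h4 := C0_nonneg n
    have h5 : dl z / 2 ≤ d z w := by have := dl_le_left z w (mem_B.1 hw).le; linarith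
    have hD := d_pos hz (mem_B.1 hw).le
    rw [norm_mul, ← mul_assoc]
    calc S.c (S.vw w) * ‖S.DPhi w z‖ * ‖g w‖
        ≤ ((C0 n * (NE n + 166 * sE n)) * ((d z w)⁻¹ * PB z w)) * A := by
          apply mul_le_mul h1 h2 (norm_nonneg _)
          positivity
      _ ≤ ((C0 n * (NE n + 166 * sE n)) * ((dl z / 2)⁻¹ * PB z w)) * A := by
          gcongr
      _ = _ := by ring
  · exact ((S.measurable_DPhi z).mul hg).aestronglyMeasurable
  · have h4 := C0_nonneg n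
    positivity

theorem measurable_ubj (j : Fin S.N) : Measurable (fun w => (starRingEnd ℂ) (S.u (S.vw w) j)) :=
  S.measurable_vw (fun v => (starRingEnd ℂ) (S.u v j))

theorem norm_ubj (j : Fin S.N) (w : E n) : ‖(starRingEnd ℂ) (S.u (S.vw w) j)‖ ≤ 1 := by
  rw [RCLike.norm_conj]; exact S.norm_u_coord_le _ j

/-- pointwise: sum over the coordinates of a vector-valued integral -/
theorem sum_coord_le {φ : E n → ℂ}
    (hφ : ∀ j : Fin S.N, Integrable (fun w => φ w * (starRingEnd ℂ) (S.u (S.vw w) j)) (lam n)) :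
    ∑ j : Fin S.N, ‖∫ w, φ w * (starRingEnd ℂ) (S.u (S.vw w) j) ∂(lam n)‖ₑ ^ (2:ℕ) ≤
      (∫⁻ w, ‖φ w‖ₑ ∂(lam n)) ^ (2:ℕ) := by
  set f : E n → E S.N := fun w => φ w • S.ub (S.vw w) with hf
  have hfj : ∀ j : Fin S.N, ∀ w, f w j = φ w * (starRingEnd ℂ) (S.u (S.vw w) j) := by
    intro j w
    rw [hf]
    simp [ub]
  have hφ' : ∀ j : Fin S.N, Integrable (fun w => f w j) (lam n) := by
    intro j
    simp only [hfj j]
    exact hφ j
  have hint : Integrable f (lam n) := integrable_piLp_iff.2 hφ'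
  have h1 : ∀ j : Fin S.N, (∫ w, f w ∂(lam n)) j =
      ∫ w, φ w * (starRingEnd ℂ) (S.u (S.vw w) j) ∂(lam n) := by
    intro j
    rw [eval_integral_piLp hφ' j]
    simp only [hfj j]
  have h2 : ‖∫ w, f w ∂(lam n)‖ₑ ^ (2:ℕ) =
      ∑ j : Fin S.N, ‖∫ w, φ w * (starRingEnd ℂ) (S.u (S.vw w) j) ∂(lam n)‖ₑ ^ (2:ℕ) := by
    rw [← ofReal_norm, ← ENNReal.ofReal_pow (norm_nonneg _), EuclideanSpace.norm_sq_eq,
      ENNReal.ofReal_sum_of_nonneg (fun _ _ => sq_nonneg _)]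
    apply Finset.sum_congr rfl
    intro j _
    rw [h1 j, ENNReal.ofReal_pow (norm_nonneg _), ofReal_norm]
  rw [← h2]
  have h3 : ‖∫ w, f w ∂(lam n)‖ₑ ≤ ∫⁻ w, ‖φ w‖ₑ ∂(lam n) := by
    refine (enorm_integral_le_lintegral_enorm f).trans ?_
    apply lintegral_mono
    intro w
    simp only [hf]
    rw [enorm_smul]
    have : ‖S.ub (S.vw w)‖ₑ = 1 := by rw [← ofReal_norm, S.norm_ub]; simp
    rw [this, mul_one]
  exact pow_le_pow_left₀ zero_le h3 2

theorem enorm_div_aemeasurable {F : E n → ℂ} (hF : AEStronglyMeasurable F (lam n)) :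
    AEMeasurable (fun w => ‖F w‖ₑ / ENNReal.ofReal (S.c (S.vw w))) (lam n) := by
  apply hF.enorm.div
  exact (S.measurable_vw (fun v => ENNReal.ofReal (S.c v))).aemeasurable

end Sys

/-- constant of the kernel `A Φ` -/
def CH (n : ℕ) : ℝ := Sys.C0 n * (NE n + 166 * sE n) * 2 ^ (3 * sE n)

theorem CH_nonneg (n : ℕ) : 0 ≤ CH n := by
  unfold CH
  have := Sys.C0_nonneg n
  positivity

/-- **module HN** -/
theorem HN_of (n : ℕ) (hSg : SgHol n) (hQ : SchurQ n 1) : ∃ A : ℝ, 0 < A ∧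
    ∀ (cT C K : ℝ) (S : Sys n cT C K) (F : E n → ℂ), AEStronglyMeasurable F (lam n) → S.XN F < ⊤ →
      (∀ j, DifferentiableOn ℂ (S.HFj F j) (B n)) ∧
      (∀ j, ∀ z ∈ B n, Dop (S.HFj F j) z =
        ∫ w, F w * (S.DPhi w z * (starRingEnd ℂ) (S.u (S.vw w) j)) ∂(lam n)) ∧
      ∑ j, AN (S.HFj F j) ≤ ENNReal.ofReal A * S.XN F := by
  obtain ⟨A₁, hA₁, hQ⟩ := hQ
  refine ⟨CH n ^ 2 * A₁ + 1, by have := CH_nonneg n; positivity, ?_⟩
  intro cT C K S F hF hX
  refine ⟨fun j => (S.HFj_hol hSg hF hX j).1, fun j => (S.HFj_hol hSg hF hX j).2, ?_⟩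
  unfold AN
  refine (E2.sum_lintegral_le _ _ _).trans ?_
  have hpt : ∀ z ∈ B n, ∑ j, ‖Aop (S.HFj F j) z‖ₑ ^ (2:ℕ) ≤
      ENNReal.ofReal (CH n ^ 2) * (∫⁻ w, ENNReal.ofReal (Qk 1 z w) *
        (‖F w‖ₑ / ENNReal.ofReal (S.c (S.vw w))) ∂(lam n)) ^ (2:ℕ) := by
    intro z hz
    have hdz := dl_pos hz
    have e1 : ∀ j, Aop (S.HFj F j) z =
        ∫ w, (F w * ((dl z : ℂ) * S.DPhi w z)) * (starRingEnd ℂ) (S.u (S.vw w) j) ∂(lam n) := by
      intro j
      unfold Aop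
      rw [(S.HFj_hol hSg hF hX j).2 z hz, smul_eq_mul, ← integral_const_mul]
      apply integral_congr_ae
      apply Filter.Eventually.of_forall
      intro w
      simp only
      ring
    have hint : ∀ j : Fin S.N, Integrable (fun w => (F w * ((dl z : ℂ) * S.DPhi w z)) *
        (starRingEnd ℂ) (S.u (S.vw w) j)) (lam n) := by
      intro j
      have h1 := (S.integrable_DPhi hF hX hz _ (S.measurable_ubj j) zero_le_one
        (fun w _ => S.norm_ubj j w)).const_mul (dl z : ℂ)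
      refine h1.congr (Filter.Eventually.of_forall ?_)
      intro w
      simp only
      ring
    have h2 := S.sum_coord_le hint
    simp only [← e1] at h2
    refine h2.trans ?_
    rw [show ENNReal.ofReal (CH n ^ 2) = ENNReal.ofReal (CH n) ^ (2:ℕ) from
      ENNReal.ofReal_pow (CH_nonneg n) 2, ← mul_pow]
    apply pow_le_pow_left₀ zero_le
    rw [← lintegral_const_mul' _ _ ENNReal.ofReal_ne_top]
    apply lintegral_mono_ae
    filter_upwards [E2.lam_ae_B] with w hw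
    have hc := S.c_pos (S.vw w)
    have h3 := S.norm_DPhi_le_Qk hw hz
    have hQk := Qk_nonneg' 1 hz hw
    rw [← ofReal_norm, ← ofReal_norm, ← ENNReal.ofReal_div_of_pos hc,
      ← ENNReal.ofReal_mul hQk, ← ENNReal.ofReal_mul (CH_nonneg n)]
    apply ENNReal.ofReal_le_ofReal
    rw [norm_mul, norm_mul, Complex.norm_real, Real.norm_of_nonneg hdz.le]
    have h4 : dl z * ‖S.DPhi w z‖ ≤ CH n * Qk 1 z w / S.c (S.vw w) := by
      rw [le_div_iff₀ hc, mul_comm]
      exact h3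
    calc ‖F w‖ * (dl z * ‖S.DPhi w z‖) ≤ ‖F w‖ * (CH n * Qk 1 z w / S.c (S.vw w)) :=
          mul_le_mul_of_nonneg_left h4 (norm_nonneg _)
      _ = _ := by ring
  calc ∫⁻ z, ∑ j, ‖Aop (S.HFj F j) z‖ₑ ^ (2:ℕ) ∂(lam n)
      ≤ ∫⁻ z, ENNReal.ofReal (CH n ^ 2) * (∫⁻ w, ENNReal.ofReal (Qk 1 z w) *
        (‖F w‖ₑ / ENNReal.ofReal (S.c (S.vw w))) ∂(lam n)) ^ (2:ℕ) ∂(lam n) := by
        apply lintegral_mono_ae
        filter_upwards [E2.lam_ae_B] with z hz
        exact hpt z hz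
    _ = ENNReal.ofReal (CH n ^ 2) * ∫⁻ z, (∫⁻ w, ENNReal.ofReal (Qk 1 z w) *
        (‖F w‖ₑ / ENNReal.ofReal (S.c (S.vw w))) ∂(lam n)) ^ (2:ℕ) ∂(lam n) :=
        lintegral_const_mul' _ _ ENNReal.ofReal_ne_top
    _ ≤ ENNReal.ofReal (CH n ^ 2) * (ENNReal.ofReal A₁ * S.XN F) := by
        gcongr
        exact hQ _ (S.enorm_div_aemeasurable hF)
    _ = ENNReal.ofReal (CH n ^ 2 * A₁) * S.XN F := by
        rw [← mul_assoc, ← ENNReal.ofReal_mul (sq_nonneg _)]
    _ ≤ _ := by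
        gcongr
        linarith

end

end Pool.Agent.Lib.MP7ebef4
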