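import Pool.Agent.Lib.MP_7ebef4_an.ErrOp
import Pool.Agent.Lib.MP_7ebef4_an.HN2

/-! The operator bound for the error operator `EF`. -/

set_option autoImplicit false

open MeasureTheory Set

namespace Pool.Agent.Lib.MP7ebef4

noncomputable section

variable {n : ℕ}

theorem ennreal_sq_add_le (x y : ENNReal) : (x + y) ^ (2:ℕ) ≤ 4 * x ^ (2:ℕ) + 4 * y ^ (2:ℕ) := by
  rcases le_total x y with h | h
  · calc (x + y) ^ (2:ℕ) ≤ (y + y) ^ (2:ℕ) := pow_le_pow_left₀ zero_le (add_le_add_left h y) 2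
      _ = 4 * y ^ (2:ℕ) := by ring
      _ ≤ _ := le_add_self
  · calc (x + y) ^ (2:ℕ) ≤ (x + x) ^ (2:ℕ) := pow_le_pow_left₀ zero_le (add_le_add_right h x) 2
      _ = 4 * x ^ (2:ℕ) := by ring
      _ ≤ _ := le_self_add

namespace Sys

variable {cT C K : ℝ} (S : Sys n cT C K)

theorem measurable_inn (v : S.T.ι) : Measurable (fun w => S.inn w v) :=
  S.measurable_vw (fun x => (inner ℂ (S.u x) (S.u v) : ℂ))

theorem measurable_fac (z : E n) (v : S.T.ι) : Measurable (fun w => S.fac w z v) := by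
  unfold fac
  have h1 : Measurable (fun w : E n => (NE n : ℂ) / q z w) := (E2.measurable_q z).const_div _
  have h2 := S.measurable_vw (fun x => (sE n : ℂ) / q z (S.T.a x))
  exact (h1.add_const _).sub h2

theorem measurableSet_loc (P : S.T.ι → Prop) : MeasurableSet {w | P (S.T.loc w)} := by
  classical
  have h1 : Measurable (fun w => if P (S.T.loc w) then (1:ℝ) else 0) :=
    E2.measurable_loc S.T (fun x => if P x then (1:ℝ) else 0)
  have h2 : {w | P (S.T.loc w)} = (fun w => if P (S.T.loc w) then (1:ℝ) else 0) ⁻¹' {1} := by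
    ext w
    by_cases h : P (S.T.loc w)
    · simp [h]
    · simp [h]
  rw [h2]
  exact h1 (measurableSet_singleton 1)

theorem integrable_term {F : E n → ℂ} (hF : AEStronglyMeasurable F (lam n)) (hX : S.XN F < ⊤)
    {z : E n} (hz : z ∈ B n) (v : S.T.ι) : Integrable (fun w => F w * S.term w z v) (lam n) := by
  have hz1 := (mem_B.1 hz).le
  have hdz := dl_pos hz
  have hcv := S.c_pos v
  have h := S.integrable_Phi hF hX hz
    (fun w => (dl z : ℂ) * ((S.c v : ℂ) * S.inn w v * kk S.T v z * S.fac w z v))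
    (((((S.measurable_inn v).const_mul _).mul_const _).mul (S.measurable_fac z v)).const_mul _)
    (A := dl z * (S.c v * ‖kk S.T v z‖ * ((NE n + 164 * sE n) / (dl z / 2) + sE n / d z (S.T.a v))))
    (by have := d_nonneg z (S.T.a v); positivity)
    (by
      intro w hw
      have h1 := S.norm_inn_le w v
      have h2 := S.norm_fac_le hw hz v
      have h3 : dl z / 2 ≤ d z w := by have := dl_le_left z w (mem_B.1 hw).le; linarith
      have h4 : ((NE n : ℝ) + 164 * sE n) / d z w ≤ (NE n + 164 * sE n) / (dl z / 2) :=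
        div_le_div_of_nonneg_left (by positivity) (by positivity) h3
      rw [norm_mul, norm_mul, norm_mul, norm_mul, Complex.norm_real, Complex.norm_real,
        Real.norm_of_nonneg hdz.le, Real.norm_of_nonneg hcv.le]
      apply mul_le_mul_of_nonneg_left _ hdz.le
      calc S.c v * ‖S.inn w v‖ * ‖kk S.T v z‖ * ‖S.fac w z v‖
          ≤ S.c v * 1 * ‖kk S.T v z‖ * ((NE n + 164 * sE n) / d z w + sE n / d z (S.T.a v)) := by
            gcongr
        _ ≤ S.c v * 1 * ‖kk S.T v z‖ * ((NE n + 164 * sE n) / (dl z / 2) + sE n / d z (S.T.a v)) := by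
            gcongr
        _ = _ := by ring)
  refine h.congr (Filter.Eventually.of_forall ?_)
  intro w
  simp only
  unfold term
  ring

theorem integrable_ind {F g : E n → ℂ} (h : Integrable (fun w => F w * g w) (lam n))
    (P : S.T.ι → Prop) [DecidablePred P] :
    Integrable (fun w => F w * (if P (S.T.loc w) then g w else 0)) (lam n) := by
  have h1 := h.indicator (S.measurableSet_loc P)
  refine h1.congr (Filter.Eventually.of_forall ?_)
  intro w
  simp only
  by_cases hP : P (S.T.loc w)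
  · rw [indicator_of_mem (by exact hP), if_pos hP]
  · rw [indicator_of_notMem (by exact hP), if_neg hP, mul_zero]

open Classical in
theorem ErrT_sum (w z : E n) :
    S.ErrT w z = ∑ v ∈ S.pumps, if v ≠ S.resp (S.T.loc w) then S.term w z v else 0 := by
  unfold ErrT
  rw [← Finset.sum_filter]
  apply Finset.sum_congr
  · ext v
    simp only [Finset.mem_erase, Finset.mem_filter, vw]
    tauto
  · intros; rfl

open Classical in
theorem ErrE2_sum (w z : E n) :
    S.ErrE2 w z = ∑ v ∈ S.pumps, if S.T.lev (S.T.loc w) + S.L < S.T.lev v then S.termE2 w z v else 0 := by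
  unfold ErrE2
  rw [← Finset.sum_filter]
  apply Finset.sum_congr
  · ext v
    simp only [clE, pumps, Finset.mem_filter, Finset.mem_univ, true_and]
  · intros; rfl

theorem integrable_ErrT {F : E n → ℂ} (hF : AEStronglyMeasurable F (lam n)) (hX : S.XN F < ⊤)
    {z : E n} (hz : z ∈ B n) : Integrable (fun w => F w * S.ErrT w z) (lam n) := by
  classical
  simp only [S.ErrT_sum, Finset.mul_sum]
  apply integrable_finsetSum
  intro v _
  exact S.integrable_ind (S.integrable_term hF hX hz v) (fun x => v ≠ S.resp x)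

theorem integrable_psi {F : E n → ℂ} (hF : AEStronglyMeasurable F (lam n)) (hX : S.XN F < ⊤)
    (v : S.T.ι) : Integrable (fun w => F w * (S.Phi w (S.T.a v) * S.inn w v)) (lam n) :=
  S.integrable_Phi hF hX (S.T.a_mem v) (fun w => S.inn w v) (S.measurable_inn v) zero_le_one
    (fun w _ => S.norm_inn_le w v)

theorem termE2_eq {F : E n → ℂ} (z w : E n) (v : S.T.ι) :
    F w * S.termE2 w z v = ((dl z : ℂ) * (S.c v : ℂ) * S.Dk v z) *
      (F w * (S.Phi w (S.T.a v) * S.inn w v)) := by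
  unfold termE2; ring

theorem integrable_ErrE2 {F : E n → ℂ} (hF : AEStronglyMeasurable F (lam n)) (hX : S.XN F < ⊤)
    {z : E n} : Integrable (fun w => F w * S.ErrE2 w z) (lam n) := by
  classical
  simp only [S.ErrE2_sum, Finset.mul_sum]
  apply integrable_finsetSum
  intro v _
  refine S.integrable_ind ?_ (fun x => S.T.lev x + S.L < S.T.lev v)
  simp only [S.termE2_eq]
  exact (S.integrable_psi hF hX v).const_mul _

theorem integral_ErrE2 {F : E n → ℂ} (hF : AEStronglyMeasurable F (lam n)) (hX : S.XN F < ⊤)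
    {z : E n} : ∫ w, F w * S.ErrE2 w z ∂(lam n) =
      ∑ v ∈ S.pumps, (dl z : ℂ) * (S.c v : ℂ) * S.Dk v z * S.psi F v := by
  classical
  simp only [S.ErrE2_sum, Finset.mul_sum]
  rw [integral_finsetSum]
  · apply Finset.sum_congr rfl
    intro v _
    unfold psi
    rw [← integral_indicator (S.measurableSet_loc (fun x => S.T.lev x + S.L < S.T.lev v)),
      ← integral_const_mul]
    apply integral_congr_ae
    apply Filter.Eventually.of_forall
    intro w
    simp only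
    by_cases hP : S.T.lev (S.T.loc w) + S.L < S.T.lev v
    · rw [indicator_of_mem (by exact hP), if_pos hP, S.termE2_eq]
    · rw [indicator_of_notMem (by exact hP), if_neg hP, mul_zero, mul_zero]
  · intro v _
    refine S.integrable_ind ?_ (fun x => S.T.lev x + S.L < S.T.lev v)
    simp only [S.termE2_eq]
    exact (S.integrable_psi hF hX v).const_mul _

theorem integrable_Err1 {F : E n → ℂ} (hF : AEStronglyMeasurable F (lam n)) (hX : S.XN F < ⊤)
    {z : E n} (hz : z ∈ B n) : Integrable (fun w => F w * S.Err1 w z) (lam n) := by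
  have h := (S.integrable_ErrT hF hX hz).sub (S.integrable_ErrE2 (z := z) hF hX)
  refine h.congr (Filter.Eventually.of_forall ?_)
  intro w
  simp only [Pi.sub_apply]
  rw [S.ErrT_eq]
  ring

theorem EF_eq {F : E n → ℂ} (hF : AEStronglyMeasurable F (lam n)) (hX : S.XN F < ⊤)
    {z : E n} (hz : z ∈ B n) : S.EF F z = (∫ w, F w * S.Err1 w z ∂(lam n)) +
      ∑ v ∈ S.pumps, (dl z : ℂ) * (S.c v : ℂ) * S.Dk v z * S.psi F v := by
  rw [← S.integral_ErrE2 hF hX, ← integral_add (S.integrable_Err1 hF hX hz)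
    (S.integrable_ErrE2 (z := z) hF hX)]
  unfold EF
  apply integral_congr_ae
  apply Filter.Eventually.of_forall
  intro w
  simp only
  rw [S.ErrT_eq]
  ring

theorem measurable_E2fun (F : E n → ℂ) : Measurable (fun z =>
    (‖∑ v ∈ S.pumps, (dl z : ℂ) * (S.c v : ℂ) * S.Dk v z * S.psi F v‖ₑ /
        ENNReal.ofReal (S.c (S.vw z))) ^ (2:ℕ)) := by
  have h1 : Measurable (fun z => ∑ v ∈ S.pumps, (dl z : ℂ) * (S.c v : ℂ) * S.Dk v z * S.psi F v) := by
    apply Finset.measurable_fun_sum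
    intro v _
    apply Measurable.mul_const
    have hq : Measurable (fun z : E n => q z (S.T.a v)) := (E2.continuous_q (S.T.a v)).measurable
    have hdl : Measurable (fun z : E n => ((dl z : ℝ) : ℂ)) :=
      Complex.measurable_ofReal.comp E2.measurable_dl
    have hD : Measurable (fun z => S.Dk v z) := by
      unfold Dk kk
      exact ((hq.const_div _).pow_const _).mul ((hq.const_div _).const_add _)
    exact (hdl.mul_const _).mul hD
  exact (h1.enorm.div (S.measurable_vw (fun v => ENNReal.ofReal (S.c v)))).pow_const _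

theorem kap1_mul_nonneg {A : ℝ} (hA : 0 ≤ A) : 0 ≤ A * S.kap1 := mul_nonneg hA S.kap1_nonneg

theorem Err1_pt {F : E n → ℂ} {A : ℝ} (hA : 0 ≤ A) {z : E n} (hz : z ∈ B n)
    (h1 : ∀ w, w ∈ B n → S.c (S.vw w) * ‖S.Err1 w z‖ ≤ A * S.kap1 * S.c (S.vw z) * Qk (1/4) z w) :
    ‖∫ w, F w * S.Err1 w z ∂(lam n)‖ₑ / ENNReal.ofReal (S.c (S.vw z)) ≤
      ENNReal.ofReal (A * S.kap1) * ∫⁻ w, ENNReal.ofReal (Qk (1/4) z w) *
        (‖F w‖ₑ / ENNReal.ofReal (S.c (S.vw w))) ∂(lam n) := by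
  have hcz := S.c_pos (S.vw z)
  have hAk := S.kap1_mul_nonneg hA
  rw [ENNReal.div_le_iff (by simpa using hcz) ENNReal.ofReal_ne_top]
  refine (enorm_integral_le_lintegral_enorm _).trans ?_
  rw [mul_comm _ (ENNReal.ofReal (S.c (S.vw z))), ← mul_assoc, ← ENNReal.ofReal_mul hcz.le,
    ← lintegral_const_mul' _ _ ENNReal.ofReal_ne_top]
  apply lintegral_mono_ae
  filter_upwards [E2.lam_ae_B] with w hw
  have hc := S.c_pos (S.vw w)
  have hQk := Qk_nonneg' (1/4) hz hw
  have h2 := h1 w hw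
  rw [← ofReal_norm, ← ofReal_norm, ← ENNReal.ofReal_div_of_pos hc,
    ← ENNReal.ofReal_mul hQk, ← ENNReal.ofReal_mul (by positivity)]
  apply ENNReal.ofReal_le_ofReal
  rw [norm_mul]
  have h4 : ‖S.Err1 w z‖ ≤ A * S.kap1 * S.c (S.vw z) * Qk (1/4) z w / S.c (S.vw w) := by
    rw [le_div_iff₀ hc, mul_comm]
    exact h2
  calc ‖F w‖ * ‖S.Err1 w z‖ ≤ ‖F w‖ * (A * S.kap1 * S.c (S.vw z) * Qk (1/4) z w / S.c (S.vw w)) :=
        mul_le_mul_of_nonneg_left h4 (norm_nonneg _)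
    _ = _ := by ring

end Sys

/-- statement of `Err1_le` -/
def Err1Stmt (n : ℕ) (cT C K : ℝ) : Prop :=
  ∃ A : ℝ, 0 < A ∧ ∀ (S : Sys n cT C K) (w z : E n), w ∈ B n → z ∈ B n →
      S.c (S.vw w) * ‖S.Err1 w z‖ ≤ A * S.kap1 * S.c (S.vw z) * Qk (1/4) z w

/-- statement of (E2a) -/
def E2aStmt (n : ℕ) (cT C K : ℝ) : Prop :=
  ∃ A : ℝ, 0 < A ∧ ∀ (S : Sys n cT C K) (ψ : S.T.ι → ℂ),
      ∫⁻ z, (‖∑ v ∈ S.pumps, (dl z : ℂ) * (S.c v : ℂ) * S.Dk v z * ψ v‖ₑ /
        ENNReal.ofReal (S.c (S.vw z))) ^ (2:ℕ) ∂(lam n) ≤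
      ENNReal.ofReal A * ∑ v ∈ S.pumps, ENNReal.ofReal (S.T.vol v) * ‖ψ v‖ₑ ^ (2:ℕ)

/-- statement of (E2b) -/
def E2bStmt (n : ℕ) (cT C K : ℝ) : Prop :=
  ∃ A : ℝ, 0 < A ∧ ∀ (S : Sys n cT C K) (F : E n → ℂ), AEStronglyMeasurable F (lam n) →
      S.XN F < ⊤ →
      ∑ v ∈ S.pumps, ENNReal.ofReal (S.T.vol v) * ‖S.psi F v‖ₑ ^ (2:ℕ) ≤
        ENNReal.ofReal (A * S.eb) * S.XN F

/-- **operator bound** -/
theorem EF_le (n : ℕ) (cT C K : ℝ) (hQ : SchurQ n (1/4)) (h1 : Err1Stmt n cT C K)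
    (h2 : E2aStmt n cT C K) (h3 : E2bStmt n cT C K) :
    ∃ A : ℝ, 0 < A ∧ ∀ (S : Sys n cT C K) (F : E n → ℂ), AEStronglyMeasurable F (lam n) →
      S.XN F < ⊤ → S.XN (S.EF F) ≤ ENNReal.ofReal (A * (S.kap1 ^ 2 + S.eb)) * S.XN F := by
  obtain ⟨AQ, hAQ, hQ⟩ := hQ
  obtain ⟨A1, hA1, h1⟩ := h1
  obtain ⟨A2, hA2, h2⟩ := h2
  obtain ⟨A3, hA3, h3⟩ := h3
  refine ⟨4 * (A1 ^ 2 * AQ) + 4 * (A2 * A3), by positivity, ?_⟩
  intro S F hF hX
  have hk := S.kap1_nonneg
  have heb := S.heb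
  set P1 : E n → ENNReal := fun z => ∫⁻ w, ENNReal.ofReal (Qk (1/4) z w) *
        (‖F w‖ₑ / ENNReal.ofReal (S.c (S.vw w))) ∂(lam n) with hP1
  set P2 : E n → ENNReal := fun z => (‖∑ v ∈ S.pumps, (dl z : ℂ) * (S.c v : ℂ) * S.Dk v z * S.psi F v‖ₑ /
        ENNReal.ofReal (S.c (S.vw z))) ^ (2:ℕ) with hP2
  have hpt : ∀ z ∈ B n, (‖S.EF F z‖ₑ / ENNReal.ofReal (S.c (S.vw z))) ^ (2:ℕ) ≤
      ENNReal.ofReal (4 * (A1 * S.kap1) ^ 2) * P1 z ^ (2:ℕ) + 4 * P2 z := by
    intro z hz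
    have e1 := S.Err1_pt (F := F) hA1.le hz (fun w hw => h1 S w z hw hz)
    rw [S.EF_eq hF hX hz]
    have e2 : ‖(∫ w, F w * S.Err1 w z ∂(lam n)) +
        ∑ v ∈ S.pumps, (dl z : ℂ) * (S.c v : ℂ) * S.Dk v z * S.psi F v‖ₑ /
          ENNReal.ofReal (S.c (S.vw z)) ≤ ENNReal.ofReal (A1 * S.kap1) * P1 z +
        ‖∑ v ∈ S.pumps, (dl z : ℂ) * (S.c v : ℂ) * S.Dk v z * S.psi F v‖ₑ /
          ENNReal.ofReal (S.c (S.vw z)) := by
      refine (ENNReal.div_le_div_right (enorm_add_le _ _) _).trans ?_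
      rw [ENNReal.add_div]
      exact add_le_add_left e1 _
    refine (pow_le_pow_left₀ zero_le e2 2).trans ?_
    refine (ennreal_sq_add_le _ _).trans ?_
    rw [mul_pow, ENNReal.ofReal_mul (by norm_num : (0:ℝ) ≤ 4),
      ENNReal.ofReal_pow (S.kap1_mul_nonneg hA1.le), mul_assoc]
    simp only [hP2]
    norm_num
  have hm2 : Measurable P2 := S.measurable_E2fun F
  calc S.XN (S.EF F) ≤ ∫⁻ z, (ENNReal.ofReal (4 * (A1 * S.kap1) ^ 2) * P1 z ^ (2:ℕ) + 4 * P2 z) ∂(lam n) := by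
        unfold Sys.XN
        apply lintegral_mono_ae
        filter_upwards [E2.lam_ae_B] with z hz
        exact hpt z hz
    _ = ∫⁻ z, ENNReal.ofReal (4 * (A1 * S.kap1) ^ 2) * P1 z ^ (2:ℕ) ∂(lam n) +
          ∫⁻ z, 4 * P2 z ∂(lam n) := lintegral_add_right _ (hm2.const_mul _)
    _ = ENNReal.ofReal (4 * (A1 * S.kap1) ^ 2) * ∫⁻ z, P1 z ^ (2:ℕ) ∂(lam n) +
          4 * ∫⁻ z, P2 z ∂(lam n) := by
        rw [lintegral_const_mul' _ _ ENNReal.ofReal_ne_top, lintegral_const_mul _ hm2]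
    _ ≤ ENNReal.ofReal (4 * (A1 * S.kap1) ^ 2) * (ENNReal.ofReal AQ * S.XN F) +
          4 * (ENNReal.ofReal A2 * (ENNReal.ofReal (A3 * S.eb) * S.XN F)) := by
        gcongr
        · exact hQ _ (S.enorm_div_aemeasurable hF)
        · exact (h2 S (S.psi F)).trans (mul_le_mul_right (h3 S F hF hX) _)
    _ = ENNReal.ofReal (4 * (A1 * S.kap1) ^ 2 * AQ + 4 * (A2 * (A3 * S.eb))) * S.XN F := by
        rw [ENNReal.ofReal_add (by positivity) (by positivity),
          ENNReal.ofReal_mul (by positivity : 0 ≤ 4 * (A1 * S.kap1) ^ 2),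
          ENNReal.ofReal_mul (by norm_num : (0:ℝ) ≤ 4) (q := A2 * (A3 * S.eb)),
          ENNReal.ofReal_mul hA2.le]
        norm_num
        ring
    _ ≤ _ := by
        gcongr
        have t1 : 0 ≤ A1 ^ 2 * AQ * S.eb := by positivity
        have t2 : 0 ≤ A2 * A3 * S.kap1 ^ 2 := by positivity
        nlinarith

end

end Pool.Agent.Lib.MP7ebef4
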