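import Pool.Agent.Lib.MP_7ebef4_an.Card

/-! Forelli–Rudin estimates (module Meas2), conditional on `polar`, `sig_sph`, `sig_ball_upper`. -/

set_option autoImplicit false

open MeasureTheory Set

namespace Pool.Agent.Lib.MP7ebef4

noncomputable section

namespace FRaux

variable {n : ℕ}

theorem int_pow (t : ℝ) (ht : -1 < t) (s : ℝ) (hs0 : 0 < s) (_hs1 : s ≤ 1) :
    ∫⁻ r in Ioo (1 - s) 1, ENNReal.ofReal ((1 - r) ^ t) = ENNReal.ofReal (s ^ (t + 1) / (t + 1)) := by
  have hint : IntervalIntegrable (fun r : ℝ => (1 - r) ^ t) volume (1 - s) 1 := by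
    have h1 : IntervalIntegrable (fun x : ℝ => x ^ t) volume s 0 :=
      intervalIntegral.intervalIntegrable_rpow' ht
    have h2 := h1.comp_sub_left 1
    simpa using h2
  have hval : ∫ r in (1 - s)..1, (1 - r) ^ t = s ^ (t + 1) / (t + 1) := by
    rw [intervalIntegral.integral_comp_sub_left (fun x : ℝ => x ^ t) 1]
    rw [sub_self, sub_sub_cancel, integral_rpow (Or.inl ht), Real.zero_rpow (by linarith), sub_zero]
  rw [← hval, intervalIntegral.integral_of_le (by linarith),
    ofReal_integral_eq_lintegral_ofReal]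
  · exact setLIntegral_congr Ioo_ae_eq_Ioc
  · exact (intervalIntegrable_iff_integrableOn_Ioc_of_le (by linarith)).1 hint
  · filter_upwards [ae_restrict_mem measurableSet_Ioc] with r hr
    have := hr.2
    exact Real.rpow_nonneg (by linarith) _

theorem one_sub_le_d {z ζ : E n} (hz : ‖z‖ ≤ 1) (hζ : ‖ζ‖ = 1) {r : ℝ} (hr0 : 0 ≤ r) (_hr1 : r ≤ 1) :
    1 - r ≤ d z (r • ζ) := by
  unfold d q
  have h1 := norm_inner_le_norm (𝕜 := ℂ) (r • ζ) z
  rw [norm_smul, hζ, mul_one, Real.norm_of_nonneg hr0] at h1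
  have h2 := norm_sub_norm_le (1:ℂ) (inner ℂ (r • ζ) z)
  rw [norm_one] at h2
  nlinarith [norm_nonneg z]

theorem d_ray_le {z ζ : E n} (hz : ‖z‖ ≤ 1) (hζ : ‖ζ‖ = 1) {r R : ℝ} (hr0 : 0 ≤ r) (hr1 : r ≤ 1)
    (h : d z (r • ζ) < R) : d ζ z ≤ 4 * R := by
  have h1 := one_sub_le_d hz hζ hr0 hr1
  have hrn : ‖r • ζ‖ ≤ 1 := by
    rw [norm_smul, hζ, mul_one, Real.norm_of_nonneg hr0]; exact hr1
  have h2 := rho_tri z (r • ζ) ζ hz hrn hζ.le
  have h3 : rho (r • ζ) ζ = Real.sqrt (1 - r) := by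
    have := rho_rad_self hζ (h := 1 - r) (by linarith)
    rwa [sub_sub_cancel] at this
  have h4 : rho z (r • ζ) ≤ Real.sqrt R := Real.sqrt_le_sqrt h.le
  have h5 : Real.sqrt (1 - r) ≤ Real.sqrt R := Real.sqrt_le_sqrt (by linarith)
  have hR : 0 ≤ R := by linarith
  have h6 : rho z ζ ≤ 2 * Real.sqrt R := by rw [h3] at h2; linarith
  rw [d_comm, ← rho_sq]
  have h7 := Real.sq_sqrt hR
  have h8 := rho_nonneg z ζ
  nlinarith

theorem continuous_d_right (z : E n) : Continuous (fun w : E n => d z w) := by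
  unfold d q
  fun_prop

theorem measurable_dl_rpow (t : ℝ) : Measurable (fun w : E n => dl w ^ t) := by
  unfold dl
  fun_prop

theorem dl_smul {ζ : E n} (hζ : ‖ζ‖ = 1) {r : ℝ} : dl (r • ζ) = (1 - r) * (1 + r) := by
  unfold dl
  rw [norm_smul, hζ, mul_one, Real.norm_eq_abs, sq_abs]; ring

/-- mass of a nonisotropic ball for `δ^t dv` -/
theorem ball_mass (hn : 0 < n)
    (hpolar : ∀ φ : E n → ENNReal, Measurable φ →
      ∫⁻ z in B n, φ z = ∫⁻ r in Ioo (0:ℝ) 1, ENNReal.ofReal (2 * n * r ^ (2 * n - 1)) *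
        ∫⁻ ζ, φ (r • ζ) ∂(sig n))
    (hsph : sig n (Sph n)ᶜ = 0) (hup : HUp n) (t : ℝ) (ht : -1 < t) :
    ∃ C : ℝ, 0 < C ∧ ∀ z : E n, ‖z‖ ≤ 1 → ∀ R : ℝ, 0 < R →
      ∫⁻ w in B n ∩ {w | d z w < R}, ENNReal.ofReal (dl w ^ t) ≤
        ENNReal.ofReal (C * R ^ ((n:ℝ) + 1 + t)) := by
  obtain ⟨C, hC, hup⟩ := hup
  have ht1 : 0 < t + 1 := by linarith
  refine ⟨2 * n * 2 ^ |t| * (C * 4 ^ n) / (t + 1), by positivity, ?_⟩
  intro z hz R hR
  have hmeasS : MeasurableSet {w : E n | d z w < R} :=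
    (isOpen_lt (continuous_d_right z) continuous_const).measurableSet
  set φ : E n → ENNReal := {w : E n | d z w < R}.indicator (fun w => ENNReal.ofReal (dl w ^ t))
    with hφ
  have hφm : Measurable φ := (measurable_dl_rpow t).ennreal_ofReal.indicator hmeasS
  have h1 : ∫⁻ w in B n ∩ {w | d z w < R}, ENNReal.ofReal (dl w ^ t) = ∫⁻ w in B n, φ w := by
    rw [hφ, lintegral_indicator hmeasS, Measure.restrict_restrict hmeasS, inter_comm]
  rw [h1, hpolar φ hφm]
  set s := min R 1 with hs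
  have hs0 : 0 < s := lt_min hR one_pos
  have hs1 : s ≤ 1 := min_le_right _ _
  have hsR : s ≤ R := min_le_left _ _
  have hσ := hup z (4 * R) hz (by positivity)
  -- inner integral
  have hinner : ∀ r ∈ Ioo (0:ℝ) 1, ENNReal.ofReal (2 * n * r ^ (2 * n - 1)) *
      ∫⁻ ζ, φ (r • ζ) ∂(sig n) ≤ (Ioo (1 - s) 1).indicator (fun r =>
        ENNReal.ofReal (2 * n * 2 ^ |t| * (C * (4 * R) ^ n)) * ENNReal.ofReal ((1 - r) ^ t)) r := by
    intro r hr
    have hsphae : ∀ᵐ ζ ∂(sig n), ζ ∈ Sph n := by rw [ae_iff]; exact hsph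
    by_cases hrs : 1 - s < r
    · rw [indicator_of_mem (show r ∈ Ioo (1 - s) 1 from ⟨hrs, hr.2⟩)]
      have h2 : ∫⁻ ζ, φ (r • ζ) ∂(sig n) ≤
          ∫⁻ ζ, ({ζ : E n | ‖ζ‖ = 1 ∧ d ζ z ≤ 4 * R}).indicator
            (fun _ => ENNReal.ofReal (2 ^ |t| * (1 - r) ^ t)) ζ ∂(sig n) := by
        apply lintegral_mono_ae
        filter_upwards [hsphae] with ζ hζ
        have hζ1 : ‖ζ‖ = 1 := by simpa [Sph] using hζ
        by_cases hd : d z (r • ζ) < R
        · have hmem : ζ ∈ {ζ : E n | ‖ζ‖ = 1 ∧ d ζ z ≤ 4 * R} :=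
            ⟨hζ1, d_ray_le hz hζ1 hr.1.le hr.2.le hd⟩
          rw [indicator_of_mem hmem, hφ, indicator_of_mem (show r • ζ ∈ {w | d z w < R} from hd)]
          apply ENNReal.ofReal_le_ofReal
          rw [dl_smul hζ1, Real.mul_rpow (by linarith [hr.2]) (by linarith [hr.1]), mul_comm]
          apply mul_le_mul_of_nonneg_right _ (Real.rpow_nonneg (by linarith [hr.2]) _)
          calc (1 + r) ^ t ≤ (1 + r) ^ |t| :=
                Real.rpow_le_rpow_of_exponent_le (by linarith [hr.1]) (le_abs_self t)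
            _ ≤ 2 ^ |t| := Real.rpow_le_rpow (by linarith [hr.1]) (by linarith [hr.2])
                (abs_nonneg t)
        · rw [hφ, indicator_of_notMem (show ¬ (r • ζ ∈ {w | d z w < R}) from hd)]
          exact zero_le
      have hmeasT : MeasurableSet {ζ : E n | ‖ζ‖ = 1 ∧ d ζ z ≤ 4 * R} := by
        apply MeasurableSet.inter
        · exact (isClosed_eq continuous_norm continuous_const).measurableSet
        · have : Continuous (fun ζ : E n => d ζ z) := by unfold d q; fun_prop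
          exact (isClosed_le this continuous_const).measurableSet
      rw [lintegral_indicator hmeasT, setLIntegral_const] at h2
      have h3 : (0:ℝ) ≤ 2 ^ |t| * (1 - r) ^ t :=
        mul_nonneg (by positivity) (Real.rpow_nonneg (by linarith [hr.2]) _)
      calc ENNReal.ofReal (2 * n * r ^ (2 * n - 1)) * ∫⁻ ζ, φ (r • ζ) ∂(sig n)
          ≤ ENNReal.ofReal (2 * n) * (ENNReal.ofReal (2 ^ |t| * (1 - r) ^ t) *
              ENNReal.ofReal (C * (4 * R) ^ n)) := by
            apply mul_le_mul'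
            · apply ENNReal.ofReal_le_ofReal
              have : r ^ (2 * n - 1) ≤ 1 := pow_le_one₀ hr.1.le hr.2.le
              have hn' : (0:ℝ) ≤ 2 * n := by positivity
              nlinarith
            · exact h2.trans (mul_le_mul_right hσ _)
        _ = _ := by
            rw [← ENNReal.ofReal_mul h3, ← ENNReal.ofReal_mul (by positivity),
              ← ENNReal.ofReal_mul (by positivity)]
            congr 1; ring
    · have h2 : ∫⁻ ζ, φ (r • ζ) ∂(sig n) = 0 := by
        rw [← lintegral_zero (μ := sig n)]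
        apply lintegral_congr_ae
        filter_upwards [hsphae] with ζ hζ
        have hζ1 : ‖ζ‖ = 1 := by simpa [Sph] using hζ
        rw [hφ]
        apply indicator_of_notMem
        intro hd
        have hd' : d z (r • ζ) < R := hd
        have h3 := one_sub_le_d hz hζ1 hr.1.le hr.2.le
        rw [not_lt] at hrs
        have h4 : s ≤ 1 - r := by linarith
        rcases le_total R 1 with h | h
        · rw [hs, min_eq_left h] at h4; linarith
        · rw [hs, min_eq_right h] at h4; linarith [hr.1]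
      rw [h2, mul_zero]
      exact zero_le
  calc _ ≤ ∫⁻ r in Ioo (0:ℝ) 1, (Ioo (1 - s) 1).indicator (fun r =>
        ENNReal.ofReal (2 * n * 2 ^ |t| * (C * (4 * R) ^ n)) * ENNReal.ofReal ((1 - r) ^ t)) r :=
        setLIntegral_mono' measurableSet_Ioo hinner
    _ ≤ ∫⁻ r, (Ioo (1 - s) 1).indicator (fun r =>
        ENNReal.ofReal (2 * n * 2 ^ |t| * (C * (4 * R) ^ n)) * ENNReal.ofReal ((1 - r) ^ t)) r :=
        lintegral_mono' Measure.restrict_le_self le_rfl
    _ = ENNReal.ofReal (2 * n * 2 ^ |t| * (C * (4 * R) ^ n)) *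
          ENNReal.ofReal (s ^ (t + 1) / (t + 1)) := by
        rw [lintegral_indicator measurableSet_Ioo, lintegral_const_mul' _ _ ENNReal.ofReal_ne_top,
          int_pow t ht s hs0 hs1]
    _ ≤ _ := by
        rw [← ENNReal.ofReal_mul (by positivity)]
        apply ENNReal.ofReal_le_ofReal
        have h5 : s ^ (t + 1) ≤ R ^ (t + 1) := Real.rpow_le_rpow hs0.le hsR ht1.le
        have h6 : R ^ ((n:ℝ) + 1 + t) = R ^ n * R ^ (t + 1) := by
          rw [show (n:ℝ) + 1 + t = (n:ℝ) + (t + 1) by ring, Real.rpow_add hR, Real.rpow_natCast]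
        rw [h6]
        calc 2 * n * 2 ^ |t| * (C * (4 * R) ^ n) * (s ^ (t + 1) / (t + 1))
            ≤ 2 * n * 2 ^ |t| * (C * (4 * R) ^ n) * (R ^ (t + 1) / (t + 1)) := by gcongr
          _ = _ := by rw [mul_pow]; ring

end FRaux

open FRaux in
/-- Forelli–Rudin upper estimate -/
theorem FR_of (n : ℕ) (hn : 0 < n)
    (hpolar : ∀ φ : E n → ENNReal, Measurable φ →
      ∫⁻ z in B n, φ z = ∫⁻ r in Ioo (0:ℝ) 1, ENNReal.ofReal (2 * n * r ^ (2 * n - 1)) *
        ∫⁻ ζ, φ (r • ζ) ∂(sig n))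
    (hsph : sig n (Sph n)ᶜ = 0) (hup : HUp n)
    (t e : ℝ) (ht : -1 < t) (he : 0 < e) : ∃ C : ℝ, 0 < C ∧ ∀ z ∈ B n,
    ∫⁻ w in B n, ENNReal.ofReal (dl w ^ t * d z w ^ (-((n:ℝ) + 1 + t + e))) ≤
      ENNReal.ofReal (C * dl z ^ (-e)) := by
  obtain ⟨C, hC, hball⟩ := ball_mass hn hpolar hsph hup t ht
  set x : ℝ := (2:ℝ) ^ (-e) with hx
  have hx0 : 0 < x := by positivity
  have hx1 : x < 1 := by
    rw [hx]
    exact Real.rpow_lt_one_of_one_lt_of_neg (by norm_num) (by linarith)
  set a : ℝ := (n:ℝ) + 1 + t with ha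
  have ha0 : 0 < a := by rw [ha]; have : (0:ℝ) ≤ n := Nat.cast_nonneg n; linarith
  refine ⟨C * 2 ^ a * 2 ^ e / (1 - x), by have : 0 < 1 - x := by linarith
                                          positivity, ?_⟩
  intro z hz
  have hδ := dl_pos hz
  have hz1 := (mem_B.1 hz).le
  set ρ : ℕ → ℝ := fun k => 2 ^ k * (dl z / 2) with hρ
  have hρpos : ∀ k, 0 < ρ k := fun k => by rw [hρ]; positivity
  set A : ℕ → Set (E n) := fun k => B n ∩ {w | ρ k ≤ d z w ∧ d z w < ρ (k+1)} with hA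
  have hcov : B n ⊆ ⋃ k, A k := by
    intro w hw
    have hdw : ρ 0 ≤ d z w := by
      have h1 := dl_add_le z w
      have h2 := dl_pos hw
      simp only [hρ, pow_zero, one_mul]
      linarith
    have hex : ∃ k, d z w < ρ k := by
      obtain ⟨k, hk⟩ := pow_unbounded_of_one_lt (d z w / (dl z / 2)) (show (1:ℝ) < 2 by norm_num)
      refine ⟨k, ?_⟩
      rw [div_lt_iff₀ (by linarith)] at hk
      exact hk
    classical
    set k := Nat.find hex with hk
    have hk1 : d z w < ρ k := Nat.find_spec hex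
    have hk0 : k ≠ 0 := by
      intro h
      rw [h] at hk1
      linarith
    obtain ⟨m, hm⟩ := Nat.exists_eq_succ_of_ne_zero hk0
    have hm1 : ¬ d z w < ρ m := Nat.find_min hex (by rw [← hk, hm]; exact Nat.lt_succ_self m)
    rw [hm] at hk1
    exact mem_iUnion.2 ⟨m, hw, not_lt.1 hm1, hk1⟩
  have hAk : ∀ k, ∫⁻ w in A k, ENNReal.ofReal (dl w ^ t * d z w ^ (-(a + e))) ≤
      ENNReal.ofReal (C * 2 ^ a * 2 ^ e * dl z ^ (-e) * x ^ k) := by
    intro k
    have hρk := hρpos k
    have hmA : MeasurableSet (A k) := by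
      apply MeasurableSet.inter
      · unfold B; exact measurableSet_ball
      · apply MeasurableSet.inter
        · exact (isClosed_le continuous_const (continuous_d_right z)).measurableSet
        · exact (isOpen_lt (continuous_d_right z) continuous_const).measurableSet
    calc ∫⁻ w in A k, ENNReal.ofReal (dl w ^ t * d z w ^ (-(a + e)))
        ≤ ∫⁻ w in A k, ENNReal.ofReal (ρ k ^ (-(a + e))) * ENNReal.ofReal (dl w ^ t) := by
          apply setLIntegral_mono' hmA
          intro w hw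
          rw [← ENNReal.ofReal_mul (by positivity)]
          apply ENNReal.ofReal_le_ofReal
          rw [mul_comm]
          apply mul_le_mul_of_nonneg_right _ (Real.rpow_nonneg (dl_pos hw.1).le _)
          exact Real.rpow_le_rpow_of_nonpos hρk hw.2.1 (by linarith)
      _ = ENNReal.ofReal (ρ k ^ (-(a + e))) * ∫⁻ w in A k, ENNReal.ofReal (dl w ^ t) :=
          lintegral_const_mul' _ _ ENNReal.ofReal_ne_top
      _ ≤ ENNReal.ofReal (ρ k ^ (-(a + e))) * ENNReal.ofReal (C * ρ (k+1) ^ a) := by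
          apply mul_le_mul_right
          refine le_trans ?_ (hball z hz1 (ρ (k+1)) (hρpos _))
          refine lintegral_mono' (Measure.restrict_mono ?_ le_rfl) le_rfl
          intro w hw
          exact ⟨hw.1, hw.2.2⟩
      _ = ENNReal.ofReal (C * 2 ^ a * 2 ^ e * dl z ^ (-e) * x ^ k) := by
          rw [← ENNReal.ofReal_mul (by positivity)]
          congr 1
          have e1 : ρ (k+1) = 2 * ρ k := by simp only [hρ]; rw [pow_succ]; ring
          have e2 : ρ k ^ (-(a + e)) * ρ k ^ a = ρ k ^ (-e) := by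
            rw [← Real.rpow_add hρk]; congr 1; ring
          have e3 : ρ k ^ (-e) = x ^ k * (dl z ^ (-e) * 2 ^ e) := by
            simp only [hρ]
            rw [Real.mul_rpow (by positivity) (by positivity), hx, ← Real.rpow_natCast,
              ← Real.rpow_mul (by norm_num), Real.div_rpow hδ.le (by norm_num),
              ← Real.rpow_natCast, ← Real.rpow_mul (by norm_num)]
            have e4 : ((2:ℝ) ^ (-e))⁻¹ = 2 ^ e := by
              rw [Real.rpow_neg (by norm_num), inv_inv]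
            rw [div_eq_mul_inv, e4, mul_comm (k:ℝ) (-e)]
          rw [e1, Real.mul_rpow (by norm_num) hρk.le]
          calc ρ k ^ (-(a + e)) * (C * (2 ^ a * ρ k ^ a))
              = C * 2 ^ a * (ρ k ^ (-(a + e)) * ρ k ^ a) := by ring
            _ = _ := by rw [e2, e3]; ring
  calc ∫⁻ w in B n, ENNReal.ofReal (dl w ^ t * d z w ^ (-(a + e)))
      ≤ ∫⁻ w in ⋃ k, A k, ENNReal.ofReal (dl w ^ t * d z w ^ (-(a + e))) :=
        lintegral_mono' (Measure.restrict_mono hcov le_rfl) le_rfl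
    _ ≤ ∑' k, ∫⁻ w in A k, ENNReal.ofReal (dl w ^ t * d z w ^ (-(a + e))) :=
        lintegral_iUnion_le _ _
    _ ≤ ∑' k, ENNReal.ofReal (C * 2 ^ a * 2 ^ e * dl z ^ (-e) * x ^ k) :=
        ENNReal.tsum_le_tsum hAk
    _ = ENNReal.ofReal (∑' k, C * 2 ^ a * 2 ^ e * dl z ^ (-e) * x ^ k) := by
        rw [ENNReal.ofReal_tsum_of_nonneg]
        · intro k; positivity
        · exact (summable_geometric_of_lt_one hx0.le hx1).mul_left _
    _ = _ := by
        rw [tsum_mul_left, tsum_geometric_of_lt_one hx0.le hx1]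
        congr 1
        ring

end

end Pool.Agent.Lib.MP7ebef4
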