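import Pool.Agent.Lib.MP_7ebef4_an.LimitB

/-!
# MP_7ebef4_an : transfer from `EuclideanSpace` to `Fin n → ℂ`
-/

set_option autoImplicit false

open MeasureTheory Set Filter Topology

namespace Pool.Agent.Lib.MP7ebef4

noncomputable section

variable {n : ℕ}

/-- the set of the frozen statement -/
def Bpi (n : ℕ) : Set (Fin n → ℂ) := {z : Fin n → ℂ | ∑ i, ‖z i‖ ^ 2 < 1}

abbrev eqv (n : ℕ) : E n ≃L[ℂ] (Fin n → ℂ) := EuclideanSpace.equiv (Fin n) ℂ

theorem norm_eqv_symm (z : Fin n → ℂ) : ‖(eqv n).symm z‖ = Real.sqrt (∑ i, ‖z i‖ ^ 2) := by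
  rw [EuclideanSpace.norm_eq]
  rfl

theorem mem_Bpi (z : Fin n → ℂ) : z ∈ Bpi n ↔ (eqv n).symm z ∈ B n := by
  simp only [Bpi, B, mem_ofPred_eq, Metric.mem_ball, dist_zero_right, norm_eqv_symm]
  rw [Real.sqrt_lt' one_pos]
  simp

theorem preimage_Bpi : (eqv n) ⁻¹' (Bpi n) = B n := by
  ext z
  rw [mem_preimage, mem_Bpi, ContinuousLinearEquiv.symm_apply_apply]

theorem measurableSet_Bpi : MeasurableSet (Bpi n) := by
  have : Bpi n = (eqv n).symm ⁻¹' (B n) := by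
    ext z; rw [mem_Bpi]; rfl
  rw [this]
  exact ((eqv n).symm.continuous.measurable) Metric.isOpen_ball.measurableSet

/-- comparison of the two volumes -/
theorem exists_const_vol (n : ℕ) : ∃ c : ENNReal, c ≠ 0 ∧ c ≠ ⊤ ∧
    (volume : Measure (Fin n → ℂ)) = c • Measure.map (eqv n) (volume : Measure (E n)) := by
  have h1 : (Measure.map (eqv n) (volume : Measure (E n))).IsAddHaarMeasure :=
    (eqv n).isAddHaarMeasure_map _
  refine ⟨(Measure.addHaarScalarFactor (volume : Measure (Fin n → ℂ))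
    (Measure.map (eqv n) (volume : Measure (E n))) : NNReal), ?_, ENNReal.coe_ne_top, ?_⟩
  · exact_mod_cast (Measure.addHaarScalarFactor_pos_of_isAddHaarMeasure _ _).ne'
  · exact Measure.isAddLeftInvariant_eq_smul _ _

/-- transfer of the sphere means -/
theorem lintegral_transfer (c : ENNReal)
    (hvol : (volume : Measure (Fin n → ℂ)) = c • Measure.map (eqv n) (volume : Measure (E n)))
    (φ : (Fin n → ℂ) → ENNReal) (ψ : E n → ENNReal) (hψ : Measurable ψ)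
    (hφψ : ∀ z : Fin n → ℂ, z ∈ Bpi n → φ z = ψ ((‖(eqv n).symm z‖⁻¹ : ℝ) • (eqv n).symm z)) :
    ∫⁻ z in Bpi n, φ z = c * ∫⁻ ζ, ψ ζ ∂(sig n) := by
  have h0 : ∫⁻ z in Bpi n, φ z =
      ∫⁻ z in Bpi n, ψ ((‖(eqv n).symm z‖⁻¹ : ℝ) • (eqv n).symm z) :=
    setLIntegral_congr_fun measurableSet_Bpi hφψ
  rw [h0]
  have hm : Measurable (fun z : Fin n → ℂ => ψ ((‖(eqv n).symm z‖⁻¹ : ℝ) • (eqv n).symm z)) :=
    (hψ.comp measurable_toSph).comp (eqv n).symm.continuous.measurable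
  rw [hvol, Measure.restrict_smul, lintegral_smul_measure,
    Measure.restrict_map (eqv n).continuous.measurable measurableSet_Bpi,
    lintegral_map hm (eqv n).continuous.measurable, preimage_Bpi]
  simp only [ContinuousLinearEquiv.symm_apply_apply, smul_eq_mul]
  congr 1
  unfold sig
  rw [lintegral_map hψ measurable_toSph]

theorem measurable_ind (F : E n → ℂ) (hF : DifferentiableOn ℂ F (B n)) :
    Measurable ((B n).indicator F) := by
  classical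
  have hc : ContinuousOn F (B n) := hF.continuousOn
  have hB : MeasurableSet (B n) := Metric.isOpen_ball.measurableSet
  rw [← Set.piecewise_eq_indicator]
  exact hc.measurable_piecewise continuous_zero.continuousOn hB

theorem means_transfer (c : ENNReal)
    (hvol : (volume : Measure (Fin n → ℂ)) = c • Measure.map (eqv n) (volume : Measure (E n)))
    (F : E n → ℂ) (hF : DifferentiableOn ℂ F (B n)) (r : ℝ) (hr : r ∈ Ioo (0:ℝ) 1) (k : ℕ) :
    ∫⁻ z in Bpi n, ‖F ((eqv n).symm ((r / Real.sqrt (∑ i, ‖z i‖ ^ 2)) • z))‖ₑ ^ k =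
      c * ∫⁻ ζ, ‖F (r • ζ)‖ₑ ^ k ∂(sig n) := by
  have hB : ∀ ζ : E n, ‖ζ‖ ≤ 1 → r • ζ ∈ B n := by
    intro ζ hζ
    simp only [B, Metric.mem_ball, dist_zero_right]
    rw [norm_smul, Real.norm_of_nonneg hr.1.le]
    nlinarith [hr.1, hr.2, norm_nonneg ζ]
  have h1 : ∫⁻ ζ, ‖F (r • ζ)‖ₑ ^ k ∂(sig n) =
      ∫⁻ ζ, ‖(B n).indicator F (r • ζ)‖ₑ ^ k ∂(sig n) := by
    refine lintegral_congr_ae ?_
    filter_upwards [sig_ae_le (n := n)] with ζ hζ
    rw [Set.indicator_of_mem (hB ζ hζ)]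
  rw [h1]
  have hm : Measurable (fun ζ : E n => ‖(B n).indicator F (r • ζ)‖ₑ ^ k) := by
    have h2 : Measurable (fun ζ : E n => r • ζ) := measurable_const_smul r
    exact (((measurable_ind F hF).comp h2).enorm).pow_const k
  refine lintegral_transfer c hvol _ _ hm (fun z _ => ?_)
  rw [Set.indicator_of_mem (hB _ (norm_toSph_le _)), norm_eqv_symm, smul_smul, div_eq_mul_inv]
  congr 3

/-- the statement of `S05193` for one `n`, from the limit theorem -/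
theorem frozen_of (n : ℕ)
    (hlim : ∀ f : E n → ℂ, DifferentiableOn ℂ f (B n) →
      ⨆ r ∈ Ioo (0:ℝ) 1, ∫⁻ ζ, ‖f (r • ζ)‖ₑ ∂(sig n) < ⊤ →
      ∃ (N : ℕ) (G H : Fin N → E n → ℂ),
        (∀ j, DifferentiableOn ℂ (G j) (B n) ∧ H2 (G j) < ⊤ ∧
          DifferentiableOn ℂ (H j) (B n) ∧ H2 (H j) < ⊤) ∧
        ∀ z ∈ B n, f z = ∑ j, G j z * H j z)
    (f : (Fin n → ℂ) → ℂ) (hf : DifferentiableOn ℂ f (Bpi n))
    (h1 : (⨆ r ∈ Set.Ioo (0 : ℝ) 1, ∫⁻ z in Bpi n,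
            ‖f ((r / Real.sqrt (∑ i, ‖z i‖ ^ 2)) • z)‖ₑ) < ⊤) :
    ∃ (N : ℕ) (g h : Fin N → (Fin n → ℂ) → ℂ),
        (∀ i, DifferentiableOn ℂ (g i) (Bpi n) ∧
              (⨆ r ∈ Set.Ioo (0 : ℝ) 1, ∫⁻ z in Bpi n,
                    ‖g i ((r / Real.sqrt (∑ j, ‖z j‖ ^ 2)) • z)‖ₑ ^ (2 : ℕ)) < ⊤ ∧
              DifferentiableOn ℂ (h i) (Bpi n) ∧
              (⨆ r ∈ Set.Ioo (0 : ℝ) 1, ∫⁻ z in Bpi n,
                    ‖h i ((r / Real.sqrt (∑ j, ‖z j‖ ^ 2)) • z)‖ₑ ^ (2 : ℕ)) < ⊤) ∧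
        ∀ z ∈ Bpi n, f z = ∑ i, g i z * h i z := by
  obtain ⟨c, hc0, hct, hvol⟩ := exists_const_vol n
  have hF : DifferentiableOn ℂ (fun z => f (eqv n z)) (B n) := by
    refine hf.comp (eqv n).differentiable.differentiableOn (fun z hz => ?_)
    rw [mem_Bpi, ContinuousLinearEquiv.symm_apply_apply]
    exact hz
  obtain ⟨N, G, H, hGH, hfac⟩ := hlim (fun z => f (eqv n z)) hF (by
    have h2 : c * (⨆ r ∈ Ioo (0:ℝ) 1, ∫⁻ ζ, ‖f (eqv n (r • ζ))‖ₑ ∂(sig n)) < ⊤ := by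
      refine lt_of_le_of_lt (le_of_eq ?_) h1
      rw [ENNReal.mul_iSup]
      refine iSup_congr (fun r => ?_)
      rw [ENNReal.mul_iSup]
      refine iSup_congr (fun hr => ?_)
      have := means_transfer c hvol (fun z => f (eqv n z)) hF r hr 1
      simp only [pow_one, ContinuousLinearEquiv.apply_symm_apply] at this
      exact this.symm
    exact (ENNReal.mul_lt_top_iff.mp h2).elim (fun h => h.2)
      (fun h => h.elim (fun h => absurd h hc0) (fun h => by rw [h]; exact ENNReal.zero_lt_top)))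
  have hmeans : ∀ F : E n → ℂ, DifferentiableOn ℂ F (B n) → H2 F < ⊤ →
      (⨆ r ∈ Set.Ioo (0 : ℝ) 1, ∫⁻ z in Bpi n,
        ‖F ((eqv n).symm ((r / Real.sqrt (∑ j, ‖z j‖ ^ 2)) • z))‖ₑ ^ (2 : ℕ)) < ⊤ := by
    intro F hFd hF2
    have h3 : (⨆ r ∈ Set.Ioo (0 : ℝ) 1, ∫⁻ z in Bpi n,
        ‖F ((eqv n).symm ((r / Real.sqrt (∑ j, ‖z j‖ ^ 2)) • z))‖ₑ ^ (2 : ℕ)) = c * H2 F := by
      unfold H2
      rw [ENNReal.mul_iSup]
      refine iSup_congr (fun r => ?_)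
      rw [ENNReal.mul_iSup]
      exact iSup_congr (fun hr => means_transfer c hvol F hFd r hr 2)
    rw [h3]
    exact ENNReal.mul_lt_top hct.lt_top hF2
  have hdiff : ∀ F : E n → ℂ, DifferentiableOn ℂ F (B n) →
      DifferentiableOn ℂ (fun z => F ((eqv n).symm z)) (Bpi n) := by
    intro F hFd
    exact hFd.comp (eqv n).symm.differentiable.differentiableOn (fun z hz => (mem_Bpi z).mp hz)
  refine ⟨N, fun i z => G i ((eqv n).symm z), fun i z => H i ((eqv n).symm z), fun i =>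
    ⟨hdiff _ (hGH i).1, hmeans _ (hGH i).1 (hGH i).2.1, hdiff _ (hGH i).2.2.1,
      hmeans _ (hGH i).2.2.1 (hGH i).2.2.2⟩, fun z hz => ?_⟩
  have := hfac ((eqv n).symm z) ((mem_Bpi z).mp hz)
  simpa only [ContinuousLinearEquiv.apply_symm_apply] using this

end

end Pool.Agent.Lib.MP7ebef4
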