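import Pool.Agent.Lib.MP_7ebef4_an.Defs

/-! Several-variable regularity of holomorphic functions (complex differentiable on an open set):
the derivative is again holomorphic. -/

set_option autoImplicit false

open MeasureTheory Set Metric

namespace Pool.Agent.Lib.MP7ebef4

noncomputable section

section hol

variable {H : Type*} [NormedAddCommGroup H] [NormedSpace ℂ H]
variable {V : Type*} [NormedAddCommGroup V] [NormedSpace ℂ V]

/-- the complex line `ζ ↦ g (z + ζ v)` -/
theorem hasDerivAt_line {g : H → V} {z v : H} {ζ : ℂ} (hg : DifferentiableAt ℂ g (z + ζ • v)) :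
    HasDerivAt (fun t : ℂ => g (z + t • v)) (fderiv ℂ g (z + ζ • v) v) ζ := by
  have h1 : HasDerivAt (fun t : ℂ => z + t • v) v ζ := by
    have := (hasDerivAt_id ζ).smul_const v
    simpa using this.const_add z
  exact hg.hasFDerivAt.comp_hasDerivAt ζ h1

/-- Cauchy estimate for the Fréchet derivative -/
theorem norm_fderiv_le [CompleteSpace V] {g : H → V} {w : H} {R M : ℝ} (hR : 0 < R) (hM : 0 ≤ M)
    (hg : DifferentiableOn ℂ g (ball w R)) (hb : ∀ x ∈ ball w R, ‖g x‖ ≤ M) :
    ‖fderiv ℂ g w‖ ≤ M / (R / 2) := by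
  apply ContinuousLinearMap.opNorm_le_of_unit_norm (𝕜 := ℂ) (by positivity)
  intro u hu
  have hmem : ∀ t : ℂ, ‖t‖ < R → w + t • u ∈ ball w R := by
    intro t ht
    rw [mem_ball_iff_norm, add_sub_cancel_left, norm_smul, hu, mul_one]
    exact ht
  have hd : DifferentiableOn ℂ (fun t : ℂ => g (w + t • u)) (ball 0 R) := by
    intro t ht
    rw [mem_ball_zero_iff] at ht
    exact (hasDerivAt_line (hg.differentiableAt (isOpen_ball.mem_nhds (hmem t ht)))).differentiableAt.differentiableWithinAt
  have h1 : fderiv ℂ g w u = deriv (fun t : ℂ => g (w + t • u)) 0 := by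
    have := (hasDerivAt_line (g := g) (z := w) (v := u) (ζ := 0)
      (by simpa using hg.differentiableAt (isOpen_ball.mem_nhds (mem_ball_self hR)))).deriv
    simpa using this.symm
  rw [h1]
  apply Complex.norm_deriv_le_of_forall_mem_sphere_norm_le (by positivity)
  · apply DifferentiableOn.diffContOnCl
    apply hd.mono
    intro t ht
    rw [closure_ball _ (by positivity)] at ht
    rw [mem_closedBall_zero_iff] at ht
    rw [mem_ball_zero_iff]
    linarith
  · intro t ht
    rw [mem_sphere_zero_iff_norm] at ht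
    exact hb _ (hmem t (by rw [ht]; linarith))

variable [FiniteDimensional ℂ H] [MeasurableSpace H] [BorelSpace H]

/-- directional derivatives of holomorphic functions are holomorphic -/
theorem differentiableOn_fderiv_apply [CompleteSpace V] [SecondCountableTopology V] {U : Set H}
    (hU : IsOpen U) {g : H → V} (hg : DifferentiableOn ℂ g U) (v : H) :
    DifferentiableOn ℂ (fun z => fderiv ℂ g z v) U := by
  intro z₀ hz₀
  apply DifferentiableAt.differentiableWithinAt
  -- a ball on which `g` is bounded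
  have hc : ContinuousAt g z₀ := (hg.differentiableAt (hU.mem_nhds hz₀)).continuousAt
  obtain ⟨r₁, hr₁, hr₁'⟩ := Metric.isOpen_iff.1 hU z₀ hz₀
  obtain ⟨r₂, hr₂, hr₂'⟩ := Metric.continuousAt_iff.1 hc 1 one_pos
  set r := min r₁ r₂ with hr
  have hr0 : 0 < r := lt_min hr₁ hr₂
  set M := ‖g z₀‖ + 1 with hM
  have hM0 : 0 ≤ M := by positivity
  have hsub : ball z₀ r ⊆ U := (ball_subset_ball (min_le_left _ _)).trans hr₁'
  have hbd : ∀ x ∈ ball z₀ r, ‖g x‖ ≤ M := by
    intro x hx
    have := hr₂' (lt_of_lt_of_le (mem_ball.1 hx) (min_le_right _ _))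
    rw [dist_eq_norm] at this
    have h2 := norm_le_norm_add_norm_sub' (g x) (g z₀)
    linarith
  have hdr : DifferentiableOn ℂ g (ball z₀ r) := hg.mono hsub
  have hfb : ∀ w ∈ ball z₀ (r / 2), ‖fderiv ℂ g w‖ ≤ M / ((r/2) / 2) := by
    intro w hw
    have hs : ball w (r/2) ⊆ ball z₀ r := by
      apply ball_subset_ball'
      have := mem_ball.1 hw
      linarith
    exact norm_fderiv_le (by positivity) hM0 (hdr.mono hs) (fun x hx => hbd x (hs hx))
  -- the radius of the circle
  obtain ⟨s, hs0, hs⟩ : ∃ s : ℝ, 0 < s ∧ s * ‖v‖ < r / 4 := by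
    refine ⟨(r / 4) / (‖v‖ + 1), by positivity, ?_⟩
    rw [div_mul_eq_mul_div, div_lt_iff₀ (by positivity)]
    nlinarith [norm_nonneg v]
  have hmem : ∀ z ∈ ball z₀ (r/4), ∀ t : ℂ, ‖t‖ ≤ s → z + t • v ∈ ball z₀ (r/2) := by
    intro z hz t ht
    rw [mem_ball_iff_norm] at *
    have h1 : ‖t • v‖ ≤ s * ‖v‖ := by
      rw [norm_smul]; exact mul_le_mul_of_nonneg_right ht (norm_nonneg _)
    calc ‖z + t • v - z₀‖ = ‖(z - z₀) + t • v‖ := by congr 1; abel
      _ ≤ ‖z - z₀‖ + ‖t • v‖ := norm_add_le _ _
      _ < r / 2 := by linarith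
  have hsub2 : ball z₀ (r/2) ⊆ ball z₀ r := ball_subset_ball (by linarith)
  let co : ℝ → ℂ := fun θ => deriv (circleMap 0 s) θ * ((circleMap 0 s θ) ^ 2)⁻¹
  let Fn : H → ℝ → V := fun z θ => co θ • g (z + circleMap 0 s θ • v)
  let Fn' : H → ℝ → (H →L[ℂ] V) := fun z θ => co θ • fderiv ℂ g (z + circleMap 0 s θ • v)
  have hcm : ∀ θ, ‖circleMap 0 s θ‖ = s := by
    intro θ; simp [circleMap, abs_of_pos hs0]
  have hco : ∀ θ, ‖co θ‖ = s⁻¹ := by
    intro θ
    simp only [co]
    rw [norm_mul, norm_inv, norm_pow, deriv_circleMap, norm_mul, hcm, Complex.norm_I]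
    field_simp
  have hcoc : Continuous co := by
    simp only [co]
    have h1 : Continuous (circleMap 0 s) := continuous_circleMap 0 s
    simp_rw [deriv_circleMap]
    apply Continuous.mul
    · exact h1.mul continuous_const
    · apply Continuous.inv₀ (h1.pow 2)
      intro θ
      apply pow_ne_zero
      rw [← norm_ne_zero_iff, hcm]; exact hs0.ne'
  have hlin : ∀ z, Continuous (fun θ : ℝ => z + circleMap 0 s θ • v) := fun z =>
    continuous_const.add ((continuous_circleMap 0 s).smul continuous_const)
  -- Cauchy's formula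
  have hformula : ∀ z ∈ ball z₀ (r/4), fderiv ℂ g z v =
      (2 * Real.pi * Complex.I : ℂ)⁻¹ • ∫ θ in Ioc 0 (2 * Real.pi), Fn z θ := by
    intro z hz
    have hz' : z ∈ ball z₀ (r/2) := ball_subset_ball (by linarith) hz
    set U' : Set ℂ := (fun t : ℂ => z + t • v) ⁻¹' (ball z₀ (r/2)) with hU'
    have hU'o : IsOpen U' := isOpen_ball.preimage
      (continuous_const.add (continuous_id.smul continuous_const))
    have hd : DifferentiableOn ℂ (fun t : ℂ => g (z + t • v)) U' := by
      intro t ht
      exact (hasDerivAt_line (hdr.differentiableAt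
        (isOpen_ball.mem_nhds (hsub2 ht)))).differentiableAt.differentiableWithinAt
    have h1 := Complex.two_pi_I_inv_smul_circleIntegral_sub_sq_inv_smul_of_differentiable
      hU'o (c := 0) (w₀ := 0) (R := s) (f := fun t : ℂ => g (z + t • v))
      (fun t ht => hmem z hz t (by simpa using ht)) hd (mem_ball_self hs0)
    have h2 : fderiv ℂ g z v = deriv (fun t : ℂ => g (z + t • v)) 0 := by
      have := (hasDerivAt_line (g := g) (z := z) (v := v) (ζ := 0)
        (by simpa using hdr.differentiableAt (isOpen_ball.mem_nhds (hsub2 hz')))).deriv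
      simpa using this.symm
    rw [h2, ← h1, circleIntegral, intervalIntegral.integral_of_le (by positivity)]
    congr 1
    apply integral_congr_ae
    filter_upwards with θ
    simp only [Fn, co, sub_zero, smul_smul]
  have hderiv : HasFDerivAt (fun z => ∫ θ in Ioc 0 (2 * Real.pi), Fn z θ)
      (∫ θ in Ioc 0 (2 * Real.pi), Fn' z₀ θ) z₀ := by
    apply hasFDerivAt_integral_of_dominated_of_fderiv_le (𝕜 := ℂ) (s := ball z₀ (r/4))
      (bound := fun _ => s⁻¹ * (M / ((r/2) / 2))) (ball_mem_nhds z₀ (by positivity))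
    · filter_upwards [ball_mem_nhds z₀ (show 0 < r/4 by positivity)] with z hz
      apply Continuous.aestronglyMeasurable
      apply hcoc.smul
      exact hdr.continuousOn.comp_continuous (hlin z)
        (fun θ => hsub2 (hmem z hz _ (hcm θ).le))
    · apply Continuous.integrableOn_Ioc
      apply hcoc.smul
      exact hdr.continuousOn.comp_continuous (hlin z₀)
        (fun θ => hsub2 (hmem z₀ (mem_ball_self (by positivity)) _ (hcm θ).le))
    · apply AEStronglyMeasurable.smul hcoc.aestronglyMeasurable
      have : SecondCountableTopology (H →L[ℂ] V) := inferInstance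
      borelize V
      have hm : Measurable (fun θ : ℝ => fderiv ℂ g (z₀ + circleMap 0 s θ • v)) :=
        (measurable_fderiv ℂ g).comp (hlin z₀).measurable
      exact hm.aestronglyMeasurable
    · filter_upwards with θ z hz
      simp only [Fn']
      rw [norm_smul, hco]
      exact mul_le_mul_of_nonneg_left (hfb _ (hmem z hz _ (hcm θ).le)) (by positivity)
    · exact integrable_const _
    · filter_upwards with θ z hz
      simp only [Fn, Fn']
      apply HasFDerivAt.const_smul
      have h1 := (hdr.differentiableAt (isOpen_ball.mem_nhds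
        (hsub2 (hmem z hz _ (hcm θ).le)))).hasFDerivAt
      have h2 : HasFDerivAt (fun x : H => x + circleMap 0 s θ • v) (ContinuousLinearMap.id ℂ H) z :=
        (hasFDerivAt_id z).add_const _
      exact h1.comp z h2
  have hfin : HasFDerivAt (fun z => (2 * Real.pi * Complex.I : ℂ)⁻¹ •
      ∫ θ in Ioc 0 (2 * Real.pi), Fn z θ) _ z₀ := hderiv.const_smul _
  apply hfin.differentiableAt.congr_of_eventuallyEq
  filter_upwards [ball_mem_nhds z₀ (show 0 < r/4 by positivity)] with z hz
  exact hformula z hz

end hol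

variable {n : ℕ}

theorem clm_eq_sum {V : Type*} [NormedAddCommGroup V] [NormedSpace ℂ V] (L : E n →L[ℂ] V) (z : E n) :
    L z = ∑ i, z i • L (EuclideanSpace.basisFun (Fin n) ℂ i) := by
  have h := (EuclideanSpace.basisFun (Fin n) ℂ).sum_repr z
  have h2 : L z = L (∑ i, (EuclideanSpace.basisFun (Fin n) ℂ).repr z i •
      (EuclideanSpace.basisFun (Fin n) ℂ) i) := by rw [h]
  rw [h2, map_sum]
  simp only [map_smul, EuclideanSpace.basisFun_repr]

theorem differentiableOn_fderiv_self {V : Type*} [NormedAddCommGroup V] [NormedSpace ℂ V]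
    [CompleteSpace V] [SecondCountableTopology V] {U : Set (E n)} (hU : IsOpen U) {g : E n → V}
    (hg : DifferentiableOn ℂ g U) : DifferentiableOn ℂ (fun z => fderiv ℂ g z z) U := by
  have h3 : (fun z => fderiv ℂ g z z) =
      fun z => ∑ i, z i • fderiv ℂ g z (EuclideanSpace.basisFun (Fin n) ℂ i) :=
    funext fun z => clm_eq_sum _ z
  rw [h3]
  apply DifferentiableOn.fun_sum
  intro i _
  apply DifferentiableOn.smul
  · have : (fun z : E n => z i) = fun z => (EuclideanSpace.proj i : E n →L[ℂ] ℂ) z := rfl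
    rw [this]
    exact (EuclideanSpace.proj i : E n →L[ℂ] ℂ).differentiable.differentiableOn
  · exact differentiableOn_fderiv_apply hU hg _

/-- `z ↦ fderiv ℂ g z` is holomorphic -/
theorem differentiableOn_fderiv {V : Type*} [NormedAddCommGroup V] [NormedSpace ℂ V]
    [CompleteSpace V] [SecondCountableTopology V] {U : Set (E n)} (hU : IsOpen U) {g : E n → V}
    (hg : DifferentiableOn ℂ g U) : DifferentiableOn ℂ (fderiv ℂ g) U := by
  have h3 : (fun z => fderiv ℂ g z) =
      fun z => ∑ i, (EuclideanSpace.proj i : E n →L[ℂ] ℂ).smulRight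
        (fderiv ℂ g z (EuclideanSpace.basisFun (Fin n) ℂ i)) := by
    funext z
    ext x
    rw [clm_eq_sum (fderiv ℂ g z) x]
    simp
  change DifferentiableOn ℂ (fun z => fderiv ℂ g z) U
  rw [h3]
  apply DifferentiableOn.fun_sum
  intro i _ z hz
  exact ((ContinuousLinearMap.smulRightL ℂ (E n) V
    (EuclideanSpace.proj i : E n →L[ℂ] ℂ)).differentiable.differentiableAt.comp_differentiableWithinAt
      z (differentiableOn_fderiv_apply hU hg _ z hz))

/-- `D g` is holomorphic -/
theorem differentiableOn_Dop {V : Type*} [NormedAddCommGroup V] [NormedSpace ℂ V]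
    [CompleteSpace V] [SecondCountableTopology V] {U : Set (E n)} (hU : IsOpen U) {g : E n → V}
    (hg : DifferentiableOn ℂ g U) : DifferentiableOn ℂ (Dop g) U := by
  have : Dop g = fun z => fderiv ℂ g z z + ((NE n : ℕ) : ℂ) • g z := rfl
  rw [this]
  exact (differentiableOn_fderiv_self hU hg).add (hg.const_smul _)

end

end Pool.Agent.Lib.MP7ebef4
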