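import Pool.Agent.Lib.MP_7ebef4_an.Geo
import Pool.Agent.Lib.MP_7ebef4_an.Hol

/-! Section 3 of the blueprint: the reproducing formula `Σ A g = g`.

Proof: average over the rotations fixing the direction `e` of `z` (mean value property) and over
`w ↦ e^{iθ} w` (Parseval), and the moments `∫_B |⟨w,e⟩|^{2j} δ^M`. -/

set_option autoImplicit false

open MeasureTheory Set Metric

namespace Pool.Agent.Lib.MP7ebef4.ReprAux

open Pool.Agent.Lib.MP7ebef4

noncomputable section

variable {n : ℕ}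

/-- averaging over a one-parameter family of measure preserving maps -/
theorem integral_avg {X : Type*} [MeasurableSpace X] (μ : Measure X) [SFinite μ] (T : ℝ → X → X)
    (hT : Measurable (Function.uncurry T)) (hmp : ∀ θ, MeasurePreserving (T θ) μ μ)
    (F : X → ℂ) (hF : Integrable F μ) :
    Integrable (fun x => ∫ θ in Ioc 0 (2 * Real.pi), F (T θ x)) μ ∧
    ∫ x, (∫ θ in Ioc 0 (2 * Real.pi), F (T θ x)) ∂μ = ((2 * Real.pi : ℝ) : ℂ) * ∫ x, F x ∂μ := by
  set ν : Measure ℝ := volume.restrict (Ioc 0 (2 * Real.pi)) with hν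
  have hΦ : MeasurePreserving (fun p : ℝ × X => (p.1, T p.1 p.2)) (ν.prod μ) (ν.prod μ) :=
    MeasurePreserving.skew_product (MeasurePreserving.id ν) hT
      (Filter.Eventually.of_forall fun θ => (hmp θ).map_eq)
  have h1 : Integrable (fun p : ℝ × X => F p.2) (ν.prod μ) := hF.comp_snd ν
  have h2 : Integrable (fun p : ℝ × X => F (T p.1 p.2)) (ν.prod μ) :=
    hΦ.integrable_comp_of_integrable h1
  refine ⟨h2.integral_prod_right, ?_⟩
  rw [← integral_prod_symm _ h2]
  have h3 : ∫ p, F (T p.1 p.2) ∂(ν.prod μ) = ∫ p, F p.2 ∂(ν.prod μ) := by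
    have h4 := integral_map (μ := ν.prod μ) (φ := fun p : ℝ × X => (p.1, T p.1 p.2))
      (f := fun p : ℝ × X => F p.2) hΦ.measurable.aemeasurable
      (by rw [hΦ.map_eq]; exact h1.aestronglyMeasurable)
    rw [hΦ.map_eq] at h4
    exact h4.symm
  rw [h3, integral_prod _ h1]
  simp only
  rw [integral_const]
  have h5 : ν.real univ = 2 * Real.pi := by
    simp [hν, measureReal_def, Real.volume_Ioc, Real.pi_pos.le]
  rw [h5, Complex.real_smul]

/-- the rotation `w ↦ ⟨w,e⟩e + e^{iθ}(w - ⟨w,e⟩e)` -/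
def rotMap (e : E n) (θ : ℝ) (w : E n) : E n :=
  (inner ℂ e w : ℂ) • e + Complex.exp (θ * Complex.I) • (w - (inner ℂ e w : ℂ) • e)

theorem inner_rotMap (e : E n) (he : ‖e‖ = 1) (θ : ℝ) (w : E n) :
    (inner ℂ e (rotMap e θ w) : ℂ) = inner ℂ e w := by
  unfold rotMap
  have h1 : (inner ℂ e e : ℂ) = 1 := by rw [inner_self_eq_norm_sq_to_K, he]; simp
  rw [inner_add_right, inner_smul_right, inner_smul_right, inner_sub_right, inner_smul_right, h1]
  ring

theorem norm_rotMap (e : E n) (he : ‖e‖ = 1) (θ : ℝ) (w : E n) : ‖rotMap e θ w‖ = ‖w‖ := by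
  have h1 : (inner ℂ e e : ℂ) = 1 := by rw [inner_self_eq_norm_sq_to_K, he]; simp
  have key : ∀ c : ℂ, ‖c‖ = 1 → ‖(inner ℂ e w : ℂ) • e + c • (w - (inner ℂ e w : ℂ) • e)‖ ^ 2 =
      ‖(inner ℂ e w : ℂ) • e‖ ^ 2 + ‖w - (inner ℂ e w : ℂ) • e‖ ^ 2 := by
    intro c hc
    have h2 : (inner ℂ ((inner ℂ e w : ℂ) • e) (c • (w - (inner ℂ e w : ℂ) • e)) : ℂ) = 0 := by
      rw [inner_smul_left, inner_smul_right, inner_sub_right, inner_smul_right, h1]
      ring
    rw [@norm_add_sq ℂ, h2, norm_smul c, hc]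
    simp
  have h3 := key (Complex.exp (θ * Complex.I)) (Complex.norm_exp_ofReal_mul_I θ)
  have h4 := key 1 norm_one
  rw [← h4, one_smul, add_sub_cancel] at h3
  unfold rotMap
  exact (sq_eq_sq₀ (norm_nonneg _) (norm_nonneg _)).1 h3

/-- the rotation as a linear isometry equivalence -/
def rotLI (e : E n) (he : ‖e‖ = 1) (θ : ℝ) : E n →ₗᵢ[ℂ] E n where
  toLinearMap :=
    { toFun := rotMap e θ
      map_add' := by
        intro x y
        unfold rotMap
        rw [inner_add_right]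
        module
      map_smul' := by
        intro c x
        unfold rotMap
        rw [inner_smul_right]
        simp only [RingHom.id_apply]
        module }
  norm_map' := fun x => norm_rotMap e he θ x

theorem measurePreserving_of_isometry (L : E n →ₗᵢ[ℂ] E n) :
    MeasurePreserving L (volume : Measure (E n)) volume := by
  have h := (L.toLinearIsometryEquiv rfl)
  let L' : E n ≃ₗᵢ[ℝ] E n :=
    { (L.toLinearIsometryEquiv rfl).toLinearEquiv.restrictScalars ℝ with
      norm_map' := fun x => L.norm_map x }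
  exact L'.measurePreserving

/-! one-dimensional moments -/

def JJ (p j : ℕ) : ℝ := ∫ y in (0:ℝ)..1, y ^ (2 * j + 1) * (1 - y ^ 2) ^ p

theorem JJ_rec (p j : ℕ) : ((j : ℝ) + p + 2) * JJ p (j + 1) = (j + 1) * JJ p j := by
  -- derivative of y^(2j+2) (1-y²)^(p+1)
  have h1 : ∀ y : ℝ, HasDerivAt (fun y : ℝ => y ^ (2 * j + 2) * (1 - y ^ 2) ^ (p + 1))
      (2 * ((j + 1) * (y ^ (2 * j + 1) * (1 - y ^ 2) ^ p) -
        (j + p + 2) * (y ^ (2 * (j + 1) + 1) * (1 - y ^ 2) ^ p))) y := by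
    intro y
    have ha : HasDerivAt (fun y : ℝ => y ^ (2 * j + 2)) (((2 * j + 2 : ℕ) : ℝ) * y ^ (2 * j + 1)) y := by
      have := hasDerivAt_pow (2 * j + 2) y
      simpa using this
    have hb : HasDerivAt (fun y : ℝ => (1 - y ^ 2)) (-(2 * y)) y := by
      have := (hasDerivAt_pow 2 y).const_sub 1
      simpa using this
    have hc : HasDerivAt (fun y : ℝ => (1 - y ^ 2) ^ (p + 1))
        (((p + 1 : ℕ) : ℝ) * (1 - y ^ 2) ^ p * (-(2 * y))) y := by
      have := hb.fun_pow (p + 1)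
      simpa using this
    have hd := ha.mul hc
    refine hd.congr_deriv ?_
    push_cast
    ring
  have h2 : ∫ y in (0:ℝ)..1, (2 * ((j + 1) * (y ^ (2 * j + 1) * (1 - y ^ 2) ^ p) -
        (j + p + 2) * (y ^ (2 * (j + 1) + 1) * (1 - y ^ 2) ^ p))) = 0 := by
    rw [intervalIntegral.integral_eq_sub_of_hasDerivAt (fun y _ => h1 y)]
    · simp
    · apply Continuous.intervalIntegrable
      fun_prop
  rw [intervalIntegral.integral_const_mul, intervalIntegral.integral_sub,
    intervalIntegral.integral_const_mul, intervalIntegral.integral_const_mul] at h2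
  · unfold JJ
    linarith
  · apply Continuous.intervalIntegrable
    fun_prop
  · apply Continuous.intervalIntegrable
    fun_prop

theorem JJ_choose (p j : ℕ) : JJ p j * ((p + 1 + j).choose j : ℝ) = JJ p 0 := by
  induction j with
  | zero => simp
  | succ j ih =>
    have h1 := JJ_rec p j
    have h2 : ((p + 1 + (j + 1)).choose (j + 1) : ℝ) * (j + 1) = (p + 1 + j).choose j * (p + 1 + j + 1) := by
      have := Nat.add_one_mul_choose_eq (p + 1 + j) j
      have h3 : ((p + 1 + j + 1 : ℕ) : ℝ) * ((p + 1 + j).choose j : ℝ) =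
        ((p + 1 + j + 1).choose (j + 1) : ℝ) * ((j + 1 : ℕ) : ℝ) := by exact_mod_cast this
      push_cast at h3
      rw [show p + 1 + (j + 1) = p + 1 + j + 1 by ring]
      linarith
    have hj : ((j : ℝ) + 1) ≠ 0 := by positivity
    apply mul_left_cancel₀ hj
    calc (↑j + 1) * (JJ p (j + 1) * ((p + 1 + (j + 1)).choose (j + 1) : ℝ))
        = JJ p (j + 1) * (((p + 1 + (j + 1)).choose (j + 1) : ℝ) * (j + 1)) := by ring
      _ = ((j : ℝ) + p + 2) * JJ p (j + 1) * (p + 1 + j).choose j := by rw [h2]; ring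
      _ = (j + 1) * (JJ p j * (p + 1 + j).choose j) := by rw [h1]; ring
      _ = (j + 1) * JJ p 0 := by rw [ih]

/-- positive part power -/
def pp (M : ℕ) (x : ℝ) : ℝ := (max 0 x) ^ M

theorem pp_continuous (M : ℕ) : Continuous (pp M) := by unfold pp; fun_prop

theorem pp_of_nonpos {M : ℕ} (hM : 0 < M) {x : ℝ} (hx : x ≤ 0) : pp M x = 0 := by
  unfold pp; rw [max_eq_left hx, zero_pow hM.ne']

theorem pp_of_nonneg {M : ℕ} {x : ℝ} (hx : 0 ≤ x) : pp M x = x ^ M := by
  unfold pp; rw [max_eq_right hx]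

theorem pp_mul {M : ℕ} {a x : ℝ} (ha : 0 ≤ a) : pp M (a * x) = a ^ M * pp M x := by
  unfold pp
  rw [← mul_pow, mul_max_of_nonneg _ _ ha, mul_zero]

/-- integral over `ℂ` of a radial function -/
theorem integral_disc (p j : ℕ) (hp : 0 < p) :
    ∫ l : ℂ, ‖l‖ ^ (2 * j) * pp p (1 - ‖l‖ ^ 2) =
      2 * (volume : Measure ℂ).real (ball 0 1) * JJ p j := by
  have h := integral_fun_norm_addHaar (volume : Measure ℂ) (fun y : ℝ => y ^ (2 * j) * pp p (1 - y ^ 2))
  rw [h, Complex.finrank_real_complex]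
  simp only [smul_eq_mul, nsmul_eq_mul]
  have h2 : ∫ y in Ioi (0:ℝ), y ^ (2 - 1) * (y ^ (2 * j) * pp p (1 - y ^ 2)) = JJ p j := by
    unfold JJ
    rw [intervalIntegral.integral_of_le zero_le_one]
    have h3 : ∫ y in Ioi (0:ℝ), y ^ (2 - 1) * (y ^ (2 * j) * pp p (1 - y ^ 2)) =
        ∫ y in Ioc (0:ℝ) 1, y ^ (2 - 1) * (y ^ (2 * j) * pp p (1 - y ^ 2)) := by
      apply setIntegral_eq_of_subset_of_forall_sdiff_eq_zero measurableSet_Ioi Ioc_subset_Ioi_self
      intro y hy
      have hy1 : 1 < y := by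
        by_contra hcon
        exact hy.2 ⟨hy.1, not_lt.1 hcon⟩
      rw [pp_of_nonpos hp (by nlinarith)]
      ring
    rw [h3]
    apply setIntegral_congr_fun measurableSet_Ioc
    intro y hy
    simp only
    rw [pp_of_nonneg (by nlinarith [hy.1, hy.2])]
    ring
  rw [h2]
  push_cast
  ring

/-- inner integral by scaling -/
theorem integral_scaling (m M : ℕ) (hM : 0 < M) (a : ℝ) :
    ∫ y : Fin m → ℂ, pp M (a - ∑ i, ‖y i‖ ^ 2) =
      pp (M + m) a * ∫ y : Fin m → ℂ, pp M (1 - ∑ i, ‖y i‖ ^ 2) := by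
  rcases le_or_gt a 0 with ha | ha
  · rw [pp_of_nonpos (by omega) ha, zero_mul]
    have : ∀ y : Fin m → ℂ, pp M (a - ∑ i, ‖y i‖ ^ 2) = 0 := by
      intro y
      apply pp_of_nonpos hM
      have : 0 ≤ ∑ i, ‖y i‖ ^ 2 := Finset.sum_nonneg fun i _ => sq_nonneg _
      linarith
    simp [this]
  · set R := Real.sqrt a with hR
    have hR0 : 0 < R := Real.sqrt_pos.2 ha
    have hR2 : R ^ 2 = a := Real.sq_sqrt ha.le
    have h1 : ∀ y : Fin m → ℂ, pp M (a - ∑ i, ‖y i‖ ^ 2) =
        a ^ M * pp M (1 - ∑ i, ‖(R⁻¹ • y) i‖ ^ 2) := by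
      intro y
      rw [← pp_mul ha.le]
      congr 1
      rw [mul_sub, mul_one, Finset.mul_sum]
      congr 1
      apply Finset.sum_congr rfl
      intro i _
      rw [Pi.smul_apply, norm_smul, mul_pow, Real.norm_of_nonneg (by positivity), ← hR2]
      field_simp
    simp_rw [h1]
    rw [integral_const_mul, Measure.integral_comp_smul volume
      (fun y : Fin m → ℂ => pp M (1 - ∑ i, ‖y i‖ ^ 2)) R⁻¹]
    have h2 : Module.finrank ℝ (Fin m → ℂ) = 2 * m := by
      rw [Module.finrank_pi_fintype]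
      simp [Complex.finrank_real_complex, mul_comm]
    rw [h2, pp_of_nonneg ha.le, smul_eq_mul]
    have h3 : |((R⁻¹) ^ (2 * m))⁻¹| = a ^ m := by
      rw [abs_of_nonneg (by positivity), inv_pow, inv_inv, pow_mul, hR2]
    rw [h3, pow_add]
    ring

theorem integrable_prodfun (m M j : ℕ) (hM : 0 < M) :
    Integrable (fun p : ℂ × (Fin m → ℂ) => ‖p.1‖ ^ (2 * j) *
      pp M (1 - ‖p.1‖ ^ 2 - ∑ i, ‖p.2 i‖ ^ 2)) (volume.prod volume) := by
  have hc : Continuous (fun p : ℂ × (Fin m → ℂ) => ‖p.1‖ ^ (2 * j) *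
      pp M (1 - ‖p.1‖ ^ 2 - ∑ i, ‖p.2 i‖ ^ 2)) := by
    apply Continuous.mul (by fun_prop)
    apply (pp_continuous M).comp
    fun_prop
  apply hc.integrable_of_hasCompactSupport
  apply HasCompactSupport.intro (isCompact_closedBall (0 : ℂ × (Fin m → ℂ)) 1)
  intro p hp
  rw [mem_closedBall_zero_iff, not_le] at hp
  have : 1 - ‖p.1‖ ^ 2 - ∑ i, ‖p.2 i‖ ^ 2 ≤ 0 := by
    have hs : 0 ≤ ∑ i, ‖p.2 i‖ ^ 2 := Finset.sum_nonneg fun i _ => sq_nonneg _
    rw [Prod.norm_def, lt_max_iff] at hp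
    rcases hp with hp | hp
    · nlinarith
    · by_contra hcon
      push Not at hcon
      have : ‖p.2‖ ≤ 1 := by
        rw [pi_norm_le_iff_of_nonneg zero_le_one]
        intro i
        have h1 : ‖p.2 i‖ ^ 2 ≤ ∑ i, ‖p.2 i‖ ^ 2 :=
          Finset.single_le_sum (f := fun i => ‖p.2 i‖ ^ 2) (fun i _ => sq_nonneg _) (Finset.mem_univ i)
        have h2 := sq_nonneg ‖p.1‖
        have h3 : ‖p.2 i‖ ^ 2 ≤ 1 := by linarith
        nlinarith [norm_nonneg (p.2 i)]
      linarith
  rw [pp_of_nonpos hM this, mul_zero]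

theorem integral_prodfun (m M j : ℕ) (hM : 0 < M) :
    ∫ p : ℂ × (Fin m → ℂ), ‖p.1‖ ^ (2 * j) * pp M (1 - ‖p.1‖ ^ 2 - ∑ i, ‖p.2 i‖ ^ 2)
      ∂(volume.prod volume) =
    JJ (M + m) j * (2 * (volume : Measure ℂ).real (ball 0 1) *
      ∫ y : Fin m → ℂ, pp M (1 - ∑ i, ‖y i‖ ^ 2)) := by
  rw [integral_prod _ (integrable_prodfun m M j hM)]
  have h : ∀ l : ℂ, ∫ y : Fin m → ℂ, ‖l‖ ^ (2 * j) * pp M (1 - ‖l‖ ^ 2 - ∑ i, ‖y i‖ ^ 2) =
      ‖l‖ ^ (2 * j) * pp (M + m) (1 - ‖l‖ ^ 2) * ∫ y : Fin m → ℂ, pp M (1 - ∑ i, ‖y i‖ ^ 2) := by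
    intro l
    rw [integral_const_mul, integral_scaling m M hM (1 - ‖l‖ ^ 2)]
    ring
  simp only [h]
  rw [integral_mul_const, integral_disc _ _ (by omega)]
  ring

theorem setIntegral_pp (M : ℕ) (hM : 0 < M) (F : E n → ℝ) :
    ∫ w in B n, F w * dl w ^ M = ∫ w, F w * pp M (dl w) := by
  have h1 : ∫ w in B n, F w * dl w ^ M = ∫ w in B n, F w * pp M (dl w) := by
    apply setIntegral_congr_fun measurableSet_ball
    intro w hw
    simp only
    rw [pp_of_nonneg (dl_pos hw).le]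
  rw [h1]
  apply setIntegral_eq_integral_of_forall_compl_eq_zero
  intro w hw
  rw [mem_B, not_lt] at hw
  rw [pp_of_nonpos hM, mul_zero]
  unfold dl
  nlinarith

/-- a coordinate system with given first vector -/
theorem exists_coord (m : ℕ) (e : E (m+1)) (he : ‖e‖ = 1) :
    ∃ U : E (m+1) ≃ₗᵢ[ℂ] E (m+1), ∀ w, (U w) 0 = inner ℂ e w := by
  have hv : Orthonormal ℂ (({0} : Set (Fin (m+1))).domRestrict (fun _ => e)) := by
    constructor
    · intro i; simpa using he
    · intro i j hij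
      exact absurd (Subsingleton.elim i j) hij
  obtain ⟨b, hb⟩ := hv.exists_orthonormalBasis_extension_of_card_eq (by simp)
  refine ⟨b.repr, fun w => ?_⟩
  rw [b.repr_apply_apply, hb 0 (by simp)]

theorem measurePreserving_of_isometryEquiv (U : E n ≃ₗᵢ[ℂ] E n) :
    MeasurePreserving U (volume : Measure (E n)) volume := by
  let L' : E n ≃ₗᵢ[ℝ] E n :=
    { U.toLinearEquiv.restrictScalars ℝ with
      norm_map' := fun x => U.norm_map x }
  exact L'.measurePreserving

/-- volume on `E n` versus product volume -/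
theorem exists_const_pi (n : ℕ) : ∃ c : ℝ, 0 ≤ c ∧ ∀ F : (Fin n → ℂ) → ℝ,
    ∫ w : E n, F (fun i => w i) = c * ∫ x : Fin n → ℂ, F x := by
  let L : E n ≃L[ℝ] (Fin n → ℂ) := PiLp.continuousLinearEquiv 2 ℝ (fun _ : Fin n => ℂ)
  have h1 : (volume.map L : Measure (Fin n → ℂ)).IsAddHaarMeasure :=
    L.isAddHaarMeasure_map _
  obtain ⟨c, h2⟩ : ∃ c : NNReal, (volume.map L : Measure (Fin n → ℂ)) = c • volume :=
    ⟨_, Measure.isAddLeftInvariant_eq_smul (volume.map L : Measure (Fin n → ℂ)) volume⟩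
  refine ⟨(c : ℝ), NNReal.coe_nonneg _, fun F => ?_⟩
  have h3 : ∫ x, F x ∂(volume.map L) = ∫ w : E n, F (fun i => w i) :=
    L.toHomeomorph.measurableEmbedding.integral_map (μ := (volume : Measure (E n))) F
  rw [← h3, h2, integral_smul_nnreal_measure]
  rfl

theorem moment (hn : 0 < n) (e : E n) (he : ‖e‖ = 1) (j M : ℕ) (hM : 0 < M) :
    (∫ w in B n, ‖(inner ℂ e w : ℂ)‖ ^ (2 * j) * dl w ^ M) * ((n + M + j).choose j : ℝ) =
      ∫ w in B n, dl w ^ M := by
  obtain ⟨m, rfl⟩ : ∃ m, n = m + 1 := ⟨n - 1, by omega⟩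
  obtain ⟨U, hU⟩ := exists_coord m e he
  obtain ⟨c, hc0, hc⟩ := exists_const_pi (m + 1)
  set κ := c * (2 * (volume : Measure ℂ).real (ball 0 1) *
      ∫ y : Fin m → ℂ, pp M (1 - ∑ i, ‖y i‖ ^ 2)) with hκ
  have key : ∀ j : ℕ, ∫ w in B (m+1), ‖(inner ℂ e w : ℂ)‖ ^ (2 * j) * dl w ^ M =
      JJ (M + m) j * κ := by
    intro j
    rw [setIntegral_pp M hM]
    have h1 : ∫ w : E (m+1), ‖(inner ℂ e w : ℂ)‖ ^ (2 * j) * pp M (dl w) =
        ∫ w : E (m+1), ‖w 0‖ ^ (2 * j) * pp M (dl w) := by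
      have h2 := (measurePreserving_of_isometryEquiv U).integral_comp
        U.toHomeomorph.measurableEmbedding (fun w : E (m+1) => ‖w 0‖ ^ (2 * j) * pp M (dl w))
      rw [← h2]
      apply integral_congr_ae
      filter_upwards with w
      rw [hU]
      unfold dl
      rw [U.norm_map]
    rw [h1]
    have h3 : ∀ w : E (m+1), ‖w 0‖ ^ (2 * j) * pp M (dl w) =
        (fun x : Fin (m+1) → ℂ => ‖x 0‖ ^ (2 * j) * pp M (1 - ∑ i, ‖x i‖ ^ 2)) (fun i => w i) := by
      intro w
      simp only [dl, EuclideanSpace.norm_sq_eq]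
    refine (integral_congr_ae (Filter.Eventually.of_forall h3)).trans ?_
    refine (hc (fun x : Fin (m+1) → ℂ => ‖x 0‖ ^ (2 * j) * pp M (1 - ∑ i, ‖x i‖ ^ 2))).trans ?_
    have h4 := (volume_preserving_piFinSuccAbove (fun _ : Fin (m+1) => ℂ) 0).integral_comp'
      (fun p : ℂ × (Fin m → ℂ) => ‖p.1‖ ^ (2 * j) * pp M (1 - ‖p.1‖ ^ 2 - ∑ i, ‖p.2 i‖ ^ 2))
    have h5 := integral_prodfun m M j hM
    rw [hκ]
    have h6 : ∫ x : Fin (m+1) → ℂ, ‖x 0‖ ^ (2 * j) * pp M (1 - ∑ i, ‖x i‖ ^ 2) =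
      ∫ x : Fin (m+1) → ℂ, (fun p : ℂ × (Fin m → ℂ) => ‖p.1‖ ^ (2 * j) *
        pp M (1 - ‖p.1‖ ^ 2 - ∑ i, ‖p.2 i‖ ^ 2)) ((MeasurableEquiv.piFinSuccAbove (fun _ : Fin (m+1) => ℂ) 0) x) := by
      apply integral_congr_ae
      filter_upwards with x
      simp only [MeasurableEquiv.piFinSuccAbove, Fin.sum_univ_succ, sub_sub]
      rfl
    rw [h6, h4]
    change c * (∫ p : ℂ × (Fin m → ℂ), ‖p.1‖ ^ (2 * j) * pp M (1 - ‖p.1‖ ^ 2 - ∑ i, ‖p.2 i‖ ^ 2)
      ∂(volume.prod volume)) = _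
    rw [h5]
    ring
  have h0 := key 0
  simp only [mul_zero, pow_zero, one_mul] at h0
  rw [key j, h0, ← JJ_choose (M + m) j]
  have : m + 1 + M + j = M + m + 1 + j := by ring
  rw [this]
  ring

/-! series lemmas in one variable -/

/-- Taylor coefficients at `0` -/
def tc (φ : ℂ → ℂ) (j : ℕ) : ℂ := ((j.factorial : ℕ) : ℂ)⁻¹ * iteratedDeriv j φ 0

theorem hasSum_tc {φ : ℂ → ℂ} (hφ : DifferentiableOn ℂ φ (ball 0 1)) {l : ℂ} (hl : ‖l‖ < 1) :
    HasSum (fun j : ℕ => tc φ j * l ^ j) (φ l) := by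
  have h := Complex.hasSum_taylorSeries_on_ball (r := 1) (c := 0) (z := l) hφ (by simpa using hl)
  refine h.congr_fun ?_ 
  intro j
  simp only [tc, sub_zero, smul_eq_mul]
  ring

theorem hasSum_tc_deriv {φ : ℂ → ℂ} (hφ : DifferentiableOn ℂ φ (ball 0 1)) {l : ℂ} (hl : ‖l‖ < 1) :
    HasSum (fun j : ℕ => (j : ℂ) * tc φ j * l ^ j) (l * deriv φ l) := by
  have h := (hasSum_tc (hφ.deriv isOpen_ball) hl).mul_left l
  have h2 : HasSum (fun j : ℕ => ((j + 1 : ℕ) : ℂ) * tc φ (j + 1) * l ^ (j + 1)) (l * deriv φ l) := by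
    refine h.congr_fun ?_
    intro j
    simp only [tc, iteratedDeriv_succ', Nat.factorial_succ]
    push_cast
    have h3 : ((j : ℂ) + 1) ≠ 0 := by exact_mod_cast Nat.succ_ne_zero j
    have h4 : ((j.factorial : ℕ) : ℂ) ≠ 0 := by exact_mod_cast j.factorial_ne_zero
    field_simp
    ring
  rw [← hasSum_nat_add_iff' 1]
  simpa using h2

theorem integral_exp_orth (j k : ℕ) :
    ∫ θ in Ioc 0 (2 * Real.pi), Complex.exp (θ * Complex.I) ^ j * Complex.exp (-(θ * Complex.I)) ^ k =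
      if j = k then ((2 * Real.pi : ℝ) : ℂ) else 0 := by
  rw [← intervalIntegral.integral_of_le (by positivity)]
  have h1 : ∀ θ : ℝ, Complex.exp (θ * Complex.I) ^ j * Complex.exp (-(θ * Complex.I)) ^ k =
      Complex.exp ((((j : ℂ) - k) * Complex.I) * θ) := by
    intro θ
    rw [← Complex.exp_nat_mul, ← Complex.exp_nat_mul, ← Complex.exp_add]
    congr 1
    ring
  simp_rw [h1]
  split_ifs with h
  · subst h
    simp
  · have hne : ((j : ℂ) - k) * Complex.I ≠ 0 := by
      apply mul_ne_zero _ Complex.I_ne_zero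
      rw [sub_ne_zero]
      exact_mod_cast h
    rw [integral_exp_mul_complex hne]
    have h2 : Complex.exp (((j : ℂ) - k) * Complex.I * ((2 * Real.pi : ℝ) : ℂ)) = 1 := by
      rw [Complex.exp_eq_one_iff]
      refine ⟨(j : ℤ) - k, ?_⟩
      push_cast
      ring
    rw [h2]
    simp

theorem norm_expI (θ : ℝ) : ‖Complex.exp (θ * Complex.I)‖ = 1 := Complex.norm_exp_ofReal_mul_I θ

theorem norm_expI' (θ : ℝ) : ‖Complex.exp (-(θ * Complex.I))‖ = 1 := by
  rw [show -((θ:ℂ) * Complex.I) = ((-θ : ℝ) : ℂ) * Complex.I by push_cast; ring]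
  exact Complex.norm_exp_ofReal_mul_I _

/-- Parseval on a circle -/
theorem hasSum_circle {a b : ℕ → ℂ} {G K : ℂ → ℂ} {l m : ℂ}
    (hG : ∀ θ : ℝ, HasSum (fun j => a j * (Complex.exp (θ * Complex.I) * l) ^ j)
      (G (Complex.exp (θ * Complex.I) * l)))
    (hK : ∀ θ : ℝ, HasSum (fun j => b j * (Complex.exp (-(θ * Complex.I)) * m) ^ j)
      (K (Complex.exp (-(θ * Complex.I)) * m))) :
    HasSum (fun j => ((2 * Real.pi : ℝ) : ℂ) * (a j * b j * (l ^ j * m ^ j)))
      (∫ θ in Ioc 0 (2 * Real.pi), G (Complex.exp (θ * Complex.I) * l) *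
        K (Complex.exp (-(θ * Complex.I)) * m)) := by
  have ha : Summable (fun j => ‖a j * l ^ j‖) := by
    have := (hG 0).summable.norm
    simpa using this
  have hb : Summable (fun j => ‖b j * m ^ j‖) := by
    have := (hK 0).summable.norm
    simpa using this
  let F : ℕ × ℕ → ℝ → ℂ := fun p θ => (a p.1 * (Complex.exp (θ * Complex.I) * l) ^ p.1) *
    (b p.2 * (Complex.exp (-(θ * Complex.I)) * m) ^ p.2)
  have hFn : ∀ p θ, ‖F p θ‖ = ‖a p.1 * l ^ p.1‖ * ‖b p.2 * m ^ p.2‖ := by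
    intro p θ
    simp only [F, norm_mul, norm_pow, norm_expI, norm_expI', one_mul]
  have hFc : ∀ p, Continuous (F p) := by
    intro p
    simp only [F]
    fun_prop
  have h1 := hasSum_integral_of_summable_integral_norm (μ := volume.restrict (Ioc 0 (2 * Real.pi)))
    (F := F) (fun p => (hFc p).integrableOn_Ioc) (by
      simp_rw [hFn, integral_const]
      exact (ha.mul_of_nonneg hb (fun _ => norm_nonneg _) (fun _ => norm_nonneg _)).const_smul _)
  have h2 : ∀ θ : ℝ, ∑' p, F p θ = G (Complex.exp (θ * Complex.I) * l) *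
        K (Complex.exp (-(θ * Complex.I)) * m) := by
    intro θ
    have hs := summable_mul_of_summable_norm (hG θ).summable.norm (hK θ).summable.norm
    exact ((hG θ).mul (hK θ) hs).tsum_eq
  simp_rw [h2] at h1
  have h3 : ∀ p : ℕ × ℕ, ∫ θ in Ioc 0 (2 * Real.pi), F p θ =
      a p.1 * l ^ p.1 * (b p.2 * m ^ p.2) * (if p.1 = p.2 then ((2 * Real.pi : ℝ) : ℂ) else 0) := by
    intro p
    rw [← integral_exp_orth, ← integral_const_mul]
    apply integral_congr_ae
    filter_upwards with θ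
    simp only [F]
    ring
  have hinj : Function.Injective (fun j : ℕ => ((j, j) : ℕ × ℕ)) := fun x y h => by
    simpa using congrArg Prod.fst h
  have h4 := (hinj.hasSum_iff (f := fun p : ℕ × ℕ => ∫ θ in Ioc 0 (2 * Real.pi), F p θ) (by
    intro p hp
    rw [h3, if_neg, mul_zero]
    intro h
    exact hp ⟨p.1, by ext <;> simp [h]⟩)).2 h1
  refine h4.congr_fun ?_
  intro j
  simp only [Function.comp, h3, if_true]
  ring

theorem rotMap_continuous (e : E n) : Continuous (Function.uncurry (rotMap e)) := by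
  unfold Function.uncurry rotMap
  have h1 : Continuous (fun a : ℝ × E n => (inner ℂ e a.2 : ℂ)) := by fun_prop
  have h2 : Continuous (fun a : ℝ × E n => Complex.exp ((a.1 : ℂ) * Complex.I)) := by fun_prop
  exact (h1.smul continuous_const).add (h2.smul (continuous_snd.sub (h1.smul continuous_const)))

theorem measurePreserving_restrict_B (f : E n → E n) (hf : MeasurePreserving f (volume : Measure (E n)) volume)
    (hn : ∀ w, ‖f w‖ = ‖w‖) :
    MeasurePreserving f ((volume : Measure (E n)).restrict (B n)) (volume.restrict (B n)) := by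
  have h := hf.restrict_preimage (s := B n) measurableSet_ball
  have h2 : f ⁻¹' (B n) = B n := by
    ext w
    simp only [mem_preimage, mem_B, hn]
  rwa [h2] at h

theorem rotMap_mp (e : E n) (he : ‖e‖ = 1) (θ : ℝ) :
    MeasurePreserving (rotMap e θ) ((volume : Measure (E n)).restrict (B n)) (volume.restrict (B n)) :=
  measurePreserving_restrict_B _ (measurePreserving_of_isometry (rotLI e he θ)) (norm_rotMap e he θ)

/-- scalar rotation -/
def circLI (θ : ℝ) : E n →ₗᵢ[ℂ] E n where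
  toLinearMap :=
    { toFun := fun w => Complex.exp (θ * Complex.I) • w
      map_add' := by intro x y; rw [smul_add]
      map_smul' := by intro c x; simp only [RingHom.id_apply]; rw [smul_comm] }
  norm_map' := by
    intro x
    change ‖Complex.exp (θ * Complex.I) • x‖ = ‖x‖
    rw [norm_smul, norm_expI, one_mul]

theorem circ_mp (θ : ℝ) :
    MeasurePreserving (fun w : E n => Complex.exp (θ * Complex.I) • w)
      ((volume : Measure (E n)).restrict (B n)) (volume.restrict (B n)) :=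
  measurePreserving_restrict_B _ (measurePreserving_of_isometry (circLI θ))
    (fun w => (circLI θ).norm_map w)

theorem norm_sq_decomp (e : E n) (he : ‖e‖ = 1) (w : E n) (c : ℂ) :
    ‖(inner ℂ e w : ℂ) • e + c • (w - (inner ℂ e w : ℂ) • e)‖ ^ 2 =
      ‖(inner ℂ e w : ℂ)‖ ^ 2 + ‖c‖ ^ 2 * ‖w - (inner ℂ e w : ℂ) • e‖ ^ 2 := by
  have h1 : (inner ℂ e e : ℂ) = 1 := by rw [inner_self_eq_norm_sq_to_K, he]; simp
  have h2 : (inner ℂ ((inner ℂ e w : ℂ) • e) (c • (w - (inner ℂ e w : ℂ) • e)) : ℂ) = 0 := by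
    rw [inner_smul_left, inner_smul_right, inner_sub_right, inner_smul_right, h1]
    ring
  rw [@norm_add_sq ℂ, h2, norm_smul c, norm_smul _ e, he]
  simp only [map_zero, mul_zero, add_zero, mul_one, mul_pow]

theorem mean_rot (h : E n → ℂ) (hh : DifferentiableOn ℂ h (B n)) (e : E n) (he : ‖e‖ = 1) (w : E n)
    (hw : w ∈ B n) :
    ∫ θ in Ioc 0 (2 * Real.pi), h (rotMap e θ w) =
      ((2 * Real.pi : ℝ) : ℂ) * h ((inner ℂ e w : ℂ) • e) := by
  set φ : ℂ → ℂ := fun t => h ((inner ℂ e w : ℂ) • e + t • (w - (inner ℂ e w : ℂ) • e)) with hφ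
  have hmem : ∀ t : ℂ, ‖t‖ ≤ 1 → (inner ℂ e w : ℂ) • e + t • (w - (inner ℂ e w : ℂ) • e) ∈ B n := by
    intro t ht
    rw [mem_B]
    rw [mem_B] at hw
    have h1 := norm_sq_decomp e he w t
    have h2 := norm_sq_decomp e he w 1
    rw [one_smul, add_sub_cancel] at h2
    have h3 : ‖t‖ ^ 2 * ‖w - (inner ℂ e w : ℂ) • e‖ ^ 2 ≤ 1 * ‖w - (inner ℂ e w : ℂ) • e‖ ^ 2 := by
      apply mul_le_mul_of_nonneg_right _ (sq_nonneg _)
      have := norm_nonneg t
      nlinarith
    rw [norm_one] at h2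
    have h4 := norm_nonneg w
    have h5 := norm_nonneg ((inner ℂ e w : ℂ) • e + t • (w - (inner ℂ e w : ℂ) • e))
    nlinarith
  have hd : DiffContOnCl ℂ φ (ball 0 |1|) := by
    apply DifferentiableOn.diffContOnCl
    rw [abs_one, closure_ball _ one_ne_zero]
    intro t ht
    rw [mem_closedBall_zero_iff] at ht
    have hopen : IsOpen (B n) := isOpen_ball
    have hat := hh.differentiableAt (hopen.mem_nhds (hmem t ht))
    have := (hasDerivAt_line (g := h) (z := (inner ℂ e w : ℂ) • e) (v := w - (inner ℂ e w : ℂ) • e)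
      (ζ := t) hat).differentiableAt
    exact this.differentiableWithinAt
  have h1 := hd.circleAverage
  rw [Real.circleAverage_def] at h1
  have h2 : φ 0 = h ((inner ℂ e w : ℂ) • e) := by simp [hφ]
  rw [h2] at h1
  rw [← h1, intervalIntegral.integral_of_le (by positivity), Complex.real_smul, ← mul_assoc]
  have h3 : ((2 * Real.pi : ℝ) : ℂ) * (((2 * Real.pi)⁻¹ : ℝ) : ℂ) = 1 := by
    rw [← Complex.ofReal_mul, mul_inv_cancel₀ (by positivity), Complex.ofReal_one]
  rw [h3, one_mul]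
  apply integral_congr_ae
  filter_upwards with θ
  simp only [hφ, circleMap, rotMap]
  congr 3
  simp

theorem core (h : E n → ℂ) (hh : DifferentiableOn ℂ h (B n)) (M N' : ℕ)
    (hint : IntegrableOn (fun w => h w * ((dl w : ℝ) : ℂ) ^ M) (B n)) (e : E n) (he : ‖e‖ = 1)
    (r : ℝ) (hr0 : 0 ≤ r) (hr1 : r < 1) (c : ℕ → ℂ)
    (hc : ∀ l : ℂ, ‖l‖ < 1 → HasSum (fun j => c j * l ^ j) (h (l • e)))
    (hsum : Summable (fun j => ‖c j‖ * ((j + N').choose N' : ℝ) * r ^ j *
      ∫ w in B n, ‖(inner ℂ e w : ℂ)‖ ^ (2 * j) * dl w ^ M)) :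
    HasSum (fun j => c j * ((j + N').choose N' : ℂ) * (r : ℂ) ^ j *
      ((∫ w in B n, ‖(inner ℂ e w : ℂ)‖ ^ (2 * j) * dl w ^ M : ℝ) : ℂ))
      (∫ w in B n, h w * ((dl w : ℝ) : ℂ) ^ M / (q ((r : ℂ) • e) w) ^ (N' + 1)) := by
  set μ := (volume : Measure (E n)).restrict (B n) with hμ
  have hμfin : IsFiniteMeasure μ := ⟨by
    rw [hμ, Measure.restrict_apply_univ]; exact measure_ball_lt_top⟩
  set K : ℂ → ℂ := fun x => 1 / (1 - r * x) ^ (N' + 1) with hK
  have hinner : ∀ w ∈ B n, ‖(inner ℂ e w : ℂ)‖ < 1 := by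
    intro w hw
    rw [mem_B] at hw
    have := norm_inner_le_norm (𝕜 := ℂ) e w
    rw [he, one_mul] at this
    linarith
  have hq : ∀ w, q ((r : ℂ) • e) w = 1 - r * (starRingEnd ℂ) (inner ℂ e w) := by
    intro w
    unfold q
    rw [inner_smul_right, inner_conj_symm]
  have hKs : ∀ x : ℂ, ‖x‖ ≤ 1 → HasSum (fun j : ℕ => (((j + N').choose N' : ℂ) * (r : ℂ) ^ j) * x ^ j)
      (K x) := by
    intro x hx
    have hrx : ‖(r : ℂ) * x‖ < 1 := by
      rw [norm_mul, Complex.norm_real, Real.norm_of_nonneg hr0]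
      nlinarith [norm_nonneg x]
    have h1 := hasSum_choose_mul_geometric_of_norm_lt_one N' hrx
    refine h1.congr_fun ?_
    intro j
    rw [mul_pow]
    ring
  -- step A
  set F : E n → ℂ := fun w => h w * ((dl w : ℝ) : ℂ) ^ M * K ((starRingEnd ℂ) (inner ℂ e w)) with hF
  have hFq : ∀ w, h w * ((dl w : ℝ) : ℂ) ^ M / (q ((r : ℂ) • e) w) ^ (N' + 1) = F w := by
    intro w
    rw [hq, hF, hK]
    simp only
    rw [div_eq_mul_one_div]
  simp_rw [hFq]
  have hKm : Measurable K := by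
    rw [hK]
    fun_prop
  have hinm : Continuous (fun w : E n => (starRingEnd ℂ) (inner ℂ e w)) := by
    apply Complex.continuous_conj.comp
    fun_prop
  have hKb : ∀ w ∈ B n, ‖K ((starRingEnd ℂ) (inner ℂ e w))‖ ≤ 1 / (1 - r) ^ (N' + 1) := by
    intro w hw
    rw [hK]
    simp only
    rw [norm_div, norm_one, norm_pow]
    apply one_div_le_one_div_of_le
    · exact pow_pos (by linarith) _
    · apply pow_le_pow_left₀ (by linarith)
      have h1 := norm_sub_norm_le (1:ℂ) (r * (starRingEnd ℂ) (inner ℂ e w))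
      rw [norm_one, norm_mul, Complex.norm_conj, Complex.norm_real, Real.norm_of_nonneg hr0] at h1
      have h2 := hinner w hw
      nlinarith [norm_nonneg (inner ℂ e w : ℂ)]
  have hFint : Integrable F μ := by
    rw [hF]
    apply Integrable.mul_bdd (c := 1 / (1 - r) ^ (N' + 1)) hint
    · exact (hKm.comp hinm.measurable).aestronglyMeasurable
    · filter_upwards [ae_restrict_mem measurableSet_ball] with w hw
      exact hKb w hw
  obtain ⟨hA1, hA2⟩ := integral_avg μ (rotMap e) (rotMap_continuous e).measurable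
    (rotMap_mp e he) F hFint
  set F2 : E n → ℂ := fun w => h ((inner ℂ e w : ℂ) • e) * ((dl w : ℝ) : ℂ) ^ M *
    K ((starRingEnd ℂ) (inner ℂ e w)) with hF2
  have hA3 : ∀ᵐ w ∂μ, ∫ θ in Ioc 0 (2 * Real.pi), F (rotMap e θ w) = ((2 * Real.pi : ℝ) : ℂ) * F2 w := by
    filter_upwards [ae_restrict_mem measurableSet_ball] with w hw
    have h1 : ∀ θ, F (rotMap e θ w) = h (rotMap e θ w) * (((dl w : ℝ) : ℂ) ^ M *
        K ((starRingEnd ℂ) (inner ℂ e w))) := by
      intro θ
      rw [hF]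
      simp only
      rw [inner_rotMap e he, mul_assoc]
      congr 2
      unfold dl
      rw [norm_rotMap e he]
    simp_rw [h1]
    rw [integral_mul_const, mean_rot h hh e he w hw, hF2]
    ring
  have h2pi : ((2 * Real.pi : ℝ) : ℂ) ≠ 0 := by
    rw [Complex.ofReal_ne_zero]; positivity
  have hA4 : ∫ w, F2 w ∂μ = ∫ w, F w ∂μ := by
    rw [integral_congr_ae hA3, integral_const_mul] at hA2
    exact mul_left_cancel₀ h2pi hA2
  have hF2int : Integrable F2 μ := by
    have h1 := (hA1.congr hA3).const_mul (((2 * Real.pi : ℝ) : ℂ)⁻¹)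
    refine h1.congr ?_
    filter_upwards with w
    rw [← mul_assoc, inv_mul_cancel₀ h2pi, one_mul]
  -- step B
  have hcont : Continuous (Function.uncurry (fun (θ : ℝ) (w : E n) => Complex.exp (θ * Complex.I) • w)) := by
    unfold Function.uncurry
    have h2 : Continuous (fun a : ℝ × E n => Complex.exp ((a.1 : ℂ) * Complex.I)) := by fun_prop
    exact h2.smul continuous_snd
  obtain ⟨hB1, hB2⟩ := integral_avg μ (fun (θ : ℝ) (w : E n) => Complex.exp (θ * Complex.I) • w)
    hcont.measurable circ_mp F2 hF2int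
  set m : ℕ → ℝ := fun j => ∫ w in B n, ‖(inner ℂ e w : ℂ)‖ ^ (2 * j) * dl w ^ M with hm
  set Fj : ℕ → E n → ℂ := fun j w => (((2 * Real.pi : ℝ) : ℂ) * (c j *
    (((j + N').choose N' : ℂ) * (r : ℂ) ^ j))) * ((‖(inner ℂ e w : ℂ)‖ ^ (2 * j) * dl w ^ M : ℝ) : ℂ) with hFj
  have hB3 : ∀ᵐ w ∂μ, ∫ θ in Ioc 0 (2 * Real.pi), F2 (Complex.exp (θ * Complex.I) • w) = ∑' j, Fj j w := by
    filter_upwards [ae_restrict_mem measurableSet_ball] with w hw
    set l : ℂ := inner ℂ e w with hl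
    have hl1 : ‖l‖ < 1 := hinner w hw
    have hexp : ∀ θ : ℝ, (starRingEnd ℂ) (Complex.exp (θ * Complex.I)) = Complex.exp (-(θ * Complex.I)) := by
      intro θ
      rw [← Complex.exp_conj, map_mul, Complex.conj_ofReal, Complex.conj_I, mul_neg]
    have h1 : ∀ θ : ℝ, F2 (Complex.exp (θ * Complex.I) • w) =
        ((dl w : ℝ) : ℂ) ^ M * ((fun x : ℂ => h (x • e)) (Complex.exp (θ * Complex.I) * l) *
          K (Complex.exp (-(θ * Complex.I)) * (starRingEnd ℂ) l)) := by
      intro θ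
      rw [hF2]
      simp only
      rw [inner_smul_right, map_mul, hexp, ← hl]
      have : dl (Complex.exp (θ * Complex.I) • w) = dl w := by
        unfold dl; rw [norm_smul, norm_expI, one_mul]
      rw [this]
      ring
    simp_rw [h1]
    rw [integral_const_mul]
    have h2 := hasSum_circle (a := c) (b := fun j => ((j + N').choose N' : ℂ) * (r : ℂ) ^ j)
      (G := fun x : ℂ => h (x • e)) (K := K) (l := l) (m := (starRingEnd ℂ) l)
      (fun θ => hc _ (by rw [norm_mul, norm_expI, one_mul]; exact hl1))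
      (fun θ => hKs _ (by rw [norm_mul, norm_expI', one_mul, Complex.norm_conj]; exact hl1.le))
    rw [← (h2.mul_left (((dl w : ℝ) : ℂ) ^ M)).tsum_eq]
    apply tsum_congr
    intro j
    rw [hFj]
    simp only
    rw [← mul_pow, Complex.mul_conj, Complex.normSq_eq_norm_sq]
    push_cast
    rw [pow_mul]
    ring
  have hmcont : ∀ j : ℕ, Continuous (fun w : E n => ‖(inner ℂ e w : ℂ)‖ ^ (2 * j) * dl w ^ M) := by
    intro j
    unfold dl
    fun_prop
  have hmint : ∀ j : ℕ, Integrable (fun w : E n => ‖(inner ℂ e w : ℂ)‖ ^ (2 * j) * dl w ^ M) μ := by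
    intro j
    apply Integrable.of_bound (C := 1) (hmcont j).aestronglyMeasurable
    filter_upwards [ae_restrict_mem measurableSet_ball] with w hw
    have h1 := hinner w hw
    have h2 := dl_pos hw
    have h3 := dl_le_one w
    rw [Real.norm_of_nonneg (by positivity)]
    exact mul_le_one₀ (pow_le_one₀ (norm_nonneg _) h1.le) (by positivity) (pow_le_one₀ h2.le h3)
  have hnorm : ∀ j w, w ∈ B n → ‖Fj j w‖ = (2 * Real.pi * (‖c j‖ * (((j + N').choose N' : ℝ) * r ^ j))) *
      (‖(inner ℂ e w : ℂ)‖ ^ (2 * j) * dl w ^ M) := by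
    intro j w hw
    rw [hFj]
    simp only
    rw [norm_mul, norm_mul, norm_mul, norm_mul, Complex.norm_real, Complex.norm_real, norm_pow,
      Complex.norm_real, Complex.norm_natCast, Real.norm_of_nonneg (by positivity),
      Real.norm_of_nonneg hr0, Real.norm_of_nonneg (mul_nonneg (by positivity) (pow_nonneg (dl_pos hw).le _))]
  have hC := hasSum_integral_of_summable_integral_norm (μ := μ) (F := Fj)
    (fun j => ((hmint j).ofReal).const_mul _) (by
      have h1 : ∀ j, ∫ w, ‖Fj j w‖ ∂μ = 2 * Real.pi * (‖c j‖ * ((j + N').choose N' : ℝ) * r ^ j * m j) := by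
        intro j
        have h2 : ∫ w, ‖Fj j w‖ ∂μ = ∫ w, (2 * Real.pi * (‖c j‖ * (((j + N').choose N' : ℝ) * r ^ j))) *
            (‖(inner ℂ e w : ℂ)‖ ^ (2 * j) * dl w ^ M) ∂μ := by
          apply integral_congr_ae
          filter_upwards [ae_restrict_mem measurableSet_ball] with w hw
          exact hnorm j w hw
        rw [h2, integral_const_mul]
        ring
      simp_rw [h1]
      exact hsum.mul_left _)
  rw [← integral_congr_ae hB3, hB2, hA4] at hC
  have hD := hC.mul_left (((2 * Real.pi : ℝ) : ℂ)⁻¹)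
  rw [← mul_assoc, inv_mul_cancel₀ h2pi, one_mul] at hD
  refine hD.congr_fun ?_
  intro j
  rw [hFj]
  simp only
  rw [integral_const_mul, integral_complex_ofReal]
  field_simp

theorem ME_pos (n : ℕ) : 0 < ME n := by unfold ME sE; omega

theorem volM_pos (_hn : 0 < n) (M : ℕ) : 0 < ∫ w in B n, dl w ^ M := by
  have hcont : Continuous (fun w : E n => dl w ^ M) := by unfold dl; fun_prop
  rw [setIntegral_pos_iff_support_of_nonneg_ae]
  · have h1 : B n ⊆ Function.support (fun w : E n => dl w ^ M) ∩ B n := by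
      intro w hw
      refine ⟨?_, hw⟩
      rw [Function.mem_support]
      exact (pow_pos (dl_pos hw) _).ne'
    exact lt_of_lt_of_le (measure_ball_pos volume 0 one_pos) (measure_mono h1)
  · filter_upwards [ae_restrict_mem measurableSet_ball] with w hw
    exact pow_nonneg (dl_pos hw).le _
  · apply IntegrableOn.mono_set _ ball_subset_closedBall
    exact hcont.continuousOn.integrableOn_compact (isCompact_closedBall 0 1)

theorem integrableOn_Dop (g : E n → ℂ) (hg : DifferentiableOn ℂ g (B n)) (hA : AN g < ⊤)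
    (M : ℕ) (hM : 0 < M) : IntegrableOn (fun w => Dop g w * ((dl w : ℝ) : ℂ) ^ M) (B n) := by
  have hDh : DifferentiableOn ℂ (Dop g) (B n) := differentiableOn_Dop isOpen_ball hg
  have hmeas : AEStronglyMeasurable (fun w => Dop g w * ((dl w : ℝ) : ℂ) ^ M)
      (volume.restrict (B n)) := by
    apply ContinuousOn.aestronglyMeasurable _ measurableSet_ball
    apply ContinuousOn.mul hDh.continuousOn
    apply Continuous.continuousOn
    unfold dl
    fun_prop
  have hAN : AN g = ∫⁻ w in B n, ENNReal.ofReal (dl w * ‖Dop g w‖ ^ 2) := by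
    unfold AN lam
    rw [lintegral_withDensity_eq_lintegral_mul₀']
    · apply setLIntegral_congr_fun measurableSet_ball
      intro w hw
      have hd := dl_pos hw
      simp only [Pi.mul_apply]
      rw [← ofReal_norm, ← ENNReal.ofReal_pow (norm_nonneg _),
        ← ENNReal.ofReal_mul (inv_pos.2 hd).le]
      congr 1
      unfold Aop
      rw [norm_smul, Complex.norm_real, Real.norm_of_nonneg hd.le]
      field_simp
    · apply Measurable.aemeasurable
      apply Measurable.ennreal_ofReal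
      apply Measurable.inv
      unfold dl
      fun_prop
    · have h1 : AEStronglyMeasurable (Aop g) (volume.restrict (B n)) := by
        apply ContinuousOn.aestronglyMeasurable _ measurableSet_ball
        have hcd : ContinuousOn (fun z : E n => ((dl z : ℝ) : ℂ)) (B n) := by
          unfold dl
          fun_prop
        exact hcd.smul hDh.continuousOn
      exact ((h1.mono_ac (withDensity_absolutelyContinuous _ _)).enorm).pow_const 2
  refine ⟨hmeas, ?_⟩
  rw [hasFiniteIntegral_iff_enorm]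
  have h2 : ∫⁻ w in B n, ‖Dop g w * ((dl w : ℝ) : ℂ) ^ M‖ₑ ≤
      ∫⁻ w in B n, (ENNReal.ofReal (dl w * ‖Dop g w‖ ^ 2) + 1) := by
    apply setLIntegral_mono_ae' measurableSet_ball
    filter_upwards with w hw
    have hd := dl_pos hw
    have hd1 := dl_le_one w
    rw [← ofReal_norm, ← ENNReal.ofReal_one, ← ENNReal.ofReal_add (by positivity) zero_le_one]
    apply ENNReal.ofReal_le_ofReal
    rw [norm_mul, norm_pow, Complex.norm_real, Real.norm_of_nonneg hd.le]
    have h3 : dl w ^ M ≤ dl w := by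
      calc dl w ^ M ≤ dl w ^ 1 := pow_le_pow_of_le_one hd.le hd1 hM
        _ = dl w := pow_one _
    have h4 : ‖Dop g w‖ * dl w ^ M ≤ ‖Dop g w‖ * dl w := mul_le_mul_of_nonneg_left h3 (norm_nonneg _)
    nlinarith [sq_nonneg (‖Dop g w‖ - 1), norm_nonneg (Dop g w), mul_nonneg hd.le (sq_nonneg (‖Dop g w‖ - 1))]
  refine lt_of_le_of_lt h2 ?_
  rw [lintegral_add_right _ measurable_const, ← hAN, setLIntegral_one]
  exact ENNReal.add_lt_top.2 ⟨hA, measure_ball_lt_top⟩

theorem fderiv_line (g : E n → ℂ) (hg : DifferentiableOn ℂ g (B n)) (e : E n) (he : ‖e‖ = 1)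
    (l : ℂ) (hl : ‖l‖ < 1) : HasDerivAt (fun t : ℂ => g (t • e)) (fderiv ℂ g (l • e) e) l := by
  have hopen : IsOpen (B n) := isOpen_ball
  have hm : (0 : E n) + l • e ∈ B n := by rw [mem_B, zero_add, norm_smul, he, mul_one]; exact hl
  have := hasDerivAt_line (hg.differentiableAt (hopen.mem_nhds hm))
  simpa using this

end

end Pool.Agent.Lib.MP7ebef4.ReprAux

namespace Pool.Agent.Lib.MP7ebef4

open ReprAux

noncomputable section

variable {n : ℕ}

theorem c1_pos (n : ℕ) (hn : 0 < n) : 0 < c1 n := inv_pos.2 (volM_pos hn (ME n))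

theorem c0_pos (n : ℕ) (hn : 0 < n) : 0 < c0 n := by
  unfold c0
  apply div_pos (c1_pos n hn)
  have : 0 < NE n := by unfold NE; omega
  exact_mod_cast this

/-- the reproducing formula (sec. 3) -/
theorem reproducing (hn : 0 < n) (g : E n → ℂ) (hg : DifferentiableOn ℂ g (B n)) (hA : AN g < ⊤)
    (z : E n) (hz : z ∈ B n) : Sg (Aop g) z = g z := by
  -- direction
  obtain ⟨e, he, hze⟩ : ∃ e : E n, ‖e‖ = 1 ∧ z = ((‖z‖ : ℝ) : ℂ) • e := by
    by_cases hz0 : z = 0
    · refine ⟨EuclideanSpace.basisFun (Fin n) ℂ ⟨0, hn⟩, by simp, by simp [hz0]⟩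
    · refine ⟨((‖z‖ : ℝ) : ℂ)⁻¹ • z, ?_, ?_⟩
      · rw [norm_smul, norm_inv, Complex.norm_real, norm_norm, inv_mul_cancel₀ (norm_ne_zero_iff.2 hz0)]
      · rw [smul_smul, mul_inv_cancel₀, one_smul]
        exact_mod_cast norm_ne_zero_iff.2 hz0
  have hz1 : ‖z‖ < 1 := mem_B.1 hz
  set r := ‖z‖ with hr
  have hM := ME_pos n
  have hDh : DifferentiableOn ℂ (Dop g) (B n) := differentiableOn_Dop isOpen_ball hg
  have hint := integrableOn_Dop g hg hA (ME n) hM
  set φ : ℂ → ℂ := fun t => g (t • e) with hφ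
  have hφd : DifferentiableOn ℂ φ (ball 0 1) := by
    intro l hl
    rw [mem_ball_zero_iff] at hl
    exact (fderiv_line g hg e he l hl).differentiableAt.differentiableWithinAt
  have hN : 0 < NE n := by unfold NE; omega
  obtain ⟨N', hN'⟩ : ∃ N', NE n = N' + 1 := ⟨NE n - 1, by omega⟩
  have hc : ∀ l : ℂ, ‖l‖ < 1 → HasSum (fun j : ℕ => (((j : ℂ) + ((NE n : ℕ) : ℂ)) * tc φ j) * l ^ j)
      (Dop g (l • e)) := by
    intro l hl
    have h1 := hasSum_tc_deriv hφd (l := l) (by simpa using hl)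
    have h2 := (hasSum_tc hφd (l := l) (by simpa using hl)).mul_left ((NE n : ℕ) : ℂ)
    have h3 := h1.add h2
    have h4 : Dop g (l • e) = l * deriv φ l + ((NE n : ℕ) : ℂ) * φ l := by
      unfold Dop
      rw [(fderiv_line g hg e he l hl).deriv, map_smul, smul_eq_mul, smul_eq_mul]
    rw [h4]
    refine h3.congr_fun ?_
    intro j
    ring
  set m0 : ℝ := ∫ w in B n, dl w ^ (ME n) with hm0
  have hm0pos : 0 < m0 := volM_pos hn (ME n)
  set mj : ℕ → ℝ := fun j => ∫ w in B n, ‖(inner ℂ e w : ℂ)‖ ^ (2 * j) * dl w ^ (ME n) with hmj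
  have hmom : ∀ j : ℕ, mj j * ((j + N').choose N' : ℝ) * ((j : ℝ) + (NE n : ℕ)) = m0 * (NE n : ℕ) := by
    intro j
    have h1 : mj j * ((n + ME n + j).choose j : ℝ) = m0 := moment hn e he j (ME n) hM
    have h2 : n + ME n + j = j + N' + 1 := by
      have : n + ME n = N' + 1 := hN'
      omega
    rw [h2] at h1
    have h3 : ((j + N').choose N' : ℝ) * ((j : ℝ) + (NE n : ℕ)) = ((j + N' + 1).choose j : ℝ) * (NE n : ℕ) := by
      have h4 := Nat.add_one_mul_choose_eq (j + N') N'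
      have h5 : (j + N' + 1).choose (N' + 1) = (j + N' + 1).choose j := by
        rw [← Nat.choose_symm_of_eq_add (show j + N' + 1 = (N' + 1) + j by ring)]
      rw [h5] at h4
      rw [hN']
      have h6 : ((j + N' + 1 : ℕ) : ℝ) * ((j + N').choose N' : ℝ) =
        ((j + N' + 1).choose j : ℝ) * ((N' + 1 : ℕ) : ℝ) := by exact_mod_cast h4
      rw [← h6]
      push_cast
      ring
    calc mj j * ((j + N').choose N' : ℝ) * ((j : ℝ) + (NE n : ℕ))
        = mj j * (((j + N').choose N' : ℝ) * ((j : ℝ) + (NE n : ℕ))) := by ring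
      _ = (mj j * ((j + N' + 1).choose j : ℝ)) * (NE n : ℕ) := by rw [h3]; ring
      _ = m0 * (NE n : ℕ) := by rw [h1]
  have hrn : ‖(r : ℂ)‖ < 1 := by
    rw [Complex.norm_real, Real.norm_of_nonneg (norm_nonneg z)]; exact hz1
  have hsumr : HasSum (fun j : ℕ => tc φ j * (r : ℂ) ^ j) (g z) := by
    have := hasSum_tc hφd (l := (r : ℂ)) hrn
    rw [hφ] at this
    simp only at this
    rwa [← hze] at this
  have hcore := core (Dop g) hDh (ME n) N' hint e he r (norm_nonneg z) hz1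
    (fun j : ℕ => ((j : ℂ) + ((NE n : ℕ) : ℂ)) * tc φ j) hc (by
      have h1 := (hsumr.summable.norm).mul_left (m0 * (NE n : ℕ))
      refine h1.congr ?_
      intro j
      rw [← hmom j, norm_mul, norm_mul, norm_pow, Complex.norm_real, Real.norm_of_nonneg (norm_nonneg z)]
      have h2 : ‖(j : ℂ) + ((NE n : ℕ) : ℂ)‖ = (j : ℝ) + (NE n : ℕ) := by
        rw [← Nat.cast_add, Complex.norm_natCast]; push_cast; rfl
      rw [h2]
      change _ = _ * _ * _ * mj j
      ring)
  have hval : ∫ w in B n, Dop g w * ((dl w : ℝ) : ℂ) ^ (ME n) / (q z w) ^ (NE n) =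
      ((m0 * (NE n : ℕ) : ℝ) : ℂ) * g z := by
    rw [← hze, ← hN'] at hcore
    have h1 := hsumr.mul_left (((m0 * (NE n : ℕ) : ℝ)) : ℂ)
    refine hcore.unique (h1.congr_fun ?_)
    intro j
    rw [← hmom j]
    push_cast
    change _ * _ * _ * ((mj j : ℝ) : ℂ) = _
    ring
  -- rewrite Sg
  have hSg : Sg (Aop g) z = (c0 n : ℂ) * ∫ w in B n, Dop g w * ((dl w : ℝ) : ℂ) ^ (ME n) / (q z w) ^ (NE n) := by
    unfold Sg lam
    rw [integral_withDensity_eq_integral_toReal_smul₀]
    · rw [← integral_const_mul]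
      apply setIntegral_congr_fun measurableSet_ball
      intro w hw
      have hd := dl_pos hw
      simp only
      rw [ENNReal.toReal_ofReal (inv_pos.2 hd).le]
      unfold Aop kap
      rw [Complex.real_smul, smul_eq_mul]
      push_cast
      have hd' : ((dl w : ℝ) : ℂ) ≠ 0 := by exact_mod_cast hd.ne'
      field_simp
    · apply Measurable.aemeasurable
      apply Measurable.ennreal_ofReal
      apply Measurable.inv
      unfold dl
      fun_prop
    · filter_upwards with w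
      exact ENNReal.ofReal_lt_top
  rw [hSg, hval]
  unfold c0 c1
  rw [← hm0]
  have hNE : (((NE n : ℕ) : ℝ)) ≠ 0 := by exact_mod_cast hN.ne'
  rw [← mul_assoc, ← Complex.ofReal_mul]
  have : m0⁻¹ / ((NE n : ℕ) : ℝ) * (m0 * ((NE n : ℕ) : ℝ)) = 1 := by
    field_simp
  rw [this, Complex.ofReal_one, one_mul]

end

end Pool.Agent.Lib.MP7ebef4
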