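import Pool.Agent.Lib.MP_7ebef4_an.Geo
import Pool.Agent.Lib.MP_7ebef4_an.Hol
import Pool.Agent.Lib.MP_7ebef4_an.Repr

/-! Differentiation under the integral sign for `Sg F`. -/

set_option autoImplicit false

open MeasureTheory Set Metric

namespace Pool.Agent.Lib.MP7ebef4

noncomputable section

variable {n : ℕ}

namespace KI

/-- `lam n` lives on the ball -/
theorem lam_ae_mem (n : ℕ) : ∀ᵐ w ∂(lam n), w ∈ B n := by
  have h : lam n ≪ volume.restrict (B n) := withDensity_absolutelyContinuous _ _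
  exact h.ae_le (ae_restrict_mem measurableSet_ball)

theorem measurable_dl : Measurable (dl : E n → ℝ) := by
  unfold dl
  fun_prop

theorem continuous_dl : Continuous (dl : E n → ℝ) := by
  unfold dl
  fun_prop

theorem continuous_q_right (z : E n) : Continuous (fun w : E n => q z w) := by
  unfold q
  fun_prop

theorem lintegral_lam (φ : E n → ENNReal) (hφ : Measurable φ) :
    ∫⁻ w, φ w ∂(lam n) = ∫⁻ w in B n, ENNReal.ofReal (dl w)⁻¹ * φ w := by
  unfold lam
  rw [lintegral_withDensity_eq_lintegral_mul₀]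
  · rfl
  · exact (measurable_dl.inv.ennreal_ofReal).aemeasurable
  · exact hφ.aemeasurable

theorem lintegral_dl_sq_lt_top (n : ℕ) : ∫⁻ w, ENNReal.ofReal (dl w ^ 2) ∂(lam n) < ⊤ := by
  rw [lintegral_lam _ (by have := (measurable_dl (n := n)).pow_const 2; exact this.ennreal_ofReal)]
  have h1 : ∫⁻ w in B n, ENNReal.ofReal (dl w)⁻¹ * ENNReal.ofReal (dl w ^ 2) ≤
      ∫⁻ _w in B n, 1 := by
    apply setLIntegral_mono_ae' measurableSet_ball
    filter_upwards with w hw
    have hd := dl_pos hw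
    rw [← ENNReal.ofReal_mul (inv_pos.2 hd).le, ← ENNReal.ofReal_one]
    apply ENNReal.ofReal_le_ofReal
    have e : (dl w)⁻¹ * dl w ^ 2 = dl w := by field_simp
    rw [e]
    exact dl_le_one w
  refine lt_of_le_of_lt h1 ?_
  rw [setLIntegral_one]
  exact measure_ball_lt_top

/-- `F ∈ L²(lam)` times a function bounded by `C δ` is integrable -/
theorem integrable_mul_norm {F : E n → ℂ} (hF : AEStronglyMeasurable F (lam n))
    (hF2 : ∫⁻ w, ‖F w‖ₑ ^ (2:ℕ) ∂(lam n) < ⊤) : Integrable (fun w => ‖F w‖ * dl w) (lam n) := by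
  refine ⟨hF.norm.mul measurable_dl.aestronglyMeasurable, ?_⟩
  rw [hasFiniteIntegral_iff_enorm]
  have h1 : ∫⁻ w, ‖‖F w‖ * dl w‖ₑ ∂(lam n) ≤
      ∫⁻ w, (‖F w‖ₑ ^ (2:ℕ) + ENNReal.ofReal (dl w ^ 2)) ∂(lam n) := by
    apply lintegral_mono_ae
    filter_upwards [lam_ae_mem n] with w hw
    have hd := dl_pos hw
    rw [← ofReal_norm, ← ofReal_norm, ← ENNReal.ofReal_pow (norm_nonneg _), ← ENNReal.ofReal_add (by positivity) (by positivity)]
    apply ENNReal.ofReal_le_ofReal
    rw [Real.norm_of_nonneg (by positivity)]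
    nlinarith [sq_nonneg (‖F w‖ - dl w), norm_nonneg (F w)]
  refine lt_of_le_of_lt h1 ?_
  rw [lintegral_add_right _ (by have := (measurable_dl (n := n)).pow_const 2; exact this.ennreal_ofReal)]
  exact ENNReal.add_lt_top.2 ⟨hF2, lintegral_dl_sq_lt_top n⟩

theorem integrable_mul {F g : E n → ℂ} (hF : AEStronglyMeasurable F (lam n))
    (hF2 : ∫⁻ w, ‖F w‖ₑ ^ (2:ℕ) ∂(lam n) < ⊤) (hg : AEStronglyMeasurable g (lam n)) (C : ℝ)
    (hgb : ∀ w ∈ B n, ‖g w‖ ≤ C * dl w) : Integrable (fun w => F w * g w) (lam n) := by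
  apply Integrable.mono' ((integrable_mul_norm hF hF2).const_mul C) (hF.mul hg)
  filter_upwards [lam_ae_mem n] with w hw
  rw [Pi.mul_apply, norm_mul]
  calc ‖F w‖ * ‖g w‖ ≤ ‖F w‖ * (C * dl w) := mul_le_mul_of_nonneg_left (hgb w hw) (norm_nonneg _)
    _ = C * (‖F w‖ * dl w) := by ring

theorem measurable_kap (z : E n) : Measurable (fun w : E n => kap z w) := by
  unfold kap
  have h1 := (continuous_q_right z).measurable
  have h2 := measurable_dl (n := n)
  fun_prop

/-- lower bound for `q` -/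
theorem le_norm_q {z w : E n} {R : ℝ} (hz : ‖z‖ ≤ R) (hw : w ∈ B n) : 1 - R ≤ ‖q z w‖ := by
  unfold q
  have h1 := norm_sub_norm_le (1:ℂ) (inner ℂ w z)
  rw [norm_one] at h1
  have h2 := norm_inner_le_norm (𝕜 := ℂ) w z
  have h3 := (mem_B.1 hw).le
  have h4 := norm_nonneg z
  have h5 : ‖w‖ * ‖z‖ ≤ 1 * R := mul_le_mul h3 hz h4 zero_le_one
  linarith

/-- coefficient of the derivative of `kap` -/
def dcoef (z w : E n) : ℂ := ((c0 n * (dl w) ^ (ME n) : ℝ) : ℂ) * ((NE n : ℕ) : ℂ) / (q z w) ^ (NE n + 1)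

theorem measurable_dcoef (z : E n) : Measurable (fun w : E n => dcoef z w) := by
  unfold dcoef
  have h1 := (continuous_q_right z).measurable
  have h2 := measurable_dl (n := n)
  fun_prop

theorem norm_dcoef_le {z w : E n} {R : ℝ} (hR : R < 1) (hz : ‖z‖ ≤ R) (hw : w ∈ B n) :
    ‖dcoef z w‖ ≤ |c0 n| * (NE n : ℕ) / (1 - R) ^ (NE n + 1) * dl w := by
  have hd := dl_pos hw
  have hq := le_norm_q hz hw
  have hR' : 0 < 1 - R := by linarith
  unfold dcoef
  rw [norm_div, norm_mul, Complex.norm_real, Complex.norm_natCast, norm_pow, norm_mul, norm_pow,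
    Real.norm_eq_abs, Real.norm_of_nonneg hd.le]
  have h1 : dl w ^ (ME n) ≤ dl w := by
    calc dl w ^ (ME n) ≤ dl w ^ 1 := pow_le_pow_of_le_one hd.le (dl_le_one w) (ReprAux.ME_pos n)
      _ = dl w := pow_one _
  have h2 : (1 - R) ^ (NE n + 1) ≤ ‖q z w‖ ^ (NE n + 1) := pow_le_pow_left₀ hR'.le hq _
  have h3 : 0 < (1 - R) ^ (NE n + 1) := pow_pos hR' _
  calc |c0 n| * dl w ^ (ME n) * (NE n : ℕ) / ‖q z w‖ ^ (NE n + 1)
      ≤ |c0 n| * dl w * (NE n : ℕ) / (1 - R) ^ (NE n + 1) := by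
        apply div_le_div₀ (by positivity) _ h3 h2
        gcongr
    _ = _ := by ring

theorem norm_kap_le {z w : E n} {R : ℝ} (hR : R < 1) (hz : ‖z‖ ≤ R) (hw : w ∈ B n) :
    ‖kap z w‖ ≤ |c0 n| / (1 - R) ^ (NE n) * dl w := by
  have hd := dl_pos hw
  have hq := le_norm_q hz hw
  have hR' : 0 < 1 - R := by linarith
  unfold kap
  rw [norm_div, Complex.norm_real, norm_pow, norm_mul, norm_pow,
    Real.norm_eq_abs, Real.norm_of_nonneg hd.le]
  have h1 : dl w ^ (ME n) ≤ dl w := by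
    calc dl w ^ (ME n) ≤ dl w ^ 1 := pow_le_pow_of_le_one hd.le (dl_le_one w) (ReprAux.ME_pos n)
      _ = dl w := pow_one _
  have h2 : (1 - R) ^ (NE n) ≤ ‖q z w‖ ^ (NE n) := pow_le_pow_left₀ hR'.le hq _
  have h3 : 0 < (1 - R) ^ (NE n) := pow_pos hR' _
  calc |c0 n| * dl w ^ (ME n) / ‖q z w‖ ^ (NE n)
      ≤ |c0 n| * dl w / (1 - R) ^ (NE n) := by
        apply div_le_div₀ (by positivity) _ h3 h2
        gcongr
    _ = _ := by ring

theorem q_ne_zero {z w : E n} (hz : z ∈ B n) (hw : w ∈ B n) : q z w ≠ 0 := by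
  have h := le_norm_q (le_refl ‖z‖) hw
  have h2 := mem_B.1 hz
  rw [← norm_pos_iff]
  linarith

theorem hasFDerivAt_q (z w : E n) : HasFDerivAt (fun z : E n => q z w) (-(innerSL ℂ w)) z := by
  unfold q
  have h := (innerSL ℂ w : E n →L[ℂ] ℂ).hasFDerivAt (x := z)
  exact h.const_sub 1

theorem hasFDerivAt_kap {z w : E n} (hz : z ∈ B n) (hw : w ∈ B n) :
    HasFDerivAt (fun z : E n => kap z w) (dcoef z w • (innerSL ℂ w)) z := by
  have hq := q_ne_zero hz hw
  have h1 := hasFDerivAt_q z w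
  have h2 : HasDerivAt (fun x : ℂ => ((c0 n * (dl w) ^ (ME n) : ℝ) : ℂ) / x ^ (NE n))
      (-dcoef z w) (q z w) := by
    have h3 : HasDerivAt (fun x : ℂ => x ^ (NE n)) ((NE n : ℕ) * (q z w) ^ (NE n - 1)) (q z w) :=
      hasDerivAt_pow (NE n) (q z w)
    have h4 := (h3.fun_inv (pow_ne_zero _ hq)).const_mul ((c0 n * (dl w) ^ (ME n) : ℝ) : ℂ)
    have h5 : ((c0 n * (dl w) ^ (ME n) : ℝ) : ℂ) * (-((NE n : ℕ) * (q z w) ^ (NE n - 1)) /
        ((q z w) ^ (NE n)) ^ 2) = -dcoef z w := by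
      unfold dcoef
      have h6 : NE n = (NE n - 1) + 1 := by
        have : 0 < NE n := by unfold NE; have := ReprAux.ME_pos n; omega
        omega
      rw [h6, Nat.add_sub_cancel]
      field_simp
      ring
    rw [h5] at h4
    simpa only [div_eq_mul_inv] using h4
  have h7 := h2.comp_hasFDerivAt z h1
  have h8 : (-dcoef z w) • (-(innerSL ℂ w : E n →L[ℂ] ℂ)) = dcoef z w • (innerSL ℂ w) := by
    ext v
    simp
  rw [h8] at h7
  exact h7

theorem Sg_main (F : E n → ℂ) (hF : AEStronglyMeasurable F (lam n))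
    (hF2 : ∫⁻ w, ‖F w‖ₑ ^ (2:ℕ) ∂(lam n) < ⊤) (z : E n) (hz : z ∈ B n) :
    Integrable (fun w => F w • (dcoef z w • (innerSL ℂ w : E n →L[ℂ] ℂ))) (lam n) ∧
    HasFDerivAt (Sg F) (∫ w, F w • (dcoef z w • (innerSL ℂ w : E n →L[ℂ] ℂ)) ∂(lam n)) z := by
  have hz1 := mem_B.1 hz
  set R := (1 + ‖z‖) / 2 with hR
  have hR1 : R < 1 := by rw [hR]; linarith
  have hnz := norm_nonneg z
  have hzR : ‖z‖ ≤ R := by rw [hR]; linarith
  set C := |c0 n| * (NE n : ℕ) / (1 - R) ^ (NE n + 1) with hC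
  have hC0 : 0 ≤ C := by
    rw [hC]
    have : 0 < 1 - R := by linarith
    positivity
  have hball : ∀ x ∈ ball z (R - ‖z‖), ‖x‖ ≤ R := by
    intro x hx
    rw [mem_ball_iff_norm] at hx
    have := norm_le_norm_add_norm_sub' x z
    linarith
  have hbound : ∀ w ∈ B n, ∀ x : E n, ‖x‖ ≤ R →
      ‖F w • (dcoef x w • (innerSL ℂ w : E n →L[ℂ] ℂ))‖ ≤ C * (‖F w‖ * dl w) := by
    intro w hw x hx
    rw [norm_smul, norm_smul, innerSL_apply_norm]
    have h1 := norm_dcoef_le hR1 hx hw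
    have h2 := (mem_B.1 hw).le
    have h3 : ‖dcoef x w‖ * ‖w‖ ≤ (C * dl w) * 1 := mul_le_mul h1 h2 (norm_nonneg _)
      (mul_nonneg hC0 (dl_pos hw).le)
    calc ‖F w‖ * (‖dcoef x w‖ * ‖w‖) ≤ ‖F w‖ * (C * dl w * 1) := mul_le_mul_of_nonneg_left h3 (norm_nonneg _)
      _ = C * (‖F w‖ * dl w) := by ring
  have hmeas' : AEStronglyMeasurable (fun w => F w • (dcoef z w • (innerSL ℂ w : E n →L[ℂ] ℂ))) (lam n) := by
    apply hF.smul
    apply AEStronglyMeasurable.smul (measurable_dcoef z).aestronglyMeasurable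
    have hc : Continuous (fun w : E n => (innerSL ℂ w : E n →L[ℂ] ℂ)) := (innerSL ℂ).continuous
    exact hc.aestronglyMeasurable
  have hbi := (integrable_mul_norm hF hF2).const_mul C
  constructor
  · apply Integrable.mono' hbi hmeas'
    filter_upwards [lam_ae_mem n] with w hw
    exact hbound w hw z hzR
  · apply hasFDerivAt_integral_of_dominated_of_fderiv_le (𝕜 := ℂ) (s := ball z (R - ‖z‖))
      (F := fun x w => F w * kap x w)
      (F' := fun x w => F w • (dcoef x w • (innerSL ℂ w : E n →L[ℂ] ℂ)))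
      (bound := fun w => C * (‖F w‖ * dl w))
    · apply ball_mem_nhds
      rw [hR]; linarith
    · filter_upwards with x
      exact hF.mul (measurable_kap x).aestronglyMeasurable
    · exact integrable_mul hF hF2 (measurable_kap z).aestronglyMeasurable _
        (fun w hw => norm_kap_le hR1 hzR hw)
    · exact hmeas'
    · filter_upwards [lam_ae_mem n] with w hw x hx
      exact hbound w hw x (hball x hx)
    · exact hbi
    · filter_upwards [lam_ae_mem n] with w hw x hx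
      have hxB : x ∈ B n := by rw [mem_B]; exact lt_of_le_of_lt (hball x hx) hR1
      have := (hasFDerivAt_kap hxB hw).const_mul (F w)
      exact this

end KI

/-- differentiation under the integral sign -/
theorem Sg_hol (_hn : 0 < n) (F : E n → ℂ) (hF : AEStronglyMeasurable F (lam n))
    (hF2 : ∫⁻ w, ‖F w‖ₑ ^ (2:ℕ) ∂(lam n) < ⊤) :
    DifferentiableOn ℂ (Sg F) (B n) ∧
    ∀ z ∈ B n, Dop (Sg F) z = ∫ w, F w * (((NE n : ℕ) : ℂ) / q z w * kap z w) ∂(lam n) := by
  constructor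
  · intro z hz
    exact (KI.Sg_main F hF hF2 z hz).2.differentiableAt.differentiableWithinAt
  · intro z hz
    obtain ⟨h1, h2⟩ := KI.Sg_main F hF hF2 z hz
    have hz1 := mem_B.1 hz
    have h3 : Integrable (fun w => F w * kap z w) (lam n) :=
      KI.integrable_mul hF hF2 (KI.measurable_kap z).aestronglyMeasurable _
        (fun w hw => KI.norm_kap_le hz1 le_rfl hw)
    unfold Dop
    rw [h2.fderiv, ContinuousLinearMap.integral_apply h1]
    unfold Sg
    rw [smul_eq_mul, ← integral_const_mul, ← integral_add (h1.apply_continuousLinearMap z) (h3.const_mul _)]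
    apply integral_congr_ae
    filter_upwards [KI.lam_ae_mem n] with w hw
    have hq := KI.q_ne_zero hz hw
    simp only [smul_apply, innerSL_apply_apply, smul_eq_mul]
    have h4 : (inner ℂ w z : ℂ) = 1 - q z w := by unfold q; ring
    rw [h4]
    unfold KI.dcoef kap
    field_simp
    ring

end

end Pool.Agent.Lib.MP7ebef4
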