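import Pool.Agent.Lib.MP_7ebef4_an.Geo

set_option autoImplicit false

open MeasureTheory Set Metric

namespace Pool.Agent.Lib.MP7ebef4

noncomputable section

variable {n : ℕ}

namespace Meas

theorem finrank_E (n : ℕ) : Module.finrank ℝ (E n) = 2 * n := by
  have h1 : Module.finrank ℝ (E n) = Module.finrank ℝ ℂ * Module.finrank ℂ (E n) :=
    (Module.finrank_mul_finrank ℝ ℂ (E n)).symm
  rw [h1, Complex.finrank_real_complex, finrank_euclideanSpace_fin]

theorem nontrivial_E (hn : 0 < n) : Nontrivial (E n) := by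
  have : Nonempty (Fin n) := ⟨⟨0, hn⟩⟩
  infer_instance

theorem measurable_proj : Measurable (fun z : E n => (‖z‖⁻¹ : ℝ) • z) :=
  (measurable_norm.inv).smul measurable_id

theorem sig_apply {S : Set (E n)} (hS : MeasurableSet S) :
    sig n S = volume ({z : E n | (‖z‖⁻¹ : ℝ) • z ∈ S} ∩ B n) := by
  rw [sig, Measure.map_apply measurable_proj hS, Measure.restrict_apply (measurable_proj hS)]
  rfl

theorem lintegral_sig (φ : E n → ENNReal) (hφ : Measurable φ) :
    ∫⁻ ζ, φ ζ ∂(sig n) = ∫⁻ z in B n, φ ((‖z‖⁻¹ : ℝ) • z) := by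
  rw [sig, lintegral_map hφ measurable_proj]

/-- polar coordinates with `toSphere` -/
theorem polar_aux (hn : 0 < n) (ψ : E n → ENNReal) (hψ : Measurable ψ) :
    ∫⁻ z in B n, ψ z = ∫⁻ ω, (∫⁻ r in Ioo (0:ℝ) 1, ENNReal.ofReal (r ^ (2 * n - 1)) *
      ψ (r • (ω : E n))) ∂((volume : Measure (E n)).toSphere) := by
  have := nontrivial_E hn
  set ψ' : E n → ENNReal := (B n).indicator ψ with hψ'
  have hmB : MeasurableSet (B n) := measurableSet_ball
  have hψ'm : Measurable ψ' := hψ.indicator hmB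
  rw [← lintegral_indicator hmB]
  have h1 : ∫⁻ z, ψ' z = ∫⁻ z : ({(0:E n)}ᶜ : Set (E n)), ψ' z ∂((volume : Measure (E n)).comap (↑)) := by
    rw [lintegral_subtype_comap (measurableSet_singleton _).compl, restrict_compl_singleton]
  rw [h1]
  have h2 := (volume : Measure (E n)).measurePreserving_homeomorphUnitSphereProd.lintegral_comp_emb
    (Homeomorph.measurableEmbedding _) (fun p => ψ' ((p.2 : ℝ) • (p.1 : E n)))
  have h3 : ∀ a : ({(0:E n)}ᶜ : Set (E n)),
      (((homeomorphUnitSphereProd (E n)) a).2 : ℝ) • (((homeomorphUnitSphereProd (E n)) a).1 : E n)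
        = (a : E n) := by
    intro a
    have ha : ‖(a : E n)‖ ≠ 0 := by
      rw [norm_ne_zero_iff]; exact a.2
    simp [smul_smul, mul_inv_cancel₀ ha]
  simp only [h3] at h2
  rw [h2, lintegral_prod]
  swap
  · apply Measurable.aemeasurable
    apply hψ'm.comp
    fun_prop
  apply lintegral_congr
  intro ω
  rw [Measure.volumeIoiPow, lintegral_withDensity_eq_lintegral_mul]
  rotate_left
  · fun_prop
  · apply hψ'm.comp
    fun_prop
  have h4 := lintegral_subtype_comap (μ := (volume : Measure ℝ)) (s := Ioi (0:ℝ)) measurableSet_Ioi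
    (fun r => ENNReal.ofReal (r ^ (2 * n - 1)) * ψ' (r • (ω : E n)))
  simp only [Pi.mul_apply, finrank_E]
  rw [h4, ← lintegral_indicator measurableSet_Ioi, ← lintegral_indicator measurableSet_Ioo]
  apply lintegral_congr
  intro r
  by_cases h0 : 0 < r
  · rw [indicator_of_mem (show r ∈ Ioi (0:ℝ) from h0)]
    have hω : ‖(ω : E n)‖ = 1 := by
      simp
    by_cases h1' : r < 1
    · rw [indicator_of_mem (show r ∈ Ioo (0:ℝ) 1 from ⟨h0, h1'⟩)]
      rw [hψ', indicator_of_mem]
      rw [mem_B, norm_smul, hω, mul_one, Real.norm_of_nonneg h0.le]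
      exact h1'
    · rw [indicator_of_notMem (show r ∉ Ioo (0:ℝ) 1 from fun h => h1' h.2)]
      rw [hψ', indicator_of_notMem, mul_zero]
      rw [mem_B, norm_smul, hω, mul_one, Real.norm_of_nonneg h0.le]
      exact h1'
  · rw [indicator_of_notMem (show r ∉ Ioi (0:ℝ) from h0),
      indicator_of_notMem (show r ∉ Ioo (0:ℝ) 1 from fun h => h0 h.1)]

theorem lint_pow (hn : 0 < n) :
    ∫⁻ r in Ioo (0:ℝ) 1, ENNReal.ofReal (r ^ (2 * n - 1)) = ENNReal.ofReal (1 / (2 * n)) := by
  rw [restrict_Ioo_eq_restrict_Ioc, ← ofReal_integral_eq_lintegral_ofReal]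
  · rw [← intervalIntegral.integral_of_le zero_le_one, integral_pow]
    congr 1
    have : (((2 * n - 1 : ℕ) : ℝ)) = 2 * n - 1 := by
      rw [Nat.cast_sub (by omega)]; push_cast; ring
    rw [this]
    simp
  · apply (continuous_pow _).integrableOn_Ioc
  · filter_upwards [ae_restrict_mem measurableSet_Ioc] with r hr
    exact pow_nonneg hr.1.le _

theorem lintegral_sig' (hn : 0 < n) (φ : E n → ENNReal) (hφ : Measurable φ) :
    ∫⁻ ζ, φ ζ ∂(sig n) =
      ENNReal.ofReal (1 / (2 * n)) * ∫⁻ ω, φ (ω : E n) ∂((volume : Measure (E n)).toSphere) := by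
  rw [lintegral_sig φ hφ, polar_aux hn (fun z => φ ((‖z‖⁻¹ : ℝ) • z)) (hφ.comp measurable_proj)]
  rw [← lintegral_const_mul _ (by fun_prop)]
  apply lintegral_congr
  intro ω
  rw [← lint_pow hn, ← lintegral_mul_const]
  swap
  · fun_prop
  apply setLIntegral_congr_fun measurableSet_Ioo
  intro r hr
  have hω : ‖(ω : E n)‖ = 1 := by simp
  show ENNReal.ofReal (r ^ (2 * n - 1)) * φ ((‖r • (ω : E n)‖⁻¹ : ℝ) • r • (ω : E n)) = _
  have : (‖r • (ω : E n)‖⁻¹ : ℝ) • r • (ω : E n) = (ω : E n) := by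
    rw [norm_smul, hω, mul_one, Real.norm_of_nonneg hr.1.le, smul_smul,
      inv_mul_cancel₀ hr.1.ne', one_smul]
  rw [this]

end Meas

theorem polar (hn : 0 < n) (φ : E n → ENNReal) (hφ : Measurable φ) :
    ∫⁻ z in B n, φ z = ∫⁻ r in Ioo (0:ℝ) 1, ENNReal.ofReal (2 * n * r ^ (2 * n - 1)) *
      ∫⁻ ζ, φ (r • ζ) ∂(sig n) := by
  have hn' : (0:ℝ) < n := by exact_mod_cast hn
  rw [Meas.polar_aux hn φ hφ]
  rw [lintegral_lintegral_swap]
  swap
  · apply Measurable.aemeasurable
    have h1 : Measurable (fun p : sphere (0:E n) 1 × ℝ => φ (p.2 • (p.1 : E n))) := by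
      apply hφ.comp
      fun_prop
    have h2 : Measurable (fun p : sphere (0:E n) 1 × ℝ => ENNReal.ofReal (p.2 ^ (2 * n - 1))) := by
      fun_prop
    exact h2.mul h1
  apply setLIntegral_congr_fun measurableSet_Ioo
  intro r hr
  simp only
  rw [Meas.lintegral_sig' hn (fun ζ => φ (r • ζ)) (hφ.comp (measurable_const_smul r))]
  rw [lintegral_const_mul _ (by apply hφ.comp; fun_prop), ← mul_assoc, ← ENNReal.ofReal_mul]
  · congr 2
    field_simp
  · have := pow_nonneg hr.1.le (2 * n - 1)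
    positivity

theorem sig_sph (n : ℕ) (hn : 0 < n) : sig n (Sph n)ᶜ = 0 := by
  have := Meas.nontrivial_E hn
  have hm : MeasurableSet (Sph n)ᶜ := isClosed_sphere.measurableSet.compl
  rw [Meas.sig_apply hm]
  apply measure_mono_null (t := {(0 : E n)})
  · rintro z ⟨hz, -⟩
    by_contra h0
    apply hz
    have h1 : ‖z‖ ≠ 0 := norm_ne_zero_iff.2 h0
    simp [Sph, norm_smul, inv_mul_cancel₀ h1]
  · exact measure_singleton _

/-- rotation invariance -/
theorem lintegral_sig_rot (φ : E n → ENNReal) (hφ : Measurable φ) (c : ℂ) (hc : ‖c‖ = 1) :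
    ∫⁻ ζ, φ (c • ζ) ∂(sig n) = ∫⁻ ζ, φ ζ ∂(sig n) := by
  have hc0 : c ≠ 0 := by
    intro h; simp [h] at hc
  rw [Meas.lintegral_sig (fun ζ => φ (c • ζ)) (hφ.comp (measurable_const_smul c)), Meas.lintegral_sig φ hφ]
  let L : E n ≃ₗᵢ[ℝ] E n :=
    { (LinearEquiv.smulOfNeZero ℂ (E n) c hc0).restrictScalars ℝ with
      norm_map' := fun x => by
        show ‖c • x‖ = ‖x‖
        rw [norm_smul, hc, one_mul] }
  have hL : MeasurePreserving L (volume : Measure (E n)) volume := L.measurePreserving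
  have hB : L ⁻¹' (B n) = B n := by
    ext z
    simp [B]
  have h1 := hL.restrict_preimage (s := B n) measurableSet_ball
  rw [hB] at h1
  have h3 := h1.lintegral_comp (f := fun z : E n => φ ((‖z‖⁻¹ : ℝ) • z))
    (hφ.comp Meas.measurable_proj)
  rw [← h3]
  apply lintegral_congr
  intro z
  have h2 : L z = c • z := rfl
  simp only [h2, norm_smul, hc, one_mul]
  rw [smul_comm]

end

end Pool.Agent.Lib.MP7ebef4
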