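import Mathlib

/-! Sub-mean value property of `‖f‖ ^ p` on a circle, from Jensen's formula. -/

set_option autoImplicit false

open MeasureTheory Set Real

namespace Pool.Agent.Lib.MP7ebef4

theorem log_norm_le_circleAverage {f : ℂ → ℂ} (hf : AnalyticOnNhd ℂ f (Metric.closedBall 0 1))
    (h0 : f 0 ≠ 0) : Real.log ‖f 0‖ ≤ circleAverage (fun z => Real.log ‖f z‖) 0 1 := by
  have hf' : AnalyticOnNhd ℂ f (Metric.closedBall 0 |(1:ℝ)|) := by rwa [abs_one]
  rw [hf'.circleAverage_log_norm one_ne_zero h0]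
  have : 0 ≤ ∑ᶠ u : ℂ, (MeromorphicOn.divisor f (Metric.closedBall 0 |(1:ℝ)|) u : ℝ) *
      Real.log (1 * ‖(0:ℂ) - u‖⁻¹) := by
    refine finsum_nonneg (fun u => ?_)
    by_cases hu : u ∈ Metric.closedBall (0:ℂ) |(1:ℝ)|
    · have h1 : 0 ≤ MeromorphicOn.divisor f (Metric.closedBall 0 |(1:ℝ)|) u :=
        MeromorphicOn.AnalyticOnNhd.divisor_nonneg hf' u
      have h2 : (0:ℝ) ≤ (MeromorphicOn.divisor f (Metric.closedBall 0 |(1:ℝ)|) u : ℝ) := by
        exact_mod_cast h1
      refine mul_nonneg h2 ?_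
      rw [zero_sub, norm_neg, one_mul]
      rw [mem_closedBall_zero_iff, abs_one] at hu
      rcases eq_or_ne u 0 with h3 | h3
      · rw [h3]; simp
      · exact Real.log_nonneg (one_le_inv_iff₀.mpr ⟨norm_pos_iff.mpr h3, hu⟩)
    · have : MeromorphicOn.divisor f (Metric.closedBall 0 |(1:ℝ)|) u = 0 :=
        Function.locallyFinsuppWithin.apply_eq_zero_of_notMem _ hu
      rw [this]; simp
  linarith

theorem norm_rpow_le_circleAverage {f : ℂ → ℂ} (hf : AnalyticOnNhd ℂ f (Metric.closedBall 0 1))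
    {p : ℝ} (hp : 0 < p) : ‖f 0‖ ^ p ≤ circleAverage (fun z => ‖f z‖ ^ p) 0 1 := by
  set A := circleAverage (fun z => ‖f z‖ ^ p) 0 1 with hA
  have hA0 : 0 ≤ A := by
    apply circleAverage_nonneg_of_nonneg
    intro z _
    positivity
  rcases eq_or_ne (f 0) 0 with h0 | h0
  · rw [h0, norm_zero, Real.zero_rpow hp.ne']; exact hA0
  have hcontf : ContinuousOn f (Metric.closedBall 0 1) := hf.continuousOn
  have hcont : ContinuousOn (fun z => ‖f z‖ ^ p) (Metric.sphere 0 |(1:ℝ)|) := by
    rw [abs_one]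
    exact ((hcontf.mono Metric.sphere_subset_closedBall).norm).rpow_const
      (fun _ _ => Or.inr hp.le)
  have hint : CircleIntegrable (fun z => ‖f z‖ ^ p) 0 1 := by
    refine ContinuousOn.circleIntegrable' ?_
    exact hcont
  have key : ∀ K : ℝ, 0 < K → ‖f 0‖ ^ p ≤ A + Real.exp 1 / K := by
    intro K hK
    -- scale `f` by `K ^ (1/p)`
    set t := K * A + Real.exp 1 with ht
    have hexp : 0 < Real.exp 1 := Real.exp_pos 1
    have htpos : 0 < t := by positivity
    have hlogt : 1 ≤ Real.log t := by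
      rw [Real.le_log_iff_exp_le htpos]
      have : 0 ≤ K * A := mul_nonneg hK.le hA0
      linarith
    set c : ℝ := K ^ (1 / p) with hc
    have hcpos : 0 < c := Real.rpow_pos_of_pos hK _
    have hcp : c ^ p = K := by
      rw [hc, ← Real.rpow_mul hK.le, one_div_mul_cancel hp.ne', Real.rpow_one]
    have hnorm : ∀ z, ‖(c : ℂ) * f z‖ ^ p = K * ‖f z‖ ^ p := by
      intro z
      rw [norm_mul, Complex.norm_real, Real.norm_of_nonneg hcpos.le,
        Real.mul_rpow hcpos.le (norm_nonneg _), hcp]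
    have hfc : AnalyticOnNhd ℂ (fun z => (c : ℂ) * f z) (Metric.closedBall 0 1) :=
      fun z hz => analyticAt_const.mul (hf z hz)
    have hc0 : (c : ℂ) * f 0 ≠ 0 := mul_ne_zero (by exact_mod_cast hcpos.ne') h0
    have h1 := log_norm_le_circleAverage hfc hc0
    have hpt : ∀ z ∈ Metric.sphere (0:ℂ) |(1:ℝ)|, Real.log ‖(c : ℂ) * f z‖ ≤
        p⁻¹ * ((Real.log t - 1) + K / t * ‖f z‖ ^ p) := by
      intro z _
      rw [inv_mul_eq_div, le_div_iff₀ hp]
      rcases eq_or_ne (f z) 0 with hz | hz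
      · rw [hz, mul_zero, norm_zero, Real.log_zero, Real.zero_rpow hp.ne']
        linarith
      · have hz' : 0 < ‖(c : ℂ) * f z‖ :=
          norm_pos_iff.mpr (mul_ne_zero (by exact_mod_cast hcpos.ne') hz)
        have hz2 : 0 < ‖f z‖ := norm_pos_iff.mpr hz
        have h2 : Real.log (K / t * ‖f z‖ ^ p) ≤ K / t * ‖f z‖ ^ p - 1 :=
          Real.log_le_sub_one_of_pos (by positivity)
        have h3 : K / t * ‖f z‖ ^ p = ‖(c : ℂ) * f z‖ ^ p / t := by
          rw [hnorm]; ring
        have h4 : Real.log (K / t * ‖f z‖ ^ p) = p * Real.log ‖(c : ℂ) * f z‖ - Real.log t := by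
          rw [h3, Real.log_div (by positivity) htpos.ne', Real.log_rpow hz']
        linarith
    have hint1 : CircleIntegrable (fun z => Real.log ‖(c : ℂ) * f z‖) 0 1 := by
      refine MeromorphicOn.circleIntegrable_log_norm ?_
      rw [abs_one]
      exact fun z hz => (hfc z (Metric.sphere_subset_closedBall hz)).meromorphicAt
    have hint2 : CircleIntegrable (fun z => p⁻¹ * ((Real.log t - 1) + K / t * ‖f z‖ ^ p)) 0 1 := by
      refine ContinuousOn.circleIntegrable' ?_
      exact continuousOn_const.mul (continuousOn_const.add (continuousOn_const.mul hcont))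
    have h5 := circleAverage_mono hint1 hint2 hpt
    have h6 : circleAverage (fun z => p⁻¹ * ((Real.log t - 1) + K / t * ‖f z‖ ^ p)) 0 1 =
        p⁻¹ * ((Real.log t - 1) + K / t * A) := by
      have e1 : (fun z => p⁻¹ * ((Real.log t - 1) + K / t * ‖f z‖ ^ p)) =
          fun z => p⁻¹ • ((fun _ : ℂ => Real.log t - 1) z + (fun z => (K / t) • ‖f z‖ ^ p) z) := by
        funext z; simp
      rw [e1, circleAverage_fun_smul, circleAverage_fun_add, circleAverage_const,
        circleAverage_fun_smul]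
      · simp [hA]
      · exact circleIntegrable_const _ _ _
      · refine ContinuousOn.circleIntegrable' ?_
        exact hcont.const_smul (K / t)
    rw [h6] at h5
    have h7 : Real.log ‖(c : ℂ) * f 0‖ ≤ p⁻¹ * ((Real.log t - 1) + K / t * A) := h1.trans h5
    have h8 : p * Real.log ‖(c : ℂ) * f 0‖ ≤ (Real.log t - 1) + K / t * A := by
      have := mul_le_mul_of_nonneg_left h7 hp.le
      rwa [← mul_assoc, mul_inv_cancel₀ hp.ne', one_mul] at this
    have h9 : K / t * A ≤ 1 := by
      rw [div_mul_eq_mul_div, div_le_one htpos]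
      linarith
    have h10 : Real.log (‖(c : ℂ) * f 0‖ ^ p) ≤ Real.log t := by
      rw [Real.log_rpow (norm_pos_iff.mpr hc0)]
      linarith
    have h11 : ‖(c : ℂ) * f 0‖ ^ p ≤ t :=
      (Real.log_le_log_iff (Real.rpow_pos_of_pos (norm_pos_iff.mpr hc0) _) htpos).mp h10
    rw [hnorm] at h11
    have h12 : ‖f 0‖ ^ p ≤ t / K := by
      rw [le_div_iff₀ hK]; linarith
    refine h12.trans (le_of_eq ?_)
    rw [ht]; field_simp
  refine le_of_forall_pos_le_add (fun η hη => ?_)
  have h := key (Real.exp 1 / η) (by positivity)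
  have : Real.exp 1 / (Real.exp 1 / η) = η := by field_simp
  rwa [this] at h

/-- version with lower Lebesgue integrals -/
theorem enorm_rpow_le_lintegral {f : ℂ → ℂ} (hf : AnalyticOnNhd ℂ f (Metric.closedBall 0 1))
    {p : ℝ} (hp : 0 < p) : ENNReal.ofReal (2 * π) * ‖f 0‖ₑ ^ p ≤
      ∫⁻ θ in Ioc (0:ℝ) (2 * π), ‖f (Complex.exp (θ * Complex.I))‖ₑ ^ p := by
  have h := norm_rpow_le_circleAverage hf hp
  have hcontf : ContinuousOn f (Metric.closedBall 0 1) := hf.continuousOn
  have hcm : Continuous (fun θ : ℝ => circleMap 0 1 θ) := continuous_circleMap 0 1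
  have hcont : Continuous (fun θ : ℝ => ‖f (circleMap 0 1 θ)‖ ^ p) := by
    have h1 : Continuous (fun θ : ℝ => f (circleMap 0 1 θ)) := by
      refine hcontf.comp_continuous hcm (fun θ => ?_)
      exact circleMap_mem_closedBall 0 zero_le_one θ
    exact h1.norm.rpow_const (fun _ => Or.inr hp.le)
  rw [circleAverage_def, smul_eq_mul, intervalIntegral.integral_of_le (by positivity)] at h
  have h2 : 2 * π * ‖f 0‖ ^ p ≤ ∫ θ in Ioc (0:ℝ) (2 * π), ‖f (circleMap 0 1 θ)‖ ^ p := by
    rw [← inv_mul_le_iff₀ (by positivity : (0:ℝ) < (2 * π)⁻¹), inv_inv] at h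
    exact h
  have h3 := ENNReal.ofReal_le_ofReal h2
  rw [ENNReal.ofReal_mul (by positivity), ofReal_integral_eq_lintegral_ofReal] at h3
  · have e1 : ∀ z : ℂ, ENNReal.ofReal (‖z‖ ^ p) = ‖z‖ₑ ^ p := by
      intro z
      rw [← ENNReal.ofReal_rpow_of_nonneg (norm_nonneg _) hp.le, ofReal_norm]
    simp only [e1] at h3
    refine h3.trans (le_of_eq ?_)
    refine lintegral_congr (fun θ => ?_)
    simp [circleMap]
  · exact (hcont.integrableOn_Icc (a := 0) (b := 2 * π)).mono_set Ioc_subset_Icc_self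
  · exact Filter.Eventually.of_forall (fun θ => by positivity)

end Pool.Agent.Lib.MP7ebef4
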