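import Pool.Agent.Lib.MP_7ebef4_an.Geo
import Pool.Agent.Lib.MP_7ebef4_an.SubmeanDisc

/-! Sub-mean value property of `|h|^p` over nonisotropic balls of the sphere. -/

set_option autoImplicit false

open MeasureTheory Set

namespace Pool.Agent.Lib.MP7ebef4

noncomputable section

variable {n : ℕ}

theorem lintegral_comp_clinear (L : E n →ₗ[ℂ] E n) {a : ℝ} (ha : 0 < a)
    (hdet : ‖LinearMap.det L‖ = a) (ψ : E n → ENNReal) (hψ : Measurable ψ) :
    ∫⁻ ξ, ψ (L ξ) = ENNReal.ofReal ((a ^ 2)⁻¹) * ∫⁻ ξ, ψ ξ := by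
  have h1 : LinearMap.det (L.restrictScalars ℝ) = a ^ 2 := by
    rw [LinearMap.det_restrictScalars, Algebra.norm_complex_apply, Complex.normSq_eq_norm_sq, hdet]
  have h2 : LinearMap.det (L.restrictScalars ℝ) ≠ 0 := by rw [h1]; positivity
  have h3 := Measure.map_linearMap_addHaar_eq_smul_addHaar (volume : Measure (E n)) h2
  have hL : Measurable (L.restrictScalars ℝ : E n → E n) :=
    (LinearMap.continuous_of_finiteDimensional (L.restrictScalars ℝ)).measurable
  have h4 : ∫⁻ ξ, ψ (L ξ) = ∫⁻ ξ, ψ ξ ∂(Measure.map (L.restrictScalars ℝ) volume) := by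
    rw [lintegral_map hψ hL]
    rfl
  rw [h4, h3, lintegral_smul_measure, h1, abs_of_pos (by positivity), smul_eq_mul]

/-- the nonisotropic dilation -/
def TT (s : ℝ) (u : E n) : E n →ₗ[ℂ] E n :=
  (s : ℂ) • LinearMap.transvection (((s - 1 : ℝ) : ℂ) • (innerSL ℂ u).toLinearMap) u

theorem TT_apply (s : ℝ) (u ξ : E n) :
    TT s u ξ = (s : ℂ) • (ξ + (((s - 1 : ℝ) : ℂ) * inner ℂ u ξ) • u) := by
  simp [TT, LinearMap.transvection.apply]

theorem TT_det (s : ℝ) (u : E n) (h : (s - 1) * (‖u‖ ^ 2 - 1) = 0) :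
    LinearMap.det (TT s u) = ((s ^ (n + 1) : ℝ) : ℂ) := by
  unfold TT
  rw [LinearMap.det_smul, LinearMap.transvection.det, finrank_euclideanSpace_fin]
  have h1 : (((s - 1 : ℝ) : ℂ) • (innerSL ℂ u).toLinearMap) u = (((s - 1) * ‖u‖ ^ 2 : ℝ) : ℂ) := by
    simp [inner_self_eq_norm_sq_to_K]
  rw [h1]
  have h2 : (s - 1) * ‖u‖ ^ 2 = s - 1 := by linarith
  rw [h2]
  push_cast
  ring

theorem inner_TT (s : ℝ) (u ξ : E n) (h : (s - 1) * (‖u‖ ^ 2 - 1) = 0) :
    inner ℂ u (TT s u ξ) = ((s ^ 2 : ℝ) : ℂ) * inner ℂ u ξ := by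
  rw [TT_apply, inner_smul_right, inner_add_right, inner_smul_right, inner_self_eq_norm_sq_to_K]
  have h2 : ((s : ℂ) - 1) * ((‖u‖ : ℂ) ^ 2 - 1) = 0 := by exact_mod_cast h
  have h3 : (RCLike.ofReal ‖u‖ : ℂ) = (‖u‖ : ℂ) := rfl
  rw [h3]
  push_cast
  linear_combination (s : ℂ) * inner ℂ u ξ * h2

theorem norm_TT_le (s : ℝ) (hs0 : 0 ≤ s) (hs1 : s ≤ 1) (u ξ : E n) (h : (s - 1) * (‖u‖ ^ 2 - 1) = 0) :
    ‖TT s u ξ‖ ≤ s * ‖ξ‖ := by
  rw [TT_apply, norm_smul, Complex.norm_real, Real.norm_of_nonneg hs0]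
  refine mul_le_mul_of_nonneg_left ?_ hs0
  apply le_of_sq_le_sq _ (norm_nonneg _)
  have h1 := @norm_add_sq ℂ (E n) _ _ _ ξ ((((s - 1 : ℝ) : ℂ) * inner ℂ u ξ) • u)
  rw [h1, inner_smul_right, norm_smul, norm_mul, Complex.norm_real, Real.norm_eq_abs, mul_pow,
    mul_pow, sq_abs]
  have h2 : RCLike.re ((((s - 1 : ℝ) : ℂ) * inner ℂ u ξ) * inner ℂ ξ u) =
      (s - 1) * ‖(inner ℂ u ξ : ℂ)‖ ^ 2 := by
    have h3 : (((s - 1 : ℝ) : ℂ) * inner ℂ u ξ) * inner ℂ ξ u =
        (((s - 1) * ‖(inner ℂ u ξ : ℂ)‖ ^ 2 : ℝ) : ℂ) := by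
      rw [mul_assoc, ← inner_conj_symm ξ u, Complex.mul_conj, Complex.normSq_eq_norm_sq]
      push_cast; ring
    rw [h3]; exact Complex.ofReal_re _
  rw [h2]
  have h4 : (s - 1) * ‖u‖ ^ 2 = s - 1 := by linarith
  have h5 : (s - 1) ^ 2 * ‖(inner ℂ u ξ : ℂ)‖ ^ 2 * ‖u‖ ^ 2 =
      (s - 1) * ‖(inner ℂ u ξ : ℂ)‖ ^ 2 * (s - 1) := by
    calc (s - 1) ^ 2 * ‖(inner ℂ u ξ : ℂ)‖ ^ 2 * ‖u‖ ^ 2 =
        (s - 1) * ‖(inner ℂ u ξ : ℂ)‖ ^ 2 * ((s - 1) * ‖u‖ ^ 2) := by ring
      _ = _ := by rw [h4]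
  rw [h5]
  nlinarith [sq_nonneg ‖(inner ℂ u ξ : ℂ)‖, mul_nonneg (mul_nonneg (sub_nonneg.mpr hs1) (sq_nonneg ‖(inner ℂ u ξ : ℂ)‖)) (by linarith : (0:ℝ) ≤ 1 + s)]

/-- the point `w + T ξ` stays in the ball, close to `w` -/
theorem point_estimates {w : E n} (hw : w ∈ B n) {s : ℝ} (hs : s ^ 2 = dl w) (hs0 : 0 ≤ s)
    (u : E n) (hu : ‖u‖ ≤ 1) (hwu : w = (‖w‖ : ℂ) • u) (h : (s - 1) * (‖u‖ ^ 2 - 1) = 0)
    {ξ : E n} (hξ : ‖ξ‖ < 1 / 3) :
    w + TT s u ξ ∈ B n ∧ dl (w + TT s u ξ) ≤ 2 * dl w ∧ d (w + TT s u ξ) w ≤ 2 * dl w := by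
  have hδ := dl_pos hw
  have hδ1 := dl_le_one w
  have hw1 : ‖w‖ < 1 := mem_B.mp hw
  have hw0 := norm_nonneg w
  have hs1 : s ≤ 1 := by nlinarith
  have hin : inner ℂ w (TT s u ξ) = ((‖w‖ * dl w : ℝ) : ℂ) * inner ℂ u ξ := by
    conv_lhs => rw [hwu]
    rw [inner_smul_left, inner_TT s u ξ h, hs, Complex.conj_ofReal]
    push_cast; ring
  have hiu : ‖(inner ℂ u ξ : ℂ)‖ ≤ 1 / 3 := by
    have h1 := norm_inner_le_norm (𝕜 := ℂ) u ξ
    have h2 : ‖u‖ * ‖ξ‖ ≤ 1 * (1 / 3) := mul_le_mul hu hξ.le (norm_nonneg _) zero_le_one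
    linarith
  have hin2 : ‖(inner ℂ w (TT s u ξ) : ℂ)‖ ≤ dl w / 3 := by
    rw [hin, norm_mul, Complex.norm_real, Real.norm_of_nonneg (by positivity)]
    calc ‖w‖ * dl w * ‖(inner ℂ u ξ : ℂ)‖ ≤ 1 * dl w * (1 / 3) :=
        mul_le_mul (mul_le_mul_of_nonneg_right hw1.le hδ.le) hiu (norm_nonneg _) (by positivity)
      _ = dl w / 3 := by ring
  have hre : |RCLike.re (inner ℂ w (TT s u ξ))| ≤ dl w / 3 :=
    (RCLike.abs_re_le_norm _).trans hin2
  have hT := norm_TT_le s hs0 hs1 u ξ h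
  have hT2 : ‖TT s u ξ‖ ^ 2 ≤ dl w / 9 := by
    have h1 : ‖TT s u ξ‖ ≤ s * (1 / 3) := hT.trans (mul_le_mul_of_nonneg_left hξ.le hs0)
    have h2 : ‖TT s u ξ‖ ^ 2 ≤ (s * (1 / 3)) ^ 2 := pow_le_pow_left₀ (norm_nonneg _) h1 2
    rw [mul_pow, hs] at h2
    linarith
  have hns := @norm_add_sq ℂ (E n) _ _ _ w (TT s u ξ)
  have hdw : ‖w‖ ^ 2 = 1 - dl w := by unfold dl; ring
  rw [abs_le] at hre
  refine ⟨?_, ?_, ?_⟩
  · rw [mem_B]
    have h1 : ‖w + TT s u ξ‖ ^ 2 < 1 := by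
      rw [hns, hdw]; nlinarith [hre.1, hre.2]
    have h2 := norm_nonneg (w + TT s u ξ)
    nlinarith
  · have h1 : dl (w + TT s u ξ) = 1 - ‖w + TT s u ξ‖ ^ 2 := rfl
    rw [h1, hns, hdw]
    nlinarith [hre.1, hre.2, sq_nonneg ‖TT s u ξ‖]
  · unfold d q
    rw [inner_add_right, inner_self_eq_norm_sq_to_K]
    have h1 : (1 : ℂ) - ((RCLike.ofReal ‖w‖ : ℂ) ^ 2 + inner ℂ w (TT s u ξ)) =
        ((dl w : ℝ) : ℂ) - inner ℂ w (TT s u ξ) := by
      have h3 : (RCLike.ofReal ‖w‖ : ℂ) = (‖w‖ : ℂ) := rfl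
      rw [h3]
      unfold dl
      push_cast; ring
    rw [h1]
    refine (norm_sub_le _ _).trans ?_
    rw [Complex.norm_real, Real.norm_of_nonneg hδ.le]
    linarith

/-- solid mean value estimate -/
theorem solid_mean {w : E n} (hw : w ∈ B n) {s : ℝ} (hs : s ^ 2 = dl w) (hs0 : 0 ≤ s)
    (u : E n) (hu : ‖u‖ ≤ 1) (hwu : w = (‖w‖ : ℂ) • u) (h : (s - 1) * (‖u‖ ^ 2 - 1) = 0)
    (g : E n → ℂ) (hg : DifferentiableOn ℂ g (B n)) {p : ℝ} (hp : 0 < p) (φ : E n → ENNReal)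
    (hφ : Measurable φ) (hφg : ∀ z ∈ B n, φ z = ‖g z‖ₑ ^ p) :
    volume (Metric.ball (0 : E n) (1 / 4)) * ‖g w‖ₑ ^ p ≤
      ∫⁻ ξ in Metric.ball (0 : E n) (1 / 4), φ (w + TT s u ξ) := by
  have hpi : (0:ℝ) < 2 * Real.pi := by positivity
  have hTc : Continuous (TT s u) := LinearMap.continuous_of_finiteDimensional _
  -- pointwise circle inequality
  have h1 : ∀ ξ ∈ Metric.ball (0 : E n) (1 / 4), ENNReal.ofReal (2 * Real.pi) * ‖g w‖ₑ ^ p ≤
      ∫⁻ θ in Ioc (0:ℝ) (2 * Real.pi), φ (w + TT s u (Complex.exp (θ * Complex.I) • ξ)) := by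
    intro ξ hξ
    rw [mem_ball_zero_iff] at hξ
    have hmem : ∀ c : ℂ, ‖c‖ < 4 / 3 → w + TT s u (c • ξ) ∈ B n := by
      intro c hc
      refine (point_estimates hw hs hs0 u hu hwu h ?_).1
      rw [norm_smul]
      have := norm_nonneg ξ
      have := norm_nonneg c
      nlinarith
    have han : AnalyticOnNhd ℂ (fun c : ℂ => g (w + TT s u (c • ξ))) (Metric.closedBall 0 1) := by
      have hd : DifferentiableOn ℂ (fun c : ℂ => g (w + TT s u (c • ξ))) (Metric.ball 0 (4 / 3)) := by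
        have hd2 : Differentiable ℂ (fun c : ℂ => w + TT s u (c • ξ)) := by
          have e : (fun c : ℂ => w + TT s u (c • ξ)) = fun c : ℂ => w + c • TT s u ξ := by
            funext c; rw [map_smul]
          rw [e]
          fun_prop
        refine hg.comp hd2.differentiableOn ?_
        intro c hc
        exact hmem c (mem_ball_zero_iff.mp hc)
      intro c hc
      refine hd.analyticAt (Metric.isOpen_ball.mem_nhds ?_)
      rw [mem_closedBall_zero_iff] at hc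
      rw [mem_ball_zero_iff]
      linarith
    have h2 := enorm_rpow_le_lintegral han hp
    simp only [zero_smul, map_zero, add_zero] at h2
    refine h2.trans (le_of_eq ?_)
    refine lintegral_congr (fun θ => ?_)
    rw [hφg]
    apply hmem
    rw [Complex.norm_exp_ofReal_mul_I]; norm_num
  -- integrate over the ball
  have h2 : volume (Metric.ball (0 : E n) (1 / 4)) * (ENNReal.ofReal (2 * Real.pi) * ‖g w‖ₑ ^ p) ≤
      ∫⁻ ξ in Metric.ball (0 : E n) (1 / 4), ∫⁻ θ in Ioc (0:ℝ) (2 * Real.pi),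
        φ (w + TT s u (Complex.exp (θ * Complex.I) • ξ)) := by
    have h3 := setLIntegral_mono' (μ := volume) (Metric.isOpen_ball (x := (0 : E n))
      (ε := 1 / 4)).measurableSet h1
    rw [setLIntegral_const, mul_comm] at h3
    exact h3
  have hcont : Continuous (fun x : E n × ℝ => w + TT s u (Complex.exp (x.2 * Complex.I) • x.1)) := by
    have : Continuous (fun x : E n × ℝ => Complex.exp (x.2 * Complex.I) • x.1) := by
      fun_prop
    exact continuous_const.add (hTc.comp this)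
  have hae : AEMeasurable (Function.uncurry (fun (ξ : E n) (θ : ℝ) =>
      φ (w + TT s u (Complex.exp (θ * Complex.I) • ξ))))
      ((volume.restrict (Metric.ball (0 : E n) (1 / 4))).prod
        (volume.restrict (Ioc (0:ℝ) (2 * Real.pi)))) := (hφ.comp hcont.measurable).aemeasurable
  rw [lintegral_lintegral_swap hae] at h2
  -- rotation invariance of the inner integral
  have h3 : ∀ θ : ℝ, ∫⁻ ξ in Metric.ball (0 : E n) (1 / 4),
      φ (w + TT s u (Complex.exp (θ * Complex.I) • ξ)) =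
      ∫⁻ ξ in Metric.ball (0 : E n) (1 / 4), φ (w + TT s u ξ) := by
    intro θ
    have hms : MeasurableSet (Metric.ball (0 : E n) (1 / 4)) := Metric.isOpen_ball.measurableSet
    set ψ : E n → ENNReal := (Metric.ball (0 : E n) (1 / 4)).indicator (fun ξ => φ (w + TT s u ξ))
      with hψ
    have hψm : Measurable ψ := by
      refine Measurable.indicator ?_ hms
      exact hφ.comp (continuous_const.add hTc).measurable
    set L : E n →ₗ[ℂ] E n := Complex.exp (θ * Complex.I) • LinearMap.id with hL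
    have hdet : ‖LinearMap.det L‖ = 1 := by
      rw [hL, LinearMap.det_smul, LinearMap.det_id, mul_one, norm_pow,
        Complex.norm_exp_ofReal_mul_I, one_pow]
    have h4 := lintegral_comp_clinear L one_pos hdet ψ hψm
    rw [← lintegral_indicator hms, ← lintegral_indicator hms]
    have e1 : ∀ ξ, ψ (L ξ) = (Metric.ball (0 : E n) (1 / 4)).indicator
        (fun ξ => φ (w + TT s u (Complex.exp (θ * Complex.I) • ξ))) ξ := by
      intro ξ
      have e2 : L ξ = Complex.exp (θ * Complex.I) • ξ := rfl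
      rw [e2, hψ]
      by_cases hm : ξ ∈ Metric.ball (0 : E n) (1 / 4)
      · have hm2 : Complex.exp (θ * Complex.I) • ξ ∈ Metric.ball (0 : E n) (1 / 4) := by
          rw [mem_ball_zero_iff] at hm ⊢
          rwa [norm_smul, Complex.norm_exp_ofReal_mul_I, one_mul]
        rw [indicator_of_mem hm, indicator_of_mem hm2]
      · have hm2 : Complex.exp (θ * Complex.I) • ξ ∉ Metric.ball (0 : E n) (1 / 4) := by
          rw [mem_ball_zero_iff] at hm ⊢
          rwa [norm_smul, Complex.norm_exp_ofReal_mul_I, one_mul]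
        rw [indicator_of_notMem hm, indicator_of_notMem hm2]
    simp only [e1] at h4
    rw [h4, one_pow, inv_one, ENNReal.ofReal_one, one_mul]
  simp only [h3] at h2
  rw [setLIntegral_const, Real.volume_Ioc, sub_zero] at h2
  have h5 : ENNReal.ofReal (2 * Real.pi) ≠ 0 := by
    rw [Ne, ENNReal.ofReal_eq_zero, not_le]; exact hpi
  have h6 : volume (Metric.ball (0 : E n) (1 / 4)) * (ENNReal.ofReal (2 * Real.pi) * ‖g w‖ₑ ^ p) =
      (volume (Metric.ball (0 : E n) (1 / 4)) * ‖g w‖ₑ ^ p) * ENNReal.ofReal (2 * Real.pi) := by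
    ring
  rw [h6] at h2
  exact (ENNReal.mul_le_mul_iff_left h5 ENNReal.ofReal_ne_top).mp h2

/-- the theorem, with the facts about the cone measure as hypotheses -/
theorem submean_aux (n : ℕ) (hn : 0 < n)
    (hpolar : ∀ φ : E n → ENNReal, Measurable φ → ∫⁻ z in B n, φ z =
      ∫⁻ r in Ioo (0:ℝ) 1, ENNReal.ofReal (2 * n * r ^ (2 * n - 1)) * ∫⁻ ζ, φ (r • ζ) ∂(sig n))
    (hsph : sig n (Sph n)ᶜ = 0) (p : ℝ) (hp : 0 < p) : ∃ C : ℝ, 0 < C ∧
    ∀ h : E n → ℂ, DifferentiableOn ℂ h (B n) → ∀ w ∈ B n,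
    ‖h w‖ₑ ^ p ≤ ENNReal.ofReal (C * (dl w ^ n)⁻¹) *
      ∫⁻ ζ in {ζ | rho ζ w ≤ C * Real.sqrt (dl w)}, (rmax h ζ) ^ p ∂(sig n) := by
  classical
  set V := volume (Metric.ball (0 : E n) (1 / 4)) with hV
  have hVpos : 0 < V := Metric.measure_ball_pos _ _ (by norm_num)
  have hVtop : V ≠ ⊤ := measure_ball_lt_top.ne
  set v := V.toReal with hv
  have hvpos : 0 < v := ENNReal.toReal_pos hVpos.ne' hVtop
  have hVv : V = ENNReal.ofReal v := (ENNReal.ofReal_toReal hVtop).symm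
  refine ⟨max (4 * n / v) 3, lt_max_of_lt_right (by norm_num), ?_⟩
  intro g hg w hw
  have hδ := dl_pos hw
  have hδ1 := dl_le_one w
  have hwn := norm_nonneg w
  have hw1 : ‖w‖ < 1 := mem_B.mp hw
  set δ := dl w with hδdef
  set s := Real.sqrt δ with hs
  have hs0 : 0 ≤ s := Real.sqrt_nonneg _
  have hs2 : s ^ 2 = δ := Real.sq_sqrt hδ.le
  have hspos : 0 < s := Real.sqrt_pos.mpr hδ
  -- the direction
  obtain ⟨u, hu, hwu, hsu⟩ : ∃ u : E n, ‖u‖ ≤ 1 ∧ w = (‖w‖ : ℂ) • u ∧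
      (s - 1) * (‖u‖ ^ 2 - 1) = 0 := by
    rcases eq_or_ne w 0 with h0 | h0
    · refine ⟨0, by simp, by simp [h0], ?_⟩
      have : s = 1 := by rw [hs, hδdef, h0]; simp [dl]
      rw [this]; ring
    · refine ⟨((‖w‖ : ℂ)⁻¹) • w, ?_, ?_, ?_⟩
      · rw [norm_smul, norm_inv, Complex.norm_real, norm_norm,
          inv_mul_cancel₀ (norm_ne_zero_iff.mpr h0)]
      · rw [smul_smul, mul_inv_cancel₀, one_smul]
        exact_mod_cast norm_ne_zero_iff.mpr h0
      · rw [norm_smul, norm_inv, Complex.norm_real, norm_norm,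
          inv_mul_cancel₀ (norm_ne_zero_iff.mpr h0)]
        ring
  -- the measurable function
  set φ : E n → ENNReal := (B n).indicator (fun z => ‖g z‖ₑ ^ p) with hφ
  have hBo : IsOpen (B n) := Metric.isOpen_ball
  have hBm : MeasurableSet (B n) := hBo.measurableSet
  have hφm : Measurable φ := by
    have h1 : Measurable ((B n).piecewise g 0) :=
      hg.continuousOn.measurable_piecewise continuousOn_const hBm
    have h2 : φ = (B n).indicator (fun z => ‖(B n).piecewise g 0 z‖ₑ ^ p) := by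
      rw [hφ]
      funext z
      by_cases hz : z ∈ B n
      · rw [indicator_of_mem hz, indicator_of_mem hz, piecewise_eq_of_mem _ _ _ hz]
      · rw [indicator_of_notMem hz, indicator_of_notMem hz]
    rw [h2]
    exact (h1.enorm.pow_const p).indicator hBm
  have hφg : ∀ z ∈ B n, φ z = ‖g z‖ₑ ^ p := fun z hz => by rw [hφ, indicator_of_mem hz]
  have h1 := solid_mean hw hs2 hs0 u hu hwu hsu g hg hp φ hφm hφg
  -- localise
  set P : Set (E n) := {z | dl z ≤ 2 * δ ∧ d z w ≤ 2 * δ} with hP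
  have hdlc : Continuous (fun z : E n => dl z) := by unfold dl; fun_prop
  have hdc : Continuous (fun z : E n => d z w) := by unfold d q; fun_prop
  have hPm : MeasurableSet P :=
    ((isClosed_le hdlc continuous_const).inter (isClosed_le hdc continuous_const)).measurableSet
  set φ' : E n → ENNReal := P.indicator φ with hφ'
  have hφ'm : Measurable φ' := hφm.indicator hPm
  have h2 : ∫⁻ ξ in Metric.ball (0 : E n) (1 / 4), φ (w + TT s u ξ) ≤
      ∫⁻ ξ, φ' (w + TT s u ξ) := by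
    refine le_trans ?_ (setLIntegral_le_lintegral (Metric.ball (0 : E n) (1 / 4)) _)
    refine setLIntegral_mono' Metric.isOpen_ball.measurableSet (fun ξ hξ => ?_)
    rw [mem_ball_zero_iff] at hξ
    have h3 := point_estimates hw hs2 hs0 u hu hwu hsu (ξ := ξ) (by linarith)
    rw [hφ', indicator_of_mem (show w + TT s u ξ ∈ P from ⟨h3.2.1, h3.2.2⟩)]
  have hdet : ‖LinearMap.det (TT s u)‖ = s ^ (n + 1) := by
    rw [TT_det s u hsu, Complex.norm_real, Real.norm_of_nonneg (by positivity)]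
  have h3 : ∫⁻ ξ, φ' (w + TT s u ξ) = ENNReal.ofReal ((δ ^ (n + 1))⁻¹) * ∫⁻ z, φ' z := by
    have h4 := lintegral_comp_clinear (TT s u) (by positivity) hdet (fun x => φ' (w + x))
      (hφ'm.comp (measurable_const_add w))
    have h5 : ∫⁻ x, φ' (w + x) = ∫⁻ x, φ' x := lintegral_add_left_eq_self _ _
    have h6 : (s ^ (n + 1)) ^ 2 = δ ^ (n + 1) := by
      rw [← hs2]; ring
    rw [h5, h6] at h4
    exact h4
  -- polar coordinates
  have h4 : ∫⁻ z, φ' z = ∫⁻ z in B n, φ' z := by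
    rw [← lintegral_indicator hBm]
    refine lintegral_congr (fun z => ?_)
    by_cases hz : z ∈ B n
    · rw [indicator_of_mem hz]
    · rw [indicator_of_notMem hz, hφ', hφ]
      by_cases hz2 : z ∈ P
      · rw [indicator_of_mem hz2, indicator_of_notMem hz]
      · rw [indicator_of_notMem hz2]
  set C := max (4 * n / v) 3 with hC
  have hC3 : 3 ≤ C := le_max_right _ _
  set S : Set (E n) := {ζ | rho ζ w ≤ C * Real.sqrt δ} with hS
  have hrc : Continuous (fun z : E n => rho z w) := by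
    unfold rho; exact hdc.sqrt
  have hSm : MeasurableSet S := (isClosed_le hrc continuous_const).measurableSet
  set J := ∫⁻ ζ in S, (rmax g ζ) ^ p ∂(sig n) with hJ
  have hsph' : ∀ᵐ ζ ∂(sig n), ζ ∈ Sph n := by
    rw [ae_iff]; exact hsph
  have h5 : ∀ r ∈ Ioo (0:ℝ) 1, ∫⁻ ζ, φ' (r • ζ) ∂(sig n) ≤
      (Icc (1 - 2 * δ) 1).indicator (fun _ => J) r := by
    intro r hr
    have h6 : ∀ᵐ ζ ∂(sig n), φ' (r • ζ) ≤
        (Icc (1 - 2 * δ) 1).indicator (fun _ => S.indicator (fun ζ => (rmax g ζ) ^ p) ζ) r := by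
      filter_upwards [hsph'] with ζ hζ
      have hζ1 : ‖ζ‖ = 1 := by simpa [Sph] using hζ
      rw [hφ']
      by_cases hz : r • ζ ∈ P
      · rw [indicator_of_mem hz]
        have hrn : ‖r • ζ‖ = r := by rw [norm_smul, hζ1, mul_one, Real.norm_of_nonneg hr.1.le]
        have hrb : r • ζ ∈ B n := by rw [mem_B, hrn]; exact hr.2
        have h7 : 1 - r ≤ 2 * δ := by
          have h8 : dl (r • ζ) ≤ 2 * δ := hz.1
          unfold dl at h8
          rw [hrn] at h8
          nlinarith [hr.1, hr.2]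
        have hrI : r ∈ Icc (1 - 2 * δ) 1 := ⟨by linarith, hr.2.le⟩
        rw [indicator_of_mem hrI]
        have hζS : ζ ∈ S := by
          have h8 := rho_tri ζ (r • ζ) w hζ1.le (hrn.le.trans hr.2.le) hw1.le
          have h9 : d ζ (r • ζ) = 1 - r := by
            rw [d_comm]
            have := d_rad_self hζ1 (h := 1 - r) (by linarith [hr.2])
            simpa using this
          have h10 : rho ζ (r • ζ) ≤ 3 / 2 * s := by
            unfold rho
            rw [h9]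
            refine (Real.sqrt_le_sqrt h7).trans ?_
            rw [Real.sqrt_mul (by norm_num)]
            refine mul_le_mul_of_nonneg_right ?_ hs0
            rw [Real.sqrt_le_left (by norm_num)]; norm_num
          have h11 : rho (r • ζ) w ≤ 3 / 2 * s := by
            unfold rho
            refine (Real.sqrt_le_sqrt hz.2).trans ?_
            rw [Real.sqrt_mul (by norm_num)]
            refine mul_le_mul_of_nonneg_right ?_ hs0
            rw [Real.sqrt_le_left (by norm_num)]; norm_num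
          show rho ζ w ≤ C * Real.sqrt δ
          have h12 : 3 * s ≤ C * s := mul_le_mul_of_nonneg_right hC3 hs0
          linarith
        rw [indicator_of_mem hζS, hφg _ hrb]
        refine ENNReal.rpow_le_rpow ?_ hp.le
        unfold rmax
        exact le_iSup₂ (f := fun (r : ℝ) (_ : r ∈ Ico (0:ℝ) 1) => ‖g (r • ζ)‖ₑ) r ⟨hr.1.le, hr.2⟩
      · rw [indicator_of_notMem hz]; exact bot_le
    refine (lintegral_mono_ae h6).trans ?_
    by_cases hrI : r ∈ Icc (1 - 2 * δ) 1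
    · simp only [indicator_of_mem hrI]
      rw [lintegral_indicator hSm]
    · simp only [indicator_of_notMem hrI]
      simp
  have h6 : ∫⁻ z in B n, φ' z ≤ ENNReal.ofReal (2 * n) * (ENNReal.ofReal (2 * δ) * J) := by
    rw [hpolar φ' hφ'm]
    calc ∫⁻ r in Ioo (0:ℝ) 1, ENNReal.ofReal (2 * n * r ^ (2 * n - 1)) *
          ∫⁻ ζ, φ' (r • ζ) ∂(sig n)
        ≤ ∫⁻ r in Ioo (0:ℝ) 1, ENNReal.ofReal (2 * n) *
            (Icc (1 - 2 * δ) 1).indicator (fun _ => J) r := by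
          refine setLIntegral_mono' measurableSet_Ioo (fun r hr => ?_)
          refine mul_le_mul' ?_ (h5 r hr)
          refine ENNReal.ofReal_le_ofReal ?_
          have h7 : r ^ (2 * n - 1) ≤ 1 := pow_le_one₀ hr.1.le hr.2.le
          have h8 : (0:ℝ) ≤ 2 * n := by positivity
          nlinarith
      _ ≤ ∫⁻ r, ENNReal.ofReal (2 * n) * (Icc (1 - 2 * δ) 1).indicator (fun _ => J) r :=
          setLIntegral_le_lintegral _ _
      _ = ENNReal.ofReal (2 * n) * (ENNReal.ofReal (2 * δ) * J) := by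
          rw [lintegral_const_mul' _ _ ENNReal.ofReal_ne_top,
            lintegral_indicator measurableSet_Icc, setLIntegral_const, Real.volume_Icc, mul_comm J]
          congr 3
          ring
  have h7 : V * ‖g w‖ₑ ^ p ≤ ENNReal.ofReal (4 * n * (δ ^ n)⁻¹) * J := by
    refine h1.trans (h2.trans ?_)
    rw [h3, h4]
    refine (mul_le_mul_right h6 _).trans (le_of_eq ?_)
    rw [← mul_assoc, ← mul_assoc, ← ENNReal.ofReal_mul (by positivity),
      ← ENNReal.ofReal_mul (by positivity)]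
    congr 2
    field_simp
    ring
  have h8 : ‖g w‖ₑ ^ p ≤ ENNReal.ofReal (4 * n / v * (δ ^ n)⁻¹) * J := by
    have h9 : ‖g w‖ₑ ^ p = V⁻¹ * (V * ‖g w‖ₑ ^ p) := by
      rw [← mul_assoc, ENNReal.inv_mul_cancel hVpos.ne' hVtop, one_mul]
    rw [h9]
    refine (mul_le_mul_right h7 _).trans (le_of_eq ?_)
    rw [← mul_assoc, hVv, ← ENNReal.ofReal_inv_of_pos hvpos, ← ENNReal.ofReal_mul (by positivity)]
    congr 2
    field_simp
  refine h8.trans (mul_le_mul_left ?_ _)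
  refine ENNReal.ofReal_le_ofReal ?_
  exact mul_le_mul_of_nonneg_right (le_max_left _ _) (by positivity)

end

end Pool.Agent.Lib.MP7ebef4
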