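import Pool.Agent.Lib.MP_7ebef4_an.Glue
import Pool.Agent.Lib.MP_7ebef4_an.ErrOp2
import Pool.Agent.Lib.MP_7ebef4_an.FR
import Pool.Agent.Lib.MP_7ebef4_an.Meas1
import Pool.Agent.Lib.MP_7ebef4_an.Submean
import Pool.Agent.Lib.MP_7ebef4_an.Emb
import Pool.Agent.Lib.MP_7ebef4_an.CFun
import Pool.Agent.Lib.MP_7ebef4_an.Dir
import Pool.Agent.Lib.MP_7ebef4_an.Block
import Pool.Agent.Lib.MP_7ebef4_an.KerInt

/-! Instantiation of the conditional modules from five raw facts. -/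

set_option autoImplicit false

open MeasureTheory Set

namespace Pool.Agent.Lib.MP7ebef4

noncomputable section

/-- the raw analytic facts -/
structure Raw (n : ℕ) : Prop where
  up : HUp n
  rm1 : ∃ C : ℝ, 0 < C ∧ ∀ (f : E n → ℂ) (ρ : ℝ), 1 < ρ →
    DifferentiableOn ℂ f (Metric.ball 0 ρ) →
    ∫⁻ ζ, rmax f ζ ∂(sig n) ≤ ENNReal.ofReal C * ∫⁻ ζ, ‖f ζ‖ₑ ∂(sig n)
  rm2 : ∃ C : ℝ, 0 < C ∧ ∀ h : E n → ℂ, DifferentiableOn ℂ h (B n) →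
    ∫⁻ ζ, (rmax h ζ) ^ (2:ℕ) ∂(sig n) ≤ ENNReal.ofReal C * H2 h
  lp : ∃ C : ℝ, 0 < C ∧ ∀ g : E n → ℂ, DifferentiableOn ℂ g (B n) →
    H2 g ≤ ENNReal.ofReal C * AN g
  hs : ∃ C : ℝ, 0 < C ∧ ∀ (f : E n → ℂ) (ρ ε : ℝ), 1 < ρ → 0 < ε →
    DifferentiableOn ℂ f (Metric.ball 0 ρ) →
    ∫⁻ z in B n, ENNReal.ofReal (‖fderiv ℂ f z z‖ ^ 2 / Real.sqrt (‖f z‖ ^ 2 + ε ^ 2) * dl z) ≤
      ENNReal.ofReal C * (∫⁻ ζ, ‖f ζ‖ₑ ∂(sig n) + ENNReal.ofReal ε)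

namespace Raw

variable {n : ℕ} (R : Raw n) (hn : 0 < n)

include R hn

theorem FR : HFR n := FR_of n hn (fun φ hφ => polar hn φ hφ) (sig_sph n hn) R.up

omit R in
theorem sub (p : ℝ) (hp : 0 < p) : ∃ C : ℝ, 0 < C ∧
    ∀ h : E n → ℂ, DifferentiableOn ℂ h (B n) → ∀ w ∈ B n,
    ‖h w‖ₑ ^ p ≤ ENNReal.ofReal (C * (dl w ^ n)⁻¹) *
      ∫⁻ ζ in {ζ | rho ζ w ≤ C * Real.sqrt (dl w)}, (rmax h ζ) ^ p ∂(sig n) :=
  submean_aux n hn (fun φ hφ => polar hn φ hφ) (sig_sph n hn) p hp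

theorem cfInp : CF.Inp n where
  up := R.up
  sph := sig_sph n hn
  polar := fun φ hφ => polar hn φ hφ
  rm := R.rm1
  sub := sub hn (1/2) (by norm_num)
  hs := R.hs

theorem exists_c (cT : ℝ) (hc : 0 < cT) : ∃ C : ℝ, 0 < C ∧
    ∀ (f : E n → ℂ) (ρ m : ℝ), 1 < ρ → DifferentiableOn ℂ f (Metric.ball 0 ρ) →
      0 < m → ∫⁻ ζ, ‖f ζ‖ₑ ∂(sig n) = ENNReal.ofReal m →
    ∃ I₀ : ℕ, ∀ T : Tree n cT, I₀ ≤ T.I → ∃ c : T.ι → ℝ, IsC T C m c ∧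
      ∫⁻ w, ‖Aop f w‖ₑ ^ (2:ℕ) * ENNReal.ofReal (c (T.loc w) ^ 2)⁻¹ ∂(lam n) ≤
        ENNReal.ofReal (C * m) :=
  exists_c_of n (R.cfInp hn) cT hc

theorem emb (cT : ℝ) (hc : 0 < cT) : EmbStmt n cT :=
  carleson_embed_of n hn cT hc (sig_sph n hn) R.up (sub hn 1 (by norm_num)) R.rm2

theorem schurQ (η : ℝ) (h0 : 0 < η) (h1 : η ≤ 1) : SchurQ n η := SchurQ_of n (R.FR hn) η h0 h1

omit R in
theorem sgHol : SgHol n := fun F hF hF2 => Sg_hol hn F hF hF2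

theorem err1 (cT : ℝ) (hc : 0 < cT) (C K : ℝ) : Err1Stmt n cT C K := by
  have hn1 : (1:ℝ) ≤ n := by exact_mod_cast hn
  refine Err1_le n cT C K ?_ ?_ ?_ ?_
  · apply LevelSum_of n R.up cT hc
    have : n < sE n - n - 1 := by unfold sE; omega
    exact_mod_cast this
  · apply NodeSum_of n R.up cT hc
    · have : n + 1 < sE n - n := by unfold sE; omega
      have h2 : ((n + 1 : ℕ) : ℝ) < ((sE n - n : ℕ) : ℝ) := by exact_mod_cast this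
      push_cast at h2 ⊢
      linarith
    · linarith
  · apply NodeSum_of n R.up cT hc
    · have : n + 1 ≤ Sys.mE n := by unfold Sys.mE sE; omega
      have h2 : ((n + 1 : ℕ) : ℝ) ≤ ((Sys.mE n : ℕ) : ℝ) := by exact_mod_cast this
      push_cast at h2 ⊢
      linarith
    · linarith
  · apply NodeSum_of n R.up cT hc
    · have : n + 1 ≤ Sys.mE n := by unfold Sys.mE sE; omega
      have h2 : ((n + 1 : ℕ) : ℝ) ≤ ((Sys.mE n : ℕ) : ℝ) := by exact_mod_cast this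
      push_cast at h2 ⊢
      linarith
    · linarith

theorem e2a (cT : ℝ) (hc : 0 < cT) (C K : ℝ) : E2aStmt n cT C K :=
  E2a_final n cT hc C K R.up (R.FR hn)

theorem e2b (cT : ℝ) (hc : 0 < cT) (C K : ℝ) : E2bStmt n cT C K := by
  obtain ⟨A, hA, h⟩ := E2b_of n cT (sgHol hn) (R.schurQ hn 1 one_pos le_rfl)
    (RowQ_of n (R.FR hn) (1/2) (by norm_num) (by norm_num)) R.lp (R.emb hn cT hc)
  exact ⟨A, hA, fun S F hF hX => h C K S F hF hX⟩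

/-- operator bound of the error -/
theorem EF_bound (cT : ℝ) (hc : 0 < cT) (C K : ℝ) :
    ∃ A : ℝ, 0 < A ∧ ∀ (S : Sys n cT C K) (F : E n → ℂ), AEStronglyMeasurable F (lam n) →
      S.XN F < ⊤ → S.XN (S.EF F) ≤ ENNReal.ofReal (A * (S.kap1 ^ 2 + S.eb)) * S.XN F :=
  EF_le n cT C K (R.schurQ hn (1/4) (by norm_num) (by norm_num)) (R.err1 hn cT hc C K)
    (R.e2a hn cT hc C K) (R.e2b hn cT hc C K)

theorem HN : ∃ A : ℝ, 0 < A ∧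
    ∀ (cT C K : ℝ) (S : Sys n cT C K) (F : E n → ℂ), AEStronglyMeasurable F (lam n) → S.XN F < ⊤ →
      (∀ j, DifferentiableOn ℂ (S.HFj F j) (B n)) ∧
      (∀ j, ∀ z ∈ B n, Dop (S.HFj F j) z =
        ∫ w, F w * (S.DPhi w z * (starRingEnd ℂ) (S.u (S.vw w) j)) ∂(lam n)) ∧
      ∑ j, AN (S.HFj F j) ≤ ENNReal.ofReal A * S.XN F :=
  HN_of n (sgHol hn) (R.schurQ hn 1 one_pos le_rfl)

omit hn in
theorem pumps (cT : ℝ) (hc : 0 < cT) (C : ℝ) (hC : 0 < C) :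
    ∃ K : ℝ, 1 ≤ K ∧ ∀ ε > 0, ∃ p₀ : ℝ, ∀ p' ≥ p₀, ∀ (T : Tree n cT) (m : ℝ) (c : T.ι → ℝ),
      IsC T C m c → ∃ resp : T.ι → T.ι, IsPump T c K ε p' resp :=
  exists_pumps_final n cT hc R.up C hC

theorem blocks (cT : ℝ) (hc : 0 < cT) : ∃ C : ℝ, 0 < C ∧
    ∀ (L N₀ : ℕ), 0 < N₀ → ∀ (T : Tree n cT) (resp : T.ι → T.ι),
    (∀ (x : T.ι) (V : Finset T.ι), (∀ v ∈ V, resp v = v ∧ T.le v x) →
      ∑ v ∈ V, T.vol v ≤ 2 * T.vol x) →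
    ∃ b : T.ι → Fin N₀, IsBlock T resp L N₀ (C * (1 / N₀ + ((1/64 : ℝ) ^ L) ^ n)) b :=
  exists_blocks_of n hn R.up cT hc

omit hn in
theorem dirs (cT : ℝ) (hc : 0 < cT) (L : ℕ) (p'' : ℝ) :
    ∃ J : ℕ, ∀ N₀ : ℕ, 0 < N₀ → ∀ (T : Tree n cT) (c : T.ι → ℝ) (resp : T.ι → T.ι)
      (b : T.ι → Fin N₀), (∀ x, resp x = x ∨ resp x = resp (T.par x)) → resp T.root = T.root →
      ∃ u : T.ι → E (N₀ * J), IsDir T c resp L N₀ p'' b u :=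
  exists_dir_of n R.up cT hc L p''

end Raw

end

end Pool.Agent.Lib.MP7ebef4
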