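import Pool.Agent.Lib.MP_7ebef4_an.Geo

/-! Elementary facts about `Tree`, `rr`, `hh`, `resp`. -/

set_option autoImplicit false

open MeasureTheory Set

namespace Pool.Agent.Lib.MP7ebef4

noncomputable section

/-! ### radii and heights -/

theorem hh_pos (i : ℕ) : 0 < hh i := by unfold hh; positivity
theorem rr_pos (i : ℕ) : 0 < rr i := by unfold rr; positivity
theorem hh_zero : hh 0 = 1 := by unfold hh; norm_num
theorem rr_zero : rr 0 = 2 := by unfold rr; norm_num
theorem hh_succ (i : ℕ) : hh (i+1) = hh i / 64 := by unfold hh; rw [pow_succ]; ring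
theorem rr_succ (i : ℕ) : rr (i+1) = rr i / 8 := by unfold rr; rw [pow_succ]; ring
theorem rr_sq (i : ℕ) : rr i ^ 2 = 4 * hh i := by
  unfold rr hh
  rw [mul_pow, ← pow_mul, mul_comm i 2, pow_mul]; norm_num
theorem hh_anti {i j : ℕ} (h : i ≤ j) : hh j ≤ hh i := by
  unfold hh; exact pow_le_pow_of_le_one (by norm_num) (by norm_num) h
theorem rr_anti {i j : ℕ} (h : i ≤ j) : rr j ≤ rr i := by
  unfold rr
  have : (1/8:ℝ)^j ≤ (1/8:ℝ)^i := pow_le_pow_of_le_one (by norm_num) (by norm_num) h
  linarith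
theorem hh_le_one (i : ℕ) : hh i ≤ 1 := by
  rw [← hh_zero]; exact hh_anti (Nat.zero_le i)
theorem rr_le_two (i : ℕ) : rr i ≤ 2 := by
  rw [← rr_zero]; exact rr_anti (Nat.zero_le i)
theorem hh_add (i j : ℕ) : hh (i+j) = hh i * (1/64)^j := by unfold hh; rw [pow_add]
theorem rr_add (i j : ℕ) : rr (i+j) = rr i * (1/8)^j := by unfold rr; rw [pow_add]; ring
theorem sqrt_hh (i : ℕ) : Real.sqrt (hh i) = rr i / 2 := by
  rw [show hh i = (rr i / 2) ^ 2 by rw [div_pow, rr_sq]; ring]
  exact Real.sqrt_sq (by have := rr_pos i; positivity)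

variable {n : ℕ} {cT : ℝ}

namespace Tree

variable (T : Tree n cT)

theorem h_pos (x : T.ι) : 0 < T.h x := hh_pos _
theorem r_pos (x : T.ι) : 0 < T.r x := rr_pos _
theorem h_le_one (x : T.ι) : T.h x ≤ 1 := hh_le_one _
theorem h_nonneg (x : T.ι) : 0 ≤ T.h x := (T.h_pos x).le
theorem norm_pt_le (x : T.ι) : ‖T.pt x‖ ≤ 1 := (T.norm_pt x).le
theorem norm_a (x : T.ι) : ‖T.a x‖ = 1 - T.h x := norm_rad (T.norm_pt x) (T.h_nonneg x) (T.h_le_one x)
theorem norm_a_le (x : T.ι) : ‖T.a x‖ ≤ 1 := by
  rw [norm_a]; linarith [T.h_pos x]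
theorem a_mem (x : T.ι) : T.a x ∈ B n := rad_mem_B (T.norm_pt x) (T.h_pos x) (T.h_le_one x)

theorem lev_par' (x : T.ι) : T.lev (T.par x) = T.lev x - 1 := by
  by_cases h : T.lev x = 0
  · rw [T.eq_root x h, T.par_root, T.lev_root]
  · have := T.lev_par x h; omega

theorem lev_iter (k : ℕ) (x : T.ι) : T.lev (T.par^[k] x) = T.lev x - k := by
  induction k with
  | zero => simp
  | succ k ih =>
    rw [Function.iterate_succ_apply', T.lev_par', ih]; omega

/-- ancestor of level `j` (if `j ≤ lev x`) -/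
def anc (j : ℕ) (x : T.ι) : T.ι := T.par^[T.lev x - j] x

theorem lev_anc {j : ℕ} {x : T.ι} (h : j ≤ T.lev x) : T.lev (T.anc j x) = j := by
  unfold anc; rw [lev_iter]; omega

theorem anc_self (x : T.ι) : T.anc (T.lev x) x = x := by
  unfold anc; simp

theorem le_refl (x : T.ι) : T.le x x := ⟨0, rfl⟩

theorem le_trans {x y z : T.ι} (h1 : T.le x y) (h2 : T.le y z) : T.le x z := by
  obtain ⟨k, hk⟩ := h1
  obtain ⟨l, hl⟩ := h2
  refine ⟨l + k, ?_⟩
  rw [Function.iterate_add_apply, hk, hl]

theorem lev_le_of_le {x y : T.ι} (h : T.le x y) : T.lev y ≤ T.lev x := by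
  obtain ⟨k, hk⟩ := h
  rw [← hk, lev_iter]; omega

theorem le_anc (j : ℕ) (x : T.ι) : T.le x (T.anc j x) := ⟨_, rfl⟩

theorem le_par (x : T.ι) : T.le x (T.par x) := ⟨1, rfl⟩

theorem iter_root (k : ℕ) : T.par^[k] T.root = T.root := by
  induction k with
  | zero => rfl
  | succ k ih => rw [Function.iterate_succ_apply', ih, T.par_root]

theorem eq_anc_of_le {x y : T.ι} (h : T.le x y) : y = T.anc (T.lev y) x := by
  obtain ⟨k, hk⟩ := h
  unfold anc
  by_cases hkl : k ≤ T.lev x
  · have : T.lev y = T.lev x - k := by rw [← hk, lev_iter]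
    rw [this, show T.lev x - (T.lev x - k) = k by omega, hk]
  · have h1 : T.lev y = 0 := by rw [← hk, lev_iter]; omega
    have h2 : T.lev (T.par^[T.lev x - T.lev y] x) = 0 := by rw [lev_iter, h1]; omega
    rw [T.eq_root _ h2, T.eq_root _ h1]

theorem le_iff {x y : T.ι} : T.le x y ↔ T.anc (T.lev y) x = y :=
  ⟨fun h => (T.eq_anc_of_le h).symm, fun h => ⟨_, h⟩⟩

theorem le_antisymm {x y : T.ι} (h1 : T.le x y) (h2 : T.le y x) : x = y := by
  have e : T.lev x = T.lev y := Nat.le_antisymm (T.lev_le_of_le h2) (T.lev_le_of_le h1)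
  have := T.eq_anc_of_le h1
  rw [this, ← e, anc_self]

theorem le_of_lev_eq {x y : T.ι} (h1 : T.le x y) (h : T.lev x = T.lev y) : x = y := by
  have := T.eq_anc_of_le h1
  rw [this, ← h, anc_self]

/-- two ancestors of the same node are comparable -/
theorem le_of_le_of_le {x y z : T.ι} (h1 : T.le x y) (h2 : T.le x z) (h : T.lev z ≤ T.lev y) :
    T.le y z := by
  have e1 := T.eq_anc_of_le h1
  have e2 := T.eq_anc_of_le h2
  have h3 := T.lev_le_of_le h1
  refine ⟨T.lev y - T.lev z, ?_⟩
  have e3 : T.par^[T.lev y - T.lev z] (T.anc (T.lev y) x) = T.anc (T.lev z) x := by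
    unfold anc
    rw [← Function.iterate_add_apply]
    congr 1
    omega
  rw [← e1, ← e2] at e3
  exact e3

theorem le_root (x : T.ι) : T.le x T.root := by
  refine ⟨T.lev x, ?_⟩
  apply T.eq_root
  rw [lev_iter]; omega

theorem anc_anc {i j : ℕ} {x : T.ι} (hij : i ≤ j) (hj : j ≤ T.lev x) :
    T.anc i (T.anc j x) = T.anc i x := by
  unfold anc
  rw [lev_iter, ← Function.iterate_add_apply]
  congr 1; omega

theorem par_anc {j : ℕ} {x : T.ι} (hj : j + 1 ≤ T.lev x) : T.par (T.anc (j+1) x) = T.anc j x := by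
  unfold anc
  rw [← Function.iterate_succ_apply' T.par]
  congr 1; omega

/-- distance to ancestors -/
theorem rho_iter (k : ℕ) (x : T.ι) :
    rho (T.pt x) (T.pt (T.par^[k] x)) ≤ 8/7 * (rr (T.lev x - k) - rr (T.lev x)) := by
  induction k with
  | zero =>
    simp only [Function.iterate_zero, id_eq, Nat.sub_zero, sub_self, mul_zero]
    unfold rho d
    rw [q_self]
    unfold dl
    rw [T.norm_pt]
    simp
  | succ k ih =>
    rw [Function.iterate_succ_apply']
    by_cases h : T.lev (T.par^[k] x) = 0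
    · rw [T.eq_root _ h, T.par_root, ← T.eq_root _ h]
      rw [lev_iter] at h
      have e : T.lev x - (k+1) = T.lev x - k := by omega
      rw [e]; exact ih
    · have h1 := T.rho_par _ h
      rw [T.lev_par', lev_iter] at h1
      rw [lev_iter] at h
      have h2 := rho_tri (T.pt x) (T.pt (T.par^[k] x)) (T.pt (T.par (T.par^[k] x)))
        (T.norm_pt_le _) (T.norm_pt_le _) (T.norm_pt_le _)
      have h3 : T.lev x - k = (T.lev x - (k+1)) + 1 := by omega
      have h4 : T.lev x - k - 1 = T.lev x - (k+1) := by omega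
      rw [h4] at h1
      rw [h3, rr_succ] at ih
      linarith

theorem rho_anc {j : ℕ} {x : T.ι} (hj : j ≤ T.lev x) :
    rho (T.pt x) (T.pt (T.anc j x)) ≤ 8/7 * rr j := by
  have h := T.rho_iter (T.lev x - j) x
  have e : T.lev x - (T.lev x - j) = j := by omega
  rw [e] at h
  unfold anc
  have := rr_pos (T.lev x)
  linarith

theorem rho_le_of_le {x y : T.ι} (h : T.le x y) : rho (T.pt x) (T.pt y) ≤ 8/7 * T.r y := by
  rw [T.eq_anc_of_le h]
  have h1 := T.rho_anc (T.lev_le_of_le h)
  unfold r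
  rw [T.lev_anc (T.lev_le_of_le h)]
  exact h1

/-- `d` between a node and its ancestor -/
theorem d_le_of_le {x y : T.ι} (h : T.le x y) : d (T.pt x) (T.pt y) ≤ 6 * T.h y := by
  have h1 := T.rho_le_of_le h
  rw [← rho_sq]
  have h2 : rho (T.pt x) (T.pt y) ^ 2 ≤ (8/7 * T.r y)^2 := by
    have := rho_nonneg (T.pt x) (T.pt y)
    gcongr
  have h3 : T.r y ^ 2 = 4 * T.h y := rr_sq _
  have := T.h_pos y
  nlinarith

/-! ### cells -/

theorem cell_iter (k : ℕ) (x : T.ι) : T.cell x ⊆ T.cell (T.par^[k] x) := by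
  induction k with
  | zero => simp
  | succ k ih => rw [Function.iterate_succ_apply']; exact ih.trans (T.cell_par _)

theorem cell_mono {x y : T.ι} (h : T.le x y) : T.cell x ⊆ T.cell y := by
  obtain ⟨k, hk⟩ := h; rw [← hk]; exact T.cell_iter k x

theorem cell_disj' {x y : T.ι} (hl : T.lev y ≤ T.lev x) (h : ¬ T.le x y) :
    Disjoint (T.cell x) (T.cell y) := by
  have h1 : T.cell x ⊆ T.cell (T.anc (T.lev y) x) := T.cell_mono (T.le_anc _ _)
  have h2 : T.anc (T.lev y) x ≠ y := fun e => h (T.le_iff.2 e)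
  exact (T.cell_disj _ _ (T.lev_anc hl) h2).mono_left h1

theorem cell_disj_of_not_le {x y : T.ι} (h1 : ¬ T.le x y) (h2 : ¬ T.le y x) :
    Disjoint (T.cell x) (T.cell y) := by
  rcases Nat.le_total (T.lev y) (T.lev x) with h | h
  · exact T.cell_disj' h h1
  · exact (T.cell_disj' h h2).symm

end Tree

/-- the cone measure is finite -/
instance sig_finite (n : ℕ) : IsFiniteMeasure (sig n) := by
  have : IsFiniteMeasure (volume.restrict (B n)) :=
    ⟨by rw [Measure.restrict_apply_univ]; exact measure_ball_lt_top⟩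
  unfold sig
  exact Measure.isFiniteMeasure_map _ _

namespace Tree

variable (T : Tree n cT)

theorem vol_nonneg (x : T.ι) : 0 ≤ T.vol x := ENNReal.toReal_nonneg

theorem ofReal_vol (x : T.ι) : ENNReal.ofReal (T.vol x) = sig n (T.cell x) := by
  unfold vol; exact ENNReal.ofReal_toReal (measure_ne_top _ _)

theorem vol_ge (x : T.ι) (_hc : 0 < cT) : cT * T.h x ^ n ≤ T.vol x := by
  have h := T.cell_vol x
  rw [← T.ofReal_vol] at h
  exact (ENNReal.ofReal_le_ofReal_iff (T.vol_nonneg x)).1 h

theorem vol_pos (x : T.ι) (hc : 0 < cT) : 0 < T.vol x :=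
  lt_of_lt_of_le (mul_pos hc (pow_pos (T.h_pos x) n)) (T.vol_ge x hc)

theorem vol_mono {x y : T.ι} (h : T.le x y) : T.vol x ≤ T.vol y := by
  unfold vol
  exact ENNReal.toReal_mono (measure_ne_top _ _) (measure_mono (T.cell_mono h))

/-- an antichain: total volume of disjoint cells contained in a measurable set -/
theorem sum_vol_le (V : Finset T.ι) (hV : ∀ v ∈ V, ∀ v' ∈ V, T.le v v' → v = v')
    (S : Set (E n)) (hS : ∀ v ∈ V, T.cell v ⊆ S) :
    ∑ v ∈ V, T.vol v ≤ (sig n S).toReal := by
  have h1 : ∑ v ∈ V, sig n (T.cell v) = sig n (⋃ v ∈ V, T.cell v) := by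
    rw [measure_biUnion_finset]
    · intro v hv v' hv' hne
      apply T.cell_disj_of_not_le
      · exact fun h => hne (hV v hv v' hv' h)
      · exact fun h => hne (hV v' hv' v hv h).symm
    · exact fun v _ => T.meas_cell v
  have h2 : ∑ v ∈ V, T.vol v = (∑ v ∈ V, sig n (T.cell v)).toReal := by
    unfold vol
    rw [ENNReal.toReal_sum (fun v _ => measure_ne_top _ _)]
  rw [h2, h1]
  exact ENNReal.toReal_mono (measure_ne_top _ _) (measure_mono (iUnion₂_subset hS))

theorem sum_vol_le_vol (V : Finset T.ι) (hV : ∀ v ∈ V, ∀ v' ∈ V, T.le v v' → v = v') (x : T.ι)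
    (hx : ∀ v ∈ V, T.le v x) : ∑ v ∈ V, T.vol v ≤ T.vol x :=
  T.sum_vol_le V hV (T.cell x) (fun v hv => T.cell_mono (hx v hv))

/-! ### responsible pumps -/

section resp

variable {T} {resp : T.ι → T.ι} (hstep : ∀ x, resp x = x ∨ resp x = resp (T.par x))
  (hroot : resp T.root = T.root)

include hstep hroot

theorem le_resp (x : T.ι) : T.le x (resp x) := by
  have : ∀ k x, T.lev x = k → T.le x (resp x) := by
    intro k
    induction k with
    | zero =>
      intro x hx
      rw [T.eq_root x hx, hroot]; exact T.le_refl _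
    | succ k ih =>
      intro x hx
      rcases hstep x with h | h
      · rw [h]; exact T.le_refl _
      · rw [h]
        exact T.le_trans (T.le_par x) (ih _ (by rw [T.lev_par', hx]; omega))
  exact this _ x rfl

theorem lev_resp_le (x : T.ι) : T.lev (resp x) ≤ T.lev x :=
  T.lev_le_of_le (le_resp hstep hroot x)

theorem resp_eq_of_lev_eq {x : T.ι} (h : T.lev (resp x) = T.lev x) : resp x = x :=
  (T.le_of_lev_eq (le_resp hstep hroot x) h.symm).symm

/-- `resp` takes values in pumps -/
theorem resp_resp (x : T.ι) : resp (resp x) = resp x := by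
  have : ∀ k x, T.lev x = k → resp (resp x) = resp x := by
    intro k
    induction k with
    | zero =>
      intro x hx
      rw [T.eq_root x hx, hroot, hroot]
    | succ k ih =>
      intro x hx
      rcases hstep x with h | h
      · rw [h, h]
      · rw [h]
        exact ih _ (by rw [T.lev_par', hx]; omega)
  exact this _ x rfl

omit hroot in
/-- nodes strictly between a node and its responsible pump have the same responsible pump -/
theorem resp_between {x y : T.ι} (h1 : T.le x y) (h2 : T.lev (resp x) ≤ T.lev y) :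
    resp y = resp x := by
  have : ∀ k x, T.lev x = k → T.le x y → T.lev (resp x) ≤ T.lev y → resp y = resp x := by
    intro k
    induction k with
    | zero =>
      intro x hx hxy _
      have := T.lev_le_of_le hxy
      rw [T.eq_root x hx, T.eq_root y (by omega)]
    | succ k ih =>
      intro x hx hxy hl
      by_cases hxy' : T.lev y = T.lev x
      · rw [T.le_of_lev_eq hxy hxy'.symm]
      · have hlt : T.lev y < T.lev x := lt_of_le_of_ne (T.lev_le_of_le hxy) hxy'
        have hpy : T.le (T.par x) y := by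
          apply T.le_of_le_of_le (T.le_par x) hxy
          rw [T.lev_par']; omega
        rcases hstep x with h | h
        · rw [h] at hl; omega
        · rw [h]
          rw [h] at hl
          exact ih _ (by rw [T.lev_par', hx]; omega) hpy hl
  exact this _ x rfl h1 h2

end resp

end Tree

end

end Pool.Agent.Lib.MP7ebef4
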