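import Pool.Agent.Lib.MP_7ebef4_an.LimitA
import Pool.Agent.Lib.MP_7ebef4_an.TreeBasic

/-!
# MP_7ebef4_an : passage to the limit (conditional on the other modules)
-/

set_option autoImplicit false

open MeasureTheory Set Filter Topology

namespace Pool.Agent.Lib.MP7ebef4

noncomputable section

variable {n : ℕ}

theorem measurable_toSph : Measurable (fun z : E n => (‖z‖⁻¹ : ℝ) • z) :=
  (measurable_norm.inv).smul measurable_id

theorem norm_toSph_le (z : E n) : ‖(‖z‖⁻¹ : ℝ) • z‖ ≤ 1 := by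
  rw [norm_smul, norm_inv, norm_norm]
  by_cases h : ‖z‖ = 0
  · rw [h]; simp
  · rw [inv_mul_cancel₀ h]

theorem sig_ae_le : ∀ᵐ ζ ∂(sig n), ‖ζ‖ ≤ 1 := by
  unfold sig
  rw [ae_map_iff measurable_toSph.aemeasurable (measurableSet_le measurable_norm measurable_const)]
  exact Filter.Eventually.of_forall norm_toSph_le

/-- locally uniform bounds from the `H²` bound -/
theorem locbdd
    (hsub : ∃ C : ℝ, 0 < C ∧
      ∀ h : E n → ℂ, DifferentiableOn ℂ h (B n) → ∀ w ∈ B n,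
      ‖h w‖ₑ ^ (1:ℝ) ≤ ENNReal.ofReal (C * (dl w ^ n)⁻¹) *
        ∫⁻ ζ in {ζ | rho ζ w ≤ C * Real.sqrt (dl w)}, (rmax h ζ) ^ (1:ℝ) ∂(sig n))
    (hr2 : ∃ C : ℝ, 0 < C ∧ ∀ h : E n → ℂ, DifferentiableOn ℂ h (B n) →
      ∫⁻ ζ, (rmax h ζ) ^ (2:ℕ) ∂(sig n) ≤ ENNReal.ofReal C * H2 h)
    (A : ENNReal) (hA : A < ⊤) (r : ℝ) (hr : r < 1) :
    ∃ M : ℝ, ∀ h : E n → ℂ, DifferentiableOn ℂ h (B n) → H2 h ≤ A → ∀ z : E n, ‖z‖ ≤ r → ‖h z‖ ≤ M := by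
  obtain ⟨C₁, hC₁, h1⟩ := hsub
  obtain ⟨C₂, hC₂, h2⟩ := hr2
  by_cases hr0 : r < 0
  · exact ⟨0, fun h _ _ z hz => absurd (norm_nonneg z) (by linarith)⟩
  push Not at hr0
  set Q : ENNReal := ENNReal.ofReal (C₁ * ((1 - r ^ 2) ^ n)⁻¹) *
    ((sig n) univ + ENNReal.ofReal C₂ * A) with hQ
  have hQt : Q < ⊤ := by
    rw [hQ]
    refine ENNReal.mul_lt_top ENNReal.ofReal_lt_top ?_
    exact ENNReal.add_lt_top.mpr ⟨measure_lt_top _ _, ENNReal.mul_lt_top ENNReal.ofReal_lt_top hA⟩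
  refine ⟨Q.toReal, fun h hd hH z hz => ?_⟩
  have hzB : z ∈ B n := by
    simp only [B, Metric.mem_ball, dist_zero_right]; linarith
  have h3 := h1 h hd z hzB
  rw [ENNReal.rpow_one] at h3
  have h4 : ∫⁻ ζ in {ζ | rho ζ z ≤ C₁ * Real.sqrt (dl z)}, (rmax h ζ) ^ (1:ℝ) ∂(sig n) ≤
      (sig n) univ + ENNReal.ofReal C₂ * A := by
    calc ∫⁻ ζ in {ζ | rho ζ z ≤ C₁ * Real.sqrt (dl z)}, (rmax h ζ) ^ (1:ℝ) ∂(sig n)
        ≤ ∫⁻ ζ, (rmax h ζ) ^ (1:ℝ) ∂(sig n) := setLIntegral_le_lintegral _ _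
      _ ≤ ∫⁻ ζ, (1 + (rmax h ζ) ^ (2:ℕ)) ∂(sig n) := by
          refine lintegral_mono (fun ζ => ?_)
          rw [ENNReal.rpow_one]
          by_cases hx : rmax h ζ ≤ 1
          · exact hx.trans le_self_add
          · push Not at hx
            calc rmax h ζ ≤ (rmax h ζ) ^ (2:ℕ) := le_self_pow₀ hx.le (by norm_num)
              _ ≤ _ := le_add_self
      _ = (sig n) univ + ∫⁻ ζ, (rmax h ζ) ^ (2:ℕ) ∂(sig n) := by
          rw [lintegral_add_left measurable_const, lintegral_const, one_mul]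
      _ ≤ (sig n) univ + ENNReal.ofReal C₂ * A := by
          gcongr
          exact (h2 h hd).trans (by gcongr)
  have h5 : ENNReal.ofReal (C₁ * (dl z ^ n)⁻¹) ≤ ENNReal.ofReal (C₁ * ((1 - r ^ 2) ^ n)⁻¹) := by
    refine ENNReal.ofReal_le_ofReal ?_
    have hpos : 0 < 1 - r ^ 2 := by nlinarith
    have hdl : 1 - r ^ 2 ≤ dl z := by
      unfold dl
      have := norm_nonneg z
      nlinarith
    gcongr
  have h6 : ‖h z‖ₑ ≤ Q := h3.trans (mul_le_mul' h5 h4)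
  have h7 := ENNReal.toReal_mono hQt.ne h6
  simpa using h7

theorem H2_ulim (U : Ultrafilter ℕ) (F : ℕ → E n → ℂ) (G : E n → ℂ)
    (hF : ∀ j, DifferentiableOn ℂ (F j) (B n)) (hG : DifferentiableOn ℂ G (B n))
    (hM : ∀ r < (1:ℝ), ∃ M : ℝ, ∀ j, ∀ z : E n, ‖z‖ ≤ r → ‖F j z‖ ≤ M)
    (hFG : ∀ z ∈ B n, Tendsto (fun j => F j z) U (𝓝 (G z))) (A : ENNReal)
    (hA : ∀ j, H2 (F j) ≤ A) : H2 G ≤ A := by
  unfold H2
  refine iSup₂_le (fun r hr => ?_)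
  obtain ⟨M, hMM⟩ := hM r hr.2
  refine ENNReal.le_of_forall_pos_le_add (fun ε hε _ => ?_)
  set s : ℝ := ((sig n) univ).toReal with hs
  have hs0 : 0 ≤ s := ENNReal.toReal_nonneg
  set M' : ℝ := max M 0 with hM'
  have hM'0 : 0 ≤ M' := le_max_right _ _
  set ε' : ℝ := min 1 ((ε:ℝ) / ((2 * M' + 1) * (s + 1))) with hε'
  have hε'0 : 0 < ε' := by
    rw [hε']
    refine lt_min one_pos ?_
    have : (0:ℝ) < ε := by exact_mod_cast hε
    positivity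
  obtain ⟨j, hj⟩ := ulim_unif U F G hF hG hM hFG r hr.2 ε' hε'0
  have h1 : ∀ᵐ ζ ∂(sig n), ‖G (r • ζ)‖ₑ ^ (2:ℕ) ≤ ‖F j (r • ζ)‖ₑ ^ (2:ℕ) +
      ENNReal.ofReal (ε' * (2 * M' + 1)) := by
    filter_upwards [sig_ae_le (n := n)] with ζ hζ
    have hrz : ‖r • ζ‖ ≤ r := by
      rw [norm_smul, Real.norm_of_nonneg hr.1.le]
      nlinarith [hr.1, norm_nonneg ζ]
    have e1 := hj _ hrz
    have e2 : ‖F j (r • ζ)‖ ≤ M' := (hMM j _ hrz).trans (le_max_left _ _)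
    have e3 : ‖G (r • ζ)‖ ≤ ‖F j (r • ζ)‖ + ε' := by
      have : ‖G (r • ζ)‖ = ‖F j (r • ζ) - (F j (r • ζ) - G (r • ζ))‖ := by congr 1; ring
      rw [this]
      exact (norm_sub_le _ _).trans (by linarith)
    have e4 : ‖G (r • ζ)‖ ^ 2 ≤ ‖F j (r • ζ)‖ ^ 2 + ε' * (2 * M' + 1) := by
      have hε1 : ε' ≤ 1 := min_le_left _ _
      have h0 := norm_nonneg (G (r • ζ))
      have h0' := norm_nonneg (F j (r • ζ))
      calc ‖G (r • ζ)‖ ^ 2 ≤ (‖F j (r • ζ)‖ + ε') ^ 2 := by gcongr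
        _ = ‖F j (r • ζ)‖ ^ 2 + ε' * (2 * ‖F j (r • ζ)‖ + ε') := by ring
        _ ≤ ‖F j (r • ζ)‖ ^ 2 + ε' * (2 * M' + 1) := by gcongr
    rw [← ofReal_norm, ← ofReal_norm, ← ENNReal.ofReal_pow (norm_nonneg _),
      ← ENNReal.ofReal_pow (norm_nonneg _), ← ENNReal.ofReal_add (by positivity) (by positivity)]
    exact ENNReal.ofReal_le_ofReal e4
  calc ∫⁻ ζ, ‖G (r • ζ)‖ₑ ^ (2:ℕ) ∂(sig n)
      ≤ ∫⁻ ζ, (‖F j (r • ζ)‖ₑ ^ (2:ℕ) + ENNReal.ofReal (ε' * (2 * M' + 1))) ∂(sig n) :=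
        lintegral_mono_ae h1
    _ = ∫⁻ ζ, ‖F j (r • ζ)‖ₑ ^ (2:ℕ) ∂(sig n) + ENNReal.ofReal (ε' * (2 * M' + 1)) * (sig n) univ := by
        rw [lintegral_add_right _ measurable_const, lintegral_const]
    _ ≤ A + ε := by
        refine add_le_add ?_ ?_
        · refine le_trans ?_ (hA j)
          unfold H2
          exact le_iSup₂ (f := fun (r : ℝ) (_ : r ∈ Ioo (0:ℝ) 1) =>
            ∫⁻ ζ, ‖F j (r • ζ)‖ₑ ^ (2:ℕ) ∂(sig n)) r hr
        · have hst : (sig n) univ = ENNReal.ofReal s := by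
            rw [hs, ENNReal.ofReal_toReal (measure_ne_top _ _)]
          rw [hst, ← ENNReal.ofReal_mul (by positivity)]
          have : ENNReal.ofReal (ε' * (2 * M' + 1) * s) ≤ ENNReal.ofReal (ε : ℝ) := by
            refine ENNReal.ofReal_le_ofReal ?_
            have h2 : ε' ≤ (ε:ℝ) / ((2 * M' + 1) * (s + 1)) := min_le_right _ _
            calc ε' * (2 * M' + 1) * s ≤ ((ε:ℝ) / ((2 * M' + 1) * (s + 1))) * (2 * M' + 1) * (s + 1) := by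
                  gcongr
                  linarith
              _ = ε := by field_simp
          simpa using this

/-- the limit theorem, conditional on the uniform theorem, the maximal theorem and the sub-mean
value property -/
theorem limit_of
    (huni : ∃ (N : ℕ) (C : ℝ), 0 < C ∧ ∀ (f : E n → ℂ) (ρ m : ℝ), 1 < ρ →
      DifferentiableOn ℂ f (Metric.ball 0 ρ) → 0 < m → ∫⁻ ζ, ‖f ζ‖ₑ ∂(sig n) ≤ ENNReal.ofReal m →
      ∀ η : ℝ, 0 < η → ∃ G H : Fin N → E n → ℂ,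
        (∀ j, DifferentiableOn ℂ (G j) (B n) ∧ H2 (G j) ≤ ENNReal.ofReal (C * m) ∧
          DifferentiableOn ℂ (H j) (B n) ∧ H2 (H j) ≤ ENNReal.ofReal (C * m)) ∧
        ∀ z : E n, ‖z‖ ≤ 1 - η → ‖f z - ∑ j, G j z * H j z‖ ≤ η)
    (hsub : ∃ C : ℝ, 0 < C ∧
      ∀ h : E n → ℂ, DifferentiableOn ℂ h (B n) → ∀ w ∈ B n,
      ‖h w‖ₑ ^ (1:ℝ) ≤ ENNReal.ofReal (C * (dl w ^ n)⁻¹) *
        ∫⁻ ζ in {ζ | rho ζ w ≤ C * Real.sqrt (dl w)}, (rmax h ζ) ^ (1:ℝ) ∂(sig n))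
    (hr2 : ∃ C : ℝ, 0 < C ∧ ∀ h : E n → ℂ, DifferentiableOn ℂ h (B n) →
      ∫⁻ ζ, (rmax h ζ) ^ (2:ℕ) ∂(sig n) ≤ ENNReal.ofReal C * H2 h)
    (f : E n → ℂ) (hf : DifferentiableOn ℂ f (B n))
    (h1 : ⨆ r ∈ Ioo (0:ℝ) 1, ∫⁻ ζ, ‖f (r • ζ)‖ₑ ∂(sig n) < ⊤) :
    ∃ (N : ℕ) (G H : Fin N → E n → ℂ),
      (∀ j, DifferentiableOn ℂ (G j) (B n) ∧ H2 (G j) < ⊤ ∧
        DifferentiableOn ℂ (H j) (B n) ∧ H2 (H j) < ⊤) ∧
      ∀ z ∈ B n, f z = ∑ j, G j z * H j z := by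
  obtain ⟨N, C, hC, huni⟩ := huni
  set P : ENNReal := ⨆ r ∈ Ioo (0:ℝ) 1, ∫⁻ ζ, ‖f (r • ζ)‖ₑ ∂(sig n) with hP
  set m : ℝ := P.toReal + 1 with hm
  have hm0 : 0 < m := by
    have := ENNReal.toReal_nonneg (a := P)
    rw [hm]; linarith
  have hPm : P ≤ ENNReal.ofReal m := by
    rw [← ENNReal.ofReal_toReal h1.ne]
    exact ENNReal.ofReal_le_ofReal (by rw [hm]; linarith)
  -- radii
  set rj : ℕ → ℝ := fun j => 1 - 1 / ((j:ℝ) + 2) with hrj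
  have hrj0 : ∀ j, 0 < rj j := by
    intro j
    have : (1:ℝ) / ((j:ℝ) + 2) < 1 := by
      rw [div_lt_one (by positivity)]
      have : (0:ℝ) ≤ j := Nat.cast_nonneg j
      linarith
    simp only [hrj]; linarith
  have hrj1 : ∀ j, rj j < 1 := by
    intro j
    have : (0:ℝ) < 1 / ((j:ℝ) + 2) := by positivity
    simp only [hrj]; linarith
  have hex : ∀ j : ℕ, ∃ G H : Fin N → E n → ℂ,
        (∀ i, DifferentiableOn ℂ (G i) (B n) ∧ H2 (G i) ≤ ENNReal.ofReal (C * m) ∧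
          DifferentiableOn ℂ (H i) (B n) ∧ H2 (H i) ≤ ENNReal.ofReal (C * m)) ∧
        ∀ z : E n, ‖z‖ ≤ 1 - 1 / ((j:ℝ) + 2) →
          ‖f (rj j • z) - ∑ i, G i z * H i z‖ ≤ 1 / ((j:ℝ) + 2) := by
    intro j
    refine huni (fun z => f (rj j • z)) (rj j)⁻¹ m ?_ ?_ hm0 ?_ (1 / ((j:ℝ) + 2)) (by positivity)
    · exact (one_lt_inv₀ (hrj0 j)).mpr (hrj1 j)
    · have hmaps : MapsTo (fun z : E n => rj j • z) (Metric.ball 0 (rj j)⁻¹) (B n) := by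
        intro z hz
        rw [Metric.mem_ball, dist_zero_right] at hz
        simp only [B, Metric.mem_ball, dist_zero_right]
        rw [norm_smul, Real.norm_of_nonneg (hrj0 j).le]
        calc rj j * ‖z‖ < rj j * (rj j)⁻¹ := by
              exact mul_lt_mul_of_pos_left hz (hrj0 j)
          _ = 1 := mul_inv_cancel₀ (hrj0 j).ne'
      refine hf.comp ?_ hmaps
      intro z _
      have : DifferentiableAt ℂ (fun z : E n => ((rj j : ℝ) : ℂ) • z) z :=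
        differentiableAt_id.const_smul ((rj j : ℝ) : ℂ)
      refine (this.congr_of_eventuallyEq ?_).differentiableWithinAt
      exact Filter.Eventually.of_forall (fun z => (Complex.coe_smul _ _).symm)
    · refine le_trans ?_ hPm
      rw [hP]
      exact le_iSup₂ (f := fun (r : ℝ) (_ : r ∈ Ioo (0:ℝ) 1) => ∫⁻ ζ, ‖f (r • ζ)‖ₑ ∂(sig n))
        (rj j) ⟨hrj0 j, hrj1 j⟩
  choose Gs Hs hGH happ using hex
  set U : Ultrafilter ℕ := hyperfilter ℕ with hU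
  have hUle : (U : Filter ℕ) ≤ atTop := by rw [hU]; exact Nat.hyperfilter_le_atTop
  have hbd : ∀ r < (1:ℝ), ∃ M : ℝ, ∀ h : E n → ℂ, DifferentiableOn ℂ h (B n) →
      H2 h ≤ ENNReal.ofReal (C * m) → ∀ z : E n, ‖z‖ ≤ r → ‖h z‖ ≤ M :=
    fun r hr => locbdd hsub hr2 _ ENNReal.ofReal_lt_top r hr
  have hMG : ∀ i, ∀ r < (1:ℝ), ∃ M : ℝ, ∀ j, ∀ z : E n, ‖z‖ ≤ r → ‖Gs j i z‖ ≤ M := by
    intro i r hr
    obtain ⟨M, hM⟩ := hbd r hr
    exact ⟨M, fun j z hz => hM _ (hGH j i).1 (hGH j i).2.1 z hz⟩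
  have hMH : ∀ i, ∀ r < (1:ℝ), ∃ M : ℝ, ∀ j, ∀ z : E n, ‖z‖ ≤ r → ‖Hs j i z‖ ≤ M := by
    intro i r hr
    obtain ⟨M, hM⟩ := hbd r hr
    exact ⟨M, fun j z hz => hM _ (hGH j i).2.2.1 (hGH j i).2.2.2 z hz⟩
  have hG : ∀ i, ∃ G : E n → ℂ, DifferentiableOn ℂ G (B n) ∧
      ∀ z ∈ B n, Tendsto (fun j => Gs j i z) U (𝓝 (G z)) := fun i =>
    exists_ulim_hol U (fun j => Gs j i) (fun j => (hGH j i).1) (hMG i)
  have hH : ∀ i, ∃ G : E n → ℂ, DifferentiableOn ℂ G (B n) ∧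
      ∀ z ∈ B n, Tendsto (fun j => Hs j i z) U (𝓝 (G z)) := fun i =>
    exists_ulim_hol U (fun j => Hs j i) (fun j => (hGH j i).2.2.1) (hMH i)
  choose G hGd hGt using hG
  choose H hHd hHt using hH
  refine ⟨N, G, H, fun i => ⟨hGd i, ?_, hHd i, ?_⟩, fun z hz => ?_⟩
  · exact (H2_ulim U (fun j => Gs j i) (G i) (fun j => (hGH j i).1) (hGd i) (hMG i) (hGt i) _
      (fun j => (hGH j i).2.1)).trans_lt ENNReal.ofReal_lt_top
  · exact (H2_ulim U (fun j => Hs j i) (H i) (fun j => (hGH j i).2.2.1) (hHd i) (hMH i) (hHt i) _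
      (fun j => (hGH j i).2.2.2)).trans_lt ENNReal.ofReal_lt_top
  · have hz' : ‖z‖ < 1 := by simpa [B] using hz
    have t0 : Tendsto (fun j : ℕ => (1:ℝ) / ((j:ℝ) + 2)) atTop (𝓝 0) := by
      have := tendsto_const_div_atTop_nhds_zero_nat (1:ℝ)
      have h2 := (tendsto_add_atTop_iff_nat 2).mpr this
      refine h2.congr (fun j => ?_)
      push_cast; rfl
    have t1 : Tendsto rj atTop (𝓝 1) := by
      have := (tendsto_const_nhds (x := (1:ℝ))).sub t0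
      simpa [hrj] using this
    have t2 : Tendsto (fun j => f (rj j • z)) U (𝓝 (f z)) := by
      have hc : ContinuousAt f z := (hf.continuousOn).continuousAt (Metric.isOpen_ball.mem_nhds hz)
      have h3 : Tendsto (fun j => rj j • z) atTop (𝓝 z) := by
        have := t1.smul_const z
        simpa using this
      exact (hc.tendsto.comp h3).mono_left hUle
    have t3 : Tendsto (fun j => ∑ i, Gs j i z * Hs j i z) U (𝓝 (∑ i, G i z * H i z)) :=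
      tendsto_finsetSum _ (fun i _ => (hGt i z hz).mul (hHt i z hz))
    have t4 : Tendsto (fun j => f (rj j • z) - ∑ i, Gs j i z * Hs j i z) U (𝓝 0) := by
      refine squeeze_zero_norm' ?_ (t0.mono_left hUle)
      have : ∀ᶠ j : ℕ in atTop, (1:ℝ) / ((j:ℝ) + 2) < 1 - ‖z‖ :=
        t0.eventually (gt_mem_nhds (by linarith))
      refine (this.filter_mono hUle).mono (fun j hj => ?_)
      exact happ j z (by linarith)
    have t5 := tendsto_nhds_unique t4 (t2.sub t3)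
    exact (sub_eq_zero.mp t5.symm)

end

end Pool.Agent.Lib.MP7ebef4
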