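import Pool.Agent.Lib.MP_7ebef4_an.Meas1
import Pool.Agent.Lib.MP_7ebef4_an.Submean

/-! Lower bound for the cone measure of nonisotropic balls. -/

set_option autoImplicit false

open MeasureTheory Set

namespace Pool.Agent.Lib.MP7ebef4

noncomputable section

variable {n : ℕ}

namespace Meas

/-- volume of `{z ∈ B : d z η < t}` -/
theorem vol_solid_lower (η : E n) (hη : ‖η‖ = 1) (t : ℝ) (ht : 0 < t) (ht1 : t ≤ 1) :
    ENNReal.ofReal ((t / 12) ^ (n + 1)) * volume (Metric.ball (0 : E n) (1 / 3)) ≤
      volume {z : E n | z ∈ B n ∧ d z η < t} := by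
  set τ : ℝ := t / 12 with hτ
  have hτ0 : 0 < τ := by positivity
  have hτ1 : τ ≤ 1 := by linarith
  set w : E n := ((1 - τ : ℝ)) • η with hw
  have hwn : ‖w‖ = 1 - τ := norm_rad hη hτ0.le hτ1
  have hwB : w ∈ B n := rad_mem_B hη hτ0 hτ1
  have hdw : dl w = τ * (2 - τ) := dl_rad hη hτ0.le hτ1
  have hdw1 : τ ≤ dl w := by rw [hdw]; nlinarith
  have hdw2 : dl w ≤ 2 * τ := by rw [hdw]; nlinarith
  have hdw0 : 0 < dl w := dl_pos hwB
  set s : ℝ := Real.sqrt (dl w) with hs
  have hs2 : s ^ 2 = dl w := Real.sq_sqrt hdw0.le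
  have hs0 : 0 < s := Real.sqrt_pos.2 hdw0
  have hwu : w = (‖w‖ : ℂ) • η := by
    rw [hwn, hw]
    exact (Complex.coe_smul (1 - τ) η).symm
  have hh : (s - 1) * (‖η‖ ^ 2 - 1) = 0 := by rw [hη]; ring
  set A : Set (E n) := {z : E n | z ∈ B n ∧ d z η < t} with hA
  have hAm : MeasurableSet A := by
    have h1 : MeasurableSet (B n) := Metric.isOpen_ball.measurableSet
    have h2 : MeasurableSet {z : E n | d z η < t} := by
      apply measurableSet_lt _ measurable_const
      unfold d q
      fun_prop
    exact h1.inter h2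
  set a : ℝ := s ^ (n + 1) with ha
  have ha0 : 0 < a := pow_pos hs0 _
  have hdet : ‖LinearMap.det (TT s η)‖ = a := by
    rw [TT_det s η hh, Complex.norm_real, Real.norm_of_nonneg (by positivity)]
  have h1 := lintegral_comp_clinear (TT s η) ha0 hdet (fun y => A.indicator 1 (w + y))
    ((measurable_one.indicator hAm).comp (measurable_const_add w))
  have h2 : ∫⁻ y, A.indicator (1 : E n → ENNReal) (w + y) = volume A := by
    rw [lintegral_add_left_eq_self (fun y => A.indicator (1 : E n → ENNReal) y) w,
      lintegral_indicator_one hAm]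
  rw [h2] at h1
  have h3 : volume (Metric.ball (0 : E n) (1 / 3)) ≤
      ∫⁻ ξ, A.indicator (1 : E n → ENNReal) (w + TT s η ξ) := by
    rw [← lintegral_indicator_one Metric.isOpen_ball.measurableSet]
    apply lintegral_mono
    intro ξ
    by_cases hξ : ξ ∈ Metric.ball (0 : E n) (1 / 3)
    · rw [indicator_of_mem hξ]
      rw [mem_ball_zero_iff] at hξ
      obtain ⟨p1, p2, p3⟩ := point_estimates hwB hs2 hs0.le η hη.le hwu hh hξ
      have hmem : w + TT s η ξ ∈ A := by
        refine ⟨p1, ?_⟩
        have h4 := d_tri (w + TT s η ξ) w η (mem_B.1 p1).le (by rw [hwn]; linarith) hη.le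
        have h5 : d w η = τ := d_rad_self hη hτ0.le
        rw [h5] at h4
        have h6 : 2 * (2 * dl w + τ) ≤ 10 * τ := by linarith
        have h7 : 10 * τ < t := by rw [hτ]; linarith
        linarith
      show (1 : E n → ENNReal) ξ ≤ A.indicator (1 : E n → ENNReal) (w + TT s η ξ)
      rw [indicator_of_mem hmem]
      exact le_rfl
    · rw [indicator_of_notMem hξ]
      exact zero_le
  have h4 : volume A = ENNReal.ofReal (a ^ 2) *
      ∫⁻ ξ, A.indicator (1 : E n → ENNReal) (w + TT s η ξ) := by
    rw [h1, ← mul_assoc, ← ENNReal.ofReal_mul (by positivity), mul_inv_cancel₀ (by positivity),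
      ENNReal.ofReal_one, one_mul]
  rw [h4]
  refine mul_le_mul' ?_ h3
  apply ENNReal.ofReal_le_ofReal
  rw [ha, ← pow_mul, mul_comm (n + 1) 2, pow_mul, hs2]
  exact pow_le_pow_left₀ hτ0.le hdw1 _

end Meas

theorem sig_ball_lower (n : ℕ) (hn : 0 < n) : ∃ c : ℝ, 0 < c ∧ ∀ (η : E n) (t : ℝ), ‖η‖ = 1 → 0 < t →
    t ≤ 2 → ENNReal.ofReal (c * t ^ n) ≤ sig n {ζ | ‖ζ‖ = 1 ∧ d ζ η < t} := by
  have hn' : (0:ℝ) < n := by exact_mod_cast hn
  set v0 : ENNReal := volume (Metric.ball (0 : E n) (1 / 3)) with hv0
  have hv1 : v0 ≠ 0 := (Metric.measure_ball_pos _ _ (by norm_num)).ne'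
  have hv2 : v0 ≠ ⊤ := measure_ball_lt_top.ne
  have hv3 : 0 < v0.toReal := ENNReal.toReal_pos hv1 hv2
  refine ⟨v0.toReal / (24 ^ (n + 1) * n), by positivity, ?_⟩
  intro η t hη ht ht2
  set S : Set (E n) := {ζ | ‖ζ‖ = 1 ∧ d ζ η < t} with hS
  have hSm : MeasurableSet S := by
    have h1 : MeasurableSet {ζ : E n | ‖ζ‖ = 1} := measurableSet_eq_fun measurable_norm measurable_const
    have h2 : MeasurableSet {z : E n | d z η < t} := by
      apply measurableSet_lt _ measurable_const
      unfold d q
      fun_prop
    exact h1.inter h2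
  set A : Set (E n) := {z : E n | z ∈ B n ∧ d z η < t / 2} with hA
  have hAm : MeasurableSet A := by
    have h1 : MeasurableSet (B n) := Metric.isOpen_ball.measurableSet
    have h2 : MeasurableSet {z : E n | d z η < t / 2} := by
      apply measurableSet_lt _ measurable_const
      unfold d q
      fun_prop
    exact h1.inter h2
  have h1 := Meas.vol_solid_lower η hη (t / 2) (by positivity) (by linarith)
  rw [← hA, ← hv0] at h1
  have h2 : volume A = ∫⁻ z in B n, A.indicator 1 z := by
    rw [lintegral_indicator_one hAm, Measure.restrict_apply hAm]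
    congr 1
    ext z
    simp only [hA, mem_inter_iff, mem_ofPred_eq]
    tauto
  have h3 := polar hn (A.indicator (1 : E n → ENNReal)) (measurable_one.indicator hAm)
  rw [← h2] at h3
  -- bound of the right-hand side
  have h4 : ∫⁻ r in Ioo (0:ℝ) 1, ENNReal.ofReal (2 * n * r ^ (2 * n - 1)) *
      ∫⁻ ζ, A.indicator (1 : E n → ENNReal) (r • ζ) ∂(sig n) ≤
      ∫⁻ r in Ioo (1 - t / 2) 1, ENNReal.ofReal (2 * n) * sig n S := by
    rw [← lintegral_indicator measurableSet_Ioo, ← lintegral_indicator measurableSet_Ioo]
    apply lintegral_mono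
    intro r
    by_cases hr : r ∈ Ioo (0:ℝ) 1
    · rw [indicator_of_mem hr]
      have hae : ∀ᵐ ζ ∂(sig n), ζ ∈ Sph n := by
        rw [ae_iff]
        exact sig_sph n hn
      by_cases hr2 : r ∈ Ioo (1 - t / 2) 1
      · rw [indicator_of_mem hr2]
        refine mul_le_mul' ?_ ?_
        · apply ENNReal.ofReal_le_ofReal
          have := pow_le_one₀ hr.1.le hr.2.le (n := 2 * n - 1)
          nlinarith
        · rw [← lintegral_indicator_one hSm]
          apply lintegral_mono_ae
          filter_upwards [hae] with ζ hζ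
          have hζ1 : ‖ζ‖ = 1 := by simpa [Sph] using hζ
          by_cases hm : r • ζ ∈ A
          · have hmS : ζ ∈ S := by
              refine ⟨hζ1, ?_⟩
              have h5 := hm.2
              have h6 : q ζ η = q (r • ζ) η + (((r - 1 : ℝ)) : ℂ) * inner ℂ η ζ := by
                unfold q
                have e : r • ζ = (r : ℂ) • ζ := (Complex.coe_smul r ζ).symm
                rw [e, inner_smul_right]
                push_cast
                ring
              have h7 : ‖(inner ℂ η ζ : ℂ)‖ ≤ 1 := by
                have := norm_inner_le_norm (𝕜 := ℂ) η ζ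
                rwa [hη, hζ1, one_mul] at this
              have h8 : d ζ η ≤ d (r • ζ) η + (1 - r) := by
                unfold d
                rw [h6]
                refine (norm_add_le _ _).trans ?_
                rw [norm_mul, Complex.norm_real, Real.norm_eq_abs, abs_of_neg (by linarith [hr.2])]
                have := hr.2
                nlinarith [norm_nonneg (inner ℂ η ζ : ℂ)]
              have := hr2.1
              linarith
            rw [indicator_of_mem hmS]
            rw [indicator_of_mem hm]
            exact le_rfl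
          · rw [indicator_of_notMem hm]
            exact zero_le
      · rw [indicator_of_notMem hr2]
        have h5 : ∫⁻ ζ, A.indicator (1 : E n → ENNReal) (r • ζ) ∂(sig n) = 0 := by
          have hmm : Measurable (fun ζ : E n => A.indicator (1 : E n → ENNReal) (r • ζ)) :=
            (measurable_one.indicator hAm).comp (measurable_const_smul r)
          rw [lintegral_eq_zero_iff' hmm.aemeasurable]
          filter_upwards [hae] with ζ hζ
          have hζ1 : ‖ζ‖ = 1 := by simpa [Sph] using hζ
          have hm : r • ζ ∉ A := by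
            intro hm
            have h6 := hm.2
            have h7 := norm_inner_le_norm (𝕜 := ℂ) η (r • ζ)
            rw [hη, one_mul, norm_smul, hζ1, mul_one, Real.norm_of_nonneg hr.1.le] at h7
            have h8 := norm_sub_norm_le (1:ℂ) (inner ℂ η (r • ζ))
            rw [norm_one] at h8
            have h9 : 1 - r ≤ d (r • ζ) η := by
              unfold d q
              linarith
            have h10 : r ≤ 1 - t / 2 := by
              by_contra hcon
              push Not at hcon
              exact hr2 ⟨hcon, hr.2⟩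
            linarith
          rw [indicator_of_notMem hm]
          rfl
        rw [h5, mul_zero]
    · rw [indicator_of_notMem hr]
      exact zero_le
  rw [← h3] at h4
  rw [setLIntegral_const, Real.volume_Ioo] at h4
  have h5 := h1.trans h4
  have h6 : (1:ℝ) - (1 - t / 2) = t / 2 := by ring
  rw [h6] at h5
  have h7 : ENNReal.ofReal (2 * n) * sig n S * ENNReal.ofReal (t / 2) =
      ENNReal.ofReal (n * t) * sig n S := by
    rw [mul_comm (ENNReal.ofReal (2 * n)), mul_assoc, ← ENNReal.ofReal_mul (by positivity),
      mul_comm (sig n S)]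
    congr 2
    ring
  rw [h7] at h5
  have h8 : ENNReal.ofReal (n * t) ≠ 0 := by
    rw [Ne, ENNReal.ofReal_eq_zero, not_le]; positivity
  rw [← ENNReal.mul_le_mul_iff_right h8 ENNReal.ofReal_ne_top]
  refine le_trans (le_of_eq ?_) h5
  rw [← ENNReal.ofReal_toReal hv2, ← ENNReal.ofReal_mul (by positivity),
    ← ENNReal.ofReal_mul (by positivity)]
  congr 1
  rw [ENNReal.toReal_ofReal hv3.le]
  have h9 : t / 2 / 12 = t / 24 := by ring
  rw [h9, div_pow]
  have h10 : (24:ℝ) ^ (n + 1) ≠ 0 := by positivity
  field_simp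
  ring

end

end Pool.Agent.Lib.MP7ebef4
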