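import Pool.Agent.Lib.MP_7ebef4_an.Meas1
import Pool.Agent.Lib.MP_7ebef4_an.Repr
import Pool.Agent.Lib.MP_7ebef4_an.Card

/-! Upper bound for the measure of nonisotropic balls. -/

set_option autoImplicit false

open MeasureTheory Set Metric

namespace Pool.Agent.Lib.MP7ebef4

noncomputable section

variable {n : ℕ}

namespace MeasU

theorem vol_rect (t : ℝ) :
    volume {z : ℂ | |z.re| ≤ 1 ∧ |z.im| ≤ t} = ENNReal.ofReal 2 * ENNReal.ofReal (2 * t) := by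
  have h1 : {z : ℂ | |z.re| ≤ 1 ∧ |z.im| ≤ t} =
      Complex.measurableEquivRealProd ⁻¹' (Icc (-1:ℝ) 1 ×ˢ Icc (-t) t) := by
    ext z
    simp only [Set.mem_ofPred_eq, mem_preimage, mem_prod, mem_Icc, abs_le,
      Complex.measurableEquivRealProd_apply]
  rw [h1, Complex.volume_preserving_equiv_real_prod.measure_preimage
    ((measurableSet_Icc.prod measurableSet_Icc).nullMeasurableSet), Measure.volume_eq_prod,
    Measure.prod_prod, Real.volume_Icc, Real.volume_Icc]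
  congr 2 <;> ring

/-- the box in `E (m+1)` -/
theorem vol_box (m : ℕ) : ∃ C : ℝ, 0 < C ∧ ∀ t : ℝ, 0 < t →
    volume {w : E (m+1) | (|(w 0).re| ≤ 1 ∧ |(w 0).im| ≤ t) ∧ ∀ i : Fin m, ‖w i.succ‖ ^ 2 ≤ t} ≤
      ENNReal.ofReal (C * t ^ (m+1)) := by
  let L : E (m+1) ≃L[ℝ] (Fin (m+1) → ℂ) := PiLp.continuousLinearEquiv 2 ℝ (fun _ : Fin (m+1) => ℂ)
  have h1 : (volume.map L : Measure (Fin (m+1) → ℂ)).IsAddHaarMeasure :=
    L.isAddHaarMeasure_map _
  obtain ⟨c, h2⟩ : ∃ c : NNReal, (volume.map L : Measure (Fin (m+1) → ℂ)) = c • volume :=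
    ⟨_, Measure.isAddLeftInvariant_eq_smul (volume.map L : Measure (Fin (m+1) → ℂ)) volume⟩
  refine ⟨(c : ℝ) * (4 * Real.pi ^ m) + 1, by positivity, fun t ht => ?_⟩
  set P : Set (Fin (m+1) → ℂ) := Set.pi univ (Fin.cons {z : ℂ | |z.re| ≤ 1 ∧ |z.im| ≤ t}
    (fun _ : Fin m => closedBall (0:ℂ) (Real.sqrt t))) with hP
  have hPm : MeasurableSet P := by
    apply MeasurableSet.univ_pi
    intro i
    refine Fin.cases ?_ (fun i => ?_) i
    · simp only [Fin.cons_zero]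
      apply MeasurableSet.inter
      · exact measurableSet_le (Complex.measurable_re.abs) measurable_const
      · exact measurableSet_le (Complex.measurable_im.abs) measurable_const
    · simp only [Fin.cons_succ]
      exact measurableSet_closedBall
  have h3 : {w : E (m+1) | (|(w 0).re| ≤ 1 ∧ |(w 0).im| ≤ t) ∧ ∀ i : Fin m, ‖w i.succ‖ ^ 2 ≤ t} =
      L ⁻¹' P := by
    ext w
    simp only [Set.mem_ofPred_eq, mem_preimage, hP, mem_univ_pi, Fin.forall_fin_succ, Fin.cons_zero,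
      Fin.cons_succ, mem_closedBall_zero_iff]
    apply and_congr Iff.rfl
    apply forall_congr'
    intro i
    change ‖w i.succ‖ ^ 2 ≤ t ↔ ‖w i.succ‖ ≤ Real.sqrt t
    rw [Real.le_sqrt (norm_nonneg _) ht.le]
  have h4 : volume (L ⁻¹' P) = (volume.map L : Measure (Fin (m+1) → ℂ)) P :=
    (Measure.map_apply L.continuous.measurable hPm).symm
  rw [h3, h4, h2, Measure.smul_apply, hP, volume_pi_pi, Fin.prod_univ_succ]
  simp only [Fin.cons_zero, Fin.cons_succ, Complex.volume_closedBall, Finset.prod_const,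
    Finset.card_univ, Fintype.card_fin, vol_rect]
  rw [← ENNReal.ofReal_pow (Real.sqrt_nonneg _), Real.sq_sqrt ht.le]
  have h5 : ((NNReal.pi : NNReal) : ENNReal) = ENNReal.ofReal Real.pi := by
    rw [← NNReal.coe_real_pi, ENNReal.ofReal_coe_nnreal]
  rw [h5, ← ENNReal.ofReal_mul (by norm_num), ← ENNReal.ofReal_mul ht.le,
    ← ENNReal.ofReal_pow (by positivity), ← ENNReal.ofReal_mul (by positivity)]
  have h6 : (c • ENNReal.ofReal (2 * (2 * t) * (t * Real.pi) ^ m) : ENNReal) =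
      ENNReal.ofReal ((c : ℝ) * (2 * (2 * t) * (t * Real.pi) ^ m)) := by
    rw [ENNReal.ofReal_mul (NNReal.coe_nonneg c), ENNReal.ofReal_coe_nnreal]
    rfl
  rw [h6]
  apply ENNReal.ofReal_le_ofReal
  have h7 : (c : ℝ) * (2 * (2 * t) * (t * Real.pi) ^ m) = (c : ℝ) * (4 * Real.pi ^ m) * t ^ (m+1) := by
    rw [mul_pow, pow_succ]; ring
  rw [h7]
  have : 0 < t ^ (m+1) := by positivity
  nlinarith

theorem cone_subset (m : ℕ) (e : E (m+1)) (U : E (m+1) ≃ₗᵢ[ℂ] E (m+1))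
    (hU : ∀ w, (U w) 0 = inner ℂ e w) (s t : ℝ) (ht : 0 < t) (ht2 : t ≤ 1/2) (hs1 : 1 - t ≤ s)
    (hs2 : s ≤ 1) (he : ‖e‖ = 1) :
    {z : E (m+1) | (‖z‖⁻¹ : ℝ) • z ∈ {ζ : E (m+1) | ‖ζ‖ = 1 ∧ d ζ ((s : ℂ) • e) ≤ t}} ∩ B (m+1) ⊆
      U ⁻¹' {w : E (m+1) | (|(w 0).re| ≤ 1 ∧ |(w 0).im| ≤ 4 * t) ∧ ∀ i : Fin m, ‖w i.succ‖ ^ 2 ≤ 4 * t} := by
  rintro z ⟨⟨hz1, hz2⟩, hzB⟩
  have hzn : ‖z‖ < 1 := mem_B.1 hzB
  set ζ := (‖z‖⁻¹ : ℝ) • z with hζ
  have hz0 : ‖z‖ ≠ 0 := by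
    intro h0
    rw [hζ, h0] at hz1
    simp at hz1
  have hzpos : 0 < ‖z‖ := lt_of_le_of_ne (norm_nonneg z) (Ne.symm hz0)
  have hzζ : z = (‖z‖ : ℝ) • ζ := by
    rw [hζ, smul_smul, mul_inv_cancel₀ hz0, one_smul]
  set l : ℂ := inner ℂ e ζ with hl
  have hl1 : ‖l‖ ≤ 1 := by
    have := norm_inner_le_norm (𝕜 := ℂ) e ζ
    rw [he, hz1, one_mul] at this
    exact this
  have hd : ‖1 - (s : ℂ) * l‖ ≤ t := by
    have : q ζ ((s : ℂ) • e) = 1 - (s : ℂ) * l := by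
      unfold q
      rw [inner_smul_left, Complex.conj_ofReal]
    unfold d at hz2
    rwa [this] at hz2
  have hd2 : ‖1 - l‖ ≤ 2 * t := by
    have h1 : 1 - l = (1 - (s : ℂ) * l) - ((1 - s : ℝ) : ℂ) * l := by push_cast; ring
    rw [h1]
    refine (norm_sub_le _ _).trans ?_
    rw [norm_mul, Complex.norm_real, Real.norm_of_nonneg (by linarith)]
    nlinarith [norm_nonneg l]
  have hUz : (U z) 0 = (‖z‖ : ℂ) * l := by
    rw [hU, hl]
    conv_lhs => rw [hzζ]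
    rw [inner_smul_right_eq_smul, Complex.real_smul]
  have hsum : ‖(U z) 0‖ ^ 2 + ∑ i : Fin m, ‖(U z) i.succ‖ ^ 2 = ‖z‖ ^ 2 := by
    rw [← U.norm_map z, EuclideanSpace.norm_sq_eq, Fin.sum_univ_succ]
  have hl2 : 1 - 2 * t ≤ ‖l‖ := by
    have := norm_sub_norm_le (1:ℂ) (1 - l)
    rw [norm_one, sub_sub_cancel] at this
    linarith
  refine ⟨⟨?_, ?_⟩, fun i => ?_⟩
  · rw [hUz]
    refine (Complex.abs_re_le_norm _).trans ?_
    rw [norm_mul, Complex.norm_real, norm_norm]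
    nlinarith [norm_nonneg l]
  · rw [hUz, Complex.im_ofReal_mul, abs_mul, abs_norm]
    have h1 : |l.im| ≤ 2 * t := by
      have := Complex.abs_im_le_norm (1 - l)
      rw [Complex.sub_im, Complex.one_im, zero_sub, abs_neg] at this
      linarith
    nlinarith [abs_nonneg l.im]
  · have h1 : ‖(U z) i.succ‖ ^ 2 ≤ ∑ i : Fin m, ‖(U z) i.succ‖ ^ 2 :=
      Finset.single_le_sum (f := fun i : Fin m => ‖(U z) i.succ‖ ^ 2) (fun _ _ => sq_nonneg _)
        (Finset.mem_univ i)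
    have h2 : ‖(U z) 0‖ = ‖z‖ * ‖l‖ := by
      rw [hUz, norm_mul, Complex.norm_real, norm_norm]
    have h3 : ‖(U z) i.succ‖ ^ 2 ≤ ‖z‖ ^ 2 * (1 - ‖l‖ ^ 2) := by
      rw [h2] at hsum
      nlinarith
    have h4 : 0 ≤ 1 - 2 * t := by linarith
    have h5 : (1 - 2 * t) ^ 2 ≤ ‖l‖ ^ 2 := pow_le_pow_left₀ h4 hl2 2
    have h6 : 1 - ‖l‖ ^ 2 ≤ 4 * t := by nlinarith
    have h7 : 0 ≤ 1 - ‖l‖ ^ 2 := by nlinarith [norm_nonneg l]
    have h8 : ‖z‖ ^ 2 ≤ 1 := by nlinarith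
    nlinarith

end MeasU

/-- upper bound for the measure of nonisotropic balls -/
theorem sig_ball_upper (n : ℕ) (hn : 0 < n) : ∃ C : ℝ, 0 < C ∧ ∀ (η : E n) (t : ℝ), ‖η‖ ≤ 1 → 0 < t →
    sig n {ζ | ‖ζ‖ = 1 ∧ d ζ η ≤ t} ≤ ENNReal.ofReal (C * t ^ n) := by
  obtain ⟨m, rfl⟩ : ∃ m, n = m + 1 := ⟨n - 1, by omega⟩
  obtain ⟨C, hC, hbox⟩ := MeasU.vol_box m
  have hvB : volume (B (m+1)) < ⊤ := measure_ball_lt_top
  set V := (volume (B (m+1))).toReal with hV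
  have hV0 : 0 ≤ V := ENNReal.toReal_nonneg
  refine ⟨C * 4 ^ (m+1) + V * 2 ^ (m+1), by positivity, fun η t hη ht => ?_⟩
  have hmeas : MeasurableSet {ζ : E (m+1) | ‖ζ‖ = 1 ∧ d ζ η ≤ t} := by
    have hd : Continuous (fun ζ : E (m+1) => d ζ η) := by
      unfold d q
      fun_prop
    exact ((isClosed_eq continuous_norm continuous_const).inter
      (isClosed_le hd continuous_const)).measurableSet
  rw [Meas.sig_apply hmeas]
  by_cases ht2 : t ≤ 1/2
  · by_cases hη2 : 1 - t ≤ ‖η‖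
    · have hηpos : 0 < ‖η‖ := by linarith
      set e : E (m+1) := ((‖η‖ : ℂ)⁻¹) • η with he
      have hen : ‖e‖ = 1 := by
        rw [he, norm_smul, norm_inv, Complex.norm_real, norm_norm, inv_mul_cancel₀ hηpos.ne']
      have hηe : η = ((‖η‖ : ℝ) : ℂ) • e := by
        rw [he, smul_smul, mul_inv_cancel₀, one_smul]
        exact_mod_cast hηpos.ne'
      obtain ⟨U, hU⟩ := ReprAux.exists_coord m e hen
      have h1 := MeasU.cone_subset m e U hU ‖η‖ t ht ht2 hη2 hη hen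
      rw [← hηe] at h1
      refine (measure_mono h1).trans ?_
      have hmp := ReprAux.measurePreserving_of_isometryEquiv U
      have hUe : MeasurableEmbedding U := U.toHomeomorph.measurableEmbedding
      rw [hmp.measure_preimage_emb hUe]
      refine (hbox (4 * t) (by positivity)).trans ?_
      apply ENNReal.ofReal_le_ofReal
      rw [mul_pow]
      have : 0 ≤ V * 2 ^ (m+1) * t ^ (m+1) := by positivity
      nlinarith
    · -- empty
      have h1 : {z : E (m+1) | (‖z‖⁻¹ : ℝ) • z ∈ {ζ : E (m+1) | ‖ζ‖ = 1 ∧ d ζ η ≤ t}} ∩ B (m+1) = ∅ := by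
        rw [eq_empty_iff_forall_notMem]
        rintro z ⟨⟨hz1, hz2⟩, -⟩
        push Not at hη2
        set ζ := (‖z‖⁻¹ : ℝ) • z
        unfold d q at hz2
        have h2 := norm_inner_le_norm (𝕜 := ℂ) η ζ
        rw [hz1, mul_one] at h2
        have h3 := norm_sub_norm_le (1:ℂ) (inner ℂ η ζ)
        rw [norm_one] at h3
        linarith
      rw [h1, measure_empty]
      exact zero_le
  · push Not at ht2
    refine (measure_mono inter_subset_right).trans ?_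
    rw [← ENNReal.ofReal_toReal hvB.ne]
    apply ENNReal.ofReal_le_ofReal
    have h1 : (1:ℝ) ≤ (2 * t) ^ (m+1) := one_le_pow₀ (by linarith)
    rw [mul_pow] at h1
    have h2 : 0 ≤ C * 4 ^ (m+1) * t ^ (m+1) := by positivity
    have h3 : V * 1 ≤ V * (2 ^ (m+1) * t ^ (m+1)) := mul_le_mul_of_nonneg_left h1 hV0
    nlinarith

theorem HUp_of (n : ℕ) (hn : 0 < n) : HUp n := sig_ball_upper n hn

end

end Pool.Agent.Lib.MP7ebef4
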