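import Pool.Agent.Lib.MP_7ebef4_an.HN2
import Pool.Agent.Lib.MP_7ebef4_an.SgLin

/-! Module Neumann: the (truncated) Neumann series. -/

set_option autoImplicit false

open MeasureTheory Set

namespace Pool.Agent.Lib.MP7ebef4

noncomputable section

variable {n : ℕ}

namespace Neu

theorem add_sq_le (x y : ENNReal) : (x + y) ^ (2:ℕ) ≤ 2 * (x ^ (2:ℕ) + y ^ (2:ℕ)) := by
  have h := ENNReal.rpow_add_le_mul_rpow_add_rpow x y (p := 2) (by norm_num)
  have e : ∀ t : ENNReal, t ^ (2:ℝ) = t ^ (2:ℕ) := fun t => by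
    rw [← ENNReal.rpow_natCast]; norm_num
  rw [e, e, e] at h
  have e2 : (2:ENNReal) ^ ((2:ℝ) - 1) = 2 := by norm_num
  rwa [e2] at h

theorem sum_sq_le (m : ℕ) : ∀ a : ℕ → ENNReal, (∑ k ∈ Finset.range m, a k) ^ (2:ℕ) ≤
    ∑ k ∈ Finset.range m, 2 ^ (k + 1) * a k ^ (2:ℕ) := by
  induction m with
  | zero => intro a; simp
  | succ m ih =>
    intro a
    rw [Finset.sum_range_succ', Finset.sum_range_succ']
    calc (∑ k ∈ Finset.range m, a (k+1) + a 0) ^ (2:ℕ)
        ≤ 2 * ((∑ k ∈ Finset.range m, a (k+1)) ^ (2:ℕ) + a 0 ^ (2:ℕ)) := add_sq_le _ _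
      _ ≤ 2 * (∑ k ∈ Finset.range m, 2 ^ (k + 1) * a (k+1) ^ (2:ℕ) + a 0 ^ (2:ℕ)) := by
          gcongr
          exact ih (fun k => a (k+1))
      _ = _ := by
          rw [mul_add, Finset.mul_sum]
          congr 1
          · apply Finset.sum_congr rfl
            intro k _
            ring
          · ring

theorem geom_le (m : ℕ) : ∑ k ∈ Finset.range m, (2:ENNReal) ^ (k + 1) * ENNReal.ofReal ((1/4) ^ k) ≤
    ENNReal.ofReal 4 := by
  have e : ∀ k, (2:ENNReal) ^ (k + 1) * ENNReal.ofReal ((1/4) ^ k) = ENNReal.ofReal (2 * (1/2) ^ k) := by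
    intro k
    have h2 : (2:ENNReal) = ENNReal.ofReal 2 := by simp
    rw [h2, ← ENNReal.ofReal_pow (by norm_num), ← ENNReal.ofReal_mul (by positivity)]
    congr 1
    rw [pow_succ, mul_comm ((2:ℝ)^k) 2, mul_assoc, ← mul_pow]
    norm_num
  rw [Finset.sum_congr rfl (fun k _ => e k), ← ENNReal.ofReal_sum_of_nonneg (fun k _ => by positivity)]
  apply ENNReal.ofReal_le_ofReal
  rw [← Finset.mul_sum]
  have h1 : ∑ k ∈ Finset.range m, (1/2:ℝ) ^ k ≤ 2 := by
    have := (summable_geometric_of_lt_one (show (0:ℝ) ≤ 1/2 by norm_num)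
      (by norm_num)).sum_le_tsum (Finset.range m) (fun k _ => by positivity)
    rw [tsum_geometric_of_lt_one (by norm_num) (by norm_num)] at this
    norm_num at this ⊢
    exact this
  linarith

end Neu

namespace Sys

variable {cT C K : ℝ} (S : Sys n cT C K)

theorem XN_neg (F : E n → ℂ) : S.XN (fun w => - F w) = S.XN F := by
  unfold XN
  simp only [enorm_neg]

/-- the `L²(λ)` norm is controlled by the `X` norm -/
theorem L2_le_XN : ∃ M : ℝ, 0 < M ∧ ∀ F : E n → ℂ,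
    ∫⁻ w, ‖F w‖ₑ ^ (2:ℕ) ∂(lam n) ≤ ENNReal.ofReal M * S.XN F := by
  set M : ℝ := ∑ v, S.c v with hM
  have hcM : ∀ v, S.c v ≤ M := fun v =>
    Finset.single_le_sum (f := S.c) (fun v _ => (S.c_pos v).le) (Finset.mem_univ v)
  have hM0 : 0 < M := lt_of_lt_of_le (S.c_pos S.T.root) (hcM _)
  refine ⟨M ^ 2, by positivity, ?_⟩
  intro F
  unfold XN
  rw [← lintegral_const_mul' _ _ ENNReal.ofReal_ne_top]
  apply lintegral_mono
  intro w
  have hc := S.c_pos (S.vw w)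
  have e : ‖F w‖ₑ = ENNReal.ofReal (S.c (S.vw w)) * (‖F w‖ₑ / ENNReal.ofReal (S.c (S.vw w))) := by
    rw [ENNReal.mul_div_cancel (by simpa using hc) ENNReal.ofReal_ne_top]
  calc ‖F w‖ₑ ^ (2:ℕ) = ENNReal.ofReal (S.c (S.vw w)) ^ (2:ℕ) *
        (‖F w‖ₑ / ENNReal.ofReal (S.c (S.vw w))) ^ (2:ℕ) := by
        rw [← mul_pow, ← e]
    _ ≤ ENNReal.ofReal (M ^ 2) * (‖F w‖ₑ / ENNReal.ofReal (S.c (S.vw w))) ^ (2:ℕ) := by
        rw [ENNReal.ofReal_pow hM0.le]
        gcongr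
        exact hcM _

/-- `X` norm of a sum with geometric weights -/
theorem XN_sum_range_le (F : ℕ → E n → ℂ) (hF : ∀ k, AEStronglyMeasurable (F k) (lam n)) (X : ENNReal)
    (hX : ∀ k, S.XN (F k) ≤ ENNReal.ofReal ((1/4) ^ k) * X) (m : ℕ) :
    S.XN (fun w => ∑ k ∈ Finset.range m, F k w) ≤ ENNReal.ofReal 4 * X := by
  have h1 : S.XN (fun w => ∑ k ∈ Finset.range m, F k w) ≤
      ∫⁻ w, ∑ k ∈ Finset.range m, 2 ^ (k + 1) *
        (‖F k w‖ₑ / ENNReal.ofReal (S.c (S.vw w))) ^ (2:ℕ) ∂(lam n) := by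
    unfold XN
    apply lintegral_mono
    intro w
    refine le_trans ?_ (Neu.sum_sq_le m (fun k => ‖F k w‖ₑ / ENNReal.ofReal (S.c (S.vw w))))
    apply pow_le_pow_left₀ zero_le
    simp only [div_eq_mul_inv]
    rw [← Finset.sum_mul]
    exact mul_le_mul_left (enorm_sum_le _ _) _
  refine h1.trans ?_
  rw [lintegral_finsetSum']
  · calc ∑ k ∈ Finset.range m, ∫⁻ w, 2 ^ (k + 1) *
        (‖F k w‖ₑ / ENNReal.ofReal (S.c (S.vw w))) ^ (2:ℕ) ∂(lam n)
        = ∑ k ∈ Finset.range m, 2 ^ (k + 1) * S.XN (F k) := by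
          apply Finset.sum_congr rfl
          intro k _
          rw [lintegral_const_mul' _ _ (by exact ENNReal.pow_ne_top (by norm_num))]
          rfl
      _ ≤ ∑ k ∈ Finset.range m, 2 ^ (k + 1) * (ENNReal.ofReal ((1/4) ^ k) * X) := by
          gcongr with k _
          exact hX k
      _ = (∑ k ∈ Finset.range m, 2 ^ (k + 1) * ENNReal.ofReal ((1/4) ^ k)) * X := by
          rw [Finset.sum_mul]
          apply Finset.sum_congr rfl
          intro k _
          ring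
      _ ≤ _ := by
          gcongr
          exact Neu.geom_le m
  · intro k _
    exact ((S.enorm_div_aemeasurable (hF k)).pow_const 2).const_mul _

theorem HFj_sum (F : ℕ → E n → ℂ) (hF : ∀ k, AEStronglyMeasurable (F k) (lam n))
    (hX : ∀ k, S.XN (F k) < ⊤) (m : ℕ) (j : Fin S.N) {z : E n} (hz : z ∈ B n) :
    S.HFj (fun w => ∑ k ∈ Finset.range m, F k w) j z = ∑ k ∈ Finset.range m, S.HFj (F k) j z := by
  unfold HFj
  rw [← integral_finsetSum]
  · apply integral_congr_ae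
    apply Filter.Eventually.of_forall
    intro w
    simp only
    rw [Finset.sum_mul]
  · intro k _
    exact S.integrable_Phi (hF k) (hX k) hz _ (S.measurable_ubj j) zero_le_one
      (fun w _ => S.norm_ubj j w)

/-- **module Neumann** -/
theorem neumann (Gj : Fin S.N → E n → ℂ) (Ef : (E n → ℂ) → (E n → ℂ)) (A : ℝ) (hA : 0 < A)
    (hE : ∀ F, AEStronglyMeasurable F (lam n) → S.XN F < ⊤ →
      AEStronglyMeasurable (Ef F) (lam n) ∧ S.XN (Ef F) ≤ ENNReal.ofReal (1/4) * S.XN F ∧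
      ∀ z ∈ B n, ∑ j, Gj j z * S.HFj F j z = Sg F z + Sg (Ef F) z)
    (hH : ∀ F, AEStronglyMeasurable F (lam n) → S.XN F < ⊤ →
      (∀ j, DifferentiableOn ℂ (S.HFj F j) (B n)) ∧
      ∑ j, AN (S.HFj F j) ≤ ENNReal.ofReal A * S.XN F)
    (F₀ : E n → ℂ) (hF₀ : AEStronglyMeasurable F₀ (lam n)) (hX₀ : S.XN F₀ < ⊤) (η δ : ℝ)
    (hη : 0 < η) (hδ : 0 < δ) :
    ∃ H : Fin S.N → E n → ℂ, (∀ j, DifferentiableOn ℂ (H j) (B n)) ∧
      ∑ j, AN (H j) ≤ ENNReal.ofReal (4 * A) * S.XN F₀ ∧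
      ∀ z, ‖z‖ ≤ 1 - η → ‖Sg F₀ z - ∑ j, Gj j z * H j z‖ ≤ δ := by
  set F : ℕ → E n → ℂ := fun k => Nat.rec F₀ (fun _ G => fun w => - Ef G w) k with hFdef
  have hF0 : F 0 = F₀ := rfl
  have hFs : ∀ k, F (k+1) = fun w => - Ef (F k) w := fun k => rfl
  have hind : ∀ k, AEStronglyMeasurable (F k) (lam n) ∧
      S.XN (F k) ≤ ENNReal.ofReal ((1/4) ^ k) * S.XN F₀ := by
    intro k
    induction k with
    | zero => exact ⟨hF₀, by rw [hF0]; simp⟩
    | succ k ih =>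
      have hfin : S.XN (F k) < ⊤ := lt_of_le_of_lt ih.2 (ENNReal.mul_lt_top ENNReal.ofReal_lt_top hX₀)
      obtain ⟨h1, h2, _⟩ := hE (F k) ih.1 hfin
      refine ⟨?_, ?_⟩
      · rw [hFs]; exact h1.neg
      · rw [hFs, S.XN_neg]
        refine h2.trans ?_
        calc ENNReal.ofReal (1/4) * S.XN (F k)
            ≤ ENNReal.ofReal (1/4) * (ENNReal.ofReal ((1/4) ^ k) * S.XN F₀) := by
              gcongr
              exact ih.2
          _ = _ := by
              rw [← mul_assoc, ← ENNReal.ofReal_mul (by norm_num), pow_succ, mul_comm (1/4:ℝ)]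
  have hFm : ∀ k, AEStronglyMeasurable (F k) (lam n) := fun k => (hind k).1
  have hFX : ∀ k, S.XN (F k) < ⊤ := fun k =>
    lt_of_le_of_lt (hind k).2 (ENNReal.mul_lt_top ENNReal.ofReal_lt_top hX₀)
  obtain ⟨M, hM, hL2⟩ := S.L2_le_XN
  obtain ⟨Cb, hCb, hSb⟩ := Sg_bound n η hη
  -- number of terms
  set X₀ : ℝ := (S.XN F₀).toReal with hX₀def
  have hX₀' : S.XN F₀ = ENNReal.ofReal X₀ := (ENNReal.ofReal_toReal hX₀.ne).symm
  have hX₀0 : 0 ≤ X₀ := ENNReal.toReal_nonneg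
  obtain ⟨m, hm⟩ := exists_pow_lt_of_lt_one (show 0 < δ ^ 2 / (Cb * M * X₀ + 1) by positivity)
    (show (1/4:ℝ) < 1 by norm_num)
  set FS : E n → ℂ := fun w => ∑ k ∈ Finset.range m, F k w with hFS
  have hFSm : AEStronglyMeasurable FS (lam n) := by
    rw [hFS]
    exact Finset.aestronglyMeasurable_fun_sum _ (fun k _ => hFm k)
  have hFSX : S.XN FS ≤ ENNReal.ofReal 4 * S.XN F₀ :=
    S.XN_sum_range_le F hFm _ (fun k => (hind k).2) m
  have hFSfin : S.XN FS < ⊤ := lt_of_le_of_lt hFSX (ENNReal.mul_lt_top ENNReal.ofReal_lt_top hX₀)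
  obtain ⟨hHd, hHn⟩ := hH FS hFSm hFSfin
  refine ⟨S.HFj FS, hHd, ?_, ?_⟩
  · refine hHn.trans ?_
    calc ENNReal.ofReal A * S.XN FS ≤ ENNReal.ofReal A * (ENNReal.ofReal 4 * S.XN F₀) := by
          gcongr
      _ = _ := by rw [← mul_assoc, ← ENNReal.ofReal_mul hA.le, mul_comm A 4]
  · intro z hz
    have hzB : z ∈ B n := mem_B.2 (by linarith)
    have h1 : ∑ j, Gj j z * S.HFj FS j z = Sg F₀ z - Sg (F m) z := by
      have e1 : ∀ j, S.HFj FS j z = ∑ k ∈ Finset.range m, S.HFj (F k) j z := fun j =>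
        S.HFj_sum F hFm hFX m j hzB
      simp only [e1, Finset.mul_sum]
      rw [Finset.sum_comm]
      have e2 : ∀ k, ∑ j, Gj j z * S.HFj (F k) j z = Sg (F k) z - Sg (F (k+1)) z := by
        intro k
        rw [(hE (F k) (hFm k) (hFX k)).2.2 z hzB, hFs, Sg_neg, sub_neg_eq_add]
      rw [Finset.sum_congr rfl (fun k _ => e2 k), Finset.sum_range_sub' (fun k => Sg (F k) z), hF0]
    rw [h1, sub_sub_cancel]
    have h2 := hSb (F m) (hFm m) z hz
    have h3 : ‖Sg (F m) z‖ₑ ^ (2:ℕ) ≤ ENNReal.ofReal (δ ^ 2) := by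
      refine h2.trans ?_
      calc ENNReal.ofReal Cb * ∫⁻ w, ‖F m w‖ₑ ^ (2:ℕ) ∂(lam n)
          ≤ ENNReal.ofReal Cb * (ENNReal.ofReal M * (ENNReal.ofReal ((1/4) ^ m) *
              ENNReal.ofReal X₀)) := by
            gcongr
            refine (hL2 (F m)).trans ?_
            gcongr
            rw [← hX₀']
            exact (hind m).2
        _ = ENNReal.ofReal (Cb * M * X₀ * (1/4) ^ m) := by
            rw [← ENNReal.ofReal_mul (by positivity), ← ENNReal.ofReal_mul (by positivity),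
              ← ENNReal.ofReal_mul (by positivity)]
            congr 1; ring
        _ ≤ ENNReal.ofReal (δ ^ 2) := by
            apply ENNReal.ofReal_le_ofReal
            have h4 : 0 ≤ Cb * M * X₀ := by positivity
            calc Cb * M * X₀ * (1/4) ^ m ≤ Cb * M * X₀ * (δ ^ 2 / (Cb * M * X₀ + 1)) := by
                  gcongr
              _ ≤ δ ^ 2 := by
                  rw [mul_div_assoc', div_le_iff₀ (by positivity)]
                  nlinarith [sq_nonneg δ]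
    rw [← ofReal_norm, ← ENNReal.ofReal_pow (norm_nonneg _),
      ENNReal.ofReal_le_ofReal_iff (by positivity)] at h3
    exact le_of_sq_le_sq h3 hδ.le

end Sys

end

end Pool.Agent.Lib.MP7ebef4
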