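import Pool.Agent.Lib.MP_7ebef4_an.TreeBasic

/-! Existence of trees of nonisotropic cells of any depth, from the lower ball estimate. -/

set_option autoImplicit false

open MeasureTheory Set

namespace Pool.Agent.Lib.MP7ebef4

noncomputable section

/-- the statement of `sig_ball_lower` -/
def HLow (n : ℕ) : Prop := ∃ c : ℝ, 0 < c ∧ ∀ (η : E n) (t : ℝ), ‖η‖ = 1 → 0 < t →
    t ≤ 2 → ENNReal.ofReal (c * t ^ n) ≤ sig n {ζ | ‖ζ‖ = 1 ∧ d ζ η < t}

variable {n : ℕ}

namespace TreeEx

theorem continuous_rho₂ : Continuous (fun p : E n × E n => rho p.1 p.2) := by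
  unfold rho d q; fun_prop

theorem continuous_rho_left (x : E n) : Continuous (fun y : E n => rho y x) := by
  unfold rho d q; fun_prop

theorem continuous_d_left (x : E n) : Continuous (fun y : E n => d y x) := by
  unfold d q; fun_prop

theorem rho_lt_two {z w : E n} (hz : ‖z‖ ≤ 1) (hw : ‖w‖ ≤ 1) : rho z w < 2 := by
  have h := d_le_two z w hz hw
  have h2 := rho_sq z w
  have h3 := rho_nonneg z w
  nlinarith

theorem rho_self_sph {z : E n} (hz : ‖z‖ = 1) : rho z z = 0 := by
  unfold rho d
  rw [q_self]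
  unfold dl
  rw [hz]; simp

/-- maximal separated nets of the sphere -/
theorem exists_net (hlow : HLow n) (r : ℝ) (hr : 0 < r) (hr2 : r ≤ 2) :
    ∃ X : Finset (E n), (∀ x ∈ X, ‖x‖ = 1) ∧ (∀ x ∈ X, ∀ y ∈ X, x ≠ y → r ≤ rho x y) ∧
      (∀ ζ : E n, ‖ζ‖ = 1 → ∃ x ∈ X, rho ζ x < r) := by
  classical
  obtain ⟨c, hc, hlow⟩ := hlow
  set P : ℕ → Prop := fun k => ∃ X : Finset (E n), (∀ x ∈ X, ‖x‖ = 1) ∧
    (∀ x ∈ X, ∀ y ∈ X, x ≠ y → r ≤ rho x y) ∧ X.card = k with hP
  set t : ℝ := (r / 2) ^ 2 with ht
  have ht0 : 0 < t := by positivity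
  have ht2 : t ≤ 2 := by rw [ht]; nlinarith
  -- bound of the cardinality
  obtain ⟨N, hN⟩ : ∃ N : ℕ, ∀ k, P k → k ≤ N := by
    obtain ⟨N, hN⟩ := exists_nat_gt ((sig n univ).toReal / (c * t ^ n))
    refine ⟨N, ?_⟩
    rintro k ⟨X, h1, h2, rfl⟩
    have hdisj : (X : Set (E n)).PairwiseDisjoint (fun x => {ζ : E n | ‖ζ‖ = 1 ∧ d ζ x < t}) := by
      intro x hx y hy hxy
      rw [Function.onFun, Set.disjoint_left]
      rintro ζ ⟨hζ, h3⟩ ⟨_, h4⟩
      have h5 : rho ζ x < r / 2 := by
        unfold rho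
        rw [Real.sqrt_lt' (by positivity)]; exact h3
      have h6 : rho ζ y < r / 2 := by
        unfold rho
        rw [Real.sqrt_lt' (by positivity)]; exact h4
      have h7 := rho_tri x ζ y (h1 x hx).le hζ.le (h1 y hy).le
      rw [rho_comm x ζ] at h7
      have h8 := h2 x hx y hy hxy
      linarith
    have hmeas : ∀ x ∈ X, MeasurableSet {ζ : E n | ‖ζ‖ = 1 ∧ d ζ x < t} := by
      intro x _
      apply MeasurableSet.inter
      · exact (isClosed_eq continuous_norm continuous_const).measurableSet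
      · exact (isOpen_lt (continuous_d_left x) continuous_const).measurableSet
    have h3 := measure_biUnion_finset (μ := sig n) hdisj hmeas
    have h4 : ∑ x ∈ X, ENNReal.ofReal (c * t ^ n) ≤ sig n univ := by
      calc ∑ x ∈ X, ENNReal.ofReal (c * t ^ n) ≤ ∑ x ∈ X, sig n {ζ : E n | ‖ζ‖ = 1 ∧ d ζ x < t} :=
            Finset.sum_le_sum (fun x hx => hlow x t (h1 x hx) ht0 ht2)
        _ = sig n (⋃ x ∈ X, {ζ : E n | ‖ζ‖ = 1 ∧ d ζ x < t}) := h3.symm
        _ ≤ sig n univ := measure_mono (subset_univ _)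
    rw [Finset.sum_const, nsmul_eq_mul] at h4
    have h5 := ENNReal.toReal_mono (measure_ne_top _ _) h4
    rw [ENNReal.toReal_mul, ENNReal.toReal_natCast, ENNReal.toReal_ofReal (by positivity)] at h5
    have h6 : (X.card : ℝ) ≤ (sig n univ).toReal / (c * t ^ n) := by
      rw [le_div_iff₀ (by positivity)]; exact h5
    have h7 : (X.card : ℝ) < N := lt_of_le_of_lt h6 hN
    exact_mod_cast h7.le
  have hP0 : P 0 := ⟨∅, by simp, by simp, rfl⟩
  have hspec : P (Nat.findGreatest P N) := Nat.findGreatest_spec (Nat.zero_le N) hP0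
  obtain ⟨X, h1, h2, h3⟩ := hspec
  refine ⟨X, h1, h2, ?_⟩
  intro ζ hζ
  by_contra hcon
  push Not at hcon
  have hζX : ζ ∉ X := by
    intro h
    have := hcon ζ h
    rw [rho_self_sph hζ] at this
    linarith
  have h4 : P (Nat.findGreatest P N + 1) := by
    refine ⟨insert ζ X, ?_, ?_, ?_⟩
    · intro x hx
      rcases Finset.mem_insert.1 hx with rfl | hx
      · exact hζ
      · exact h1 x hx
    · intro x hx y hy hxy
      rcases Finset.mem_insert.1 hx with hx' | hx'
      · rcases Finset.mem_insert.1 hy with hy' | hy'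
        · exact absurd (hx'.trans hy'.symm) hxy
        · rw [hx']; exact hcon y hy'
      · rcases Finset.mem_insert.1 hy with hy' | hy'
        · rw [rho_comm, hy']; exact hcon x hx'
        · exact h2 x hx' y hy' hxy
    · rw [Finset.card_insert_of_notMem hζX, h3]
  have h5 := hN _ h4
  exact Nat.findGreatest_is_greatest (Nat.lt_succ_self _) h5 h4

/-- measurable selection of a nearby point -/
theorem exists_sel (r : ℝ) (x₀ : E n) (X : Finset (E n)) :
    ∃ P : E n → E n, Measurable P ∧ (∀ y, P y = x₀ ∨ P y ∈ X) ∧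
      ∀ y, (∃ x ∈ X, rho y x < r) → P y ∈ X ∧ rho y (P y) < r := by
  classical
  induction X using Finset.induction_on with
  | empty => exact ⟨fun _ => x₀, measurable_const, by simp, by simp⟩
  | insert a X _ ih =>
    obtain ⟨P, hP, h1, h2⟩ := ih
    have hS : MeasurableSet {y : E n | rho y a < r} :=
      (isOpen_lt (continuous_rho_left a) continuous_const).measurableSet
    refine ⟨fun y => if rho y a < r then a else P y, Measurable.ite hS measurable_const hP, ?_, ?_⟩
    · intro y
      by_cases h : rho y a < r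
      · simp [h]
      · simp only [h, if_false]
        rcases h1 y with h3 | h3
        · exact Or.inl h3
        · exact Or.inr (Finset.mem_insert_of_mem h3)
    · rintro y ⟨x, hx, hxy⟩
      by_cases h : rho y a < r
      · simp only [h, if_true]
        exact ⟨Finset.mem_insert_self _ _, trivial⟩
      · simp only [h, if_false]
        rcases Finset.mem_insert.1 hx with rfl | hx
        · exact absurd hxy h
        · obtain ⟨h3, h4⟩ := h2 y ⟨x, hx, hxy⟩
          exact ⟨Finset.mem_insert_of_mem h3, h4⟩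

/-- selector attached to a net -/
theorem exists_proj (hn : 0 < n) (r : ℝ) (X : Finset (E n)) (h1 : ∀ x ∈ X, ‖x‖ = 1)
    (h2 : ∀ x ∈ X, ∀ y ∈ X, x ≠ y → r ≤ rho x y) (h3 : ∀ ζ : E n, ‖ζ‖ = 1 → ∃ x ∈ X, rho ζ x < r) :
    ∃ P : E n → E n, Measurable P ∧ (∀ y, P y ∈ X) ∧ (∀ y, ‖y‖ = 1 → rho y (P y) < r) ∧
      (∀ y, ‖y‖ ≤ 1 → ∀ x ∈ X, rho y x < r / 2 → P y = x) := by
  classical
  have hne : ∃ x₀, x₀ ∈ X := by
    obtain ⟨ζ, hζ⟩ : ∃ ζ : E n, ‖ζ‖ = 1 := ⟨EuclideanSpace.single ⟨0, hn⟩ (1:ℂ), by simp⟩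
    obtain ⟨x, hx, _⟩ := h3 ζ hζ
    exact ⟨x, hx⟩
  obtain ⟨x₀, hx₀⟩ := hne
  obtain ⟨P, hP, p1, p2⟩ := exists_sel r x₀ X
  obtain ⟨Q, hQ, q1, q2⟩ := exists_sel (r / 2) x₀ X
  have hS : MeasurableSet {y : E n | ∃ x ∈ X, rho y x < r / 2} := by
    have e : {y : E n | ∃ x ∈ X, rho y x < r / 2} = ⋃ x ∈ X, {y : E n | rho y x < r / 2} := by
      ext y; simp
    rw [e]
    exact Finset.measurableSet_biUnion _ (fun x _ =>
      (isOpen_lt (continuous_rho_left x) continuous_const).measurableSet)
  refine ⟨fun y => if ∃ x ∈ X, rho y x < r / 2 then Q y else P y, Measurable.ite hS hQ hP,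
    ?_, ?_, ?_⟩
  · intro y
    by_cases h : ∃ x ∈ X, rho y x < r / 2
    · simp only [h, if_true]
      exact (q2 y h).1
    · simp only [h, if_false]
      rcases p1 y with h | h
      · rw [h]; exact hx₀
      · exact h
  · intro y hy
    by_cases h : ∃ x ∈ X, rho y x < r / 2
    · simp only [h, if_true]
      have h4 := (q2 y h).2
      have h5 := rho_nonneg y (Q y)
      linarith
    · simp only [h, if_false]
      exact (p2 y (h3 y hy)).2
  · intro y hy x hx hxy
    have h : ∃ x ∈ X, rho y x < r / 2 := ⟨x, hx, hxy⟩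
    simp only [h, if_true]
    obtain ⟨h4, h5⟩ := q2 y h
    by_contra hne
    have h6 := h2 _ h4 x hx hne
    have h7 := rho_tri (Q y) y x (h1 _ h4).le hy (h1 x hx).le
    rw [rho_comm (Q y) y] at h7
    linarith

/-- ancestors of a point of the sphere, `k` levels above level `I` -/
def chain (P : ℕ → E n → E n) (I : ℕ) : ℕ → E n → E n
  | 0 => P I
  | (k+1) => fun ζ => P (I - (k+1)) (chain P I k ζ)

theorem chain_meas (P : ℕ → E n → E n) (hP : ∀ i, Measurable (P i)) (I k : ℕ) :
    Measurable (chain P I k) := by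
  induction k with
  | zero => exact hP I
  | succ k ih => exact (hP _).comp ih

end TreeEx

open TreeEx

open Classical in
theorem exists_tree_of (n : ℕ) (hn : 0 < n) (hlow : HLow n) :
    ∃ cT : ℝ, 0 < cT ∧ ∀ I : ℕ, ∃ T : Tree n cT, T.I = I := by
  have hlow' := hlow
  choose X X1 X2 X3 using fun i => exists_net hlow (rr i) (rr_pos i) (rr_le_two i)
  choose P P0 P1 P2 P3 using fun i => exists_proj hn (rr i) (X i) (X1 i) (X2 i) (X3 i)
  obtain ⟨c, hc, hlow⟩ := hlow'
  have hX0 : ∀ x ∈ X 0, ∀ y ∈ X 0, x = y := by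
    intro x hx y hy
    by_contra h
    have h1 := X2 0 x hx y hy h
    have h2 := rho_lt_two (X1 0 x hx).le (X1 0 y hy).le
    rw [rr_zero] at h1
    linarith
  have hmem : ∀ I k ζ, chain P I k ζ ∈ X (I - k) := by
    intro I k ζ
    cases k with
    | zero => exact P1 I ζ
    | succ k => exact P1 _ _
  have hrho : ∀ I k ζ, k ≤ I → ‖ζ‖ = 1 → rho ζ (chain P I k ζ) ≤ 8/7 * rr (I - k) := by
    intro I k
    induction k with
    | zero =>
      intro ζ _ hζ
      have h1 := P2 I ζ hζ
      have h2 := rr_pos I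
      change rho ζ (P I ζ) ≤ 8/7 * rr I
      linarith
    | succ k ih =>
      intro ζ hk hζ
      have h1 := ih ζ (by omega) hζ
      have h2 : ‖chain P I k ζ‖ = 1 := X1 _ _ (hmem I k ζ)
      have h3 := P2 (I - (k+1)) _ h2
      have h4 : ‖P (I - (k+1)) (chain P I k ζ)‖ = 1 := X1 _ _ (P1 _ _)
      have h5 := rho_tri ζ (chain P I k ζ) (P (I - (k+1)) (chain P I k ζ)) hζ.le h2.le h4.le
      have h6 : rr (I - k) = rr (I - (k+1)) / 8 := by
        rw [show I - k = (I - (k+1)) + 1 by omega, rr_succ]
      rw [h6] at h1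
      change rho ζ (P (I - (k+1)) (chain P I k ζ)) ≤ _
      linarith
  have heq : ∀ I k ζ x, k ≤ I → ‖ζ‖ = 1 → x ∈ X (I - k) → rho ζ x < rr (I - k) / 4 →
      chain P I k ζ = x := by
    intro I k ζ x hk hζ hx hr
    cases k with
    | zero =>
      have h1 := rr_pos I
      change rho ζ x < rr I / 4 at hr
      exact P3 I ζ hζ.le x hx (by linarith)
    | succ k =>
      have h1 := hrho I k ζ (by omega) hζ
      have h2 : ‖chain P I k ζ‖ = 1 := X1 _ _ (hmem I k ζ)
      have h6 : rr (I - k) = rr (I - (k+1)) / 8 := by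
        rw [show I - k = (I - (k+1)) + 1 by omega, rr_succ]
      rw [h6] at h1
      have h7 := rho_tri (chain P I k ζ) ζ x h2.le hζ.le (X1 _ x hx).le
      rw [rho_comm (chain P I k ζ) ζ] at h7
      have h8 := rr_pos (I - (k+1))
      exact P3 (I - (k+1)) (chain P I k ζ) h2.le x hx (by linarith)
  refine ⟨c / 4 ^ n, by positivity, ?_⟩
  intro I
  let F : Finset (ℕ × E n) := (Finset.range (I+1)).biUnion (fun i => (X i).image (fun x => (i, x)))
  have hF : ∀ p : ℕ × E n, p ∈ F ↔ (p.1 ≤ I ∧ p.2 ∈ X p.1) := by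
    rintro ⟨i, x⟩
    simp only [F, Finset.mem_biUnion, Finset.mem_range, Finset.mem_image, Prod.mk.injEq]
    constructor
    · rintro ⟨j, hj, y, hy, rfl, rfl⟩
      exact ⟨by omega, hy⟩
    · rintro ⟨h1, h2⟩
      exact ⟨i, by omega, x, h2, rfl, rfl⟩
  let T : Tree n (c / 4 ^ n) :=
    { ι := {p : ℕ × E n // p.1 ≤ I ∧ p.2 ∈ X p.1}
      fin := Fintype.subtype F hF
      dec := inferInstance
      I := I
      lev := fun p => p.1.1
      lev_le := fun p => p.2.1
      pt := fun p => p.1.2
      norm_pt := fun p => X1 _ _ p.2.2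
      root := ⟨(0, P 0 0), Nat.zero_le _, P1 0 0⟩
      lev_root := rfl
      eq_root := by
        rintro ⟨⟨i, x⟩, h1, h2⟩ h3
        dsimp only at h1 h2 h3
        subst h3
        apply Subtype.ext
        simp only [Prod.mk.injEq, true_and]
        exact hX0 _ h2 _ (P1 0 0)
      par := fun p => ⟨(p.1.1 - 1, P (p.1.1 - 1) p.1.2),
        le_trans (Nat.sub_le _ _) p.2.1, P1 _ _⟩
      par_root := by
        apply Subtype.ext
        simp only [Nat.zero_sub, Prod.mk.injEq, true_and]
        exact hX0 _ (P1 0 _) _ (P1 0 0)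
      lev_par := by
        rintro ⟨⟨i, x⟩, h1, h2⟩ h3
        dsimp only at h3 ⊢
        omega
      rho_par := by
        rintro ⟨⟨i, x⟩, h1, h2⟩ h3
        exact (P2 (i - 1) x (X1 _ _ h2)).le
      cell := fun p => {ζ | ζ ∈ Sph n ∧ chain P I (I - p.1.1) ζ = p.1.2}
      meas_cell := by
        intro p
        apply MeasurableSet.inter
        · exact Metric.isClosed_sphere.measurableSet
        · exact chain_meas P P0 I (I - p.1.1) (measurableSet_singleton p.1.2)
      cell_sub := fun p ζ hζ => hζ.1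
      cell_disj := by
        rintro ⟨⟨i, x⟩, h1, h2⟩ ⟨⟨j, y⟩, h3, h4⟩ h5 h6
        dsimp only at h5
        subst h5
        rw [Set.disjoint_left]
        rintro ζ ⟨_, h7⟩ ⟨_, h8⟩
        apply h6
        apply Subtype.ext
        simp only [Prod.mk.injEq, true_and]
        exact h7.symm.trans h8
      cell_cover := by
        intro i hi ζ hζ
        refine ⟨⟨(i, chain P I (I - i) ζ), hi, ?_⟩, rfl, hζ, rfl⟩
        have := hmem I (I - i) ζ
        rwa [show I - (I - i) = i by omega] at this
      cell_par := by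
        rintro ⟨⟨i, x⟩, h1, h2⟩ ζ ⟨h3, h4⟩
        dsimp only at h1 h2 h4
        refine ⟨h3, ?_⟩
        change chain P I (I - (i - 1)) ζ = P (i - 1) x
        rcases Nat.eq_zero_or_pos i with h0 | h0
        · subst h0
          apply hX0 _ _ _ (P1 0 _)
          have := hmem I (I - (0 - 1)) ζ
          rwa [show I - (I - (0 - 1)) = 0 by omega] at this
        · rw [show I - (i - 1) = (I - i) + 1 by omega]
          change P (I - ((I - i) + 1)) (chain P I (I - i) ζ) = _
          rw [h4, show I - ((I - i) + 1) = i - 1 by omega]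
      cell_near := by
        rintro ⟨⟨i, x⟩, h1, h2⟩ ζ ⟨h3, h4⟩
        dsimp only at h1 h2 h4 ⊢
        have h5 := hrho I (I - i) ζ (Nat.sub_le _ _) (by simpa [Sph] using h3)
        rw [h4, show I - (I - i) = i by omega] at h5
        have := rr_pos i
        linarith
      cell_vol := by
        rintro ⟨⟨i, x⟩, h1, h2⟩
        dsimp only at h1 h2 ⊢
        have h3 := hh_pos i
        have h4 := hlow x (hh i / 4) (X1 _ _ h2) (by positivity) (by have := hh_le_one i; linarith)
        have e : c / 4 ^ n * hh i ^ n = c * (hh i / 4) ^ n := by rw [div_pow]; ring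
        rw [e]
        refine h4.trans (measure_mono ?_)
        rintro ζ ⟨h5, h6⟩
        refine ⟨by simpa [Sph] using h5, ?_⟩
        apply heq I (I - i) ζ x (Nat.sub_le _ _) h5
        · rwa [show I - (I - i) = i by omega]
        · rw [show I - (I - i) = i by omega]
          have h7 := rr_pos i
          unfold rho
          rw [Real.sqrt_lt' (by positivity), div_pow, rr_sq]
          linarith
      loc := fun w => ⟨(Nat.findGreatest (fun j => dl w ≤ hh j) I,
        P (Nat.findGreatest (fun j => dl w ≤ hh j) I) ((‖w‖⁻¹ : ℝ) • w)),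
        Nat.findGreatest_le _, P1 _ _⟩
      meas_loc := by
        rintro ⟨⟨i, x⟩, h1, h2⟩
        have hm1 : Measurable (fun w : E n => Nat.findGreatest (fun j => dl w ≤ hh j) I) := by
          apply measurable_findGreatest
          intro k _
          apply IsClosed.measurableSet
          apply isClosed_le _ continuous_const
          unfold dl; fun_prop
        have hm2 : Measurable (fun w : E n => (‖w‖⁻¹ : ℝ) • w) := by fun_prop
        have e : (fun w : E n => (⟨(Nat.findGreatest (fun j => dl w ≤ hh j) I,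
            P (Nat.findGreatest (fun j => dl w ≤ hh j) I) ((‖w‖⁻¹ : ℝ) • w)),
            Nat.findGreatest_le _, P1 _ _⟩ : {p : ℕ × E n // p.1 ≤ I ∧ p.2 ∈ X p.1})) ⁻¹'
            {⟨(i, x), h1, h2⟩} =
            (fun w : E n => Nat.findGreatest (fun j => dl w ≤ hh j) I) ⁻¹' {i} ∩
              (fun w : E n => P i ((‖w‖⁻¹ : ℝ) • w)) ⁻¹' {x} := by
          ext w
          simp only [Set.mem_preimage, Set.mem_singleton_iff, Subtype.mk.injEq, Prod.mk.injEq,
            Set.mem_inter_iff]
          constructor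
          · rintro ⟨h3, h4⟩
            refine ⟨h3, ?_⟩
            rw [h3] at h4; exact h4
          · rintro ⟨h3, h4⟩
            refine ⟨h3, ?_⟩
            rw [h3]; exact h4
        rw [e]
        exact (hm1 (measurableSet_singleton i)).inter
          (((P0 i).comp hm2) (measurableSet_singleton x))
      loc_near := by
        intro w hw
        dsimp only
        set i := Nat.findGreatest (fun j => dl w ≤ hh j) I with hi
        have hw1 := mem_B.1 hw
        have hP1 : ‖P i ((‖w‖⁻¹ : ℝ) • w)‖ = 1 := X1 _ _ (P1 _ _)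
        have hspec : dl w ≤ hh i :=
          Nat.findGreatest_spec (P := fun j => dl w ≤ hh j) (Nat.zero_le I)
            (by rw [hh_zero]; exact dl_le_one w)
        rcases Nat.eq_zero_or_pos i with h0 | h0
        · have h1 := rho_lt_two hw1.le hP1.le
          have h2 : rr i = 2 := by rw [h0, rr_zero]
          rw [h2]; linarith
        · have h1 : hh i ≤ hh 1 := hh_anti h0
          have h2 : hh 1 = 1/64 := by unfold hh; norm_num
          have h3 : 0 < ‖w‖ := by
            by_contra h
            have h4 : ‖w‖ = 0 := le_antisymm (not_lt.1 h) (norm_nonneg _)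
            unfold dl at hspec
            rw [h4] at hspec
            linarith
          set ζ : E n := (‖w‖⁻¹ : ℝ) • w with hζ
          have h5 : ‖ζ‖ = 1 := by
            rw [hζ, norm_smul, norm_inv, norm_norm, inv_mul_cancel₀ h3.ne']
          have h6 : w = ((1 - (1 - ‖w‖) : ℝ)) • ζ := by
            rw [hζ, smul_smul, sub_sub_cancel, mul_inv_cancel₀ h3.ne', one_smul]
          have h7 : d w ζ = 1 - ‖w‖ := by
            conv_lhs => rw [h6]
            exact d_rad_self h5 (by linarith)
          have h8 : rho w ζ ≤ rr i / 2 := by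
            rw [← sqrt_hh]
            unfold rho
            apply Real.sqrt_le_sqrt
            rw [h7]
            unfold dl at hspec
            nlinarith
          have h9 := P2 i ζ h5
          have h10 := rho_tri w ζ (P i ζ) hw1.le h5.le hP1.le
          have h11 := rr_pos i
          linarith
      loc_upper := by
        intro w _
        exact Nat.findGreatest_spec (P := fun j => dl w ≤ hh j) (Nat.zero_le I)
            (by rw [hh_zero]; exact dl_le_one w)
      loc_lower := by
        intro w _ hlt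
        dsimp only at hlt ⊢
        have h := Nat.findGreatest_is_greatest (P := fun j => dl w ≤ hh j) (n := I)
          (Nat.lt_succ_self _) hlt
        exact not_le.1 h }
  exact ⟨T, rfl⟩

end

end Pool.Agent.Lib.MP7ebef4
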