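import Pool.Agent.Lib.MP_7ebef4_an.Main
import Pool.Agent.Lib.MP_7ebef4_an.Inst
import Pool.Agent.Lib.MP_7ebef4_an.Neumann
import Pool.Agent.Lib.MP_7ebef4_an.TreeEx
import Pool.Agent.Lib.MP_7ebef4_an.Meas1U
import Pool.Agent.Lib.MP_7ebef4_an.Meas1L
import Pool.Agent.Lib.MP_7ebef4_an.LimitB
import Pool.Agent.Lib.MP_7ebef4_an.Frozen

/-! Final assembly from the four raw analytic facts (radial maximal functions, Littlewood-Paley,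
Hardy-Stein). -/

set_option autoImplicit false

open MeasureTheory Set

namespace Pool.Agent.Lib.MP7ebef4

noncomputable section

theorem neumannStmt (n : ℕ) : NeumannStmt n := by
  intro cT C K S Gj Ef A hA hE hH F₀ hF₀ hX₀ η δ hη hδ
  exact S.neumann Gj Ef A hA hE hH F₀ hF₀ hX₀ η δ hη hδ

theorem hlow (n : ℕ) (hn : 0 < n) : HLow n := sig_ball_lower n hn

theorem kcn (n : ℕ) (hup : HUp n) (cT : ℝ) (hc : 0 < cT) : ∃ KC : ℝ, 0 < KC ∧ KCn n cT KC := by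
  apply KCn_of
  obtain ⟨A, hA, h⟩ := kernel_carleson_of n hup cT hc ((n + 1 : ℕ) : ℝ) (by
    have : n < n + 1 := Nat.lt_succ_self _
    exact_mod_cast this)
  refine ⟨A, hA, ?_⟩
  intro T μ K₁ h1 h2 h3 x₀
  exact h T μ K₁ h1 h2 h3 x₀

theorem uniform_raw (n : ℕ) (hn : 0 < n) (R : Raw n) :
    ∃ (N : ℕ) (C : ℝ), 0 < C ∧ ∀ (f : E n → ℂ) (ρ m : ℝ), 1 < ρ →
    DifferentiableOn ℂ f (Metric.ball 0 ρ) → 0 < m → ∫⁻ ζ, ‖f ζ‖ₑ ∂(sig n) ≤ ENNReal.ofReal m →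
    ∀ η : ℝ, 0 < η → ∃ G H : Fin N → E n → ℂ,
      (∀ j, DifferentiableOn ℂ (G j) (B n) ∧ H2 (G j) ≤ ENNReal.ofReal (C * m) ∧
        DifferentiableOn ℂ (H j) (B n) ∧ H2 (H j) ≤ ENNReal.ofReal (C * m)) ∧
      ∀ z : E n, ‖z‖ ≤ 1 - η → ‖f z - ∑ j, G j z * H j z‖ ≤ η :=
  uniform_of n hn R.up (R.cfInp hn) (FRstmt_of n (R.FR hn)) (R.schurQ hn 1 one_pos le_rfl)
    (R.schurQ hn (1/4) (by norm_num) (by norm_num)) (exists_tree_of n hn (hlow n hn))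
    (fun cT hc α β hα hβ => NodeSum_of n R.up cT hc α β hα hβ)
    (fun cT hc m hm => LevelSum_of n R.up cT hc m hm)
    (fun cT hc => kcn n R.up cT hc)
    (fun cT C K hc _ _ => R.e2b hn cT hc C K) R.lp (neumannStmt n)

theorem limit_raw (n : ℕ) (hn : 0 < n) (R : Raw n) (f : E n → ℂ) (hf : DifferentiableOn ℂ f (B n))
    (h1 : ⨆ r ∈ Ioo (0:ℝ) 1, ∫⁻ ζ, ‖f (r • ζ)‖ₑ ∂(sig n) < ⊤) :
    ∃ (N : ℕ) (G H : Fin N → E n → ℂ),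
      (∀ j, DifferentiableOn ℂ (G j) (B n) ∧ H2 (G j) < ⊤ ∧
        DifferentiableOn ℂ (H j) (B n) ∧ H2 (H j) < ⊤) ∧
      ∀ z ∈ B n, f z = ∑ j, G j z * H j z :=
  limit_of (uniform_raw n hn R) (Raw.sub hn 1 one_pos) R.rm2 f hf h1

/-- the factorisation in the form of the frozen statement, from the raw facts -/
theorem frozen_raw (n : ℕ) (hn : 0 < n) (R : Raw n) (f : (Fin n → ℂ) → ℂ)
    (hf : DifferentiableOn ℂ f (Bpi n))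
    (h1 : (⨆ r ∈ Set.Ioo (0 : ℝ) 1, ∫⁻ z in Bpi n,
            ‖f ((r / Real.sqrt (∑ i, ‖z i‖ ^ 2)) • z)‖ₑ) < ⊤) :
    ∃ (N : ℕ) (g h : Fin N → (Fin n → ℂ) → ℂ),
        (∀ i, DifferentiableOn ℂ (g i) (Bpi n) ∧
              (⨆ r ∈ Set.Ioo (0 : ℝ) 1, ∫⁻ z in Bpi n,
                    ‖g i ((r / Real.sqrt (∑ j, ‖z j‖ ^ 2)) • z)‖ₑ ^ (2 : ℕ)) < ⊤ ∧
              DifferentiableOn ℂ (h i) (Bpi n) ∧
              (⨆ r ∈ Set.Ioo (0 : ℝ) 1, ∫⁻ z in Bpi n,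
                    ‖h i ((r / Real.sqrt (∑ j, ‖z j‖ ^ 2)) • z)‖ₑ ^ (2 : ℕ)) < ⊤) ∧
        ∀ z ∈ Bpi n, f z = ∑ i, g i z * h i z :=
  frozen_of n (fun f hf h1 => limit_raw n hn R f hf h1) f hf h1

end

end Pool.Agent.Lib.MP7ebef4
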