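import Pool.Agent.Lib.MP_7ebef4_an.Defs

/-! Geometry of `q`, `d`, `rho` on the closed ball. -/

set_option autoImplicit false

open MeasureTheory Set

namespace Pool.Agent.Lib.MP7ebef4

noncomputable section

variable {n : ℕ}

theorem q_conj (z w : E n) : q w z = (starRingEnd ℂ) (q z w) := by
  unfold q
  rw [map_sub, map_one, inner_conj_symm]

theorem d_comm (z w : E n) : d z w = d w z := by
  unfold d
  rw [q_conj z w, Complex.norm_conj]

theorem rho_comm (z w : E n) : rho z w = rho w z := by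
  unfold rho; rw [d_comm]

theorem d_nonneg (z w : E n) : 0 ≤ d z w := norm_nonneg _

theorem rho_nonneg (z w : E n) : 0 ≤ rho z w := Real.sqrt_nonneg _

theorem rho_sq (z w : E n) : rho z w ^ 2 = d z w := Real.sq_sqrt (d_nonneg z w)

theorem two_re_q (z w : E n) : 2 * (q z w).re = dl z + dl w + ‖z - w‖ ^ 2 := by
  have h := @norm_sub_sq ℂ (E n) _ _ _ z w
  have h2 : (inner ℂ w z : ℂ).re = RCLike.re (inner ℂ z w) := by
    rw [← inner_conj_symm z w]; exact (Complex.conj_re _).symm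
  unfold q dl
  rw [Complex.sub_re, Complex.one_re, h2, h]
  ring

theorem dl_nonneg {z : E n} (hz : ‖z‖ ≤ 1) : 0 ≤ dl z := by
  unfold dl
  have := norm_nonneg z
  nlinarith

theorem dl_pos {z : E n} (hz : z ∈ B n) : 0 < dl z := by
  unfold dl B at *
  rw [mem_ball_zero_iff] at hz
  have := norm_nonneg z
  nlinarith

theorem dl_le_one (z : E n) : dl z ≤ 1 := by
  unfold dl
  have := sq_nonneg ‖z‖
  linarith

theorem mem_B {z : E n} : z ∈ B n ↔ ‖z‖ < 1 := by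
  unfold B; rw [mem_ball_zero_iff]

theorem re_q_le (z w : E n) : (q z w).re ≤ d z w := Complex.re_le_norm _

theorem dl_add_le (z w : E n) : (dl z + dl w) / 2 ≤ d z w := by
  have h := two_re_q z w
  have h2 := re_q_le z w
  have := sq_nonneg ‖z - w‖
  linarith

theorem dl_le_left (z w : E n) (hw : ‖w‖ ≤ 1) : dl z ≤ 2 * d z w := by
  have h := dl_add_le z w
  have := dl_nonneg hw
  linarith

theorem dl_le_right (z w : E n) (hz : ‖z‖ ≤ 1) : dl w ≤ 2 * d z w := by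
  have h := dl_add_le z w
  have := dl_nonneg hz
  linarith

theorem norm_sub_sq_le (z w : E n) (hz : ‖z‖ ≤ 1) (hw : ‖w‖ ≤ 1) : ‖z - w‖ ^ 2 ≤ 2 * d z w := by
  have h := two_re_q z w
  have h2 := re_q_le z w
  have h3 := dl_nonneg hz
  have h4 := dl_nonneg hw
  linarith

theorem norm_sub_le_rho (z w : E n) (hz : ‖z‖ ≤ 1) (hw : ‖w‖ ≤ 1) : ‖z - w‖ ≤ Real.sqrt 2 * rho z w := by
  unfold rho
  rw [← Real.sqrt_mul (by norm_num)]
  exact Real.le_sqrt_of_sq_le (norm_sub_sq_le z w hz hw)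

theorem d_le_two (z w : E n) (hz : ‖z‖ ≤ 1) (hw : ‖w‖ ≤ 1) : d z w ≤ 2 := by
  unfold d q
  have h : ‖(inner ℂ w z : ℂ)‖ ≤ ‖w‖ * ‖z‖ := norm_inner_le_norm w z
  have h2 : ‖w‖ * ‖z‖ ≤ 1 := by
    have := norm_nonneg z; have := norm_nonneg w; nlinarith
  have h3 := norm_sub_le (1:ℂ) (inner ℂ w z)
  rw [norm_one] at h3
  linarith

theorem q_self (z : E n) : q z z = ((dl z : ℝ) : ℂ) := by
  unfold q dl
  rw [inner_self_eq_norm_sq_to_K]
  push_cast
  rfl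

theorem q_sub (z a w : E n) : q z w - q a w = inner ℂ w (a - z) := by
  unfold q
  rw [inner_sub_right]; ring

theorem q_sub_le (z a w : E n) (hz : ‖z‖ ≤ 1) (ha : ‖a‖ ≤ 1) (hw : ‖w‖ ≤ 1) :
    ‖q z w - q a w‖ ≤ 3 * d z a + 2 * rho z a * rho a w := by
  have e : q z w - q a w = inner ℂ a (a - z) + inner ℂ (w - a) (a - z) := by
    rw [q_sub, ← inner_add_left]; congr 1; abel
  have e2 : inner ℂ a (a - z) = q z a - q a a := by rw [q_sub]
  have h1 : ‖inner ℂ a (a - z)‖ ≤ 3 * d z a := by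
    rw [e2, q_self]
    have h3 := norm_sub_le (q z a) ((dl a : ℝ) : ℂ)
    have h4 : ‖((dl a : ℝ) : ℂ)‖ = dl a := by
      rw [Complex.norm_real, Real.norm_of_nonneg (dl_nonneg ha)]
    have h5 := dl_le_right z a hz
    rw [h4] at h3
    unfold d at *
    linarith
  have h2 : ‖(inner ℂ (w - a) (a - z) : ℂ)‖ ≤ 2 * rho z a * rho a w := by
    have h3 := norm_inner_le_norm (𝕜 := ℂ) (w - a) (a - z)
    have h4 := norm_sub_le_rho w a hw ha
    have h5 := norm_sub_le_rho a z ha hz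
    rw [rho_comm w a] at h4
    rw [rho_comm a z] at h5
    have h6 : Real.sqrt 2 * Real.sqrt 2 = 2 := Real.mul_self_sqrt (by norm_num)
    calc ‖(inner ℂ (w - a) (a - z) : ℂ)‖ ≤ ‖w - a‖ * ‖a - z‖ := h3
      _ ≤ (Real.sqrt 2 * rho a w) * (Real.sqrt 2 * rho z a) :=
          mul_le_mul h4 h5 (norm_nonneg _) (mul_nonneg (Real.sqrt_nonneg _) (rho_nonneg _ _))
      _ = (Real.sqrt 2 * Real.sqrt 2) * rho z a * rho a w := by ring
      _ = 2 * rho z a * rho a w := by rw [h6]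
  rw [e]
  exact (norm_add_le _ _).trans (by linarith)

theorem aux_disc (r : ℝ) (w : ℂ) (hr0 : 0 ≤ r) (hr : r ≤ 1) (hw : ‖w‖ ≤ 1) :
    ‖(r:ℂ) - w‖ ≤ ‖1 - (r:ℂ) * w‖ := by
  apply le_of_sq_le_sq _ (norm_nonneg _)
  have h : ‖w‖ ^ 2 = w.re ^ 2 + w.im ^ 2 := by
    rw [← Complex.normSq_eq_norm_sq, Complex.normSq_apply]; ring
  have h1 : w.re ^ 2 + w.im ^ 2 ≤ 1 := by
    rw [← h]; have := norm_nonneg w; nlinarith
  rw [← Complex.normSq_eq_norm_sq, ← Complex.normSq_eq_norm_sq, Complex.normSq_apply,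
    Complex.normSq_apply]
  simp only [Complex.sub_re, Complex.sub_im, Complex.ofReal_re, Complex.ofReal_im, Complex.one_re,
    Complex.one_im, Complex.mul_re, Complex.mul_im]
  have h2 : 0 ≤ (1 - r^2) * (1 - (w.re ^ 2 + w.im ^ 2)) :=
    mul_nonneg (by nlinarith) (by linarith)
  nlinarith

/-- triangle inequality for `rho` (Rudin, Prop. 5.1.2) -/
theorem rho_tri (z a w : E n) (hz : ‖z‖ ≤ 1) (ha : ‖a‖ ≤ 1) (hw : ‖w‖ ≤ 1) :
    rho z w ≤ rho z a + rho a w := by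
  have key : d z w ≤ d z a + d a w + 2 * (rho z a * rho a w) := by
    by_cases ha0 : a = 0
    · subst ha0
      have h1 : d z (0 : E n) = 1 := by unfold d q; simp
      have h2 : d (0 : E n) w = 1 := by unfold d q; simp
      have h3 : rho z (0 : E n) = 1 := by unfold rho; rw [h1]; simp
      have h4 : rho (0 : E n) w = 1 := by unfold rho; rw [h2]; simp
      rw [h1, h2, h3, h4]
      have := d_le_two z w hz hw
      linarith
    set r : ℝ := ‖a‖ with hr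
    have hrpos : 0 < r := norm_pos_iff.2 ha0
    obtain ⟨e, hea, hen⟩ : ∃ e : E n, a = ((r : ℝ) : ℂ) • e ∧ ‖e‖ = 1 := by
      refine ⟨((r⁻¹ : ℝ) : ℂ) • a, ?_, ?_⟩
      · rw [smul_smul, ← Complex.ofReal_mul, mul_inv_cancel₀ hrpos.ne', Complex.ofReal_one,
          one_smul]
      · rw [norm_smul, Complex.norm_real, Real.norm_of_nonneg (inv_nonneg.2 hrpos.le)]
        exact inv_mul_cancel₀ hrpos.ne'
    set z₁ : ℂ := inner ℂ e z with hz₁
    set w₁ : ℂ := inner ℂ e w with hw₁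
    have hz₁n : ‖z₁‖ ≤ 1 := by
      have := norm_inner_le_norm (𝕜 := ℂ) e z
      rw [hen, one_mul] at this; exact this.trans hz
    have hw₁n : ‖w₁‖ ≤ 1 := by
      have := norm_inner_le_norm (𝕜 := ℂ) e w
      rw [hen, one_mul] at this; exact this.trans hw
    have hqza : q z a = 1 - (r:ℂ) * z₁ := by
      unfold q
      rw [hea, inner_smul_left, Complex.conj_ofReal]
    have hqaw : q a w = 1 - (r:ℂ) * (starRingEnd ℂ) w₁ := by
      unfold q
      rw [hea, inner_smul_right, hw₁, inner_conj_symm]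
    set z' : E n := z - z₁ • e with hz'
    set w' : E n := w - w₁ • e with hw'
    have hee : (inner ℂ e e : ℂ) = 1 := by
      rw [inner_self_eq_norm_sq_to_K, hen]; norm_num
    have hdec : (inner ℂ w z : ℂ) = (starRingEnd ℂ) w₁ * z₁ + inner ℂ w' z' := by
      rw [hw', hz', inner_sub_left, inner_sub_right, inner_sub_right, inner_smul_left,
        inner_smul_right, inner_smul_left, inner_smul_right, hee, ← hz₁, ← inner_conj_symm w e,
        ← hw₁]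
      ring
    have hpyth : ∀ x : E n, ‖x - (inner ℂ e x : ℂ) • e‖ ^ 2 = ‖x‖ ^ 2 - ‖(inner ℂ e x : ℂ)‖ ^ 2 := by
      intro x
      have h := @norm_sub_sq ℂ (E n) _ _ _ x ((inner ℂ e x : ℂ) • e)
      rw [h, norm_smul, hen, mul_one, inner_smul_right, ← inner_conj_symm x e]
      have h2 : (inner ℂ e x : ℂ) * (starRingEnd ℂ) (inner ℂ e x : ℂ) =
          ((‖(inner ℂ e x : ℂ)‖ ^ 2 : ℝ) : ℂ) := by
        rw [Complex.mul_conj, Complex.normSq_eq_norm_sq]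
      rw [h2]
      simp only [RCLike.re_to_complex, Complex.ofReal_re]
      ring
    have hz'n : ‖z'‖ ^ 2 ≤ 2 * d z a := by
      have h1 := hpyth z
      rw [← hz₁, ← hz'] at h1
      have h2 : ‖z‖ ^ 2 ≤ 1 := by have := norm_nonneg z; nlinarith
      have h3 : 1 - ‖z₁‖ ≤ d z a := by
        unfold d; rw [hqza]
        have h4 := norm_sub_norm_le (1:ℂ) ((r:ℂ) * z₁)
        rw [norm_one, norm_mul, Complex.norm_real, Real.norm_of_nonneg hrpos.le] at h4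
        have := norm_nonneg z₁
        nlinarith
      have := norm_nonneg z₁
      nlinarith
    have hw'n : ‖w'‖ ^ 2 ≤ 2 * d a w := by
      have h1 := hpyth w
      rw [← hw₁, ← hw'] at h1
      have h2 : ‖w‖ ^ 2 ≤ 1 := by have := norm_nonneg w; nlinarith
      have h3 : 1 - ‖w₁‖ ≤ d a w := by
        unfold d; rw [hqaw]
        have h4 := norm_sub_norm_le (1:ℂ) ((r:ℂ) * (starRingEnd ℂ) w₁)
        rw [norm_one, norm_mul, Complex.norm_real, Real.norm_of_nonneg hrpos.le,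
          Complex.norm_conj] at h4
        have := norm_nonneg w₁
        nlinarith
      have := norm_nonneg w₁
      nlinarith
    have hin : ‖(inner ℂ w' z' : ℂ)‖ ≤ 2 * (rho z a * rho a w) := by
      have h1 := norm_inner_le_norm (𝕜 := ℂ) w' z'
      have h2 : ‖z'‖ ≤ Real.sqrt 2 * rho z a := by
        unfold rho; rw [← Real.sqrt_mul (by norm_num)]; exact Real.le_sqrt_of_sq_le hz'n
      have h3 : ‖w'‖ ≤ Real.sqrt 2 * rho a w := by
        unfold rho; rw [← Real.sqrt_mul (by norm_num)]; exact Real.le_sqrt_of_sq_le hw'n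
      have h6 : Real.sqrt 2 * Real.sqrt 2 = 2 := Real.mul_self_sqrt (by norm_num)
      calc ‖(inner ℂ w' z' : ℂ)‖ ≤ ‖w'‖ * ‖z'‖ := h1
        _ ≤ (Real.sqrt 2 * rho a w) * (Real.sqrt 2 * rho z a) :=
          mul_le_mul h3 h2 (norm_nonneg _) (mul_nonneg (Real.sqrt_nonneg _) (rho_nonneg _ _))
        _ = (Real.sqrt 2 * Real.sqrt 2) * (rho z a * rho a w) := by ring
        _ = 2 * (rho z a * rho a w) := by rw [h6]
    have hmain : ‖1 - (starRingEnd ℂ) w₁ * z₁‖ ≤ d z a + d a w := by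
      have e1 : 1 - (starRingEnd ℂ) w₁ * z₁ =
          (1 - (r:ℂ) * z₁) + z₁ * ((r:ℂ) - (starRingEnd ℂ) w₁) := by ring
      rw [e1]
      refine (norm_add_le _ _).trans ?_
      have h2 : ‖z₁ * ((r:ℂ) - (starRingEnd ℂ) w₁)‖ ≤ d a w := by
        rw [norm_mul]
        have h3 := aux_disc r ((starRingEnd ℂ) w₁) hrpos.le ha (by rw [Complex.norm_conj]; exact hw₁n)
        unfold d; rw [hqaw]
        have := norm_nonneg ((r:ℂ) - (starRingEnd ℂ) w₁)
        nlinarith [norm_nonneg z₁]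
      have h4 : ‖1 - (r:ℂ) * z₁‖ = d z a := by unfold d; rw [hqza]
      rw [h4]; linarith
    have e3 : q z w = (1 - (starRingEnd ℂ) w₁ * z₁) - inner ℂ w' z' := by
      unfold q; rw [hdec]; ring
    have h5 : d z w ≤ ‖1 - (starRingEnd ℂ) w₁ * z₁‖ + ‖(inner ℂ w' z' : ℂ)‖ := by
      unfold d; rw [e3]; exact norm_sub_le _ _
    linarith
  have h : rho z w ^ 2 ≤ (rho z a + rho a w) ^ 2 := by
    rw [rho_sq, add_sq, rho_sq, rho_sq]
    linarith
  exact le_of_sq_le_sq h (add_nonneg (rho_nonneg _ _) (rho_nonneg _ _))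

/-- quasi-triangle inequality for `d` -/
theorem d_tri (z a w : E n) (hz : ‖z‖ ≤ 1) (ha : ‖a‖ ≤ 1) (hw : ‖w‖ ≤ 1) :
    d z w ≤ 2 * (d z a + d a w) := by
  have h := rho_tri z a w hz ha hw
  rw [← rho_sq z w, ← rho_sq z a, ← rho_sq a w]
  have := rho_nonneg z w; have := rho_nonneg z a; have := rho_nonneg a w
  nlinarith [sq_nonneg (rho z a - rho a w)]

theorem d_pos {z w : E n} (hz : z ∈ B n) (hw : ‖w‖ ≤ 1) : 0 < d z w := by
  have h := dl_add_le z w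
  have h1 := dl_pos hz
  have h2 := dl_nonneg hw
  linarith

theorem rho_pos {z w : E n} (hz : z ∈ B n) (hw : ‖w‖ ≤ 1) : 0 < rho z w :=
  Real.sqrt_pos.2 (d_pos hz hw)

theorem q_ne_zero {z w : E n} (hz : z ∈ B n) (hw : ‖w‖ ≤ 1) : q z w ≠ 0 := by
  have := d_pos hz hw
  unfold d at this
  exact norm_pos_iff.1 this

/-! points `a = (1-h) ζ` -/

theorem norm_rad {ζ : E n} (hζ : ‖ζ‖ = 1) {h : ℝ} (h0 : 0 ≤ h) (h1 : h ≤ 1) :
    ‖((1 - h : ℝ)) • ζ‖ = 1 - h := by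
  rw [norm_smul, hζ, mul_one, Real.norm_of_nonneg (by linarith)]

theorem q_rad_self {ζ : E n} (hζ : ‖ζ‖ = 1) (h : ℝ) : q (((1 - h : ℝ)) • ζ) ζ = (h : ℂ) := by
  unfold q
  have e : ((1 - h : ℝ)) • ζ = ((1 - h : ℝ) : ℂ) • ζ := (Complex.coe_smul (1-h) ζ).symm
  rw [e, inner_smul_right, inner_self_eq_norm_sq_to_K, hζ]
  push_cast; ring

theorem d_rad_self {ζ : E n} (hζ : ‖ζ‖ = 1) {h : ℝ} (h0 : 0 ≤ h) : d (((1 - h : ℝ)) • ζ) ζ = h := by
  unfold d; rw [q_rad_self hζ, Complex.norm_real, Real.norm_of_nonneg h0]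

theorem rho_rad_self {ζ : E n} (hζ : ‖ζ‖ = 1) {h : ℝ} (h0 : 0 ≤ h) :
    rho (((1 - h : ℝ)) • ζ) ζ = Real.sqrt h := by
  unfold rho; rw [d_rad_self hζ h0]

theorem le_d_rad {ζ : E n} (hζ : ‖ζ‖ = 1) {h : ℝ} (h0 : 0 ≤ h) (h1 : h ≤ 1) (z : E n) (hz : ‖z‖ ≤ 1) :
    h ≤ d z (((1 - h : ℝ)) • ζ) := by
  unfold d q
  have h2 := norm_inner_le_norm (𝕜 := ℂ) (((1 - h : ℝ)) • ζ) z
  rw [norm_rad hζ h0 h1] at h2
  have h3 := norm_sub_norm_le (1:ℂ) (inner ℂ (((1 - h : ℝ)) • ζ) z)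
  rw [norm_one] at h3
  have h4 : (1 - h) * ‖z‖ ≤ 1 - h := by
    have := norm_nonneg z; nlinarith
  linarith

theorem dl_rad {ζ : E n} (hζ : ‖ζ‖ = 1) {h : ℝ} (h0 : 0 ≤ h) (h1 : h ≤ 1) :
    dl (((1 - h : ℝ)) • ζ) = h * (2 - h) := by
  unfold dl; rw [norm_rad hζ h0 h1]; ring

theorem rad_mem_B {ζ : E n} (hζ : ‖ζ‖ = 1) {h : ℝ} (h0 : 0 < h) (h1 : h ≤ 1) :
    ((1 - h : ℝ)) • ζ ∈ B n := by
  rw [mem_B, norm_rad hζ h0.le h1]; linarith

theorem rho_rad_le {ζ : E n} (hζ : ‖ζ‖ = 1) {h : ℝ} (h0 : 0 ≤ h) (h1 : h ≤ 1) (z : E n)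
    (hz : ‖z‖ ≤ 1) : rho z (((1 - h : ℝ)) • ζ) ≤ rho z ζ + Real.sqrt h := by
  have h2 := rho_tri z ζ (((1 - h : ℝ)) • ζ) hz hζ.le (by rw [norm_rad hζ h0 h1]; linarith)
  rw [rho_comm ζ, rho_rad_self hζ h0] at h2
  exact h2

theorem rho_le_rad {ζ : E n} (hζ : ‖ζ‖ = 1) {h : ℝ} (h0 : 0 ≤ h) (h1 : h ≤ 1) (z : E n)
    (hz : ‖z‖ ≤ 1) : rho z ζ ≤ 2 * rho z (((1 - h : ℝ)) • ζ) := by
  have h2 := rho_tri z (((1 - h : ℝ)) • ζ) ζ hz (by rw [norm_rad hζ h0 h1]; linarith) hζ.le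
  rw [rho_rad_self hζ h0] at h2
  have h3 : Real.sqrt h ≤ rho z (((1 - h : ℝ)) • ζ) := Real.sqrt_le_sqrt (le_d_rad hζ h0 h1 z hz)
  linarith

end

end Pool.Agent.Lib.MP7ebef4
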