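import Pool.Agent.Lib.MP_7ebef4_an.PumpA

/-!
# MP_7ebef4_an : pump systems (module Pump), part B, conditional on `kernel_carleson`
-/

set_option autoImplicit false

open MeasureTheory Set

namespace Pool.Agent.Lib.MP7ebef4

noncomputable section

variable {n : ℕ} {cT : ℝ}

theorem pump_kernel_bound (T : Tree n cT) {x₀ v w : T.ι} (hv : T.le v x₀)
    (hw : T.lev x₀ ≤ T.lev w) {p' : ℝ} (hp : 1 ≤ p')
    (hfar : p' * T.r w < rho (T.pt w) (T.pt v)) :
    (T.r w / rho (T.pt w) (T.pt v)) ^ (2 * (sE n - n)) ≤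
      (p' ^ 2)⁻¹ * 480 ^ (n+1) * ((T.h w / (T.h w + d (T.pt v) (T.pt w))) ^ (n+1) *
        (T.h x₀ / (T.h x₀ + d (T.pt w) (T.pt x₀))) ^ (n+1)) := by
  have hr := T.r_pos w
  have hh := T.h_pos w
  have hh0 := T.h_pos x₀
  have hr2 : T.r w ^ 2 = 4 * T.h w := rr_sq _
  set D := d (T.pt w) (T.pt v) with hD
  have hD' : d (T.pt v) (T.pt w) = D := d_comm _ _
  have hrho : rho (T.pt w) (T.pt v) ^ 2 = D := rho_sq _ _
  have hrp : 0 < rho (T.pt w) (T.pt v) := lt_trans (by positivity) hfar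
  have hDp : 0 < D := by rw [← hrho]; positivity
  have hD4 : p' ^ 2 * (4 * T.h w) ≤ D := by
    rw [← hrho, ← hr2, ← mul_pow]
    exact pow_le_pow_left₀ (by positivity) hfar.le 2
  have hp2 : 1 ≤ p' ^ 2 := one_le_pow₀ hp
  set t := 4 * T.h w / D with ht
  have htp : 0 ≤ t := by positivity
  have ht1 : t ≤ (p' ^ 2)⁻¹ := by
    rw [ht, div_le_iff₀ hDp, ← div_eq_inv_mul, le_div_iff₀ (by positivity)]
    linarith
  have ht2 : t ≤ 1 := ht1.trans (inv_le_one_of_one_le₀ hp2)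
  have e1 : (T.r w / rho (T.pt w) (T.pt v)) ^ 2 = t := by
    rw [div_pow, hr2, hrho]
  have e2 : sE n - n = 1 + (n+1) + (n+1) + (n+5) := by unfold sE; omega
  rw [pow_mul, e1, e2, pow_add, pow_add, pow_add, pow_one]
  have hhD : T.h w ≤ D := by nlinarith
  have b1 : t ≤ 8 * (T.h w / (T.h w + D)) := by
    rw [ht, ← mul_div_assoc, div_le_div_iff₀ hDp (by positivity)]
    nlinarith
  have b2 : t ≤ 60 * (T.h x₀ / (T.h x₀ + d (T.pt w) (T.pt x₀))) := by
    have hd0 := d_nonneg (T.pt w) (T.pt x₀)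
    rw [ht, ← mul_div_assoc, div_le_div_iff₀ hDp (by positivity)]
    have h1 := d_tri (T.pt w) (T.pt v) (T.pt x₀) (T.norm_pt_le _) (T.norm_pt_le _) (T.norm_pt_le _)
    have h2 := T.d_le_of_le hv
    have h3 : T.h w ≤ T.h x₀ := hh_anti hw
    have h4 : T.h w * d (T.pt w) (T.pt x₀) ≤ T.h w * (2 * (D + 6 * T.h x₀)) := by
      apply mul_le_mul_of_nonneg_left _ hh.le
      linarith
    have h5 : T.h w * D ≤ T.h x₀ * D := mul_le_mul_of_nonneg_right h3 hDp.le
    have h6 : T.h w * T.h x₀ ≤ D * T.h x₀ := mul_le_mul_of_nonneg_right hhD hh0.le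
    nlinarith
  have c1 : t ^ (n+1) ≤ (8 * (T.h w / (T.h w + D))) ^ (n+1) := pow_le_pow_left₀ htp b1 _
  have c2 : t ^ (n+1) ≤ (60 * (T.h x₀ / (T.h x₀ + d (T.pt w) (T.pt x₀)))) ^ (n+1) :=
    pow_le_pow_left₀ htp b2 _
  have c3 : t ^ (n+5) ≤ 1 := pow_le_one₀ htp ht2
  have hd0 := d_nonneg (T.pt w) (T.pt x₀)
  rw [hD']
  calc t * t ^ (n+1) * t ^ (n+1) * t ^ (n+5)
      ≤ (p' ^ 2)⁻¹ * (8 * (T.h w / (T.h w + D))) ^ (n+1) *
        (60 * (T.h x₀ / (T.h x₀ + d (T.pt w) (T.pt x₀)))) ^ (n+1) * 1 := by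
        gcongr
    _ = (p' ^ 2)⁻¹ * 480 ^ (n+1) * ((T.h w / (T.h w + D)) ^ (n+1) *
        (T.h x₀ / (T.h x₀ + d (T.pt w) (T.pt x₀))) ^ (n+1)) := by
        rw [mul_pow, mul_pow, show (480:ℝ) = 8 * 60 by norm_num, mul_pow]
        ring

open Classical in
/-- the statement of `kernel_carleson` with exponent `n+1` (natural power) -/
def KCn (n : ℕ) (cT KC : ℝ) : Prop :=
  ∀ (T : Tree n cT) (μ : T.ι → ℝ) (K₁ : ℝ), (∀ v, 0 ≤ μ v) → 0 ≤ K₁ →
    (∀ (x : T.ι) (V : Finset T.ι), (∀ v ∈ V, T.le v x) → ∑ v ∈ V, μ v ≤ K₁ * T.vol x) →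
    ∀ x₀ : T.ι, ∑ v ∈ Finset.univ.filter (fun v => T.lev x₀ ≤ T.lev v),
      μ v * (T.h x₀ / (T.h x₀ + d (T.pt v) (T.pt x₀))) ^ (n + 1) ≤ KC * K₁ * T.vol x₀

open Classical in
theorem typeII_sum {KC : ℝ} (hKC : 0 < KC) (hkc : KCn n cT KC)
    (T : Tree n cT) {resp : T.ι → T.ι}
    (hstep : ∀ x, resp x = x ∨ resp x = resp (T.par x)) (hroot : resp T.root = T.root)
    {p' ε : ℝ} (hp : 1 ≤ p') (m : ℕ)
    (hprev : ∀ x, FP T resp m x ≤ 2 * T.vol x) (x₀ : T.ι) :
    ε * ∑ v ∈ Finset.univ.filter (fun v => (Child T resp x₀ v ∧ T.lev v ≤ m + 1) ∧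
      ε < Theta T resp p' x₀ v), T.vol v ≤
      (p' ^ 2)⁻¹ * (480 ^ (n+1) * (2 * KC ^ 2)) * T.vol x₀ := by
  set Y := Finset.univ.filter (fun v => (Child T resp x₀ v ∧ T.lev v ≤ m + 1) ∧
      ε < Theta T resp p' x₀ v) with hY
  have memY : ∀ v, v ∈ Y ↔ ((Child T resp x₀ v ∧ T.lev v ≤ m + 1) ∧
      ε < Theta T resp p' x₀ v) := by intro v; simp [hY]
  set W := Finset.univ.filter (fun w => resp w = w ∧ T.lev x₀ < T.lev w ∧ T.lev w ≤ m) with hW
  have memW : ∀ w, w ∈ W ↔ (resp w = w ∧ T.lev x₀ < T.lev w ∧ T.lev w ≤ m) := by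
    intro w; simp [hW]
  set A : ℝ := (p' ^ 2)⁻¹ * 480 ^ (n+1) with hA
  have hA0 : 0 ≤ A := by positivity
  set k1 : T.ι → T.ι → ℝ := fun v w => (T.h w / (T.h w + d (T.pt v) (T.pt w))) ^ (n+1) with hk1
  set k2 : T.ι → ℝ := fun w => (T.h x₀ / (T.h x₀ + d (T.pt w) (T.pt x₀))) ^ (n+1) with hk2
  have hk1n : ∀ v w, 0 ≤ k1 v w := by
    intro v w
    have := T.h_pos w
    have := d_nonneg (T.pt v) (T.pt w)
    simp only [hk1]; positivity
  have hk2n : ∀ w, 0 ≤ k2 w := by
    intro w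
    have := T.h_pos x₀
    have := d_nonneg (T.pt w) (T.pt x₀)
    simp only [hk2]; positivity
  have step1 : ∀ v ∈ Y, ε * T.vol v ≤
      ∑ w ∈ W.filter (fun w => T.lev w < T.lev v), T.vol v * (A * (k1 v w * k2 w)) := by
    intro v hv
    rw [memY] at hv
    have hvx := hv.1.1.le hstep hroot
    have h1 : Theta T resp p' x₀ v ≤
        ∑ w ∈ W.filter (fun w => T.lev w < T.lev v), A * (k1 v w * k2 w) := by
      unfold Theta
      calc _ ≤ ∑ w ∈ Finset.univ.filter (fun w => resp w = w ∧ T.lev x₀ < T.lev w ∧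
              T.lev w < T.lev v ∧ p' * T.r w < rho (T.pt w) (T.pt v)), A * (k1 v w * k2 w) := by
            apply Finset.sum_le_sum
            intro w hw
            simp only [Finset.mem_filter, Finset.mem_univ, true_and] at hw
            exact pump_kernel_bound T hvx hw.2.1.le hp hw.2.2.2
        _ ≤ _ := by
            apply Finset.sum_le_sum_of_subset_of_nonneg
            · intro w hw
              simp only [Finset.mem_filter, Finset.mem_univ, true_and] at hw
              rw [Finset.mem_filter, memW]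
              have := hv.1.2
              exact ⟨⟨hw.1, hw.2.1, by omega⟩, hw.2.2.1⟩
            · intro w _ _
              exact mul_nonneg hA0 (mul_nonneg (hk1n _ _) (hk2n _))
    rw [← Finset.mul_sum]
    have h2 := hv.2.le.trans h1
    have h3 := T.vol_nonneg v
    calc ε * T.vol v = T.vol v * ε := mul_comm _ _
      _ ≤ _ := mul_le_mul_of_nonneg_left h2 h3
  have step2 : ε * ∑ v ∈ Y, T.vol v ≤
      ∑ v ∈ Y, ∑ w ∈ W.filter (fun w => T.lev w < T.lev v), T.vol v * (A * (k1 v w * k2 w)) := by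
    rw [Finset.mul_sum]
    exact Finset.sum_le_sum step1
  have step3 : ∑ v ∈ Y, ∑ w ∈ W.filter (fun w => T.lev w < T.lev v),
        T.vol v * (A * (k1 v w * k2 w)) =
      ∑ w ∈ W, ∑ v ∈ Y.filter (fun v => T.lev w < T.lev v), T.vol v * (A * (k1 v w * k2 w)) := by
    apply Finset.sum_comm'
    intro v w
    simp only [Finset.mem_filter]
    tauto
  have hanti : ∀ v ∈ Y, ∀ v' ∈ Y, T.le v v' → v = v' := by
    intro v hv v' hv' hle
    rw [memY] at hv hv'
    exact child_antichain hstep hroot hv.1.1 hv'.1.1 hle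
  have step4 : ∀ w ∈ W, ∑ v ∈ Y.filter (fun v => T.lev w < T.lev v),
      T.vol v * (A * (k1 v w * k2 w)) ≤ A * KC * (T.vol w * k2 w) := by
    intro w _
    have h1 := hkc T (fun v => if v ∈ Y then T.vol v else 0) 1
      (fun v => by by_cases h : v ∈ Y <;> simp [h, T.vol_nonneg v]) zero_le_one
      (by
        intro x V hV
        rw [← Finset.sum_filter, one_mul]
        apply T.sum_vol_le_vol
        · intro v hv v' hv' hle
          rw [Finset.mem_filter] at hv hv'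
          exact hanti v hv.2 v' hv'.2 hle
        · intro v hv
          rw [Finset.mem_filter] at hv
          exact hV v hv.1) w
    have h2 : ∑ v ∈ Y.filter (fun v => T.lev w < T.lev v), T.vol v * k1 v w ≤
        ∑ v ∈ Finset.univ.filter (fun v => T.lev w ≤ T.lev v),
          (if v ∈ Y then T.vol v else 0) * (T.h w / (T.h w + d (T.pt v) (T.pt w))) ^ (n + 1) := by
      calc _ = ∑ v ∈ Y.filter (fun v => T.lev w < T.lev v), (if v ∈ Y then T.vol v else 0) *
            (T.h w / (T.h w + d (T.pt v) (T.pt w))) ^ (n + 1) := by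
            apply Finset.sum_congr rfl
            intro v hv
            rw [Finset.mem_filter] at hv
            rw [if_pos hv.1]
        _ ≤ _ := by
            apply Finset.sum_le_sum_of_subset_of_nonneg
            · intro v hv
              rw [Finset.mem_filter] at hv
              rw [Finset.mem_filter]
              exact ⟨Finset.mem_univ _, hv.2.le⟩
            · intro v _ _
              refine mul_nonneg ?_ (hk1n v w)
              by_cases h : v ∈ Y <;> simp [h, T.vol_nonneg v]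
    have h3 : ∑ v ∈ Y.filter (fun v => T.lev w < T.lev v), T.vol v * k1 v w ≤ KC * T.vol w := by
      have := h2.trans h1
      rw [mul_one] at this
      exact this
    calc ∑ v ∈ Y.filter (fun v => T.lev w < T.lev v), T.vol v * (A * (k1 v w * k2 w))
        = A * k2 w * ∑ v ∈ Y.filter (fun v => T.lev w < T.lev v), T.vol v * k1 v w := by
          rw [Finset.mul_sum]
          apply Finset.sum_congr rfl
          intro v _
          ring
      _ ≤ A * k2 w * (KC * T.vol w) :=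
          mul_le_mul_of_nonneg_left h3 (mul_nonneg hA0 (hk2n w))
      _ = A * KC * (T.vol w * k2 w) := by ring
  have step5 : ∑ w ∈ W, T.vol w * k2 w ≤ KC * 2 * T.vol x₀ := by
    have h1 := hkc T (fun w => if (resp w = w ∧ T.lev w ≤ m) then T.vol w else 0) 2
      (fun v => by by_cases h : (resp v = v ∧ T.lev v ≤ m) <;> simp [h, T.vol_nonneg v])
      (by norm_num)
      (by
        intro x V hV
        rw [← Finset.sum_filter]
        refine le_trans ?_ (hprev x)
        unfold FP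
        apply Finset.sum_le_sum_of_subset_of_nonneg
        · intro v hv
          rw [Finset.mem_filter] at hv
          rw [Finset.mem_filter]
          exact ⟨Finset.mem_univ _, hv.2.1, hV v hv.1, hv.2.2⟩
        · intro v _ _
          exact T.vol_nonneg v) x₀
    refine le_trans ?_ h1
    calc ∑ w ∈ W, T.vol w * k2 w = ∑ w ∈ W, (if (resp w = w ∧ T.lev w ≤ m) then T.vol w else 0) *
            (T.h x₀ / (T.h x₀ + d (T.pt w) (T.pt x₀))) ^ (n + 1) := by
          apply Finset.sum_congr rfl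
          intro w hw
          rw [memW] at hw
          rw [if_pos ⟨hw.1, hw.2.2⟩]
      _ ≤ _ := by
          apply Finset.sum_le_sum_of_subset_of_nonneg
          · intro w hw
            rw [memW] at hw
            rw [Finset.mem_filter]
            exact ⟨Finset.mem_univ _, hw.2.1.le⟩
          · intro w _ _
            refine mul_nonneg ?_ (hk2n w)
            by_cases h : (resp w = w ∧ T.lev w ≤ m) <;> simp [h, T.vol_nonneg w]
  calc ε * ∑ v ∈ Y, T.vol v ≤ ∑ w ∈ W, ∑ v ∈ Y.filter (fun v => T.lev w < T.lev v),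
        T.vol v * (A * (k1 v w * k2 w)) := by rw [← step3]; exact step2
    _ ≤ ∑ w ∈ W, A * KC * (T.vol w * k2 w) := Finset.sum_le_sum step4
    _ = A * KC * ∑ w ∈ W, T.vol w * k2 w := by rw [Finset.mul_sum]
    _ ≤ A * KC * (KC * 2 * T.vol x₀) :=
        mul_le_mul_of_nonneg_left step5 (mul_nonneg hA0 hKC.le)
    _ = (p' ^ 2)⁻¹ * (480 ^ (n+1) * (2 * KC ^ 2)) * T.vol x₀ := by rw [hA]; ring

/-- Pump systems exist (conditional on the kernel Carleson lemma) -/
theorem exists_pumps_of (n : ℕ) (cT : ℝ) (hkc : ∃ KC : ℝ, 0 < KC ∧ KCn n cT KC)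
    (C : ℝ) (hC : 0 < C) :
    ∃ K : ℝ, 1 ≤ K ∧ ∀ ε > 0, ∃ p₀ : ℝ, ∀ p' ≥ p₀, ∀ (T : Tree n cT) (m : ℝ) (c : T.ι → ℝ),
      IsC T C m c → ∃ resp : T.ι → T.ι, IsPump T c K ε p' resp := by
  classical
  obtain ⟨KC, hKC, hkc⟩ := hkc
  refine ⟨1 + 4 * C, by linarith, ?_⟩
  intro ε hε
  refine ⟨1 + 4 * (480 ^ (n+1) * (2 * KC ^ 2)) / ε, ?_⟩
  intro p' hp' T m c hIsC
  have hp1 : 1 ≤ p' := by
    have : 0 ≤ 4 * (480 ^ (n+1) * (2 * KC ^ 2)) / ε := by positivity
    linarith
  have hpp : 4 * (480 ^ (n+1) * (2 * KC ^ 2)) / ε ≤ p' ^ 2 := by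
    have h1 : p' ≤ p' ^ 2 := by nlinarith
    have h2 : 4 * (480 ^ (n+1) * (2 * KC ^ 2)) / ε ≤ p' := by
      have := hp'
      linarith
    exact h2.trans h1
  set K : ℝ := 1 + 4 * C with hK
  have hK1 : 1 ≤ K := by rw [hK]; linarith
  have hc0 : ∀ x, 0 ≤ c x := fun x => (Real.sqrt_nonneg m).trans (hIsC.low x)
  obtain ⟨resp, hr⟩ := exists_preP T c hc0 K ε p' hK1 T.I
  have hstep : ∀ x, resp x = x ∨ resp x = resp (T.par x) := fun x => hr.step x (T.lev_le x)
  have hroot := hr.root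
  have hchildAll : ∀ m : ℕ, (∀ x, FP T resp m x ≤ 2 * T.vol x) → ∀ x₀, resp x₀ = x₀ →
      ∑ v ∈ Finset.univ.filter (fun v => Child T resp x₀ v ∧ T.lev v ≤ m + 1), T.vol v ≤
        1/2 * T.vol x₀ := by
    intro m hprev x₀ _
    set Y := Finset.univ.filter (fun v => Child T resp x₀ v ∧ T.lev v ≤ m + 1) with hY
    have memY : ∀ v, v ∈ Y ↔ (Child T resp x₀ v ∧ T.lev v ≤ m + 1) := by intro v; simp [hY]
    set Y1 := Y.filter (fun v => K * c x₀ < c v) with hY1
    set Y2 := Finset.univ.filter (fun v => (Child T resp x₀ v ∧ T.lev v ≤ m + 1) ∧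
      ε < Theta T resp p' x₀ v) with hY2
    have hsub : Y ⊆ Y1 ∪ Y2 := by
      intro v hv
      have hv' := (memY v).1 hv
      rw [Finset.mem_union]
      rcases hr.reason v (T.lev_le v) hv'.1.2.2.1 hv'.1.1 with h | h
      · left
        rw [hY1, Finset.mem_filter]
        rw [hv'.1.2.2.2] at h
        exact ⟨hv, h⟩
      · right
        rw [hY2, Finset.mem_filter]
        rw [hv'.1.2.2.2] at h
        exact ⟨Finset.mem_univ _, hv', h⟩
    have hs1 : ∑ v ∈ Y1, T.vol v ≤ 1/4 * T.vol x₀ := by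
      have h1 := hIsC.pack x₀ K Y1 hK1
        (fun v hv => by
          rw [hY1, Finset.mem_filter] at hv
          exact ⟨((memY v).1 hv.1).1.le hstep hroot, hv.2⟩)
        (fun v hv v' hv' hle => by
          rw [hY1, Finset.mem_filter] at hv hv'
          exact child_antichain hstep hroot ((memY v).1 hv.1).1 ((memY v').1 hv'.1).1 hle)
      have h2 : C / K ≤ 1/4 := by
        rw [div_le_iff₀ (by linarith), hK]; linarith
      exact h1.trans (mul_le_mul_of_nonneg_right h2 (T.vol_nonneg x₀))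
    have hs2 : ∑ v ∈ Y2, T.vol v ≤ 1/4 * T.vol x₀ := by
      have h1 := typeII_sum hKC hkc T hstep hroot (ε := ε) hp1 m hprev x₀
      have h2 : (p' ^ 2)⁻¹ * (480 ^ (n+1) * (2 * KC ^ 2)) ≤ ε * (1/4) := by
        rw [← div_eq_inv_mul, div_le_iff₀ (by positivity)]
        rw [div_le_iff₀ hε] at hpp
        linarith
      have h3 : ε * ∑ v ∈ Y2, T.vol v ≤ ε * (1/4 * T.vol x₀) := by
        refine h1.trans ?_
        rw [← mul_assoc ε]
        exact mul_le_mul_of_nonneg_right h2 (T.vol_nonneg x₀)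
      exact le_of_mul_le_mul_left h3 hε
    have h3 : ∑ v ∈ Y, T.vol v ≤ ∑ v ∈ Y1 ∪ Y2, T.vol v :=
      Finset.sum_le_sum_of_subset_of_nonneg hsub (fun v _ _ => T.vol_nonneg v)
    have h4 := Finset.sum_union_inter (s₁ := Y1) (s₂ := Y2) (f := T.vol)
    have h5 : 0 ≤ ∑ v ∈ Y1 ∩ Y2, T.vol v := Finset.sum_nonneg (fun v _ => T.vol_nonneg v)
    linarith
  have hF : ∀ m : ℕ, ∀ x, FP T resp m x ≤ 2 * T.vol x := by
    intro m
    induction m with
    | zero =>
      apply FP_le T resp hstep hroot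
      intro x₀ _
      rw [Finset.sum_eq_zero]
      · have := T.vol_nonneg x₀
        linarith
      · intro v hv
        simp only [Finset.mem_filter, Finset.mem_univ, true_and] at hv
        have := hv.1.lev_lt hstep hroot
        omega
    | succ m ih =>
      apply FP_le T resp hstep hroot
      exact hchildAll m ih
  refine ⟨resp, hroot, hstep, fun x => hr.prim x (T.lev_le x),
    fun x hx => hr.theta x (T.lev_le x) hx, ?_⟩
  intro x V hV
  refine le_trans ?_ (hF T.I x)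
  unfold FP
  apply Finset.sum_le_sum_of_subset_of_nonneg
  · intro v hv
    rw [Finset.mem_filter]
    exact ⟨Finset.mem_univ _, (hV v hv).1, (hV v hv).2, T.lev_le v⟩
  · intro v _ _
    exact T.vol_nonneg v

open Classical in
/-- from the real exponent to the natural exponent -/
theorem KCn_of (n : ℕ) (cT : ℝ) (h : ∃ C : ℝ, 0 < C ∧ ∀ (T : Tree n cT) (μ : T.ι → ℝ) (K₁ : ℝ),
    (∀ v, 0 ≤ μ v) → 0 ≤ K₁ →
    (∀ (x : T.ι) (V : Finset T.ι), (∀ v ∈ V, T.le v x) → ∑ v ∈ V, μ v ≤ K₁ * T.vol x) →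
    ∀ x₀ : T.ι, ∑ v ∈ Finset.univ.filter (fun v => T.lev x₀ ≤ T.lev v),
      μ v * (T.h x₀ / (T.h x₀ + d (T.pt v) (T.pt x₀))) ^ (((n+1:ℕ)) : ℝ) ≤ C * K₁ * T.vol x₀) :
    ∃ KC : ℝ, 0 < KC ∧ KCn n cT KC := by
  obtain ⟨C, hC, h⟩ := h
  refine ⟨C, hC, ?_⟩
  intro T μ K₁ h1 h2 h3 x₀
  have := h T μ K₁ h1 h2 h3 x₀
  simpa only [Real.rpow_natCast] using this

end

end Pool.Agent.Lib.MP7ebef4
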