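import Pool.Agent.Lib.MP_7ebef4_an.FR

/-! Row and column sums of the Schur kernels `Qk` (module Meas2). -/

set_option autoImplicit false

open MeasureTheory Set

namespace Pool.Agent.Lib.MP7ebef4

noncomputable section

/-- the statement of `FR` -/
def HFR (n : ℕ) : Prop := ∀ t e : ℝ, -1 < t → 0 < e → ∃ C : ℝ, 0 < C ∧ ∀ z ∈ B n,
    ∫⁻ w in B n, ENNReal.ofReal (dl w ^ t * d z w ^ (-((n:ℝ) + 1 + t + e))) ≤
      ENNReal.ofReal (C * dl z ^ (-e))

theorem measurable_inv_dl (n : ℕ) : Measurable (fun z : E n => ENNReal.ofReal (dl z)⁻¹) := by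
  unfold dl; fun_prop

theorem lintegral_lam_le (n : ℕ) (φ : E n → ENNReal) :
    ∫⁻ w, φ w ∂(lam n) ≤ ∫⁻ w in B n, ENNReal.ofReal (dl w)⁻¹ * φ w := by
  unfold lam
  exact lintegral_withDensity_le_lintegral_mul _ (measurable_inv_dl n) _

theorem Qk_row_of (n : ℕ) (hFR : HFR n) (η : ℝ) (h0 : 0 < η) (_h1 : η ≤ 1) :
    ∃ C : ℝ, 0 < C ∧ ∀ z ∈ B n,
    ∫⁻ w, ENNReal.ofReal (Qk η z w) ∂(lam n) ≤ ENNReal.ofReal C := by
  obtain ⟨C, hC, h⟩ := hFR 1 η (by norm_num) h0
  refine ⟨C, hC, ?_⟩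
  intro z hz
  have hδ := dl_pos hz
  refine (lintegral_lam_le n _).trans ?_
  calc ∫⁻ w in B n, ENNReal.ofReal (dl w)⁻¹ * ENNReal.ofReal (Qk η z w)
      ≤ ∫⁻ w in B n, ENNReal.ofReal (dl z ^ η) *
          ENNReal.ofReal (dl w ^ (1:ℝ) * d z w ^ (-((n:ℝ) + 1 + 1 + η))) := by
        apply setLIntegral_mono' (by unfold B; exact measurableSet_ball)
        intro w hw
        have hw0 := dl_pos hw
        have hd : 0 < d z w := d_pos hz (mem_B.1 hw).le
        rw [← ENNReal.ofReal_mul (by positivity), ← ENNReal.ofReal_mul (by positivity)]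
        apply ENNReal.ofReal_le_ofReal
        apply le_of_eq
        unfold Qk
        rw [Real.div_rpow hδ.le hd.le, Real.rpow_one,
          show (-((n:ℝ) + 1 + 1 + η)) = -η + (-(2:ℕ)) + (-(n:ℕ)) by push_cast; ring,
          Real.rpow_add hd, Real.rpow_add hd, Real.rpow_neg hd.le, Real.rpow_neg hd.le,
          Real.rpow_neg hd.le, Real.rpow_natCast, Real.rpow_natCast]
        field_simp
    _ = ENNReal.ofReal (dl z ^ η) * ∫⁻ w in B n,
          ENNReal.ofReal (dl w ^ (1:ℝ) * d z w ^ (-((n:ℝ) + 1 + 1 + η))) :=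
        lintegral_const_mul' _ _ ENNReal.ofReal_ne_top
    _ ≤ ENNReal.ofReal (dl z ^ η) * ENNReal.ofReal (C * dl z ^ (-η)) :=
        mul_le_mul_right (h z hz) _
    _ = ENNReal.ofReal C := by
        rw [← ENNReal.ofReal_mul (by positivity)]
        congr 1
        rw [Real.rpow_neg hδ.le]
        have : 0 < dl z ^ η := Real.rpow_pos_of_pos hδ _
        field_simp

theorem Qk_col_of (n : ℕ) (hFR : HFR n) (η : ℝ) (h0 : 0 < η) (_h1 : η ≤ 1) :
    ∃ C : ℝ, 0 < C ∧ ∀ w ∈ B n,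
    ∫⁻ z, ENNReal.ofReal (Qk η z w) ∂(lam n) ≤ ENNReal.ofReal C := by
  obtain ⟨C, hC, h⟩ := hFR (η - 1) 2 (by linarith) (by norm_num)
  refine ⟨C, hC, ?_⟩
  intro w hw
  have hδ := dl_pos hw
  refine (lintegral_lam_le n _).trans ?_
  calc ∫⁻ z in B n, ENNReal.ofReal (dl z)⁻¹ * ENNReal.ofReal (Qk η z w)
      ≤ ∫⁻ z in B n, ENNReal.ofReal (dl w ^ 2) *
          ENNReal.ofReal (dl z ^ (η - 1) * d w z ^ (-((n:ℝ) + 1 + (η - 1) + 2))) := by
        apply setLIntegral_mono' (by unfold B; exact measurableSet_ball)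
        intro z hz
        have hz0 := dl_pos hz
        have hd : 0 < d w z := d_pos hw (mem_B.1 hz).le
        rw [← ENNReal.ofReal_mul (by positivity), ← ENNReal.ofReal_mul (by positivity)]
        apply ENNReal.ofReal_le_ofReal
        apply le_of_eq
        unfold Qk
        rw [d_comm z w, Real.div_rpow hz0.le hd.le, Real.rpow_sub hz0, Real.rpow_one,
          show (-((n:ℝ) + 1 + (η - 1) + 2)) = -η + (-(2:ℕ)) + (-(n:ℕ)) by push_cast; ring,
          Real.rpow_add hd, Real.rpow_add hd, Real.rpow_neg hd.le, Real.rpow_neg hd.le,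
          Real.rpow_neg hd.le, Real.rpow_natCast, Real.rpow_natCast]
        field_simp
    _ = ENNReal.ofReal (dl w ^ 2) * ∫⁻ z in B n,
          ENNReal.ofReal (dl z ^ (η - 1) * d w z ^ (-((n:ℝ) + 1 + (η - 1) + 2))) :=
        lintegral_const_mul' _ _ ENNReal.ofReal_ne_top
    _ ≤ ENNReal.ofReal (dl w ^ 2) * ENNReal.ofReal (C * dl w ^ (-(2:ℝ))) :=
        mul_le_mul_right (h w hw) _
    _ = ENNReal.ofReal C := by
        rw [← ENNReal.ofReal_mul (by positivity)]
        congr 1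
        rw [Real.rpow_neg hδ.le]
        have e : dl w ^ (2:ℝ) = dl w ^ 2 := by exact_mod_cast Real.rpow_natCast (dl w) 2
        rw [e]
        field_simp

end

end Pool.Agent.Lib.MP7ebef4
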