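import Mathlib

/-! Schur test (module Meas2). -/

set_option autoImplicit false

open MeasureTheory Set

namespace Pool.Agent.Lib.MP7ebef4

theorem lintegral_mul_sq_le {β : Type*} [MeasurableSpace β] (ν : Measure β) (k f : β → ENNReal)
    (hk : AEMeasurable k ν) (hf : AEMeasurable f ν) :
    (∫⁻ y, k y * f y ∂ν) ^ (2:ℕ) ≤ (∫⁻ y, k y ∂ν) * ∫⁻ y, k y * f y ^ (2:ℕ) ∂ν := by
  have hconj : Real.HolderConjugate 2 2 := by
    rw [Real.holderConjugate_iff]; norm_num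
  have h1 := ENNReal.lintegral_mul_le_Lp_mul_Lq ν hconj
    (f := fun y => k y ^ (1/2:ℝ)) (g := fun y => k y ^ (1/2:ℝ) * f y)
    (hk.pow_const _) ((hk.pow_const _).mul hf)
  have e1 : ∀ y, ((fun y => k y ^ (1/2:ℝ)) * (fun y => k y ^ (1/2:ℝ) * f y)) y = k y * f y := by
    intro y
    simp only [Pi.mul_apply]
    rw [← mul_assoc, ← ENNReal.rpow_add_of_nonneg _ _ (by norm_num) (by norm_num)]
    norm_num
  have e2 : ∀ y, (k y ^ (1/2:ℝ)) ^ (2:ℝ) = k y := by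
    intro y
    rw [← ENNReal.rpow_mul]; norm_num
  have e3 : ∀ y, (k y ^ (1/2:ℝ) * f y) ^ (2:ℝ) = k y * f y ^ (2:ℕ) := by
    intro y
    rw [ENNReal.mul_rpow_of_nonneg _ _ (by norm_num), e2, ← ENNReal.rpow_natCast]
    norm_num
  simp only [e1, e2, e3] at h1
  calc (∫⁻ y, k y * f y ∂ν) ^ (2:ℕ)
      ≤ ((∫⁻ y, k y ∂ν) ^ (1/2:ℝ) * (∫⁻ y, k y * f y ^ (2:ℕ) ∂ν) ^ (1/2:ℝ)) ^ (2:ℕ) := by
        gcongr
    _ = (∫⁻ y, k y ∂ν) * ∫⁻ y, k y * f y ^ (2:ℕ) ∂ν := by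
        rw [mul_pow, ← ENNReal.rpow_natCast, ← ENNReal.rpow_natCast, ← ENNReal.rpow_mul,
          ← ENNReal.rpow_mul]
        norm_num

/-- Schur test -/
theorem schur {α β : Type*} [MeasurableSpace α] [MeasurableSpace β] (μ : Measure α) (ν : Measure β)
    [SFinite μ] [SFinite ν] (K : α → β → ENNReal) (hK : Measurable (Function.uncurry K))
    (f : β → ENNReal) (hf : AEMeasurable f ν) (R C : ENNReal)
    (hR : ∀ᵐ x ∂μ, ∫⁻ y, K x y ∂ν ≤ R) (hC : ∀ᵐ y ∂ν, ∫⁻ x, K x y ∂μ ≤ C) :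
    ∫⁻ x, (∫⁻ y, K x y * f y ∂ν) ^ (2:ℕ) ∂μ ≤ R * C * ∫⁻ y, f y ^ (2:ℕ) ∂ν := by
  -- replace `f` by a measurable representative
  obtain ⟨g, hg, hfg⟩ : ∃ g, Measurable g ∧ f =ᵐ[ν] g := ⟨_, hf.measurable_mk, hf.ae_eq_mk⟩
  have h1 : ∀ x, ∫⁻ y, K x y * f y ∂ν = ∫⁻ y, K x y * g y ∂ν := by
    intro x
    apply lintegral_congr_ae
    filter_upwards [hfg] with y hy
    rw [hy]
  have h2 : ∫⁻ y, f y ^ (2:ℕ) ∂ν = ∫⁻ y, g y ^ (2:ℕ) ∂ν := by
    apply lintegral_congr_ae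
    filter_upwards [hfg] with y hy
    rw [hy]
  simp only [h1, h2]
  have hKx : ∀ x, Measurable (K x) := fun x => hK.comp measurable_prodMk_left
  have hKy : ∀ y, Measurable (fun x => K x y) := fun y => hK.comp measurable_prodMk_right
  have hG : Measurable (Function.uncurry (fun x y => K x y * g y ^ (2:ℕ))) :=
    hK.mul ((hg.comp measurable_snd).pow_const 2)
  calc ∫⁻ x, (∫⁻ y, K x y * g y ∂ν) ^ (2:ℕ) ∂μ
      ≤ ∫⁻ x, R * ∫⁻ y, K x y * g y ^ (2:ℕ) ∂ν ∂μ := by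
        apply lintegral_mono_ae
        filter_upwards [hR] with x hx
        exact (lintegral_mul_sq_le ν (K x) g (hKx x).aemeasurable hg.aemeasurable).trans
          (mul_le_mul_left hx _)
    _ = R * ∫⁻ x, ∫⁻ y, K x y * g y ^ (2:ℕ) ∂ν ∂μ := by
        rw [lintegral_const_mul]
        exact hG.lintegral_prod_right'
    _ = R * ∫⁻ y, ∫⁻ x, K x y * g y ^ (2:ℕ) ∂μ ∂ν := by
        rw [lintegral_lintegral_swap hG.aemeasurable]
    _ ≤ R * ∫⁻ y, C * g y ^ (2:ℕ) ∂ν := by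
        apply mul_le_mul_right
        apply lintegral_mono_ae
        filter_upwards [hC] with y hy
        rw [lintegral_mul_const _ (hKy y)]
        exact mul_le_mul_left hy _
    _ = R * C * ∫⁻ y, g y ^ (2:ℕ) ∂ν := by
        rw [lintegral_const_mul _ (hg.pow_const 2), mul_assoc]

end Pool.Agent.Lib.MP7ebef4
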