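import Pool.Agent.Lib.MP_7ebef4_an.Card

/-! Node sums (vol_bounds, level_sum, node_sum, kernel_carleson), conditional on the upper ball
estimate `HUp n` for the cone measure. -/

set_option autoImplicit false

open MeasureTheory Set

namespace Pool.Agent.Lib.MP7ebef4

noncomputable section

/-- volume of a node -/
theorem vol_bounds_of (n : ℕ) (hup : HUp n) (cT : ℝ) (hc : 0 < cT) : ∃ C : ℝ, 0 < C ∧
    ∀ (T : Tree n cT) (x : T.ι),
    cT * T.h x ^ n ≤ T.vol x ∧ T.vol x ≤ C * T.h x ^ n := by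
  obtain ⟨C, hC, hup⟩ := hup
  refine ⟨C * 36 ^ n, by positivity, fun T x => ⟨T.vol_ge x hc, ?_⟩⟩
  have hx := T.h_pos x
  unfold Tree.vol
  apply ENNReal.toReal_le_of_le_ofReal (by positivity)
  refine (measure_mono ?_).trans ((hup (T.pt x) (36 * T.h x) (T.norm_pt_le x)
    (by positivity)).trans (ENNReal.ofReal_le_ofReal (by rw [mul_pow]; linarith)))
  intro ζ hζ
  have h1 := T.cell_near x ζ hζ
  have h2 : ‖ζ‖ = 1 := by
    have := T.cell_sub x hζ
    simpa [Sph] using this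
  refine ⟨h2, ?_⟩
  have h3 : rr (T.lev x) ^ 2 = 4 * T.h x := rr_sq _
  have h4 := rho_nonneg ζ (T.pt x)
  rw [← rho_sq]
  nlinarith

/-- discrete layer cake -/
theorem layer {ι : Type*} (V : Finset ι) (t w : ι → ℝ) (hw : ∀ v ∈ V, 0 ≤ w v)
    (ht : ∀ v ∈ V, 1 ≤ t v) (n : ℕ) (m : ℝ) (hm : (n:ℝ) < m) (A : ℝ) (hA : 0 ≤ A)
    (hcount : ∀ k : ℕ, ∑ v ∈ V.filter (fun v => t v ≤ 2 ^ k), w v ≤ A * (2 ^ k) ^ n) :
    ∑ v ∈ V, w v * (1 / t v) ^ m ≤ A * ((2:ℝ) ^ m / (1 - (2:ℝ) ^ ((n:ℝ) - m))) := by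
  classical
  obtain ⟨K, hK⟩ : ∃ K : ℕ, ∀ v ∈ V, t v ≤ 2 ^ K := by
    obtain ⟨M, hM⟩ := (V.image t).bddAbove
    obtain ⟨K, hK⟩ := pow_unbounded_of_one_lt M (by norm_num : (1:ℝ) < 2)
    refine ⟨K, fun v hv => ?_⟩
    exact (hM (by simpa using Finset.mem_image_of_mem t hv)).trans hK.le
  have hm0 : 0 < m := lt_of_le_of_lt (Nat.cast_nonneg n) hm
  -- pointwise bound
  have key : ∀ v ∈ V, w v * (1 / t v) ^ m ≤
      ∑ k ∈ Finset.range (K+1), if t v ≤ 2 ^ k then w v * ((2:ℝ) ^ m * ((2:ℝ) ^ (-m)) ^ k) else 0 := by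
    intro v hv
    have hex : ∃ k : ℕ, t v ≤ 2 ^ k := ⟨K, hK v hv⟩
    set k₀ := Nat.find hex with hk₀
    have h1 : t v ≤ 2 ^ k₀ := Nat.find_spec hex
    have h2 : k₀ ≤ K := Nat.find_min' hex (hK v hv)
    have h3 : (2:ℝ) ^ ((k₀:ℝ) - 1) ≤ t v := by
      rcases Nat.eq_zero_or_pos k₀ with h0 | h0
      · rw [h0]
        have := ht v hv
        have h5 : (2:ℝ) ^ (((0:ℕ):ℝ) - 1) ≤ 1 := by
          apply Real.rpow_le_one_of_one_le_of_nonpos (by norm_num)
          norm_num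
        linarith
      · have h4 : ¬ (t v ≤ 2 ^ (k₀ - 1)) := Nat.find_min hex (by omega)
        push Not at h4
        have h5 : (2:ℝ) ^ ((k₀:ℝ) - 1) = 2 ^ (k₀ - 1) := by
          rw [← Real.rpow_natCast]
          congr 1
          rw [Nat.cast_sub h0]; simp
        rw [h5]; exact h4.le
    have ht0 : 0 < t v := lt_of_lt_of_le one_pos (ht v hv)
    have h6 : (1 / t v) ^ m ≤ (2:ℝ) ^ m * ((2:ℝ) ^ (-m)) ^ k₀ := by
      have h7 : (2:ℝ) ^ m * ((2:ℝ) ^ (-m)) ^ k₀ = (1 / (2:ℝ) ^ ((k₀:ℝ) - 1)) ^ m := by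
        rw [← Real.rpow_natCast ((2:ℝ) ^ (-m)), ← Real.rpow_mul (by norm_num),
          ← Real.rpow_add (by norm_num), one_div, ← Real.rpow_neg (by norm_num),
          ← Real.rpow_mul (by norm_num)]
        congr 1; ring
      rw [h7]
      apply Real.rpow_le_rpow (by positivity) _ hm0.le
      apply one_div_le_one_div_of_le (by positivity) h3
    have h8 : w v * (1 / t v) ^ m ≤ w v * ((2:ℝ) ^ m * ((2:ℝ) ^ (-m)) ^ k₀) :=
      mul_le_mul_of_nonneg_left h6 (hw v hv)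
    have h9 := Finset.single_le_sum (s := Finset.range (K+1))
      (f := fun k => if t v ≤ 2 ^ k then w v * ((2:ℝ) ^ m * ((2:ℝ) ^ (-m)) ^ k) else 0)
      (fun k _ => by
        split_ifs
        · have := hw v hv; positivity
        · exact le_refl _)
      (Finset.mem_range.2 (by omega : k₀ < K + 1))
    simp only [h1, if_true] at h9
    exact h8.trans h9
  have hsum : ∑ v ∈ V, w v * (1 / t v) ^ m ≤
      ∑ k ∈ Finset.range (K+1), A * (2:ℝ) ^ m * ((2:ℝ) ^ ((n:ℝ) - m)) ^ k := by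
    refine (Finset.sum_le_sum key).trans ?_
    rw [Finset.sum_comm]
    apply Finset.sum_le_sum
    intro k _
    rw [← Finset.sum_filter, ← Finset.sum_mul]
    have h1 := mul_le_mul_of_nonneg_right (hcount k)
      (show 0 ≤ (2:ℝ) ^ m * ((2:ℝ) ^ (-m)) ^ k by positivity)
    refine h1.trans (le_of_eq ?_)
    have h2 : ((2:ℝ) ^ ((n:ℝ) - m)) ^ k = (2 ^ k) ^ n * ((2:ℝ) ^ (-m)) ^ k := by
      rw [sub_eq_add_neg, Real.rpow_add (by norm_num), mul_pow, Real.rpow_natCast, ← pow_mul,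
        ← pow_mul, mul_comm n k]
    rw [h2]; ring
  have hx1 : (2:ℝ) ^ ((n:ℝ) - m) < 1 := Real.rpow_lt_one_of_one_lt_of_neg (by norm_num) (by linarith)
  have hx0 : 0 < (2:ℝ) ^ ((n:ℝ) - m) := by positivity
  have hgeom : ∑ k ∈ Finset.range (K+1), ((2:ℝ) ^ ((n:ℝ) - m)) ^ k ≤ (1 - (2:ℝ) ^ ((n:ℝ) - m))⁻¹ := by
    rw [← tsum_geometric_of_lt_one hx0.le hx1]
    exact (summable_geometric_of_lt_one hx0.le hx1).sum_le_tsum _ (fun _ _ => by positivity)
  refine hsum.trans ?_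
  rw [← Finset.mul_sum]
  calc A * (2:ℝ) ^ m * ∑ k ∈ Finset.range (K+1), ((2:ℝ) ^ ((n:ℝ) - m)) ^ k
      ≤ A * (2:ℝ) ^ m * (1 - (2:ℝ) ^ ((n:ℝ) - m))⁻¹ :=
        mul_le_mul_of_nonneg_left hgeom (by positivity)
    _ = _ := by rw [div_eq_mul_inv]; ring

/-- sum over one level, general scale `s ≥ h_i` -/
theorem level_core (n : ℕ) (hup : HUp n) (cT : ℝ) (hc : 0 < cT) (m : ℝ) (hm : (n:ℝ) < m) :
    ∃ C : ℝ, 0 < C ∧ ∀ (T : Tree n cT) (i : ℕ) (V : Finset T.ι), (∀ v ∈ V, T.lev v = i) →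
    ∀ (z : E n) (s : ℝ), ‖z‖ ≤ 1 → hh i ≤ s → (∀ v ∈ V, s ≤ 2 * d z (T.a v)) →
    ∑ v ∈ V, (s / d z (T.a v)) ^ m ≤ C * (s / hh i) ^ n := by
  classical
  obtain ⟨C, hC, hcard⟩ := card_level_near_of n hup cT hc
  have hx1 : (2:ℝ) ^ ((n:ℝ) - m) < 1 := Real.rpow_lt_one_of_one_lt_of_neg (by norm_num) (by linarith)
  have hm0 : 0 < m := lt_of_le_of_lt (Nat.cast_nonneg n) hm
  refine ⟨(2:ℝ) ^ m * (C * ((2:ℝ) ^ m / (1 - (2:ℝ) ^ ((n:ℝ) - m)))), ?_, ?_⟩
  · have : 0 < 1 - (2:ℝ) ^ ((n:ℝ) - m) := by linarith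
    positivity
  intro T i V hV z s hz hs hd
  have hhi := hh_pos i
  have hs0 : 0 < s := lt_of_lt_of_le hhi hs
  have hdpos : ∀ v ∈ V, 0 < d z (T.a v) := by
    intro v hv
    have := hd v hv
    linarith
  have h1 := layer V (fun v => 2 * d z (T.a v) / s) (fun _ => 1) (fun _ _ => zero_le_one)
    (fun v hv => by rw [le_div_iff₀ hs0, one_mul]; exact hd v hv) n m hm (C * (s / hh i) ^ n)
    (by positivity) (by
      intro k
      simp only [Finset.sum_const, nsmul_eq_mul, mul_one]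
      have h2 := hcard T i z (2 * Real.sqrt (2 ^ k * s)) hz ?_
        (V.filter (fun v => 2 * d z (T.a v) / s ≤ 2 ^ k)) ?_
      · refine h2.trans (le_of_eq ?_)
        have h3 : (2 * Real.sqrt (2 ^ k * s) / rr i) ^ (2 * n) = (s / hh i) ^ n * (2 ^ k) ^ n := by
          rw [pow_mul, ← mul_pow]
          congr 1
          rw [div_pow, mul_pow, Real.sq_sqrt (by positivity), rr_sq]
          field_simp
          ring
        rw [h3]; ring
      · rw [show rr i = 2 * Real.sqrt (hh i) by rw [sqrt_hh]; ring]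
        apply mul_le_mul_of_nonneg_left _ (by norm_num)
        apply Real.sqrt_le_sqrt
        have h4 : (1:ℝ) ≤ 2 ^ k := one_le_pow₀ (by norm_num)
        nlinarith
      · intro v hv
        rw [Finset.mem_filter] at hv
        refine ⟨hV v hv.1, ?_⟩
        have h5 := rho_le_rad (T.norm_pt v) (T.h_nonneg v) (T.h_le_one v) z hz
        rw [rho_comm]
        refine h5.trans ?_
        apply mul_le_mul_of_nonneg_left _ (by norm_num)
        unfold rho
        apply Real.sqrt_le_sqrt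
        have h6 := hv.2
        rw [div_le_iff₀ hs0] at h6
        have h7 := d_nonneg z (T.a v)
        change d z (T.a v) ≤ 2 ^ k * s
        linarith)
  have h8 : ∀ v ∈ V, (s / d z (T.a v)) ^ m = (2:ℝ) ^ m * (1 * (1 / (2 * d z (T.a v) / s)) ^ m) := by
    intro v hv
    have := hdpos v hv
    rw [one_mul, ← Real.mul_rpow (by norm_num) (by positivity)]
    congr 1
    field_simp
  rw [Finset.sum_congr rfl h8, ← Finset.mul_sum]
  have h9 := mul_le_mul_of_nonneg_left h1 (show 0 ≤ (2:ℝ) ^ m by positivity)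
  refine h9.trans (le_of_eq (by ring))

theorem le_d_a {n : ℕ} {cT : ℝ} (T : Tree n cT) (v : T.ι) (z : E n) (hz : ‖z‖ ≤ 1) :
    T.h v ≤ d z (T.a v) := le_d_rad (T.norm_pt v) (T.h_nonneg v) (T.h_le_one v) z hz

open Classical in
/-- (LS) -/
theorem level_sum_of (n : ℕ) (hup : HUp n) (cT : ℝ) (hc : 0 < cT) (m : ℝ) (hm : (n:ℝ) < m) :
    ∃ C : ℝ, 0 < C ∧ ∀ (T : Tree n cT) (i : ℕ), ∀ z : E n, ‖z‖ ≤ 1 →
    ∑ v ∈ Finset.univ.filter (fun v => T.lev v = i), (T.h v / d z (T.a v)) ^ m ≤ C := by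
  obtain ⟨C, hC, h⟩ := level_core n hup cT hc m hm
  refine ⟨C, hC, fun T i z hz => ?_⟩
  have h1 := h T i (Finset.univ.filter (fun v => T.lev v = i)) (by simp) z (hh i) hz le_rfl (by
    intro v hv
    rw [Finset.mem_filter] at hv
    have h2 := le_d_a T v z hz
    have h3 := T.h_pos v
    unfold Tree.h at h2 h3
    rw [hv.2] at h2 h3
    linarith)
  rw [div_self (hh_pos i).ne', one_pow, mul_one] at h1
  refine le_trans (le_of_eq (Finset.sum_congr rfl ?_)) h1
  intro v hv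
  rw [Finset.mem_filter] at hv
  unfold Tree.h
  rw [hv.2]

/-! ### geometric sums over the levels -/

theorem hh_rpow (i : ℕ) (γ : ℝ) : hh i ^ γ = ((1/64 : ℝ) ^ γ) ^ i := by
  unfold hh
  rw [← Real.rpow_natCast, ← Real.rpow_natCast, ← Real.rpow_mul (by norm_num),
    ← Real.rpow_mul (by norm_num), mul_comm]

theorem geo_coarse (γ δ : ℝ) (hγ : 0 < γ) (hδ : 0 < δ) (N : ℕ) :
    ∑ i ∈ (Finset.range N).filter (fun i => δ ≤ hh i), hh i ^ (-γ) ≤
      ((64:ℝ) ^ γ / ((64:ℝ) ^ γ - 1)) * δ ^ (-γ) := by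
  have hx : 1 < (64:ℝ) ^ γ := Real.one_lt_rpow (by norm_num) hγ
  have hxi : ∀ i, hh i ^ (-γ) = ((64:ℝ) ^ γ) ^ i := by
    intro i
    rw [hh_rpow]
    congr 1
    rw [Real.rpow_neg (by norm_num), one_div, Real.inv_rpow (by norm_num), inv_inv]
  induction N with
  | zero =>
    simp only [Finset.range_zero, Finset.filter_empty, Finset.sum_empty]
    have : 0 < (64:ℝ) ^ γ - 1 := by linarith
    positivity
  | succ N ih =>
    by_cases h : δ ≤ hh N
    · have h1 : ∑ i ∈ (Finset.range (N+1)).filter (fun i => δ ≤ hh i), hh i ^ (-γ) ≤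
          ∑ i ∈ Finset.range (N+1), ((64:ℝ) ^ γ) ^ i := by
        refine (Finset.sum_le_sum_of_subset_of_nonneg (Finset.filter_subset _ _) ?_).trans
          (le_of_eq (Finset.sum_congr rfl (fun i _ => hxi i)))
        intro i _ _
        have := hh_pos i
        positivity
      refine h1.trans ?_
      rw [geom_sum_eq hx.ne']
      have h2 : 0 < (64:ℝ) ^ γ - 1 := by linarith
      rw [div_mul_eq_mul_div]
      apply div_le_div_of_nonneg_right _ h2.le
      have h3 : ((64:ℝ) ^ γ) ^ N ≤ δ ^ (-γ) := by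
        rw [← hxi]
        apply Real.rpow_le_rpow_of_nonpos hδ h (by linarith)
      rw [pow_succ]
      have h4 := mul_le_mul_of_nonneg_left h3 (show 0 ≤ (64:ℝ) ^ γ by positivity)
      linarith
    · rw [Finset.range_add_one, Finset.filter_insert, if_neg h]
      exact ih

theorem geo_fine (γ δ : ℝ) (hγ : 0 < γ) (hδ : 0 < δ) (N : ℕ) :
    ∑ i ∈ (Finset.range N).filter (fun i => hh i < δ), hh i ^ γ ≤
      (1 - (1/64:ℝ) ^ γ)⁻¹ * δ ^ γ := by
  have hy : (1/64:ℝ) ^ γ < 1 := Real.rpow_lt_one (by norm_num) (by norm_num) hγ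
  have hy0 : 0 < (1/64:ℝ) ^ γ := by positivity
  have hex : ∃ i, hh i < δ := by
    obtain ⟨i, hi⟩ := exists_pow_lt_of_lt_one hδ (by norm_num : (1/64:ℝ) < 1)
    exact ⟨i, hi⟩
  classical
  set i₀ := Nat.find hex with hi₀
  have h1 : hh i₀ < δ := Nat.find_spec hex
  have h2 : (Finset.range N).filter (fun i => hh i < δ) ⊆ (Finset.range N).image (fun j => i₀ + j) := by
    intro i hi
    rw [Finset.mem_filter, Finset.mem_range] at hi
    have h3 : i₀ ≤ i := Nat.find_min' hex hi.2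
    rw [Finset.mem_image]
    exact ⟨i - i₀, Finset.mem_range.2 (by omega), by omega⟩
  have h4 : ∑ i ∈ (Finset.range N).filter (fun i => hh i < δ), hh i ^ γ ≤
      ∑ i ∈ (Finset.range N).image (fun j => i₀ + j), hh i ^ γ :=
    Finset.sum_le_sum_of_subset_of_nonneg h2 (fun i _ _ => by have := hh_pos i; positivity)
  refine h4.trans ?_
  rw [Finset.sum_image (fun a _ b _ h => by simpa using h)]
  have h5 : ∀ j ∈ Finset.range N, hh (i₀ + j) ^ γ = hh i₀ ^ γ * ((1/64:ℝ) ^ γ) ^ j := by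
    intro j _
    rw [hh_rpow, hh_rpow, pow_add]
  rw [Finset.sum_congr rfl h5, ← Finset.mul_sum, mul_comm]
  have h6 : ∑ j ∈ Finset.range N, ((1/64:ℝ) ^ γ) ^ j ≤ (1 - (1/64:ℝ) ^ γ)⁻¹ := by
    rw [← tsum_geometric_of_lt_one hy0.le hy]
    exact (summable_geometric_of_lt_one hy0.le hy).sum_le_tsum _ (fun _ _ => by positivity)
  have h7 : hh i₀ ^ γ ≤ δ ^ γ := Real.rpow_le_rpow (hh_pos _).le h1.le hγ.le
  have h8 : 0 ≤ (1 - (1/64:ℝ) ^ γ)⁻¹ := inv_nonneg.2 (by linarith)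
  have h9 : 0 ≤ hh i₀ ^ γ := by have := hh_pos i₀; positivity
  exact mul_le_mul h6 h7 h9 h8

/-- (NS) -/
theorem node_sum_of (n : ℕ) (hup : HUp n) (cT : ℝ) (hc : 0 < cT) (α β : ℝ) (hα : (n:ℝ) < α)
    (hβ : α < β) :
    ∃ C : ℝ, 0 < C ∧ ∀ (T : Tree n cT), ∀ z ∈ B n,
    ∑ v, T.h v ^ α * d z (T.a v) ^ (-β) ≤ C * dl z ^ (α - β) := by
  classical
  obtain ⟨C, hC, hlev⟩ := level_core n hup cT hc β (hα.trans hβ)
  have hx : 1 < (64:ℝ) ^ (β - α) := Real.one_lt_rpow (by norm_num) (by linarith)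
  have hy : (1/64:ℝ) ^ (α - n) < 1 := Real.rpow_lt_one (by norm_num) (by norm_num) (by linarith)
  set A₁ := ((64:ℝ) ^ (β - α) / ((64:ℝ) ^ (β - α) - 1)) with hA₁
  set A₂ := (1 - (1/64:ℝ) ^ (α - n))⁻¹ with hA₂
  have hA₁0 : 0 < A₁ := by
    have : 0 < (64:ℝ) ^ (β - α) - 1 := by linarith
    positivity
  have hA₂0 : 0 < A₂ := inv_pos.2 (by linarith)
  refine ⟨C * (A₁ + A₂), by positivity, ?_⟩
  intro T z hz
  have hz1 : ‖z‖ ≤ 1 := (mem_B.1 hz).le
  have hδ := dl_pos hz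
  set δ := dl z with hδdef
  -- one level
  have hone : ∀ i, ∑ v ∈ Finset.univ.filter (fun v => T.lev v = i), T.h v ^ α * d z (T.a v) ^ (-β) ≤
      C * ((if δ ≤ hh i then hh i ^ (-(β - α)) else 0) +
        (if hh i < δ then hh i ^ (α - n) * δ ^ ((n:ℝ) - β) else 0)) := by
    intro i
    have hhi := hh_pos i
    set s := max (hh i) δ with hs
    have hs0 : 0 < s := lt_of_lt_of_le hhi (le_max_left _ _)
    have h1 := hlev T i (Finset.univ.filter (fun v => T.lev v = i)) (by simp) z s hz1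
      (le_max_left _ _) (by
        intro v hv
        rw [Finset.mem_filter] at hv
        have h2 := le_d_a T v z hz1
        have h3 := T.h_pos v
        have h4 := dl_le_left z (T.a v) (T.norm_a_le v)
        unfold Tree.h at h2 h3
        rw [hv.2] at h2 h3
        exact max_le (by linarith) h4)
    have h5 : ∀ v ∈ Finset.univ.filter (fun v => T.lev v = i),
        T.h v ^ α * d z (T.a v) ^ (-β) = hh i ^ α * s ^ (-β) * (s / d z (T.a v)) ^ β := by
      intro v hv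
      rw [Finset.mem_filter] at hv
      have h6 : T.h v = hh i := by unfold Tree.h; rw [hv.2]
      have h7 : 0 < d z (T.a v) := lt_of_lt_of_le (T.h_pos v) (le_d_a T v z hz1)
      rw [h6, Real.div_rpow hs0.le h7.le, Real.rpow_neg hs0.le, Real.rpow_neg h7.le]
      have : 0 < s ^ β := by positivity
      field_simp
    rw [Finset.sum_congr rfl h5, ← Finset.mul_sum]
    have h8 : 0 ≤ hh i ^ α * s ^ (-β) := by positivity
    refine (mul_le_mul_of_nonneg_left h1 h8).trans (le_of_eq ?_)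
    have h9 : hh i ^ α * s ^ (-β) * (C * (s / hh i) ^ n) =
        C * (hh i ^ (α - n) * s ^ ((n:ℝ) - β)) := by
      rw [Real.rpow_sub hhi, Real.rpow_sub hs0, Real.rpow_natCast, Real.rpow_natCast,
        Real.rpow_neg hs0.le, div_pow]
      field_simp
    rw [h9]
    congr 1
    by_cases h10 : δ ≤ hh i
    · rw [if_pos h10, if_neg (not_lt.2 h10), add_zero]
      have : s = hh i := max_eq_left h10
      rw [this, ← Real.rpow_add hhi]
      congr 1; ring
    · rw [if_neg h10, if_pos (not_le.1 h10), zero_add]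
      have : s = δ := max_eq_right (not_le.1 h10).le
      rw [this]
  have hfib : ∑ v, T.h v ^ α * d z (T.a v) ^ (-β) =
      ∑ i ∈ Finset.range (T.I + 1), ∑ v ∈ Finset.univ.filter (fun v => T.lev v = i),
        T.h v ^ α * d z (T.a v) ^ (-β) := by
    symm
    apply Finset.sum_fiberwise_of_maps_to
    intro v _
    rw [Finset.mem_range]
    have := T.lev_le v
    omega
  rw [hfib]
  refine (Finset.sum_le_sum (fun i _ => hone i)).trans ?_
  rw [← Finset.mul_sum, Finset.sum_add_distrib, ← Finset.sum_filter, ← Finset.sum_filter,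
    ← Finset.sum_mul, mul_assoc]
  apply mul_le_mul_of_nonneg_left _ hC.le
  have g1 := geo_coarse (β - α) δ (by linarith) hδ (T.I + 1)
  have g2 := geo_fine (α - n) δ (by linarith) hδ (T.I + 1)
  have g3 : 0 ≤ δ ^ ((n:ℝ) - β) := by positivity
  have g4 := mul_le_mul_of_nonneg_right g2 g3
  have g5 : A₂ * δ ^ (α - n) * δ ^ ((n:ℝ) - β) = A₂ * δ ^ (α - β) := by
    rw [mul_assoc, ← Real.rpow_add hδ]; congr 2; ring
  rw [← hA₂, g5] at g4
  have g6 : δ ^ (-(β - α)) = δ ^ (α - β) := by congr 1; ring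
  rw [← hA₁, g6] at g1
  linarith

open Classical in
/-- (KC) -/
theorem kernel_carleson_of (n : ℕ) (hup : HUp n) (cT : ℝ) (hc : 0 < cT) (m : ℝ) (hm : (n:ℝ) < m) :
    ∃ C : ℝ, 0 < C ∧ ∀ (T : Tree n cT) (μ : T.ι → ℝ) (K₁ : ℝ), (∀ v, 0 ≤ μ v) → 0 ≤ K₁ →
    (∀ (x : T.ι) (V : Finset T.ι), (∀ v ∈ V, T.le v x) → ∑ v ∈ V, μ v ≤ K₁ * T.vol x) →
    ∀ x₀ : T.ι, ∑ v ∈ Finset.univ.filter (fun v => T.lev x₀ ≤ T.lev v),
      μ v * (T.h x₀ / (T.h x₀ + d (T.pt v) (T.pt x₀))) ^ m ≤ C * K₁ * T.vol x₀ := by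
  obtain ⟨C, hC, hcard⟩ := card_level_near_of n hup cT hc
  obtain ⟨Cv, hCv, hvol⟩ := vol_bounds_of n hup cT hc
  have hx1 : (2:ℝ) ^ ((n:ℝ) - m) < 1 := Real.rpow_lt_one_of_one_lt_of_neg (by norm_num) (by linarith)
  have hm0 : 0 < m := lt_of_le_of_lt (Nat.cast_nonneg n) hm
  have hx2 : 0 < 1 - (2:ℝ) ^ ((n:ℝ) - m) := by linarith
  refine ⟨C * 4 ^ n * Cv / cT * ((2:ℝ) ^ m / (1 - (2:ℝ) ^ ((n:ℝ) - m))), by positivity, ?_⟩
  intro T μ K₁ hμ hK hcarl x₀
  have hh0 := T.h_pos x₀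
  have h1 := layer (Finset.univ.filter (fun v => T.lev x₀ ≤ T.lev v))
    (fun v => (T.h x₀ + d (T.pt v) (T.pt x₀)) / T.h x₀) μ (fun v _ => hμ v)
    (fun v _ => by
      rw [le_div_iff₀ hh0, one_mul]
      have := d_nonneg (T.pt v) (T.pt x₀)
      linarith) n m hm (C * 4 ^ n * K₁ * (Cv * T.h x₀ ^ n)) (by positivity) (by
      intro k
      set V := (Finset.univ.filter (fun v => T.lev x₀ ≤ T.lev v)).filter
        (fun v => (T.h x₀ + d (T.pt v) (T.pt x₀)) / T.h x₀ ≤ 2 ^ k) with hV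
      set W := V.image (fun v => T.anc (T.lev x₀) v) with hW
      have h2 : ∑ v ∈ V, μ v = ∑ x ∈ W, ∑ v ∈ V.filter (fun v => T.anc (T.lev x₀) v = x), μ v := by
        symm
        apply Finset.sum_fiberwise_of_maps_to
        intro v hv
        exact Finset.mem_image_of_mem _ hv
      have hlevW : ∀ x ∈ W, T.lev x = T.lev x₀ := by
        intro x hx
        rw [hW, Finset.mem_image] at hx
        obtain ⟨v, hv, rfl⟩ := hx
        rw [hV, Finset.mem_filter, Finset.mem_filter] at hv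
        exact T.lev_anc hv.1.2
      have h3 : ∀ x ∈ W, ∑ v ∈ V.filter (fun v => T.anc (T.lev x₀) v = x), μ v ≤
          K₁ * (Cv * T.h x₀ ^ n) := by
        intro x hx
        refine (hcarl x _ ?_).trans ?_
        · intro v hv
          rw [Finset.mem_filter] at hv
          rw [← hv.2]
          exact T.le_anc _ _
        · have h4 := (hvol T x).2
          have h5 : T.h x = T.h x₀ := by unfold Tree.h; rw [hlevW x hx]
          rw [h5] at h4
          exact mul_le_mul_of_nonneg_left h4 hK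
      have hk1 : (1:ℝ) ≤ 2 ^ k := one_le_pow₀ (by norm_num)
      have hsq1 : 1 ≤ Real.sqrt (2 ^ k) := by rw [Real.one_le_sqrt]; exact hk1
      have hr0 := rr_pos (T.lev x₀)
      have h6 : (W.card : ℝ) ≤ C * (4 ^ n * (2 ^ k) ^ n) := by
        have h7 := hcard T (T.lev x₀) (T.pt x₀) (2 * Real.sqrt (2 ^ k) * rr (T.lev x₀))
          (T.norm_pt_le _) (by nlinarith) W (by
            intro x hx
            refine ⟨hlevW x hx, ?_⟩
            rw [hW, Finset.mem_image] at hx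
            obtain ⟨v, hv, rfl⟩ := hx
            rw [hV, Finset.mem_filter, Finset.mem_filter] at hv
            have h8 := T.rho_anc hv.1.2
            have h9 : rho (T.pt v) (T.pt x₀) ≤ Real.sqrt (2 ^ k) * (rr (T.lev x₀) / 2) := by
              have h10 := hv.2
              rw [div_le_iff₀ hh0] at h10
              rw [← sqrt_hh, ← Real.sqrt_mul (by positivity)]
              unfold rho
              apply Real.sqrt_le_sqrt
              change d (T.pt v) (T.pt x₀) ≤ 2 ^ k * T.h x₀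
              linarith
            have h11 := rho_tri (T.pt (T.anc (T.lev x₀) v)) (T.pt v) (T.pt x₀) (T.norm_pt_le _)
              (T.norm_pt_le _) (T.norm_pt_le _)
            rw [rho_comm (T.pt (T.anc (T.lev x₀) v)) (T.pt v)] at h11
            nlinarith)
        refine h7.trans (le_of_eq ?_)
        congr 1
        rw [mul_div_assoc, div_self hr0.ne', mul_one, pow_mul, mul_pow,
          Real.sq_sqrt (by positivity), mul_pow]
        norm_num
      rw [h2]
      refine (Finset.sum_le_sum h3).trans ?_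
      rw [Finset.sum_const, nsmul_eq_mul]
      have h12 : 0 ≤ K₁ * (Cv * T.h x₀ ^ n) := by positivity
      refine (mul_le_mul_of_nonneg_right h6 h12).trans (le_of_eq (by ring)))
  have h13 : ∀ v ∈ Finset.univ.filter (fun v => T.lev x₀ ≤ T.lev v),
      μ v * (T.h x₀ / (T.h x₀ + d (T.pt v) (T.pt x₀))) ^ m =
      μ v * (1 / ((T.h x₀ + d (T.pt v) (T.pt x₀)) / T.h x₀)) ^ m := by
    intro v _
    rw [one_div_div]
  rw [Finset.sum_congr rfl h13]
  refine h1.trans ?_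
  have h14 := (hvol T x₀).1
  have h15 : T.h x₀ ^ n ≤ T.vol x₀ / cT := by rw [le_div_iff₀ hc]; linarith
  have h16 : 0 ≤ C * 4 ^ n * K₁ * Cv * ((2:ℝ) ^ m / (1 - (2:ℝ) ^ ((n:ℝ) - m))) := by positivity
  have h17 := mul_le_mul_of_nonneg_left h15 h16
  calc _ = C * 4 ^ n * K₁ * Cv * ((2:ℝ) ^ m / (1 - (2:ℝ) ^ ((n:ℝ) - m))) * T.h x₀ ^ n := by ring
    _ ≤ _ := h17
    _ = _ := by field_simp

end

end Pool.Agent.Lib.MP7ebef4
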