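import Pool.Agent.Lib.MP_7ebef4_an.HN2
import Pool.Agent.Lib.MP_7ebef4_an.ErrE2c
import Pool.Agent.Lib.MP_7ebef4_an.Schur
import Pool.Agent.Lib.MP_7ebef4_an.QkEst
import Pool.Agent.Lib.MP_7ebef4_an.PumpB
import Pool.Agent.Lib.MP_7ebef4_an.TreeSums

/-! Glue: `SchurQ`, `RowQ`, node sums, pumps from `HFR` and `HUp`. -/

set_option autoImplicit false

open MeasureTheory Set

namespace Pool.Agent.Lib.MP7ebef4

noncomputable section

variable {n : ℕ}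

theorem SchurQ_of (n : ℕ) (hFR : HFR n) (η : ℝ) (h0 : 0 < η) (h1 : η ≤ 1) : SchurQ n η := by
  obtain ⟨R, hR, hrow⟩ := Qk_row_of n hFR η h0 h1
  obtain ⟨C, hC, hcol⟩ := Qk_col_of n hFR η h0 h1
  refine ⟨R * C, by positivity, ?_⟩
  intro f hf
  have : SFinite (lam n) := by unfold lam; infer_instance
  have h2 := schur (lam n) (lam n) (fun z w => ENNReal.ofReal (Qk η z w))
    ((E2.measurable_Qk η).ennreal_ofReal) f hf (ENNReal.ofReal R) (ENNReal.ofReal C)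
    (by filter_upwards [E2.lam_ae_B] with z hz using hrow z hz)
    (by filter_upwards [E2.lam_ae_B] with w hw using hcol w hw)
  rw [ENNReal.ofReal_mul hR.le]
  exact h2

theorem RowQ_of (n : ℕ) (hFR : HFR n) (η : ℝ) (h0 : 0 < η) (h1 : η ≤ 1) : RowQ n η :=
  Qk_row_of n hFR η h0 h1

theorem FRstmt_of (n : ℕ) (hFR : HFR n) : FRstmt n := hFR

theorem NodeSum_of (n : ℕ) (hup : HUp n) (cT : ℝ) (hc : 0 < cT) (α β : ℝ) (hα : (n:ℝ) < α)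
    (hβ : α < β) : ∃ A : ℝ, 0 < A ∧ NodeSum n cT α β A :=
  node_sum_of n hup cT hc α β hα hβ

theorem LevelSum_of (n : ℕ) (hup : HUp n) (cT : ℝ) (hc : 0 < cT) (m : ℝ) (hm : (n:ℝ) < m) :
    ∃ A : ℝ, 0 < A ∧ LevelSum n cT m A := by
  obtain ⟨C, hC, h⟩ := level_sum_of n hup cT hc m hm
  refine ⟨C, hC, ?_⟩
  intro T i z hz
  exact h T i z hz

/-- (E2a) from the ball bound and FR -/
theorem E2a_final (n : ℕ) (cT : ℝ) (hc : 0 < cT) (C K : ℝ) (hup : HUp n) (hFR : HFR n) :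
    ∃ A : ℝ, 0 < A ∧ ∀ (S : Sys n cT C K) (ψ : S.T.ι → ℂ),
      ∫⁻ z, (‖∑ v ∈ S.pumps, (dl z : ℂ) * (S.c v : ℂ) * S.Dk v z * ψ v‖ₑ /
        ENNReal.ofReal (S.c (S.vw z))) ^ (2:ℕ) ∂(lam n) ≤
      ENNReal.ofReal A * ∑ v ∈ S.pumps, ENNReal.ofReal (S.T.vol v) * ‖ψ v‖ₑ ^ (2:ℕ) := by
  apply E2a_of n cT C K hFR
  apply NodeSum_of n hup cT hc
  · have : n < sE n - n := by unfold sE; omega
    exact_mod_cast this
  · have : sE n - n < sE n - n + 1 := Nat.lt_succ_self _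
    exact_mod_cast this

/-- pump systems -/
theorem exists_pumps_final (n : ℕ) (cT : ℝ) (hc : 0 < cT) (hup : HUp n) (C : ℝ) (hC : 0 < C) :
    ∃ K : ℝ, 1 ≤ K ∧ ∀ ε > 0, ∃ p₀ : ℝ, ∀ p' ≥ p₀, ∀ (T : Tree n cT) (m : ℝ) (c : T.ι → ℝ),
      IsC T C m c → ∃ resp : T.ι → T.ι, IsPump T c K ε p' resp := by
  refine exists_pumps_of n cT (KCn_of n cT ?_) C hC
  obtain ⟨A, hA, h⟩ := kernel_carleson_of n hup cT hc ((n + 1 : ℕ) : ℝ) (by
    have : n < n + 1 := Nat.lt_succ_self _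
    exact_mod_cast this)
  refine ⟨A, hA, ?_⟩
  intro T μ K₁ h1 h2 h3 x₀
  have h4 := h T μ K₁ h1 h2 h3 x₀
  exact h4

end

end Pool.Agent.Lib.MP7ebef4
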