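import Pool.Agent.Lib.MP_7ebef4_an.ErrE2a
import Pool.Agent.Lib.MP_7ebef4_an.Hol

/-! Module HN: the functions `H_F`. -/

set_option autoImplicit false

open MeasureTheory Set

namespace Pool.Agent.Lib.MP7ebef4

noncomputable section

variable {n : ℕ}

/-- statement of `Sg_hol` -/
def SgHol (n : ℕ) : Prop := ∀ (F : E n → ℂ), AEStronglyMeasurable F (lam n) →
    ∫⁻ w, ‖F w‖ₑ ^ (2:ℕ) ∂(lam n) < ⊤ →
    DifferentiableOn ℂ (Sg F) (B n) ∧ ∀ z ∈ B n, Dop (Sg F) z =
      ∫ w, F w * (((NE n : ℕ) : ℂ) / q z w * kap z w) ∂(lam n)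

namespace E2

theorem measurable_loc {cT : ℝ} (T : Tree n cT) {α : Type*} [MeasurableSpace α] (f : T.ι → α) :
    Measurable (fun w => f (T.loc w)) := by
  let _ : MeasurableSpace T.ι := ⊤
  have h1 : Measurable T.loc := measurable_to_countable' (fun x => T.meas_loc x)
  exact (measurable_from_top (f := f)).comp h1

theorem measurable_q (z : E n) : Measurable (fun w : E n => q z w) := by
  have : Continuous (fun w : E n => q z w) := by unfold q; fun_prop
  exact this.measurable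

theorem measurable_kap (z : E n) : Measurable (fun w : E n => kap z w) := by
  unfold kap
  have h1 := measurable_dl (n := n)
  have h2 := measurable_q z
  have h3 : Measurable (fun w : E n => ((c0 n * dl w ^ (ME n) : ℝ) : ℂ)) :=
    Complex.measurable_ofReal.comp ((h1.pow_const _).const_mul _)
  exact h3.div (h2.pow_const _)

theorem lam_dl_sq_lt_top (A : ℝ) : ∫⁻ w, ENNReal.ofReal ((A * dl w) ^ 2) ∂(lam n) < ⊤ := by
  refine lt_of_le_of_lt (lam_le _) ?_
  have h1 : ∫⁻ z in B n, ENNReal.ofReal (dl z)⁻¹ * ENNReal.ofReal ((A * dl z) ^ 2) ≤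
      ∫⁻ _z in B n, ENNReal.ofReal (A ^ 2) := by
    apply setLIntegral_mono' measurableSet_B
    intro z hz
    have hp := dl_pos hz
    have h1 := dl_le_one z
    rw [← ENNReal.ofReal_mul (inv_nonneg.2 hp.le)]
    apply ENNReal.ofReal_le_ofReal
    have e : (dl z)⁻¹ * (A * dl z) ^ 2 = A ^ 2 * dl z := by field_simp
    rw [e]
    have := sq_nonneg A
    nlinarith
  refine lt_of_le_of_lt h1 ?_
  rw [lintegral_const]
  apply ENNReal.mul_lt_top ENNReal.ofReal_lt_top
  rw [Measure.restrict_apply_univ]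
  exact measure_ball_lt_top

end E2

namespace Sys

variable {cT C K : ℝ} (S : Sys n cT C K)

theorem measurable_vw {α : Type*} [MeasurableSpace α] (f : S.T.ι → α) :
    Measurable (fun w => f (S.vw w)) :=
  E2.measurable_loc S.T (fun x => f (S.resp x))

theorem measurable_Phi (z : E n) : Measurable (fun w => S.Phi w z) := by
  unfold Phi
  exact (E2.measurable_kap z).div (S.measurable_vw (fun v => (S.c v : ℂ) * kk S.T v z))

/-- integrability against functions of finite `X` norm -/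
theorem integrable_of_X {F : E n → ℂ} (hF : AEStronglyMeasurable F (lam n)) (hX : S.XN F < ⊤)
    {g : E n → ℂ} (hg : AEStronglyMeasurable g (lam n)) {A : ℝ}
    (hb : ∀ w ∈ B n, S.c (S.vw w) * ‖g w‖ ≤ A * dl w) :
    Integrable (fun w => F w * g w) (lam n) := by
  refine ⟨hF.mul hg, ?_⟩
  rw [hasFiniteIntegral_iff_enorm]
  have h1 : ∫⁻ w, ‖F w * g w‖ₑ ∂(lam n) ≤
      ∫⁻ w, ((‖F w‖ₑ / ENNReal.ofReal (S.c (S.vw w))) ^ (2:ℕ) +
        ENNReal.ofReal ((A * dl w) ^ 2)) ∂(lam n) := by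
    apply lintegral_mono_ae
    filter_upwards [E2.lam_ae_B] with w hw
    have hc := S.c_pos (S.vw w)
    rw [S.XN_term_eq F w, ← ENNReal.ofReal_add (by positivity) (by positivity), ← ofReal_norm]
    apply ENNReal.ofReal_le_ofReal
    rw [norm_mul]
    have h2 := hb w hw
    have e : ‖F w‖ * ‖g w‖ = (‖F w‖ * (S.c (S.vw w))⁻¹) * (S.c (S.vw w) * ‖g w‖) := by
      field_simp
    have h3 : (‖F w‖ * (S.c (S.vw w))⁻¹) * (S.c (S.vw w) * ‖g w‖) ≤
        (‖F w‖ * (S.c (S.vw w))⁻¹) * (A * dl w) :=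
      mul_le_mul_of_nonneg_left h2 (by positivity)
    have e2 : ‖F w‖ ^ 2 * (S.c (S.vw w) ^ 2)⁻¹ = (‖F w‖ * (S.c (S.vw w))⁻¹) ^ 2 := by
      rw [mul_pow, inv_pow]
    rw [e, e2]
    nlinarith [sq_nonneg ((‖F w‖ * (S.c (S.vw w))⁻¹) - A * dl w),
      sq_nonneg (‖F w‖ * (S.c (S.vw w))⁻¹), sq_nonneg (A * dl w)]
  refine lt_of_le_of_lt h1 ?_
  rw [lintegral_add_right _ (((E2.measurable_dl.const_mul A).pow_const 2).ennreal_ofReal)]
  exact ENNReal.add_lt_top.2 ⟨hX, E2.lam_dl_sq_lt_top A⟩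

/-- `PB z w ≤ A_z δ_w` -/
theorem PB_le_dl {z w : E n} (hz : z ∈ B n) (hw : w ∈ B n) :
    PB z w ≤ (2 ^ (3 * sE n) * ((dl z / 2) ^ (n + 1))⁻¹) * dl w := by
  have hz1 := (mem_B.1 hz).le
  have hw1 := (mem_B.1 hw).le
  have hD := d_pos hz hw1
  have hdz := dl_pos hz
  have hdw := dl_pos hw
  have h1 : dl z / 2 ≤ d z w := by have := dl_le_left z w hw1; linarith
  have h2 := ratio_le_two hz hw1
  have h0 := ratio_nonneg hz1 hw1
  unfold PB
  have hs : 3 * sE n = (3 * sE n - 1) + 1 := by unfold sE; omega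
  have h3 : (dl w / d z w) ^ (3 * sE n) ≤ 2 ^ (3 * sE n) * (dl w / d z w) := by
    rw [hs, pow_succ]
    have h4 : (dl w / d z w) ^ (3 * sE n - 1) ≤ 2 ^ (3 * sE n - 1) := pow_le_pow_left₀ h0 h2 _
    have h5 : (2:ℝ) ^ (3 * sE n - 1) ≤ 2 ^ ((3 * sE n - 1) + 1) :=
      pow_le_pow_right₀ (by norm_num) (by omega)
    exact mul_le_mul_of_nonneg_right (h4.trans h5) h0
  calc (dl w / d z w) ^ (3 * sE n) * ((d z w) ^ n)⁻¹
      ≤ (2 ^ (3 * sE n) * (dl w / d z w)) * ((d z w) ^ n)⁻¹ :=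
        mul_le_mul_of_nonneg_right h3 (by positivity)
    _ = 2 ^ (3 * sE n) * ((d z w) ^ (n+1))⁻¹ * dl w := by
        rw [pow_succ]; field_simp
    _ ≤ (2 ^ (3 * sE n) * ((dl z / 2) ^ (n + 1))⁻¹) * dl w := by
        gcongr

/-- coordinates of `H_F` -/
def HFj (F : E n → ℂ) (j : Fin S.N) (z : E n) : ℂ :=
  ∫ w, F w * (S.Phi w z * (starRingEnd ℂ) (S.u (S.vw w) j)) ∂(lam n)

/-- `D Φ_w (z)` -/
def DPhi (w z : E n) : ℂ :=
  S.Phi w z * ((NE n : ℂ) / q z w - (sE n : ℂ) / q z (S.T.a (S.vw w)) + (sE n : ℂ))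

theorem RPhi_add (w z : E n) : S.RPhi w z + (NE n : ℂ) * S.Phi w z = S.DPhi w z := by
  unfold RPhi DPhi; ring

theorem norm_u_coord_le (v : S.T.ι) (j : Fin S.N) : ‖S.u v j‖ ≤ 1 := by
  have := EuclideanSpace.norm_eq (S.u v)
  have h1 := PiLp.norm_apply_le (S.u v) j
  rw [S.hu.unit] at h1
  exact h1

theorem norm_DPhi_le {w z : E n} (hw : w ∈ B n) (hz : z ∈ B n) :
    S.c (S.vw w) * ‖S.DPhi w z‖ ≤ (C0 n * (NE n + 166 * sE n)) * ((d z w)⁻¹ * PB z w) := by
  have hz1 := (mem_B.1 hz).le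
  have hw1 := (mem_B.1 hw).le
  have hD := d_pos hz hw1
  have h1 := S.norm_Phi_le hw hz
  have hd2 := d_le_two z w hz1 hw1
  have h3 := S.T.d_le_anc hw hz1 (S.vw_anc w)
  have h4 := S.T.d_a_pos (S.vw w) hz1
  have h2 : ‖(NE n : ℂ) / q z w - (sE n : ℂ) / q z (S.T.a (S.vw w)) + (sE n : ℂ)‖ ≤
      (NE n + 166 * sE n) * (d z w)⁻¹ := by
    have n1 : ‖(NE n : ℂ) / q z w‖ = NE n * (d z w)⁻¹ := by
      rw [norm_div, Complex.norm_natCast, div_eq_mul_inv]; rfl
    have n2 : ‖(sE n : ℂ) / q z (S.T.a (S.vw w))‖ ≤ 164 * sE n * (d z w)⁻¹ := by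
      rw [norm_div, Complex.norm_natCast, ← div_eq_mul_inv]
      change (sE n : ℝ) / d z (S.T.a (S.vw w)) ≤ _
      rw [div_le_div_iff₀ h4 hD]
      have : (0:ℝ) ≤ sE n := Nat.cast_nonneg _
      nlinarith
    have n3 : ‖(sE n : ℂ)‖ ≤ 2 * sE n * (d z w)⁻¹ := by
      rw [Complex.norm_natCast, ← div_eq_mul_inv, le_div_iff₀ hD]
      have : (0:ℝ) ≤ sE n := Nat.cast_nonneg _
      nlinarith
    refine (norm_add_le _ _).trans ?_
    refine (add_le_add (norm_sub_le _ _) n3).trans ?_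
    rw [n1]
    nlinarith
  unfold DPhi
  rw [norm_mul, ← mul_assoc]
  have hC0 := C0_nonneg n
  calc S.c (S.vw w) * ‖S.Phi w z‖ * ‖(NE n : ℂ) / q z w - (sE n : ℂ) / q z (S.T.a (S.vw w)) + (sE n : ℂ)‖
      ≤ (C0 n * PB z w) * ((NE n + 166 * sE n) * (d z w)⁻¹) := by
        apply mul_le_mul h1 h2 (norm_nonneg _)
        exact mul_nonneg hC0 (PB_nonneg hz1 hw1)
    _ = _ := by ring

theorem norm_DPhi_le_Qk {w z : E n} (hw : w ∈ B n) (hz : z ∈ B n) :
    S.c (S.vw w) * (dl z * ‖S.DPhi w z‖) ≤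
      (C0 n * (NE n + 166 * sE n) * 2 ^ (3 * sE n)) * Qk 1 z w := by
  have hz1 := (mem_B.1 hz).le
  have hw1 := (mem_B.1 hw).le
  have hD := d_pos hz hw1
  have hdz := dl_pos hz
  have h1 := S.norm_DPhi_le hw hz
  have h2 := ratio_le_two hz hw1
  have h0 := ratio_nonneg hz1 hw1
  have hC0 := C0_nonneg n
  have hs : 3 * sE n = (3 * sE n - 2) + 2 := by unfold sE; omega
  have h3 : (dl w / d z w) ^ (3 * sE n) ≤ 2 ^ (3 * sE n) * (dl w / d z w) ^ 2 := by
    rw [hs, pow_add]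
    have h4 : (dl w / d z w) ^ (3 * sE n - 2) ≤ 2 ^ (3 * sE n - 2) := pow_le_pow_left₀ h0 h2 _
    have h5 : (2:ℝ) ^ (3 * sE n - 2) ≤ 2 ^ ((3 * sE n - 2) + 2) :=
      pow_le_pow_right₀ (by norm_num) (by omega)
    exact mul_le_mul_of_nonneg_right (h4.trans h5) (sq_nonneg _)
  rw [Qk_one]
  calc S.c (S.vw w) * (dl z * ‖S.DPhi w z‖) = dl z * (S.c (S.vw w) * ‖S.DPhi w z‖) := by ring
    _ ≤ dl z * ((C0 n * (NE n + 166 * sE n)) * ((d z w)⁻¹ * PB z w)) :=
        mul_le_mul_of_nonneg_left h1 hdz.le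
    _ = (C0 n * (NE n + 166 * sE n)) * (dl z / d z w) * ((d z w) ^ n)⁻¹ *
        (dl w / d z w) ^ (3 * sE n) := by unfold PB; field_simp
    _ ≤ (C0 n * (NE n + 166 * sE n)) * (dl z / d z w) * ((d z w) ^ n)⁻¹ *
        (2 ^ (3 * sE n) * (dl w / d z w) ^ 2) := by
        apply mul_le_mul_of_nonneg_left h3
        positivity
    _ = _ := by ring

/-! ### holomorphy and the derivative -/

/-- reciprocal kernel -/
def ik (v : S.T.ι) (z : E n) : ℂ := ((S.c v : ℂ) * kk S.T v z)⁻¹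

theorem Phi_eq_ik (w z : E n) : S.Phi w z = kap z w * S.ik (S.vw w) z := by
  unfold Phi ik; rw [div_eq_mul_inv]

theorem hasFDerivAt_ik (v : S.T.ι) {z : E n} (hz : ‖z‖ ≤ 1) :
    ∃ L : E n →L[ℂ] ℂ, HasFDerivAt (S.ik v) L z ∧
      L z = S.ik v z * ((sE n : ℂ) - (sE n : ℂ) / q z (S.T.a v)) := by
  have h1 := E2.hasFDerivAt_kk S.T v hz
  have hk := S.T.kk_ne v hz
  have hc : (S.c v : ℂ) ≠ 0 := by exact_mod_cast (S.c_pos v).ne'
  have h2 := h1.const_mul (S.c v : ℂ)
  have hne : (S.c v : ℂ) * kk S.T v z ≠ 0 := mul_ne_zero hc hk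
  have h3 : HasDerivAt (fun t : ℂ => t⁻¹) (-(((S.c v : ℂ) * kk S.T v z) ^ 2)⁻¹)
      ((S.c v : ℂ) * kk S.T v z) := hasDerivAt_inv hne
  have h4 := h3.comp_hasFDerivAt z h2
  refine ⟨_, h4, ?_⟩
  have hq := S.T.q_a_ne v hz
  simp only [_root_.smul_apply, _root_.neg_apply, innerSL_apply_apply, smul_eq_mul]
  have e : inner ℂ (S.T.a v) z = 1 - q z (S.T.a v) := by unfold q; ring
  rw [e]
  unfold ik
  field_simp
  ring

/-- pieces of `F` -/
def Fv (F : E n → ℂ) (v : S.T.ι) : E n → ℂ := {w | S.vw w = v}.indicator F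

theorem measurableSet_vw (v : S.T.ι) : MeasurableSet {w | S.vw w = v} := by
  classical
  have h1 : Measurable (fun w => if S.vw w = v then (1:ℝ) else 0) :=
    S.measurable_vw (fun x => if x = v then (1:ℝ) else 0)
  have h2 : {w | S.vw w = v} = (fun w => if S.vw w = v then (1:ℝ) else 0) ⁻¹' {1} := by
    ext w
    simp only [Set.mem_ofPred_eq, mem_preimage, mem_singleton_iff]
    by_cases h : S.vw w = v
    · simp [h]
    · simp [h]
  rw [h2]
  exact h1 (measurableSet_singleton 1)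

theorem Fv_aesm {F : E n → ℂ} (hF : AEStronglyMeasurable F (lam n)) (v : S.T.ι) :
    AEStronglyMeasurable (S.Fv F v) (lam n) := hF.indicator (S.measurableSet_vw v)

theorem Fv_L2 {F : E n → ℂ} (hX : S.XN F < ⊤) (v : S.T.ι) :
    ∫⁻ w, ‖S.Fv F v w‖ₑ ^ (2:ℕ) ∂(lam n) < ⊤ := by
  have hc := S.c_pos v
  have h1 : ∀ w, ‖S.Fv F v w‖ₑ ^ (2:ℕ) ≤
      ENNReal.ofReal (S.c v ^ 2) * (‖F w‖ₑ / ENNReal.ofReal (S.c (S.vw w))) ^ (2:ℕ) := by
    intro w
    unfold Fv
    by_cases h : S.vw w = v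
    · rw [indicator_of_mem (by exact h), h, ENNReal.ofReal_pow hc.le, ← mul_pow]
      rw [ENNReal.mul_div_cancel (by simpa using hc) ENNReal.ofReal_ne_top]
    · rw [indicator_of_notMem (by exact h)]
      simp
  refine lt_of_le_of_lt (lintegral_mono h1) ?_
  rw [lintegral_const_mul' _ _ ENNReal.ofReal_ne_top]
  exact ENNReal.mul_lt_top ENNReal.ofReal_lt_top hX

theorem kap_le {z w : E n} (hz : z ∈ B n) (hw : w ∈ B n) :
    ‖kap z w‖ ≤ |c0 n| * 2 ^ sE n * PB z w := by
  have hw1 := (mem_B.1 hw).le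
  have hz1 := (mem_B.1 hz).le
  have hD := d_pos hz hw1
  have h2 := ratio_le_two hz hw1
  have h0 := ratio_nonneg hz1 hw1
  rw [norm_kap z w hw1]
  unfold PB
  have hM : ME n = sE n + 3 * sE n := by unfold ME; ring
  have hN : NE n = n + (sE n + 3 * sE n) := by unfold NE; rw [hM]
  have e : |c0 n| * dl w ^ (ME n) / d z w ^ (NE n) =
      |c0 n| * (dl w / d z w) ^ sE n * ((dl w / d z w) ^ (3 * sE n) * ((d z w) ^ n)⁻¹) := by
    rw [hM, hN, pow_add, pow_add, pow_add, div_pow, div_pow]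
    field_simp
  rw [e]
  have h3 : (dl w / d z w) ^ sE n ≤ 2 ^ sE n := pow_le_pow_left₀ h0 h2 _
  have h4 : 0 ≤ (dl w / d z w) ^ (3 * sE n) * ((d z w) ^ n)⁻¹ :=
    mul_nonneg (pow_nonneg h0 _) (by positivity)
  exact mul_le_mul_of_nonneg_right (mul_le_mul_of_nonneg_left h3 (abs_nonneg _)) h4

/-- integrability of `F · g` where `c ‖g‖ ≤ A PB z w` -/
theorem integrable_of_PB {F : E n → ℂ} (hF : AEStronglyMeasurable F (lam n)) (hX : S.XN F < ⊤)
    {g : E n → ℂ} (hg : AEStronglyMeasurable g (lam n)) {A : ℝ} (hA : 0 ≤ A) {z : E n}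
    (hz : z ∈ B n) (hb : ∀ w ∈ B n, S.c (S.vw w) * ‖g w‖ ≤ A * PB z w) :
    Integrable (fun w => F w * g w) (lam n) := by
  apply S.integrable_of_X hF hX hg (A := A * (2 ^ (3 * sE n) * ((dl z / 2) ^ (n + 1))⁻¹))
  intro w hw
  refine (hb w hw).trans ?_
  rw [mul_assoc]
  exact mul_le_mul_of_nonneg_left (PB_le_dl hz hw) hA

theorem integrable_Phi {F : E n → ℂ} (hF : AEStronglyMeasurable F (lam n)) (hX : S.XN F < ⊤)
    {z : E n} (hz : z ∈ B n) (g : E n → ℂ) (hg : Measurable g) {A : ℝ} (hA : 0 ≤ A)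
    (hb : ∀ w ∈ B n, ‖g w‖ ≤ A) :
    Integrable (fun w => F w * (S.Phi w z * g w)) (lam n) := by
  apply S.integrable_of_PB hF hX (A := C0 n * A) _ (mul_nonneg (C0_nonneg n) hA) hz
  · intro w hw
    have h1 := S.norm_Phi_le hw hz
    have h2 := hb w hw
    have h3 := PB_nonneg (mem_B.1 hz).le (mem_B.1 hw).le
    have h4 := C0_nonneg n
    rw [norm_mul, ← mul_assoc]
    calc S.c (S.vw w) * ‖S.Phi w z‖ * ‖g w‖ ≤ (C0 n * PB z w) * A := by
          apply mul_le_mul h1 h2 (norm_nonneg _)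
          positivity
      _ = _ := by ring
  · exact ((S.measurable_Phi z).mul hg).aestronglyMeasurable

theorem mem_pumps {v : S.T.ι} : v ∈ S.pumps ↔ S.resp v = v := by
  unfold pumps; simp

theorem vw_mem_pumps (w : E n) : S.vw w ∈ S.pumps := S.mem_pumps.2 (S.resp_vw w)

/-- decomposition of an integral over the values of `vw` -/
theorem integral_eq_sum {F g : E n → ℂ} (G : S.T.ι → E n → ℂ)
    (hG : ∀ v ∈ S.pumps, Integrable (fun w => S.Fv F v w * G v w) (lam n))
    (hg : ∀ w, g w = G (S.vw w) w) :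
    ∫ w, F w * g w ∂(lam n) = ∑ v ∈ S.pumps, ∫ w, S.Fv F v w * G v w ∂(lam n) := by
  classical
  rw [← integral_finsetSum _ hG]
  apply integral_congr_ae
  apply Filter.Eventually.of_forall
  intro w
  simp only
  rw [Finset.sum_eq_single (S.vw w)]
  · rw [hg w]
    unfold Fv
    rw [indicator_of_mem (by rfl)]
  · intro v _ hv
    unfold Fv
    rw [indicator_of_notMem (by exact fun h => hv h.symm), zero_mul]
  · intro h
    exact absurd (S.vw_mem_pumps w) h

theorem XN_Fv_le (F : E n → ℂ) (v : S.T.ι) : S.XN (S.Fv F v) ≤ S.XN F := by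
  unfold XN
  apply lintegral_mono
  intro w
  apply pow_le_pow_left₀ zero_le
  apply ENNReal.div_le_div_right
  unfold Fv
  by_cases h : S.vw w = v
  · rw [indicator_of_mem (by exact h)]
  · rw [indicator_of_notMem (by exact h)]; simp

theorem HFj_eq {F : E n → ℂ} (hF : AEStronglyMeasurable F (lam n)) (hX : S.XN F < ⊤) (j : Fin S.N)
    {z : E n} (hz : z ∈ B n) :
    S.HFj F j z = ∑ v ∈ S.pumps, ((starRingEnd ℂ) (S.u v j) * S.ik v z) * Sg (S.Fv F v) z := by
  unfold HFj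
  rw [S.integral_eq_sum (G := fun v w => kap z w * S.ik v z * (starRingEnd ℂ) (S.u v j))]
  · apply Finset.sum_congr rfl
    intro v _
    unfold Sg
    rw [← integral_const_mul]
    apply integral_congr_ae
    apply Filter.Eventually.of_forall
    intro w
    simp only
    ring
  · intro v _
    have h1 := S.integrable_Phi (S.Fv_aesm hF v) (lt_of_le_of_lt (S.XN_Fv_le F v) hX) hz
      (fun _ => (starRingEnd ℂ) (S.u v j)) measurable_const (zero_le_one)
      (fun w _ => by rw [RCLike.norm_conj]; exact S.norm_u_coord_le v j)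
    refine h1.congr (Filter.Eventually.of_forall ?_)
    intro w
    simp only
    unfold Fv
    by_cases h : S.vw w = v
    · rw [indicator_of_mem (by exact h), S.Phi_eq_ik, h]
    · rw [indicator_of_notMem (by exact h)]; simp
  · intro w
    rw [S.Phi_eq_ik]

theorem HFj_hol (hSg : SgHol n) {F : E n → ℂ} (hF : AEStronglyMeasurable F (lam n))
    (hX : S.XN F < ⊤) (j : Fin S.N) :
    DifferentiableOn ℂ (S.HFj F j) (B n) ∧ ∀ z ∈ B n, Dop (S.HFj F j) z =
      ∫ w, F w * (S.DPhi w z * (starRingEnd ℂ) (S.u (S.vw w) j)) ∂(lam n) := by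
  classical
  have hBo : IsOpen (B n) := Metric.isOpen_ball
  set f : E n → ℂ := fun z => ∑ v ∈ S.pumps,
    ((starRingEnd ℂ) (S.u v j) * S.ik v z) * Sg (S.Fv F v) z with hf
  have hEq : ∀ z ∈ B n, S.HFj F j z = f z := fun z hz => S.HFj_eq hF hX j hz
  have hSgv : ∀ v, DifferentiableOn ℂ (Sg (S.Fv F v)) (B n) ∧ ∀ z ∈ B n, Dop (Sg (S.Fv F v)) z =
      ∫ w, S.Fv F v w * (((NE n : ℕ) : ℂ) / q z w * kap z w) ∂(lam n) :=
    fun v => hSg _ (S.Fv_aesm hF v) (S.Fv_L2 hX v)
  -- derivative of each piece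
  have hder : ∀ z ∈ B n, ∃ L : E n →L[ℂ] ℂ, HasFDerivAt f L z ∧ L z + (NE n : ℂ) * f z =
      ∑ v ∈ S.pumps, ((starRingEnd ℂ) (S.u v j) * S.ik v z) *
        (Dop (Sg (S.Fv F v)) z + ((sE n : ℂ) - (sE n : ℂ) / q z (S.T.a v)) * Sg (S.Fv F v) z) := by
    intro z hz
    have hz1 := (mem_B.1 hz).le
    choose Lv hLv1 hLv2 using fun v => S.hasFDerivAt_ik v hz1
    have hSd : ∀ v, HasFDerivAt (Sg (S.Fv F v)) (fderiv ℂ (Sg (S.Fv F v)) z) z := fun v =>
      ((hSgv v).1.differentiableAt (hBo.mem_nhds hz)).hasFDerivAt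
    have h1 : ∀ v, HasFDerivAt (fun z => ((starRingEnd ℂ) (S.u v j) * S.ik v z) * Sg (S.Fv F v) z)
        (((starRingEnd ℂ) (S.u v j) * S.ik v z) • fderiv ℂ (Sg (S.Fv F v)) z +
          Sg (S.Fv F v) z • ((starRingEnd ℂ) (S.u v j) • Lv v)) z := by
      intro v
      exact ((hLv1 v).const_mul _).mul (hSd v)
    refine ⟨_, HasFDerivAt.fun_sum (fun v _ => h1 v), ?_⟩
    rw [_root_.sum_apply, hf]
    simp only
    rw [Finset.mul_sum, ← Finset.sum_add_distrib]
    apply Finset.sum_congr rfl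
    intro v _
    simp only [_root_.add_apply, _root_.smul_apply, smul_eq_mul]
    rw [hLv2 v]
    unfold Dop
    rw [smul_eq_mul]
    ring
  refine ⟨?_, ?_⟩
  · intro z hz
    obtain ⟨L, hL, _⟩ := hder z hz
    have h1 : DifferentiableWithinAt ℂ f (B n) z := hL.differentiableAt.differentiableWithinAt
    exact h1.congr hEq (hEq z hz)
  · intro z hz
    have hz1 := (mem_B.1 hz).le
    obtain ⟨L, hL, hL2⟩ := hder z hz
    have hev : S.HFj F j =ᶠ[nhds z] f := by
      filter_upwards [hBo.mem_nhds hz] with x hx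
      exact hEq x hx
    have h1 : HasFDerivAt (S.HFj F j) L z := hL.congr_of_eventuallyEq hev
    have h2 : Dop (S.HFj F j) z = L z + (NE n : ℂ) * f z := by
      unfold Dop
      rw [h1.fderiv, smul_eq_mul, hEq z hz]
    rw [h2, hL2]
    -- the integral
    set g2 : S.T.ι → ℂ := fun v => (sE n : ℂ) - (sE n : ℂ) / q z (S.T.a v) with hg2
    have hI1 : ∀ v, Integrable (fun w => S.Fv F v w * (((NE n : ℕ) : ℂ) / q z w * kap z w)) (lam n) := by
      intro v
      apply S.integrable_of_PB (S.Fv_aesm hF v) (lt_of_le_of_lt (S.XN_Fv_le F v) hX)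
        (A := ∑ v, S.c v * (NE n / (dl z / 2) * (|c0 n| * 2 ^ sE n))) _ _ hz
      · intro w hw
        have hw1 := (mem_B.1 hw).le
        have hD := d_pos hz hw1
        have hdz := dl_pos hz
        have h3 := kap_le hz hw
        have h4 : dl z / 2 ≤ d z w := by have := dl_le_left z w hw1; linarith
        have hPB := PB_nonneg hz1 hw1
        rw [norm_mul, norm_div, Complex.norm_natCast]
        change S.c (S.vw w) * ((NE n : ℝ) / d z w * ‖kap z w‖) ≤ _
        calc S.c (S.vw w) * ((NE n : ℝ) / d z w * ‖kap z w‖)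
            ≤ S.c (S.vw w) * ((NE n : ℝ) / (dl z / 2) * (|c0 n| * 2 ^ sE n * PB z w)) := by
              have := (S.c_pos (S.vw w)).le
              gcongr
          _ = (S.c (S.vw w) * (NE n / (dl z / 2) * (|c0 n| * 2 ^ sE n))) * PB z w := by ring
          _ ≤ _ := by
              apply mul_le_mul_of_nonneg_right _ hPB
              apply Finset.single_le_sum (f := fun v => S.c v * (NE n / (dl z / 2) *
                (|c0 n| * 2 ^ sE n))) _ (Finset.mem_univ (S.vw w))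
              intro v _
              have := (S.c_pos v).le
              positivity
      · have hq : Measurable (fun w : E n => ((NE n : ℕ) : ℂ) / q z w) :=
          (E2.measurable_q z).const_div _
        exact (hq.mul (E2.measurable_kap z)).aestronglyMeasurable
      · apply Finset.sum_nonneg
        intro v _
        have := (S.c_pos v).le
        have hdz := dl_pos hz
        positivity
    have hI2 : ∀ v, Integrable (fun w => S.Fv F v w * kap z w) (lam n) := by
      intro v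
      apply S.integrable_of_PB (S.Fv_aesm hF v) (lt_of_le_of_lt (S.XN_Fv_le F v) hX)
        (A := ∑ v, S.c v * ((|c0 n| * 2 ^ sE n))) _ _ hz
      · intro w hw
        have hw1 := (mem_B.1 hw).le
        have h3 := kap_le hz hw
        have hPB := PB_nonneg hz1 hw1
        calc S.c (S.vw w) * (‖kap z w‖)
            ≤ S.c (S.vw w) * ((|c0 n| * 2 ^ sE n * PB z w)) := by
              have := (S.c_pos (S.vw w)).le
              gcongr
          _ = (S.c (S.vw w) * ((|c0 n| * 2 ^ sE n))) * PB z w := by ring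
          _ ≤ _ := by
              apply mul_le_mul_of_nonneg_right _ hPB
              apply Finset.single_le_sum (f := fun v => S.c v * ((|c0 n| * 2 ^ sE n))) _
                (Finset.mem_univ (S.vw w))
              intro v _
              have := (S.c_pos v).le
              positivity
      · exact (E2.measurable_kap z).aestronglyMeasurable
      · apply Finset.sum_nonneg
        intro v _
        have := (S.c_pos v).le
        positivity
    rw [S.integral_eq_sum (G := fun v w => ((starRingEnd ℂ) (S.u v j) * S.ik v z) *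
      (((NE n : ℕ) : ℂ) / q z w * kap z w + g2 v * kap z w))]
    · apply Finset.sum_congr rfl
      intro v _
      rw [(hSgv v).2 z hz]
      unfold Sg
      rw [← integral_const_mul, ← integral_add (hI1 v) ((hI2 v).const_mul _), ← integral_const_mul]
      apply integral_congr_ae
      apply Filter.Eventually.of_forall
      intro w
      simp only
      ring
    · intro v _
      have h3 := ((hI1 v).add ((hI2 v).const_mul (g2 v))).const_mul
        ((starRingEnd ℂ) (S.u v j) * S.ik v z)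
      refine h3.congr (Filter.Eventually.of_forall ?_)
      intro w
      simp only [Pi.add_apply]
      ring
    · intro w
      unfold DPhi
      rw [S.Phi_eq_ik]
      simp only [hg2]
      ring

end Sys

end

end Pool.Agent.Lib.MP7ebef4
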