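import Mathlib

/-! Hardy–Stein, one dimensional part. -/

set_option autoImplicit false

open MeasureTheory Set Complex Filter Topology

namespace Pool.Agent.Lib.MP7ebef4.HS

noncomputable section

/-- `√(|z|²+ε²)` -/
def UU (ε : ℝ) (z : ℂ) : ℝ := Real.sqrt (z.re ^ 2 + z.im ^ 2 + ε ^ 2)

/-- real inner product -/
def N1 (z0 z1 : ℂ) : ℝ := z0.re * z1.re + z0.im * z1.im

def D1 (ε : ℝ) (z0 z1 : ℂ) : ℝ := N1 z0 z1 / UU ε z0

def D2 (ε : ℝ) (z0 z1 z2 : ℂ) : ℝ :=
  (N1 z1 z1 + N1 z0 z2) / UU ε z0 - (N1 z0 z1) ^ 2 / (UU ε z0) ^ 3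

variable {ε : ℝ}

theorem UU_pos (hε : 0 < ε) (z : ℂ) : 0 < UU ε z := Real.sqrt_pos.2 (by positivity)

theorem UU_sq (z : ℂ) : UU ε z ^ 2 = z.re ^ 2 + z.im ^ 2 + ε ^ 2 := Real.sq_sqrt (by positivity)

theorem normSq_le (z : ℂ) : ‖z‖ ^ 2 = z.re ^ 2 + z.im ^ 2 := by
  rw [Complex.sq_norm, Complex.normSq_apply]; ring

theorem norm_le_UU (z : ℂ) : ‖z‖ ≤ UU ε z := by
  apply Real.le_sqrt_of_sq_le
  rw [normSq_le]
  nlinarith [sq_nonneg ε]

theorem UU_le (hε : 0 < ε) (z : ℂ) : UU ε z ≤ ‖z‖ + ε := by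
  unfold UU
  rw [Real.sqrt_le_left (by positivity), ← normSq_le]
  nlinarith [norm_nonneg z, mul_nonneg (norm_nonneg z) hε.le]

theorem abs_N1_le (z0 z1 : ℂ) : |N1 z0 z1| ≤ ‖z0‖ * ‖z1‖ := by
  apply abs_le_of_sq_le_sq _ (by positivity)
  rw [mul_pow, normSq_le, normSq_le]
  unfold N1
  nlinarith [sq_nonneg (z0.re * z1.im - z0.im * z1.re)]

theorem abs_D1_le (hε : 0 < ε) (z0 z1 : ℂ) : |D1 ε z0 z1| ≤ ‖z1‖ := by
  unfold D1
  have hU := UU_pos hε z0
  rw [abs_div, abs_of_pos hU, div_le_iff₀ hU]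
  have h1 := abs_N1_le z0 z1
  have h2 := norm_le_UU (ε := ε) z0
  nlinarith [norm_nonneg z1]

theorem continuous_UU : Continuous (UU ε) := by
  unfold UU; fun_prop

theorem hasDerivAt_UU (hε : 0 < ε) {g : ℝ → ℂ} {z1 : ℂ} {s : ℝ} (h : HasDerivAt g z1 s) :
    HasDerivAt (fun s => UU ε (g s)) (D1 ε (g s) z1) s := by
  have hre : HasDerivAt (fun s => (g s).re) z1.re s :=
    (Complex.reCLM.hasFDerivAt.comp_hasDerivAt s h)
  have him : HasDerivAt (fun s => (g s).im) z1.im s :=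
    (Complex.imCLM.hasFDerivAt.comp_hasDerivAt s h)
  have h1 : HasDerivAt (fun s => (g s).re ^ 2 + (g s).im ^ 2 + ε ^ 2)
      (2 * (g s).re * z1.re + 2 * (g s).im * z1.im) s := by
    have := ((hre.pow 2).add (him.pow 2)).add_const (ε ^ 2)
    refine this.congr_deriv ?_
    simp only [Nat.cast_ofNat, Nat.add_one_sub_one, pow_one]
  have h2 := h1.sqrt (by positivity)
  refine h2.congr_deriv ?_
  have hU := UU_pos hε (g s)
  unfold D1 N1
  have e : Real.sqrt ((g s).re ^ 2 + (g s).im ^ 2 + ε ^ 2) = UU ε (g s) := rfl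
  rw [e]
  field_simp

theorem hasDerivAt_D1 (hε : 0 < ε) {g g1 : ℝ → ℂ} {z2 : ℂ} {s : ℝ} (h : HasDerivAt g (g1 s) s)
    (h1 : HasDerivAt g1 z2 s) :
    HasDerivAt (fun s => D1 ε (g s) (g1 s)) (D2 ε (g s) (g1 s) z2) s := by
  have hre : HasDerivAt (fun s => (g s).re) (g1 s).re s :=
    (Complex.reCLM.hasFDerivAt.comp_hasDerivAt s h)
  have him : HasDerivAt (fun s => (g s).im) (g1 s).im s :=
    (Complex.imCLM.hasFDerivAt.comp_hasDerivAt s h)
  have hre1 : HasDerivAt (fun s => (g1 s).re) z2.re s :=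
    (Complex.reCLM.hasFDerivAt.comp_hasDerivAt s h1)
  have him1 : HasDerivAt (fun s => (g1 s).im) z2.im s :=
    (Complex.imCLM.hasFDerivAt.comp_hasDerivAt s h1)
  have hN : HasDerivAt (fun s => N1 (g s) (g1 s)) (N1 (g1 s) (g1 s) + N1 (g s) z2) s := by
    have := (hre.mul hre1).add (him.mul him1)
    refine this.congr_deriv ?_
    unfold N1
    ring
  have hU := hasDerivAt_UU hε h
  have hUp := UU_pos hε (g s)
  have h2 := hN.div hU hUp.ne'
  refine h2.congr_deriv ?_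
  unfold D2 D1
  field_simp

theorem D2_add_ge (hε : 0 < ε) (z0 p u : ℂ) :
    ‖p‖ ^ 2 / UU ε z0 ≤ D2 ε z0 p u + D2 ε z0 (I * p) (I * (I * u)) := by
  have hU := UU_pos hε z0
  have hU2 := UU_sq (ε := ε) z0
  have e : D2 ε z0 p u + D2 ε z0 (I * p) (I * (I * u)) =
      2 * ‖p‖ ^ 2 / UU ε z0 - ‖z0‖ ^ 2 * ‖p‖ ^ 2 / (UU ε z0) ^ 3 := by
    rw [normSq_le, normSq_le]
    unfold D2 N1
    simp only [mul_re, mul_im, I_re, I_im]
    field_simp
    ring
  rw [e]
  have h1 : ‖z0‖ ^ 2 * ‖p‖ ^ 2 / (UU ε z0) ^ 3 ≤ ‖p‖ ^ 2 / UU ε z0 := by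
    rw [div_le_div_iff₀ (by positivity) hU]
    have h2 : ‖z0‖ ^ 2 ≤ UU ε z0 ^ 2 := by rw [normSq_le, hU2]; nlinarith [sq_nonneg ε]
    calc ‖z0‖ ^ 2 * ‖p‖ ^ 2 * UU ε z0 ≤ UU ε z0 ^ 2 * ‖p‖ ^ 2 * UU ε z0 := by gcongr
      _ = _ := by ring
  have h3 : 2 * ‖p‖ ^ 2 / UU ε z0 = ‖p‖ ^ 2 / UU ε z0 + ‖p‖ ^ 2 / UU ε z0 := by ring
  linarith

theorem continuousOn_D2 (hε : 0 < ε) {X : Type*} [TopologicalSpace X] {s : Set X} {a b c : X → ℂ}
    (ha : ContinuousOn a s) (hb : ContinuousOn b s) (hc : ContinuousOn c s) :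
    ContinuousOn (fun x => D2 ε (a x) (b x) (c x)) s := by
  have hU : ContinuousOn (fun x => UU ε (a x)) s := continuous_UU.comp_continuousOn ha
  have hN : ∀ {f g : X → ℂ}, ContinuousOn f s → ContinuousOn g s →
      ContinuousOn (fun x => N1 (f x) (g x)) s := by
    intro f g hf hg
    unfold N1
    exact ((continuous_re.comp_continuousOn hf).mul (continuous_re.comp_continuousOn hg)).add
      ((continuous_im.comp_continuousOn hf).mul (continuous_im.comp_continuousOn hg))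
  unfold D2
  apply ContinuousOn.sub
  · exact ((hN hb hb).add (hN ha hc)).div hU (fun x _ => (UU_pos hε _).ne')
  · exact ((hN ha hb).pow 2).div (hU.pow 3) (fun x _ => (pow_pos (UU_pos hε _) 3).ne')

theorem continuousOn_D1 (hε : 0 < ε) {X : Type*} [TopologicalSpace X] {s : Set X} {a b : X → ℂ}
    (ha : ContinuousOn a s) (hb : ContinuousOn b s) :
    ContinuousOn (fun x => D1 ε (a x) (b x)) s := by
  have hU : ContinuousOn (fun x => UU ε (a x)) s := continuous_UU.comp_continuousOn ha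
  unfold D1 N1
  exact (((continuous_re.comp_continuousOn ha).mul (continuous_re.comp_continuousOn hb)).add
      ((continuous_im.comp_continuousOn ha).mul (continuous_im.comp_continuousOn hb))).div hU
      (fun x _ => (UU_pos hε _).ne')

/-- point `t + iθ` -/
def pt (t θ : ℝ) : ℂ := (t : ℂ) + (θ : ℂ) * I

theorem pt_re (t θ : ℝ) : (pt t θ).re = t := by simp [pt]

theorem continuous_pt : Continuous (fun p : ℝ × ℝ => pt p.1 p.2) := by
  unfold pt; fun_prop

theorem hasDerivAt_pt_left (t θ : ℝ) : HasDerivAt (fun s : ℝ => pt s θ) 1 t := by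
  unfold pt
  have := ((hasDerivAt_id t).ofReal_comp).add_const ((θ:ℂ) * I)
  simpa using this

theorem hasDerivAt_pt_right (t θ : ℝ) : HasDerivAt (fun s : ℝ => pt t s) I θ := by
  unfold pt
  have := (((hasDerivAt_id θ).ofReal_comp).mul_const I).const_add (t:ℂ)
  simpa using this

/-- the one-dimensional inequality -/
theorem main1 (hε : 0 < ε) {δ : ℝ} (hδ : 0 < δ) (G G1 G2 : ℂ → ℂ)
    (hG : ∀ w : ℂ, w.re < δ → HasDerivAt G (G1 w) w)
    (hG1 : ∀ w : ℂ, w.re < δ → HasDerivAt G1 (G2 w) w)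
    (hG2 : ContinuousOn G2 {w | w.re < δ})
    (hper : ∀ t : ℝ, t ≤ 0 → G (pt t (2 * Real.pi)) = G (pt t 0))
    (hper1 : ∀ t : ℝ, t ≤ 0 → G1 (pt t (2 * Real.pi)) = G1 (pt t 0))
    (M : ℝ) (hM : ∀ w : ℂ, w.re ≤ 0 → ‖G1 w‖ ≤ M * Real.exp w.re) (T : ℝ) (hT : 0 ≤ T) :
    ∫ θ in (0:ℝ)..(2 * Real.pi), ∫ t in (-T)..0, (-t) * (‖G1 (pt t θ)‖ ^ 2 / UU ε (G (pt t θ))) ≤
      (∫ θ in (0:ℝ)..(2 * Real.pi), UU ε (G (pt 0 θ))) + T * (2 * Real.pi * (M * Real.exp (-T))) := by
  have hpi := Real.pi_pos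
  have hGc : ContinuousOn G {w | w.re < δ} := fun w hw => (hG w hw).continuousAt.continuousWithinAt
  have hG1c : ContinuousOn G1 {w | w.re < δ} := fun w hw => (hG1 w hw).continuousAt.continuousWithinAt
  set R : Set (ℝ × ℝ) := {p | p.1 ≤ 0} with hR
  have hmaps : MapsTo (fun p : ℝ × ℝ => pt p.1 p.2) R {w | w.re < δ} := by
    intro p hp
    have : p.1 ≤ 0 := hp
    change (pt p.1 p.2).re < δ
    rw [pt_re]; linarith
  have cG : ContinuousOn (fun p : ℝ × ℝ => G (pt p.1 p.2)) R :=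
    hGc.comp continuous_pt.continuousOn hmaps
  have cG1 : ContinuousOn (fun p : ℝ × ℝ => G1 (pt p.1 p.2)) R :=
    hG1c.comp continuous_pt.continuousOn hmaps
  have cG2 : ContinuousOn (fun p : ℝ × ℝ => G2 (pt p.1 p.2)) R :=
    hG2.comp continuous_pt.continuousOn hmaps
  set a : ℝ → ℝ → ℝ := fun t θ => D2 ε (G (pt t θ)) (G1 (pt t θ)) (G2 (pt t θ)) with ha
  set b : ℝ → ℝ → ℝ := fun t θ => D2 ε (G (pt t θ)) (I * G1 (pt t θ)) (I * (I * G2 (pt t θ))) with hb
  have ca : ContinuousOn (fun p : ℝ × ℝ => a p.1 p.2) R := continuousOn_D2 hε cG cG1 cG2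
  have cb : ContinuousOn (fun p : ℝ × ℝ => b p.1 p.2) R :=
    continuousOn_D2 hε cG (continuousOn_const.mul cG1)
      (continuousOn_const.mul (continuousOn_const.mul cG2))
  have csq : ContinuousOn (fun p : ℝ × ℝ => (-p.1) * (‖G1 (pt p.1 p.2)‖ ^ 2 / UU ε (G (pt p.1 p.2)))) R :=
    continuous_fst.neg.continuousOn.mul ((cG1.norm.pow 2).div
      (continuous_UU.comp_continuousOn cG) (fun x _ => (UU_pos hε _).ne'))
  have cta : ContinuousOn (fun p : ℝ × ℝ => (-p.1) * a p.1 p.2) R :=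
    continuous_fst.neg.continuousOn.mul ca
  have ctb : ContinuousOn (fun p : ℝ × ℝ => (-p.1) * b p.1 p.2) R :=
    continuous_fst.neg.continuousOn.mul cb
  have hsub : uIcc (-T) 0 ×ˢ uIcc (0:ℝ) (2 * Real.pi) ⊆ R := by
    intro p hp
    have h1 := hp.1
    rw [uIcc_of_le (by linarith)] at h1
    exact h1.2
  -- sections
  have secT : ∀ {f : ℝ → ℝ → ℝ}, ContinuousOn (fun p : ℝ × ℝ => f p.1 p.2) R → ∀ θ,
      ContinuousOn (fun t => f t θ) (uIcc (-T) 0) := by
    intro f hf θ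
    apply hf.comp (f := fun t : ℝ => (t, θ)) (by fun_prop)
    intro t ht
    rw [uIcc_of_le (by linarith)] at ht
    exact ht.2
  have secθ : ∀ {f : ℝ → ℝ → ℝ}, ContinuousOn (fun p : ℝ × ℝ => f p.1 p.2) R → ∀ t, t ≤ 0 →
      Continuous (fun θ => f t θ) := by
    intro f hf t ht
    rw [← continuousOn_univ]
    apply hf.comp (f := fun θ : ℝ => (t, θ)) (by fun_prop)
    intro θ _
    exact ht
  -- inner integrals are integrable in θ
  have hint2 : ∀ {f : ℝ → ℝ → ℝ}, ContinuousOn (fun p : ℝ × ℝ => f p.1 p.2) R →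
      IntervalIntegrable (fun θ => ∫ t in (-T)..0, f t θ) volume 0 (2 * Real.pi) := by
    intro f hf
    have h1 : IntegrableOn (fun p : ℝ × ℝ => f p.1 p.2)
        (uIcc (-T) 0 ×ˢ uIcc (0:ℝ) (2 * Real.pi)) := by
      apply (hf.mono hsub).integrableOn_compact
      exact isCompact_uIcc.prod isCompact_uIcc
    have h2 : IntegrableOn (Function.uncurry (fun t θ => f t θ))
        (Ioc (-T) 0 ×ˢ Ioc (0:ℝ) (2 * Real.pi)) := by
      apply h1.mono_set
      apply Set.prod_mono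
      · rw [uIcc_of_le (by linarith)]; exact Ioc_subset_Icc_self
      · rw [uIcc_of_le (by linarith)]; exact Ioc_subset_Icc_self
    rw [intervalIntegrable_iff, uIoc_of_le (by linarith)]
    have h3 : Integrable (Function.uncurry (fun t θ => f t θ))
        ((volume.restrict (Ioc (-T) 0)).prod (volume.restrict (Ioc (0:ℝ) (2 * Real.pi)))) := by
      rw [Measure.prod_restrict]; exact h2
    have h4 := h3.integral_prod_right
    have e : ∀ θ, ∫ t in (-T)..0, f t θ = ∫ t in Ioc (-T) 0, f t θ := fun θ =>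
      intervalIntegral.integral_of_le (by linarith)
    simp only [e]
    exact h4
  -- (i)
  have hi : ∀ θ : ℝ, ∫ t in (-T)..0, (-t) * a t θ =
      UU ε (G (pt 0 θ)) - (T * D1 ε (G (pt (-T) θ)) (G1 (pt (-T) θ)) + UU ε (G (pt (-T) θ))) := by
    intro θ
    have hder : ∀ t ∈ uIcc (-T) 0, HasDerivAt
        (fun t => (-t) * D1 ε (G (pt t θ)) (G1 (pt t θ)) + UU ε (G (pt t θ))) ((-t) * a t θ) t := by
      intro t ht
      rw [uIcc_of_le (by linarith)] at ht
      have hre : (pt t θ).re < δ := by rw [pt_re]; linarith [ht.2]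
      have h1 : HasDerivAt (fun s => G (pt s θ)) (G1 (pt t θ)) t := by
        have := (hG _ hre).comp t (hasDerivAt_pt_left t θ)
        rw [mul_one] at this
        exact this
      have h2 : HasDerivAt (fun s => G1 (pt s θ)) (G2 (pt t θ)) t := by
        have := (hG1 _ hre).comp t (hasDerivAt_pt_left t θ)
        rw [mul_one] at this
        exact this
      have h3 := hasDerivAt_D1 hε (g1 := fun s => G1 (pt s θ)) h1 h2
      have h4 := hasDerivAt_UU hε h1
      have h5 := ((hasDerivAt_id t).neg.mul h3).add h4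
      refine h5.congr_deriv ?_
      simp only [Pi.neg_apply, id_eq]
      ring
    rw [intervalIntegral.integral_eq_sub_of_hasDerivAt hder
      ((secT (f := fun t θ => (-t) * a t θ) cta θ).intervalIntegrable)]
    simp
  -- (ii)
  have hii : ∀ t : ℝ, t ≤ 0 → ∫ θ in (0:ℝ)..(2 * Real.pi), (-t) * b t θ = 0 := by
    intro t ht
    rw [intervalIntegral.integral_const_mul]
    have hre : ∀ θ, (pt t θ).re < δ := fun θ => by rw [pt_re]; linarith
    have hder : ∀ θ ∈ uIcc (0:ℝ) (2 * Real.pi), HasDerivAt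
        (fun θ => D1 ε (G (pt t θ)) (I * G1 (pt t θ))) (b t θ) θ := by
      intro θ _
      have h1 : HasDerivAt (fun s => G (pt t s)) (I * G1 (pt t θ)) θ := by
        have := (hG _ (hre θ)).comp θ (hasDerivAt_pt_right t θ)
        rw [mul_comm] at this
        exact this
      have h2 : HasDerivAt (fun s => I * G1 (pt t s)) (I * (I * G2 (pt t θ))) θ := by
        have := (hG1 _ (hre θ)).comp θ (hasDerivAt_pt_right t θ)
        rw [mul_comm] at this
        exact this.const_mul I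
      exact hasDerivAt_D1 hε (g1 := fun s => I * G1 (pt t s)) h1 h2
    rw [intervalIntegral.integral_eq_sub_of_hasDerivAt hder
      ((secθ (f := b) cb t ht).intervalIntegrable _ _)]
    rw [hper t ht, hper1 t ht]
    simp
  -- (iii)
  have hiii : ∫ θ in (0:ℝ)..(2 * Real.pi), ∫ t in (-T)..0, (-t) * b t θ = 0 := by
    rw [← intervalIntegral_intervalIntegral_swap]
    · rw [intervalIntegral.integral_congr (g := fun _ => (0:ℝ))]
      · simp
      · intro t ht
        rw [uIcc_of_le (by linarith)] at ht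
        exact hii t ht.2
    · have h1 : IntegrableOn (fun p : ℝ × ℝ => (-p.1) * b p.1 p.2)
          (uIcc (-T) 0 ×ˢ uIcc (0:ℝ) (2 * Real.pi)) := by
        apply (ctb.mono hsub).integrableOn_compact
        exact isCompact_uIcc.prod isCompact_uIcc
      exact h1.mono_set (Set.prod_mono uIoc_subset_uIcc uIoc_subset_uIcc)
  -- (iv)
  have hiv : ∫ θ in (0:ℝ)..(2 * Real.pi), ∫ t in (-T)..0,
      (-t) * (‖G1 (pt t θ)‖ ^ 2 / UU ε (G (pt t θ))) ≤
      ∫ θ in (0:ℝ)..(2 * Real.pi), ((∫ t in (-T)..0, (-t) * a t θ) +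
        ∫ t in (-T)..0, (-t) * b t θ) := by
    apply intervalIntegral.integral_mono_on (by linarith) (hint2 (f := fun t θ =>
      (-t) * (‖G1 (pt t θ)‖ ^ 2 / UU ε (G (pt t θ)))) csq)
      ((hint2 (f := fun t θ => (-t) * a t θ) cta).add (hint2 (f := fun t θ => (-t) * b t θ) ctb))
    intro θ _
    rw [← intervalIntegral.integral_add
      ((secT (f := fun t θ => (-t) * a t θ) cta θ).intervalIntegrable)
      ((secT (f := fun t θ => (-t) * b t θ) ctb θ).intervalIntegrable)]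
    apply intervalIntegral.integral_mono_on (by linarith)
      ((secT (f := fun t θ => (-t) * (‖G1 (pt t θ)‖ ^ 2 / UU ε (G (pt t θ)))) csq θ).intervalIntegrable)
      (((secT (f := fun t θ => (-t) * a t θ) cta θ).intervalIntegrable).add
      ((secT (f := fun t θ => (-t) * b t θ) ctb θ).intervalIntegrable))
    intro t ht
    rw [← mul_add]
    apply mul_le_mul_of_nonneg_left _ (by linarith [ht.2])
    exact D2_add_ge hε _ _ _
  rw [intervalIntegral.integral_add (hint2 (f := fun t θ => (-t) * a t θ) cta)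
    (hint2 (f := fun t θ => (-t) * b t θ) ctb), hiii, add_zero] at hiv
  refine hiv.trans ?_
  -- bound of the boundary term
  have cU0 : Continuous (fun θ => UU ε (G (pt 0 θ))) :=
    secθ (f := fun t θ => UU ε (G (pt t θ))) (continuous_UU.comp_continuousOn cG) 0 le_rfl
  have h5 : ∫ θ in (0:ℝ)..(2 * Real.pi), ∫ t in (-T)..0, (-t) * a t θ ≤
      ∫ θ in (0:ℝ)..(2 * Real.pi), (UU ε (G (pt 0 θ)) + T * (M * Real.exp (-T))) := by
    apply intervalIntegral.integral_mono_on (by linarith) (hint2 (f := fun t θ => (-t) * a t θ) cta)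
      ((cU0.add continuous_const).intervalIntegrable _ _)
    intro θ _
    rw [hi θ]
    change _ ≤ UU ε (G (pt 0 θ)) + T * (M * Real.exp (-T))
    have h6 := abs_D1_le hε (G (pt (-T) θ)) (G1 (pt (-T) θ))
    have h7 := hM (pt (-T) θ) (by rw [pt_re]; linarith)
    rw [pt_re] at h7
    have h8 := (UU_pos hε (G (pt (-T) θ))).le
    have h9 := neg_abs_le (D1 ε (G (pt (-T) θ)) (G1 (pt (-T) θ)))
    nlinarith
  refine h5.trans ?_
  rw [intervalIntegral.integral_add (cU0.intervalIntegrable _ _)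
    (continuous_const.intervalIntegrable _ _), intervalIntegral.integral_const]
  simp only [smul_eq_mul]
  apply le_of_eq
  ring

end

end Pool.Agent.Lib.MP7ebef4.HS
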