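import Pool.Agent.Lib.MP_7ebef4_an.HS1

/-! Hardy–Stein, one dimensional part in the disc. -/

set_option autoImplicit false

open MeasureTheory Set Complex Filter Topology

namespace Pool.Agent.Lib.MP7ebef4.HS

noncomputable section

variable {ε : ℝ}

theorem main2 (hε : 0 < ε) {ρ : ℝ} (hρ : 1 < ρ) (F : ℂ → ℂ)
    (hF : DifferentiableOn ℂ F (Metric.ball 0 ρ)) :
    ∫⁻ t in Iio (0:ℝ), ∫⁻ θ in Ioc (0:ℝ) (2 * Real.pi),
      ENNReal.ofReal ((-t) * (‖deriv F (exp (pt t θ)) * exp (pt t θ)‖ ^ 2 / UU ε (F (exp (pt t θ)))))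
      ≤ ENNReal.ofReal (∫ θ in (0:ℝ)..(2 * Real.pi), UU ε (F (exp (pt 0 θ)))) := by
  have hpi := Real.pi_pos
  set δ := Real.log ρ with hδ
  have hδp : 0 < δ := Real.log_pos hρ
  have hBo : IsOpen (Metric.ball (0:ℂ) ρ) := Metric.isOpen_ball
  have hF1 : DifferentiableOn ℂ (deriv F) (Metric.ball 0 ρ) := hF.deriv hBo
  have hF2 : DifferentiableOn ℂ (deriv (deriv F)) (Metric.ball 0 ρ) := hF1.deriv hBo
  have hmem : ∀ w : ℂ, w.re < δ → exp w ∈ Metric.ball (0:ℂ) ρ := by
    intro w hw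
    rw [mem_ball_zero_iff, Complex.norm_exp]
    calc Real.exp w.re < Real.exp δ := Real.exp_lt_exp.2 hw
      _ = ρ := Real.exp_log (by linarith)
  set G : ℂ → ℂ := fun w => F (exp w) with hG
  set G1 : ℂ → ℂ := fun w => deriv F (exp w) * exp w with hG1
  set G2 : ℂ → ℂ := fun w => (deriv (deriv F) (exp w) * exp w) * exp w + deriv F (exp w) * exp w with hG2
  have dG : ∀ w : ℂ, w.re < δ → HasDerivAt G (G1 w) w := by
    intro w hw
    exact ((hF.differentiableAt (hBo.mem_nhds (hmem w hw))).hasDerivAt).comp w (Complex.hasDerivAt_exp w)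
  have dG1 : ∀ w : ℂ, w.re < δ → HasDerivAt G1 (G2 w) w := by
    intro w hw
    have h1 := ((hF1.differentiableAt (hBo.mem_nhds (hmem w hw))).hasDerivAt).comp w
      (Complex.hasDerivAt_exp w)
    exact h1.mul (Complex.hasDerivAt_exp w)
  have cG2 : ContinuousOn G2 {w | w.re < δ} := by
    have hc : ContinuousOn (fun w : ℂ => exp w) {w | w.re < δ} := Complex.continuous_exp.continuousOn
    have hm : MapsTo (fun w : ℂ => exp w) {w | w.re < δ} (Metric.ball (0:ℂ) ρ) := fun w hw => hmem w hw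
    have h1 := hF1.continuousOn.comp hc hm
    have h2 := hF2.continuousOn.comp hc hm
    exact ((h2.mul hc).mul hc).add (h1.mul hc)
  have hexp : ∀ t : ℝ, exp (pt t (2 * Real.pi)) = exp (pt t 0) := by
    intro t
    unfold pt
    rw [Complex.exp_add, Complex.exp_add]
    congr 1
    push_cast
    rw [Complex.exp_two_pi_mul_I]
    simp
  -- bound on F'
  obtain ⟨M, hM⟩ : ∃ M : ℝ, ∀ z ∈ Metric.closedBall (0:ℂ) 1, ‖deriv F z‖ ≤ M := by
    have hcomp : IsCompact (Metric.closedBall (0:ℂ) 1) := isCompact_closedBall 0 1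
    exact hcomp.exists_bound_of_continuousOn (hF1.continuousOn.mono
      (Metric.closedBall_subset_ball hρ))
  have hM1 : ∀ w : ℂ, w.re ≤ 0 → ‖G1 w‖ ≤ M * Real.exp w.re := by
    intro w hw
    simp only [hG1]
    rw [norm_mul, Complex.norm_exp]
    apply mul_le_mul_of_nonneg_right _ (Real.exp_pos _).le
    apply hM
    rw [mem_closedBall_zero_iff, Complex.norm_exp]
    exact Real.exp_le_one_iff.2 hw
  set C0 : ℝ := ∫ θ in (0:ℝ)..(2 * Real.pi), UU ε (G (pt 0 θ)) with hC0
  set f : ℝ → ℝ → ℝ := fun t θ => (-t) * (‖G1 (pt t θ)‖ ^ 2 / UU ε (G (pt t θ))) with hf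
  -- continuity
  set R : Set (ℝ × ℝ) := {p | p.1 ≤ 0} with hR
  have hmaps : MapsTo (fun p : ℝ × ℝ => pt p.1 p.2) R {w | w.re < δ} := by
    intro p hp
    have : p.1 ≤ 0 := hp
    change (pt p.1 p.2).re < δ
    rw [pt_re]; linarith
  have cf : ContinuousOn (fun p : ℝ × ℝ => f p.1 p.2) R := by
    have hGc : ContinuousOn G {w | w.re < δ} := fun w hw => (dG w hw).continuousAt.continuousWithinAt
    have hG1c : ContinuousOn G1 {w | w.re < δ} := fun w hw => (dG1 w hw).continuousAt.continuousWithinAt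
    exact continuous_fst.neg.continuousOn.mul
      (((hG1c.comp continuous_pt.continuousOn hmaps).norm.pow 2).div
      (continuous_UU.comp_continuousOn (hGc.comp continuous_pt.continuousOn hmaps))
      (fun x _ => (UU_pos hε _).ne'))
  have hfnn : ∀ t θ, t ≤ 0 → 0 ≤ f t θ := by
    intro t θ ht
    have := UU_pos hε (G (pt t θ))
    have h2 : 0 ≤ -t := by linarith
    simp only [hf]
    positivity
  -- finite T
  have hT : ∀ T : ℝ, 0 ≤ T → ∫⁻ t in Ioc (-T) 0, ∫⁻ θ in Ioc (0:ℝ) (2 * Real.pi),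
      ENNReal.ofReal (f t θ) ≤ ENNReal.ofReal (C0 + T * (2 * Real.pi * (M * Real.exp (-T)))) := by
    intro T hT
    have h1 := main1 hε hδp G G1 G2 dG dG1 cG2 (fun t _ => by simp only [hG]; rw [hexp])
      (fun t _ => by simp only [hG1]; rw [hexp]) M hM1 T hT
    have hint : Integrable (fun p : ℝ × ℝ => f p.1 p.2)
        ((volume.restrict (Ioc (-T) 0)).prod (volume.restrict (Ioc (0:ℝ) (2 * Real.pi)))) := by
      rw [Measure.prod_restrict]
      have h2 : IntegrableOn (fun p : ℝ × ℝ => f p.1 p.2)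
          (Icc (-T) 0 ×ˢ Icc (0:ℝ) (2 * Real.pi)) := by
        apply ContinuousOn.integrableOn_compact (isCompact_Icc.prod isCompact_Icc)
        apply cf.mono
        intro p hp
        exact hp.1.2
      exact h2.mono_set (Set.prod_mono Ioc_subset_Icc_self Ioc_subset_Icc_self)
    have h3 := integral_prod_symm _ hint
    have h4 : ∫ θ in Ioc (0:ℝ) (2 * Real.pi), ∫ t in Ioc (-T) 0, f t θ =
        ∫ θ in (0:ℝ)..(2 * Real.pi), ∫ t in (-T)..0, f t θ := by
      rw [intervalIntegral.integral_of_le (by linarith)]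
      simp only [intervalIntegral.integral_of_le (show -T ≤ 0 by linarith)]
    have h5 : ∫⁻ t in Ioc (-T) 0, ∫⁻ θ in Ioc (0:ℝ) (2 * Real.pi), ENNReal.ofReal (f t θ) =
        ENNReal.ofReal (∫ p, f p.1 p.2
          ∂((volume.restrict (Ioc (-T) 0)).prod (volume.restrict (Ioc (0:ℝ) (2 * Real.pi))))) := by
      rw [ofReal_integral_eq_lintegral_ofReal hint]
      · rw [lintegral_prod _ hint.aestronglyMeasurable.aemeasurable.ennreal_ofReal]
      · have : ∀ᵐ p ∂((volume.restrict (Ioc (-T) 0)).prod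
            (volume.restrict (Ioc (0:ℝ) (2 * Real.pi)))), p ∈ Ioc (-T) 0 ×ˢ Ioc (0:ℝ) (2 * Real.pi) := by
          rw [Measure.prod_restrict]
          exact ae_restrict_mem (measurableSet_Ioc.prod measurableSet_Ioc)
        filter_upwards [this] with p hp
        exact hfnn _ _ hp.1.2
    rw [h5, h3, h4]
    exact ENNReal.ofReal_le_ofReal h1
  -- each k
  have hk : ∀ k : ℕ, ∫⁻ t in Ioc (-(k:ℝ)) 0, ∫⁻ θ in Ioc (0:ℝ) (2 * Real.pi),
      ENNReal.ofReal (f t θ) ≤ ENNReal.ofReal C0 := by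
    intro k
    have h1 : Tendsto (fun T : ℝ => ENNReal.ofReal (C0 + T * (2 * Real.pi * (M * Real.exp (-T)))))
        atTop (𝓝 (ENNReal.ofReal C0)) := by
      apply ENNReal.tendsto_ofReal
      have h2 := Real.tendsto_pow_mul_exp_neg_atTop_nhds_zero 1
      have h3 := (h2.const_mul (2 * Real.pi * M)).const_add C0
      simp only [mul_zero, add_zero, pow_one] at h3
      refine h3.congr ?_
      intro T
      ring
    refine ge_of_tendsto h1 ?_
    filter_upwards [eventually_ge_atTop (max (k:ℝ) 0)] with T hTk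
    refine le_trans ?_ (hT T (le_trans (le_max_right _ _) hTk))
    apply lintegral_mono_set
    apply Ioc_subset_Ioc_left
    have := le_trans (le_max_left _ _) hTk
    linarith
  calc ∫⁻ t in Iio (0:ℝ), ∫⁻ θ in Ioc (0:ℝ) (2 * Real.pi), ENNReal.ofReal (f t θ)
      ≤ ∫⁻ t in ⋃ k : ℕ, Ioc (-(k:ℝ)) 0, ∫⁻ θ in Ioc (0:ℝ) (2 * Real.pi),
        ENNReal.ofReal (f t θ) := by
        apply lintegral_mono_set
        intro t ht
        obtain ⟨k, hk⟩ := exists_nat_gt (-t)
        rw [mem_iUnion]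
        exact ⟨k, by linarith, le_of_lt ht⟩
    _ = ⨆ k : ℕ, ∫⁻ t in Ioc (-(k:ℝ)) 0, ∫⁻ θ in Ioc (0:ℝ) (2 * Real.pi),
        ENNReal.ofReal (f t θ) := by
        apply setLIntegral_iUnion_of_directed
        apply Monotone.directed_le
        intro k l hkl
        apply Ioc_subset_Ioc_left
        have : (k:ℝ) ≤ l := by exact_mod_cast hkl
        linarith
    _ ≤ ENNReal.ofReal C0 := iSup_le hk

end

end Pool.Agent.Lib.MP7ebef4.HS
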