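import Pool.Agent.Lib.MP_7ebef4_an.Meas1
import Pool.Agent.Lib.MP_7ebef4_an.Repr
import Pool.Agent.Lib.MP_7ebef4_an.KerInt

/-! Littlewood–Paley inequality `H2 g ≤ C AN g` (Parseval on slices). -/

set_option autoImplicit false

open MeasureTheory Set Metric

namespace Pool.Agent.Lib.MP7ebef4

noncomputable section

variable {n : ℕ}

namespace LPA

open ReprAux

/-- Parseval on a circle, real form -/
theorem hasSum_circle_sq {a : ℕ → ℂ} {G : ℂ → ℂ} {r : ℝ}
    (hG : ∀ θ : ℝ, HasSum (fun j => a j * (Complex.exp (θ * Complex.I) * r) ^ j)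
      (G (Complex.exp (θ * Complex.I) * r))) :
    HasSum (fun j => (2 * Real.pi) * (‖a j‖ ^ 2 * r ^ (2 * j)))
      (∫ θ in Ioc 0 (2 * Real.pi), ‖G (Complex.exp (θ * Complex.I) * r)‖ ^ 2) := by
  have hconj : ∀ θ : ℝ, (starRingEnd ℂ) (Complex.exp (-(θ * Complex.I)) * r) =
      Complex.exp (θ * Complex.I) * r := by
    intro θ
    rw [map_mul, Complex.conj_ofReal, ← Complex.exp_conj, map_neg, map_mul, Complex.conj_ofReal,
      Complex.conj_I]
    congr 2
    ring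
  have h := hasSum_circle (a := a) (b := fun j => (starRingEnd ℂ) (a j)) (G := G)
    (K := fun x => (starRingEnd ℂ) (G ((starRingEnd ℂ) x))) (l := r) (m := r) hG (by
      intro θ
      rw [hconj θ]
      have h1 := (hG θ).map (starRingEnd ℂ).toAddMonoidHom Complex.continuous_conj
      refine HasSum.congr_fun h1 ?_
      intro j
      change _ = (starRingEnd ℂ) (a j * (Complex.exp (θ * Complex.I) * r) ^ j)
      rw [map_mul, map_pow, ← hconj θ, Complex.conj_conj])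
  rw [← Complex.hasSum_ofReal]
  have e1 : ((∫ θ in Ioc 0 (2 * Real.pi), ‖G (Complex.exp (θ * Complex.I) * r)‖ ^ 2 : ℝ) : ℂ) =
      ∫ θ in Ioc 0 (2 * Real.pi), G (Complex.exp (θ * Complex.I) * r) *
        (fun x => (starRingEnd ℂ) (G ((starRingEnd ℂ) x))) (Complex.exp (-(θ * Complex.I)) * r) := by
    rw [← integral_complex_ofReal]
    apply integral_congr_ae
    apply Filter.Eventually.of_forall
    intro θ
    simp only
    rw [hconj θ, Complex.mul_conj, Complex.normSq_eq_norm_sq]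
  rw [e1]
  refine h.congr_fun ?_
  intro j
  rw [Complex.mul_conj, Complex.normSq_eq_norm_sq]
  push_cast
  rw [pow_mul]
  ring

/-- Parseval on a circle, `ENNReal` form -/
theorem lintegral_circle_sq {a : ℕ → ℂ} {G : ℂ → ℂ} {r : ℝ} (hr : 0 ≤ r)
    (hGc : Continuous (fun θ : ℝ => G (Complex.exp (θ * Complex.I) * r)))
    (hG : ∀ θ : ℝ, HasSum (fun j => a j * (Complex.exp (θ * Complex.I) * r) ^ j)
      (G (Complex.exp (θ * Complex.I) * r))) :
    ∫⁻ θ in Ioc 0 (2 * Real.pi), ‖G (Complex.exp (θ * Complex.I) * r)‖ₑ ^ (2:ℕ) =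
      ∑' j, ENNReal.ofReal ((2 * Real.pi) * (‖a j‖ ^ 2 * r ^ (2 * j))) := by
  have h := hasSum_circle_sq hG
  rw [← ENNReal.ofReal_tsum_of_nonneg (fun j => by positivity) h.summable, h.tsum_eq,
    ofReal_integral_eq_lintegral_ofReal]
  · apply lintegral_congr
    intro θ
    rw [ENNReal.ofReal_pow (norm_nonneg _), ofReal_norm]
  · exact ((hGc.norm.pow 2).integrableOn_Ioc)
  · apply Filter.Eventually.of_forall
    intro θ
    positivity

theorem lint_weight (m : ℕ) (hm : 0 < m) :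
    ∫⁻ ρ in Ioo (0:ℝ) 1, ENNReal.ofReal (2 * ρ ^ (2 * m - 1) * (1 - ρ ^ 2)) =
      ENNReal.ofReal (1 / ((m : ℝ) * (m + 1))) := by
  have hm' : (0:ℝ) < m := by exact_mod_cast hm
  rw [restrict_Ioo_eq_restrict_Ioc, ← ofReal_integral_eq_lintegral_ofReal]
  · rw [← intervalIntegral.integral_of_le zero_le_one]
    congr 1
    have h1 : ∀ y : ℝ, HasDerivAt (fun y : ℝ => y ^ (2 * m) / m - y ^ (2 * m + 2) / (m + 1))
        (2 * y ^ (2 * m - 1) * (1 - y ^ 2)) y := by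
      intro y
      have ha := (hasDerivAt_pow (2 * m) y).div_const (m : ℝ)
      have hb := (hasDerivAt_pow (2 * m + 2) y).div_const ((m : ℝ) + 1)
      refine (ha.sub hb).congr_deriv ?_
      have e1 : 2 * m + 2 - 1 = (2 * m - 1) + 2 := by omega
      rw [e1, pow_add]
      push_cast
      field_simp
    rw [intervalIntegral.integral_eq_sub_of_hasDerivAt (fun y _ => h1 y)]
    · rw [one_pow, one_pow, zero_pow (by omega), zero_pow (by omega)]
      field_simp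
      ring
    · apply Continuous.intervalIntegrable
      fun_prop
  · apply Continuous.integrableOn_Ioc
    fun_prop
  · filter_upwards [ae_restrict_mem measurableSet_Ioc] with y hy
    have := hy.1
    have := hy.2
    have h2 : 0 ≤ 1 - y ^ 2 := by nlinarith
    positivity

/-- the one-dimensional inequality -/
theorem slice_ineq (hn : 0 < n) {a : ℕ → ℂ} {G DG : ℂ → ℂ} (hGc : ContinuousOn G (ball 0 1))
    (hDGc : ContinuousOn DG (ball 0 1))
    (hG : ∀ l : ℂ, ‖l‖ < 1 → HasSum (fun j => a j * l ^ j) (G l))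
    (hDG : ∀ l : ℂ, ‖l‖ < 1 → HasSum (fun j : ℕ => (((j : ℂ) + ((NE n : ℕ) : ℂ)) * a j) * l ^ j) (DG l))
    {r : ℝ} (hr0 : 0 ≤ r) (hr1 : r < 1) :
    ∫⁻ θ in Ioc 0 (2 * Real.pi), ‖G (Complex.exp (θ * Complex.I) * r)‖ₑ ^ (2:ℕ) ≤
      ∫⁻ ρ in Ioo (0:ℝ) 1, ENNReal.ofReal (2 * n * ρ ^ (2 * n - 1) * (1 - ρ ^ 2)) *
        ∫⁻ θ in Ioc 0 (2 * Real.pi), ‖DG (Complex.exp (θ * Complex.I) * ρ)‖ₑ ^ (2:ℕ) := by
  have hmem : ∀ (θ ρ : ℝ), 0 ≤ ρ → ρ < 1 → ‖Complex.exp (θ * Complex.I) * ρ‖ < 1 := by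
    intro θ ρ h0 h1
    rw [norm_mul, norm_expI, one_mul, Complex.norm_real, Real.norm_of_nonneg h0]
    exact h1
  have hcirc : ∀ ρ : ℝ, Continuous (fun θ : ℝ => Complex.exp (θ * Complex.I) * (ρ : ℂ)) := by
    intro ρ; fun_prop
  have hn' : (1:ℝ) ≤ n := by exact_mod_cast hn
  rw [lintegral_circle_sq hr0 (hGc.comp_continuous (hcirc r) (fun θ => by
    rw [mem_ball_zero_iff]; exact hmem θ r hr0 hr1)) (fun θ => hG _ (hmem θ r hr0 hr1))]
  have h1 : ∫⁻ ρ in Ioo (0:ℝ) 1, ENNReal.ofReal (2 * n * ρ ^ (2 * n - 1) * (1 - ρ ^ 2)) *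
        ∫⁻ θ in Ioc 0 (2 * Real.pi), ‖DG (Complex.exp (θ * Complex.I) * ρ)‖ₑ ^ (2:ℕ) =
      ∫⁻ ρ in Ioo (0:ℝ) 1, ∑' j : ℕ, ENNReal.ofReal (2 * Real.pi * n * ‖((j : ℂ) + ((NE n : ℕ) : ℂ)) * a j‖ ^ 2) *
        ENNReal.ofReal (2 * ρ ^ (2 * (n + j) - 1) * (1 - ρ ^ 2)) := by
    apply setLIntegral_congr_fun measurableSet_Ioo
    intro ρ hρ
    simp only
    rw [lintegral_circle_sq hρ.1.le (hDGc.comp_continuous (hcirc ρ) (fun θ => by
      rw [mem_ball_zero_iff]; exact hmem θ ρ hρ.1.le hρ.2)) (fun θ => hDG _ (hmem θ ρ hρ.1.le hρ.2)),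
      ← ENNReal.tsum_mul_left]
    apply tsum_congr
    intro j
    have hρ0 := hρ.1
    have h2 : 0 ≤ 1 - ρ ^ 2 := by nlinarith [hρ.1, hρ.2]
    rw [← ENNReal.ofReal_mul (by positivity), ← ENNReal.ofReal_mul (by positivity)]
    congr 1
    have e1 : 2 * (n + j) - 1 = (2 * n - 1) + 2 * j := by omega
    rw [e1, pow_add]
    ring
  rw [h1, lintegral_tsum (fun j => by
    apply Measurable.aemeasurable
    apply Measurable.const_mul
    fun_prop)]
  apply ENNReal.tsum_le_tsum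
  intro j
  rw [lintegral_const_mul _ (by fun_prop), lint_weight (n + j) (by omega),
    ← ENNReal.ofReal_mul (by positivity)]
  apply ENNReal.ofReal_le_ofReal
  rw [norm_mul, mul_pow]
  have h3 : ‖(j : ℂ) + ((NE n : ℕ) : ℂ)‖ = (j : ℝ) + (NE n : ℕ) := by
    rw [← Nat.cast_add, Complex.norm_natCast]; push_cast; rfl
  rw [h3]
  have h4 : (n : ℝ) + 1 ≤ (NE n : ℕ) := by
    have : n + 1 ≤ NE n := by unfold NE; have := ReprAux.ME_pos n; omega
    exact_mod_cast this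
  have h5 : ((n : ℝ) + j) * (n + j + 1) ≤ ((j : ℝ) + (NE n : ℕ)) ^ 2 := by
    have hj : (0:ℝ) ≤ j := Nat.cast_nonneg j
    nlinarith
  have h6 : r ^ (2 * j) ≤ 1 := pow_le_one₀ hr0 hr1.le
  have h7 : (1:ℝ) ≤ n * ((j : ℝ) + (NE n : ℕ)) ^ 2 * (1 / (((n + j : ℕ) : ℝ) * ((n + j : ℕ) + 1))) := by
    push_cast
    rw [mul_one_div, le_div_iff₀ (by positivity), one_mul]
    nlinarith
  calc 2 * Real.pi * (‖a j‖ ^ 2 * r ^ (2 * j)) ≤ 2 * Real.pi * (‖a j‖ ^ 2 * 1) := by gcongr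
    _ = 2 * Real.pi * ‖a j‖ ^ 2 * 1 := by ring
    _ ≤ 2 * Real.pi * ‖a j‖ ^ 2 * (n * ((j : ℝ) + (NE n : ℕ)) ^ 2 *
        (1 / (((n + j : ℕ) : ℝ) * ((n + j : ℕ) + 1)))) := by gcongr
    _ = _ := by ring

/-- slices: Taylor expansions -/
theorem slice_hasSum (g : E n → ℂ) (hg : DifferentiableOn ℂ g (B n)) (e : E n) (he : ‖e‖ = 1) :
    DifferentiableOn ℂ (fun t : ℂ => g (t • e)) (ball 0 1) ∧
    (∀ l : ℂ, ‖l‖ < 1 → HasSum (fun j : ℕ => tc (fun t : ℂ => g (t • e)) j * l ^ j) (g (l • e))) ∧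
    (∀ l : ℂ, ‖l‖ < 1 → HasSum (fun j : ℕ => (((j : ℂ) + ((NE n : ℕ) : ℂ)) *
      tc (fun t : ℂ => g (t • e)) j) * l ^ j) (Dop g (l • e))) := by
  set φ : ℂ → ℂ := fun t => g (t • e) with hφ
  have hφd : DifferentiableOn ℂ φ (ball 0 1) := by
    intro l hl
    rw [mem_ball_zero_iff] at hl
    exact (fderiv_line g hg e he l hl).differentiableAt.differentiableWithinAt
  refine ⟨hφd, fun l hl => hasSum_tc hφd hl, fun l hl => ?_⟩
  have h1 := hasSum_tc_deriv hφd (l := l) (by simpa using hl)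
  have h2 := (hasSum_tc hφd (l := l) (by simpa using hl)).mul_left ((NE n : ℕ) : ℂ)
  have h3 := h1.add h2
  have h4 : Dop g (l • e) = l * deriv φ l + ((NE n : ℕ) : ℂ) * φ l := by
    unfold Dop
    rw [(fderiv_line g hg e he l hl).deriv, map_smul, smul_eq_mul, smul_eq_mul]
  rw [h4]
  refine h3.congr_fun ?_
  intro j
  ring

/-- integrate the circle mean over the sphere -/
theorem lintegral_circle_sig (ψ : E n → ENNReal) (hψ : Measurable ψ) (r : ℝ) :
    ∫⁻ ζ, (∫⁻ θ in Ioc 0 (2 * Real.pi), ψ ((Complex.exp (θ * Complex.I) * (r : ℂ)) • ζ)) ∂(sig n) =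
      ENNReal.ofReal (2 * Real.pi) * ∫⁻ ζ, ψ (r • ζ) ∂(sig n) := by
  have : SFinite (sig n) := by unfold sig; infer_instance
  rw [lintegral_lintegral_swap]
  · have h1 : ∀ θ : ℝ, ∫⁻ ζ, ψ ((Complex.exp (θ * Complex.I) * (r : ℂ)) • ζ) ∂(sig n) =
        ∫⁻ ζ, ψ (r • ζ) ∂(sig n) := by
      intro θ
      have h2 := lintegral_sig_rot (fun ζ : E n => ψ (r • ζ)) (hψ.comp (measurable_const_smul r))
        (Complex.exp (θ * Complex.I)) (norm_expI θ)
      rw [← h2]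
      apply lintegral_congr
      intro ζ
      congr 1
      rw [mul_comm, mul_smul]
      rfl
    simp_rw [h1]
    rw [lintegral_const, Measure.restrict_apply_univ, Real.volume_Ioc, sub_zero, mul_comm]
  · apply Measurable.aemeasurable
    apply hψ.comp
    have hc : Continuous (fun p : E n × ℝ => (Complex.exp ((p.2 : ℂ) * Complex.I) * (r : ℂ)) • p.1) := by
      have h2 : Continuous (fun a : E n × ℝ => Complex.exp ((a.2 : ℂ) * Complex.I) * (r : ℂ)) := by fun_prop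
      exact h2.smul continuous_fst
    exact hc.measurable

theorem measurable_indicator {g : E n → ℂ} (hg : ContinuousOn g (B n)) :
    Measurable ((B n).indicator g) := by
  classical
  rw [← piecewise_eq_indicator]
  exact hg.measurable_piecewise continuousOn_const measurableSet_ball

end LPA

open LPA in
/-- Littlewood–Paley -/
theorem lp (n : ℕ) (hn : 0 < n) : ∃ C : ℝ, 0 < C ∧ ∀ g : E n → ℂ, DifferentiableOn ℂ g (B n) →
    H2 g ≤ ENNReal.ofReal C * AN g := by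
  refine ⟨1, one_pos, fun g hg => ?_⟩
  rw [ENNReal.ofReal_one, one_mul]
  have hBo : IsOpen (B n) := isOpen_ball
  have hDh : DifferentiableOn ℂ (Dop g) (B n) := differentiableOn_Dop hBo hg
  have : SFinite (sig n) := by unfold sig; infer_instance
  set g' : E n → ℂ := (B n).indicator g with hg'
  set D' : E n → ℂ := (B n).indicator (Dop g) with hD'
  have hg'm : Measurable g' := measurable_indicator hg.continuousOn
  have hD'm : Measurable D' := measurable_indicator hDh.continuousOn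
  have hsph : ∀ᵐ ζ ∂(sig n), ‖ζ‖ = 1 := by
    have h1 := sig_sph n hn
    rw [← mem_ae_iff] at h1
    filter_upwards [h1] with ζ hζ
    exact mem_sphere_zero_iff_norm.1 hζ
  have hAN : AN g = ∫⁻ z in B n, ENNReal.ofReal (dl z) * ‖D' z‖ₑ ^ (2:ℕ) := by
    have h1 : AN g = ∫⁻ z, ENNReal.ofReal (dl z ^ 2) * ‖D' z‖ₑ ^ (2:ℕ) ∂(lam n) := by
      unfold AN
      apply lintegral_congr_ae
      filter_upwards [KI.lam_ae_mem n] with z hz
      have hd := dl_pos hz
      rw [hD', indicator_of_mem hz]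
      unfold Aop
      rw [enorm_smul, mul_pow, ← ofReal_norm ((dl z : ℝ) : ℂ), Complex.norm_real,
        Real.norm_of_nonneg hd.le, ENNReal.ofReal_pow hd.le]
    rw [h1, KI.lintegral_lam _ (by
      have := (KI.measurable_dl (n := n)).pow_const 2
      exact this.ennreal_ofReal.mul (hD'm.enorm.pow_const 2))]
    apply setLIntegral_congr_fun measurableSet_ball
    intro z hz
    have hd := dl_pos hz
    simp only
    rw [← mul_assoc, ← ENNReal.ofReal_mul (inv_pos.2 hd).le]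
    congr 2
    field_simp
  unfold H2
  apply iSup₂_le
  intro r hr
  -- pointwise inequality
  have hpt : ∀ᵐ ζ ∂(sig n), ∫⁻ θ in Ioc 0 (2 * Real.pi), ‖g' ((Complex.exp (θ * Complex.I) * (r : ℂ)) • ζ)‖ₑ ^ (2:ℕ) ≤
      ∫⁻ ρ in Ioo (0:ℝ) 1, ENNReal.ofReal (2 * n * ρ ^ (2 * n - 1) * (1 - ρ ^ 2)) *
        ∫⁻ θ in Ioc 0 (2 * Real.pi), ‖D' ((Complex.exp (θ * Complex.I) * (ρ : ℂ)) • ζ)‖ₑ ^ (2:ℕ) := by
    filter_upwards [hsph] with ζ hζ
    obtain ⟨h1, h2, h3⟩ := slice_hasSum g hg ζ hζ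
    have hmemB : ∀ l : ℂ, ‖l‖ < 1 → l • ζ ∈ B n := by
      intro l hl
      rw [mem_B, norm_smul, hζ, mul_one]; exact hl
    have hDc : ContinuousOn (fun l : ℂ => Dop g (l • ζ)) (ball 0 1) := by
      apply hDh.continuousOn.comp
      · exact (continuous_id.smul continuous_const).continuousOn
      · intro l hl
        exact hmemB l (mem_ball_zero_iff.1 hl)
    have h4 := slice_ineq hn (G := fun l => g (l • ζ)) (DG := fun l => Dop g (l • ζ))
      h1.continuousOn hDc h2 h3 hr.1.le hr.2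
    have hmem : ∀ (θ ρ : ℝ), 0 ≤ ρ → ρ < 1 → ‖Complex.exp (θ * Complex.I) * ρ‖ < 1 := by
      intro θ ρ h0 h1
      rw [norm_mul, ReprAux.norm_expI, one_mul, Complex.norm_real, Real.norm_of_nonneg h0]
      exact h1
    have e1 : ∀ θ : ℝ, g' ((Complex.exp (θ * Complex.I) * (r : ℂ)) • ζ) =
        g ((Complex.exp (θ * Complex.I) * (r : ℂ)) • ζ) := fun θ => by
      rw [hg', indicator_of_mem (hmemB _ (hmem θ r hr.1.le hr.2))]
    simp_rw [e1]
    refine h4.trans (le_of_eq ?_)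
    apply setLIntegral_congr_fun measurableSet_Ioo
    intro ρ hρ
    have e2 : ∀ θ : ℝ, D' ((Complex.exp (θ * Complex.I) * (ρ : ℂ)) • ζ) =
        Dop g ((Complex.exp (θ * Complex.I) * (ρ : ℂ)) • ζ) := fun θ => by
      rw [hD', indicator_of_mem (hmemB _ (hmem θ ρ hρ.1.le hρ.2))]
    simp_rw [e2]
  have hint := lintegral_mono_ae hpt
  rw [lintegral_circle_sig (fun z => ‖g' z‖ₑ ^ (2:ℕ)) (hg'm.enorm.pow_const 2) r] at hint
  have hrhs : ∫⁻ ζ, (∫⁻ ρ in Ioo (0:ℝ) 1, ENNReal.ofReal (2 * n * ρ ^ (2 * n - 1) * (1 - ρ ^ 2)) *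
        ∫⁻ θ in Ioc 0 (2 * Real.pi), ‖D' ((Complex.exp (θ * Complex.I) * (ρ : ℂ)) • ζ)‖ₑ ^ (2:ℕ)) ∂(sig n) =
      ENNReal.ofReal (2 * Real.pi) * AN g := by
    rw [lintegral_lintegral_swap]
    · have h1 : ∀ ρ : ℝ, ∫⁻ ζ, (ENNReal.ofReal (2 * n * ρ ^ (2 * n - 1) * (1 - ρ ^ 2)) *
          ∫⁻ θ in Ioc 0 (2 * Real.pi), ‖D' ((Complex.exp (θ * Complex.I) * (ρ : ℂ)) • ζ)‖ₑ ^ (2:ℕ)) ∂(sig n) =
          ENNReal.ofReal (2 * Real.pi) * (ENNReal.ofReal (2 * n * ρ ^ (2 * n - 1) * (1 - ρ ^ 2)) *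
            ∫⁻ ζ, ‖D' (ρ • ζ)‖ₑ ^ (2:ℕ) ∂(sig n)) := by
        intro ρ
        rw [lintegral_const_mul' _ _ ENNReal.ofReal_ne_top,
          lintegral_circle_sig (fun z => ‖D' z‖ₑ ^ (2:ℕ)) (hD'm.enorm.pow_const 2) ρ]
        ring
      simp_rw [h1]
      rw [lintegral_const_mul' _ _ ENNReal.ofReal_ne_top, hAN, polar hn _ (by
        exact (KI.measurable_dl.ennreal_ofReal).mul (hD'm.enorm.pow_const 2))]
      congr 1
      apply setLIntegral_congr_fun measurableSet_Ioo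
      intro ρ hρ
      simp only
      have hρ0 := hρ.1
      have h2 : ∫⁻ ζ, ENNReal.ofReal (dl (ρ • ζ)) * ‖D' (ρ • ζ)‖ₑ ^ (2:ℕ) ∂(sig n) =
          ENNReal.ofReal (1 - ρ ^ 2) * ∫⁻ ζ, ‖D' (ρ • ζ)‖ₑ ^ (2:ℕ) ∂(sig n) := by
        rw [← lintegral_const_mul' _ _ ENNReal.ofReal_ne_top]
        apply lintegral_congr_ae
        filter_upwards [hsph] with ζ hζ
        unfold dl
        rw [norm_smul, hζ, mul_one, Real.norm_of_nonneg hρ.1.le]
      rw [h2, ← mul_assoc, ← ENNReal.ofReal_mul (by positivity)]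
    · apply Measurable.aemeasurable
      apply Measurable.mul
      · fun_prop
      · have hc : Continuous (fun p : (E n × ℝ) × ℝ =>
            (Complex.exp ((p.2 : ℂ) * Complex.I) * (p.1.2 : ℂ)) • p.1.1) := by
          have h2 : Continuous (fun a : (E n × ℝ) × ℝ =>
            Complex.exp ((a.2 : ℂ) * Complex.I) * (a.1.2 : ℂ)) := by fun_prop
          exact h2.smul (continuous_fst.fst)
        have hm : Measurable (fun p : (E n × ℝ) × ℝ =>
            ‖D' ((Complex.exp ((p.2 : ℂ) * Complex.I) * (p.1.2 : ℂ)) • p.1.1)‖ₑ ^ (2:ℕ)) :=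
          (hD'm.comp hc.measurable).enorm.pow_const 2
        exact hm.lintegral_prod_right'
  rw [hrhs] at hint
  have h2pi : ENNReal.ofReal (2 * Real.pi) ≠ 0 := by
    rw [Ne, ENNReal.ofReal_eq_zero, not_le]; positivity
  have hfin := (ENNReal.mul_le_mul_iff_right h2pi ENNReal.ofReal_ne_top).1 hint
  refine le_trans (le_of_eq ?_) hfin
  apply lintegral_congr_ae
  filter_upwards [hsph] with ζ hζ
  have : r • ζ ∈ B n := by
    rw [mem_B, norm_smul, hζ, mul_one, Real.norm_of_nonneg hr.1.le]; exact hr.2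
  rw [hg', indicator_of_mem this]

end

end Pool.Agent.Lib.MP7ebef4
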