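import Pool.Agent.Lib.MP_7ebef4_an.HS2
import Pool.Agent.Lib.MP_7ebef4_an.LP
import Pool.Agent.Lib.MP_7ebef4_an.TreeBasic

/-! Hardy–Stein inequality on the ball. -/

set_option autoImplicit false

open MeasureTheory Set Metric

namespace Pool.Agent.Lib.MP7ebef4

noncomputable section

variable {n : ℕ}

namespace HS

theorem UU_eq (ε : ℝ) (z : ℂ) : UU ε z = Real.sqrt (‖z‖ ^ 2 + ε ^ 2) := by
  unfold UU; rw [normSq_le]

/-- the density -/
def dens (ε : ℝ) (f : E n → ℂ) (z : E n) : ℝ :=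
  ‖fderiv ℂ f z z‖ ^ 2 / UU ε (f z) * dl z

theorem exp_pt (t θ : ℝ) : Complex.exp (pt t θ) =
    Complex.exp (θ * Complex.I) * ((Real.exp t : ℝ) : ℂ) := by
  unfold pt
  rw [Complex.exp_add, mul_comm, Complex.ofReal_exp]

theorem exp_weight (hn : 0 < n) {t : ℝ} (ht : t < 0) :
    Real.exp t * (2 * n * (Real.exp t) ^ (2 * n - 1)) * (1 - (Real.exp t) ^ 2) ≤ 4 * n * (-t) := by
  have h0 := Real.exp_pos t
  have h1 : Real.exp t ≤ 1 := Real.exp_le_one_iff.2 ht.le
  have h2 : (Real.exp t) ^ (2 * n - 1) ≤ 1 := pow_le_one₀ h0.le h1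
  have h3 : 1 - (Real.exp t) ^ 2 ≤ -2 * t := by
    rw [← Real.exp_nat_mul]
    have := Real.add_one_le_exp ((2:ℕ) * t)
    push_cast at this ⊢
    linarith
  have h4 : 0 ≤ 1 - (Real.exp t) ^ 2 := by
    have : (Real.exp t) ^ 2 ≤ 1 := pow_le_one₀ h0.le h1
    linarith
  have hn' : (0:ℝ) < n := by exact_mod_cast hn
  have h5 : Real.exp t * (2 * n * (Real.exp t) ^ (2 * n - 1)) ≤ 1 * (2 * n * 1) := by
    gcongr
  calc Real.exp t * (2 * n * (Real.exp t) ^ (2 * n - 1)) * (1 - (Real.exp t) ^ 2)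
      ≤ (1 * (2 * n * 1)) * (-2 * t) := by
        apply mul_le_mul h5 h3 h4 (by positivity)
    _ = 4 * n * (-t) := by ring

/-- slice inequality -/
theorem slice {ε : ℝ} (hn : 0 < n) (hε : 0 < ε) {ρ : ℝ} (hρ : 1 < ρ) (f : E n → ℂ)
    (hf : DifferentiableOn ℂ f (ball 0 ρ)) {ζ : E n} (hζ : ‖ζ‖ = 1) (ψ : E n → ENNReal)
    (hψ : ∀ z ∈ B n, ψ z = ENNReal.ofReal (dens ε f z)) :
    ∫⁻ r in Ioo (0:ℝ) 1, ENNReal.ofReal (2 * n * r ^ (2 * n - 1)) *
      ∫⁻ θ in Ioc (0:ℝ) (2 * Real.pi), ψ ((Complex.exp (θ * Complex.I) * (r : ℂ)) • ζ) ≤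
    ENNReal.ofReal (4 * n) * ENNReal.ofReal (∫ θ in (0:ℝ)..(2 * Real.pi),
      UU ε (f (Complex.exp (θ * Complex.I) • ζ))) := by
  have hBo : IsOpen (ball (0:E n) ρ) := isOpen_ball
  set F : ℂ → ℂ := fun l => f (l • ζ) with hF
  have hmem : ∀ l : ℂ, ‖l‖ < ρ → l • ζ ∈ ball (0:E n) ρ := by
    intro l hl
    rw [mem_ball_zero_iff, norm_smul, hζ, mul_one]; exact hl
  have hder : ∀ l : ℂ, ‖l‖ < ρ → HasDerivAt F (fderiv ℂ f (l • ζ) ζ) l := by
    intro l hl
    have h1 := (hf.differentiableAt (hBo.mem_nhds (hmem l hl))).hasFDerivAt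
    have h2 : HasDerivAt (fun l : ℂ => l • ζ) ζ l := by
      simpa using (hasDerivAt_id l).smul_const ζ
    exact h1.comp_hasDerivAt l h2
  have hFd : DifferentiableOn ℂ F (ball 0 ρ) := by
    intro l hl
    rw [mem_ball_zero_iff] at hl
    exact (hder l hl).differentiableAt.differentiableWithinAt
  have h1 := main2 hε hρ F hFd
  -- change of variables
  have himg : Real.exp '' (Iio (0:ℝ)) = Ioo (0:ℝ) 1 := by
    ext r
    simp only [mem_image, mem_Iio, mem_Ioo]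
    constructor
    · rintro ⟨t, ht, rfl⟩
      exact ⟨Real.exp_pos t, by rw [Real.exp_lt_one_iff]; exact ht⟩
    · rintro ⟨h0, h2⟩
      exact ⟨Real.log r, Real.log_neg h0 h2, Real.exp_log h0⟩
  rw [← himg, lintegral_image_eq_lintegral_abs_deriv_mul measurableSet_Iio
    (fun t _ => (Real.hasDerivAt_exp t).hasDerivWithinAt) Real.exp_injective.injOn]
  have e0 : ∀ θ : ℝ, UU ε (f (Complex.exp (θ * Complex.I) • ζ)) = UU ε (F (Complex.exp (pt 0 θ))) := by
    intro θ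
    rw [exp_pt]
    simp [hF]
  simp only [e0]
  refine le_trans ?_ (mul_le_mul_right h1 _)
  rw [← lintegral_const_mul' _ _ ENNReal.ofReal_ne_top]
  apply setLIntegral_mono' measurableSet_Iio
  intro t ht
  have ht' : t < 0 := ht
  have hexp1 : Real.exp t < 1 := by rw [Real.exp_lt_one_iff]; exact ht'
  have hexp0 := Real.exp_pos t
  rw [abs_of_pos hexp0, ← mul_assoc, ← ENNReal.ofReal_mul hexp0.le,
    ← lintegral_const_mul' _ _ ENNReal.ofReal_ne_top, ← lintegral_const_mul' _ _ ENNReal.ofReal_ne_top]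
  apply lintegral_mono
  intro θ
  simp only
  set l : ℂ := Complex.exp (pt t θ) with hl
  have hl1 : ‖l‖ = Real.exp t := by
    rw [hl, Complex.norm_exp, pt_re]
  have hzB : l • ζ ∈ B n := by
    rw [mem_B, norm_smul, hζ, mul_one, hl1]; exact hexp1
  rw [← exp_pt, ← hl, hψ _ hzB]
  have hU := UU_pos hε (F l)
  have e1 : fderiv ℂ f (l • ζ) (l • ζ) = deriv F l * l := by
    rw [(hder l (by rw [hl1]; linarith)).deriv, map_smul, smul_eq_mul, mul_comm]
  have e2 : dl (l • ζ) = 1 - (Real.exp t) ^ 2 := by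
    unfold dl; rw [norm_smul, hζ, mul_one, hl1]
  rw [← ENNReal.ofReal_mul (by positivity), ← ENNReal.ofReal_mul (by positivity)]
  apply ENNReal.ofReal_le_ofReal
  unfold dens
  rw [e1, e2]
  have e3 : f (l • ζ) = F l := rfl
  rw [e3]
  have h2 := exp_weight hn ht'
  have h3 : 0 ≤ ‖deriv F l * l‖ ^ 2 / UU ε (F l) := by positivity
  calc Real.exp t * (2 * n * Real.exp t ^ (2 * n - 1)) *
        (‖deriv F l * l‖ ^ 2 / UU ε (F l) * (1 - Real.exp t ^ 2))
      = (Real.exp t * (2 * n * Real.exp t ^ (2 * n - 1)) * (1 - Real.exp t ^ 2)) *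
        (‖deriv F l * l‖ ^ 2 / UU ε (F l)) := by ring
    _ ≤ (4 * n * (-t)) * (‖deriv F l * l‖ ^ 2 / UU ε (F l)) :=
        mul_le_mul_of_nonneg_right h2 h3
    _ = _ := by ring

end HS

open HS in
/-- **Hardy–Stein inequality** -/
theorem hardy_stein (n : ℕ) (hn : 0 < n) : ∃ C : ℝ, 0 < C ∧ ∀ (f : E n → ℂ) (ρ ε : ℝ), 1 < ρ → 0 < ε →
    DifferentiableOn ℂ f (Metric.ball 0 ρ) →
    ∫⁻ z in B n, ENNReal.ofReal (‖fderiv ℂ f z z‖ ^ 2 / Real.sqrt (‖f z‖ ^ 2 + ε ^ 2) * dl z) ≤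
      ENNReal.ofReal C * (∫⁻ ζ, ‖f ζ‖ₑ ∂(sig n) + ENNReal.ofReal ε) := by
  have hn' : (0:ℝ) < n := by exact_mod_cast hn
  set σ := (sig n univ).toReal with hσ
  have hσ0 : 0 ≤ σ := ENNReal.toReal_nonneg
  refine ⟨4 * n * (1 + σ), by positivity, ?_⟩
  intro f ρ ε hρ hε hf
  classical
  have hpi := Real.pi_pos
  have hBρ : B n ⊆ ball (0:E n) ρ := ball_subset_ball hρ.le
  have hBo : IsOpen (B n) := isOpen_ball
  have hfB : DifferentiableOn ℂ f (B n) := hf.mono hBρ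
  have hsf : SFinite (sig n) := inferInstance
  -- the density
  set g : E n → ℝ := (B n).indicator (dens ε f) with hg
  have hdc : ContinuousOn (dens ε f) (B n) := by
    unfold dens
    have h1 : ContinuousOn (fun z => fderiv ℂ f z z) (B n) :=
      (differentiableOn_fderiv_self hBo hfB).continuousOn
    have h2 : ContinuousOn (fun z => UU ε (f z)) (B n) :=
      continuous_UU.comp_continuousOn hfB.continuousOn
    have h3 : Continuous (fun z : E n => dl z) := by unfold dl; fun_prop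
    exact ((h1.norm.pow 2).div h2 (fun z _ => (UU_pos hε _).ne')).mul h3.continuousOn
  have hgm : Measurable g := by
    rw [hg, ← piecewise_eq_indicator]
    exact hdc.measurable_piecewise continuousOn_const measurableSet_ball
  set ψ : E n → ENNReal := fun z => ENNReal.ofReal (g z) with hψ
  have hψm : Measurable ψ := hgm.ennreal_ofReal
  have hψB : ∀ z ∈ B n, ψ z = ENNReal.ofReal (dens ε f z) := by
    intro z hz
    simp only [hψ, hg]
    rw [indicator_of_mem hz]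
  set f' : E n → ℂ := (ball (0:E n) ρ).indicator f with hf'
  have hf'm : Measurable f' := by
    rw [hf', ← piecewise_eq_indicator]
    exact hf.continuousOn.measurable_piecewise continuousOn_const measurableSet_ball
  have hsph : ∀ᵐ ζ ∂(sig n), ‖ζ‖ = 1 := by
    have h1 := sig_sph n hn
    rw [← mem_ae_iff] at h1
    filter_upwards [h1] with ζ hζ
    exact mem_sphere_zero_iff_norm.1 hζ
  have hLHS : ∫⁻ z in B n, ENNReal.ofReal (‖fderiv ℂ f z z‖ ^ 2 /
      Real.sqrt (‖f z‖ ^ 2 + ε ^ 2) * dl z) = ∫⁻ z in B n, ψ z := by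
    apply setLIntegral_congr_fun measurableSet_ball
    intro z hz
    simp only
    rw [hψB z hz]
    unfold dens
    rw [UU_eq]
  rw [hLHS]
  -- slices
  have hslice : ∀ᵐ ζ ∂(sig n), ∫⁻ r in Ioo (0:ℝ) 1, ENNReal.ofReal (2 * n * r ^ (2 * n - 1)) *
      ∫⁻ θ in Ioc (0:ℝ) (2 * Real.pi), ψ ((Complex.exp (θ * Complex.I) * (r : ℂ)) • ζ) ≤
      ENNReal.ofReal (4 * n) * ∫⁻ θ in Ioc (0:ℝ) (2 * Real.pi),
        (‖f' ((Complex.exp (θ * Complex.I) * ((1:ℝ) : ℂ)) • ζ)‖ₑ + ENNReal.ofReal ε) := by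
    filter_upwards [hsph] with ζ hζ
    refine (slice hn hε hρ f hf hζ ψ hψB).trans ?_
    apply mul_le_mul_right
    have hmem : ∀ θ : ℝ, Complex.exp (θ * Complex.I) • ζ ∈ ball (0:E n) ρ := by
      intro θ
      rw [mem_ball_zero_iff, norm_smul, hζ, mul_one, ReprAux.norm_expI]; exact hρ
    have hcont : Continuous (fun θ : ℝ => f (Complex.exp (θ * Complex.I) • ζ)) := by
      rw [← continuousOn_univ]
      apply hf.continuousOn.comp (f := fun θ : ℝ => Complex.exp (θ * Complex.I) • ζ)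
      · fun_prop
      · intro θ _; exact hmem θ
    have hcU : Continuous (fun θ : ℝ => UU ε (f (Complex.exp (θ * Complex.I) • ζ))) :=
      continuous_UU.comp hcont
    rw [intervalIntegral.integral_of_le (by linarith), ofReal_integral_eq_lintegral_ofReal]
    · apply lintegral_mono
      intro θ
      simp only
      have e1 : (Complex.exp (θ * Complex.I) * ((1:ℝ) : ℂ)) • ζ = Complex.exp (θ * Complex.I) • ζ := by
        simp
      rw [e1, hf', indicator_of_mem (hmem θ), ← ofReal_norm,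
        ← ENNReal.ofReal_add (norm_nonneg _) hε.le]
      exact ENNReal.ofReal_le_ofReal (UU_le hε _)
    · exact (hcU.integrableOn_Icc).mono_set Ioc_subset_Icc_self
    · exact Filter.Eventually.of_forall (fun θ => (UU_pos hε _).le)
  have hint := lintegral_mono_ae hslice
  -- left side
  have hleft : ∫⁻ ζ, (∫⁻ r in Ioo (0:ℝ) 1, ENNReal.ofReal (2 * n * r ^ (2 * n - 1)) *
      ∫⁻ θ in Ioc (0:ℝ) (2 * Real.pi), ψ ((Complex.exp (θ * Complex.I) * (r : ℂ)) • ζ)) ∂(sig n) =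
      ENNReal.ofReal (2 * Real.pi) * ∫⁻ z in B n, ψ z := by
    rw [lintegral_lintegral_swap]
    · have h1 : ∀ r : ℝ, ∫⁻ ζ, (ENNReal.ofReal (2 * n * r ^ (2 * n - 1)) *
          ∫⁻ θ in Ioc (0:ℝ) (2 * Real.pi), ψ ((Complex.exp (θ * Complex.I) * (r : ℂ)) • ζ)) ∂(sig n) =
          ENNReal.ofReal (2 * Real.pi) * (ENNReal.ofReal (2 * n * r ^ (2 * n - 1)) *
            ∫⁻ ζ, ψ (r • ζ) ∂(sig n)) := by
        intro r
        rw [lintegral_const_mul' _ _ ENNReal.ofReal_ne_top, LPA.lintegral_circle_sig ψ hψm r]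
        ring
      simp_rw [h1]
      rw [lintegral_const_mul' _ _ ENNReal.ofReal_ne_top, polar hn ψ hψm]
    · apply Measurable.aemeasurable
      apply Measurable.mul
      · fun_prop
      · have h2 : Measurable (fun p : (E n × ℝ) × ℝ =>
            ψ ((Complex.exp (p.2 * Complex.I) * (p.1.2 : ℂ)) • p.1.1)) := by
          apply hψm.comp
          fun_prop
        exact h2.lintegral_prod_right'
  -- right side
  have hright : ∫⁻ ζ, ENNReal.ofReal (4 * n) * (∫⁻ θ in Ioc (0:ℝ) (2 * Real.pi),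
        (‖f' ((Complex.exp (θ * Complex.I) * ((1:ℝ) : ℂ)) • ζ)‖ₑ + ENNReal.ofReal ε)) ∂(sig n) ≤
      ENNReal.ofReal (4 * n) * (ENNReal.ofReal (2 * Real.pi) *
        ((∫⁻ ζ, ‖f ζ‖ₑ ∂(sig n)) + ENNReal.ofReal ε * ENNReal.ofReal σ)) := by
    have h1 := LPA.lintegral_circle_sig (n := n) (fun z => ‖f' z‖ₑ + ENNReal.ofReal ε)
      (hf'm.enorm.add_const _) 1
    rw [lintegral_const_mul' _ _ ENNReal.ofReal_ne_top]
    apply mul_le_mul_right
    rw [h1]
    apply mul_le_mul_right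
    rw [lintegral_add_right _ measurable_const, lintegral_const]
    apply add_le_add
    · apply lintegral_mono
      intro ζ
      simp only [one_smul]
      rw [hf']
      by_cases h : ζ ∈ ball (0:E n) ρ
      · rw [indicator_of_mem h]
      · rw [indicator_of_notMem h]; simp
    · apply mul_le_mul_right
      rw [hσ, ENNReal.ofReal_toReal (measure_ne_top _ _)]
  rw [hleft] at hint
  have h2 := hint.trans hright
  have h3 : ENNReal.ofReal (2 * Real.pi) * ∫⁻ z in B n, ψ z ≤ ENNReal.ofReal (2 * Real.pi) *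
      (ENNReal.ofReal (4 * n) * ((∫⁻ ζ, ‖f ζ‖ₑ ∂(sig n)) + ENNReal.ofReal ε * ENNReal.ofReal σ)) := by
    refine h2.trans (le_of_eq ?_)
    ring
  have h4 := (ENNReal.mul_le_mul_iff_right (by simpa using hpi) ENNReal.ofReal_ne_top).1 h3
  refine h4.trans ?_
  rw [ENNReal.ofReal_mul (by positivity : (0:ℝ) ≤ 4 * n), mul_assoc]
  apply mul_le_mul_right
  rw [ENNReal.ofReal_add zero_le_one hσ0, ENNReal.ofReal_one, mul_add, add_mul, add_mul,
    one_mul, one_mul]
  rw [mul_comm (ENNReal.ofReal ε) (ENNReal.ofReal σ)]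
  have h5 : (∫⁻ ζ, ‖f ζ‖ₑ ∂(sig n)) ≤ (∫⁻ ζ, ‖f ζ‖ₑ ∂(sig n)) +
      ENNReal.ofReal σ * (∫⁻ ζ, ‖f ζ‖ₑ ∂(sig n)) := le_self_add
  have h6 : ENNReal.ofReal σ * ENNReal.ofReal ε ≤ ENNReal.ofReal ε +
      ENNReal.ofReal σ * ENNReal.ofReal ε := le_add_self
  exact add_le_add h5 h6

end

end Pool.Agent.Lib.MP7ebef4
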