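import Pool.Agent.Lib.MP_7ebef4_an.Sys

/-! Pointwise bounds for the kernels. -/

set_option autoImplicit false

open MeasureTheory Set

namespace Pool.Agent.Lib.MP7ebef4

noncomputable section

variable {n : ℕ}

theorem norm_kap (z w : E n) (hw : ‖w‖ ≤ 1) :
    ‖kap z w‖ = |c0 n| * dl w ^ (ME n) / d z w ^ (NE n) := by
  unfold kap
  rw [norm_div, norm_pow, Complex.norm_real, norm_mul, norm_pow, Real.norm_eq_abs,
    Real.norm_of_nonneg (dl_nonneg hw)]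
  rfl

/-- bound kernel `(δ_w/d)^{3s} d^{-n}` -/
def PB (z w : E n) : ℝ := (dl w / d z w) ^ (3 * sE n) * ((d z w) ^ n)⁻¹

theorem ratio_nonneg {z w : E n} (_hz : ‖z‖ ≤ 1) (hw : ‖w‖ ≤ 1) : 0 ≤ dl w / d z w :=
  div_nonneg (dl_nonneg hw) (d_nonneg _ _)

theorem ratio_le_two {z w : E n} (hz : z ∈ B n) (hw : ‖w‖ ≤ 1) : dl w / d z w ≤ 2 := by
  rw [div_le_iff₀ (d_pos hz hw)]
  exact dl_le_right z w (mem_B.1 hz).le

theorem PB_nonneg {z w : E n} (hz : ‖z‖ ≤ 1) (hw : ‖w‖ ≤ 1) : 0 ≤ PB z w :=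
  mul_nonneg (pow_nonneg (ratio_nonneg hz hw) _) (inv_nonneg.2 (pow_nonneg (d_nonneg _ _) _))

namespace Tree

variable {cT : ℝ} (T : Tree n cT)

theorem norm_kk (v : T.ι) (z : E n) : ‖kk T v z‖ = (T.h v / d z (T.a v)) ^ (sE n) := by
  unfold kk
  rw [norm_pow, norm_div, Complex.norm_real, Real.norm_of_nonneg (T.h_pos v).le]
  rfl

theorem d_a_pos (v : T.ι) {z : E n} (hz : ‖z‖ ≤ 1) : 0 < d z (T.a v) :=
  lt_of_lt_of_le (T.h_pos v) (T.h_le_d v z hz)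

theorem q_a_ne (v : T.ι) {z : E n} (hz : ‖z‖ ≤ 1) : q z (T.a v) ≠ 0 := by
  have := T.d_a_pos v hz
  unfold d at this
  exact norm_pos_iff.1 this

theorem ratio_a_le_one (v : T.ι) {z : E n} (hz : ‖z‖ ≤ 1) : T.h v / d z (T.a v) ≤ 1 := by
  rw [div_le_one (T.d_a_pos v hz)]; exact T.h_le_d v z hz

theorem ratio_a_pos (v : T.ι) {z : E n} (hz : ‖z‖ ≤ 1) : 0 < T.h v / d z (T.a v) :=
  div_pos (T.h_pos v) (T.d_a_pos v hz)

theorem norm_kk_le_one (v : T.ι) {z : E n} (hz : ‖z‖ ≤ 1) : ‖kk T v z‖ ≤ 1 := by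
  rw [T.norm_kk]
  exact pow_le_one₀ (T.ratio_a_pos v hz).le (T.ratio_a_le_one v hz)

theorem kk_ne (v : T.ι) {z : E n} (hz : ‖z‖ ≤ 1) : kk T v z ≠ 0 := by
  unfold kk
  apply pow_ne_zero
  exact div_ne_zero (by exact_mod_cast (T.h_pos v).ne') (T.q_a_ne v hz)

/-- for `y` above `loc w`: `d(z,a_y)/h_y ≤ 326 d(z,w)/δ_w` -/
theorem d_anc_ratio {w z : E n} (hw : w ∈ B n) (hz : z ∈ B n) {y : T.ι} (h : T.le (T.loc w) y) :
    d z (T.a y) / T.h y ≤ 326 * (d z w / dl w) := by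
  have h1 := d_tri z w (T.a y) (mem_B.1 hz).le (mem_B.1 hw).le (T.norm_a_le y)
  have h2 := T.loc_d_anc hw h
  have h3 := T.dl_le_h_anc hw h
  have h4 := dl_le_right z w (mem_B.1 hz).le
  have hp := dl_pos hw
  have hh := T.h_pos y
  have hD := d_nonneg z w
  rw [div_le_iff₀ hh]
  have h5 : d z w ≤ d z w / dl w * T.h y := by
    rw [div_mul_eq_mul_div, le_div_iff₀ hp]
    exact mul_le_mul_of_nonneg_left h3 hD
  have h6 : T.h y ≤ 2 * (d z w / dl w * T.h y) := by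
    have : (1:ℝ) ≤ 2 * (d z w / dl w) := by
      rw [← mul_div_assoc, le_div_iff₀ hp]; linarith
    nlinarith
  nlinarith

theorem norm_inv_kk_le {w z : E n} (hw : w ∈ B n) (hz : z ∈ B n) {y : T.ι} (h : T.le (T.loc w) y) :
    ‖(kk T y z)⁻¹‖ ≤ (326 * (d z w / dl w)) ^ (sE n) := by
  rw [norm_inv, T.norm_kk, ← inv_pow, inv_div]
  exact pow_le_pow_left₀ (div_nonneg (d_nonneg _ _) (T.h_pos y).le) (T.d_anc_ratio hw hz h) _

/-- for `y` above `loc w`: `d(z,w) ≤ 164 d(z,a_y)` -/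
theorem d_le_anc {w z : E n} (hw : w ∈ B n) (hz : ‖z‖ ≤ 1) {y : T.ι} (h : T.le (T.loc w) y) :
    d z w ≤ 164 * d z (T.a y) := by
  have h1 := d_tri z (T.a y) w hz (T.norm_a_le y) (mem_B.1 hw).le
  have h2 := T.loc_d_anc hw h
  rw [d_comm w] at h2
  have h3 := T.h_le_d y z hz
  linarith

/-- growth of `kk`: `|k_v(z)| ≤ (2(1+t/h))^s |k_v(a)|`, `t = d(z,a)` -/
theorem kk_growth (v : T.ι) {z a : E n} (hz : ‖z‖ ≤ 1) (ha : ‖a‖ ≤ 1) :
    ‖kk T v z‖ ≤ (2 * (1 + d z a / T.h v)) ^ (sE n) * ‖kk T v a‖ := by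
  rw [T.norm_kk, T.norm_kk, ← mul_pow]
  apply pow_le_pow_left₀ (T.ratio_a_pos v hz).le
  have h1 := d_tri a z (T.a v) ha hz (T.norm_a_le v)
  rw [d_comm a z] at h1
  have h2 := T.h_le_d v z hz
  have hh := T.h_pos v
  have hza := T.d_a_pos v hz
  have haa := T.d_a_pos v ha
  have ht := d_nonneg z a
  rw [div_le_iff₀ hza]
  have e : 2 * (1 + d z a / T.h v) * (T.h v / d a (T.a v)) * d z (T.a v) =
      2 * (T.h v + d z a) * d z (T.a v) / d a (T.a v) := by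
    field_simp
  rw [e, le_div_iff₀ haa]
  nlinarith

end Tree

/-- elementary: powers -/
theorem norm_pow_sub_one_le (ω : ℂ) (R : ℝ) (hR : ‖ω‖ ≤ R) (h1 : 1 ≤ R) (s : ℕ) :
    ‖ω ^ s - 1‖ ≤ s * R ^ s * ‖ω - 1‖ := by
  induction s with
  | zero => simp
  | succ s ih =>
    have e : ω ^ (s+1) - 1 = ω * (ω ^ s - 1) + (ω - 1) := by ring
    rw [e]
    refine (norm_add_le _ _).trans ?_
    rw [norm_mul]
    have h2 : (1:ℝ) ≤ R ^ (s+1) := one_le_pow₀ h1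
    have h3 := norm_nonneg (ω - 1)
    have h4 : ‖ω‖ * ‖ω ^ s - 1‖ ≤ R * (s * R ^ s * ‖ω - 1‖) :=
      mul_le_mul hR ih (norm_nonneg _) (by linarith)
    push_cast
    calc ‖ω‖ * ‖ω ^ s - 1‖ + ‖ω - 1‖ ≤ R * (s * R ^ s * ‖ω - 1‖) + R ^ (s+1) * ‖ω - 1‖ := by
          nlinarith
      _ = ((s:ℝ) + 1) * R ^ (s+1) * ‖ω - 1‖ := by ring

/-- variation of `q(·,w)` relative to its size -/
theorem q_ratio_sub_le {z a w : E n} (hz : ‖z‖ ≤ 1) (ha : ‖a‖ ≤ 1) (hw : ‖w‖ ≤ 1) (hp : 0 < d a w)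
    (h : 36 * d z a ≤ d a w) :
    ‖q z w / q a w - 1‖ ≤ 5/2 * Real.sqrt (d z a / d a w) ∧ ‖q z w / q a w - 1‖ ≤ 1/2 := by
  have hq : q a w ≠ 0 := norm_pos_iff.1 hp
  have e : q z w / q a w - 1 = (q z w - q a w) / q a w := by field_simp
  have h1 := q_sub_le z a w hz ha hw
  have h2 : ‖q z w / q a w - 1‖ ≤ (3 * d z a + 2 * rho z a * rho a w) / d a w := by
    rw [e, norm_div]
    exact div_le_div_of_nonneg_right h1 (norm_nonneg _)
  set x := Real.sqrt (d z a / d a w) with hx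
  have hxx : x ^ 2 = d z a / d a w := Real.sq_sqrt (div_nonneg (d_nonneg _ _) hp.le)
  have hx0 : 0 ≤ x := Real.sqrt_nonneg _
  have hx6 : x ≤ 1/6 := by
    rw [hx, show (1/6:ℝ) = Real.sqrt (1/36) by
      rw [show (1/36:ℝ) = (1/6)^2 by norm_num, Real.sqrt_sq (by norm_num)]]
    apply Real.sqrt_le_sqrt
    rw [div_le_div_iff₀ hp (by norm_num)]
    linarith
  have h3 : (3 * d z a + 2 * rho z a * rho a w) / d a w = 3 * x ^ 2 + 2 * x := by
    have e1 : x = rho z a / rho a w := by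
      rw [hx, Real.sqrt_div (d_nonneg _ _)]; rfl
    have e2 : d a w = rho a w ^ 2 := (rho_sq a w).symm
    have e3 : rho a w ≠ 0 := by
      intro h0; rw [e2, h0] at hp; norm_num at hp
    rw [add_div, hxx, e1, e2]
    field_simp
  rw [h3] at h2
  constructor
  · nlinarith
  · nlinarith

/-- variation of `(q z w / q a w)^{±k}` -/
theorem pow_ratio_sub_le {z a w : E n} (hz : ‖z‖ ≤ 1) (ha : ‖a‖ ≤ 1) (hw : ‖w‖ ≤ 1) (hp : 0 < d a w)
    (h : 36 * d z a ≤ d a w) (k : ℕ) :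
    ‖(q z w / q a w) ^ k - 1‖ ≤ (5/2) * k * 2 ^ k * Real.sqrt (d z a / d a w) ∧
    ‖(q a w / q z w) ^ k - 1‖ ≤ 5 * k * 2 ^ k * Real.sqrt (d z a / d a w) ∧
    ‖q z w / q a w‖ ≤ 2 ∧ ‖q a w / q z w‖ ≤ 2 ∧ q z w ≠ 0 := by
  obtain ⟨h1, h2⟩ := q_ratio_sub_le hz ha hw hp h
  set ω := q z w / q a w with hω
  have hq : q a w ≠ 0 := norm_pos_iff.1 hp
  have hωn : 1/2 ≤ ‖ω‖ := by
    have := norm_sub_norm_le (1:ℂ) (1 - ω)
    rw [norm_one, sub_sub_cancel] at this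
    rw [norm_sub_rev] at h2
    linarith
  have hωu : ‖ω‖ ≤ 2 := by
    have := norm_add_le (ω - 1) (1:ℂ)
    rw [norm_one, sub_add_cancel] at this
    linarith
  have hω0 : ω ≠ 0 := by
    intro h0; rw [h0, norm_zero] at hωn; norm_num at hωn
  have hqz : q z w ≠ 0 := by
    intro h0; apply hω0; rw [hω, h0, zero_div]
  have hinv : q a w / q z w = ω⁻¹ := by rw [hω, inv_div]
  have hinvn : ‖ω⁻¹‖ ≤ 2 := by
    rw [norm_inv, inv_le_comm₀ (norm_pos_iff.2 hω0) (by norm_num)]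
    linarith
  refine ⟨?_, ?_, hωu, by rw [hinv]; exact hinvn, hqz⟩
  · have := norm_pow_sub_one_le ω 2 hωu (by norm_num) k
    refine this.trans ?_
    calc (k:ℝ) * 2 ^ k * ‖ω - 1‖ ≤ k * 2 ^ k * (5/2 * Real.sqrt (d z a / d a w)) := by gcongr
      _ = _ := by ring
  · rw [hinv]
    have := norm_pow_sub_one_le ω⁻¹ 2 hinvn (by norm_num) k
    refine this.trans ?_
    have h4 : ‖ω⁻¹ - 1‖ ≤ 2 * (5/2 * Real.sqrt (d z a / d a w)) := by
      have e : ω⁻¹ - 1 = ω⁻¹ * (1 - ω) := by field_simp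
      rw [e, norm_mul, norm_sub_rev]
      exact mul_le_mul hinvn h1 (norm_nonneg _) (by norm_num)
    calc (k:ℝ) * 2 ^ k * ‖ω⁻¹ - 1‖ ≤ k * 2 ^ k * (2 * (5/2 * Real.sqrt (d z a / d a w))) := by gcongr
      _ = _ := by ring

namespace Tree

variable {cT : ℝ} (T : Tree n cT)

/-- (B5) variation of `kk` -/
theorem kk_variation (v : T.ι) {z a : E n} (hz : ‖z‖ ≤ 1) (ha : ‖a‖ ≤ 1) :
    ‖kk T v z - kk T v a‖ ≤ (12 * (sE n + 1) * 2 ^ (sE n)) * Real.sqrt (d z a / T.h v) *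
      (1 + d z a / T.h v) ^ (sE n) * ‖kk T v a‖ := by
  have hh := T.h_pos v
  have hp := T.d_a_pos v ha
  have hph := T.h_le_d v a ha
  have ht := d_nonneg z a
  have h0 : 0 ≤ d z a / T.h v := div_nonneg ht hh.le
  have hA : (1:ℝ) ≤ (1 + d z a / T.h v) ^ (sE n) := one_le_pow₀ (by linarith)
  have hka := norm_nonneg (kk T v a)
  have h2s : (1:ℝ) ≤ 2 ^ (sE n) := one_le_pow₀ (by norm_num)
  by_cases hc : 36 * d z a ≤ d a (T.a v)
  · obtain ⟨_, h2, _, _, hq⟩ := pow_ratio_sub_le hz ha (T.norm_a_le v) hp hc (sE n)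
    have e : kk T v z - kk T v a = kk T v a * ((q a (T.a v) / q z (T.a v)) ^ (sE n) - 1) := by
      unfold kk
      have hqa := T.q_a_ne v ha
      have hhv : (T.h v : ℂ) ≠ 0 := by exact_mod_cast hh.ne'
      rw [mul_sub, mul_one, ← mul_pow]
      congr 2
      field_simp
    rw [e, norm_mul, mul_comm]
    have h3 : Real.sqrt (d z a / d a (T.a v)) ≤ Real.sqrt (d z a / T.h v) :=
      Real.sqrt_le_sqrt (div_le_div_of_nonneg_left ht hh hph)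
    have h4 : ‖(q a (T.a v) / q z (T.a v)) ^ (sE n) - 1‖ ≤
        (12 * (sE n + 1) * 2 ^ (sE n)) * Real.sqrt (d z a / T.h v) * (1 + d z a / T.h v) ^ (sE n) := by
      calc ‖(q a (T.a v) / q z (T.a v)) ^ (sE n) - 1‖
          ≤ 5 * (sE n : ℝ) * 2 ^ (sE n) * Real.sqrt (d z a / d a (T.a v)) := h2
        _ ≤ 5 * (sE n : ℝ) * 2 ^ (sE n) * Real.sqrt (d z a / T.h v) := by gcongr
        _ = 5 * (sE n : ℝ) * 2 ^ (sE n) * Real.sqrt (d z a / T.h v) * 1 := by ring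
        _ ≤ (12 * (sE n + 1) * 2 ^ (sE n)) * Real.sqrt (d z a / T.h v) *
            (1 + d z a / T.h v) ^ (sE n) := by
            gcongr
            · linarith
            · linarith
    exact mul_le_mul_of_nonneg_right h4 hka
  · push Not at hc
    have h1 := T.kk_growth v hz ha
    have h6 : 1/6 ≤ Real.sqrt (d z a / T.h v) := by
      rw [show (1/6:ℝ) = Real.sqrt (1/36) by
        rw [show (1/36:ℝ) = (1/6)^2 by norm_num, Real.sqrt_sq (by norm_num)]]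
      apply Real.sqrt_le_sqrt
      rw [div_le_div_iff₀ (by norm_num) hh]
      linarith
    have e2 : (2 * (1 + d z a / T.h v)) ^ (sE n) = 2 ^ (sE n) * (1 + d z a / T.h v) ^ (sE n) :=
      mul_pow _ _ _
    rw [e2] at h1
    set X := (1 + d z a / T.h v) ^ (sE n) with hX
    calc ‖kk T v z - kk T v a‖ ≤ ‖kk T v z‖ + ‖kk T v a‖ := norm_sub_le _ _
      _ ≤ 2 ^ (sE n) * X * ‖kk T v a‖ + 1 * ‖kk T v a‖ := by linarith
      _ ≤ 2 ^ (sE n) * X * ‖kk T v a‖ + (2 ^ (sE n) * X) * ‖kk T v a‖ := by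
          have : (1:ℝ) ≤ 2 ^ (sE n) * X := by nlinarith
          gcongr
      _ = (12 * 2 ^ (sE n)) * (1/6) * X * ‖kk T v a‖ := by ring
      _ ≤ (12 * (sE n + 1) * 2 ^ (sE n)) * Real.sqrt (d z a / T.h v) * X * ‖kk T v a‖ := by
          have h7 : (12:ℝ) * 2 ^ (sE n) ≤ 12 * (sE n + 1) * 2 ^ (sE n) := by
            have : (0:ℝ) ≤ sE n := Nat.cast_nonneg _
            nlinarith
          gcongr

end Tree

end

end Pool.Agent.Lib.MP7ebef4
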