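import Pool.Agent.Lib.MP_7ebef4_an.Ker

/-! Responsible pumps, the kernel `Phi`, weights. -/

set_option autoImplicit false

open MeasureTheory Set

namespace Pool.Agent.Lib.MP7ebef4

noncomputable section

variable {n : ℕ}

theorem sE_pos (n : ℕ) : 0 < sE n := by unfold sE; omega

namespace Sys

variable {cT C K : ℝ} (S : Sys n cT C K)

/-- responsible pump of `w` -/
def vw (w : E n) : S.T.ι := S.resp (S.T.loc w)

/-- `Φ_w(z) = κ(z,w) / (c_{v(w)} k_{v(w)}(z))` -/
def Phi (w z : E n) : ℂ := kap z w / ((S.c (S.vw w) : ℂ) * kk S.T (S.vw w) z)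

theorem le_resp (x : S.T.ι) : S.T.le x (S.resp x) := by
  have key : ∀ k : ℕ, ∀ x : S.T.ι, S.T.lev x = k → S.T.le x (S.resp x) := by
    intro k
    induction k with
    | zero =>
      intro x hx
      rw [S.T.eq_root x hx, S.hp.root]
      exact S.T.le_refl _
    | succ k ih =>
      intro x hx
      rcases S.hp.step x with h | h
      · rw [h]; exact S.T.le_refl _
      · rw [h]
        have hp := S.T.lev_par x (by omega)
        exact S.T.le_trans (S.T.le_par x) (ih _ (by omega))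
  exact key _ x rfl

theorem resp_resp (x : S.T.ι) : S.resp (S.resp x) = S.resp x := by
  have key : ∀ k : ℕ, ∀ x : S.T.ι, S.T.lev x = k → S.resp (S.resp x) = S.resp x := by
    intro k
    induction k with
    | zero =>
      intro x hx
      rw [S.T.eq_root x hx, S.hp.root, S.hp.root]
    | succ k ih =>
      intro x hx
      rcases S.hp.step x with h | h
      · rw [h, h]
      · rw [h]
        have hp := S.T.lev_par x (by omega)
        exact ih _ (by omega)
  exact key _ x rfl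

/-- if `y` lies between `x` and `resp x` then `resp y = resp x` -/
theorem resp_between {x y : S.T.ι} (h1 : S.T.le x y) (h2 : S.T.lev (S.resp x) ≤ S.T.lev y) :
    S.resp y = S.resp x := by
  have key : ∀ k : ℕ, ∀ x y : S.T.ι, S.T.par^[k] x = y → S.T.lev (S.resp x) ≤ S.T.lev y →
      S.resp y = S.resp x := by
    intro k
    induction k with
    | zero => intro x y hxy _; rw [← hxy]; rfl
    | succ k ih =>
      intro x y hxy hl
      rcases S.hp.step x with h | h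
      · rw [h] at hl
        have h3 : S.T.le x y := ⟨k+1, hxy⟩
        have h4 := S.T.lev_le_of_le h3
        rw [S.T.le_of_lev_eq h3 (by omega)]
      · rw [h] at hl ⊢
        exact ih (S.T.par x) y (by rw [← hxy, Function.iterate_succ_apply]) hl
  obtain ⟨k, hk⟩ := h1
  exact key k x y hk h2

theorem c_pos (x : S.T.ι) : 0 < S.c x :=
  lt_of_lt_of_le (Real.sqrt_pos.2 S.hc.m_pos) (S.hc.low x)

theorem c_mono {x y : S.T.ι} (h : S.T.le x y) : S.c y ≤ S.c x := by
  obtain ⟨k, rfl⟩ := h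
  induction k with
  | zero => exact le_refl _
  | succ k ih =>
    rw [Function.iterate_succ_apply']
    exact (S.hc.mono _).trans ih

theorem vw_anc (w : E n) : S.T.le (S.T.loc w) (S.vw w) := S.le_resp _

theorem resp_vw (w : E n) : S.resp (S.vw w) = S.vw w := S.resp_resp _

theorem c_vw_le (w : E n) : S.c (S.vw w) ≤ S.c (S.T.loc w) := S.c_mono (S.vw_anc w)

theorem c_loc_le (w : E n) : S.c (S.T.loc w) ≤ K * S.c (S.vw w) := S.hp.prim _

/-- (T5) -/
theorem c_node_le (v : S.T.ι) {z : E n} (hz : z ∈ B n) :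
    S.c v ≤ (C * 2500 ^ n * K) * (d z (S.T.a v) / S.T.h v) ^ n * S.c (S.vw z) := by
  have h1 := S.hc.reg v (S.T.loc z)
  have h2 := S.T.reg_node_point v z hz
  have h3 := S.c_loc_le z
  have hh := S.T.h_pos v
  have hC := S.hC
  have h4 : ((S.T.h v + S.T.h (S.T.loc z) + d (S.T.pt v) (S.T.pt (S.T.loc z))) / S.T.h v) ^ n ≤
      (2500 * (d z (S.T.a v) / S.T.h v)) ^ n := by
    apply pow_le_pow_left₀
    · apply div_nonneg _ hh.le
      have := S.T.h_pos (S.T.loc z)
      have := d_nonneg (S.T.pt v) (S.T.pt (S.T.loc z))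
      linarith
    · rw [← mul_div_assoc]
      exact div_le_div_of_nonneg_right h2 hh.le
  have h5 : 0 ≤ (2500 * (d z (S.T.a v) / S.T.h v)) ^ n :=
    pow_nonneg (mul_nonneg (by norm_num) (div_nonneg (d_nonneg _ _) hh.le)) _
  have h6 := (S.c_pos (S.T.loc z)).le
  calc S.c v ≤ C * ((S.T.h v + S.T.h (S.T.loc z) + d (S.T.pt v) (S.T.pt (S.T.loc z))) / S.T.h v) ^ n *
        S.c (S.T.loc z) := h1
    _ ≤ C * (2500 * (d z (S.T.a v) / S.T.h v)) ^ n * (K * S.c (S.vw z)) := by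
        apply mul_le_mul _ h3 h6
        · exact mul_nonneg (by linarith) h5
        · exact mul_le_mul_of_nonneg_left h4 (by linarith)
    _ = (C * 2500 ^ n * K) * (d z (S.T.a v) / S.T.h v) ^ n * S.c (S.vw z) := by
        rw [mul_pow]; ring

/-- (T6) -/
theorem c_weight_le {z w : E n} (hz : z ∈ B n) (hw : w ∈ B n) :
    S.c (S.vw w) ≤ (C * 20000 ^ n * K) * (d z w / dl w) ^ n * S.c (S.vw z) := by
  have h1 := S.hc.reg (S.T.loc w) (S.T.loc z)
  have h2 := S.T.reg_point_point w z hw hz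
  have h3 := S.c_loc_le z
  have hh := S.T.h_pos (S.T.loc w)
  have hdw := dl_pos hw
  have hC := S.hC
  have h4 : ((S.T.h (S.T.loc w) + S.T.h (S.T.loc z) + d (S.T.pt (S.T.loc w)) (S.T.pt (S.T.loc z))) /
      S.T.h (S.T.loc w)) ^ n ≤ (20000 * (d z w / dl w)) ^ n := by
    apply pow_le_pow_left₀
    · apply div_nonneg _ hh.le
      have := S.T.h_pos (S.T.loc z)
      have := d_nonneg (S.T.pt (S.T.loc w)) (S.T.pt (S.T.loc z))
      linarith
    · rw [div_le_iff₀ hh, ← mul_div_assoc, div_mul_eq_mul_div, le_div_iff₀ hdw]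
      exact h2
  have h5 : 0 ≤ (20000 * (d z w / dl w)) ^ n :=
    pow_nonneg (mul_nonneg (by norm_num) (div_nonneg (d_nonneg _ _) hdw.le)) _
  have h6 := (S.c_pos (S.T.loc z)).le
  calc S.c (S.vw w) ≤ S.c (S.T.loc w) := S.c_vw_le w
    _ ≤ C * ((S.T.h (S.T.loc w) + S.T.h (S.T.loc z) + d (S.T.pt (S.T.loc w)) (S.T.pt (S.T.loc z))) /
      S.T.h (S.T.loc w)) ^ n * S.c (S.T.loc z) := h1
    _ ≤ C * (20000 * (d z w / dl w)) ^ n * (K * S.c (S.vw z)) := by
        apply mul_le_mul _ h3 h6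
        · exact mul_nonneg (by linarith) h5
        · exact mul_le_mul_of_nonneg_left h4 (by linarith)
    _ = (C * 20000 ^ n * K) * (d z w / dl w) ^ n * S.c (S.vw z) := by
        rw [mul_pow]; ring

theorem norm_Phi_le {w z : E n} (hw : w ∈ B n) (hz : z ∈ B n) :
    S.c (S.vw w) * ‖S.Phi w z‖ ≤ (|c0 n| * 326 ^ (sE n)) * PB z w := by
  have hc := S.c_pos (S.vw w)
  have hD := d_pos hz (mem_B.1 hw).le
  have hdw := dl_pos hw
  have h1 := S.T.norm_inv_kk_le hw hz (S.vw_anc w)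
  have e1 : S.c (S.vw w) * ‖S.Phi w z‖ = ‖kap z w‖ * ‖(kk S.T (S.vw w) z)⁻¹‖ := by
    unfold Phi
    rw [norm_div, norm_mul, norm_inv, Complex.norm_real, Real.norm_of_nonneg hc.le]
    field_simp
  rw [e1, norm_kap z w (mem_B.1 hw).le]
  have e2 : (|c0 n| * 326 ^ (sE n)) * PB z w =
      (|c0 n| * dl w ^ (ME n) / d z w ^ (NE n)) * (326 * (d z w / dl w)) ^ (sE n) := by
    unfold PB
    have hM : ME n = 3 * sE n + sE n := by unfold ME; ring
    have hN : NE n = n + (3 * sE n + sE n) := by unfold NE; rw [hM]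
    rw [hM, hN, mul_pow, div_pow, div_pow, pow_add, pow_add (d z w), pow_add (d z w)]
    field_simp
  rw [e2]
  apply mul_le_mul_of_nonneg_left h1
  positivity

/-- first variation lemma (close points) -/
theorem Phi_variation {w z a : E n} (hw : w ∈ B n) (hz : z ∈ B n) (ha : a ∈ B n)
    (h : 36 * 164 * d z a ≤ d a w) :
    S.c (S.vw w) * ‖S.Phi w z - S.Phi w a‖ ≤
      (100 * (sE n) * 2 ^ (sE n) * 2 ^ (NE n) + 5 * (NE n) * 2 ^ (NE n)) *
        (|c0 n| * 326 ^ (sE n)) * Real.sqrt (d z a / d a w) * PB a w := by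
  have hz1 := (mem_B.1 hz).le
  have ha1 := (mem_B.1 ha).le
  have hw1 := (mem_B.1 hw).le
  have hp := d_pos ha hw1
  have ht := d_nonneg z a
  set v := S.vw w with hv
  have hanc : S.T.le (S.T.loc w) v := S.vw_anc w
  have hpa := S.T.d_le_anc hw ha1 hanc
  have hpa0 := S.T.d_a_pos v ha1
  obtain ⟨_, A2, _, A4, A5⟩ := pow_ratio_sub_le hz1 ha1 hw1 hp (by linarith) (NE n)
  obtain ⟨B1, _, B3, _, _⟩ := pow_ratio_sub_le hz1 ha1 (S.T.norm_a_le v) hpa0 (by linarith) (sE n)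
  set X := Real.sqrt (d z a / d a w) with hX
  have hX0 : 0 ≤ X := Real.sqrt_nonneg _
  have B1' : ‖(q z (S.T.a v) / q a (S.T.a v)) ^ (sE n) - 1‖ ≤ 100 * (sE n) * 2 ^ (sE n) * X := by
    refine B1.trans ?_
    have h1 : Real.sqrt (d z a / d a (S.T.a v)) ≤ 13 * X := by
      rw [hX, show (13:ℝ) * Real.sqrt (d z a / d a w) = Real.sqrt (13^2 * (d z a / d a w)) by
        rw [Real.sqrt_mul (by norm_num), Real.sqrt_sq (by norm_num)]]
      apply Real.sqrt_le_sqrt
      rw [div_le_iff₀ hpa0, mul_assoc, div_mul_eq_mul_div, ← mul_div_assoc, le_div_iff₀ hp]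
      nlinarith
    calc 5/2 * (sE n : ℝ) * 2 ^ (sE n) * Real.sqrt (d z a / d a (S.T.a v))
        ≤ 5/2 * (sE n : ℝ) * 2 ^ (sE n) * (13 * X) := by gcongr
      _ ≤ 100 * (sE n) * 2 ^ (sE n) * X := by
        have : 0 ≤ (sE n : ℝ) * 2 ^ (sE n) * X := by positivity
        nlinarith
  have e : S.Phi w z = S.Phi w a * ((q a w / q z w) ^ (NE n) * (q z (S.T.a v) / q a (S.T.a v)) ^ (sE n)) := by
    unfold Phi kap kk
    rw [← hv]
    have h1 : q a w ≠ 0 := q_ne_zero ha hw1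
    have h2 := S.T.q_a_ne v ha1
    have h3 := S.T.q_a_ne v hz1
    have h4 : (S.T.h v : ℂ) ≠ 0 := by exact_mod_cast (S.T.h_pos v).ne'
    have h5 : (S.c v : ℂ) ≠ 0 := by exact_mod_cast (S.c_pos v).ne'
    simp only [div_pow]
    have h6 : q a w ^ NE n ≠ 0 := pow_ne_zero _ h1
    have h7 : q a (S.T.a v) ^ sE n ≠ 0 := pow_ne_zero _ h2
    have h8 : q z (S.T.a v) ^ sE n ≠ 0 := pow_ne_zero _ h3
    have h9 : (S.T.h v : ℂ) ^ sE n ≠ 0 := pow_ne_zero _ h4
    have h10 : q z w ^ NE n ≠ 0 := pow_ne_zero _ A5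
    field_simp
  have hΦ := S.norm_Phi_le hw ha
  have e2 : S.Phi w z - S.Phi w a = S.Phi w a *
      ((q a w / q z w) ^ (NE n) * ((q z (S.T.a v) / q a (S.T.a v)) ^ (sE n) - 1) +
        ((q a w / q z w) ^ (NE n) - 1)) := by
    rw [e]; ring
  rw [e2, norm_mul, ← mul_assoc]
  have h7 : ‖(q a w / q z w) ^ (NE n) * ((q z (S.T.a v) / q a (S.T.a v)) ^ (sE n) - 1) +
        ((q a w / q z w) ^ (NE n) - 1)‖ ≤
      (100 * (sE n) * 2 ^ (sE n) * 2 ^ (NE n) + 5 * (NE n) * 2 ^ (NE n)) * X := by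
    refine (norm_add_le _ _).trans ?_
    rw [norm_mul, norm_pow]
    have h8 : ‖q a w / q z w‖ ^ (NE n) ≤ 2 ^ (NE n) := pow_le_pow_left₀ (norm_nonneg _) A4 _
    have h9 : ‖q a w / q z w‖ ^ (NE n) * ‖(q z (S.T.a v) / q a (S.T.a v)) ^ (sE n) - 1‖ ≤
        2 ^ (NE n) * (100 * (sE n) * 2 ^ (sE n) * X) :=
      mul_le_mul h8 B1' (norm_nonneg _) (by positivity)
    calc _ ≤ 2 ^ (NE n) * (100 * (sE n) * 2 ^ (sE n) * X) + 5 * (NE n) * 2 ^ (NE n) * X :=
          add_le_add h9 A2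
      _ = _ := by ring
  calc S.c v * ‖S.Phi w a‖ * _ ≤ ((|c0 n| * 326 ^ (sE n)) * PB a w) *
        ((100 * (sE n) * 2 ^ (sE n) * 2 ^ (NE n) + 5 * (NE n) * 2 ^ (NE n)) * X) := by
        apply mul_le_mul hΦ h7 (norm_nonneg _)
        exact mul_nonneg (by positivity) (PB_nonneg ha1 hw1)
    _ = _ := by ring

end Sys

end

end Pool.Agent.Lib.MP7ebef4
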