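import Pool.Agent.Lib.MP_7ebef4_an.Defs

/-!
# MP_7ebef4_an : limits of locally bounded families of holomorphic functions
-/

set_option autoImplicit false

open MeasureTheory Set Filter Topology

namespace Pool.Agent.Lib.MP7ebef4

noncomputable section

/-- second order Taylor estimate from the Schwarz lemma -/
theorem taylor_two {V : Type*} [NormedAddCommGroup V] [NormedSpace ℂ V] (f : V → ℂ) (z w : V)
    (R M : ℝ) (hR : 0 < R) (hf : DifferentiableOn ℂ f (Metric.ball z R))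
    (hM : ∀ x ∈ Metric.ball z R, ‖f x‖ ≤ M) (hw : w ∈ Metric.ball z R) :
    ‖fderiv ℂ f z‖ ≤ 2 * M / R ∧
    ‖f w - f z - fderiv ℂ f z (w - z)‖ ≤ 4 * M * (‖w - z‖ / R) ^ 2 := by
  have hz : z ∈ Metric.ball z R := Metric.mem_ball_self hR
  have hM0 : 0 ≤ M := (norm_nonneg _).trans (hM z hz)
  have hd : DifferentiableAt ℂ f z := (hf z hz).differentiableAt (Metric.isOpen_ball.mem_nhds hz)
  have h1 : ‖fderiv ℂ f z‖ ≤ 2 * M / R := by
    refine Complex.norm_fderiv_le_div_of_mapsTo_ball hf (fun x hx => ?_) hR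
    rw [Metric.mem_closedBall, dist_eq_norm]
    calc ‖f x - f z‖ ≤ ‖f x‖ + ‖f z‖ := norm_sub_le _ _
      _ ≤ 2 * M := by linarith [hM x hx, hM z hz]
  refine ⟨h1, ?_⟩
  set g : V → ℂ := fun x => f x - fderiv ℂ f z (x - z) with hg
  have hgd : DifferentiableOn ℂ g (Metric.ball z R) := by
    refine hf.sub ?_
    exact ((fderiv ℂ f z).differentiable.comp (differentiable_id.sub_const z)).differentiableOn
  have hgz : g z = f z := by simp [hg]
  have hmaps : MapsTo g (Metric.ball z R) (Metric.closedBall (g z) (4 * M)) := by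
    intro x hx
    rw [Metric.mem_closedBall, dist_eq_norm, hgz]
    have hx' : ‖x - z‖ < R := by rwa [Metric.mem_ball, dist_eq_norm] at hx
    have h2 : ‖fderiv ℂ f z (x - z)‖ ≤ 2 * M := by
      calc ‖fderiv ℂ f z (x - z)‖ ≤ ‖fderiv ℂ f z‖ * ‖x - z‖ := (fderiv ℂ f z).le_opNorm _
        _ ≤ 2 * M / R * R := by gcongr
        _ = 2 * M := by field_simp
    calc ‖g x - f z‖ = ‖(f x - fderiv ℂ f z (x - z)) - f z‖ := rfl
      _ ≤ ‖f x - fderiv ℂ f z (x - z)‖ + ‖f z‖ := norm_sub_le _ _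
      _ ≤ (‖f x‖ + ‖fderiv ℂ f z (x - z)‖) + ‖f z‖ := by gcongr; exact norm_sub_le _ _
      _ ≤ 4 * M := by linarith [hM x hx, hM z hz]
  have ho : (fun x => g x - g z) =o[𝓝 z] fun x => ‖x - z‖ ^ 1 := by
    have := hd.hasFDerivAt.isLittleO
    simp only [pow_one]
    refine Asymptotics.IsLittleO.norm_right ?_
    refine this.congr_left (fun x => ?_)
    simp only [hg, sub_self, map_zero, sub_zero]
    ring
  have h3 := Complex.dist_le_mul_div_pow_of_mapsTo_ball_of_isLittleO hgd hmaps ho hw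
  rw [dist_eq_norm, hgz, dist_eq_norm] at h3
  calc ‖f w - f z - fderiv ℂ f z (w - z)‖ = ‖g w - f z‖ := by
        congr 1; simp only [hg]; ring
    _ ≤ 4 * M * (‖w - z‖ / R) ^ (1 + 1) := h3
    _ = _ := by norm_num

/-- Lipschitz estimate -/
theorem lip_of_bdd {V : Type*} [NormedAddCommGroup V] [NormedSpace ℂ V] (f : V → ℂ) (z w : V)
    (R M : ℝ) (hR : 0 < R) (hf : DifferentiableOn ℂ f (Metric.ball z R))
    (hM : ∀ x ∈ Metric.ball z R, ‖f x‖ ≤ M) (hw : ‖f w‖ ≤ M) :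
    ‖f w - f z‖ ≤ 2 * M / R * ‖w - z‖ := by
  have hz : z ∈ Metric.ball z R := Metric.mem_ball_self hR
  have hM0 : 0 ≤ M := (norm_nonneg _).trans (hM z hz)
  by_cases h : w ∈ Metric.ball z R
  · have h1 : MapsTo f (Metric.ball z R) (Metric.closedBall (f z) (2 * M)) := by
      intro x hx
      rw [Metric.mem_closedBall, dist_eq_norm]
      calc ‖f x - f z‖ ≤ ‖f x‖ + ‖f z‖ := norm_sub_le _ _
        _ ≤ 2 * M := by linarith [hM x hx, hM z hz]
    have := Complex.dist_le_div_mul_dist_of_mapsTo_ball hf h1 h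
    rwa [dist_eq_norm, dist_eq_norm] at this
  · rw [Metric.mem_ball, dist_eq_norm, not_lt] at h
    calc ‖f w - f z‖ ≤ ‖f w‖ + ‖f z‖ := norm_sub_le _ _
      _ ≤ 2 * M := by linarith [hM z hz]
      _ = 2 * M / R * R := by field_simp
      _ ≤ 2 * M / R * ‖w - z‖ := by gcongr

/-- ultrafilter limit of a bounded family -/
theorem exists_ulim {V : Type*} [NormedAddCommGroup V] [ProperSpace V] (U : Ultrafilter ℕ)
    (a : ℕ → V) (M : ℝ) (h : ∀ j, ‖a j‖ ≤ M) : ∃ x, Tendsto a U (𝓝 x) ∧ ‖x‖ ≤ M := by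
  obtain ⟨x, hx, hx'⟩ := (isCompact_closedBall (0 : V) M).ultrafilter_le_nhds (U.map a) (by
    rw [Filter.le_principal_iff, Ultrafilter.coe_map, Filter.mem_map]
    refine Filter.univ_mem' (fun j => ?_)
    simpa [Metric.mem_closedBall, dist_zero_right] using h j)
  refine ⟨x, hx', ?_⟩
  simpa [Metric.mem_closedBall, dist_zero_right] using hx

variable {n : ℕ}

/-- ultrafilter limits of locally bounded families of holomorphic functions on the ball -/
theorem exists_ulim_hol (U : Ultrafilter ℕ) (F : ℕ → E n → ℂ)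
    (hF : ∀ j, DifferentiableOn ℂ (F j) (B n))
    (hM : ∀ r < (1:ℝ), ∃ M : ℝ, ∀ j, ∀ z : E n, ‖z‖ ≤ r → ‖F j z‖ ≤ M) :
    ∃ G : E n → ℂ, DifferentiableOn ℂ G (B n) ∧ ∀ z ∈ B n, Tendsto (fun j => F j z) U (𝓝 (G z)) := by
  have hpt : ∀ z : E n, z ∈ B n → ∃ x, Tendsto (fun j => F j z) U (𝓝 x) := by
    intro z hz
    have hz' : ‖z‖ < 1 := by simpa [B] using hz
    obtain ⟨M, h⟩ := hM ‖z‖ hz'
    obtain ⟨x, hx, -⟩ := exists_ulim U (fun j => F j z) M (fun j => h j z le_rfl)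
    exact ⟨x, hx⟩
  classical
  choose! G hG using hpt
  refine ⟨G, ?_, hG⟩
  intro z hz
  refine DifferentiableAt.differentiableWithinAt ?_
  have hz' : ‖z‖ < 1 := by simpa [B] using hz
  set R : ℝ := (1 - ‖z‖) / 2 with hRdef
  have hR : 0 < R := by rw [hRdef]; linarith
  have hball : ∀ x ∈ Metric.ball z R, ‖x‖ ≤ (1 + ‖z‖) / 2 := by
    intro x hx
    rw [Metric.mem_ball, dist_eq_norm] at hx
    have : ‖x‖ ≤ ‖x - z‖ + ‖z‖ := by
      calc ‖x‖ = ‖(x - z) + z‖ := by rw [sub_add_cancel]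
        _ ≤ _ := norm_add_le _ _
    rw [hRdef] at hx
    linarith
  have hsub : Metric.ball z R ⊆ B n := by
    intro x hx
    have := hball x hx
    simp only [B, Metric.mem_ball, dist_zero_right]
    linarith
  obtain ⟨M, hMM⟩ := hM ((1 + ‖z‖) / 2) (by linarith)
  have hMb : ∀ j, ∀ x ∈ Metric.ball z R, ‖F j x‖ ≤ M := fun j x hx => hMM j x (hball x hx)
  have hM0 : 0 ≤ M := (norm_nonneg _).trans (hMb 0 z (Metric.mem_ball_self hR))
  obtain ⟨L, hL, -⟩ := exists_ulim U (fun j => fderiv ℂ (F j) z) (2 * M / R) (fun j =>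
    (taylor_two (F j) z z R M hR ((hF j).mono hsub) (hMb j) (Metric.mem_ball_self hR)).1)
  refine HasFDerivAt.differentiableAt (f' := L) ?_
  have key : ∀ w ∈ Metric.ball z R, ‖G w - G z - L (w - z)‖ ≤ 4 * M * (‖w - z‖ / R) ^ 2 := by
    intro w hw
    have h1 : Tendsto (fun j => ‖F j w - F j z - fderiv ℂ (F j) z (w - z)‖) U
        (𝓝 ‖G w - G z - L (w - z)‖) := by
      refine (((hG w (hsub hw)).sub (hG z hz)).sub ?_).norm
      exact ((ContinuousLinearMap.apply ℂ ℂ (w - z)).continuous.tendsto L).comp hL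
    refine le_of_tendsto h1 (Filter.univ_mem' (fun j => ?_))
    exact (taylor_two (F j) z w R M hR ((hF j).mono hsub) (hMb j) hw).2
  rw [hasFDerivAt_iff_isLittleO_nhds_zero]
  have h2 : (fun h : E n => G (z + h) - G z - L h) =O[𝓝 0] fun h => ‖h‖ ^ 2 := by
    refine Asymptotics.IsBigO.of_bound (4 * M / R ^ 2) ?_
    filter_upwards [Metric.ball_mem_nhds (0 : E n) hR] with h hh
    have hh' : z + h ∈ Metric.ball z R := by
      rw [Metric.mem_ball, dist_eq_norm]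
      rw [Metric.mem_ball, dist_zero_right] at hh
      simpa using hh
    have := key (z + h) hh'
    rw [add_sub_cancel_left] at this
    calc ‖G (z + h) - G z - L h‖ ≤ 4 * M * (‖h‖ / R) ^ 2 := this
      _ = 4 * M / R ^ 2 * ‖‖h‖ ^ 2‖ := by
        rw [norm_pow, norm_norm]; field_simp
  refine h2.trans_isLittleO ?_
  have : (fun h : E n => ‖h‖ ^ 2) =o[𝓝 0] fun h => ‖h‖ ^ 1 := by
    have := (Asymptotics.isLittleO_pow_pow (𝕜 := ℝ) (m := 1) (n := 2) (by norm_num))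
    exact this.comp_tendsto (tendsto_norm_zero)
  simp only [pow_one] at this
  exact this.trans_isBigO (Asymptotics.isBigO_refl _ _).norm_left

/-- uniform convergence on smaller balls -/
theorem ulim_unif (U : Ultrafilter ℕ) (F : ℕ → E n → ℂ) (G : E n → ℂ)
    (hF : ∀ j, DifferentiableOn ℂ (F j) (B n)) (hG : DifferentiableOn ℂ G (B n))
    (hM : ∀ r < (1:ℝ), ∃ M : ℝ, ∀ j, ∀ z : E n, ‖z‖ ≤ r → ‖F j z‖ ≤ M)
    (hFG : ∀ z ∈ B n, Tendsto (fun j => F j z) U (𝓝 (G z))) (r : ℝ) (hr : r < 1) (ε : ℝ) (hε : 0 < ε) :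
    ∃ j, ∀ z : E n, ‖z‖ ≤ r → ‖F j z - G z‖ ≤ ε := by
  set R : ℝ := (1 - r) / 2 with hRdef
  have hR : 0 < R := by rw [hRdef]; linarith
  obtain ⟨M, hMM⟩ := hM ((1 + r) / 2) (by linarith)
  have hGM : ∀ z : E n, ‖z‖ ≤ (1 + r) / 2 → ‖G z‖ ≤ M := by
    intro z hz
    have hz' : z ∈ B n := by
      simp only [B, Metric.mem_ball, dist_zero_right]; linarith
    exact le_of_tendsto (hFG z hz').norm (Filter.univ_mem' (fun j => hMM j z hz))
  have hball : ∀ z : E n, ‖z‖ ≤ r → ∀ x ∈ Metric.ball z R, ‖x‖ ≤ (1 + r) / 2 := by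
    intro z hz x hx
    rw [Metric.mem_ball, dist_eq_norm] at hx
    have : ‖x‖ ≤ ‖x - z‖ + ‖z‖ := by
      calc ‖x‖ = ‖(x - z) + z‖ := by rw [sub_add_cancel]
        _ ≤ _ := norm_add_le _ _
    rw [hRdef] at hx
    linarith
  have hsub : ∀ z : E n, ‖z‖ ≤ r → Metric.ball z R ⊆ B n := by
    intro z hz x hx
    have := hball z hz x hx
    simp only [B, Metric.mem_ball, dist_zero_right]
    linarith
  have hr2 : r ≤ (1 + r) / 2 := by linarith
  by_cases hne : ∃ z₀ : E n, ‖z₀‖ ≤ r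
  swap
  · exact ⟨0, fun z hz => (hne ⟨z, hz⟩).elim⟩
  obtain ⟨z₀, hz₀⟩ := hne
  have hM0 : 0 ≤ M := (norm_nonneg _).trans (hMM 0 z₀ (hz₀.trans hr2))
  have hlip : ∀ (g : E n → ℂ), DifferentiableOn ℂ g (B n) → (∀ z : E n, ‖z‖ ≤ (1 + r) / 2 → ‖g z‖ ≤ M) →
      ∀ z w : E n, ‖z‖ ≤ r → ‖w‖ ≤ r → ‖g w - g z‖ ≤ 2 * M / R * ‖w - z‖ := by
    intro g hg hgM z w hz hw
    exact lip_of_bdd g z w R M hR (hg.mono (hsub z hz)) (fun x hx => hgM x (hball z hz x hx))
      (hgM w (hw.trans hr2))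
  -- finite cover
  set δ : ℝ := ε / (8 * M / R + 1) with hδdef
  have hden : 0 < 8 * M / R + 1 := by positivity
  have hδ : 0 < δ := by positivity
  obtain ⟨t, hts, htf, htc⟩ := (isCompact_closedBall (0 : E n) r).finite_cover_balls hδ
  have hev : ∀ᶠ j in (U : Filter ℕ), ∀ x ∈ t, ‖F j x - G x‖ ≤ ε / 2 := by
    rw [Filter.eventually_all_finite htf]
    intro x hx
    have hx1 : ‖x‖ ≤ r := by simpa using hts hx
    have hxB : x ∈ B n := by
      simp only [B, Metric.mem_ball, dist_zero_right]; linarith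
    have h1 : Tendsto (fun j => ‖F j x - G x‖) U (𝓝 0) := by
      have := ((hFG x hxB).sub_const (G x)).norm
      simpa using this
    exact (h1.eventually (gt_mem_nhds (by positivity : (0:ℝ) < ε / 2))).mono (fun j hj => hj.le)
  obtain ⟨j, hj⟩ := hev.exists
  refine ⟨j, fun z hz => ?_⟩
  have hzc : z ∈ ⋃ y ∈ t, Metric.ball y δ := htc (by simpa using hz)
  simp only [mem_iUnion, Metric.mem_ball, exists_prop] at hzc
  obtain ⟨y, hy, hzy⟩ := hzc
  have hy1 : ‖y‖ ≤ r := by simpa using hts hy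
  have e1 := hlip (F j) (hF j) (hMM j) y z hy1 hz
  have e2 := hlip G hG hGM z y hz hy1
  have e3 := hj y hy
  have e4 : ‖z - y‖ ≤ δ := by rw [← dist_eq_norm]; exact hzy.le
  have e5 : 2 * M / R * ‖z - y‖ ≤ ε / 4 := by
    calc 2 * M / R * ‖z - y‖ ≤ 2 * M / R * δ := by gcongr
      _ = (8 * M / R) * δ / 4 := by ring
      _ ≤ (8 * M / R + 1) * δ / 4 := by gcongr; linarith
      _ = ε / 4 := by rw [hδdef]; field_simp
  have e6 : ‖y - z‖ = ‖z - y‖ := norm_sub_rev _ _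
  rw [e6] at e2
  calc ‖F j z - G z‖ = ‖(F j z - F j y) + (F j y - G y) + (G y - G z)‖ := by
        congr 1; ring
    _ ≤ ‖F j z - F j y‖ + ‖F j y - G y‖ + ‖G y - G z‖ :=
        (norm_add_le _ _).trans (add_le_add_left (norm_add_le _ _) _)
    _ ≤ ε / 4 + ε / 2 + ε / 4 := by
        refine add_le_add (add_le_add (e1.trans e5) e3) (e2.trans e5)
    _ = ε := by ring

end

end Pool.Agent.Lib.MP7ebef4
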