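import Pool.Agent.Lib.MP_7ebef4_an.ErrForm
import Pool.Agent.Lib.MP_7ebef4_an.ErrOp2
import Pool.Agent.Lib.MP_7ebef4_an.CFun
import Pool.Agent.Lib.MP_7ebef4_an.PumpB
import Pool.Agent.Lib.MP_7ebef4_an.Block
import Pool.Agent.Lib.MP_7ebef4_an.Dir

/-! The uniform theorem from the modules. -/

set_option autoImplicit false

open MeasureTheory Set

namespace Pool.Agent.Lib.MP7ebef4

noncomputable section

variable {n : ℕ}

theorem IsC.mono_C {cT : ℝ} {T : Tree n cT} {C C' m : ℝ} {c : T.ι → ℝ} (h : IsC T C m c)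
    (hCC : C ≤ C') : IsC T C' m c where
  m_pos := h.m_pos
  low := h.low
  mono := h.mono
  reg := by
    intro x y
    refine (h.reg x y).trans ?_
    have h1 : 0 < c y := lt_of_lt_of_le (Real.sqrt_pos.2 h.m_pos) (h.low y)
    have h2 := T.h_pos x
    have h3 := T.h_pos y
    have h4 := d_nonneg (T.pt x) (T.pt y)
    gcongr
  pack := by
    intro x₀ Λ V hΛ h1 h2
    refine (h.pack x₀ Λ V hΛ h1 h2).trans ?_
    have h3 := T.vol_nonneg x₀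
    gcongr
  carl := by
    intro μ K₁ h1 h2 h3
    refine (h.carl μ K₁ h1 h2 h3).trans ?_
    have h4 := h.m_pos
    gcongr

theorem Sys.XN_Aop_le {cT C K : ℝ} (S : Sys n cT C K) {f : E n → ℂ} {A : ℝ}
    (h : ∫⁻ w, ‖Aop f w‖ₑ ^ (2:ℕ) * ENNReal.ofReal (S.c (S.T.loc w) ^ 2)⁻¹ ∂(lam n) ≤
        ENNReal.ofReal A) : S.XN (Aop f) ≤ ENNReal.ofReal (K ^ 2 * A) := by
  rw [ENNReal.ofReal_mul (sq_nonneg K)]
  refine le_trans ?_ (mul_le_mul_right h _)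
  rw [← lintegral_const_mul' _ _ ENNReal.ofReal_ne_top]
  unfold XN
  apply lintegral_mono
  intro w
  have hc := S.c_pos (S.vw w)
  have hc2 := S.c_pos (S.T.loc w)
  have hp := S.hp.prim (S.T.loc w)
  simp only
  rw [S.XN_term_eq]
  have e : ‖Aop f w‖ₑ ^ (2:ℕ) = ENNReal.ofReal (‖Aop f w‖ ^ 2) := by
    rw [← ofReal_norm, ENNReal.ofReal_pow (norm_nonneg _)]
  rw [e, ← ENNReal.ofReal_mul (sq_nonneg _), ← ENNReal.ofReal_mul (sq_nonneg _)]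
  apply ENNReal.ofReal_le_ofReal
  have hp' : S.c (S.T.loc w) ≤ K * S.c (S.vw w) := hp
  have h1 : (S.c (S.vw w) ^ 2)⁻¹ ≤ K ^ 2 * (S.c (S.T.loc w) ^ 2)⁻¹ := by
    rw [← div_eq_mul_inv, inv_eq_one_div, div_le_div_iff₀ (by positivity) (by positivity), one_mul,
      ← mul_pow]
    exact pow_le_pow_left₀ hc2.le hp' 2
  calc ‖Aop f w‖ ^ 2 * (S.c (S.vw w) ^ 2)⁻¹ ≤ ‖Aop f w‖ ^ 2 * (K ^ 2 * (S.c (S.T.loc w) ^ 2)⁻¹) :=
        mul_le_mul_of_nonneg_left h1 (sq_nonneg _)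
    _ = _ := by ring

/-- the statement of the module Neumann -/
def NeumannStmt (n : ℕ) : Prop := ∀ (cT C K : ℝ) (S : Sys n cT C K) (Gj : Fin S.N → E n → ℂ)
    (Ef : (E n → ℂ) → (E n → ℂ)) (A : ℝ), 0 < A →
    (∀ F, AEStronglyMeasurable F (lam n) → S.XN F < ⊤ → AEStronglyMeasurable (Ef F) (lam n) ∧
      S.XN (Ef F) ≤ ENNReal.ofReal (1/4) * S.XN F ∧
      ∀ z ∈ B n, ∑ j, Gj j z * S.HFj F j z = Sg F z + Sg (Ef F) z) →
    (∀ F, AEStronglyMeasurable F (lam n) → S.XN F < ⊤ →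
      (∀ j, DifferentiableOn ℂ (S.HFj F j) (B n)) ∧
      ∑ j, AN (S.HFj F j) ≤ ENNReal.ofReal A * S.XN F) →
    ∀ (F₀ : E n → ℂ), AEStronglyMeasurable F₀ (lam n) → S.XN F₀ < ⊤ → ∀ (η δ : ℝ), 0 < η → 0 < δ →
    ∃ H : Fin S.N → E n → ℂ, (∀ j, DifferentiableOn ℂ (H j) (B n)) ∧
      ∑ j, AN (H j) ≤ ENNReal.ofReal (4 * A) * S.XN F₀ ∧
      ∀ z, ‖z‖ ≤ 1 - η → ‖Sg F₀ z - ∑ j, Gj j z * H j z‖ ≤ δ

theorem core (hn : 0 < n) (hNeu : NeumannStmt n) {cT C K AE AG AH CL : ℝ} (hAH : 0 < AH)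
    (hCL : 0 < CL) (S : Sys n cT C K)
    (hEF : ∀ F, AEStronglyMeasurable F (lam n) → S.XN F < ⊤ →
      S.XN (S.EF F) ≤ ENNReal.ofReal (AE * (S.kap1 ^ 2 + S.eb)) * S.XN F)
    (hsmall : AE * (S.kap1 ^ 2 + S.eb) ≤ 1/4)
    (hG : ∑ j, AN (S.G j) ≤ ENNReal.ofReal (AG * S.m))
    (hH : ∀ F, AEStronglyMeasurable F (lam n) → S.XN F < ⊤ →
      (∀ j, DifferentiableOn ℂ (S.HFj F j) (B n)) ∧
      ∑ j, AN (S.HFj F j) ≤ ENNReal.ofReal AH * S.XN F)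
    (hLP : ∀ g : E n → ℂ, DifferentiableOn ℂ g (B n) → H2 g ≤ ENNReal.ofReal CL * AN g)
    {f : E n → ℂ} (hf : DifferentiableOn ℂ f (B n)) {M : ℝ}
    (hM : S.XN (Aop f) ≤ ENNReal.ofReal M) {η : ℝ} (hη : 0 < η) :
    ∃ G H : Fin S.N → E n → ℂ,
      (∀ j, DifferentiableOn ℂ (G j) (B n) ∧ H2 (G j) ≤ ENNReal.ofReal (CL * (AG * S.m)) ∧
        DifferentiableOn ℂ (H j) (B n) ∧ H2 (H j) ≤ ENNReal.ofReal (CL * (4 * AH * M))) ∧
      ∀ z : E n, ‖z‖ ≤ 1 - η → ‖f z - ∑ j, G j z * H j z‖ ≤ η := by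
  have hX : S.XN (Aop f) < ⊤ := lt_of_le_of_lt hM ENNReal.ofReal_lt_top
  have hFm := aesm_Aop hf
  have hE : ∀ F, AEStronglyMeasurable F (lam n) → S.XN F < ⊤ →
      AEStronglyMeasurable (S.EF F) (lam n) ∧
      S.XN (S.EF F) ≤ ENNReal.ofReal (1/4) * S.XN F ∧
      ∀ z ∈ B n, ∑ j, S.G j z * S.HFj F j z = Sg F z + Sg (S.EF F) z := by
    intro F hF hXF
    have h1 : S.XN (S.EF F) ≤ ENNReal.ofReal (1/4) * S.XN F := by
      refine (hEF F hF hXF).trans ?_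
      gcongr
    refine ⟨S.EF_aesm hF hXF, h1, fun z hz => S.G_mul_H hF hXF ?_ hz⟩
    exact lt_of_le_of_lt h1 (ENNReal.mul_lt_top ENNReal.ofReal_lt_top hXF)
  obtain ⟨H, hHd, hHn, hHa⟩ := hNeu cT C K S S.G S.EF AH hAH hE hH (Aop f) hFm hX η η hη hη
  have hAN : AN f < ⊤ := S.L2_of_XN hX
  refine ⟨S.G, H, ?_, ?_⟩
  · intro j
    refine ⟨S.G_diff j, ?_, hHd j, ?_⟩
    · refine (hLP _ (S.G_diff j)).trans ?_
      rw [ENNReal.ofReal_mul hCL.le]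
      apply mul_le_mul_right
      exact (Finset.single_le_sum (f := fun j => AN (S.G j)) (fun _ _ => zero_le)
        (Finset.mem_univ j)).trans hG
    · refine (hLP _ (hHd j)).trans ?_
      rw [ENNReal.ofReal_mul hCL.le]
      apply mul_le_mul_right
      refine (Finset.single_le_sum (f := fun j => AN (H j)) (fun _ _ => zero_le)
        (Finset.mem_univ j)).trans (hHn.trans ?_)
      rw [ENNReal.ofReal_mul (p := 4 * AH) (q := M) (by positivity)]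
      exact mul_le_mul_right hM _
  · intro z hz
    have hzB : z ∈ B n := by rw [mem_B]; linarith
    have h1 := hHa z hz
    rw [reproducing hn f hf hAN z hzB] at h1
    exact h1

/-- choice of `L` -/
theorem exists_L (hn : 0 < n) {τ : ℝ} (hτ : 0 < τ) (_hτ1 : τ ≤ 1) :
    ∃ L : ℕ, ((1/64 : ℝ) ^ L) ^ (1/4:ℝ) ≤ τ ∧ ((1/64 : ℝ) ^ L) ^ n ≤ τ := by
  obtain ⟨L, hL⟩ := exists_pow_lt_of_lt_one (show 0 < τ ^ 4 by positivity)
    (show (1/64:ℝ) < 1 by norm_num)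
  have h0 : 0 < (1/64:ℝ) ^ L := by positivity
  have h1 : (1/64:ℝ) ^ L ≤ 1 := pow_le_one₀ (by norm_num) (by norm_num)
  have h2 : ((1/64 : ℝ) ^ L) ^ (1/4:ℝ) ≤ τ := by
    calc ((1/64 : ℝ) ^ L) ^ (1/4:ℝ) ≤ (τ ^ 4) ^ (1/4:ℝ) :=
          Real.rpow_le_rpow h0.le hL.le (by norm_num)
      _ = τ := by
          rw [← Real.rpow_natCast, ← Real.rpow_mul hτ.le]
          norm_num
  refine ⟨L, h2, ?_⟩
  calc ((1/64 : ℝ) ^ L) ^ n ≤ ((1/64 : ℝ) ^ L) ^ 1 := pow_le_pow_of_le_one h0.le h1 hn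
    _ = ((1/64 : ℝ) ^ L) ^ (1:ℝ) := by rw [pow_one, Real.rpow_one]
    _ ≤ ((1/64 : ℝ) ^ L) ^ (1/4:ℝ) := Real.rpow_le_rpow_of_exponent_ge h0 h1 (by norm_num)
    _ ≤ τ := h2

/-- choice of `p'` -/
theorem exists_p' (L : ℕ) {τ : ℝ} (hτ : 0 < τ) (p₀ : ℝ) :
    ∃ p' : ℝ, p₀ ≤ p' ∧ 8 ≤ p' ∧ (L + 2) / p' ^ 2 ≤ τ ∧ L * 64 ^ L / p' ≤ τ := by
  set p' : ℝ := |p₀| + 8 + (L + 2) / τ + L * 64 ^ L / τ with hp'
  have a1 : 0 ≤ |p₀| := abs_nonneg _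
  have a2 : 0 ≤ ((L:ℝ) + 2) / τ := by positivity
  have a3 : 0 ≤ (L:ℝ) * 64 ^ L / τ := by positivity
  have a4 := le_abs_self p₀
  have h8 : 8 ≤ p' := by linarith
  have hp0 : 0 < p' := by linarith
  refine ⟨p', by linarith, h8, ?_, ?_⟩
  · have h1 : ((L:ℝ) + 2) / τ ≤ p' := by linarith
    rw [div_le_iff₀ hτ] at h1
    rw [div_le_iff₀ (by positivity)]
    have h2 : p' ≤ p' ^ 2 := by nlinarith
    calc (L:ℝ) + 2 ≤ p' * τ := h1
      _ = τ * p' := by ring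
      _ ≤ τ * p' ^ 2 := mul_le_mul_of_nonneg_left h2 hτ.le
  · have h1 : (L:ℝ) * 64 ^ L / τ ≤ p' := by linarith
    rw [div_le_iff₀ hτ] at h1
    rw [div_le_iff₀ hp0]
    linarith

/-- choice of `N₀` -/
theorem exists_N₀ {τ : ℝ} (hτ : 0 < τ) : ∃ N₀ : ℕ, 0 < N₀ ∧ 1 / (N₀:ℝ) ≤ τ := by
  obtain ⟨k, hk⟩ := exists_nat_gt (1 / τ)
  have hk0 : (0:ℝ) < k := lt_trans (by positivity) hk
  refine ⟨k, by exact_mod_cast hk0, ?_⟩
  rw [div_le_iff₀ hk0]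
  rw [div_lt_iff₀ hτ] at hk
  linarith

/-- smallness of the parameters -/
theorem small_params {AE CB τ a b c e x y : ℝ} (hAE : 0 < AE) (hCB : 0 < CB) (hτ : 0 < τ)
    (hτ1 : τ ≤ 1) (h1 : τ ≤ 1 / (128 * AE)) (h2 : τ ≤ 1 / (16 * AE * CB))
    (ha : a ≤ τ) (hb : b ≤ τ) (hc : c ≤ τ) (he : e ≤ τ) (hx : x ≤ τ) (hy : y ≤ τ)
    (h0 : 0 ≤ a + b + c + e) :
    AE * ((a + b + c + e) ^ 2 + CB * (x + y)) ≤ 1/4 := by
  have k1 : (a + b + c + e) ^ 2 ≤ (4 * τ) ^ 2 := pow_le_pow_left₀ h0 (by linarith) 2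
  have k2 : (4 * τ) ^ 2 ≤ 16 * τ := by nlinarith
  have k3 : CB * (x + y) ≤ CB * (2 * τ) := mul_le_mul_of_nonneg_left (by linarith) hCB.le
  rw [le_div_iff₀ (by positivity)] at h1 h2
  have k4 : AE * ((a + b + c + e) ^ 2 + CB * (x + y)) ≤ AE * (16 * τ + CB * (2 * τ)) :=
    mul_le_mul_of_nonneg_left (by linarith) hAE.le
  nlinarith

/-- volume of the ball in terms of `sig` -/
theorem sig_univ_pos (n : ℕ) : 0 < sig n univ := by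
  unfold sig
  rw [Measure.map_apply (by fun_prop) MeasurableSet.univ, preimage_univ,
    Measure.restrict_apply_univ]
  exact Metric.measure_ball_pos _ _ one_pos

/-- replace `f` by a nearby function of nonzero norm -/
theorem exists_nonzero (f : E n → ℂ) (hf : AEMeasurable f (sig n)) {m : ℝ} (hm : 0 < m)
    (hfm : ∫⁻ ζ, ‖f ζ‖ₑ ∂(sig n) ≤ ENNReal.ofReal m) {η : ℝ} (hη : 0 < η) :
    ∃ (δ m' : ℝ), 0 ≤ δ ∧ δ ≤ η ∧ 0 < m' ∧ m' ≤ m ∧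
      ∫⁻ ζ, ‖f ζ + (δ:ℂ)‖ₑ ∂(sig n) = ENNReal.ofReal m' := by
  by_cases h0 : ∫⁻ ζ, ‖f ζ‖ₑ ∂(sig n) = 0
  · set V := (sig n univ).toReal with hV
    have hVp : 0 < V := ENNReal.toReal_pos (sig_univ_pos n).ne' (measure_ne_top _ _)
    set δ := min η (m / V) with hδ
    have hδ0 : 0 < δ := lt_min hη (by positivity)
    have hδV : δ * V ≤ m := by
      have := min_le_right η (m / V)
      rw [← hδ, le_div_iff₀ hVp] at this
      exact this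
    refine ⟨δ, δ * V, hδ0.le, min_le_left _ _, by positivity, hδV, ?_⟩
    have h1 : ∀ᵐ ζ ∂(sig n), f ζ = 0 := by
      have := (lintegral_eq_zero_iff' hf.enorm).1 h0
      filter_upwards [this] with ζ hζ
      simpa using hζ
    have h2 : ∫⁻ ζ, ‖f ζ + (δ:ℂ)‖ₑ ∂(sig n) = ∫⁻ _ζ, ENNReal.ofReal δ ∂(sig n) := by
      apply lintegral_congr_ae
      filter_upwards [h1] with ζ hζ
      rw [hζ, zero_add, ← ofReal_norm, Complex.norm_real, Real.norm_of_nonneg hδ0.le]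
    rw [h2, lintegral_const, ENNReal.ofReal_mul hδ0.le, hV, ENNReal.ofReal_toReal (measure_ne_top _ _)]
  · have hfin : ∫⁻ ζ, ‖f ζ‖ₑ ∂(sig n) ≠ ⊤ := (lt_of_le_of_lt hfm ENNReal.ofReal_lt_top).ne
    refine ⟨0, (∫⁻ ζ, ‖f ζ‖ₑ ∂(sig n)).toReal, le_refl _, hη.le, ENNReal.toReal_pos h0 hfin, ?_, ?_⟩
    · rw [← ENNReal.toReal_ofReal hm.le]
      exact ENNReal.toReal_mono ENNReal.ofReal_ne_top hfm
    · simp only [Complex.ofReal_zero, add_zero]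
      rw [ENNReal.ofReal_toReal hfin]

/-- **the uniform theorem** from its inputs -/
theorem uniform_of (n : ℕ) (hn : 0 < n) (hup : HUp n) (hI : CF.Inp n)
    (hFR : FRstmt n) (hQ1 : SchurQ n 1) (hQ4 : SchurQ n (1/4))
    (hTree : ∃ cT : ℝ, 0 < cT ∧ ∀ I : ℕ, ∃ T : Tree n cT, T.I = I)
    (hNS : ∀ cT : ℝ, 0 < cT → ∀ α β : ℝ, (n:ℝ) < α → α < β → ∃ A : ℝ, 0 < A ∧ NodeSum n cT α β A)
    (hLS : ∀ cT : ℝ, 0 < cT → ∀ m : ℝ, (n:ℝ) < m → ∃ A : ℝ, 0 < A ∧ LevelSum n cT m A)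
    (hKC : ∀ cT : ℝ, 0 < cT → ∃ KC : ℝ, 0 < KC ∧ KCn n cT KC)
    (hE2b : ∀ cT C K : ℝ, 0 < cT → 1 ≤ C → 1 ≤ K → E2bStmt n cT C K)
    (hLP : ∃ C : ℝ, 0 < C ∧ ∀ g : E n → ℂ, DifferentiableOn ℂ g (B n) →
      H2 g ≤ ENNReal.ofReal C * AN g)
    (hNeu : NeumannStmt n) :
    ∃ (N : ℕ) (C : ℝ), 0 < C ∧ ∀ (f : E n → ℂ) (ρ m : ℝ), 1 < ρ →
    DifferentiableOn ℂ f (Metric.ball 0 ρ) → 0 < m → ∫⁻ ζ, ‖f ζ‖ₑ ∂(sig n) ≤ ENNReal.ofReal m →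
    ∀ η : ℝ, 0 < η → ∃ G H : Fin N → E n → ℂ,
      (∀ j, DifferentiableOn ℂ (G j) (B n) ∧ H2 (G j) ≤ ENNReal.ofReal (C * m) ∧
        DifferentiableOn ℂ (H j) (B n) ∧ H2 (H j) ≤ ENNReal.ofReal (C * m)) ∧
      ∀ z : E n, ‖z‖ ≤ 1 - η → ‖f z - ∑ j, G j z * H j z‖ ≤ η := by
  obtain ⟨cT, hcT, hTree⟩ := hTree
  obtain ⟨Cc, hCc, hCF⟩ := exists_c_of n hI cT hcT
  set C : ℝ := Cc + 1 with hC
  have hC1 : 1 ≤ C := by linarith
  obtain ⟨K, hK1, hPump⟩ := exists_pumps_of n cT (hKC cT hcT) C (by linarith)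
  obtain ⟨CB, hCB, hBlock⟩ := exists_blocks_of n hn hup cT hcT
  -- constants of the error analysis
  have sn1 : (n:ℝ) < ((sE n - n - 1 : ℕ) : ℝ) := by
    have : n < sE n - n - 1 := by unfold sE; omega
    exact_mod_cast this
  have sn2 : (n:ℝ) < ((sE n - n : ℕ) : ℝ) := by
    have : n < sE n - n := by unfold sE; omega
    exact_mod_cast this
  have sn3 : (n:ℝ) < ((sE n - n : ℕ) : ℝ) - 1/4 := by
    have : n + 1 ≤ sE n - n := by unfold sE; omega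
    have h2 : ((n + 1 : ℕ) : ℝ) ≤ ((sE n - n : ℕ) : ℝ) := by exact_mod_cast this
    push_cast at h2
    linarith
  have sn4 : (n:ℝ) < ((Sys.mE n : ℕ) : ℝ) - 1/4 := by
    have : n + 1 ≤ Sys.mE n := by unfold Sys.mE sE; omega
    have h2 : ((n + 1 : ℕ) : ℝ) ≤ ((Sys.mE n : ℕ) : ℝ) := by exact_mod_cast this
    push_cast at h2
    linarith
  have h1 : Err1Stmt n cT C K := Err1_le n cT C K (hLS cT hcT _ sn1)
    (hNS cT hcT _ _ sn3 (by linarith)) (hNS cT hcT _ _ sn4 (by linarith))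
    (hNS cT hcT _ _ sn4 (by linarith))
  have hNS' : ∃ A : ℝ, 0 < A ∧ NodeSum n cT ((sE n - n : ℕ) : ℝ) ((sE n - n + 1 : ℕ) : ℝ) A :=
    hNS cT hcT _ _ sn2 (by push_cast; linarith)
  obtain ⟨AE, hAE, hEF⟩ := EF_le n cT C K hQ4 h1 (E2a_of n cT C K hFR hNS')
    (hE2b cT C K hcT hC1 hK1)
  obtain ⟨AG, hAG, hG⟩ := G_norm_of n cT C K hFR hNS'
  obtain ⟨AH, hAH, hH⟩ := HN_of n (SgHol_of hn) hQ1
  obtain ⟨CL, hCL, hLP⟩ := hLP
  -- parameters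
  set τ : ℝ := min 1 (min (1 / (128 * AE)) (1 / (16 * AE * CB))) with hτ
  have hτ0 : 0 < τ := by
    rw [hτ]
    refine lt_min one_pos (lt_min ?_ ?_) <;> positivity
  have hτ1 : τ ≤ 1 := min_le_left _ _
  have hτ2 : τ ≤ 1 / (128 * AE) := (min_le_right _ _).trans (min_le_left _ _)
  have hτ3 : τ ≤ 1 / (16 * AE * CB) := (min_le_right _ _).trans (min_le_right _ _)
  obtain ⟨L, hL1, hL2⟩ := exists_L hn hτ0 hτ1
  obtain ⟨p₀, hPump⟩ := hPump τ hτ0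
  obtain ⟨p', hp0, hp8, hp1, hp2⟩ := exists_p' L hτ0 p₀
  obtain ⟨N₀, hN₀, hN₀τ⟩ := exists_N₀ hτ0
  obtain ⟨J, hDir⟩ := exists_dir_of n hup cT hcT L (8 ^ L * (p' + 2))
  refine ⟨N₀ * J, CL * AG + CL * (4 * AH * (K ^ 2 * C)), by positivity, ?_⟩
  intro f ρ m hρ hf hm hfm η hη
  have hBsub : B n ⊆ Metric.ball 0 ρ := Metric.ball_subset_ball hρ.le
  have hfae : AEMeasurable f (sig n) := by
    have hsub : Metric.closedBall (0 : E n) 1 ⊆ Metric.ball 0 ρ := Metric.closedBall_subset_ball hρ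
    have h1 : AEMeasurable f ((sig n).restrict (Metric.closedBall (0 : E n) 1)) :=
      (hf.continuousOn.mono hsub).aemeasurable Metric.isClosed_closedBall.measurableSet
    have h2 : (sig n).restrict (Metric.closedBall (0 : E n) 1) = sig n := by
      apply Measure.restrict_eq_self_of_ae_mem
      have h3 : ∀ᵐ ζ ∂(sig n), ζ ∈ Sph n := by
        rw [ae_iff]
        exact hI.sph
      filter_upwards [h3] with ζ hζ
      exact Metric.sphere_subset_closedBall hζ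
    rwa [h2] at h1
  obtain ⟨δ, m', hδ0, hδη, hm'0, hm'm, hfm'⟩ := exists_nonzero f hfae hm hfm
    (show 0 < η / 2 by positivity)
  have hf' : DifferentiableOn ℂ (fun z => f z + (δ:ℂ)) (Metric.ball 0 ρ) := hf.add_const _
  obtain ⟨I₀, hCF⟩ := hCF (fun z => f z + (δ:ℂ)) ρ m' hρ hf' hm'0 hfm'
  obtain ⟨T, hT⟩ := hTree I₀
  obtain ⟨c, hIsC, hcA⟩ := hCF T hT.ge
  have hIsC' : IsC T C m' c := hIsC.mono_C (by linarith)
  obtain ⟨resp, hresp⟩ := hPump p' hp0 T m' c hIsC'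
  obtain ⟨b, hb⟩ := hBlock L N₀ hN₀ T resp hresp.carl
  obtain ⟨u, hu⟩ := hDir N₀ hN₀ T c resp b hresp.step hresp.root
  have hebn : 0 ≤ CB * (1 / (N₀:ℝ) + ((1/64 : ℝ) ^ L) ^ n) := by positivity
  let S : Sys n cT C K :=
    { T := T, m := m', c := c, hc := hIsC', ε := τ, p' := p', resp := resp, hp := hresp, L := L,
      N₀ := N₀, eb := CB * (1 / N₀ + ((1/64 : ℝ) ^ L) ^ n), b := b, hb := hb,
      p'' := 8 ^ L * (p' + 2), N := N₀ * J, u := u, hu := hu, hK := hK1, hC := hC1, hcT := hcT,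
      hε := hτ0, hp' := hp8, heb := hebn, hp'' := le_refl _, hn := hn }
  have hk : S.kap1 = ((1/64 : ℝ) ^ L) ^ (1/4:ℝ) + τ + (L + 2) / p' ^ 2 + L * 64 ^ L / p' := rfl
  have hsmall : AE * (S.kap1 ^ 2 + S.eb) ≤ 1/4 := by
    have hk0 := S.kap1_nonneg
    rw [hk] at hk0 ⊢
    exact small_params hAE hCB hτ0 hτ1 hτ2 hτ3 hL1 le_rfl hp1 hp2 hN₀τ hL2 hk0
  have hcA' : ∫⁻ w, ‖Aop (fun z => f z + (δ:ℂ)) w‖ₑ ^ (2:ℕ) *
      ENNReal.ofReal (S.c (S.T.loc w) ^ 2)⁻¹ ∂(lam n) ≤ ENNReal.ofReal (C * m') := by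
    refine hcA.trans (ENNReal.ofReal_le_ofReal ?_)
    nlinarith
  have hXf := S.XN_Aop_le hcA'
  obtain ⟨G, H, hGH, happ⟩ := core hn hNeu hAH hCL S (hEF S) hsmall (hG S)
    (fun F hF hX => ⟨(hH cT C K S F hF hX).1, (hH cT C K S F hF hX).2.2⟩) hLP
    (hf'.mono hBsub) hXf (show 0 < η / 2 by positivity)
  refine ⟨G, H, ?_, ?_⟩
  · intro j
    obtain ⟨g1, g2, g3, g4⟩ := hGH j
    have hSm : S.m = m' := rfl
    rw [hSm] at g2
    refine ⟨g1, g2.trans (ENNReal.ofReal_le_ofReal ?_), g3, g4.trans (ENNReal.ofReal_le_ofReal ?_)⟩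
    · have t1 : CL * (AG * m') ≤ CL * (AG * m) := by gcongr
      have t2 : 0 ≤ CL * (4 * AH * (K ^ 2 * C)) * m := by positivity
      calc CL * (AG * m') ≤ CL * (AG * m) := t1
        _ ≤ CL * (AG * m) + CL * (4 * AH * (K ^ 2 * C)) * m := by linarith
        _ = _ := by ring
    · have t1 : CL * (4 * AH * (K ^ 2 * (C * m'))) ≤ CL * (4 * AH * (K ^ 2 * (C * m))) := by gcongr
      have t2 : 0 ≤ CL * AG * m := by positivity
      calc CL * (4 * AH * (K ^ 2 * (C * m'))) ≤ CL * (4 * AH * (K ^ 2 * (C * m))) := t1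
        _ ≤ CL * (4 * AH * (K ^ 2 * (C * m))) + CL * AG * m := by linarith
        _ = _ := by ring
  · intro z hz
    have h2 := happ z (by linarith)
    have e : f z - ∑ j, G j z * H j z = (f z + (δ:ℂ) - ∑ j, G j z * H j z) - (δ:ℂ) := by ring
    rw [e]
    refine (norm_sub_le _ _).trans ?_
    rw [Complex.norm_real, Real.norm_of_nonneg hδ0]
    linarith

end

end Pool.Agent.Lib.MP7ebef4
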