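import Pool.Agent.Lib.MP_7ebef4_an.RMaxB

/-! Poisson kernel on `AddCircle (2π)`. -/

set_option autoImplicit false

open MeasureTheory Set Real
open scoped NNReal ENNReal

namespace Pool.Agent.Lib.MP7ebef4

noncomputable section

namespace RMax

instance fact_two_pi : Fact (0 < 2 * π) := ⟨by positivity⟩

/-- the circle -/
abbrev TC := AddCircle (2 * π)

/-- the point of the circle -/
def ee (t : TC) : ℂ := (AddCircle.toCircle t : ℂ)

theorem ee_add (s t : TC) : ee (s + t) = ee s * ee t := by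
  unfold ee; rw [AddCircle.toCircle_add]; simp

theorem ee_neg (t : TC) : ee (-t) = (starRingEnd ℂ) (ee t) := by
  unfold ee; rw [AddCircle.toCircle_neg]; exact Circle.coe_inv_eq_conj _

theorem norm_ee (t : TC) : ‖ee t‖ = 1 := Circle.norm_coe _

theorem continuous_ee : Continuous ee := by
  unfold ee; fun_prop

theorem ee_coe (x : ℝ) : ee (x : TC) = circleMap 0 1 x := by
  unfold ee
  rw [AddCircle.toCircle_apply_mk, Circle.coe_exp, circleMap_zero]
  have : 2 * π / (2 * π) = 1 := div_self (by positivity)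
  rw [this]; simp

theorem lint_circle (F : ℂ → ENNReal) :
    ∫⁻ t : TC, F (ee t) = ∫⁻ θ in Ioc (0:ℝ) (2 * π), F (circleMap 0 1 θ) := by
  have h := AddCircle.lintegral_preimage (2 * π) 0 (fun t => F (ee t))
  rw [zero_add] at h
  rw [← h]
  exact lintegral_congr (fun θ => by rw [ee_coe])

theorem lint_eq_avg (F : ℂ → ℝ) (hF : ContinuousOn F (Metric.sphere 0 1))
    (h0 : ∀ z ∈ Metric.sphere (0:ℂ) 1, 0 ≤ F z) :
    ∫⁻ t : TC, ENNReal.ofReal ((2 * π)⁻¹ * F (ee t)) = ENNReal.ofReal (circleAverage F 0 1) := by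
  have hmem : ∀ θ, circleMap 0 1 θ ∈ Metric.sphere (0:ℂ) 1 := fun θ => by
    rw [mem_sphere_zero_iff_norm]; simp
  rw [lint_circle (fun z => ENNReal.ofReal ((2 * π)⁻¹ * F z)), circleAverage_def, smul_eq_mul,
    intervalIntegral.integral_of_le (by positivity), ← integral_const_mul,
    ofReal_integral_eq_lintegral_ofReal]
  · have hc : Continuous (fun θ : ℝ => (2 * π)⁻¹ * F (circleMap 0 1 θ)) :=
      continuous_const.mul (hF.comp_continuous (continuous_circleMap 0 1) hmem)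
    exact (hc.integrableOn_Icc (a := 0) (b := 2 * π)).mono_set Ioc_subset_Icc_self
  · exact Filter.Eventually.of_forall (fun θ => mul_nonneg (by positivity) (h0 _ (hmem θ)))

/-- normalised Poisson kernel -/
def pk (a : ℝ) (t : TC) : ℝ := (2 * π)⁻¹ * ((1 - a ^ 2) / ‖1 - a * ee t‖ ^ 2)

theorem pk_nonneg {a : ℝ} (ha0 : 0 ≤ a) (ha1 : a < 1) (t : TC) : 0 ≤ pk a t := by
  unfold pk
  have : 0 ≤ 1 - a ^ 2 := by nlinarith
  positivity

theorem pk_eq (a : ℝ) (t : TC) : pk a t = (2 * π)⁻¹ * poissonKernel 0 (a : ℂ) (ee t) := by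
  unfold pk; rw [poisson_at (norm_ee t)]

theorem pk_neg (a : ℝ) (t : TC) : pk a (-t) = pk a t := by
  unfold pk
  rw [ee_neg]
  have : (1 : ℂ) - a * (starRingEnd ℂ) (ee t) = (starRingEnd ℂ) (1 - a * ee t) := by
    rw [map_sub, map_mul, map_one, Complex.conj_ofReal]
  rw [this, Complex.norm_conj]

theorem continuous_pk {a : ℝ} (ha0 : 0 ≤ a) (ha1 : a < 1) : Continuous (pk a) := by
  unfold pk
  refine continuous_const.mul (continuous_const.div ?_ ?_)
  · have := continuous_ee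
    fun_prop
  · intro t
    have := one_sub_ne ha0 ha1 (norm_ee t).le
    positivity

theorem lint_pk {a : ℝ} (ha0 : 0 ≤ a) (ha1 : a < 1) :
    ∫⁻ t : TC, ENNReal.ofReal (pk a t) = 1 := by
  have h := lint_eq_avg (poissonKernel 0 (a : ℂ)) (poisson_cts ha0 ha1) (fun z hz => by
    rw [poisson_at (mem_sphere_zero_iff_norm.mp hz)]
    have : 0 ≤ 1 - a ^ 2 := by nlinarith
    positivity)
  rw [avg_poisson ha0 ha1, ENNReal.ofReal_one] at h
  rw [← h]
  exact lintegral_congr (fun t => by rw [pk_eq])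

/-- semigroup property -/
theorem pk_conv {a b : ℝ} (ha0 : 0 ≤ a) (ha1 : a < 1) (hb0 : 0 ≤ b) (hb1 : b < 1) (r : TC) :
    ∫⁻ t : TC, ENNReal.ofReal (pk a t) * ENNReal.ofReal (pk b (r - t)) =
      ENNReal.ofReal (pk (a * b) r) := by
  set w := (starRingEnd ℂ) (ee r) with hw
  have hwn : ‖w‖ = 1 := by rw [hw, Complex.norm_conj, norm_ee]
  have hne : ∀ z : ℂ, ‖z‖ ≤ 1 → (1 : ℂ) - b * (w * z) ≠ 0 := fun z hz =>
    one_sub_ne hb0 hb1 (by rw [norm_mul, hwn, one_mul]; exact hz)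
  set K : ℂ → ℂ := fun z => (1 + b * (w * z)) / (1 - b * (w * z)) with hK
  have hre : ∀ z : ℂ, ‖z‖ ≤ 1 → (K z).re = (1 - ‖(b : ℂ) * (w * z)‖ ^ 2) / ‖1 - b * (w * z)‖ ^ 2 := by
    intro z hz
    set c := (b : ℂ) * (w * z)
    simp only [hK]
    rw [Complex.div_re, ← Complex.normSq_eq_norm_sq, ← Complex.normSq_eq_norm_sq]
    rw [← add_div]
    congr 1
    simp only [Complex.normSq_apply, Complex.add_re, Complex.add_im, Complex.sub_re,
      Complex.sub_im, Complex.one_re, Complex.one_im]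
    ring
  have hKan : ∀ z : ℂ, ‖z‖ ≤ 1 → AnalyticAt ℂ K z := by
    intro z hz
    refine AnalyticAt.div ?_ ?_ (hne z hz)
    · exact analyticAt_const.add (analyticAt_const.mul (analyticAt_const.mul analyticAt_id))
    · exact analyticAt_const.sub (analyticAt_const.mul (analyticAt_const.mul analyticAt_id))
  have h1 := InnerProductSpace.HarmonicOnNhd.circleAverage_poissonKernel_smul
    (f := fun z => (K z).re) (c := 0) (R := 1) (w := (a : ℂ))
    (fun z hz => (hKan z (mem_closedBall_zero_iff.mp hz)).harmonicAt_re) (mem_ball_a ha0 ha1)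
  have hnn : ∀ z ∈ Metric.sphere (0:ℂ) 1, 0 ≤ (2 * π)⁻¹ * (poissonKernel 0 (a : ℂ) z * (K z).re) := by
    intro z hz
    have hz1 := mem_sphere_zero_iff_norm.mp hz
    rw [poisson_at hz1, hre z hz1.le]
    have h2 : 0 ≤ 1 - a ^ 2 := by nlinarith
    have h3 : 0 ≤ 1 - ‖(b : ℂ) * (w * z)‖ ^ 2 := by
      rw [norm_mul, norm_mul, hwn, hz1, Complex.norm_real, Real.norm_of_nonneg hb0]
      nlinarith
    positivity
  have hcts : ContinuousOn (fun z => (2 * π)⁻¹ * (poissonKernel 0 (a : ℂ) z * (K z).re))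
      (Metric.sphere 0 1) := by
    refine continuousOn_const.mul ((poisson_cts ha0 ha1).mul ?_)
    intro z hz
    have := (hKan z (mem_sphere_zero_iff_norm.mp hz).le).continuousAt
    exact (Complex.continuous_re.continuousAt.comp this).continuousWithinAt
  have h2 := lint_eq_avg _ hcts hnn
  have h3 : circleAverage (fun z => (2 * π)⁻¹ * (poissonKernel 0 (a : ℂ) z * (K z).re)) 0 1 =
      pk (a * b) r := by
    have e1 : (fun z => (2 * π)⁻¹ * (poissonKernel 0 (a : ℂ) z * (K z).re)) =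
        fun z => (2 * π)⁻¹ • ((poissonKernel 0 (a : ℂ) • fun z => (K z).re) z) := by
      funext z; simp
    rw [e1, circleAverage_fun_smul]
    have e2 : circleAverage (fun z => (poissonKernel 0 (a : ℂ) • fun z => (K z).re) z) 0 1 =
        (K a).re := h1
    rw [e2, hre a (by rw [Complex.norm_real, Real.norm_of_nonneg ha0]; exact ha1.le)]
    unfold pk
    rw [smul_eq_mul]
    have e3 : ‖(1 : ℂ) - b * (w * a)‖ = ‖1 - ((a * b : ℝ) : ℂ) * ee r‖ := by
      have : (1 : ℂ) - b * (w * a) = (starRingEnd ℂ) (1 - ((a * b : ℝ) : ℂ) * ee r) := by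
        rw [map_sub, map_mul, map_one, Complex.conj_ofReal, hw]
        push_cast; ring
      rw [this, Complex.norm_conj]
    rw [e3, norm_mul, norm_mul, hwn, Complex.norm_real, Complex.norm_real,
      Real.norm_of_nonneg ha0, Real.norm_of_nonneg hb0]
    congr 3
    ring
  rw [h3] at h2
  rw [← h2]
  refine lintegral_congr (fun t => ?_)
  rw [← ENNReal.ofReal_mul (pk_nonneg ha0 ha1 t), pk_eq a t]
  congr 1
  have e4 : pk b (r - t) = (2 * π)⁻¹ * (K (ee t)).re := by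
    have e5 : r - t = -(-r + t) := by abel
    rw [e5, pk_neg]
    unfold pk
    rw [hre _ (norm_ee t).le, ee_add, ee_neg, ← hw, norm_mul, norm_mul, hwn, norm_ee,
      Complex.norm_real, Real.norm_of_nonneg hb0]
    norm_num
  rw [e4]; ring

theorem pk_mul_le_aux {a b : ℝ} (ha0 : 0 ≤ a) (hab : a ≤ b) (hb1 : b < 1) (t : TC) :
    pk (a * b) t ≤ 8 * pk a t := by
  have ha1 : a < 1 := hab.trans_lt hb1
  have hb0 : 0 ≤ b := ha0.trans hab
  have hab1 : a * b < 1 := by nlinarith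
  have hab0 : 0 ≤ a * b := mul_nonneg ha0 hb0
  have n1 := norm_pos_iff.mpr (one_sub_ne ha0 ha1 (norm_ee t).le)
  have n2 := norm_pos_iff.mpr (one_sub_ne hab0 hab1 (norm_ee t).le)
  have h1 : ‖(1 : ℂ) - a * ee t‖ ≤ 2 * ‖(1 : ℂ) - (a * b : ℝ) * ee t‖ := by
    have e1 : (1 : ℂ) - a * ee t = (1 - (a * b : ℝ) * ee t) - (a * (1 - b) : ℝ) * ee t := by
      push_cast; ring
    have e2 : ‖((a * (1 - b) : ℝ) : ℂ) * ee t‖ = a * (1 - b) := by
      rw [norm_mul, norm_ee, mul_one, Complex.norm_real, Real.norm_of_nonneg]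
      exact mul_nonneg ha0 (by linarith)
    have e3 : 1 - a * b ≤ ‖(1 : ℂ) - (a * b : ℝ) * ee t‖ := by
      have e4 := norm_sub_norm_le (1 : ℂ) ((a * b : ℝ) * ee t)
      rw [norm_one, norm_mul, norm_ee, mul_one, Complex.norm_real, Real.norm_of_nonneg hab0] at e4
      exact e4
    rw [e1]
    refine (norm_sub_le _ _).trans ?_
    rw [e2]
    nlinarith
  unfold pk
  have h2 : 1 - (a * b) ^ 2 ≤ 2 * (1 - a ^ 2) := by
    have : a * a ≤ a * b := mul_le_mul_of_nonneg_left hab ha0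
    nlinarith [mul_nonneg ha0 ha0, sq_nonneg (1 - a ^ 2), mul_self_nonneg (a * b - a * a),
      mul_nonneg (mul_nonneg ha0 ha0) (sub_nonneg.mpr this)]
  have h3 : ‖(1 : ℂ) - a * ee t‖ ^ 2 ≤ 4 * ‖(1 : ℂ) - (a * b : ℝ) * ee t‖ ^ 2 := by
    have := pow_le_pow_left₀ n1.le h1 2
    linarith [this, mul_pow (2:ℝ) ‖(1 : ℂ) - (a * b : ℝ) * ee t‖ 2]
  have h4 : (1 - (a * b) ^ 2) / ‖(1 : ℂ) - (a * b : ℝ) * ee t‖ ^ 2 ≤
      8 * ((1 - a ^ 2) / ‖(1 : ℂ) - a * ee t‖ ^ 2) := by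
    rw [div_le_iff₀ (by positivity)]
    have h5 : 8 * ((1 - a ^ 2) / ‖(1 : ℂ) - a * ee t‖ ^ 2) * ‖(1 : ℂ) - (a * b : ℝ) * ee t‖ ^ 2 =
        8 * (1 - a ^ 2) * ‖(1 : ℂ) - (a * b : ℝ) * ee t‖ ^ 2 / ‖(1 : ℂ) - a * ee t‖ ^ 2 := by ring
    rw [h5, le_div_iff₀ (by positivity)]
    have h6 : 0 ≤ 1 - a ^ 2 := by nlinarith
    have h7 : 0 ≤ 1 - (a * b) ^ 2 := by nlinarith
    calc (1 - (a * b) ^ 2) * ‖(1 : ℂ) - a * ee t‖ ^ 2 ≤
        (2 * (1 - a ^ 2)) * (4 * ‖(1 : ℂ) - (a * b : ℝ) * ee t‖ ^ 2) :=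
          mul_le_mul h2 h3 (by positivity) (by positivity)
      _ = _ := by ring
  have h8 : 0 ≤ (2 * π)⁻¹ := by positivity
  calc _ ≤ (2 * π)⁻¹ * (8 * ((1 - a ^ 2) / ‖(1 : ℂ) - a * ee t‖ ^ 2)) :=
        mul_le_mul_of_nonneg_left h4 h8
    _ = _ := by ring

theorem pk_mul_le {a b : ℝ} (ha0 : 0 ≤ a) (ha1 : a < 1) (hb0 : 0 ≤ b) (hb1 : b < 1) (t : TC) :
    pk (a * b) t ≤ 8 * (pk a t + pk b t) := by
  rcases le_total a b with h | h
  · have := pk_mul_le_aux ha0 h hb1 t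
    have := pk_nonneg hb0 hb1 t
    linarith
  · have h1 := pk_mul_le_aux hb0 h ha1 t
    rw [mul_comm b a] at h1
    have := pk_nonneg ha0 ha1 t
    linarith

/-- majorization -/
theorem majorize {a : ℝ} (ha0 : 0 ≤ a) (ha1 : a < 1) {g : ℂ → ℂ}
    (hg : AnalyticOnNhd ℂ g (Metric.closedBall 0 1)) {p : ℝ} (hp : 0 < p) :
    ‖g a‖ₑ ^ p ≤ ∫⁻ t : TC, ENNReal.ofReal (pk a t) * ‖g (ee t)‖ₑ ^ p := by
  have h1 := norm_rpow_le_poisson ha0 ha1 hg hp
  have hcg : ContinuousOn (fun z => ‖g z‖ ^ p) (Metric.sphere 0 1) :=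
    ((hg.continuousOn.mono Metric.sphere_subset_closedBall).norm).rpow_const
      (fun _ _ => Or.inr hp.le)
  have h2 := lint_eq_avg (fun z => poissonKernel 0 (a : ℂ) z * ‖g z‖ ^ p)
    ((poisson_cts ha0 ha1).mul hcg) (fun z hz => by
      rw [poisson_at (mem_sphere_zero_iff_norm.mp hz)]
      have : 0 ≤ 1 - a ^ 2 := by nlinarith
      positivity)
  have e1 : ∀ z : ℂ, ENNReal.ofReal (‖z‖ ^ p) = ‖z‖ₑ ^ p := by
    intro z
    rw [← ENNReal.ofReal_rpow_of_nonneg (norm_nonneg _) hp.le, ofReal_norm]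
  calc ‖g a‖ₑ ^ p = ENNReal.ofReal (‖g a‖ ^ p) := (e1 _).symm
    _ ≤ ENNReal.ofReal (circleAverage (fun z => poissonKernel 0 (a : ℂ) z * ‖g z‖ ^ p) 0 1) :=
        ENNReal.ofReal_le_ofReal h1
    _ = ∫⁻ t : TC, ENNReal.ofReal ((2 * π)⁻¹ * (poissonKernel 0 (a : ℂ) (ee t) * ‖g (ee t)‖ ^ p)) :=
        h2.symm
    _ = _ := by
        refine lintegral_congr (fun t => ?_)
        rw [← mul_assoc, ← pk_eq, ENNReal.ofReal_mul (pk_nonneg ha0 ha1 t), e1]

end RMax

end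

end Pool.Agent.Lib.MP7ebef4
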