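import Pool.Agent.Lib.MP_7ebef4_an.RMaxA
import Pool.Agent.Lib.MP_7ebef4_an.RMaxC
import Pool.Agent.Lib.MP_7ebef4_an.Meas1
import Pool.Agent.Lib.MP_7ebef4_an.TreeBasic
import Pool.Agent.Lib.MP_7ebef4_an.Schur

/-! Radial maximal function: `rmax_L1`, `rmax_L2`. -/

set_option autoImplicit false

open MeasureTheory Set Real
open scoped NNReal ENNReal

namespace Pool.Agent.Lib.MP7ebef4

noncomputable section

variable {n : ℕ}

namespace RMax

/-- slice Poisson operator -/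
def PT (a : ℝ) (u : E n → ENNReal) (ζ : E n) : ENNReal :=
  ∫⁻ t : TC, ENNReal.ofReal (pk a t) * u (ee t • ζ)

theorem meas_act {u : E n → ENNReal} (hu : Measurable u) :
    Measurable (fun p : E n × TC => u (ee p.2 • p.1)) := by
  have h1 : Continuous (fun p : E n × TC => ee p.2 • p.1) :=
    (continuous_ee.comp continuous_snd).smul continuous_fst
  exact hu.comp h1.measurable

theorem meas_pk {a : ℝ} (ha0 : 0 ≤ a) (ha1 : a < 1) :
    Measurable (fun t : TC => ENNReal.ofReal (pk a t)) :=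
  ENNReal.measurable_ofReal.comp (continuous_pk ha0 ha1).measurable

theorem meas_integrand {a : ℝ} (ha0 : 0 ≤ a) (ha1 : a < 1) {u : E n → ENNReal} (hu : Measurable u) :
    Measurable (fun p : E n × TC => ENNReal.ofReal (pk a p.2) * u (ee p.2 • p.1)) :=
  ((meas_pk ha0 ha1).comp measurable_snd).mul (meas_act hu)

theorem PT_meas {a : ℝ} (ha0 : 0 ≤ a) (ha1 : a < 1) {u : E n → ENNReal} (hu : Measurable u) :
    Measurable (PT a u) :=
  (meas_integrand ha0 ha1 hu).lintegral_prod_right'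

theorem meas_act1 {u : E n → ENNReal} (hu : Measurable u) (ζ : E n) :
    Measurable (fun t : TC => u (ee t • ζ)) := by
  have h1 : Continuous (fun t : TC => ee t • ζ) := continuous_ee.smul continuous_const
  exact hu.comp h1.measurable

theorem meas_slice {a : ℝ} (ha0 : 0 ≤ a) (ha1 : a < 1) {u : E n → ENNReal} (hu : Measurable u)
    (ζ : E n) : Measurable (fun t : TC => ENNReal.ofReal (pk a t) * u (ee t • ζ)) :=
  (meas_pk ha0 ha1).mul (meas_act1 hu ζ)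

theorem PT_add {m : ℕ} {a : ℝ} (ha0 : 0 ≤ a) (ha1 : a < 1) (u : Fin m → E n → ENNReal)
    (hu : ∀ i, Measurable (u i)) (ζ : E n) :
    PT a (fun y => ∑ i, u i y) ζ = ∑ i, PT a (u i) ζ := by
  unfold PT
  rw [← lintegral_finsetSum _ (fun i _ => meas_slice ha0 ha1 (hu i) ζ)]
  exact lintegral_congr (fun t => by rw [Finset.mul_sum])

theorem PT_symm {a : ℝ} (ha0 : 0 ≤ a) (ha1 : a < 1) (u v : E n → ENNReal)
    (hu : Measurable u) (hv : Measurable v) :
    ∫⁻ ζ, PT a u ζ * v ζ ∂(sig n) = ∫⁻ ζ, u ζ * PT a v ζ ∂(sig n) := by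
  have h1 : ∫⁻ ζ, PT a u ζ * v ζ ∂(sig n) =
      ∫⁻ t : TC, ENNReal.ofReal (pk a t) * ∫⁻ ζ, u (ee t • ζ) * v ζ ∂(sig n) := by
    calc ∫⁻ ζ, PT a u ζ * v ζ ∂(sig n) =
        ∫⁻ ζ, (∫⁻ t : TC, ENNReal.ofReal (pk a t) * (u (ee t • ζ) * v ζ)) ∂(sig n) := by
          refine lintegral_congr (fun ζ => ?_)
          unfold PT
          rw [← lintegral_mul_const _ (meas_slice ha0 ha1 hu ζ)]
          exact lintegral_congr (fun t => by rw [mul_assoc])
      _ = ∫⁻ t : TC, ∫⁻ ζ, ENNReal.ofReal (pk a t) * (u (ee t • ζ) * v ζ) ∂(sig n) := by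
          rw [lintegral_lintegral_swap]
          exact (((meas_pk ha0 ha1).comp measurable_snd).mul
            ((meas_act hu).mul (hv.comp measurable_fst))).aemeasurable
      _ = _ := by
          refine lintegral_congr (fun t => ?_)
          rw [lintegral_const_mul' _ _ ENNReal.ofReal_ne_top]
  have h2 : ∫⁻ ζ, u ζ * PT a v ζ ∂(sig n) =
      ∫⁻ t : TC, ENNReal.ofReal (pk a t) * ∫⁻ ζ, u ζ * v (ee t • ζ) ∂(sig n) := by
    calc ∫⁻ ζ, u ζ * PT a v ζ ∂(sig n) =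
        ∫⁻ ζ, (∫⁻ t : TC, ENNReal.ofReal (pk a t) * (u ζ * v (ee t • ζ))) ∂(sig n) := by
          refine lintegral_congr (fun ζ => ?_)
          unfold PT
          rw [← lintegral_const_mul _ (meas_slice ha0 ha1 hv ζ)]
          exact lintegral_congr (fun t => by ring)
      _ = ∫⁻ t : TC, ∫⁻ ζ, ENNReal.ofReal (pk a t) * (u ζ * v (ee t • ζ)) ∂(sig n) := by
          rw [lintegral_lintegral_swap]
          exact (((meas_pk ha0 ha1).comp measurable_snd).mul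
            ((hu.comp measurable_fst).mul (meas_act hv))).aemeasurable
      _ = _ := by
          refine lintegral_congr (fun t => ?_)
          rw [lintegral_const_mul' _ _ ENNReal.ofReal_ne_top]
  rw [h1, h2]
  rw [← lintegral_neg_eq_self]
  refine lintegral_congr (fun t => ?_)
  rw [pk_neg]
  congr 1
  -- rotate by `ee t`
  have h3 := lintegral_sig_rot (fun ζ => u (ee (-t) • ζ) * v ζ)
    ((hu.comp (measurable_const_smul (ee (-t)))).mul hv) (ee t) (norm_ee t)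
  rw [← h3]
  refine lintegral_congr (fun ζ => ?_)
  have h4 : ee (-t) • ee t • ζ = ζ := by
    rw [smul_smul, ← ee_add, neg_add_cancel]
    have : ee 0 = 1 := by unfold ee; simp
    rw [this, one_smul]
  simp only [h4]

theorem PT_comp {a b : ℝ} (ha0 : 0 ≤ a) (ha1 : a < 1) (hb0 : 0 ≤ b) (hb1 : b < 1)
    (u : E n → ENNReal) (hu : Measurable u) (ζ : E n) :
    PT a (PT b u) ζ = PT (a * b) u ζ := by
  have hs : Measurable (fun t : TC => u (ee t • ζ)) := meas_act1 hu ζ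
  calc PT a (PT b u) ζ = ∫⁻ t : TC, ENNReal.ofReal (pk a t) *
        ∫⁻ s : TC, ENNReal.ofReal (pk b (s - t)) * u (ee s • ζ) := by
        unfold PT
        refine lintegral_congr (fun t => ?_)
        congr 1
        rw [← lintegral_add_right_eq_self (fun s : TC => ENNReal.ofReal (pk b (s - t)) * u (ee s • ζ)) t]
        refine lintegral_congr (fun s => ?_)
        rw [add_sub_cancel_right, ee_add, smul_smul]
    _ = ∫⁻ t : TC, ∫⁻ s : TC, ENNReal.ofReal (pk a t) * (ENNReal.ofReal (pk b (s - t)) * u (ee s • ζ)) := by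
        refine lintegral_congr (fun t => ?_)
        rw [lintegral_const_mul' _ _ ENNReal.ofReal_ne_top]
    _ = ∫⁻ s : TC, ∫⁻ t : TC, ENNReal.ofReal (pk a t) * (ENNReal.ofReal (pk b (s - t)) * u (ee s • ζ)) := by
        rw [lintegral_lintegral_swap]
        refine Measurable.aemeasurable ?_
        refine ((meas_pk ha0 ha1).comp measurable_fst).mul (Measurable.mul ?_ (hs.comp measurable_snd))
        exact (meas_pk hb0 hb1).comp (measurable_snd.sub measurable_fst)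
    _ = ∫⁻ s : TC, ENNReal.ofReal (pk (a * b) s) * u (ee s • ζ) := by
        refine lintegral_congr (fun s => ?_)
        rw [← pk_conv ha0 ha1 hb0 hb1 s, ← lintegral_mul_const]
        · exact lintegral_congr (fun t => by rw [mul_assoc])
        · exact (meas_pk ha0 ha1).mul ((meas_pk hb0 hb1).comp (measurable_const.sub measurable_id))

theorem PT_comp_le {a b : ℝ} (ha0 : 0 ≤ a) (ha1 : a < 1) (hb0 : 0 ≤ b) (hb1 : b < 1)
    (u : E n → ENNReal) (hu : Measurable u) (ζ : E n) :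
    PT a (PT b u) ζ ≤ ((8 : ℝ≥0) : ENNReal) * (PT a u ζ + PT b u ζ) := by
  rw [PT_comp ha0 ha1 hb0 hb1 u hu ζ]
  unfold PT
  rw [← lintegral_add_left (meas_slice ha0 ha1 hu ζ), ← lintegral_const_mul' _ _ ENNReal.coe_ne_top]
  refine lintegral_mono (fun t => ?_)
  have h1 := pk_mul_le ha0 ha1 hb0 hb1 t
  have h2 : ENNReal.ofReal (pk (a * b) t) ≤
      ((8 : ℝ≥0) : ENNReal) * (ENNReal.ofReal (pk a t) + ENNReal.ofReal (pk b t)) := by
    refine (ENNReal.ofReal_le_ofReal h1).trans (le_of_eq ?_)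
    rw [ENNReal.ofReal_mul (by norm_num), ENNReal.ofReal_add (pk_nonneg ha0 ha1 t)
      (pk_nonneg hb0 hb1 t)]
    norm_num
  calc ENNReal.ofReal (pk (a * b) t) * u (ee t • ζ) ≤
      (((8 : ℝ≥0) : ENNReal) * (ENNReal.ofReal (pk a t) + ENNReal.ofReal (pk b t))) * u (ee t • ζ) :=
        mul_le_mul_left h2 _
    _ = _ := by ring

theorem PT_L2 {a : ℝ} (ha0 : 0 ≤ a) (ha1 : a < 1) (u : E n → ENNReal) (hu : Measurable u) :
    ∫⁻ ζ, PT a u ζ ^ (2:ℕ) ∂(sig n) ≤ ∫⁻ ζ, u ζ ^ (2:ℕ) ∂(sig n) := by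
  calc ∫⁻ ζ, PT a u ζ ^ (2:ℕ) ∂(sig n) ≤
      ∫⁻ ζ, (∫⁻ t : TC, ENNReal.ofReal (pk a t) * u (ee t • ζ) ^ (2:ℕ)) ∂(sig n) := by
        refine lintegral_mono (fun ζ => ?_)
        have hs : Measurable (fun t : TC => u (ee t • ζ)) := meas_act1 hu ζ
        have h := lintegral_mul_sq_le (volume : Measure TC) (fun t => ENNReal.ofReal (pk a t))
          (fun t => u (ee t • ζ)) (meas_pk ha0 ha1).aemeasurable hs.aemeasurable
        rw [lint_pk ha0 ha1, one_mul] at h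
        exact h
    _ = ∫⁻ t : TC, ∫⁻ ζ, ENNReal.ofReal (pk a t) * u (ee t • ζ) ^ (2:ℕ) ∂(sig n) := by
        rw [lintegral_lintegral_swap]
        exact (((meas_pk ha0 ha1).comp measurable_snd).mul ((meas_act hu).pow_const 2)).aemeasurable
    _ = ∫⁻ t : TC, ENNReal.ofReal (pk a t) * ∫⁻ ζ, u ζ ^ (2:ℕ) ∂(sig n) := by
        refine lintegral_congr (fun t => ?_)
        rw [lintegral_const_mul' _ _ ENNReal.ofReal_ne_top,
          lintegral_sig_rot (fun ζ => u ζ ^ (2:ℕ)) (hu.pow_const 2) (ee t) (norm_ee t)]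
    _ = ∫⁻ ζ, u ζ ^ (2:ℕ) ∂(sig n) := by
        rw [lintegral_mul_const _ (meas_pk ha0 ha1), lint_pk ha0 ha1, one_mul]

/-- maximal inequality for finitely many radii -/
theorem PT_max {m : ℕ} (a : Fin m → ℝ) (ha : ∀ i, 0 ≤ a i ∧ a i < 1) (u : E n → ENNReal)
    (hu : Measurable u) :
    ∫⁻ ζ, (⨆ i, PT (a i) u ζ) ^ (2:ℕ) ∂(sig n) ≤
      ((4 * 8 ^ 2 + 1 : ℝ≥0) : ENNReal) * ∫⁻ ζ, u ζ ^ (2:ℕ) ∂(sig n) :=
  maximal_abs (sig n) (fun i => PT (a i)) (fun i _ hu => PT_meas (ha i).1 (ha i).2 hu)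
    (fun i u hu ζ => PT_add (ha i).1 (ha i).2 u hu ζ)
    (fun i u v hu hv => PT_symm (ha i).1 (ha i).2 u v hu hv) 8
    (fun i j u hu ζ => PT_comp_le (ha i).1 (ha i).2 (ha j).1 (ha j).2 u hu ζ)
    (fun i u hu => PT_L2 (ha i).1 (ha i).2 u hu) u hu

theorem ae_sph (n : ℕ) (hn : 0 < n) : ∀ᵐ ζ ∂(sig n), ‖ζ‖ = 1 := by
  have h := sig_sph n hn
  rw [← mem_ae_iff] at h
  filter_upwards [h] with ζ hζ
  exact mem_sphere_zero_iff_norm.mp hζ

theorem meas_ind {f : E n → ℂ} {ρ : ℝ} (hf : ContinuousOn f (Metric.ball 0 ρ)) :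
    Measurable ((Metric.ball (0 : E n) ρ).indicator f) := by
  classical
  rw [← piecewise_eq_indicator]
  exact hf.measurable_piecewise continuousOn_const measurableSet_ball

theorem analytic_slice {f : E n → ℂ} {ρ : ℝ} (hρ : 1 < ρ)
    (hf : DifferentiableOn ℂ f (Metric.ball 0 ρ)) {ζ : E n} (hζ : ‖ζ‖ = 1) :
    AnalyticOnNhd ℂ (fun z : ℂ => f (z • ζ)) (Metric.closedBall 0 1) := by
  have h1 : DifferentiableOn ℂ (fun z : ℂ => f (z • ζ)) (Metric.ball 0 ρ) := by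
    have h2 : MapsTo (fun z : ℂ => z • ζ) (Metric.ball 0 ρ) (Metric.ball 0 ρ) := by
      intro z hz
      rw [mem_ball_zero_iff] at hz ⊢
      rw [norm_smul, hζ, mul_one]
      exact hz
    exact hf.comp (by fun_prop) h2
  have h3 := h1.analyticOnNhd Metric.isOpen_ball
  exact h3.mono (Metric.closedBall_subset_ball hρ)

theorem majorize_f {f : E n → ℂ} {ρ : ℝ} (hρ : 1 < ρ)
    (hf : DifferentiableOn ℂ f (Metric.ball 0 ρ)) {ζ : E n} (hζ : ‖ζ‖ = 1) {a : ℝ} (ha0 : 0 ≤ a)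
    (ha1 : a < 1) :
    ‖f (a • ζ)‖ₑ ^ (1/2:ℝ) ≤
      PT a (fun z => ‖(Metric.ball (0 : E n) ρ).indicator f z‖ₑ ^ (1/2:ℝ)) ζ := by
  have h := majorize ha0 ha1 (analytic_slice hρ hf hζ) (p := 1/2) (by norm_num)
  have e1 : ((a : ℂ) • ζ : E n) = a • ζ := by
    rw [← Complex.coe_smul]
  simp only [e1] at h
  refine h.trans (le_of_eq ?_)
  unfold PT
  refine lintegral_congr (fun t => ?_)
  have hmem : ee t • ζ ∈ Metric.ball (0 : E n) ρ := by
    rw [mem_ball_zero_iff, norm_smul, norm_ee, hζ, one_mul]; exact hρ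
  beta_reduce
  rw [indicator_of_mem hmem]

/-- finite version -/
theorem fin_L1 (hn : 0 < n) {f : E n → ℂ} {ρ : ℝ} (hρ : 1 < ρ)
    (hf : DifferentiableOn ℂ f (Metric.ball 0 ρ)) {m : ℕ} (a : Fin m → ℝ)
    (ha : ∀ i, 0 ≤ a i ∧ a i < 1) :
    ∫⁻ ζ, ⨆ i, ‖f (a i • ζ)‖ₑ ∂(sig n) ≤ ENNReal.ofReal 257 * ∫⁻ ζ, ‖f ζ‖ₑ ∂(sig n) := by
  set fm := (Metric.ball (0 : E n) ρ).indicator f with hfm
  have hfmm : Measurable fm := meas_ind hf.continuousOn
  set u : E n → ENNReal := fun z => ‖fm z‖ₑ ^ (1/2:ℝ) with hu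
  have hum : Measurable u := hfmm.enorm.pow_const _
  have hsq : ∀ x : ENNReal, (x ^ (1/2:ℝ)) ^ (2:ℕ) = x := by
    intro x
    rw [← ENNReal.rpow_natCast, ← ENNReal.rpow_mul]; norm_num
  calc ∫⁻ ζ, ⨆ i, ‖f (a i • ζ)‖ₑ ∂(sig n) ≤ ∫⁻ ζ, (⨆ i, PT (a i) u ζ) ^ (2:ℕ) ∂(sig n) := by
        refine lintegral_mono_ae ?_
        filter_upwards [ae_sph n hn] with ζ hζ
        refine iSup_le (fun i => ?_)
        rw [← hsq ‖f (a i • ζ)‖ₑ]
        gcongr
        exact (majorize_f hρ hf hζ (ha i).1 (ha i).2).trans (le_iSup (fun i => PT (a i) u ζ) i)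
    _ ≤ ((4 * 8 ^ 2 + 1 : ℝ≥0) : ENNReal) * ∫⁻ ζ, u ζ ^ (2:ℕ) ∂(sig n) := PT_max a ha u hum
    _ = ENNReal.ofReal 257 * ∫⁻ ζ, ‖f ζ‖ₑ ∂(sig n) := by
        congr 1
        · norm_num
        · refine lintegral_congr_ae ?_
          filter_upwards [ae_sph n hn] with ζ hζ
          simp only [hu]
          rw [hsq, hfm, indicator_of_mem]
          rw [mem_ball_zero_iff, hζ]; exact hρ

/-- a dense sequence of radii -/
theorem exists_dense_radii : ∃ D : ℕ → ℝ, (∀ k, 0 ≤ D k ∧ D k < 1) ∧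
    ∀ (F : ℝ → ENNReal), ContinuousOn F (Ico 0 1) → ∀ r ∈ Ico (0:ℝ) 1, F r ≤ ⨆ k, F (D k) := by
  have : Nonempty (Ico (0:ℝ) 1) := ⟨⟨0, by simp⟩⟩
  set D' := TopologicalSpace.denseSeq (Ico (0:ℝ) 1) with hD'
  have hd : DenseRange D' := TopologicalSpace.denseRange_denseSeq _
  refine ⟨fun k => (D' k : ℝ), fun k => (D' k).2, fun F hF r hr => ?_⟩
  have hF' : Continuous (fun x : Ico (0:ℝ) 1 => F x) := continuousOn_iff_continuous_domRestrict.mp hF
  have hcl : IsClosed {x : Ico (0:ℝ) 1 | F x ≤ ⨆ k, F (D' k)} := isClosed_le hF' continuous_const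
  have hsub : range D' ⊆ {x : Ico (0:ℝ) 1 | F x ≤ ⨆ k, F (D' k)} := by
    rintro _ ⟨k, rfl⟩
    exact le_iSup (fun k => F (D' k)) k
  have h1 : closure (range D') ⊆ {x : Ico (0:ℝ) 1 | F x ≤ ⨆ k, F (D' k)} :=
    closure_minimal hsub hcl
  have h2 : (⟨r, hr⟩ : Ico (0:ℝ) 1) ∈ closure (range D') := hd _
  exact h1 h2

theorem lint_iSup_le {X : Type*} [MeasurableSpace X] (μ : Measure X) (G : ℕ → X → ENNReal)
    (hG : ∀ k, Measurable (G k)) (K : ENNReal)
    (h : ∀ m : ℕ, ∫⁻ x, ⨆ i : Fin m, G i x ∂μ ≤ K) : ∫⁻ x, ⨆ k, G k x ∂μ ≤ K := by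
  have e1 : ∀ x, ⨆ k, G k x = ⨆ m : ℕ, ⨆ i : Fin m, G i x := by
    intro x
    apply le_antisymm
    · refine iSup_le (fun k => ?_)
      exact le_iSup_of_le (k + 1) (le_iSup (fun i : Fin (k + 1) => G i x) ⟨k, Nat.lt_succ_self k⟩)
    · exact iSup_le (fun m => iSup_le (fun i => le_iSup (fun k => G k x) i))
  simp only [e1]
  rw [lintegral_iSup]
  · exact iSup_le h
  · intro m
    exact Measurable.iSup (fun i => hG i)
  · intro m m' hmm x
    exact iSup_le (fun i => le_iSup_of_le (Fin.castLE hmm i) le_rfl)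

theorem ray_cont {V : Type*} [NormedAddCommGroup V] {f : E n → V} (hf : ContinuousOn f (B n))
    {ζ : E n} (hζ : ‖ζ‖ = 1) : ContinuousOn (fun r : ℝ => ‖f (r • ζ)‖ₑ) (Ico 0 1) := by
  have h1 : ContinuousOn (fun r : ℝ => f (r • ζ)) (Ico 0 1) := by
    refine hf.comp (by fun_prop) (fun r hr => ?_)
    show r • ζ ∈ Metric.ball 0 1
    rw [mem_ball_zero_iff, norm_smul, hζ, mul_one, Real.norm_of_nonneg hr.1]
    exact hr.2
  exact continuous_enorm.comp_continuousOn h1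

end RMax

theorem rmax_L1 (n : ℕ) (hn : 0 < n) : ∃ C : ℝ, 0 < C ∧ ∀ (f : E n → ℂ) (ρ : ℝ), 1 < ρ →
    DifferentiableOn ℂ f (Metric.ball 0 ρ) →
    ∫⁻ ζ, rmax f ζ ∂(sig n) ≤ ENNReal.ofReal C * ∫⁻ ζ, ‖f ζ‖ₑ ∂(sig n) := by
  refine ⟨257, by norm_num, fun f ρ hρ hf => ?_⟩
  obtain ⟨D, hD, hdense⟩ := RMax.exists_dense_radii
  set fm := (Metric.ball (0 : E n) ρ).indicator f with hfm
  have hfmm : Measurable fm := RMax.meas_ind hf.continuousOn
  have hfB : ContinuousOn f (B n) := hf.continuousOn.mono (Metric.ball_subset_ball hρ.le)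
  have hin : ∀ (ζ : E n) (k : ℕ), ‖ζ‖ = 1 → fm (D k • ζ) = f (D k • ζ) := by
    intro ζ k hζ
    rw [hfm, indicator_of_mem]
    rw [mem_ball_zero_iff, norm_smul, hζ, mul_one, Real.norm_of_nonneg (hD k).1]
    exact (hD k).2.trans hρ
  calc ∫⁻ ζ, rmax f ζ ∂(sig n) ≤ ∫⁻ ζ, ⨆ k, ‖fm (D k • ζ)‖ₑ ∂(sig n) := by
        refine lintegral_mono_ae ?_
        filter_upwards [RMax.ae_sph n hn] with ζ hζ
        unfold rmax
        refine iSup₂_le (fun r hr => ?_)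
        have h := hdense _ (RMax.ray_cont hfB hζ) r hr
        simp only [hin ζ _ hζ]
        exact h
    _ ≤ ENNReal.ofReal 257 * ∫⁻ ζ, ‖f ζ‖ₑ ∂(sig n) := by
        refine RMax.lint_iSup_le _ _ (fun k => (hfmm.comp (measurable_const_smul (D k))).enorm) _
          (fun m => ?_)
        refine le_trans (le_of_eq ?_) (RMax.fin_L1 hn hρ hf (fun i : Fin m => D i) (fun i => hD i))
        refine lintegral_congr_ae ?_
        filter_upwards [RMax.ae_sph n hn] with ζ hζ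
        exact iSup_congr (fun i => by rw [← hin ζ i hζ]; rfl)

theorem rmax_L2 (n : ℕ) (hn : 0 < n) : ∃ C : ℝ, 0 < C ∧ ∀ h : E n → ℂ, DifferentiableOn ℂ h (B n) →
    ∫⁻ ζ, (rmax h ζ) ^ (2:ℕ) ∂(sig n) ≤ ENNReal.ofReal C * H2 h := by
  refine ⟨257, by norm_num, fun h hh => ?_⟩
  obtain ⟨D, hD, hdense⟩ := RMax.exists_dense_radii
  set hm := (Metric.ball (0 : E n) 1).indicator h with hhm
  have hmm : Measurable hm := RMax.meas_ind hh.continuousOn
  have hin : ∀ (ζ : E n) (k : ℕ), ‖ζ‖ = 1 → hm (D k • ζ) = h (D k • ζ) := by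
    intro ζ k hζ
    rw [hhm, indicator_of_mem]
    rw [mem_ball_zero_iff, norm_smul, hζ, mul_one, Real.norm_of_nonneg (hD k).1]
    exact (hD k).2
  calc ∫⁻ ζ, (rmax h ζ) ^ (2:ℕ) ∂(sig n) ≤ ∫⁻ ζ, ⨆ k, ‖hm (D k • ζ)‖ₑ ^ (2:ℕ) ∂(sig n) := by
        refine lintegral_mono_ae ?_
        filter_upwards [RMax.ae_sph n hn] with ζ hζ
        simp only [hin ζ _ hζ]
        have h1 : rmax h ζ ≤ (⨆ k, ‖h (D k • ζ)‖ₑ ^ (2:ℕ)) ^ (1/2:ℝ) := by
          unfold rmax
          refine iSup₂_le (fun r hr => ?_)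
          refine (hdense _ (RMax.ray_cont hh.continuousOn hζ) r hr).trans (iSup_le (fun k => ?_))
          have h2 : ‖h (D k • ζ)‖ₑ = (‖h (D k • ζ)‖ₑ ^ (2:ℕ)) ^ (1/2:ℝ) := by
            rw [← ENNReal.rpow_natCast, ← ENNReal.rpow_mul]; norm_num
          rw [h2]
          refine ENNReal.rpow_le_rpow ?_ (by norm_num)
          exact le_iSup (fun k => ‖h (D k • ζ)‖ₑ ^ (2:ℕ)) k
        calc (rmax h ζ) ^ (2:ℕ) ≤ ((⨆ k, ‖h (D k • ζ)‖ₑ ^ (2:ℕ)) ^ (1/2:ℝ)) ^ (2:ℕ) := by gcongr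
          _ = _ := by rw [← ENNReal.rpow_natCast, ← ENNReal.rpow_mul]; norm_num
    _ ≤ ENNReal.ofReal 257 * H2 h := by
        refine RMax.lint_iSup_le _ _
          (fun k => (hmm.comp (measurable_const_smul (D k))).enorm.pow_const 2) _ (fun m => ?_)
        -- a radius `R < 1` above all `D i`
        obtain ⟨R, hR0, hR1, hR⟩ : ∃ R : ℝ, 0 < R ∧ R < 1 ∧ ∀ i : Fin m, D i < R := by
          rcases Nat.eq_zero_or_pos m with h0 | h0
          · subst h0
            exact ⟨1/2, by norm_num, by norm_num, fun i => i.elim0⟩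
          · have : Nonempty (Fin m) := ⟨⟨0, h0⟩⟩
            obtain ⟨i₀, hi₀⟩ := Finite.exists_max (fun i : Fin m => D i)
            refine ⟨(1 + D i₀) / 2, by linarith [(hD i₀).1], by linarith [(hD i₀).2], fun i => ?_⟩
            have := hi₀ i
            linarith [(hD i₀).2]
        set f : E n → ℂ := fun z => h (R • z) ^ 2 with hf
        have hfd : DifferentiableOn ℂ f (Metric.ball 0 (1 / R)) := by
          have h2 : DifferentiableOn ℂ (fun z : E n => h ((R : ℂ) • z)) (Metric.ball 0 (1 / R)) := by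
            refine hh.comp (by fun_prop) (fun z hz => ?_)
            show (R : ℂ) • z ∈ Metric.ball 0 1
            rw [mem_ball_zero_iff] at hz ⊢
            rw [norm_smul, Complex.norm_real, Real.norm_of_nonneg hR0.le]
            rw [lt_div_iff₀ hR0] at hz
            linarith
          have h3 : f = fun z : E n => h ((R : ℂ) • z) ^ 2 := by
            funext z; rw [hf, Complex.coe_smul]
          rw [h3]
          exact h2.pow 2
        have hR1' : 1 < 1 / R := by rw [lt_div_iff₀ hR0]; linarith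
        have key := RMax.fin_L1 hn hR1' hfd (fun i : Fin m => D i / R) (fun i =>
          ⟨div_nonneg (hD i).1 hR0.le, (div_lt_one hR0).mpr (hR i)⟩)
        have e1 : ∫⁻ ζ, ⨆ i : Fin m, ‖f ((D i / R) • ζ)‖ₑ ∂(sig n) =
            ∫⁻ ζ, ⨆ i : Fin m, ‖hm (D i • ζ)‖ₑ ^ (2:ℕ) ∂(sig n) := by
          refine lintegral_congr_ae ?_
          filter_upwards [RMax.ae_sph n hn] with ζ hζ
          refine iSup_congr (fun i => ?_)
          rw [hin ζ i hζ, hf]
          simp only [smul_smul]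
          rw [mul_div_cancel₀ _ hR0.ne', enorm_pow]
        have e2 : ∫⁻ ζ, ‖f ζ‖ₑ ∂(sig n) ≤ H2 h := by
          have h4 : ∫⁻ ζ, ‖f ζ‖ₑ ∂(sig n) = ∫⁻ ζ, ‖h (R • ζ)‖ₑ ^ (2:ℕ) ∂(sig n) :=
            lintegral_congr (fun ζ => by rw [hf]; simp only [enorm_pow])
          rw [h4]
          unfold H2
          exact le_iSup₂ (f := fun r (_ : r ∈ Ioo (0:ℝ) 1) =>
            ∫⁻ ζ, ‖h (r • ζ)‖ₑ ^ (2:ℕ) ∂(sig n)) R ⟨hR0, hR1⟩
        calc _ = ∫⁻ ζ, ⨆ i : Fin m, ‖f ((D i / R) • ζ)‖ₑ ∂(sig n) := e1.symm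
          _ ≤ ENNReal.ofReal 257 * ∫⁻ ζ, ‖f ζ‖ₑ ∂(sig n) := key
          _ ≤ ENNReal.ofReal 257 * H2 h := mul_le_mul_right e2 _

end

end Pool.Agent.Lib.MP7ebef4
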