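import Pool.Agent.Lib.MP_7ebef4_an.Final
import Pool.Agent.Lib.MP_7ebef4_an.RMax
import Pool.Agent.Lib.MP_7ebef4_an.HardyStein
import Pool.Agent.Lib.MP_7ebef4_an.LP

/-!
# MP_7ebef4_an : the factorisation with a number of terms and a constant that depend only on `n`,
for the normalised surface measure
-/

set_option autoImplicit false

open MeasureTheory Set Filter Topology

namespace Pool.Agent.Lib.MP7ebef4

noncomputable section

variable {n : ℕ}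

/-- the limit theorem with its bounds: `N` and `C` are those of the uniform theorem -/
theorem limit_unif (N : ℕ) (C : ℝ)
    (huni : ∀ (f : E n → ℂ) (ρ m : ℝ), 1 < ρ →
      DifferentiableOn ℂ f (Metric.ball 0 ρ) → 0 < m → ∫⁻ ζ, ‖f ζ‖ₑ ∂(sig n) ≤ ENNReal.ofReal m →
      ∀ η : ℝ, 0 < η → ∃ G H : Fin N → E n → ℂ,
        (∀ j, DifferentiableOn ℂ (G j) (B n) ∧ H2 (G j) ≤ ENNReal.ofReal (C * m) ∧
          DifferentiableOn ℂ (H j) (B n) ∧ H2 (H j) ≤ ENNReal.ofReal (C * m)) ∧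
        ∀ z : E n, ‖z‖ ≤ 1 - η → ‖f z - ∑ j, G j z * H j z‖ ≤ η)
    (hsub : ∃ C : ℝ, 0 < C ∧
      ∀ h : E n → ℂ, DifferentiableOn ℂ h (B n) → ∀ w ∈ B n,
      ‖h w‖ₑ ^ (1:ℝ) ≤ ENNReal.ofReal (C * (dl w ^ n)⁻¹) *
        ∫⁻ ζ in {ζ | rho ζ w ≤ C * Real.sqrt (dl w)}, (rmax h ζ) ^ (1:ℝ) ∂(sig n))
    (hr2 : ∃ C : ℝ, 0 < C ∧ ∀ h : E n → ℂ, DifferentiableOn ℂ h (B n) →
      ∫⁻ ζ, (rmax h ζ) ^ (2:ℕ) ∂(sig n) ≤ ENNReal.ofReal C * H2 h)
    (f : E n → ℂ) (hf : DifferentiableOn ℂ f (B n))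
    (m : ℝ) (hm0 : 0 < m)
    (h1 : ⨆ r ∈ Ioo (0:ℝ) 1, ∫⁻ ζ, ‖f (r • ζ)‖ₑ ∂(sig n) ≤ ENNReal.ofReal m) :
    ∃ (G H : Fin N → E n → ℂ),
      (∀ j, DifferentiableOn ℂ (G j) (B n) ∧ H2 (G j) ≤ ENNReal.ofReal (C * m) ∧
        DifferentiableOn ℂ (H j) (B n) ∧ H2 (H j) ≤ ENNReal.ofReal (C * m)) ∧
      ∀ z ∈ B n, f z = ∑ j, G j z * H j z := by
  set P : ENNReal := ⨆ r ∈ Ioo (0:ℝ) 1, ∫⁻ ζ, ‖f (r • ζ)‖ₑ ∂(sig n) with hP
  have hPm : P ≤ ENNReal.ofReal m := h1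
  -- radii
  set rj : ℕ → ℝ := fun j => 1 - 1 / ((j:ℝ) + 2) with hrj
  have hrj0 : ∀ j, 0 < rj j := by
    intro j
    have : (1:ℝ) / ((j:ℝ) + 2) < 1 := by
      rw [div_lt_one (by positivity)]
      have : (0:ℝ) ≤ j := Nat.cast_nonneg j
      linarith
    simp only [hrj]; linarith
  have hrj1 : ∀ j, rj j < 1 := by
    intro j
    have : (0:ℝ) < 1 / ((j:ℝ) + 2) := by positivity
    simp only [hrj]; linarith
  have hex : ∀ j : ℕ, ∃ G H : Fin N → E n → ℂ,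
        (∀ i, DifferentiableOn ℂ (G i) (B n) ∧ H2 (G i) ≤ ENNReal.ofReal (C * m) ∧
          DifferentiableOn ℂ (H i) (B n) ∧ H2 (H i) ≤ ENNReal.ofReal (C * m)) ∧
        ∀ z : E n, ‖z‖ ≤ 1 - 1 / ((j:ℝ) + 2) →
          ‖f (rj j • z) - ∑ i, G i z * H i z‖ ≤ 1 / ((j:ℝ) + 2) := by
    intro j
    refine huni (fun z => f (rj j • z)) (rj j)⁻¹ m ?_ ?_ hm0 ?_ (1 / ((j:ℝ) + 2)) (by positivity)
    · exact (one_lt_inv₀ (hrj0 j)).mpr (hrj1 j)
    · have hmaps : MapsTo (fun z : E n => rj j • z) (Metric.ball 0 (rj j)⁻¹) (B n) := by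
        intro z hz
        rw [Metric.mem_ball, dist_zero_right] at hz
        simp only [B, Metric.mem_ball, dist_zero_right]
        rw [norm_smul, Real.norm_of_nonneg (hrj0 j).le]
        calc rj j * ‖z‖ < rj j * (rj j)⁻¹ := by
              exact mul_lt_mul_of_pos_left hz (hrj0 j)
          _ = 1 := mul_inv_cancel₀ (hrj0 j).ne'
      refine hf.comp ?_ hmaps
      intro z _
      have : DifferentiableAt ℂ (fun z : E n => ((rj j : ℝ) : ℂ) • z) z :=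
        differentiableAt_id.const_smul ((rj j : ℝ) : ℂ)
      refine (this.congr_of_eventuallyEq ?_).differentiableWithinAt
      exact Filter.Eventually.of_forall (fun z => (Complex.coe_smul _ _).symm)
    · refine le_trans ?_ hPm
      rw [hP]
      exact le_iSup₂ (f := fun (r : ℝ) (_ : r ∈ Ioo (0:ℝ) 1) => ∫⁻ ζ, ‖f (r • ζ)‖ₑ ∂(sig n))
        (rj j) ⟨hrj0 j, hrj1 j⟩
  choose Gs Hs hGH happ using hex
  set U : Ultrafilter ℕ := hyperfilter ℕ with hU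
  have hUle : (U : Filter ℕ) ≤ atTop := by rw [hU]; exact Nat.hyperfilter_le_atTop
  have hbd : ∀ r < (1:ℝ), ∃ M : ℝ, ∀ h : E n → ℂ, DifferentiableOn ℂ h (B n) →
      H2 h ≤ ENNReal.ofReal (C * m) → ∀ z : E n, ‖z‖ ≤ r → ‖h z‖ ≤ M :=
    fun r hr => locbdd hsub hr2 _ ENNReal.ofReal_lt_top r hr
  have hMG : ∀ i, ∀ r < (1:ℝ), ∃ M : ℝ, ∀ j, ∀ z : E n, ‖z‖ ≤ r → ‖Gs j i z‖ ≤ M := by
    intro i r hr
    obtain ⟨M, hM⟩ := hbd r hr
    exact ⟨M, fun j z hz => hM _ (hGH j i).1 (hGH j i).2.1 z hz⟩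
  have hMH : ∀ i, ∀ r < (1:ℝ), ∃ M : ℝ, ∀ j, ∀ z : E n, ‖z‖ ≤ r → ‖Hs j i z‖ ≤ M := by
    intro i r hr
    obtain ⟨M, hM⟩ := hbd r hr
    exact ⟨M, fun j z hz => hM _ (hGH j i).2.2.1 (hGH j i).2.2.2 z hz⟩
  have hG : ∀ i, ∃ G : E n → ℂ, DifferentiableOn ℂ G (B n) ∧
      ∀ z ∈ B n, Tendsto (fun j => Gs j i z) U (𝓝 (G z)) := fun i =>
    exists_ulim_hol U (fun j => Gs j i) (fun j => (hGH j i).1) (hMG i)
  have hH : ∀ i, ∃ G : E n → ℂ, DifferentiableOn ℂ G (B n) ∧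
      ∀ z ∈ B n, Tendsto (fun j => Hs j i z) U (𝓝 (G z)) := fun i =>
    exists_ulim_hol U (fun j => Hs j i) (fun j => (hGH j i).2.2.1) (hMH i)
  choose G hGd hGt using hG
  choose H hHd hHt using hH
  refine ⟨G, H, fun i => ⟨hGd i, ?_, hHd i, ?_⟩, fun z hz => ?_⟩
  · exact (H2_ulim U (fun j => Gs j i) (G i) (fun j => (hGH j i).1) (hGd i) (hMG i) (hGt i) _
      (fun j => (hGH j i).2.1))
  · exact (H2_ulim U (fun j => Hs j i) (H i) (fun j => (hGH j i).2.2.1) (hHd i) (hMH i) (hHt i) _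
      (fun j => (hGH j i).2.2.2))
  · have hz' : ‖z‖ < 1 := by simpa [B] using hz
    have t0 : Tendsto (fun j : ℕ => (1:ℝ) / ((j:ℝ) + 2)) atTop (𝓝 0) := by
      have := tendsto_const_div_atTop_nhds_zero_nat (1:ℝ)
      have h2 := (tendsto_add_atTop_iff_nat 2).mpr this
      refine h2.congr (fun j => ?_)
      push_cast; rfl
    have t1 : Tendsto rj atTop (𝓝 1) := by
      have := (tendsto_const_nhds (x := (1:ℝ))).sub t0
      simpa [hrj] using this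
    have t2 : Tendsto (fun j => f (rj j • z)) U (𝓝 (f z)) := by
      have hc : ContinuousAt f z := (hf.continuousOn).continuousAt (Metric.isOpen_ball.mem_nhds hz)
      have h3 : Tendsto (fun j => rj j • z) atTop (𝓝 z) := by
        have := t1.smul_const z
        simpa using this
      exact (hc.tendsto.comp h3).mono_left hUle
    have t3 : Tendsto (fun j => ∑ i, Gs j i z * Hs j i z) U (𝓝 (∑ i, G i z * H i z)) :=
      tendsto_finsetSum _ (fun i _ => (hGt i z hz).mul (hHt i z hz))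
    have t4 : Tendsto (fun j => f (rj j • z) - ∑ i, Gs j i z * Hs j i z) U (𝓝 0) := by
      refine squeeze_zero_norm' ?_ (t0.mono_left hUle)
      have : ∀ᶠ j : ℕ in atTop, (1:ℝ) / ((j:ℝ) + 2) < 1 - ‖z‖ :=
        t0.eventually (gt_mem_nhds (by linarith))
      refine (this.filter_mono hUle).mono (fun j hj => ?_)
      exact happ j z (by linarith)
    have t5 := tendsto_nhds_unique t4 (t2.sub t3)
    exact (sub_eq_zero.mp t5.symm)



/-- `N` and `C` depend only on `n` -/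
theorem factor_unif (n : ℕ) (hn : 0 < n) :
    ∃ (N : ℕ) (C : ℝ), 0 < C ∧ ∀ (f : E n → ℂ), DifferentiableOn ℂ f (B n) →
    ∀ m : ℝ, 0 < m → ⨆ r ∈ Ioo (0:ℝ) 1, ∫⁻ ζ, ‖f (r • ζ)‖ₑ ∂(sig n) ≤ ENNReal.ofReal m →
    ∃ (G H : Fin N → E n → ℂ),
      (∀ j, DifferentiableOn ℂ (G j) (B n) ∧ H2 (G j) ≤ ENNReal.ofReal (C * m) ∧
        DifferentiableOn ℂ (H j) (B n) ∧ H2 (H j) ≤ ENNReal.ofReal (C * m)) ∧
      ∀ z ∈ B n, f z = ∑ j, G j z * H j z := by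
  have R : Raw n :=
    { up := HUp_of n hn
      rm1 := rmax_L1 n hn
      rm2 := rmax_L2 n hn
      lp := lp n hn
      hs := hardy_stein n hn }
  obtain ⟨N, C, hC, huni⟩ := uniform_raw n hn R
  exact ⟨N, C, hC, fun f hf m hm h1 => limit_unif N C huni (Raw.sub hn 1 one_pos) R.rm2 f hf m hm h1⟩

end

end Pool.Agent.Lib.MP7ebef4
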