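import Pool.Agent.Lib.MP_7ebef4_an.TreeBasic

/-!
# MP_7ebef4_an : pump systems (module Pump), conditional on `kernel_carleson`
-/

set_option autoImplicit false

open MeasureTheory Set

namespace Pool.Agent.Lib.MP7ebef4

noncomputable section

variable {n : ℕ} {cT : ℝ}

theorem Theta_congr (T : Tree n cT) (resp resp' : T.ι → T.ι) (p' : ℝ) (v' x : T.ι)
    (h : ∀ v, T.lev v < T.lev x → resp v = resp' v) :
    Theta T resp p' v' x = Theta T resp' p' v' x := by
  classical
  unfold Theta
  apply Finset.sum_congr _ (fun _ _ => rfl)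
  ext v
  simp only [Finset.mem_filter, Finset.mem_univ, true_and]
  constructor
  · rintro ⟨h1, h2, h3, h4⟩
    exact ⟨by rw [← h v h3]; exact h1, h2, h3, h4⟩
  · rintro ⟨h1, h2, h3, h4⟩
    exact ⟨by rw [h v h3]; exact h1, h2, h3, h4⟩

/-- partial pump system up to level `i` -/
structure PreP (T : Tree n cT) (c : T.ι → ℝ) (K ε p' : ℝ) (i : ℕ) (resp : T.ι → T.ι) : Prop where
  root : resp T.root = T.root
  lev : ∀ x, T.lev x ≤ i → T.lev (resp x) ≤ T.lev x
  step : ∀ x, T.lev x ≤ i → resp x = x ∨ resp x = resp (T.par x)
  prim : ∀ x, T.lev x ≤ i → c x ≤ K * c (resp x)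
  theta : ∀ x, T.lev x ≤ i → resp x ≠ x → Theta T resp p' (resp x) x ≤ ε
  reason : ∀ x, T.lev x ≤ i → x ≠ T.root → resp x = x →
    K * c (resp (T.par x)) < c x ∨ ε < Theta T resp p' (resp (T.par x)) x

theorem exists_preP (T : Tree n cT) (c : T.ι → ℝ) (hc : ∀ x, 0 ≤ c x) (K ε p' : ℝ) (hK : 1 ≤ K)
    (i : ℕ) : ∃ resp : T.ι → T.ι, PreP T c K ε p' i resp := by
  classical
  have hle : ∀ x, c x ≤ K * c x := fun x => by nlinarith [hc x]
  induction i with
  | zero =>
    refine ⟨fun x => x, rfl, fun x _ => le_rfl, fun x _ => Or.inl rfl, fun x _ => hle x,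
      fun x _ h => absurd rfl h, fun x hx hne _ => ?_⟩
    exact absurd (T.eq_root x (by omega)) hne
  | succ i ih =>
    obtain ⟨resp, hr⟩ := ih
    set resp' : T.ι → T.ι := fun x => if T.lev x ≤ i then resp x else
      if (K * c (resp (T.par x)) < c x ∨ ε < Theta T resp p' (resp (T.par x)) x) then x
      else resp (T.par x) with hresp'
    have hlow : ∀ x, T.lev x ≤ i → resp' x = resp x := fun x hx => by
      simp only [hresp', if_pos hx]
    have hTh : ∀ v' x, T.lev x ≤ i + 1 → Theta T resp' p' v' x = Theta T resp p' v' x := by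
      intro v' x hx
      apply Theta_congr
      intro v hv
      exact hlow v (by omega)
    have hpar : ∀ x, T.lev x ≤ i + 1 → resp' (T.par x) = resp (T.par x) := fun x hx =>
      hlow _ (by rw [T.lev_par']; omega)
    have hparlev : ∀ x, ¬ T.lev x ≤ i → T.lev x ≤ i + 1 → T.lev (resp (T.par x)) ≤ i := by
      intro x h1 h2
      have h3 : T.lev (T.par x) = i := by rw [T.lev_par']; omega
      have := hr.lev (T.par x) (by omega)
      omega
    have hA : ∀ x, ¬ T.lev x ≤ i →
        (K * c (resp (T.par x)) < c x ∨ ε < Theta T resp p' (resp (T.par x)) x) → resp' x = x := by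
      intro x h1 h2
      simp only [hresp', if_neg h1, if_pos h2]
    have hB : ∀ x, ¬ T.lev x ≤ i →
        ¬ (K * c (resp (T.par x)) < c x ∨ ε < Theta T resp p' (resp (T.par x)) x) →
        resp' x = resp (T.par x) := by
      intro x h1 h2
      simp only [hresp', if_neg h1, if_neg h2]
    refine ⟨resp', ?_, ?_, ?_, ?_, ?_, ?_⟩
    · rw [hlow _ (by rw [T.lev_root]; omega), hr.root]
    · intro x hx
      by_cases h1 : T.lev x ≤ i
      · rw [hlow x h1]; exact hr.lev x h1
      · by_cases h2 : (K * c (resp (T.par x)) < c x ∨ ε < Theta T resp p' (resp (T.par x)) x)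
        · rw [hA x h1 h2]
        · rw [hB x h1 h2]
          have := hparlev x h1 hx
          omega
    · intro x hx
      rw [hpar x hx]
      by_cases h1 : T.lev x ≤ i
      · rw [hlow x h1]; exact hr.step x h1
      · by_cases h2 : (K * c (resp (T.par x)) < c x ∨ ε < Theta T resp p' (resp (T.par x)) x)
        · exact Or.inl (hA x h1 h2)
        · exact Or.inr (hB x h1 h2)
    · intro x hx
      by_cases h1 : T.lev x ≤ i
      · rw [hlow x h1]; exact hr.prim x h1
      · by_cases h2 : (K * c (resp (T.par x)) < c x ∨ ε < Theta T resp p' (resp (T.par x)) x)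
        · rw [hA x h1 h2]; exact hle x
        · rw [hB x h1 h2]
          push Not at h2
          exact h2.1
    · intro x hx hne
      rw [hTh _ x hx]
      by_cases h1 : T.lev x ≤ i
      · rw [hlow x h1] at hne ⊢
        exact hr.theta x h1 hne
      · by_cases h2 : (K * c (resp (T.par x)) < c x ∨ ε < Theta T resp p' (resp (T.par x)) x)
        · exact absurd (hA x h1 h2) hne
        · rw [hB x h1 h2]
          push Not at h2
          exact h2.2
    · intro x hx hnr he
      rw [hpar x hx, hTh _ x hx]
      by_cases h1 : T.lev x ≤ i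
      · rw [hlow x h1] at he
        exact hr.reason x h1 hnr he
      · by_cases h2 : (K * c (resp (T.par x)) < c x ∨ ε < Theta T resp p' (resp (T.par x)) x)
        · exact h2
        · exfalso
          rw [hB x h1 h2] at he
          have := hparlev x h1 hx
          rw [he] at this
          exact h1 this

/-! ### combinatorics of pumps -/

section comb

variable {T : Tree n cT} {resp : T.ι → T.ι} (hstep : ∀ x, resp x = x ∨ resp x = resp (T.par x))
  (hroot : resp T.root = T.root)

include hstep hroot

/-- the responsible pump is below any pump above -/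
theorem resp_le_pump {x p : T.ι} (hp : resp p = p) (h : T.le x p) : T.le (resp x) p := by
  have hl : T.lev p ≤ T.lev (resp x) := by
    by_contra hcon
    push Not at hcon
    have h1 := Tree.resp_between hstep h hcon.le
    rw [hp] at h1
    rw [h1] at hcon
    omega
  exact T.le_of_le_of_le (Tree.le_resp hstep hroot x) h hl

/-- `y` is a child (in the tree of pumps) of the pump `x₀` -/
def Child (T : Tree n cT) (resp : T.ι → T.ι) (x₀ y : T.ι) : Prop :=
  resp y = y ∧ y ≠ x₀ ∧ y ≠ T.root ∧ resp (T.par y) = x₀

omit hstep hroot in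
theorem lev_pos_of_ne_root {y : T.ι} (h : y ≠ T.root) : 0 < T.lev y := by
  by_contra hcon
  exact h (T.eq_root y (by omega))

theorem Child.le {x₀ y : T.ι} (h : Child T resp x₀ y) : T.le y x₀ := by
  have h1 := Tree.le_resp hstep hroot (T.par y)
  rw [h.2.2.2] at h1
  exact T.le_trans (T.le_par y) h1

theorem Child.lev_lt {x₀ y : T.ι} (h : Child T resp x₀ y) : T.lev x₀ < T.lev y := by
  have h1 := Tree.lev_resp_le hstep hroot (T.par y)
  rw [h.2.2.2, T.lev_par'] at h1
  have := lev_pos_of_ne_root h.2.2.1
  omega

theorem child_antichain {x₀ y y' : T.ι} (h : Child T resp x₀ y) (h' : Child T resp x₀ y')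
    (hle : T.le y y') : y = y' := by
  by_contra hne
  have hl : T.lev y' < T.lev y := by
    have := T.lev_le_of_le hle
    rcases Nat.lt_or_ge (T.lev y') (T.lev y) with h1 | h1
    · exact h1
    · exact absurd (T.le_of_lev_eq hle (by omega)) hne
  have h1 : T.le (T.par y) y' := by
    apply T.le_of_le_of_le (T.le_par y) hle
    rw [T.lev_par']; omega
  have h2 := h'.lev_lt hstep hroot
  have h3 := Tree.resp_between hstep h1 (by rw [h.2.2.2]; omega)
  rw [h'.1, h.2.2.2] at h3
  exact h'.2.1 h3

/-- every pump strictly below the pump `x₀` is below a child of `x₀` -/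
theorem exists_child {x₀ v : T.ι} (hx : resp x₀ = x₀) (hv : resp v = v) (hle : T.le v x₀)
    (hne : v ≠ x₀) : ∃ y, Child T resp x₀ y ∧ T.le v y := by
  have key : ∀ k v, T.lev v = k → resp v = v → T.le v x₀ → v ≠ x₀ →
      ∃ y, Child T resp x₀ y ∧ T.le v y := by
    intro k
    induction k using Nat.strong_induction_on with
    | _ k ih =>
      intro v hk hv hle hne
      have hl : T.lev x₀ < T.lev v := by
        have := T.lev_le_of_le hle
        rcases Nat.lt_or_ge (T.lev x₀) (T.lev v) with h1 | h1
        · exact h1
        · exact absurd (T.le_of_lev_eq hle (by omega)) hne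
      have hp : T.le (T.par v) x₀ := by
        apply T.le_of_le_of_le (T.le_par v) hle
        rw [T.lev_par']; omega
      by_cases hu : resp (T.par v) = x₀
      · refine ⟨v, ⟨hv, hne, ?_, hu⟩, T.le_refl v⟩
        intro h
        rw [h, T.lev_root] at hl
        omega
      · have h1 := resp_le_pump hstep hroot hx hp
        have h2 := Tree.lev_resp_le hstep hroot (T.par v)
        rw [T.lev_par'] at h2
        obtain ⟨y, hy, hy2⟩ := ih (T.lev (resp (T.par v))) (by omega) _ rfl
          (Tree.resp_resp hstep hroot _) h1 hu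
        refine ⟨y, hy, T.le_trans (T.le_trans (T.le_par v) (Tree.le_resp hstep hroot _)) hy2⟩
  exact key _ v rfl hv hle hne

end comb

theorem sum_biUnion_le_aux {ι κ : Type} [DecidableEq ι] [DecidableEq κ] (Y : Finset ι)
    (g : ι → Finset κ) (f : κ → ℝ) (hf : ∀ v, 0 ≤ f v) :
    ∑ v ∈ Y.biUnion g, f v ≤ ∑ y ∈ Y, ∑ v ∈ g y, f v := by
  induction Y using Finset.induction_on with
  | empty => simp
  | insert a s ha ih =>
    rw [Finset.biUnion_insert, Finset.sum_insert ha]
    have h1 := Finset.sum_union_inter (s₁ := g a) (s₂ := s.biUnion g) (f := f)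
    have h2 : 0 ≤ ∑ v ∈ g a ∩ s.biUnion g, f v := Finset.sum_nonneg (fun v _ => hf v)
    linarith

open Classical in
/-- mass of the pumps below `x`, of level at most `m` -/
def FP (T : Tree n cT) (resp : T.ι → T.ι) (m : ℕ) (x : T.ι) : ℝ :=
  ∑ v ∈ Finset.univ.filter (fun v => resp v = v ∧ T.le v x ∧ T.lev v ≤ m), T.vol v

open Classical in
theorem FP_le (T : Tree n cT) (resp : T.ι → T.ι)
    (hstep : ∀ x, resp x = x ∨ resp x = resp (T.par x)) (hroot : resp T.root = T.root) (m : ℕ)
    (hchild : ∀ x₀, resp x₀ = x₀ →
      ∑ v ∈ Finset.univ.filter (fun v => Child T resp x₀ v ∧ T.lev v ≤ m), T.vol v ≤ 1/2 * T.vol x₀)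
    (x : T.ι) : FP T resp m x ≤ 2 * T.vol x := by
  have key : ∀ k x, T.I - T.lev x = k → FP T resp m x ≤ 2 * T.vol x := by
    intro k
    induction k using Nat.strong_induction_on with
    | _ k ih =>
      intro x hk
      have hlt : ∀ y, T.lev x < T.lev y → FP T resp m y ≤ 2 * T.vol y := by
        intro y hy
        have h1 := T.lev_le y
        exact ih (T.I - T.lev y) (by omega) y rfl
      by_cases hx : resp x = x
      · -- pump
        set Y := Finset.univ.filter (fun v => Child T resp x v ∧ T.lev v ≤ m) with hY
        have hsub : Finset.univ.filter (fun v => resp v = v ∧ T.le v x ∧ T.lev v ≤ m) ⊆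
            {x} ∪ Y.biUnion (fun y =>
              Finset.univ.filter (fun v => resp v = v ∧ T.le v y ∧ T.lev v ≤ m)) := by
          intro v hv
          simp only [Finset.mem_filter, Finset.mem_univ, true_and] at hv
          rw [Finset.mem_union]
          by_cases hvx : v = x
          · left; simp [hvx]
          · right
            obtain ⟨y, hy, hvy⟩ := exists_child hstep hroot hx hv.1 hv.2.1 hvx
            rw [Finset.mem_biUnion]
            refine ⟨y, ?_, ?_⟩
            · simp only [hY, Finset.mem_filter, Finset.mem_univ, true_and]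
              exact ⟨hy, (T.lev_le_of_le hvy).trans hv.2.2⟩
            · simp only [Finset.mem_filter, Finset.mem_univ, true_and]
              exact ⟨hv.1, hvy, hv.2.2⟩
        have h1 : FP T resp m x ≤ ∑ v ∈ {x} ∪ Y.biUnion (fun y =>
              Finset.univ.filter (fun v => resp v = v ∧ T.le v y ∧ T.lev v ≤ m)), T.vol v :=
          Finset.sum_le_sum_of_subset_of_nonneg hsub (fun v _ _ => T.vol_nonneg v)
        have h2 : ∑ v ∈ {x} ∪ Y.biUnion (fun y =>
              Finset.univ.filter (fun v => resp v = v ∧ T.le v y ∧ T.lev v ≤ m)), T.vol v ≤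
            ∑ v ∈ {x}, T.vol v + ∑ v ∈ Y.biUnion (fun y =>
              Finset.univ.filter (fun v => resp v = v ∧ T.le v y ∧ T.lev v ≤ m)), T.vol v := by
          rw [← Finset.sum_union_inter]
          have : 0 ≤ ∑ v ∈ {x} ∩ Y.biUnion (fun y =>
              Finset.univ.filter (fun v => resp v = v ∧ T.le v y ∧ T.lev v ≤ m)), T.vol v :=
            Finset.sum_nonneg (fun v _ => T.vol_nonneg v)
          linarith
        have h3 : ∑ v ∈ Y.biUnion (fun y =>
              Finset.univ.filter (fun v => resp v = v ∧ T.le v y ∧ T.lev v ≤ m)), T.vol v ≤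
            ∑ y ∈ Y, FP T resp m y := by
          unfold FP
          exact sum_biUnion_le_aux _ _ _ T.vol_nonneg
        have h4 : ∑ y ∈ Y, FP T resp m y ≤ ∑ y ∈ Y, 2 * T.vol y := by
          apply Finset.sum_le_sum
          intro y hy
          simp only [hY, Finset.mem_filter, Finset.mem_univ, true_and] at hy
          exact hlt y (hy.1.lev_lt hstep hroot)
        have h5 := hchild x hx
        rw [← Finset.mul_sum] at h4
        rw [Finset.sum_singleton] at h2
        linarith
      · -- not a pump
        set Y := Finset.univ.filter (fun v => T.par v = x ∧ T.lev v = T.lev x + 1) with hY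
        have hsub : Finset.univ.filter (fun v => resp v = v ∧ T.le v x ∧ T.lev v ≤ m) ⊆
            Y.biUnion (fun y =>
              Finset.univ.filter (fun v => resp v = v ∧ T.le v y ∧ T.lev v ≤ m)) := by
          intro v hv
          simp only [Finset.mem_filter, Finset.mem_univ, true_and] at hv
          have hvx : v ≠ x := by rintro rfl; exact hx hv.1
          have hl : T.lev x < T.lev v := by
            have := T.lev_le_of_le hv.2.1
            rcases Nat.lt_or_ge (T.lev x) (T.lev v) with h1 | h1
            · exact h1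
            · exact absurd (T.le_of_lev_eq hv.2.1 (by omega)) hvx
          rw [Finset.mem_biUnion]
          refine ⟨T.anc (T.lev x + 1) v, ?_, ?_⟩
          · simp only [hY, Finset.mem_filter, Finset.mem_univ, true_and]
            refine ⟨?_, T.lev_anc hl⟩
            rw [T.par_anc hl]
            exact T.le_iff.1 hv.2.1
          · simp only [Finset.mem_filter, Finset.mem_univ, true_and]
            exact ⟨hv.1, T.le_anc _ _, hv.2.2⟩
        have h1 : FP T resp m x ≤ ∑ v ∈ Y.biUnion (fun y =>
              Finset.univ.filter (fun v => resp v = v ∧ T.le v y ∧ T.lev v ≤ m)), T.vol v :=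
          Finset.sum_le_sum_of_subset_of_nonneg hsub (fun v _ _ => T.vol_nonneg v)
        have h3 : ∑ v ∈ Y.biUnion (fun y =>
              Finset.univ.filter (fun v => resp v = v ∧ T.le v y ∧ T.lev v ≤ m)), T.vol v ≤
            ∑ y ∈ Y, FP T resp m y := by
          unfold FP
          exact sum_biUnion_le_aux _ _ _ T.vol_nonneg
        have h4 : ∑ y ∈ Y, FP T resp m y ≤ ∑ y ∈ Y, 2 * T.vol y := by
          apply Finset.sum_le_sum
          intro y hy
          simp only [hY, Finset.mem_filter, Finset.mem_univ, true_and] at hy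
          exact hlt y (by omega)
        have h5 : ∑ y ∈ Y, T.vol y ≤ T.vol x := by
          apply T.sum_vol_le_vol
          · intro v hv v' hv' hle
            simp only [hY, Finset.mem_filter, Finset.mem_univ, true_and] at hv hv'
            exact T.le_of_lev_eq hle (by omega)
          · intro v hv
            simp only [hY, Finset.mem_filter, Finset.mem_univ, true_and] at hv
            rw [← hv.1]
            exact T.le_par v
        rw [← Finset.mul_sum] at h4
        linarith
  exact key _ x rfl

end

end Pool.Agent.Lib.MP7ebef4
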