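import Mathlib

/-! Abstract maximal inequality by the `T T*` method. -/

set_option autoImplicit false

open MeasureTheory Set
open scoped NNReal ENNReal

namespace Pool.Agent.Lib.MP7ebef4

namespace RMax

variable {X : Type*} [MeasurableSpace X]

/-- Cauchy–Schwarz for lower Lebesgue integrals -/
theorem cs (σ : Measure X) (f g : X → ENNReal) (hf : AEMeasurable f σ) (hg : AEMeasurable g σ) :
    (∫⁻ x, f x * g x ∂σ) ^ (2:ℕ) ≤ (∫⁻ x, f x ^ (2:ℕ) ∂σ) * ∫⁻ x, g x ^ (2:ℕ) ∂σ := by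
  have hconj : Real.HolderConjugate 2 2 := by
    rw [Real.holderConjugate_iff]; norm_num
  have h1 := ENNReal.lintegral_mul_le_Lp_mul_Lq σ hconj hf hg
  have h2 : (∫⁻ x, f x * g x ∂σ) ^ (2:ℕ) ≤
      ((∫⁻ a, f a ^ (2:ℝ) ∂σ) ^ (1 / (2:ℝ)) * (∫⁻ a, g a ^ (2:ℝ) ∂σ) ^ (1 / (2:ℝ))) ^ (2:ℕ) := by
    gcongr
    exact h1
  refine h2.trans (le_of_eq ?_)
  rw [mul_pow, ← ENNReal.rpow_natCast, ← ENNReal.rpow_natCast, ← ENNReal.rpow_mul,
    ← ENNReal.rpow_mul]
  norm_num

theorem mm {u v : X → ENNReal} (hu : Measurable u) (hv : Measurable v) :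
    Measurable (fun x => u x * v x) := hu.mul hv

/-- the first index where the supremum is attained -/
theorem exists_partition {m : ℕ} (t : Fin m → X → ENNReal) (ht : ∀ a, Measurable (t a)) :
    ∃ w : Fin m → X → ENNReal, (∀ a, Measurable (w a)) ∧
      (∀ x, 0 < m → ∑ a, w a x = 1) ∧ (∀ a x, w a x * (⨆ b, t b x) = w a x * t a x) := by
  classical
  let N : X → ENNReal := fun x => ⨆ b, t b x
  have hN : Measurable N := Measurable.iSup ht
  let E : Fin m → Set X := fun a => {x | t a x = N x} \ ⋃ b, ⋃ (_ : b < a), {x | t b x = N x}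
  have hE : ∀ a, MeasurableSet (E a) := by
    intro a
    refine (measurableSet_eq_fun (ht a) hN).diff ?_
    exact MeasurableSet.iUnion (fun b => MeasurableSet.iUnion (fun _ =>
      measurableSet_eq_fun (ht b) hN))
  refine ⟨fun a => (E a).indicator 1, fun a => measurable_one.indicator (hE a), ?_, ?_⟩
  · intro x hm
    have : Nonempty (Fin m) := ⟨⟨0, hm⟩⟩
    have hex : ∃ a, t a x = N x := by
      obtain ⟨a, ha⟩ := exists_eq_ciSup_of_finite (f := fun b => t b x)
      exact ⟨a, ha⟩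
    have hne : (Finset.univ.filter (fun a => t a x = N x)).Nonempty := by
      obtain ⟨a, ha⟩ := hex
      exact ⟨a, by simp [ha]⟩
    set a₀ := (Finset.univ.filter (fun a => t a x = N x)).min' hne with ha₀
    have hmem := Finset.min'_mem _ hne
    rw [← ha₀, Finset.mem_filter] at hmem
    have hE₀ : x ∈ E a₀ := by
      refine ⟨hmem.2, ?_⟩
      simp only [mem_iUnion, not_exists]
      intro b hb hbx
      have : a₀ ≤ b := by
        rw [ha₀]
        exact Finset.min'_le _ _ (by simpa using hbx)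
      exact absurd hb (not_lt.mpr this)
    rw [Finset.sum_eq_single a₀]
    · simp [hE₀]
    · intro b _ hb
      refine indicator_of_notMem ?_ _
      intro hbx
      rcases lt_trichotomy b a₀ with h | h | h
      · apply hE₀.2
        simp only [mem_iUnion]
        exact ⟨b, h, hbx.1⟩
      · exact hb h
      · apply hbx.2
        simp only [mem_iUnion]
        exact ⟨a₀, h, hmem.2⟩
    · intro h; exact absurd (Finset.mem_univ _) h
  · intro a x
    by_cases hx : x ∈ E a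
    · have : t a x = N x := hx.1
      simp only [indicator_of_mem hx, Pi.one_apply, one_mul]
      exact this.symm
    · simp [indicator_of_notMem hx]

theorem maximal_step {m : ℕ} (σ : Measure X) (T : Fin m → (X → ENNReal) → X → ENNReal)
    (hTm : ∀ a u, Measurable u → Measurable (T a u))
    (hadd : ∀ a (u : Fin m → X → ENNReal), (∀ i, Measurable (u i)) → ∀ x,
      T a (fun y => ∑ i, u i y) x = ∑ i, T a (u i) x)
    (hsymm : ∀ a u v, Measurable u → Measurable v →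
      ∫⁻ x, T a u x * v x ∂σ = ∫⁻ x, u x * T a v x ∂σ)
    (C : ℝ≥0)
    (hcomp : ∀ a b u, Measurable u → ∀ x, T a (T b u) x ≤ C * (T a u x + T b u x))
    (hL2 : ∀ a u, Measurable u → ∫⁻ x, T a u x ^ (2:ℕ) ∂σ ≤ ∫⁻ x, u x ^ (2:ℕ) ∂σ)
    (μ : ℝ≥0) (hμ : ∀ u : X → ENNReal, Measurable u → ∫⁻ x, u x ^ (2:ℕ) ∂σ < ⊤ →
      ∫⁻ x, (⨆ a, T a u x) ^ (2:ℕ) ∂σ ≤ (μ : ENNReal) ^ 2 * ∫⁻ x, u x ^ (2:ℕ) ∂σ)
    (u : X → ENNReal) (hu : Measurable u) (hu2 : ∫⁻ x, u x ^ (2:ℕ) ∂σ < ⊤) :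
    ∫⁻ x, (⨆ a, T a u x) ^ (2:ℕ) ∂σ ≤ (2 * C * μ : ENNReal) * ∫⁻ x, u x ^ (2:ℕ) ∂σ := by
  rcases Nat.eq_zero_or_pos m with hm | hm
  · subst hm
    simp
  set N : (X → ENNReal) → X → ENNReal := fun u x => ⨆ a, T a u x with hNdef
  have hNm : ∀ u, Measurable u → Measurable (N u) := fun u hu => Measurable.iSup (fun a => hTm a u hu)
  set v := N u with hv
  have hvm : Measurable v := hNm u hu
  obtain ⟨w, hwm, hw1, hw2⟩ := exists_partition (fun a => T a u) (fun a => hTm a u hu)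
  set va : Fin m → X → ENNReal := fun a x => w a x * v x with hva
  have hvam : ∀ a, Measurable (va a) := fun a => (hwm a).mul hvm
  have hvsum : ∀ x, ∑ a, va a x = v x := by
    intro x
    simp only [hva]
    rw [← Finset.sum_mul, hw1 x hm, one_mul]
  have hva2 : ∀ a x, va a x * v x = va a x * T a u x := by
    intro a x
    have h := hw2 a x
    have h' : w a x * v x = w a x * T a u x := h
    simp only [hva]
    calc w a x * v x * v x = (w a x * v x) * v x := rfl
      _ = v x * (w a x * v x) := by ring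
      _ = v x * (w a x * T a u x) := by rw [h']
      _ = w a x * v x * T a u x := by ring
  set V := ∫⁻ x, v x ^ (2:ℕ) ∂σ with hV
  set U := ∫⁻ x, u x ^ (2:ℕ) ∂σ with hU
  set W : X → ENNReal := fun x => ∑ a, T a (va a) x with hW
  have hWm : Measurable W := Finset.measurable_fun_sum _ (fun a _ => hTm a _ (hvam a))
  -- step 1
  have h1 : V = ∫⁻ x, u x * W x ∂σ := by
    calc V = ∫⁻ x, ∑ a, va a x * T a u x ∂σ := by
          refine lintegral_congr (fun x => ?_)
          rw [pow_two]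
          conv_lhs => rw [← hvsum x, Finset.sum_mul, hvsum x]
          exact Finset.sum_congr rfl (fun a _ => hva2 a x)
      _ = ∑ a, ∫⁻ x, va a x * T a u x ∂σ :=
          lintegral_finsetSum _ (fun a _ => mm (hvam a) (hTm a u hu))
      _ = ∑ a, ∫⁻ x, u x * T a (va a) x ∂σ := by
          refine Finset.sum_congr rfl (fun a _ => ?_)
          rw [← hsymm a u (va a) hu (hvam a)]
          exact lintegral_congr (fun x => mul_comm _ _)
      _ = ∫⁻ x, ∑ a, u x * T a (va a) x ∂σ :=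
          (lintegral_finsetSum _ (fun a _ => mm hu (hTm a _ (hvam a)))).symm
      _ = ∫⁻ x, u x * W x ∂σ := by
          refine lintegral_congr (fun x => ?_)
          rw [hW, Finset.mul_sum]
  -- step 2
  have hTv : ∀ a x, T a v x = ∑ b, T a (va b) x := by
    intro a x
    have : v = fun y => ∑ i, va i y := by
      funext y; exact (hvsum y).symm
    conv_lhs => rw [this]
    exact hadd a va hvam x
  have hswap : ∀ a b, ∫⁻ x, T a (va a) x * T b (va b) x ∂σ ≤
      C * (∫⁻ x, va a x * T a (va b) x ∂σ + ∫⁻ x, va a x * T b (va b) x ∂σ) := by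
    intro a b
    rw [hsymm a (va a) (T b (va b)) (hvam a) (hTm b _ (hvam b))]
    calc ∫⁻ x, va a x * T a (T b (va b)) x ∂σ ≤
        ∫⁻ x, C * (va a x * T a (va b) x + va a x * T b (va b) x) ∂σ := by
          refine lintegral_mono (fun x => ?_)
          calc va a x * T a (T b (va b)) x ≤ va a x * (C * (T a (va b) x + T b (va b) x)) :=
                mul_le_mul_right (hcomp a b _ (hvam b) x) _
            _ = C * (va a x * T a (va b) x + va a x * T b (va b) x) := by ring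
      _ = _ := by
          rw [lintegral_const_mul' _ _ ENNReal.coe_ne_top, lintegral_add_left
            (mm (hvam a) (hTm a _ (hvam b)))]
  have hZ : ∀ a, ∫⁻ x, va a x * T a v x ∂σ ≤ ∫⁻ x, va a x * N v x ∂σ := by
    intro a
    refine lintegral_mono (fun x => ?_)
    exact mul_le_mul_right (le_iSup (fun a => T a v x) a) _
  have hNvm := hNm v hvm
  set Z := ∫⁻ x, v x * N v x ∂σ with hZdef
  have hsumZ : ∑ a, ∫⁻ x, va a x * N v x ∂σ = Z := by
    rw [← lintegral_finsetSum _ (fun a _ => mm (hvam a) hNvm)]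
    refine lintegral_congr (fun x => ?_)
    rw [← Finset.sum_mul, hvsum]
  have h2 : ∫⁻ x, W x ^ (2:ℕ) ∂σ ≤ 2 * C * Z := by
    calc ∫⁻ x, W x ^ (2:ℕ) ∂σ = ∫⁻ x, ∑ a, ∑ b, T a (va a) x * T b (va b) x ∂σ := by
          refine lintegral_congr (fun x => ?_)
          rw [hW, pow_two, Finset.sum_mul_sum]
      _ = ∑ a, ∑ b, ∫⁻ x, T a (va a) x * T b (va b) x ∂σ := by
          rw [lintegral_finsetSum _ (fun a _ => Finset.measurable_fun_sum _ (fun b _ =>
            mm (hTm a _ (hvam a)) (hTm b _ (hvam b))))]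
          refine Finset.sum_congr rfl (fun a _ => ?_)
          rw [lintegral_finsetSum _ (fun b _ => mm (hTm a _ (hvam a)) (hTm b _ (hvam b)))]
      _ ≤ ∑ a, ∑ b, C * (∫⁻ x, va a x * T a (va b) x ∂σ + ∫⁻ x, va a x * T b (va b) x ∂σ) :=
          Finset.sum_le_sum (fun a _ => Finset.sum_le_sum (fun b _ => hswap a b))
      _ = C * (∑ a, ∑ b, ∫⁻ x, va a x * T a (va b) x ∂σ +
            ∑ b, ∑ a, ∫⁻ x, va a x * T b (va b) x ∂σ) := by
          rw [Finset.sum_comm (γ := Fin m) (f := fun b a => ∫⁻ x, va a x * T b (va b) x ∂σ),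
            ← Finset.sum_add_distrib, Finset.mul_sum]
          refine Finset.sum_congr rfl (fun a _ => ?_)
          rw [← Finset.sum_add_distrib, Finset.mul_sum]
      _ = C * (∑ a, ∫⁻ x, va a x * T a v x ∂σ + ∑ b, ∫⁻ x, v x * T b (va b) x ∂σ) := by
          congr 2
          · refine Finset.sum_congr rfl (fun a _ => ?_)
            rw [← lintegral_finsetSum _ (fun b _ => mm (hvam a) (hTm a _ (hvam b)))]
            refine lintegral_congr (fun x => ?_)
            rw [hTv, Finset.mul_sum]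
          · refine Finset.sum_congr rfl (fun b _ => ?_)
            rw [← lintegral_finsetSum _ (fun a _ => mm (hvam a) (hTm b _ (hvam b)))]
            refine lintegral_congr (fun x => ?_)
            rw [← Finset.sum_mul, hvsum]
      _ = C * (∑ a, ∫⁻ x, va a x * T a v x ∂σ + ∑ b, ∫⁻ x, va b x * T b v x ∂σ) := by
          congr 2
          refine Finset.sum_congr rfl (fun b _ => ?_)
          rw [← hsymm b v (va b) hvm (hvam b)]
          exact lintegral_congr (fun x => mul_comm _ _)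
      _ ≤ C * (Z + Z) := by
          have h3 : ∑ a, ∫⁻ x, va a x * T a v x ∂σ ≤ Z :=
            (Finset.sum_le_sum (fun a _ => hZ a)).trans (le_of_eq hsumZ)
          gcongr
      _ = 2 * C * Z := by ring
  -- finiteness of V
  have hVtop : V < ⊤ := by
    have : V ≤ ∑ a : Fin m, ∫⁻ x, T a u x ^ (2:ℕ) ∂σ := by
      rw [← lintegral_finsetSum _ (fun a _ => (hTm a u hu).pow_const 2)]
      refine lintegral_mono (fun x => ?_)
      have : Nonempty (Fin m) := ⟨⟨0, hm⟩⟩
      obtain ⟨a, ha⟩ := exists_eq_ciSup_of_finite (f := fun b => T b u x)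
      have hvx : v x = T a u x := ha.symm
      show v x ^ 2 ≤ _
      rw [hvx]
      exact Finset.single_le_sum (f := fun a => T a u x ^ 2) (fun _ _ => bot_le) (Finset.mem_univ a)
    refine this.trans_lt ?_
    rw [ENNReal.sum_lt_top]
    exact fun a _ => (hL2 a u hu).trans_lt hu2
  -- step 3
  have h3 : Z ^ 2 ≤ (μ * V) ^ 2 := by
    calc Z ^ 2 ≤ V * ∫⁻ x, N v x ^ (2:ℕ) ∂σ := cs σ v (N v) hvm.aemeasurable hNvm.aemeasurable
      _ ≤ V * ((μ : ENNReal) ^ 2 * V) := mul_le_mul_right (hμ v hvm hVtop) _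
      _ = (μ * V) ^ 2 := by ring
  have h4 : Z ≤ μ * V := (ENNReal.pow_le_pow_left_iff two_ne_zero).mp h3
  have h5 : V ^ 2 ≤ U * (2 * C * (μ * V)) := by
    calc V ^ 2 = (∫⁻ x, u x * W x ∂σ) ^ 2 := by rw [← h1]
      _ ≤ U * ∫⁻ x, W x ^ (2:ℕ) ∂σ := cs σ u W hu.aemeasurable hWm.aemeasurable
      _ ≤ U * (2 * C * Z) := mul_le_mul_right h2 _
      _ ≤ U * (2 * C * (μ * V)) := by gcongr
  show V ≤ _
  rcases eq_or_ne V 0 with h0 | h0
  · rw [h0]; exact bot_le
  have h6 : V * V ≤ V * (2 * C * μ * U) := by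
    calc V * V = V ^ 2 := (pow_two V).symm
      _ ≤ U * (2 * C * (μ * V)) := h5
      _ = V * (2 * C * μ * U) := by ring
  exact (ENNReal.mul_le_mul_iff_right h0 hVtop.ne).mp h6

theorem maximal_abs {m : ℕ} (σ : Measure X) (T : Fin m → (X → ENNReal) → X → ENNReal)
    (hTm : ∀ a u, Measurable u → Measurable (T a u))
    (hadd : ∀ a (u : Fin m → X → ENNReal), (∀ i, Measurable (u i)) → ∀ x,
      T a (fun y => ∑ i, u i y) x = ∑ i, T a (u i) x)
    (hsymm : ∀ a u v, Measurable u → Measurable v →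
      ∫⁻ x, T a u x * v x ∂σ = ∫⁻ x, u x * T a v x ∂σ)
    (C : ℝ≥0)
    (hcomp : ∀ a b u, Measurable u → ∀ x, T a (T b u) x ≤ C * (T a u x + T b u x))
    (hL2 : ∀ a u, Measurable u → ∫⁻ x, T a u x ^ (2:ℕ) ∂σ ≤ ∫⁻ x, u x ^ (2:ℕ) ∂σ)
    (u : X → ENNReal) (hu : Measurable u) :
    ∫⁻ x, (⨆ a, T a u x) ^ (2:ℕ) ∂σ ≤ ((4 * C ^ 2 + 1 : ℝ≥0) : ENNReal) * ∫⁻ x, u x ^ (2:ℕ) ∂σ := by
  rcases eq_or_ne (∫⁻ x, u x ^ (2:ℕ) ∂σ) ⊤ with hU | hU
  · rw [hU, ENNReal.mul_top]
    · exact le_top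
    · rw [Ne, ENNReal.coe_eq_zero]
      positivity
  set S : Set ℝ≥0 := {μ : ℝ≥0 | ∀ u : X → ENNReal, Measurable u → ∫⁻ x, u x ^ (2:ℕ) ∂σ < ⊤ →
      ∫⁻ x, (⨆ a, T a u x) ^ (2:ℕ) ∂σ ≤ (μ : ENNReal) ^ 2 * ∫⁻ x, u x ^ (2:ℕ) ∂σ} with hS
  have hm : (m : ℝ≥0) ∈ S := by
    intro u hu _
    rcases Nat.eq_zero_or_pos m with hm | hm
    · subst hm; simp
    calc ∫⁻ x, (⨆ a, T a u x) ^ (2:ℕ) ∂σ ≤ ∑ a : Fin m, ∫⁻ x, T a u x ^ (2:ℕ) ∂σ := by
          rw [← lintegral_finsetSum _ (fun a _ => (hTm a u hu).pow_const 2)]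
          refine lintegral_mono (fun x => ?_)
          have : Nonempty (Fin m) := ⟨⟨0, hm⟩⟩
          obtain ⟨a, ha⟩ := exists_eq_ciSup_of_finite (f := fun b => T b u x)
          show (⨆ a, T a u x) ^ 2 ≤ _
          rw [← ha]
          exact Finset.single_le_sum (f := fun a => T a u x ^ 2) (fun _ _ => bot_le)
            (Finset.mem_univ a)
      _ ≤ ∑ a : Fin m, ∫⁻ x, u x ^ (2:ℕ) ∂σ := Finset.sum_le_sum (fun a _ => hL2 a u hu)
      _ = (m : ENNReal) * ∫⁻ x, u x ^ (2:ℕ) ∂σ := by simp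
      _ ≤ (((m : ℝ≥0) : ENNReal)) ^ 2 * ∫⁻ x, u x ^ (2:ℕ) ∂σ := by
          gcongr
          rw [ENNReal.coe_natCast, pow_two]
          have h1 : (1 : ENNReal) ≤ (m : ENNReal) := by exact_mod_cast hm
          calc (m : ENNReal) = m * 1 := (mul_one _).symm
            _ ≤ m * m := mul_le_mul_right h1 _
  have hstep : ∀ μ ∈ S, NNReal.sqrt (2 * C * μ) ∈ S := by
    intro μ hμ u hu hu2
    have h := maximal_step σ T hTm hadd hsymm C hcomp hL2 μ hμ u hu hu2
    refine h.trans (le_of_eq ?_)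
    congr 1
    rw [← ENNReal.coe_pow, NNReal.sq_sqrt]
    push_cast
    rfl
  set s := sInf S with hs
  have hsle : ∀ μ ∈ S, s ^ 2 ≤ 2 * C * μ := by
    intro μ hμ
    have h1 : s ≤ NNReal.sqrt (2 * C * μ) := csInf_le (OrderBot.bddBelow S) (hstep μ hμ)
    calc s ^ 2 ≤ (NNReal.sqrt (2 * C * μ)) ^ 2 := pow_le_pow_left₀ (zero_le) h1 2
      _ = 2 * C * μ := NNReal.sq_sqrt _
  have hs2 : s ≤ 2 * C := by
    rcases eq_or_ne C 0 with hC | hC
    · have h1 := hsle m hm
      rw [hC] at h1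
      have h2 : s ^ 2 = 0 := by simpa using h1
      have h3 : s = 0 := by simpa using h2
      rw [h3]; exact zero_le
    · have h2C : 0 < 2 * C := by positivity
      have h1 : s ^ 2 / (2 * C) ≤ s := by
        refine le_csInf ⟨_, hm⟩ (fun μ hμ => ?_)
        rw [div_le_iff₀ h2C, mul_comm]
        exact hsle μ hμ
      rw [div_le_iff₀ h2C] at h1
      rcases eq_or_ne s 0 with h0 | h0
      · rw [h0]; exact zero_le
      · have hspos : 0 < s := pos_iff_ne_zero.mpr h0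
        rw [pow_two] at h1
        exact le_of_mul_le_mul_left h1 hspos
  have hs3 : s < NNReal.sqrt (4 * C ^ 2 + 1) := by
    refine hs2.trans_lt ?_
    rw [← NNReal.sqrt_sq (2 * C)]
    rw [NNReal.sqrt_lt_sqrt]
    have : (2 * C) ^ 2 = 4 * C ^ 2 := by ring
    rw [this]
    exact lt_add_one _
  obtain ⟨μ, hμS, hμ⟩ := exists_lt_of_csInf_lt ⟨_, hm⟩ hs3
  have hμ2 : μ ^ 2 ≤ 4 * C ^ 2 + 1 := by
    calc μ ^ 2 ≤ (NNReal.sqrt (4 * C ^ 2 + 1)) ^ 2 := pow_le_pow_left₀ (zero_le) hμ.le 2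
      _ = _ := NNReal.sq_sqrt _
  refine (hμS u hu (lt_top_iff_ne_top.mpr hU)).trans ?_
  gcongr
  exact_mod_cast hμ2

end RMax

end Pool.Agent.Lib.MP7ebef4
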