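import Pool.Agent.Lib.MP_7ebef4_an.SubmeanDisc

/-! Poisson kernel on the circle: change of variables, majorization, semigroup property. -/

set_option autoImplicit false

open MeasureTheory Set Real
open scoped NNReal ENNReal

namespace Pool.Agent.Lib.MP7ebef4

noncomputable section

namespace RMax

/-- the Möbius map -/
def phi (a : ℝ) (z : ℂ) : ℂ := (z + a) / (1 + a * z)

theorem one_add_ne {a : ℝ} (ha0 : 0 ≤ a) (ha1 : a < 1) {z : ℂ} (hz : ‖z‖ ≤ 1) :
    (1 : ℂ) + a * z ≠ 0 := by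
  intro h
  have h1 : ‖(a : ℂ) * z‖ = 1 := by
    have : (a : ℂ) * z = -1 := by linear_combination h
    rw [this]; simp
  rw [norm_mul, Complex.norm_real, Real.norm_of_nonneg ha0] at h1
  nlinarith [norm_nonneg z]

theorem one_sub_ne {a : ℝ} (ha0 : 0 ≤ a) (ha1 : a < 1) {z : ℂ} (hz : ‖z‖ ≤ 1) :
    (1 : ℂ) - a * z ≠ 0 := by
  have := one_add_ne ha0 ha1 (z := -z) (by simpa using hz)
  intro h
  apply this
  linear_combination h

theorem norm_phi_le {a : ℝ} (ha0 : 0 ≤ a) (ha1 : a < 1) {z : ℂ} (hz : ‖z‖ ≤ 1) :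
    ‖phi a z‖ ≤ 1 := by
  have h0 := one_add_ne ha0 ha1 hz
  unfold phi
  rw [norm_div, div_le_one (norm_pos_iff.mpr h0)]
  apply le_of_sq_le_sq _ (norm_nonneg _)
  rw [← Complex.normSq_eq_norm_sq, ← Complex.normSq_eq_norm_sq]
  have hz2 : z.re * z.re + z.im * z.im ≤ 1 := by
    have : ‖z‖ ^ 2 ≤ 1 := by nlinarith [norm_nonneg z]
    rwa [← Complex.normSq_eq_norm_sq, Complex.normSq_apply] at this
  simp only [Complex.normSq_apply, Complex.add_re, Complex.add_im, Complex.ofReal_re,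
    Complex.ofReal_im, Complex.mul_re, Complex.mul_im, Complex.one_re, Complex.one_im]
  nlinarith [mul_nonneg (sub_nonneg.mpr hz2) (by nlinarith : (0:ℝ) ≤ 1 - a * a)]

theorem analyticAt_phi {a : ℝ} (ha0 : 0 ≤ a) (ha1 : a < 1) {z : ℂ} (hz : ‖z‖ ≤ 1) :
    AnalyticAt ℂ (phi a) z := by
  unfold phi
  have h0 := one_add_ne ha0 ha1 hz
  exact (analyticAt_id.add analyticAt_const).div
    (analyticAt_const.add (analyticAt_const.mul analyticAt_id)) h0

theorem phi_psi {a : ℝ} (ha0 : 0 ≤ a) (ha1 : a < 1) {z : ℂ} (hz : ‖z‖ ≤ 1) :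
    phi a ((z - a) / (1 - a * z)) = z := by
  unfold phi
  have h1 := one_sub_ne ha0 ha1 hz
  have h2 : (1 : ℂ) - a ^ 2 ≠ 0 := by
    have h3 : (1 : ℝ) - a ^ 2 ≠ 0 := by nlinarith
    exact_mod_cast h3
  set w := (1 : ℂ) - a * z with hw
  have h4 : (1 : ℂ) + a * ((z - a) / w) = (1 - a ^ 2) / w := by
    rw [eq_div_iff h1, add_mul, mul_assoc, div_mul_cancel₀ _ h1, hw]
    ring
  have h5 : (z - a) / w + a = z * (1 - a ^ 2) / w := by
    rw [eq_div_iff h1, add_mul, div_mul_cancel₀ _ h1, hw]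
    ring
  rw [h4, h5, div_div_div_cancel_right₀ h1, mul_div_assoc, div_self h2, mul_one]

/-- Poisson kernel at the real point `a` -/
theorem poisson_at {a : ℝ} {z : ℂ} (hz : ‖z‖ = 1) :
    poissonKernel 0 (a : ℂ) z = (1 - a ^ 2) / ‖1 - a * z‖ ^ 2 := by
  rw [poissonKernel_def]
  simp only [sub_zero, Complex.norm_real, hz, one_pow, Real.norm_eq_abs, sq_abs]
  congr 2
  have h1 : z - a = z * (starRingEnd ℂ) (1 - a * z) := by
    rw [map_sub, map_mul, map_one, Complex.conj_ofReal, mul_sub, mul_one]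
    have : z * (a * (starRingEnd ℂ) z) = a * (z * (starRingEnd ℂ) z) := by ring
    rw [this, Complex.mul_conj, Complex.normSq_eq_norm_sq, hz]
    simp
  rw [h1, norm_mul, hz, one_mul, Complex.norm_conj]

theorem poisson_cts {a : ℝ} (ha0 : 0 ≤ a) (ha1 : a < 1) :
    ContinuousOn (poissonKernel 0 (a : ℂ)) (Metric.sphere 0 1) := by
  have : ContinuousOn (fun z : ℂ => (1 - a ^ 2) / ‖1 - a * z‖ ^ 2) (Metric.sphere 0 1) := by
    refine ContinuousOn.div continuousOn_const (by fun_prop) ?_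
    intro z hz
    have := one_sub_ne ha0 ha1 (z := z) (by simpa using (mem_sphere_zero_iff_norm.mp hz).le)
    positivity
  exact this.congr (fun z hz => poisson_at (mem_sphere_zero_iff_norm.mp hz))

theorem mem_ball_a {a : ℝ} (ha0 : 0 ≤ a) (ha1 : a < 1) : (a : ℂ) ∈ Metric.ball (0:ℂ) 1 := by
  rw [mem_ball_zero_iff, Complex.norm_real, Real.norm_of_nonneg ha0]
  exact ha1

theorem avg_poisson {a : ℝ} (ha0 : 0 ≤ a) (ha1 : a < 1) :
    circleAverage (poissonKernel 0 (a : ℂ)) 0 1 = 1 := by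
  have h := InnerProductSpace.HarmonicOnNhd.circleAverage_poissonKernel_smul
    (f := fun _ => (1:ℝ)) (c := 0) (R := 1) (w := (a : ℂ)) (fun x _ =>
      InnerProductSpace.harmonicAt_const 1) (mem_ball_a ha0 ha1)
  rw [← h]
  congr 1
  funext z
  simp

/-- change of variables -/
theorem poisson_cov {a : ℝ} (ha0 : 0 ≤ a) (ha1 : a < 1) (G : ℂ → ℝ)
    (hG : ContinuousOn G (Metric.closedBall 0 1)) :
    circleAverage (fun z => poissonKernel 0 (a : ℂ) z * G z) 0 1 =
      circleAverage (fun z => G (phi a z)) 0 1 := by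
  set P : ℝ → ℝ := fun θ => poissonKernel 0 (a : ℂ) (circleMap 0 1 θ) with hP
  have hn1 : ∀ θ, ‖circleMap 0 1 θ‖ = 1 := fun θ => by simp
  have hPc : Continuous P := by
    refine (poisson_cts ha0 ha1).comp_continuous (continuous_circleMap 0 1) (fun θ => ?_)
    rw [mem_sphere_zero_iff_norm]; exact hn1 θ
  have hI : ∫ θ in (0:ℝ)..2 * π, P θ = 2 * π := by
    have h := avg_poisson ha0 ha1
    rw [circleAverage_def, smul_eq_mul] at h
    have hpi : (2 * π) ≠ 0 := by positivity
    calc ∫ θ in (0:ℝ)..2 * π, P θ = (2 * π) * ((2 * π)⁻¹ * ∫ θ in (0:ℝ)..2 * π, P θ) := by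
          rw [← mul_assoc, mul_inv_cancel₀ hpi, one_mul]
      _ = 2 * π := by rw [h, mul_one]
  set α : ℝ → ℝ := fun θ => ∫ s in (0:ℝ)..θ, P s with hα
  have hαd : ∀ θ, HasDerivAt α (P θ) θ := fun θ =>
    intervalIntegral.integral_hasDerivAt_right (hPc.intervalIntegrable _ _)
      (hPc.stronglyMeasurableAtFilter _ _) hPc.continuousAt
  -- the ODE
  set y : ℝ → ℂ := fun θ => (circleMap 0 1 θ - a) / (1 - a * circleMap 0 1 θ) with hy
  have hyd : ∀ θ, HasDerivAt y (Complex.I * P θ * y θ) θ := by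
    intro θ
    have hz := hn1 θ
    have h0 := one_sub_ne ha0 ha1 (z := circleMap 0 1 θ) hz.le
    have hc : HasDerivAt (circleMap 0 1) (circleMap 0 1 θ * Complex.I) θ := by
      simpa using hasDerivAt_circleMap 0 1 θ
    have h1 := (hc.sub_const (a : ℂ)).fun_div ((hc.const_mul (a : ℂ)).const_sub 1) h0
    refine h1.congr_deriv ?_
    simp only [hy]
    set z := circleMap 0 1 θ with hzdef
    have hPz : (P θ : ℂ) = (1 - a ^ 2) / ((1 - a * z) * (starRingEnd ℂ) (1 - a * z)) := by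
      rw [Complex.mul_conj, Complex.normSq_eq_norm_sq]
      simp only [hP]
      rw [poisson_at hz]
      push_cast
      rfl
    have hconj : z * (starRingEnd ℂ) (1 - a * z) = z - a := by
      rw [map_sub, map_mul, map_one, Complex.conj_ofReal, mul_sub, mul_one]
      have : z * (a * (starRingEnd ℂ) z) = a * (z * (starRingEnd ℂ) z) := by ring
      rw [this, Complex.mul_conj, Complex.normSq_eq_norm_sq, hz]
      simp
    have h0' : (starRingEnd ℂ) (1 - a * z) ≠ 0 := by
      rwa [Ne, map_eq_zero]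
    rw [hPz]
    have e1 : z * Complex.I * (1 - a * z) - (z - a) * -(a * (z * Complex.I)) =
        Complex.I * (1 - a ^ 2) * z := by ring
    rw [e1, ← hconj]
    field_simp
  have hconst : ∀ θ, y θ * Complex.exp (-(Complex.I * α θ)) = 1 := by
    have hd : ∀ θ, HasDerivAt (fun θ => y θ * Complex.exp (-(Complex.I * α θ))) 0 θ := by
      intro θ
      have h1 : HasDerivAt (fun θ => Complex.exp (-(Complex.I * α θ)))
          (Complex.exp (-(Complex.I * α θ)) * (-(Complex.I * P θ))) θ :=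
        (((hαd θ).ofReal_comp.const_mul Complex.I).fun_neg).cexp
      have h2 := (hyd θ).fun_mul h1
      exact h2.congr_deriv (by ring)
    intro θ
    have h3 := is_const_of_deriv_eq_zero (fun θ => (hd θ).differentiableAt)
      (fun θ => (hd θ).deriv) θ 0
    rw [h3]
    have hα0 : α 0 = 0 := by simp [hα]
    have hy0 : y 0 = 1 := by
      simp only [hy]
      have h0 := one_sub_ne ha0 ha1 (z := 1) (by simp)
      simp only [circleMap_zero, Complex.ofReal_zero, zero_mul, Complex.exp_zero, mul_one,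
        Complex.ofReal_one] at h0 ⊢
      exact div_self h0
    rw [hα0, hy0]; simp
  have hyexp : ∀ θ, y θ = circleMap 0 1 (α θ) := by
    intro θ
    have h1 := hconst θ
    rw [Complex.exp_neg, mul_inv_eq_one₀ (Complex.exp_ne_zero _)] at h1
    rw [h1, circleMap_zero]
    simp [mul_comm]
  set H : ℝ → ℝ := fun s => G (phi a (circleMap 0 1 s)) with hH
  have hHc : Continuous H := by
    have h1 : ContinuousOn (fun z => G (phi a z)) (Metric.closedBall 0 1) := by
      refine hG.comp (fun z hz => ?_) (fun z hz => ?_)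
      · exact ((analyticAt_phi ha0 ha1 (mem_closedBall_zero_iff.mp hz)).continuousAt).continuousWithinAt
      · rw [mem_closedBall_zero_iff]
        exact norm_phi_le ha0 ha1 (mem_closedBall_zero_iff.mp hz)
    exact h1.comp_continuous (continuous_circleMap 0 1) (fun θ => by
      rw [mem_closedBall_zero_iff]; exact (hn1 θ).le)
  have hsub := intervalIntegral.integral_comp_mul_deriv (a := 0) (b := 2 * π)
    (fun x _ => hαd x) hPc.continuousOn hHc
  have hα0 : α 0 = 0 := by simp [hα]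
  have hα1 : α (2 * π) = 2 * π := hI
  rw [hα0, hα1] at hsub
  rw [circleAverage_def, circleAverage_def]
  congr 1
  show _ = ∫ s in (0:ℝ)..2 * π, H s
  rw [← hsub]
  refine intervalIntegral.integral_congr (fun θ _ => ?_)
  show poissonKernel 0 (a : ℂ) (circleMap 0 1 θ) * G (circleMap 0 1 θ) = H (α θ) * P θ
  have h5 : phi a (circleMap 0 1 (α θ)) = circleMap 0 1 θ := by
    rw [← hyexp θ]
    exact phi_psi ha0 ha1 (hn1 θ).le
  simp only [hH]
  rw [h5]
  exact mul_comm _ _

theorem norm_rpow_le_poisson {a : ℝ} (ha0 : 0 ≤ a) (ha1 : a < 1) {g : ℂ → ℂ}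
    (hg : AnalyticOnNhd ℂ g (Metric.closedBall 0 1)) {p : ℝ} (hp : 0 < p) :
    ‖g a‖ ^ p ≤ circleAverage (fun z => poissonKernel 0 (a : ℂ) z * ‖g z‖ ^ p) 0 1 := by
  rw [poisson_cov ha0 ha1 (fun z => ‖g z‖ ^ p)
    ((hg.continuousOn.norm).rpow_const (fun _ _ => Or.inr hp.le))]
  have h1 : AnalyticOnNhd ℂ (fun z => g (phi a z)) (Metric.closedBall 0 1) := by
    intro z hz
    have hz' := mem_closedBall_zero_iff.mp hz
    have h2 := hg (phi a z) (mem_closedBall_zero_iff.mpr (norm_phi_le ha0 ha1 hz'))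
    exact h2.comp (analyticAt_phi ha0 ha1 hz')
  have h2 := norm_rpow_le_circleAverage h1 hp
  have h3 : phi a 0 = a := by simp [phi]
  rwa [h3] at h2

end RMax

end

end Pool.Agent.Lib.MP7ebef4
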