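import Pool.Agent.Lib.MP_7ebef4_an.TreeBasic

/-! The complete system of data used in the error analysis, and tree geometry. -/

set_option autoImplicit false

open MeasureTheory Set

namespace Pool.Agent.Lib.MP7ebef4

noncomputable section

variable {n : ℕ}

/-- all data of the construction -/
structure Sys (n : ℕ) (cT C K : ℝ) where
  T : Tree n cT
  m : ℝ
  c : T.ι → ℝ
  hc : IsC T C m c
  ε : ℝ
  p' : ℝ
  resp : T.ι → T.ι
  hp : IsPump T c K ε p' resp
  L : ℕ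
  N₀ : ℕ
  eb : ℝ
  b : T.ι → Fin N₀
  hb : IsBlock T resp L N₀ eb b
  p'' : ℝ
  N : ℕ
  u : T.ι → E N
  hu : IsDir T c resp L N₀ p'' b u
  hK : 1 ≤ K
  hC : 1 ≤ C
  hcT : 0 < cT
  hε : 0 < ε
  hp' : 8 ≤ p'
  heb : 0 ≤ eb
  hp'' : 8 ^ L * (p' + 2) ≤ p''
  hn : 0 < n

/-! ### radii and heights -/

theorem rr_eq (i : ℕ) : rr i = 2 * Real.sqrt (hh i) := by rw [sqrt_hh]; ring

theorem hh_succ' (i : ℕ) : hh i = 64 * hh (i+1) := by rw [hh_succ]; ring

theorem hh_add' (i j : ℕ) : hh i = 64 ^ j * hh (i + j) := by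
  rw [hh_add]
  have : (64:ℝ)^j * (1/64)^j = 1 := by rw [← mul_pow]; norm_num
  calc hh i = hh i * ((64:ℝ)^j * (1/64)^j) := by rw [this, mul_one]
    _ = _ := by ring

theorem rr_add' (i j : ℕ) : rr i = 8 ^ j * rr (i + j) := by
  unfold rr; rw [pow_add]
  have : (8:ℝ)^j * (1/8)^j = 1 := by rw [← mul_pow]; norm_num
  calc 2 * (1/8:ℝ)^i = 2 * (1/8)^i * ((8:ℝ)^j * (1/8)^j) := by rw [this, mul_one]
    _ = _ := by ring

namespace Tree

variable {cT : ℝ} (T : Tree n cT)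

theorem r_eq (x : T.ι) : T.r x = 2 * Real.sqrt (T.h x) := rr_eq _

/-- ancestor of `x` at level `j` -/
def ancAt (x : T.ι) (j : ℕ) : T.ι := T.par^[T.lev x - j] x

theorem le_ancAt (x : T.ι) (j : ℕ) : T.le x (T.ancAt x j) := ⟨_, rfl⟩

theorem lev_ancAt (x : T.ι) {j : ℕ} (hj : j ≤ T.lev x) : T.lev (T.ancAt x j) = j := by
  unfold ancAt; rw [lev_iter]; omega

theorem h_le_d (x : T.ι) (z : E n) (hz : ‖z‖ ≤ 1) : T.h x ≤ d z (T.a x) :=
  le_d_rad (T.norm_pt x) (T.h_pos x).le (T.h_le_one x) z hz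

theorem rho_a_le (x : T.ι) (z : E n) (hz : ‖z‖ ≤ 1) : rho z (T.a x) ≤ rho z (T.pt x) + Real.sqrt (T.h x) :=
  rho_rad_le (T.norm_pt x) (T.h_pos x).le (T.h_le_one x) z hz

theorem rho_pt_le (x : T.ι) (z : E n) (hz : ‖z‖ ≤ 1) : rho z (T.pt x) ≤ 2 * rho z (T.a x) :=
  rho_le_rad (T.norm_pt x) (T.h_pos x).le (T.h_le_one x) z hz

theorem dl_a_lower (x : T.ι) : T.h x ≤ dl (T.a x) := by
  unfold Tree.a
  rw [dl_rad (T.norm_pt x) (T.h_pos x).le (T.h_le_one x)]
  have h1 := T.h_pos x; have h2 := T.h_le_one x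
  nlinarith

theorem dl_a_upper (x : T.ι) : dl (T.a x) ≤ 2 * T.h x := by
  unfold Tree.a
  rw [dl_rad (T.norm_pt x) (T.h_pos x).le (T.h_le_one x)]
  have h1 := T.h_pos x
  nlinarith

/-! localisation -/

theorem loc_rho_anc {w : E n} (hw : w ∈ B n) {y : T.ι} (h : T.le (T.loc w) y) :
    rho w (T.pt y) ≤ 8 * Real.sqrt (T.h y) := by
  have h1 := T.loc_near w hw
  have h2 := T.rho_le_of_le h
  have h3 := rho_tri w (T.pt (T.loc w)) (T.pt y) (mem_B.1 hw).le (T.norm_pt _).le (T.norm_pt _).le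
  have h4 : rr (T.lev (T.loc w)) ≤ T.r y := rr_anti (T.lev_le_of_le h)
  have h5 := T.r_eq y
  have h6 := T.r_pos y
  linarith

theorem loc_d_anc {w : E n} (hw : w ∈ B n) {y : T.ι} (h : T.le (T.loc w) y) :
    d w (T.a y) ≤ 81 * T.h y := by
  have h1 := T.loc_rho_anc hw h
  have h2 := T.rho_a_le y w (mem_B.1 hw).le
  have h3 : rho w (T.a y) ≤ 9 * Real.sqrt (T.h y) := by linarith
  have h4 := rho_nonneg w (T.a y)
  have h5 := Real.sq_sqrt (T.h_pos y).le
  rw [← rho_sq]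
  nlinarith

theorem dl_le_h_anc {w : E n} (hw : w ∈ B n) {y : T.ι} (h : T.le (T.loc w) y) : dl w ≤ T.h y :=
  (T.loc_upper w hw).trans (hh_anti (T.lev_le_of_le h))

/-- `h_{loc z} ≤ 128 d(z,·)` or `loc z` is at the last level -/
theorem h_loc_le (z : E n) (hz : z ∈ B n) : T.h (T.loc z) ≤ 64 * dl z ∨ T.lev (T.loc z) = T.I := by
  by_cases h : T.lev (T.loc z) < T.I
  · left
    have := T.loc_lower z hz h
    have h2 := hh_succ' (T.lev (T.loc z))
    unfold Tree.h; linarith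
  · right
    have := T.lev_le (T.loc z); omega

theorem reg_node_point (v : T.ι) (z : E n) (hz : z ∈ B n) :
    T.h v + T.h (T.loc z) + d (T.pt v) (T.pt (T.loc z)) ≤ 2500 * d z (T.a v) := by
  have hz1 := (mem_B.1 hz).le
  have h1 := T.h_le_d v z hz1
  have h2 : T.h (T.loc z) ≤ 128 * d z (T.a v) := by
    rcases T.h_loc_le z hz with h | h
    · have := dl_le_left z (T.a v) (T.norm_a_le v); linarith
    · have : T.h (T.loc z) ≤ T.h v := by
        unfold Tree.h; rw [h]; exact hh_anti (T.lev_le v)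
      have := d_nonneg z (T.a v)
      linarith
  have h3 : rho (T.pt v) (T.pt (T.loc z)) ≤ 48 * rho z (T.a v) := by
    have t1 := rho_tri (T.pt v) z (T.pt (T.loc z)) (T.norm_pt _).le hz1 (T.norm_pt _).le
    have t2 := T.rho_pt_le v z hz1
    rw [rho_comm (T.pt v) z] at t1
    have t3 := T.loc_near z hz
    have t4 : rr (T.lev (T.loc z)) = 2 * Real.sqrt (T.h (T.loc z)) := rr_eq _
    have t5 : Real.sqrt (T.h (T.loc z)) ≤ 11.5 * rho z (T.a v) := by
      rw [show (11.5:ℝ) * rho z (T.a v) = Real.sqrt ((11.5)^2 * d z (T.a v)) by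
        rw [Real.sqrt_mul (by norm_num), Real.sqrt_sq (by norm_num)]; rfl]
      apply Real.sqrt_le_sqrt
      have := d_nonneg z (T.a v)
      nlinarith
    linarith
  have h4 : d (T.pt v) (T.pt (T.loc z)) ≤ 2304 * d z (T.a v) := by
    rw [← rho_sq, ← rho_sq z]
    have := rho_nonneg (T.pt v) (T.pt (T.loc z))
    nlinarith
  have := d_nonneg z (T.a v)
  linarith

theorem reg_point_point (w z : E n) (hw : w ∈ B n) (hz : z ∈ B n) :
    (T.h (T.loc w) + T.h (T.loc z) + d (T.pt (T.loc w)) (T.pt (T.loc z))) * dl w ≤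
      20000 * d z w * T.h (T.loc w) := by
  have hz1 := (mem_B.1 hz).le
  have hw1 := (mem_B.1 hw).le
  have hD := d_nonneg z w
  have hdw := dl_le_right z w hz1
  have hdz := dl_le_left z w hw1
  have hwp := dl_pos hw
  have hup : dl w ≤ T.h (T.loc w) := T.dl_le_h_anc hw (T.le_refl _)
  have h2 : T.h (T.loc z) ≤ 128 * d z w + T.h (T.loc w) := by
    rcases T.h_loc_le z hz with h | h
    · have := T.h_pos (T.loc w); linarith
    · have : T.h (T.loc z) ≤ T.h (T.loc w) := by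
        unfold Tree.h; rw [h]; exact hh_anti (T.lev_le _)
      linarith
  have h3 : d (T.pt (T.loc w)) (T.pt (T.loc z)) ≤ 4 * (16 * T.h (T.loc w) + d z w) + 64 * T.h (T.loc z) := by
    have t1 := rho_tri (T.pt (T.loc w)) w (T.pt (T.loc z)) (T.norm_pt _).le hw1 (T.norm_pt _).le
    have t2 := rho_tri w z (T.pt (T.loc z)) hw1 hz1 (T.norm_pt _).le
    have t3 := T.loc_near z hz
    have t3' := T.loc_near w hw
    rw [rho_comm w (T.pt (T.loc w))] at t3'
    rw [rr_eq] at t3 t3'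
    have e1 : hh (T.lev (T.loc z)) = T.h (T.loc z) := rfl
    have e2 : hh (T.lev (T.loc w)) = T.h (T.loc w) := rfl
    rw [e1] at t3; rw [e2] at t3'
    rw [rho_comm w z] at t2
    have s1 := Real.sq_sqrt (T.h_pos (T.loc z)).le
    have s2 := Real.sq_sqrt (T.h_pos (T.loc w)).le
    have s3 := rho_sq z w
    rw [← rho_sq (T.pt (T.loc w))]
    set A := Real.sqrt (T.h (T.loc z))
    set B' := Real.sqrt (T.h (T.loc w))
    set D := rho z w
    have hle : rho (T.pt (T.loc w)) (T.pt (T.loc z)) ≤ 4 * B' + D + 4 * A := by linarith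
    have p0 := rho_nonneg (T.pt (T.loc w)) (T.pt (T.loc z))
    have hsq : rho (T.pt (T.loc w)) (T.pt (T.loc z)) ^ 2 ≤ (4 * B' + D + 4 * A) ^ 2 := by
      apply pow_le_pow_left₀ p0 hle
    nlinarith [sq_nonneg (4 * B' - D), sq_nonneg (4*B' + D - 4 * A)]
  have h4 : T.h (T.loc w) + T.h (T.loc z) + d (T.pt (T.loc w)) (T.pt (T.loc z)) ≤
      9000 * d z w + 200 * T.h (T.loc w) := by linarith
  have h5 := T.h_pos (T.loc w)
  calc (T.h (T.loc w) + T.h (T.loc z) + d (T.pt (T.loc w)) (T.pt (T.loc z))) * dl w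
      ≤ (9000 * d z w + 200 * T.h (T.loc w)) * dl w := by gcongr
    _ = 9000 * d z w * dl w + 200 * dl w * T.h (T.loc w) := by ring
    _ ≤ 9000 * d z w * T.h (T.loc w) + 200 * (2 * d z w) * T.h (T.loc w) := by
        gcongr
    _ ≤ 20000 * d z w * T.h (T.loc w) := by nlinarith [mul_nonneg hD h5.le]

end Tree

end

end Pool.Agent.Lib.MP7ebef4
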